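import Mathlib

/-!
# MP_ec42c8_pr : definitions

The random graph process and the uniform random `d`-regular graph on `Fin n`, for fixed `d`.
Graphs are finite sets of edges (`Gr n`).  Everything random is a uniformly random element of a
finite type; `av` is the average of a real function over a finite type, `pr` the proportion of
elements with a property, `avOn s` the average over a finite set `s`.
-/

set_option autoImplicit false

namespace Pool.Agent.HC

open Finset
open scoped Classical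

/-! ### Averages -/

/-- Average over a finite type. -/
noncomputable def av {Ω : Type*} [Fintype Ω] (f : Ω → ℝ) : ℝ :=
  (∑ ω, f ω) / (Fintype.card Ω : ℝ)

/-- Average over a finite set. -/
noncomputable def avOn {α : Type*} (s : Finset α) (f : α → ℝ) : ℝ :=
  (∑ a ∈ s, f a) / (s.card : ℝ)

/-- Probability for the uniform distribution on a finite type. -/
noncomputable def pr {Ω : Type*} [Fintype Ω] (P : Ω → Prop) : ℝ :=
  av (fun ω => if P ω then (1 : ℝ) else 0)

/-- Functions with values in `[0,1]`. -/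
def Unit01 {α : Type*} (Φ : α → ℝ) : Prop := ∀ x, 0 ≤ Φ x ∧ Φ x ≤ 1

/-! ### Graphs, regular graphs, the process -/

/-- The pairs of distinct vertices. -/
abbrev Edge (n : ℕ) : Type := {e : Sym2 (Fin n) // ¬ e.IsDiag}

/-- A graph on `Fin n`, given by its set of edges. -/
abbrev Gr (n : ℕ) : Type := Finset (Edge n)

/-- The number of pairs. -/
abbrev NE (n : ℕ) : ℕ := Fintype.card (Edge n)

/-- The orderings of all pairs: the possible runs of the random graph process. -/
abbrev Ord (n : ℕ) : Type := Fin (NE n) ≃ Edge n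

/-- The edge between two different vertices. -/
def mkE {n : ℕ} (x y : Fin n) (h : x ≠ y) : Edge n :=
  ⟨s(x, y), by rw [Sym2.mk_isDiag_iff]; exact h⟩

/-- Degree. -/
noncomputable def deg {n : ℕ} (H : Gr n) (v : Fin n) : ℕ := (H.filter (fun e => v ∈ e.1)).card

/-- The `d`-regular graphs on `Fin n` that contain `F`. -/
noncomputable def Reg (n d : ℕ) (F : Gr n) : Finset (Gr n) :=
  Finset.univ.filter (fun H => F ⊆ H ∧ ∀ v, deg H v = d)

/-- The graph after `i` steps. -/
noncomputable def proc {n : ℕ} (σ : Ord n) (i : ℕ) : Gr n :=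
  Finset.univ.filter (fun e => (σ.symm e : ℕ) < i)

/-- The event of the problem: while the maximum degree is at most `d` the process is inside `H`,
and when the minimum degree is at least `d` it contains `H`. -/
def Fits {n : ℕ} (d : ℕ) (σ : Ord n) (H : Gr n) : Prop :=
  ∀ i, ((∀ v, deg (proc σ i) v ≤ d) → proc σ i ⊆ H) ∧
    ((∀ v, d ≤ deg (proc σ i) v) → H ⊆ proc σ i)

/-- The last time at which the maximum degree is at most `d`. -/
noncomputable def istar {n : ℕ} (d : ℕ) (σ : Ord n) : ℕ :=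
  Nat.findGreatest (fun i => ∀ v, deg (proc σ i) v ≤ d) (NE n)

/-- The graph at the last time at which the maximum degree is at most `d`. -/
noncomputable def KK {n : ℕ} (d : ℕ) (σ : Ord n) : Gr n := proc σ (istar d σ)

/-! ### Orderings from arrays of pairs -/

/-- The edges that occur in an array of ordered pairs of vertices. -/
noncomputable def bedges {n m : ℕ} (B : Fin m → Fin n × Fin n) : Gr n :=
  Finset.univ.filter (fun e => ∃ t, s((B t).1, (B t).2) = e.1)

/-- The times at which the edge `e` occurs in the array. -/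
def hitT {n m : ℕ} (B : Fin m → Fin n × Fin n) (e : Edge n) : Set ℕ :=
  {t | ∃ h : t < m, s((B ⟨t, h⟩).1, (B ⟨t, h⟩).2) = e.1}

/-- The rank of an edge: its first time in the array, and for the other edges `m` plus the rank
in the auxiliary ordering `ρ`. -/
noncomputable def rk {n m : ℕ} (B : Fin m → Fin n × Fin n) (ρ : Edge n ≃ Fin (NE n))
    (e : Edge n) : ℕ :=
  if (hitT B e).Nonempty then sInf (hitT B e) else m + (ρ e : ℕ)

/-- The number of edges of smaller rank. -/
noncomputable def posOf {n : ℕ} (r : Edge n → ℕ) (e : Edge n) : ℕ :=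
  (Finset.univ.filter (fun e' : Edge n => r e' < r e)).card

/-- The ordering of the edges by rank (`ρ₀` is used if the rank is not injective, which never
happens below). -/
noncomputable def ordOf {n : ℕ} (r : Edge n → ℕ) : Ord n :=
  if h : Function.Bijective (fun e : Edge n =>
      (⟨posOf r e, by
        have h1 : (Finset.univ.filter (fun e' : Edge n => r e' < r e)) ⊂ Finset.univ := by
          refine Finset.filter_ssubset.2 ⟨e, Finset.mem_univ _, lt_irrefl _⟩
        simpa [posOf] using Finset.card_lt_card h1⟩ : Fin (NE n)))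
  then (Equiv.ofBijective _ h).symm
  else (Fintype.equivFin (Edge n)).symm

/-- Two arrays, one after the other. -/
def app {n a m : ℕ} (A : Fin a → Fin n × Fin n) (B : Fin m → Fin n × Fin n) :
    Fin (a + m) → Fin n × Fin n := Fin.append A B

/-! ### Relabelling -/

/-- Relabelling of edges. -/
def relE {n : ℕ} (g : Equiv.Perm (Fin n)) : Edge n ≃ Edge n where
  toFun e := ⟨e.1.map g, by
    obtain ⟨e, he⟩ := e
    induction e using Sym2.inductionOn with
    | hf x y =>
      simp only [Sym2.map_mk, Sym2.mk_isDiag_iff] at he ⊢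
      exact fun h => he (g.injective h)⟩
  invFun e := ⟨e.1.map g.symm, by
    obtain ⟨e, he⟩ := e
    induction e using Sym2.inductionOn with
    | hf x y =>
      simp only [Sym2.map_mk, Sym2.mk_isDiag_iff] at he ⊢
      exact fun h => he (g.symm.injective h)⟩
  left_inv e := by
    apply Subtype.ext
    simp [Sym2.map_map]
  right_inv e := by
    apply Subtype.ext
    simp [Sym2.map_map]

/-- Relabelling of graphs. -/
noncomputable def relG {n : ℕ} (g : Equiv.Perm (Fin n)) (H : Gr n) : Gr n :=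
  H.map (relE g).toEmbedding

/-- Relabelling of vertex sets. -/
noncomputable def relV {n : ℕ} (g : Equiv.Perm (Fin n)) (L : Finset (Fin n)) : Finset (Fin n) :=
  L.map g.toEmbedding

/-- Relabelling of tables of picks. -/
def relT {n k : ℕ} (g : Equiv.Perm (Fin n)) (θ : Fin n → Fin k → Fin n) :
    Fin n → Fin k → Fin n := fun v i => g (θ (g.symm v) i)

/-- Relabelling of arrays. -/
def relB {n m : ℕ} (g : Equiv.Perm (Fin n)) (B : Fin m → Fin n × Fin n) :
    Fin m → Fin n × Fin n := fun t => (g (B t).1, g (B t).2)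

/-! ### Tables of picks -/

/-- The tables of `k` picks for each vertex, all outside `L`. -/
noncomputable def Tk {n : ℕ} (k : ℕ) (L : Finset (Fin n)) : Finset (Fin n → Fin k → Fin n) :=
  Finset.univ.filter (fun θ => ∀ v i, θ v i ∉ L)

/-- The edges between a vertex outside `L` and one of its picks. -/
noncomputable def pk {n k : ℕ} (L : Finset (Fin n)) (θ : Fin n → Fin k → Fin n) : Gr n :=
  Finset.univ.filter (fun e => ∃ v, v ∉ L ∧ ∃ i, e.1 = s(v, θ v i))

/-! ### Star forests -/

/-- `S` is a disjoint union of stars with `d` leaves, whose centres are the elements of `L`. -/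
structure StarForest {n : ℕ} (d : ℕ) (L : Finset (Fin n)) (S : Gr n) : Prop where
  center : ∀ z ∈ L, deg S z = d
  edge : ∀ e ∈ S, ∃ z ∈ L, ∃ x, x ∉ L ∧ e.1 = s(z, x)
  leaf : ∀ x, x ∉ L → deg S x ≤ 1

/-- No vertex is covered by both graphs. -/
def Apart {n : ℕ} (K S : Gr n) : Prop := ∀ v, deg K v = 0 ∨ deg S v = 0

/-! ### The window

The window is an array of `m` ordered pairs (tail, head).  It is built from the tails `u`, the
heads `w` of the free times, the heads `y` of the times whose tail is a tail fewer than `k + 2`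
times, the reserved heads `h` (the first `k + 2` heads of every other vertex); `ρ` is an ordering
of all pairs, used for the pairs that do not occur in the window. -/

/-- How often the tail at time `t` has already been a tail. -/
noncomputable def cnt {n m : ℕ} (u : Fin m → Fin n) (t : Fin m) : ℕ :=
  (Finset.univ.filter (fun t' => t' < t ∧ u t' = u t)).card

/-- How often `v` is a tail. -/
noncomputable def tot {n m : ℕ} (u : Fin m → Fin n) (v : Fin n) : ℕ :=
  (Finset.univ.filter (fun t => u t = v)).card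

/-- The vertices that are a tail fewer than `k + 2` times. -/
noncomputable def Zs {n m : ℕ} (k : ℕ) (u : Fin m → Fin n) : Finset (Fin n) :=
  Finset.univ.filter (fun v => tot u v < k + 2)

/-- The actual head at time `t`: the first `k + 2` heads of a vertex outside `Zs k u` are the
reserved ones, its later heads are the free heads `w t`; the heads of the vertices of `Zs k u`
are `y t`. -/
noncomputable def hd {n m k : ℕ} (u w y : Fin m → Fin n) (h : Fin n → Fin (k + 2) → Fin n)
    (t : Fin m) : Fin n :=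
  if H : k + 2 ≤ tot u (u t) ∧ cnt u t < k + 2 then h (u t) ⟨cnt u t, H.2⟩
  else if k + 2 ≤ cnt u t then w t else y t

/-- The array of ordered pairs of the window. -/
noncomputable def BB {n m k : ℕ} (u w y : Fin m → Fin n) (h : Fin n → Fin (k + 2) → Fin n) :
    Fin m → Fin n × Fin n := fun t => (u t, hd u w y h t)

/-- The number of free arrivals at `z` (`t` is free if its tail was a tail at least `k + 2` times
before). -/
noncomputable def fr {n m : ℕ} (k : ℕ) (u w : Fin m → Fin n) (z : Fin n) : ℕ :=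
  (Finset.univ.filter (fun t => k + 2 ≤ cnt u t ∧ w t = z)).card

/-- The exceptional vertices. -/
noncomputable def Ls {n m : ℕ} (k q : ℕ) (u w : Fin m → Fin n) : Finset (Fin n) :=
  (Zs k u).filter (fun z => fr k u w z < q)

/-- The first `d` neighbours of `z` with respect to a rank. -/
noncomputable def St {n : ℕ} (d : ℕ) (r : Edge n → ℕ) (z : Fin n) : Finset (Fin n) :=
  Finset.univ.filter (fun x => ∃ hx : z ≠ x,
    (Finset.univ.filter (fun y => ∃ hy : z ≠ y, r (mkE z y hy) < r (mkE z x hx))).card < d)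

/-- The stars of the vertices of `L`. -/
noncomputable def SS {n : ℕ} (d : ℕ) (r : Edge n → ℕ) (L : Finset (Fin n)) : Gr n :=
  Finset.univ.filter (fun e => ∃ z ∈ L, ∃ x ∈ St d r z, e.1 = s(z, x))

/-- The leaves of the stars. -/
noncomputable def Lam {n : ℕ} (d : ℕ) (r : Edge n → ℕ) (L : Finset (Fin n)) : Finset (Fin n) :=
  L.biUnion (fun z => St d r z)

/-- The first `k` of the `k + 2` reserved heads of each vertex that are not in `L`. -/
noncomputable def pick {n k : ℕ} (L : Finset (Fin n)) (h : Fin n → Fin (k + 2) → Fin n) :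
    Fin n → Fin k → Fin n :=
  fun v i => ((List.ofFn (h v)).filter (fun x => x ∉ L)).getD i v

/-- `a` assigns to the vertices of `Z \ L` distinct tails of free arrivals, outside `Z ∪ L ∪ Λ`. -/
structure IsSDR {n m k : ℕ} (u w : Fin m → Fin n) (Z L Λ : Finset (Fin n))
    (a : Fin n → Fin k → Fin n) : Prop where
  out : ∀ z ∈ Z \ L, ∀ i, a z i ∉ Z ∧ a z i ∉ L ∧ a z i ∉ Λ
  arr : ∀ z ∈ Z \ L, ∀ i, ∃ t, k + 2 ≤ cnt u t ∧ u t = a z i ∧ w t = z
  inj : ∀ z ∈ Z \ L, ∀ z' ∈ Z \ L, ∀ i i', a z i = a z' i' → z = z' ∧ i = i'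

/-- The chosen assignment. -/
noncomputable def sdr {n m k : ℕ} (u w : Fin m → Fin n) (Z L Λ : Finset (Fin n)) :
    Fin n → Fin k → Fin n :=
  if h : ∃ a : Fin n → Fin k → Fin n, IsSDR u w Z L Λ a then h.choose else fun v _ => v

/-- Overwriting a table on a set of vertices. -/
noncomputable def ovw {n k : ℕ} (Z : Finset (Fin n)) (a θ : Fin n → Fin k → Fin n) :
    Fin n → Fin k → Fin n := fun v i => if v ∈ Z then a v i else θ v i

/-- The table of picks of the window. -/
noncomputable def TT {n m k : ℕ} (d q : ℕ) (u w y : Fin m → Fin n)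
    (h : Fin n → Fin (k + 2) → Fin n) (ρ : Edge n ≃ Fin (NE n)) : Fin n → Fin k → Fin n :=
  ovw (Zs k u \ Ls k q u w)
    (sdr u w (Zs k u) (Ls k q u w) (Lam d (rk (BB u w y h) ρ) (Ls k q u w)))
    (pick (Ls k q u w) h)

/-- The good event of the window. -/
structure GoodW {n m k : ℕ} (d q r l : ℕ) (u w y : Fin m → Fin n)
    (h : Fin n → Fin (k + 2) → Fin n) (ρ : Edge n ≃ Fin (NE n)) : Prop where
  cardZ : (Zs k u).card ≤ r
  cardL : (Ls k q u w).card ≤ l
  star : StarForest d (Ls k q u w) (SS d (rk (BB u w y h) ρ) (Ls k q u w))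
  disj : ∀ z ∈ Zs k u, z ∉ Lam d (rk (BB u w y h) ρ) (Ls k q u w)
  sdr : ∃ a : Fin n → Fin k → Fin n,
    IsSDR u w (Zs k u) (Ls k q u w) (Lam d (rk (BB u w y h) ρ) (Ls k q u w)) a
  hits : ∀ v, (Finset.univ.filter (fun i => h v i ∈ Ls k q u w)).card ≤ 2

/-- The randomness of the window: tails, free heads, heads of the vertices with few tails, reserved
heads, end ordering. -/
abbrev WΩ (n k m : ℕ) : Type :=
  (Fin m → Fin n) × (Fin m → Fin n) × (Fin m → Fin n) × (Fin n → Fin (k + 2) → Fin n) ×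
    (Edge n ≃ Fin (NE n))

/-- The first `d` neighbours of `z` in the end ordering. -/
noncomputable def Rz {n : ℕ} (d : ℕ) (ρ : Edge n ≃ Fin (NE n)) (z : Fin n) : Finset (Fin n) :=
  St d (fun e => (ρ e : ℕ)) z

/-- The tails of the free arrivals at vertices with few tails. -/
noncomputable def NZ {n m : ℕ} (k : ℕ) (u w : Fin m → Fin n) : Finset (Fin n) :=
  Finset.univ.filter (fun x => ∃ t, k + 2 ≤ cnt u t ∧ u t = x ∧ w t ∈ Zs k u)

/-- The times whose tail is in `Q`. -/
noncomputable def tm {n m : ℕ} (u : Fin m → Fin n) (Q : Finset (Fin n)) : Finset (Fin m) :=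
  Finset.univ.filter (fun t => u t ∈ Q)

/-- The bad event for the tails and the free heads. -/
def YBad {n m : ℕ} (k q r l r' : ℕ) (u w : Fin m → Fin n) : Prop :=
  r < (Zs k u).card ∨ l < (Ls k q u w).card ∨ r' < (NZ k u w).card ∨
  (∃ t t', t ≠ t' ∧ k + 2 ≤ cnt u t ∧ k + 2 ≤ cnt u t' ∧ u t = u t' ∧ w t ≠ w t' ∧
    w t ∈ Ls k q u w ∧ w t' ∈ Zs k u) ∨
  (∃ t₁ t₂ t₃, t₁ ≠ t₂ ∧ t₁ ≠ t₃ ∧ t₂ ≠ t₃ ∧ u t₁ = u t₂ ∧ u t₁ = u t₃ ∧
    w t₁ ∈ Zs k u ∧ w t₂ ∈ Zs k u ∧ w t₃ ∈ Zs k u) ∨
  (∃ t t', t ≠ t' ∧ u t = u t' ∧ w t = w t' ∧ w t ∈ Zs k u)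

/-- The bad event for the other variables. -/
def VBad {n m k : ℕ} (d : ℕ) (L Z N : Finset (Fin n)) (TL TZ : Finset (Fin m))
    (y : Fin m → Fin n) (h : Fin n → Fin (k + 2) → Fin n) (ρ : Edge n ≃ Fin (NE n)) : Prop :=
  (∃ t ∈ TL, y t ∈ Z) ∨ (∃ t ∈ TZ, y t ∈ L) ∨ (∃ z ∈ L, ∃ x ∈ Rz d ρ z, x ∈ Z) ∨
  (∃ t ∈ TL, y t ∈ N) ∨ (∃ x ∈ N, ∃ i, h x i ∈ L) ∨ (∃ z ∈ L, ∃ x ∈ Rz d ρ z, x ∈ N) ∨
  (∃ t ∈ TL, ∃ t' ∈ TL, t ≠ t' ∧ y t = y t') ∨ (∃ t ∈ TL, ∃ i, h (y t) i ∈ L) ∨
  (∃ t ∈ TL, ∃ z ∈ L, y t ∈ Rz d ρ z) ∨ (∃ x, ∃ i j, i ≠ j ∧ h x i ∈ L ∧ h x j ∈ L) ∨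
  (∃ z ∈ L, ∃ x ∈ Rz d ρ z, ∃ i, h x i ∈ L) ∨
  (∃ z ∈ L, ∃ z' ∈ L, z ≠ z' ∧ ∃ x ∈ Rz d ρ z, x ∈ Rz d ρ z')

/-- Length of the window. -/
noncomputable def mW (η : ℝ) (n : ℕ) : ℕ := ⌊(1 - η) / 2 * n * Real.log n⌋₊

/-- Threshold for the number of free arrivals. -/
noncomputable def qW (η : ℝ) (n : ℕ) : ℕ := ⌈η ^ 2 * Real.log n⌉₊

/-- Bound for the number of vertices with few tails. -/
noncomputable def rW (η : ℝ) (n : ℕ) : ℕ := ⌊(n : ℝ) ^ (1 / 2 + 2 * η)⌋₊

/-- Bound for the number of exceptional vertices. -/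
noncomputable def lW (η : ℝ) (n : ℕ) : ℕ := ⌊(n : ℝ) ^ (4 * η)⌋₊

/-- Length of the initial array. -/
noncomputable def aW (γ : ℝ) (n : ℕ) : ℕ := ⌈(n : ℝ) ^ (1 - γ)⌉₊

/-! ### Pairings of points -/

/-- The perfect matchings of the finite set `P`, as fixed point free involutions. -/
abbrev Pairing (P : Type) : Type := {π : Equiv.Perm P // ∀ p, π p ≠ p ∧ π (π p) = p}

/-- The points of the vertices that are not used by `F`. -/
abbrev Pt {n : ℕ} (d : ℕ) (F : Gr n) : Type := {p : Fin n × Fin d // deg F p.1 ≤ (p.2 : ℕ)}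

/-- The pairing completes `F` to a simple graph. -/
def Simp {n d : ℕ} (F : Gr n) (π : Pairing (Pt d F)) : Prop :=
  ∀ p : Pt d F, p.1.1 ≠ (π.1 p).1.1 ∧ (∀ e ∈ F, e.1 ≠ s(p.1.1, (π.1 p).1.1)) ∧
    ∀ q : Pt d F, q ≠ p → q.1.1 = p.1.1 → (π.1 q).1.1 ≠ (π.1 p).1.1

/-- The graph of a pairing together with `F`. -/
noncomputable def grP {n d : ℕ} (F : Gr n) (π : Pairing (Pt d F)) : Gr n :=
  F ∪ Finset.univ.filter (fun e => ∃ p : Pt d F, e.1 = s(p.1.1, (π.1 p).1.1))

/-- The probability that a uniformly random completion of `F` is simple. -/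
noncomputable def PS {n : ℕ} (d : ℕ) (F : Gr n) : ℝ := pr (fun π : Pairing (Pt d F) => Simp F π)

end Pool.Agent.HC
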