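import Pool.Agent.Lib.MP_ec42c8_pr.P01

/-!
# P03 : simple pairings and regular graphs

Let `F` have all degrees at most `d`.  `Pt d F` has `d - deg F v` points `p` with `p.1.1 = v`.
`P03b`: if `Simp F π` then each vertex `v` gets `d - deg F v` new edges, all different and not in `F`:
the map `p ↦ s(p.1.1, (π p).1.1)` from the points of `v` to the edges at `v` is injective with image the
edges of `grP F π \ F` at `v`.  So `deg (grP F π) v = d`.
`P03a`: let `H ∈ Reg n d F`.  The pairings `π` with `Simp F π`, `grP F π = H` correspond to the families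
of bijections `β v` from the points of `v` to the neighbours of `v` in `H \ F` (both sets have
`d - deg F v` elements): `β v p = (π p).1.1`, and `π p = (β x)⁻¹ v` where `x = β v p`.  (Conversely, given the
`β v`, this `π` is a fixed point free involution, `Simp` holds since `β v` is injective and its values are
neighbours in `H \ F`, and the graph is `H`.)  The number of families is `∏ v, (d - deg F v)!`.
`P03c`: sum of `P03a` over `H`.  `P03d`: both sides are `1 / card (Pairing ..)` times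
`∑ over H of Φ H ∏ v, (d - deg F v)!`.
`P03e`: `∑ v, deg F v = 2 card F`.
-/

set_option autoImplicit false

namespace Pool.Agent.HC

open Finset
open scoped Classical

lemma p03_mkE_comm {n : ℕ} {x y : Fin n} (h : x ≠ y) : mkE x y h = mkE y x h.symm :=
  Subtype.ext Sym2.eq_swap

/-- The points at a vertex. -/
lemma p03_card_pts {n d : ℕ} (F : Gr n) (v : Fin n) :
    Fintype.card {p : Pt d F // p.1.1 = v} = d - deg F v := by
  have e : {p : Pt d F // p.1.1 = v} ≃ {i : Fin d // deg F v ≤ (i : ℕ)} :=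
    { toFun := fun p => ⟨p.1.1.2, by have := p.1.2; rwa [p.2] at this⟩
      invFun := fun i => ⟨⟨(v, i.1), i.2⟩, rfl⟩
      left_inv := fun p => by
        obtain ⟨⟨⟨w, i⟩, h⟩, hw⟩ := p
        simp only at hw
        subst hw
        rfl
      right_inv := fun i => rfl }
  rw [Fintype.card_congr e, Fintype.card_subtype]
  by_cases hd : deg F v < d
  · have : (Finset.univ.filter (fun i : Fin d => deg F v ≤ (i : ℕ))) = Finset.Ici ⟨deg F v, hd⟩ := by
      ext i
      simp [Fin.le_def]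
    rw [this, Fin.card_Ici]
  · have : (Finset.univ.filter (fun i : Fin d => deg F v ≤ (i : ℕ))) = ∅ := by
      ext i
      simp only [Finset.mem_filter, Finset.mem_univ, true_and, Finset.notMem_empty, iff_false]
      have := i.2
      omega
    rw [this, Finset.card_empty]
    omega

/-- The neighbours of a vertex. -/
lemma p03_card_nbs {n : ℕ} (H : Gr n) (v : Fin n) :
    Fintype.card {w : Fin n // ∃ h : v ≠ w, mkE v w h ∈ H} = deg H v := by
  rw [deg, ← Fintype.card_coe]
  symm
  refine Fintype.card_congr (Equiv.ofBijective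
    (fun e => ⟨Sym2.Mem.other (Finset.mem_filter.1 e.2).2, ?_⟩) ⟨?_, ?_⟩)
  · have hv : v ∈ e.1.1 := (Finset.mem_filter.1 e.2).2
    have hs : s(v, Sym2.Mem.other hv) = e.1.1 := Sym2.other_spec hv
    have hne : v ≠ Sym2.Mem.other hv := by
      intro h
      apply e.1.2
      rw [← hs, Sym2.mk_isDiag_iff]
      exact h
    refine ⟨hne, ?_⟩
    have : mkE v (Sym2.Mem.other hv) hne = e.1 := Subtype.ext hs
    rw [this]
    exact (Finset.mem_filter.1 e.2).1
  · intro e e' h
    have hv : v ∈ e.1.1 := (Finset.mem_filter.1 e.2).2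
    have hv' : v ∈ e'.1.1 := (Finset.mem_filter.1 e'.2).2
    have h' : Sym2.Mem.other hv = Sym2.Mem.other hv' := congrArg Subtype.val h
    apply Subtype.ext
    apply Subtype.ext
    rw [← Sym2.other_spec hv, ← Sym2.other_spec hv', h']
  · rintro ⟨w, hne, hw⟩
    refine ⟨⟨mkE v w hne, Finset.mem_filter.2 ⟨hw, Sym2.mem_mk_left v w⟩⟩, ?_⟩
    apply Subtype.ext
    have hv : v ∈ (mkE v w hne).1 := Sym2.mem_mk_left v w
    have hs : s(v, Sym2.Mem.other hv) = s(v, w) := Sym2.other_spec hv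
    exact Sym2.congr_right.1 hs

theorem P03f {n : ℕ} (F : Gr n) : ∑ v, deg F v = 2 * F.card := by
  simp only [deg, Finset.card_filter]
  rw [Finset.sum_comm]
  have : ∀ e ∈ F, ∑ v : Fin n, (if v ∈ e.1 then 1 else 0) = 2 := by
    intro e _
    rw [← Finset.card_filter]
    have h1 : (Finset.univ.filter (fun v => v ∈ e.1)) = e.1.toFinset := by
      ext v; simp
    rw [h1]
    exact Sym2.card_toFinset_of_not_isDiag e.1 e.2
  rw [Finset.sum_congr rfl this]
  simp [mul_comm]

theorem P03e {n d : ℕ} (F : Gr n) (hF : ∀ v, deg F v ≤ d) :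
    Fintype.card (Pt d F) + 2 * F.card = d * n := by
  have h1 : Fintype.card (Pt d F) = ∑ v, (d - deg F v) := by
    have e : (Σ v : Fin n, {p : Pt d F // p.1.1 = v}) ≃ Pt d F :=
      Equiv.sigmaFiberEquiv (fun p : Pt d F => p.1.1)
    rw [← Fintype.card_congr e, Fintype.card_sigma]
    exact Finset.sum_congr rfl fun v _ => p03_card_pts F v
  rw [h1, ← P03f, ← Finset.sum_add_distrib]
  have : ∀ v ∈ (Finset.univ : Finset (Fin n)), (d - deg F v) + deg F v = d := fun v _ =>
    Nat.sub_add_cancel (hF v)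
  rw [Finset.sum_congr rfl this]
  simp [mul_comm]

lemma p03_grP_sup {n d : ℕ} (F : Gr n) (π : Pairing (Pt d F)) : F ⊆ grP F π :=
  Finset.subset_union_left

lemma p03_mem_grP {n d : ℕ} (F : Gr n) (π : Pairing (Pt d F)) (e : Edge n) :
    e ∈ grP F π ↔ e ∈ F ∨ ∃ p : Pt d F, e.1 = s(p.1.1, (π.1 p).1.1) := by
  simp [grP]

lemma p03_new {n d : ℕ} (F : Gr n) (π : Pairing (Pt d F)) (h : Simp F π) (v w : Fin n)
    (hvw : v ≠ w) :
    mkE v w hvw ∈ grP F π \ F ↔ ∃ p : Pt d F, p.1.1 = v ∧ (π.1 p).1.1 = w := by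
  rw [Finset.mem_sdiff, p03_mem_grP]
  constructor
  · rintro ⟨h1 | ⟨p, hp⟩, h2⟩
    · exact absurd h1 h2
    · have hp' : s(v, w) = s(p.1.1, (π.1 p).1.1) := hp
      rw [Sym2.eq_iff] at hp'
      rcases hp' with ⟨a, b⟩ | ⟨a, b⟩
      · exact ⟨p, a.symm, b.symm⟩
      · exact ⟨π.1 p, a.symm, by rw [π.inv, b]⟩
  · rintro ⟨p, hp1, hp2⟩
    have he : (mkE v w hvw).1 = s(p.1.1, (π.1 p).1.1) := by rw [hp1, hp2]; rfl
    exact ⟨Or.inr ⟨p, he⟩, fun hF => (h p).2.1 _ hF he⟩

lemma p03_deg_sdiff {n : ℕ} (F H : Gr n) (hFH : F ⊆ H) (v : Fin n) :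
    deg (H \ F) v + deg F v = deg H v := by
  simp only [deg]
  rw [← Finset.card_union_of_disjoint, ← Finset.filter_union, Finset.sdiff_union_of_subset hFH]
  exact Finset.disjoint_filter_filter Finset.sdiff_disjoint

/-- The map from the points at `v` to the new neighbours. -/
noncomputable def p03_map {n d : ℕ} (F : Gr n) (π : Pairing (Pt d F)) (h : Simp F π) (v : Fin n) :
    {p : Pt d F // p.1.1 = v} → {w : Fin n // ∃ hw : v ≠ w, mkE v w hw ∈ grP F π \ F} :=
  fun p => ⟨(π.1 p.1).1.1, by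
    have h1 : v ≠ (π.1 p.1).1.1 := by
      have := (h p.1).1
      rwa [p.2] at this
    exact ⟨h1, (p03_new F π h v _ h1).2 ⟨p.1, p.2, rfl⟩⟩⟩

lemma p03_map_bij {n d : ℕ} (F : Gr n) (π : Pairing (Pt d F)) (h : Simp F π) (v : Fin n) :
    Function.Bijective (p03_map F π h v) := by
  constructor
  · intro p q hpq
    by_contra hne
    have h1 : q.1 ≠ p.1 := fun h => hne (Subtype.ext h.symm)
    have h2 := (h p.1).2.2 q.1 h1 (by rw [p.2, q.2])
    exact h2 (congrArg Subtype.val hpq).symm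
  · rintro ⟨w, hw, hm⟩
    obtain ⟨p, hp1, hp2⟩ := (p03_new F π h v w hw).1 hm
    exact ⟨⟨p, hp1⟩, Subtype.ext hp2⟩

theorem P03b {n d : ℕ} (F : Gr n) (hF : ∀ v, deg F v ≤ d) (π : Pairing (Pt d F))
    (h : Simp F π) : grP F π ∈ Reg n d F := by
  rw [Reg, Finset.mem_filter]
  refine ⟨Finset.mem_univ _, p03_grP_sup F π, fun v => ?_⟩
  rw [← p03_deg_sdiff F (grP F π) (p03_grP_sup F π) v, ← p03_card_nbs,
    ← Fintype.card_congr (Equiv.ofBijective _ (p03_map_bij F π h v)), p03_card_pts]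
  exact Nat.sub_add_cancel (hF v)

section
variable {n d : ℕ} (F H : Gr n)

/-- The points at a vertex. -/
abbrev p03_pts (d : ℕ) (F : Gr n) (v : Fin n) : Type := {p : Pt d F // p.1.1 = v}

/-- The new neighbours of a vertex. -/
abbrev p03_nb (F H : Gr n) (v : Fin n) : Type := {w : Fin n // ∃ hw : v ≠ w, mkE v w hw ∈ H \ F}

variable (β : ∀ v, p03_pts d F v ≃ p03_nb F H v)

/-- The other end of the pair of a point, given by the family of bijections. -/
def p03_oth (p : Pt d F) : Fin n := (β p.1.1 ⟨p, rfl⟩).1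

lemma p03_oth_eq (v : Fin n) (p : p03_pts d F v) : p03_oth F H β p.1 = (β v p).1 := by
  obtain ⟨p, rfl⟩ := p
  rfl

lemma p03_oth_mem (p : Pt d F) : ∃ hw : p.1.1 ≠ p03_oth F H β p,
    mkE p.1.1 (p03_oth F H β p) hw ∈ H \ F := (β p.1.1 ⟨p, rfl⟩).2

lemma p03_oth_inj (p q : Pt d F) (h1 : p.1.1 = q.1.1) (h2 : p03_oth F H β p = p03_oth F H β q) :
    p = q := by
  have e1 := p03_oth_eq F H β q.1.1 ⟨p, h1⟩
  have e2 := p03_oth_eq F H β q.1.1 ⟨q, rfl⟩
  simp only at e1 e2
  rw [e1, e2] at h2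
  have := (β q.1.1).injective (Subtype.ext h2)
  exact congrArg Subtype.val this

lemma p03_ex (p : Pt d F) : ∃ q : Pt d F, p03_oth F H β p = q.1.1 ∧ p03_oth F H β q = p.1.1 := by
  obtain ⟨hw, hm⟩ := p03_oth_mem F H β p
  have hm' : mkE (p03_oth F H β p) p.1.1 hw.symm ∈ H \ F := by
    rw [← p03_mkE_comm hw]; exact hm
  refine ⟨((β (p03_oth F H β p)).symm ⟨p.1.1, hw.symm, hm'⟩).1, ?_, ?_⟩
  · exact ((β (p03_oth F H β p)).symm ⟨p.1.1, hw.symm, hm'⟩).2.symm
  · rw [p03_oth_eq, Equiv.apply_symm_apply]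

/-- The partner of a point. -/
noncomputable def p03_f (p : Pt d F) : Pt d F := (p03_ex F H β p).choose

lemma p03_f1 (p : Pt d F) : (p03_f F H β p).1.1 = p03_oth F H β p :=
  (p03_ex F H β p).choose_spec.1.symm

lemma p03_f2 (p : Pt d F) : p03_oth F H β (p03_f F H β p) = p.1.1 :=
  (p03_ex F H β p).choose_spec.2

lemma p03_ff (p : Pt d F) : p03_f F H β (p03_f F H β p) = p := by
  refine p03_oth_inj F H β _ _ ?_ ?_
  · rw [p03_f1, p03_f2]
  · rw [p03_f2, p03_f1]

/-- The pairing given by the family of bijections. -/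
noncomputable def p03_pi : Pairing (Pt d F) :=
  ⟨⟨p03_f F H β, p03_f F H β, p03_ff F H β, p03_ff F H β⟩, fun p => ⟨fun h => by
    have h' : p03_f F H β p = p := h
    have h1 := p03_f1 F H β p
    rw [h'] at h1
    exact (p03_oth_mem F H β p).1 h1, p03_ff F H β p⟩⟩

lemma p03_pi_apply (p : Pt d F) : ((p03_pi F H β).1 p).1.1 = p03_oth F H β p := p03_f1 F H β p

lemma p03_pi_simp : Simp F (p03_pi F H β) := by
  intro p
  obtain ⟨hw, hm⟩ := p03_oth_mem F H β p
  refine ⟨?_, ?_, ?_⟩
  · rw [p03_pi_apply]; exact hw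
  · intro e he h
    rw [p03_pi_apply] at h
    have : e = mkE p.1.1 (p03_oth F H β p) hw := Subtype.ext h
    rw [← this] at hm
    exact (Finset.mem_sdiff.1 hm).2 he
  · intro q hq hqp h
    rw [p03_pi_apply, p03_pi_apply] at h
    exact hq (p03_oth_inj F H β q p hqp h)

lemma p03_pi_gr (hFH : F ⊆ H) : grP F (p03_pi F H β) = H := by
  ext e
  rw [p03_mem_grP]
  constructor
  · rintro (h | ⟨p, hp⟩)
    · exact hFH h
    · rw [p03_pi_apply] at hp
      obtain ⟨hw, hm⟩ := p03_oth_mem F H β p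
      have : e = mkE p.1.1 (p03_oth F H β p) hw := Subtype.ext hp
      rw [← this] at hm
      exact (Finset.mem_sdiff.1 hm).1
  · intro he
    by_cases hF : e ∈ F
    · exact Or.inl hF
    · right
      obtain ⟨e, hdiag⟩ := e
      induction e using Sym2.inductionOn with
      | hf v w =>
        have hvw : v ≠ w := fun h => hdiag (by rw [Sym2.mk_isDiag_iff]; exact h)
        have hm : mkE v w hvw ∈ H \ F := Finset.mem_sdiff.2 ⟨he, hF⟩
        refine ⟨((β v).symm ⟨w, hvw, hm⟩).1, ?_⟩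
        rw [p03_pi_apply, p03_oth_eq, Equiv.apply_symm_apply, ((β v).symm ⟨w, hvw, hm⟩).2]

end

/-- The bijections given by a pairing. -/
noncomputable def p03_mapH {n d : ℕ} (F H : Gr n)
    (r : {π : Pairing (Pt d F) // Simp F π ∧ grP F π = H}) (v : Fin n) :
    p03_pts d F v ≃ p03_nb F H v :=
  Equiv.ofBijective (fun p => ⟨(r.1.1 p.1).1.1, by
    obtain ⟨hw, hm⟩ := (p03_map F r.1 r.2.1 v p).2
    refine ⟨hw, ?_⟩
    have h2 := r.2.2
    have hm' : mkE v (r.1.1 p.1).1.1 hw ∈ grP F r.1 \ F := hm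
    rw [h2] at hm'
    exact hm'⟩) (by
    obtain ⟨π, h, rfl⟩ := r
    exact p03_map_bij F π h v)

lemma p03_mapH_apply {n d : ℕ} (F H : Gr n)
    (r : {π : Pairing (Pt d F) // Simp F π ∧ grP F π = H}) (v : Fin n) (p : p03_pts d F v) :
    (p03_mapH F H r v p).1 = (r.1.1 p.1).1.1 := rfl

theorem P03a {n d : ℕ} (F : Gr n) (hF : ∀ v, deg F v ≤ d) (H : Gr n) (hH : H ∈ Reg n d F) :
    (Finset.univ.filter (fun π : Pairing (Pt d F) => Simp F π ∧ grP F π = H)).card =
      ∏ v, (d - deg F v).factorial := by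
  obtain ⟨hFH, hreg⟩ := (Finset.mem_filter.1 hH).2
  have hnb : ∀ v, Fintype.card (p03_nb F H v) = d - deg F v := by
    intro v
    rw [p03_card_nbs]
    have := p03_deg_sdiff F H hFH v
    rw [hreg v] at this
    omega
  rw [← Fintype.card_subtype]
  have e : {π : Pairing (Pt d F) // Simp F π ∧ grP F π = H} ≃
      (∀ v, p03_pts d F v ≃ p03_nb F H v) := by
    refine Equiv.ofBijective (fun r v => p03_mapH F H r v) ⟨?_, ?_⟩
    · intro r r' h
      have h1 : ∀ p : Pt d F, (r.1.1 p).1.1 = (r'.1.1 p).1.1 := by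
        intro p
        have h2 := congrFun h p.1.1
        have h3 := congrArg (fun f => (f ⟨p, rfl⟩).1) h2
        exact h3
      apply Subtype.ext
      apply Subtype.ext
      apply Equiv.ext
      intro p
      by_contra hne
      refine (r.2.1 (r.1.1 p)).2.2 (r'.1.1 p) (Ne.symm hne) (h1 p).symm ?_
      rw [r.1.inv, h1, r'.1.inv]
    · intro β
      refine ⟨⟨p03_pi F H β, p03_pi_simp F H β, p03_pi_gr F H β hFH⟩, ?_⟩
      funext v
      apply Equiv.ext
      intro p
      apply Subtype.ext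
      rw [p03_mapH_apply]
      simp only
      rw [p03_pi_apply, p03_oth_eq]
  rw [Fintype.card_congr e, Fintype.card_pi]
  refine Finset.prod_congr rfl fun v _ => ?_
  have h1 : Fintype.card (p03_pts d F v) = d - deg F v := p03_card_pts F v
  have h2 : Fintype.card (p03_pts d F v) = Fintype.card (p03_nb F H v) := by rw [h1, hnb]
  rw [Fintype.card_equiv (Fintype.equivOfCardEq h2), h1]

theorem P03c {n d : ℕ} (F : Gr n) (hF : ∀ v, deg F v ≤ d) :
    (Finset.univ.filter (fun π : Pairing (Pt d F) => Simp F π)).card =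
      (Reg n d F).card * ∏ v, (d - deg F v).factorial := by
  rw [Finset.card_eq_sum_card_fiberwise (f := grP F) (t := Reg n d F)
    (fun π hπ => P03b F hF π (by simpa using hπ))]
  have : ∀ H ∈ Reg n d F, ((Finset.univ.filter (fun π : Pairing (Pt d F) => Simp F π)).filter
      (fun π => grP F π = H)).card = ∏ v, (d - deg F v).factorial := by
    intro H hH
    rw [Finset.filter_filter]
    exact P03a F hF H hH
  rw [Finset.sum_congr rfl this, Finset.sum_const, smul_eq_mul]

theorem P03d {n d : ℕ} (F : Gr n) (hF : ∀ v, deg F v ≤ d) (Φ : Gr n → ℝ) :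
    av (fun π : Pairing (Pt d F) => if Simp F π then Φ (grP F π) else 0) =
      PS d F * avOn (Reg n d F) Φ := by
  have h1 : ∑ π : Pairing (Pt d F), (if Simp F π then Φ (grP F π) else 0) =
      ((∏ v, (d - deg F v).factorial : ℕ) : ℝ) * ∑ H ∈ Reg n d F, Φ H := by
    rw [← Finset.sum_filter]
    rw [← Finset.sum_fiberwise_of_maps_to (g := grP F) (t := Reg n d F)
      (fun π hπ => P03b F hF π (by simpa using hπ)), Finset.mul_sum]
    refine Finset.sum_congr rfl fun H hH => ?_
    rw [Finset.filter_filter, ← P03a F hF H hH]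
    have : ∀ π ∈ (Finset.univ.filter (fun π : Pairing (Pt d F) => Simp F π ∧ grP F π = H)),
        Φ (grP F π) = Φ H := by
      intro π hπ
      rw [(Finset.mem_filter.1 hπ).2.2]
    rw [Finset.sum_congr rfl this, Finset.sum_const, nsmul_eq_mul]
  rw [av, h1, PS, pr_eq_card, P03c F hF, avOn]
  by_cases hR : (Reg n d F).card = 0
  · rw [Finset.card_eq_zero] at hR
    simp [hR]
  · have : ((Reg n d F).card : ℝ) ≠ 0 := by exact_mod_cast hR
    push_cast
    field_simp

end Pool.Agent.HC
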