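import Pool.Agent.Lib.MP_ec42c8_pr.KDefs
import Pool.Agent.Lib.MP_ec42c8_pr.P03

/-!
# K15 : subgraphs of the graph of a simple pairing

PROOF.  `Pt d ∅` is all of `Fin n × Fin d` (`deg ∅ v = 0`); let `e` be this identification.  Let `π` be simple
and `H = grP ∅ π`.  The map `p ↦ s(p.1, (π p).1)` from points to `H` is two to one, its fibres are the pairs
of `π` (`Simp`).  The subsets `K` of `H` correspond to the invariant `x`: `x p = true` iff the edge
of `p` is in `K`.  Then `deg K v = sz (x v)` (the edges of `H` at `v` correspond to the points of `v`),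
`∑ v, sz (x v) = 2 card K`, so `∏ v, mu ^ sz (x v) = mu ^ (2 card K) = lam ^ card K`.
-/

set_option autoImplicit false

namespace Pool.Agent.HC

open Finset
open scoped Classical

/-- The points of the empty graph. -/
noncomputable def ptE (n d : ℕ) : Pt d (∅ : Gr n) ≃ Fin n × Fin d where
  toFun p := p.1
  invFun p := ⟨p, by simp [deg]⟩
  left_inv _ := rfl
  right_inv _ := rfl

section main
variable {n d : ℕ} (π : Pairing (Fin n × Fin d)) (hs1 : ∀ p, p.1 ≠ (π.1 p).1)
  (hs3 : ∀ p q : Fin n × Fin d, q ≠ p → q.1 = p.1 → (π.1 q).1 ≠ (π.1 p).1)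

/-- The edge of a point. -/
noncomputable def k15_ed (p : Fin n × Fin d) : Edge n := mkE p.1 (π.1 p).1 (hs1 p)

lemma k15_ed_val (p : Fin n × Fin d) : (k15_ed π hs1 p).1 = s(p.1, (π.1 p).1) := rfl

lemma k15_ed_inv (p : Fin n × Fin d) : k15_ed π hs1 (π.1 p) = k15_ed π hs1 p := by
  apply Subtype.ext
  rw [k15_ed_val, k15_ed_val, π.inv, Sym2.eq_swap]

include hs3 in
lemma k15_ed_eq (p q : Fin n × Fin d) (h : k15_ed π hs1 q = k15_ed π hs1 p) :
    q = p ∨ q = π.1 p := by
  have h1 : s(q.1, (π.1 q).1) = s(p.1, (π.1 p).1) := congrArg Subtype.val h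
  rw [Sym2.eq_iff] at h1
  rcases h1 with ⟨h2, h3⟩ | ⟨h2, h3⟩
  · by_contra h4
    push Not at h4
    exact hs3 p q h4.1 h2 h3
  · by_contra h4
    push Not at h4
    refine hs3 (π.1 p) q h4.2 h2 ?_
    rw [π.inv]
    exact h3

/-- The graph of the pairing. -/
noncomputable def k15_H : Gr n := Finset.univ.filter (fun e => ∃ p : Fin n × Fin d, k15_ed π hs1 p = e)

/-- The assignment of a set of edges. -/
noncomputable def k15_x (K : Gr n) : Fin n → Fin d → Bool :=
  fun v i => decide (k15_ed π hs1 (v, i) ∈ K)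

/-- The set of edges of an assignment. -/
noncomputable def k15_K (x : Fin n → Fin d → Bool) : Gr n :=
  Finset.univ.filter (fun e => ∃ p : Fin n × Fin d, k15_ed π hs1 p = e ∧ x p.1 p.2 = true)

include hs3 in
lemma k15_deg (K : Gr n) (hK : K ⊆ k15_H π hs1) (v : Fin n) :
    deg K v = sz (k15_x π hs1 K v) := by
  symm
  unfold sz deg
  refine Finset.card_bij (fun i _ => k15_ed π hs1 (v, i)) ?_ ?_ ?_
  · intro i hi
    rw [Finset.mem_filter] at hi ⊢
    refine ⟨by simpa [k15_x] using hi.2, ?_⟩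
    rw [k15_ed_val]
    exact Sym2.mem_mk_left _ _
  · intro i hi j hj hij
    by_contra hne
    have h1 : s(v, (π.1 (v, i)).1) = s(v, (π.1 (v, j)).1) := congrArg Subtype.val hij
    have h2 : (π.1 (v, i)).1 = (π.1 (v, j)).1 := Sym2.congr_right.1 h1
    exact hs3 (v, j) (v, i) (fun h => hne (congrArg Prod.snd h)) rfl h2
  · intro e he
    rw [Finset.mem_filter] at he
    have h1 := hK he.1
    rw [k15_H, Finset.mem_filter] at h1
    obtain ⟨_, p, hp⟩ := h1
    have h2 : v ∈ s(p.1, (π.1 p).1) := by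
      rw [← k15_ed_val π hs1 p, hp]
      exact he.2
    have key : ∀ q : Fin n × Fin d, q.1 = v → k15_ed π hs1 q = e →
        ∃ i, ∃ (hi : i ∈ Finset.univ.filter (fun i => k15_x π hs1 K v i = true)),
          k15_ed π hs1 (v, i) = e := by
      rintro ⟨w, i⟩ hw hq
      simp only at hw
      subst hw
      refine ⟨i, ?_, hq⟩
      rw [Finset.mem_filter]
      refine ⟨Finset.mem_univ _, ?_⟩
      simp only [k15_x, decide_eq_true_eq]
      rw [hq]
      exact he.1
    rcases Sym2.mem_iff.1 h2 with h3 | h3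
    · exact key p h3.symm hp
    · exact key (π.1 p) h3.symm (by rw [k15_ed_inv, hp])

include hs3 in
lemma k15_main (mu : ℝ) : Zl d (mu ^ 2) (k15_H π hs1) = ZP mu π := by
  unfold Zl ZP
  refine Finset.sum_bij' (fun K _ => k15_x π hs1 K) (fun x _ => k15_K π hs1 x) ?_ ?_ ?_ ?_ ?_
  · intro K _
    rw [Finset.mem_filter]
    refine ⟨Finset.mem_univ _, fun p => ?_⟩
    unfold k15_x
    have : k15_ed π hs1 ((π.1 p).1, (π.1 p).2) = k15_ed π hs1 (p.1, p.2) := k15_ed_inv π hs1 p
    rw [this]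
  · intro x _
    rw [Finset.mem_powerset]
    intro e he
    rw [k15_K, Finset.mem_filter] at he
    rw [k15_H, Finset.mem_filter]
    obtain ⟨_, p, hp, _⟩ := he
    exact ⟨Finset.mem_univ _, p, hp⟩
  · intro K hK
    rw [Finset.mem_powerset] at hK
    ext e
    simp only [k15_K, k15_x, Finset.mem_filter, Finset.mem_univ, true_and, decide_eq_true_eq]
    constructor
    · rintro ⟨p, hp, hpK⟩
      rw [← hp]
      exact hpK
    · intro he
      have h1 := hK he
      rw [k15_H, Finset.mem_filter] at h1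
      obtain ⟨_, p, hp⟩ := h1
      refine ⟨p, hp, ?_⟩
      have : k15_ed π hs1 (p.1, p.2) = e := hp
      rw [this]
      exact he
  · intro x hx
    rw [Finset.mem_filter] at hx
    funext v i
    have h1 : k15_x π hs1 (k15_K π hs1 x) v i = true ↔ x v i = true := by
      simp only [k15_x, decide_eq_true_eq]
      rw [k15_K, Finset.mem_filter]
      constructor
      · rintro ⟨_, p, hp, hpx⟩
        rcases k15_ed_eq π hs1 hs3 (v, i) p hp with rfl | h2
        · exact hpx
        · rw [h2] at hpx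
          have := hx.2 (v, i)
          rw [this] at hpx
          exact hpx
      · intro h
        exact ⟨Finset.mem_univ _, (v, i), rfl, h⟩
    exact Bool.eq_iff_iff.2 h1
  · intro K hK
    rw [Finset.mem_powerset] at hK
    have hd := fun v => k15_deg π hs1 hs3 K hK v
    have h1 : (ndK d K : ℝ) =
        ((Finset.univ.filter (fun v => sz (k15_x π hs1 K v) = d)).card : ℝ) := by
      unfold ndK
      simp only [hd]
    have h2 : (mu ^ 2) ^ K.card = ∏ v, mu ^ sz (k15_x π hs1 K v) := by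
      rw [Finset.prod_pow_eq_pow_sum, ← pow_mul]
      congr 1
      rw [← P03f K]
      exact Finset.sum_congr rfl fun v _ => hd v
    have h3 : wK d K = ∏ v, (1 / ((Nat.descFactorial d (sz (k15_x π hs1 K v)) : ℕ) : ℝ)) := by
      unfold wK
      simp only [hd]
    rw [← h1, h2, h3]
    have h4 : ∏ v, mu ^ sz (k15_x π hs1 K v) / ((Nat.descFactorial d (sz (k15_x π hs1 K v)) : ℕ) : ℝ) =
        (∏ v, mu ^ sz (k15_x π hs1 K v)) *
          ∏ v, (1 / ((Nat.descFactorial d (sz (k15_x π hs1 K v)) : ℕ) : ℝ)) := by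
      rw [← Finset.prod_mul_distrib]
      refine Finset.prod_congr rfl fun v _ => ?_
      rw [mul_one_div]
    rw [h4]
    ring

end main

theorem K15 {n : ℕ} (d : ℕ) (mu : ℝ) (π : Pairing (Pt d (∅ : Gr n))) (h : Simp ∅ π) :
    Zl d (mu ^ 2) (grP ∅ π) = ZP mu (trP (ptE n d) π) := by
  have hv : ∀ p : Fin n × Fin d, (trP (ptE n d) π).1 p = (π.1 ((ptE n d).symm p)).1 := fun p => rfl
  have hs1 : ∀ p, p.1 ≠ ((trP (ptE n d) π).1 p).1 := by
    intro p
    rw [hv]
    exact (h ((ptE n d).symm p)).1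
  have hs3 : ∀ p q : Fin n × Fin d, q ≠ p → q.1 = p.1 →
      ((trP (ptE n d) π).1 q).1 ≠ ((trP (ptE n d) π).1 p).1 := by
    intro p q hqp h1
    rw [hv, hv]
    exact (h ((ptE n d).symm p)).2.2 ((ptE n d).symm q)
      (fun h2 => hqp ((ptE n d).symm.injective h2)) h1
  rw [← k15_main (trP (ptE n d) π) hs1 hs3 mu]
  congr 1
  unfold grP
  rw [Finset.empty_union]
  ext e
  simp only [k15_H, Finset.mem_filter, Finset.mem_univ, true_and]
  constructor
  · rintro ⟨p, hp⟩
    refine ⟨ptE n d p, ?_⟩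
    apply Subtype.ext
    rw [k15_ed_val, hv, Equiv.symm_apply_apply]
    exact hp.symm
  · rintro ⟨p, hp⟩
    refine ⟨(ptE n d).symm p, ?_⟩
    rw [← hp, k15_ed_val, hv]
    rfl

end Pool.Agent.HC
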