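import Pool.Agent.Lib.MP_ec42c8_pr.P04b

/-!
# P04 : a random completion is simple with probability bounded below

PROOF.  Let `C` be the constant of `P04a`, `X = ⌈2 C⌉`.  By Markov at least half of the pairings have
`NB ≤ X` (pairings exist: `card (Pt d F) = d n - 2 card F` is even, `P03e`, `P01d`).  For
`1 ≤ x ≤ X` and large `n`, `P04b` gives `c_x ≤ C' c_{<x}` with `C' = 2 (d + 2 d²)`
(`N - x - 20 d² ≥ N / 2`, `N ≥ 3 n / 4`).  So `c_{≤ x} ≤ (1 + C') c_{<x}`, and by induction
`c_{≤ X} ≤ (1 + C') ^ X c_0`.  `c_0` is the number of simple pairings (`simp_iff`).  Hence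
`PS d F ≥ (1/2) (1 + C') ^ (-X)`.
-/

set_option autoImplicit false

namespace Pool.Agent.HC

open Finset
open scoped Classical

/-- Number of pairings with `NB = x`. -/
noncomputable def p04_c {n d : ℕ} (F : Gr n) (x : ℕ) : ℝ :=
  ((Finset.univ.filter (fun π : Pairing (Pt d F) => NB F π = x)).card : ℝ)

/-- Number of pairings with `NB ≤ x`. -/
noncomputable def p04_b {n d : ℕ} (F : Gr n) (x : ℕ) : ℝ :=
  ((Finset.univ.filter (fun π : Pairing (Pt d F) => NB F π ≤ x)).card : ℝ)

lemma p04_succ {n d : ℕ} (F : Gr n) (x : ℕ) :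
    p04_b (d := d) F (x + 1) = p04_b (d := d) F x + p04_c (d := d) F (x + 1) := by
  unfold p04_b p04_c
  rw [← Nat.cast_add, ← Finset.card_union_of_disjoint]
  · congr 2
    ext π
    simp only [Finset.mem_filter, Finset.mem_univ, true_and, Finset.mem_union]
    omega
  · rw [Finset.disjoint_left]
    intro π h1 h2
    simp only [Finset.mem_filter, Finset.mem_univ, true_and] at h1 h2
    omega

theorem P04 (d : ℕ) (hd : 1 ≤ d) : ∃ (c : ℝ) (n₀ : ℕ), 0 < c ∧ ∀ n ≥ n₀, Even (d * n) →
    ∀ F : Gr n, (∀ v, deg F v ≤ d) → 8 * F.card ≤ n → c ≤ PS d F := by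
  obtain ⟨C, n₁, hC, h4a⟩ := P04a d hd
  set X : ℕ := ⌈2 * C⌉₊ with hX
  have hXC : 2 * C ≤ X := Nat.le_ceil _
  set A : ℝ := 4 * ((d : ℝ) + 2 * (d : ℝ) ^ 2) with hA
  have hd' : (1 : ℝ) ≤ d := by exact_mod_cast hd
  have hA0 : 0 ≤ A := by positivity
  have hApos : 0 < 1 + A := by linarith
  refine ⟨(1 / 2) / (1 + A) ^ X, max n₁ (16 * (X + 20 * d ^ 2 + 2)), by positivity, ?_⟩
  intro n hn hev F hF hFc
  have hn1 : n₁ ≤ n := (le_max_left _ _).trans hn
  have hn2 : 16 * (X + 20 * d ^ 2 + 2) ≤ n := (le_max_right _ _).trans hn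
  have hcard := P03e F hF
  -- number of points
  have hNn : (3 * n : ℕ) ≤ 4 * Fintype.card (Pt d F) := by
    have : n ≤ d * n := Nat.le_mul_of_pos_left _ hd
    omega
  have hN2 : ((n : ℝ)) / 2 ≤ (Fintype.card (Pt d F) : ℝ) := by
    have : (3 * n : ℝ) ≤ 4 * (Fintype.card (Pt d F) : ℝ) := by exact_mod_cast hNn
    have hn0 : (0 : ℝ) ≤ n := Nat.cast_nonneg _
    linarith
  have hNpos : (0 : ℝ) < (Fintype.card (Pt d F) : ℝ) := by
    have : (0 : ℝ) < n := by
      have : 0 < n := by omega
      exact_mod_cast this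
    linarith
  have hevP : Even (Fintype.card (Pt d F)) := by
    rw [← hcard, Nat.even_add] at hev
    exact hev.2 (even_two_mul _)
  have hneP : Nonempty (Pairing (Pt d F)) := by
    obtain ⟨r, hr⟩ := hevP
    have h := P01d (P := Pt d F) r (by rw [hr]; ring)
    have h2 : 0 < Fintype.card (Pairing (Pt d F)) := by
      have h3 : Fintype.card (Pairing (Pt d F)) = (2 * r - 1).doubleFactorial := by
        convert h
      rw [h3]
      exact Nat.doubleFactorial_pos _
    exact Fintype.card_pos_iff.1 h2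
  have hcP : (0 : ℝ) < Fintype.card (Pairing (Pt d F)) := by
    exact_mod_cast Fintype.card_pos
  -- recursion
  have hrec : ∀ x, x ≤ X → p04_b (d := d) F x ≤ (1 + A) ^ x * p04_b (d := d) F 0 := by
    intro x
    induction x with
    | zero => intro _; simp
    | succ x ih =>
      intro hx
      have ih' := ih (by omega)
      have hb := P04b hd F hF (x + 1) (by omega)
      have hlt : (Finset.univ.filter (fun π : Pairing (Pt d F) => NB F π < x + 1)) =
          (Finset.univ.filter (fun π : Pairing (Pt d F) => NB F π ≤ x)) := by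
        ext π
        simp only [Finset.mem_filter, Finset.mem_univ, true_and]
        omega
      rw [hlt] at hb
      have hb' : p04_c (d := d) F (x + 1) *
          ((Fintype.card (Pt d F) : ℝ) - ((x + 1 : ℕ) : ℝ) - 20 * (d : ℝ) ^ 2) ≤
          (Fintype.card (Pt d F) : ℝ) * (d + 2 * (d : ℝ) ^ 2) * p04_b (d := d) F x := hb
      have hc0 : 0 ≤ p04_c (d := d) F (x + 1) := Nat.cast_nonneg _
      have hxX : ((x + 1 : ℕ) : ℝ) ≤ X := by exact_mod_cast hx
      have hbig : (16 : ℝ) * (X + 20 * d ^ 2 + 2) ≤ n := by exact_mod_cast hn2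
      have hhalf : (Fintype.card (Pt d F) : ℝ) / 2 ≤
          (Fintype.card (Pt d F) : ℝ) - ((x + 1 : ℕ) : ℝ) - 20 * (d : ℝ) ^ 2 := by
        have hX0 : (0 : ℝ) ≤ X := Nat.cast_nonneg _
        have hdd : (0 : ℝ) ≤ (d : ℝ) ^ 2 := by positivity
        nlinarith
      have h5 : p04_c (d := d) F (x + 1) * ((Fintype.card (Pt d F) : ℝ) / 2) ≤
          (Fintype.card (Pt d F) : ℝ) * (d + 2 * (d : ℝ) ^ 2) * p04_b (d := d) F x :=
        (mul_le_mul_of_nonneg_left hhalf hc0).trans hb'
      have h6 : p04_c (d := d) F (x + 1) ≤ 2 * (d + 2 * (d : ℝ) ^ 2) * p04_b (d := d) F x := by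
        have : (Fintype.card (Pt d F) : ℝ) * (p04_c (d := d) F (x + 1)) ≤
          (Fintype.card (Pt d F) : ℝ) * (2 * (d + 2 * (d : ℝ) ^ 2) * p04_b (d := d) F x) := by
          linarith
        exact le_of_mul_le_mul_left this hNpos
      have hb0 : 0 ≤ p04_b (d := d) F x := Nat.cast_nonneg _
      have h7 : p04_c (d := d) F (x + 1) ≤ A * p04_b (d := d) F x := by
        refine h6.trans ?_
        rw [hA]
        have : 0 ≤ (d + 2 * (d : ℝ) ^ 2) * p04_b (d := d) F x := by positivity
        nlinarith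
      rw [p04_succ, pow_succ]
      calc _ ≤ p04_b (d := d) F x + A * p04_b (d := d) F x := by linarith
        _ = (1 + A) * p04_b (d := d) F x := by ring
        _ ≤ (1 + A) * ((1 + A) ^ x * p04_b (d := d) F 0) :=
            mul_le_mul_of_nonneg_left ih' hApos.le
        _ = _ := by ring
  -- Markov
  have hmean := h4a n hn1 F hF hFc
  have hX0 : (0 : ℝ) < (X : ℝ) := by linarith
  have hmk := markov (fun π : Pairing (Pt d F) => (NB F π : ℝ)) (fun π => Nat.cast_nonneg _)
    (a := (X : ℝ) + 1) (by linarith)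
  have hhalf : pr (fun π : Pairing (Pt d F) => (X : ℝ) + 1 ≤ (NB F π : ℝ)) ≤ 1 / 2 := by
    refine hmk.trans ?_
    rw [div_le_iff₀ (by linarith)]
    linarith
  have hbX : (Fintype.card (Pairing (Pt d F)) : ℝ) / 2 ≤ p04_b (d := d) F X := by
    rw [pr_eq_card, div_le_iff₀ hcP] at hhalf
    have hsplit : (Finset.univ.filter (fun π : Pairing (Pt d F) => NB F π ≤ X)).card +
        (Finset.univ.filter (fun π : Pairing (Pt d F) => (X : ℝ) + 1 ≤ (NB F π : ℝ))).card =
        Fintype.card (Pairing (Pt d F)) := by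
      rw [← Finset.card_univ, ← Finset.card_filter_add_card_filter_not
        (s := (Finset.univ : Finset (Pairing (Pt d F)))) (fun π => NB F π ≤ X)]
      congr 2
      ext π
      simp only [Finset.mem_filter, Finset.mem_univ, true_and, not_le]
      rw [← Nat.cast_one (R := ℝ), ← Nat.cast_add, Nat.cast_le]
      omega
    have hsplit' : p04_b (d := d) F X +
        ((Finset.univ.filter (fun π : Pairing (Pt d F) =>
          (X : ℝ) + 1 ≤ (NB F π : ℝ))).card : ℝ) =
        (Fintype.card (Pairing (Pt d F)) : ℝ) := by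
      unfold p04_b
      exact_mod_cast hsplit
    linarith
  have h0 := (hbX.trans (hrec X le_rfl))
  have hPS : PS d F = p04_b (d := d) F 0 / (Fintype.card (Pairing (Pt d F)) : ℝ) := by
    unfold PS p04_b
    rw [pr_eq_card]
    congr 3
    ext π
    simp only [Finset.mem_filter, Finset.mem_univ, true_and]
    rw [simp_iff, Nat.le_zero, NB, Finset.card_eq_zero, Finset.filter_eq_empty_iff]
    simp
  rw [hPS, div_le_div_iff₀ (by positivity) hcP]
  linarith

end Pool.Agent.HC
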