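import Pool.Agent.Lib.MP_ec42c8_pr.Defs

/-!
# F01 : basic facts on averages
-/

set_option autoImplicit false

namespace Pool.Agent.HC

open Finset
open scoped Classical

section av
variable {Ω Ω' : Type*} [Fintype Ω] [Fintype Ω']

lemma av_add (f g : Ω → ℝ) : av (fun ω => f ω + g ω) = av f + av g := by
  simp [av, Finset.sum_add_distrib, add_div]

lemma av_sub (f g : Ω → ℝ) : av (fun ω => f ω - g ω) = av f - av g := by
  simp [av, Finset.sum_sub_distrib, sub_div]

lemma av_mul_left (c : ℝ) (f : Ω → ℝ) : av (fun ω => c * f ω) = c * av f := by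
  simp [av, ← Finset.mul_sum, mul_div_assoc]

lemma av_mul_right (c : ℝ) (f : Ω → ℝ) : av (fun ω => f ω * c) = av f * c := by
  simp only [mul_comm _ c]; exact av_mul_left c f

lemma av_div (c : ℝ) (f : Ω → ℝ) : av (fun ω => f ω / c) = av f / c := by
  simp only [div_eq_mul_inv]; exact av_mul_right _ f

lemma av_neg (f : Ω → ℝ) : av (fun ω => - f ω) = - av f := by
  simp [av, neg_div]

lemma av_sum {ι : Type*} (s : Finset ι) (f : ι → Ω → ℝ) :
    av (fun ω => ∑ i ∈ s, f i ω) = ∑ i ∈ s, av (f i) := by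
  simp only [av]; rw [Finset.sum_comm, Finset.sum_div]

lemma av_const [Nonempty Ω] (c : ℝ) : av (fun _ : Ω => c) = c := by
  have : (Fintype.card Ω : ℝ) ≠ 0 := by exact_mod_cast Fintype.card_ne_zero
  simp [av]

lemma av_nonneg {f : Ω → ℝ} (h : ∀ ω, 0 ≤ f ω) : 0 ≤ av f :=
  div_nonneg (Finset.sum_nonneg fun ω _ => h ω) (Nat.cast_nonneg _)

lemma av_mono {f g : Ω → ℝ} (h : ∀ ω, f ω ≤ g ω) : av f ≤ av g :=
  div_le_div_of_nonneg_right (Finset.sum_le_sum fun ω _ => h ω) (Nat.cast_nonneg _)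

lemma av_congr {f g : Ω → ℝ} (h : ∀ ω, f ω = g ω) : av f = av g := by
  have : f = g := funext h
  rw [this]

lemma av_le_const [Nonempty Ω] {f : Ω → ℝ} {c : ℝ} (h : ∀ ω, f ω ≤ c) : av f ≤ c :=
  (av_mono h).trans (av_const c).le

lemma av_le_of_nonneg {f : Ω → ℝ} {c : ℝ} (hc : 0 ≤ c) (h : ∀ ω, f ω ≤ c) : av f ≤ c := by
  by_cases hΩ : Nonempty Ω
  · exact av_le_const h
  · have : IsEmpty Ω := not_nonempty_iff.1 hΩ
    simp [av, hc]

lemma abs_av_le (f : Ω → ℝ) : |av f| ≤ av (fun ω => |f ω|) := by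
  rw [av, abs_div, Nat.abs_cast]
  exact div_le_div_of_nonneg_right (Finset.abs_sum_le_sum_abs _ _) (Nat.cast_nonneg _)

lemma abs_av_le_of {f : Ω → ℝ} {c : ℝ} (hc : 0 ≤ c) (h : ∀ ω, |f ω| ≤ c) : |av f| ≤ c :=
  (abs_av_le f).trans (av_le_of_nonneg hc h)

lemma av_prod (f : Ω × Ω' → ℝ) : av f = av (fun a => av (fun b => f (a, b))) := by
  simp only [av, Fintype.card_prod, Nat.cast_mul, Fintype.sum_prod_type]
  rw [← Finset.sum_div, div_div, mul_comm (Fintype.card Ω : ℝ)]

lemma av_comm (f : Ω → Ω' → ℝ) :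
    av (fun a => av (fun b => f a b)) = av (fun b => av (fun a => f a b)) := by
  simp only [av]
  rw [← Finset.sum_div, ← Finset.sum_div, Finset.sum_comm, div_div, div_div, mul_comm]

lemma av_equiv (e : Ω ≃ Ω') (f : Ω' → ℝ) : av (fun x => f (e x)) = av f := by
  simp only [av]
  rw [Fintype.card_congr e, Equiv.sum_comp e f]

lemma av_unique [Unique Ω] (f : Ω → ℝ) : av f = f default := by
  simp [av]

/-- The average of a function of one coordinate. -/
lemma av_fst [Nonempty Ω'] (f : Ω → ℝ) : av (fun x : Ω × Ω' => f x.1) = av f := by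
  rw [av_prod]; simp [av_const]

lemma av_snd [Nonempty Ω] (f : Ω' → ℝ) : av (fun x : Ω × Ω' => f x.2) = av f := by
  rw [av_prod]; simp [av_const]

/-- Average of a function as a sum over the values of a map. -/
lemma av_fiber {α : Type*} [Fintype α] (X : Ω → α) (Φ : α → ℝ) :
    av (fun ω => Φ (X ω)) = ∑ a, pr (fun ω => X ω = a) * Φ a := by
  simp only [pr, ← av_mul_right]
  rw [← av_sum]
  refine av_congr fun ω => ?_
  simp

end av

section pr
variable {Ω : Type*} [Fintype Ω]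

lemma pr_nonneg (P : Ω → Prop) : 0 ≤ pr P := av_nonneg fun ω => by split_ifs <;> norm_num

lemma pr_le_one (P : Ω → Prop) : pr P ≤ 1 :=
  av_le_of_nonneg zero_le_one fun ω => by split_ifs <;> norm_num

lemma pr_mono {P Q : Ω → Prop} (h : ∀ ω, P ω → Q ω) : pr P ≤ pr Q := by
  refine av_mono fun ω => ?_
  by_cases hP : P ω
  · simp [hP, h ω hP]
  · simp only [hP, if_false]; split_ifs <;> norm_num

lemma pr_congr {P Q : Ω → Prop} (h : ∀ ω, P ω ↔ Q ω) : pr P = pr Q := by
  have : P = Q := funext fun ω => propext (h ω)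
  rw [this]

lemma pr_or_le (P Q : Ω → Prop) : pr (fun ω => P ω ∨ Q ω) ≤ pr P + pr Q := by
  rw [pr, pr, pr, ← av_add]
  refine av_mono fun ω => ?_
  by_cases hP : P ω <;> by_cases hQ : Q ω <;> simp [hP, hQ]

lemma pr_exists_le {ι : Type*} (s : Finset ι) (P : ι → Ω → Prop) :
    pr (fun ω => ∃ i ∈ s, P i ω) ≤ ∑ i ∈ s, pr (P i) := by
  simp only [pr]
  rw [← av_sum]
  refine av_mono fun ω => ?_
  by_cases h : ∃ i ∈ s, P i ω
  · obtain ⟨i, hi, hP⟩ := h
    rw [if_pos ⟨i, hi, hP⟩]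
    calc (1 : ℝ) = if P i ω then 1 else 0 := by rw [if_pos hP]
      _ ≤ _ := Finset.single_le_sum (f := fun i => if P i ω then (1 : ℝ) else 0)
          (fun j _ => by split_ifs <;> norm_num) hi
  · rw [if_neg h]
    exact Finset.sum_nonneg fun j _ => by split_ifs <;> norm_num

lemma pr_not [Nonempty Ω] (P : Ω → Prop) : pr (fun ω => ¬ P ω) = 1 - pr P := by
  have h : (1 : ℝ) = av (fun _ : Ω => (1 : ℝ)) := (av_const 1).symm
  rw [h, pr, pr, ← av_sub]
  refine av_congr fun ω => ?_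
  by_cases hP : P ω <;> simp [hP]

lemma pr_true [Nonempty Ω] : pr (fun _ : Ω => True) = 1 := by
  simp [pr, av_const]

lemma pr_false : pr (fun _ : Ω => False) = 0 := by
  simp [pr, av]

lemma pr_eq_card (P : Ω → Prop) :
    pr P = ((Finset.univ.filter P).card : ℝ) / (Fintype.card Ω : ℝ) := by
  simp [pr, av]

/-- Markov. -/
lemma markov (f : Ω → ℝ) (hf : ∀ ω, 0 ≤ f ω) {a : ℝ} (ha : 0 < a) :
    pr (fun ω => a ≤ f ω) ≤ av f / a := by
  rw [pr, ← av_div]
  refine av_mono fun ω => ?_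
  split_ifs with h
  · rwa [le_div_iff₀ ha, one_mul]
  · exact div_nonneg (hf ω) ha.le

/-- An average is changed by at most the probability of the event on which the functions
differ. -/
lemma abs_av_sub_le (f g : Ω → ℝ) (hf : ∀ ω, 0 ≤ f ω ∧ f ω ≤ 1) (hg : ∀ ω, 0 ≤ g ω ∧ g ω ≤ 1)
    (P : Ω → Prop) (h : ∀ ω, ¬ P ω → f ω = g ω) : |av f - av g| ≤ pr P := by
  rw [← av_sub]
  refine (abs_av_le _).trans (av_mono fun ω => ?_)
  by_cases hP : P ω
  · simp only [hP, if_true]
    rw [abs_le]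
    constructor <;> linarith [(hf ω).1, (hf ω).2, (hg ω).1, (hg ω).2]
  · simp [hP, h ω hP]

end pr

section avOn
variable {α : Type*}

lemma avOn_univ [Fintype α] (f : α → ℝ) : avOn Finset.univ f = av f := rfl

lemma avOn_nonneg {s : Finset α} {f : α → ℝ} (h : ∀ a ∈ s, 0 ≤ f a) : 0 ≤ avOn s f :=
  div_nonneg (Finset.sum_nonneg h) (Nat.cast_nonneg _)

lemma avOn_mono {s : Finset α} {f g : α → ℝ} (h : ∀ a ∈ s, f a ≤ g a) : avOn s f ≤ avOn s g :=
  div_le_div_of_nonneg_right (Finset.sum_le_sum h) (Nat.cast_nonneg _)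

lemma avOn_congr {s : Finset α} {f g : α → ℝ} (h : ∀ a ∈ s, f a = g a) : avOn s f = avOn s g := by
  simp only [avOn]; rw [Finset.sum_congr rfl h]

lemma avOn_const {s : Finset α} (hs : s.Nonempty) (c : ℝ) : avOn s (fun _ => c) = c := by
  have : (s.card : ℝ) ≠ 0 := by exact_mod_cast hs.card_pos.ne'
  simp only [avOn, Finset.sum_const, nsmul_eq_mul]
  field_simp

lemma avOn_empty (f : α → ℝ) : avOn ∅ f = 0 := by simp [avOn]

lemma avOn_add (s : Finset α) (f g : α → ℝ) : avOn s (fun a => f a + g a) = avOn s f + avOn s g := by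
  simp [avOn, Finset.sum_add_distrib, add_div]

lemma avOn_sub (s : Finset α) (f g : α → ℝ) : avOn s (fun a => f a - g a) = avOn s f - avOn s g := by
  simp [avOn, Finset.sum_sub_distrib, sub_div]

lemma avOn_mul_left (s : Finset α) (c : ℝ) (f : α → ℝ) :
    avOn s (fun a => c * f a) = c * avOn s f := by
  simp [avOn, ← Finset.mul_sum, mul_div_assoc]

lemma avOn_le_of_nonneg {s : Finset α} {f : α → ℝ} {c : ℝ} (hc : 0 ≤ c) (h : ∀ a ∈ s, f a ≤ c) :
    avOn s f ≤ c := by
  rcases s.eq_empty_or_nonempty with rfl | hs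
  · simpa [avOn_empty] using hc
  · exact (avOn_mono h).trans (avOn_const hs c).le

lemma avOn_unit {s : Finset α} {Φ : α → ℝ} (hΦ : Unit01 Φ) : 0 ≤ avOn s Φ ∧ avOn s Φ ≤ 1 :=
  ⟨avOn_nonneg fun a _ => (hΦ a).1, avOn_le_of_nonneg zero_le_one fun a _ => (hΦ a).2⟩

lemma abs_avOn_le (s : Finset α) (f : α → ℝ) : |avOn s f| ≤ avOn s (fun a => |f a|) := by
  rw [avOn, abs_div, Nat.abs_cast]
  exact div_le_div_of_nonneg_right (Finset.abs_sum_le_sum_abs _ _) (Nat.cast_nonneg _)

lemma avOn_map {β : Type*} (e : α ↪ β) (s : Finset α) (f : β → ℝ) :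
    avOn (s.map e) f = avOn s (fun a => f (e a)) := by
  simp [avOn]

end avOn

section fun_prod
variable {ι α : Type*} [Fintype ι] [Fintype α]

/-- Coordinates of a uniformly random function are independent. -/
lemma av_prod_fun (φ : ι → α → ℝ) :
    av (fun f : ι → α => ∏ i, φ i (f i)) = ∏ i, av (φ i) := by
  simp only [av, Finset.prod_div_distrib]
  rw [Fintype.card_fun, Nat.cast_pow, Finset.prod_const, Finset.card_univ]
  congr 1
  rw [Finset.prod_univ_sum, Fintype.piFinset_univ]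

/-- The restriction of a uniformly random function to an injective family of coordinates is
uniformly random. -/
lemma av_restrict {T : Type*} [Fintype T] [Nonempty α] (c : T → ι) (hc : Function.Injective c)
    (Φ : (T → α) → ℝ) : av (fun x : ι → α => Φ (fun t => x (c t))) = av Φ := by
  let p : ι → Prop := fun i => i ∈ Set.range c
  let e1 : (ι → α) ≃ ((∀ _ : {x // p x}, α) × (∀ _ : {x // ¬ p x}, α)) :=
    Equiv.piEquivPiSubtypeProd p (fun _ => α)
  let e2 : T ≃ {x // p x} := Equiv.ofInjective c hc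
  let e3 : ({x // p x} → α) ≃ (T → α) := Equiv.arrowCongr e2.symm (Equiv.refl α)
  have h1 : (fun x : ι → α => Φ (fun t => x (c t))) =
      fun x => (fun y : ({x // p x} → α) × ({x // ¬ p x} → α) => Φ (e3 y.1)) (e1 x) := by
    funext x
    rfl
  rw [h1]
  refine (av_equiv e1 (fun y : ({x // p x} → α) × ({x // ¬ p x} → α) => Φ (e3 y.1))).trans ?_
  refine (av_fst (Ω' := {x // ¬ p x} → α) (fun y : ({x // p x} → α) => Φ (e3 y))).trans ?_
  exact av_equiv e3 Φ

end fun_prod

end Pool.Agent.HC
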