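import Pool.Agent.Lib.MP_ec42c8_pr.P01

/-!
# P06 : the probability that a set of points is a union of pairs

PROOF.  A pairing of `P` that preserves `Q` is a pairing of `Q` and a pairing of the complement.  So for
`card Q = 2 j`, `card P = 2 r` the number is ` (2j-1)!! (2(r-j)-1)!!` and the probability is
` (2j-1)!! (2(r-j)-1)!! / (2r-1)!! = C(r, j) / C(2r, 2j)`, using ` (2r-1)!! = (2r)! / (2^r r!)`; and
`C(2r, 2j) ≥ C(r, j)²` (Vandermonde), so it is at most `1 / C(r, j)`.
If `card Q` is odd there is no such pairing.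
-/

set_option autoImplicit false

namespace Pool.Agent.HC

open Finset
open scoped Classical

lemma p06_df (m : ℕ) : (2 * (m + 1) - 1).doubleFactorial = (2 * m + 1) * (2 * m - 1).doubleFactorial := by
  have e1 : 2 * (m + 1) - 1 = 2 * m + 1 := by omega
  rw [e1]
  cases m with
  | zero => rfl
  | succ m =>
    have e2 : 2 * (m + 1) + 1 = (2 * m + 1) + 2 := by omega
    have e3 : 2 * (m + 1) - 1 = 2 * m + 1 := by omega
    rw [e3, e2, Nat.doubleFactorial_add_two]

lemma p06_ineq (a b : ℕ) : (a + b).choose a * ((2 * a - 1).doubleFactorial *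
    (2 * b - 1).doubleFactorial) ≤ (2 * (a + b) - 1).doubleFactorial := by
  induction a with
  | zero => simp
  | succ a ih =>
    have e1 : a + 1 + b = (a + b) + 1 := by omega
    rw [e1, p06_df a, p06_df (a + b)]
    have h1 := Nat.add_one_mul_choose_eq (a + b) a
    set C := (a + b).choose a
    set C' := (a + b + 1).choose (a + 1)
    set X := (2 * a - 1).doubleFactorial
    set Y := (2 * b - 1).doubleFactorial
    set Z := (2 * (a + b) - 1).doubleFactorial
    have h2 : (a + 1) * (C' * ((2 * a + 1) * X * Y)) ≤ (a + 1) * ((2 * (a + b) + 1) * Z) := by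
      calc (a + 1) * (C' * ((2 * a + 1) * X * Y)) = (C' * (a + 1)) * ((2 * a + 1) * (X * Y)) := by ring
        _ = ((a + b + 1) * C) * ((2 * a + 1) * (X * Y)) := by rw [← h1]
        _ = ((a + b + 1) * (2 * a + 1)) * (C * (X * Y)) := by ring
        _ ≤ ((a + 1) * (2 * (a + b) + 1)) * (C * (X * Y)) := by
            refine Nat.mul_le_mul_right _ ?_
            nlinarith
        _ ≤ ((a + 1) * (2 * (a + b) + 1)) * Z := Nat.mul_le_mul_left _ ih
        _ = _ := by ring
    exact Nat.le_of_mul_le_mul_left h2 (by omega)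

/-- Restriction of a pairing to an invariant set. -/
noncomputable def p06_res {P : Type} (S : P → Prop) (π : Pairing P) (h : ∀ p, S (π.1 p) ↔ S p) :
    Pairing {p : P // S p} :=
  ⟨π.1.subtypePerm h, fun p => ⟨fun h1 => π.ne p.1 (congrArg Subtype.val h1),
    Subtype.ext (π.inv p.1)⟩⟩

lemma p06_res_apply {P : Type} (S : P → Prop) (π : Pairing P) (h : ∀ p, S (π.1 p) ↔ S p)
    (p : {p : P // S p}) : (((p06_res S π h).1 p : {p : P // S p}) : P) = π.1 p.1 := rfl

theorem P06 {P : Type} [Fintype P] (r j : ℕ) (hP : Fintype.card P = 2 * r) (Q : Finset P)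
    (hQ : Q.card = 2 * j) :
    pr (fun π : Pairing P => ∀ p, p ∈ Q ↔ π.1 p ∈ Q) ≤ 1 / (r.choose j : ℝ) := by
  have hjr : j ≤ r := by
    have := Finset.card_le_univ Q
    omega
  have hc1 : Fintype.card {p : P // p ∈ Q} = 2 * j := by
    rw [Fintype.card_coe, hQ]
  have hc2 : Fintype.card {p : P // p ∉ Q} = 2 * (r - j) := by
    rw [Fintype.card_subtype_compl, hP]
    have := hc1
    omega
  have h1 : (Finset.univ.filter (fun π : Pairing P => ∀ p, p ∈ Q ↔ π.1 p ∈ Q)).card ≤
      (2 * j - 1).doubleFactorial * (2 * (r - j) - 1).doubleFactorial := by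
    have h2 : Fintype.card {π : Pairing P // ∀ p, p ∈ Q ↔ π.1 p ∈ Q} ≤
        Fintype.card (Pairing {p : P // p ∈ Q} × Pairing {p : P // p ∉ Q}) := by
      refine Fintype.card_le_of_injective (fun π =>
        (p06_res (fun p => p ∈ Q) π.1 (fun p => (π.2 p).symm),
          p06_res (fun p => p ∉ Q) π.1 (fun p => not_congr (π.2 p).symm))) ?_
      intro π π' h
      apply Subtype.ext
      apply Subtype.ext
      ext p
      have ha := congrArg Prod.fst h
      have hb := congrArg Prod.snd h
      by_cases hp : p ∈ Q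
      · have h3 := congrArg (fun τ : Pairing {p : P // p ∈ Q} => ((τ.1 ⟨p, hp⟩ : {p : P // p ∈ Q}) : P)) ha
        exact h3
      · have h3 := congrArg (fun τ : Pairing {p : P // p ∉ Q} => ((τ.1 ⟨p, hp⟩ : {p : P // p ∉ Q}) : P)) hb
        exact h3
    rw [Fintype.card_prod] at h2
    rw [← Fintype.card_subtype]
    refine (le_of_eq (p01_inst _ _ _)).trans (h2.trans (le_of_eq ?_))
    congr 1
    · exact (p01_inst _ _ _).trans (P01d j hc1)
    · exact (p01_inst _ _ _).trans (P01d (r - j) hc2)
  have h3 := P01d r hP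
  have h4 := p06_ineq j (r - j)
  have e1 : j + (r - j) = r := by omega
  rw [e1] at h4
  rw [pr_eq_card, h3]
  have hC : (0 : ℝ) < (r.choose j : ℝ) := by exact_mod_cast Nat.choose_pos hjr
  have hT : (0 : ℝ) < ((2 * r - 1).doubleFactorial : ℝ) := by
    exact_mod_cast Nat.doubleFactorial_pos _
  rw [div_le_div_iff₀ hT hC]
  generalize hc : (Finset.card _) = c
  have h1' : c ≤ (2 * j - 1).doubleFactorial * (2 * (r - j) - 1).doubleFactorial := by
    rw [← hc]
    convert h1
  have h5 : c * r.choose j ≤ 1 * (2 * r - 1).doubleFactorial := by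
    calc _ ≤ ((2 * j - 1).doubleFactorial * (2 * (r - j) - 1).doubleFactorial) * r.choose j :=
          Nat.mul_le_mul_right _ h1'
      _ = r.choose j * ((2 * j - 1).doubleFactorial * (2 * (r - j) - 1).doubleFactorial) := by ring
      _ ≤ _ := by rw [one_mul]; exact h4
  exact_mod_cast h5

theorem P06b {P : Type} [Fintype P] (Q : Finset P) (hQ : ¬ Even Q.card) (π : Pairing P) :
    ¬ ∀ p, p ∈ Q ↔ π.1 p ∈ Q := by
  intro h
  have h1 : ¬ Even (Fintype.card {p : P // p ∈ Q}) := by
    rw [Fintype.card_coe]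
    exact hQ
  exact (P01e h1).false (p06_res (fun p => p ∈ Q) π (fun p => (h p).symm))

end Pool.Agent.HC
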