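import Pool.Agent.Lib.MP_ec42c8_pr.F01

/-!
# C01 : a graph without perfect matching (Tutte)

PROOF.  `Fintype.card P` is even.  Suppose `G` has no perfect matching.  By Tutte's theorem
(`SimpleGraph.tutte`) there is a set `U` such that the graph induced on the complement of `U` has
`q > card U` odd components; since `card P` is even, `q` and `card U` have the same parity
(`SimpleGraph.odd_ncard_oddComponents` for the induced graph), so `q ≥ card U + 2`.  The complement
of `U` has at least `q > card U` vertices, hence at least `card P / 2 ≥ 4 b`.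
Suppose the second alternative (two disjoint nonadjacent sets with at least `b` elements) fails.
(i) Some component `C` of the complement of `U` has at least `b` elements: take a set of components
with union of size at least `b` and minimal cardinality; the rest has fewer than `b` vertices, so the
union has more than `3 b`, and without one component fewer than `b`.
(ii) `W :=` the complement of `U ∪ C` is not adjacent to `C`, so it has fewer than `b` elements.  It
contains all components but one, so at least `q - 1 ≥ card U + 1` vertices.  All neighbours of `W` are in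
`W ∪ U`: first alternative.
The perfect matching is turned into an involution: every vertex `p` has exactly one partner.
-/

set_option autoImplicit false

namespace Pool.Agent.HC

open Finset
open scoped Classical

/-- A perfect matching as a fixed point free involution. -/
lemma c01_pairing {P : Type} (G : SimpleGraph P) (M : G.Subgraph) (hM : M.IsPerfectMatching) :
    ∃ π : Pairing P, ∀ p, G.Adj p (π.1 p) := by
  have hv : ∀ v, ∃! w, M.Adj v w := SimpleGraph.Subgraph.isPerfectMatching_iff.1 hM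
  choose f hf hu using hv
  have hinv : ∀ v, f (f v) = v := by
    intro v
    exact (hu (f v) v (hf v).symm).symm
  refine ⟨⟨⟨f, f, hinv, hinv⟩, fun p => ⟨?_, hinv p⟩⟩, fun p => (hf p).adj_sub⟩
  intro h
  have h1 : M.Adj p (f p) := hf p
  have h2 : f p = p := h
  rw [h2] at h1
  exact M.loopless.irrefl p h1

theorem C01 {P : Type} [Fintype P] (G : SimpleGraph P) (b : ℕ) (hb : 1 ≤ b)
    (hP : Even (Fintype.card P)) (hPb : 8 * b ≤ Fintype.card P)
    (hno : ¬ ∃ π : Pairing P, ∀ p, G.Adj p (π.1 p)) :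
    (∃ W U : Finset P, W.Nonempty ∧ W.card < b ∧ U.card < W.card ∧ Disjoint W U ∧
      ∀ p ∈ W, ∀ q, G.Adj p q → q ∈ W ∨ q ∈ U) ∨
    (∃ A B : Finset P, b ≤ A.card ∧ b ≤ B.card ∧ Disjoint A B ∧
      ∀ p ∈ A, ∀ q ∈ B, ¬ G.Adj p q) := by
  have hT : ¬ ∃ M : G.Subgraph, M.IsPerfectMatching := by
    rintro ⟨M, hM⟩
    exact hno (c01_pairing G M hM)
  rw [SimpleGraph.tutte] at hT
  push Not at hT
  obtain ⟨u, hu⟩ := hT
  by_contra hcon
  push Not at hcon
  obtain ⟨hc1, hc2⟩ := hcon
  set S := ((⊤ : G.Subgraph).deleteVerts u) with hS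
  have hSv : ∀ p : P, p ∈ S.verts ↔ p ∉ u := by
    intro p
    simp [hS]
  set U : Finset P := univ.filter (fun p => p ∈ u) with hU
  have hUu : u.ncard = U.card := by
    rw [← Set.ncard_coe_finset]
    congr 1
    ext p
    simp [hU]
  -- the union of a set of components
  let X : Finset (S.coe.ConnectedComponent) → Finset P := fun 𝒞 =>
    univ.filter (fun p => ∃ h : p ∈ S.verts, S.coe.connectedComponentMk ⟨p, h⟩ ∈ 𝒞)
  have hX : ∀ 𝒞 p, p ∈ X 𝒞 ↔ ∃ h : p ∈ S.verts, S.coe.connectedComponentMk ⟨p, h⟩ ∈ 𝒞 := by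
    intro 𝒞 p
    simp [X]
  have hXcard : ∀ 𝒞, 𝒞.card ≤ (X 𝒞).card := by
    intro 𝒞
    have hrep : ∀ c : S.coe.ConnectedComponent, ∃ p : S.verts, S.coe.connectedComponentMk p = c := by
      intro c
      exact c.exists_rep
    choose g hg using hrep
    refine Finset.card_le_card_of_injOn (fun c => (g c : P)) ?_ ?_
    · intro c hc
      have hc' : c ∈ 𝒞 := hc
      refine Finset.mem_coe.2 ((hX _ _).2 ⟨(g c).2, ?_⟩)
      have : (⟨(g c : P), (g c).2⟩ : S.verts) = g c := rfl
      rw [this, hg]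
      exact hc'
    · intro c hc c' hc' h
      have h1 : g c = g c' := Subtype.ext h
      rw [← hg c, ← hg c', h1]
  have hXdisj : ∀ 𝒞 𝒟, Disjoint 𝒞 𝒟 → Disjoint (X 𝒞) (X 𝒟) := by
    intro 𝒞 𝒟 h
    rw [Finset.disjoint_left] at h ⊢
    intro p hp hp'
    obtain ⟨h1, h2⟩ := (hX _ _).1 hp
    obtain ⟨h3, h4⟩ := (hX _ _).1 hp'
    exact h h2 h4
  have hXnbr : ∀ 𝒞 p, p ∈ X 𝒞 → ∀ q, G.Adj p q → q ∈ X 𝒞 ∨ q ∈ U := by
    intro 𝒞 p hp q hpq
    by_cases hq : q ∈ u
    · right; simp [hU, hq]
    · left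
      obtain ⟨h1, h2⟩ := (hX _ _).1 hp
      have hq' : q ∈ S.verts := (hSv q).2 hq
      refine (hX _ _).2 ⟨hq', ?_⟩
      have hadj : S.coe.Adj ⟨p, h1⟩ ⟨q, hq'⟩ := by
        have h3 : ((⊤ : G.Subgraph).deleteVerts u).Adj p q := by
          rw [SimpleGraph.Subgraph.deleteVerts_adj]
          refine ⟨by simp, (hSv p).1 h1, by simp, hq, ?_⟩
          simpa using hpq
        exact h3
      have : S.coe.connectedComponentMk ⟨q, hq'⟩ = S.coe.connectedComponentMk ⟨p, h1⟩ :=
        (SimpleGraph.ConnectedComponent.sound hadj.reachable).symm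
      rw [this]
      exact h2
  have hXU : ∀ 𝒞, Disjoint (X 𝒞) U := by
    intro 𝒞
    rw [Finset.disjoint_left]
    intro p hp hp'
    obtain ⟨h1, _⟩ := (hX _ _).1 hp
    simp [hU] at hp'
    exact (hSv p).1 h1 hp'
  have hXnon : ∀ 𝒞, ∀ p ∈ X 𝒞, ∀ q ∈ X 𝒞ᶜ, ¬ G.Adj p q := by
    intro 𝒞 p hp q hq h
    rcases hXnbr 𝒞 p hp q h with h' | h'
    · exact Finset.disjoint_left.1 (hXdisj 𝒞 𝒞ᶜ disjoint_compl_right) h' hq
    · exact Finset.disjoint_left.1 (hXU 𝒞ᶜ) hq h'
  have hXsum : ∀ 𝒞 𝒟, Disjoint 𝒞 𝒟 → (X (𝒞 ∪ 𝒟)).card = (X 𝒞).card + (X 𝒟).card := by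
    intro 𝒞 𝒟 h
    rw [← Finset.card_union_of_disjoint (hXdisj 𝒞 𝒟 h)]
    congr 1
    ext p
    rw [Finset.mem_union, hX, hX, hX]
    constructor
    · rintro ⟨h1, h2⟩
      rcases Finset.mem_union.1 h2 with h3 | h3
      · exact Or.inl ⟨h1, h3⟩
      · exact Or.inr ⟨h1, h3⟩
    · rintro (⟨h1, h2⟩ | ⟨h1, h2⟩)
      · exact ⟨h1, Finset.mem_union_left _ h2⟩
      · exact ⟨h1, Finset.mem_union_right _ h2⟩
  have hXuniv : (X univ).card + U.card = Fintype.card P := by
    rw [← Finset.card_univ, ← Finset.card_union_of_disjoint (hXU univ)]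
    congr 1
    ext p
    rw [Finset.mem_union, hX]
    simp only [Finset.mem_univ, iff_true]
    by_cases hp : p ∈ u
    · right; simp [hU, hp]
    · left; exact ⟨(hSv p).2 hp, trivial⟩
  -- number of components
  have hq : U.card + 2 ≤ Fintype.card S.coe.ConnectedComponent := by
    have h1 : u.ncard < S.coe.oddComponents.ncard := hu
    rw [hUu] at h1
    have h2 : S.coe.oddComponents.ncard ≤ Fintype.card S.coe.ConnectedComponent := by
      rw [← Nat.card_eq_fintype_card]
      exact Set.ncard_le_card _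
    have h3 : Odd S.coe.oddComponents.ncard ↔ Odd (Nat.card S.verts) :=
      SimpleGraph.odd_ncard_oddComponents _
    have h4 : Nat.card S.verts = (X univ).card := by
      rw [Nat.card_coe_set_eq, ← Set.ncard_coe_finset]
      congr 1
      ext p
      rw [Finset.mem_coe, hX]
      simp
    rw [h4] at h3
    have h5 : Odd S.coe.oddComponents.ncard ↔ Odd U.card := by
      rw [h3]
      have : Even ((X univ).card + U.card) := by rw [hXuniv]; exact hP
      rw [Nat.even_add] at this
      rw [← Nat.not_even_iff_odd, ← Nat.not_even_iff_odd, this]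
    have h6 : S.coe.oddComponents.ncard ≠ U.card + 1 := by
      intro h
      rw [h, Nat.odd_add_one] at h5
      tauto
    omega
  have hXbig : U.card < (X univ).card := by
    have := hXcard univ
    rw [Finset.card_univ] at this
    omega
  have halt : ∀ 𝒞, b ≤ (X 𝒞).card → (X 𝒞ᶜ).card < b := by
    intro 𝒞 h
    by_contra h'
    push Not at h'
    obtain ⟨p, hp, q, hq, hpq⟩ := hc2 (X 𝒞) (X 𝒞ᶜ) h h' (hXdisj 𝒞 𝒞ᶜ disjoint_compl_right)
    exact hXnon 𝒞 p hp q hq hpq
  have htot : ∀ 𝒞, (X 𝒞).card + (X 𝒞ᶜ).card = (X univ).card := by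
    intro 𝒞
    rw [← hXsum 𝒞 𝒞ᶜ disjoint_compl_right, Finset.union_compl]
  -- a minimal set of components
  have hex : ∃ 𝒞 : Finset S.coe.ConnectedComponent, b ≤ (X 𝒞).card ∧
      ∀ 𝒟 : Finset S.coe.ConnectedComponent, b ≤ (X 𝒟).card → 𝒞.card ≤ 𝒟.card := by
    have hne : (univ.filter (fun 𝒞 : Finset S.coe.ConnectedComponent => b ≤ (X 𝒞).card)).Nonempty := by
      refine ⟨univ, ?_⟩
      rw [Finset.mem_filter]
      exact ⟨Finset.mem_univ _, by omega⟩
    obtain ⟨𝒞, h𝒞, hmin⟩ := Finset.exists_min_image _ Finset.card hne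
    refine ⟨𝒞, (Finset.mem_filter.1 h𝒞).2, fun 𝒟 h𝒟 => hmin 𝒟 ?_⟩
    rw [Finset.mem_filter]
    exact ⟨Finset.mem_univ _, h𝒟⟩
  obtain ⟨𝒞, h𝒞, hmin⟩ := hex
  have h𝒞ne : 𝒞.Nonempty := by
    rw [Finset.nonempty_iff_ne_empty]
    intro h
    rw [h] at h𝒞
    have : X ∅ = ∅ := by
      ext p
      rw [hX]
      simp
    rw [this, Finset.card_empty] at h𝒞
    omega
  obtain ⟨c, hc⟩ := h𝒞ne
  have h1 : (X (𝒞.erase c)).card < b := by
    by_contra h
    push Not at h
    have := hmin _ h
    have h2 := Finset.card_erase_lt_of_mem hc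
    omega
  have h2 : (X 𝒞).card = (X {c}).card + (X (𝒞.erase c)).card := by
    rw [← hXsum]
    · congr 2
      rw [Finset.singleton_union, Finset.insert_erase hc]
    · rw [Finset.disjoint_singleton_left]
      exact Finset.notMem_erase c 𝒞
  have h3 := halt 𝒞 h𝒞
  have h4 := htot 𝒞
  have h5 := halt {c} (by omega)
  have h6 : U.card + 1 ≤ (X {c}ᶜ).card := by
    have h7 := hXcard {c}ᶜ
    rw [Finset.card_compl, Finset.card_singleton] at h7
    omega
  obtain ⟨p, hp, q, hpq, hq1, hq2⟩ := hc1 (X {c}ᶜ) U (Finset.card_pos.1 (by omega)) h5 (by omega)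
    (hXU _)
  rcases hXnbr _ p hp q hpq with h | h
  · exact hq1 h
  · exact hq2 h

end Pool.Agent.HC
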