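import Pool.Agent.Lib.MP_ec42c8_pr.F01

/-!
# C02 : small sets expand

Setting: `ι : P ↪ Y`, each `p : P` picks `M` elements of `Y` uniformly at random (`x p i`); at most
`y ^ (1 - γ)` elements of `Y`, `y = card Y`, are not in the image of `ι`.
PROOF.  For fixed `W`, `U` with `card W = w`, `card U < w` the probability that all picks of `W` are
outside `ι (P \ (W ∪ U))` is at most ` ((2 w + δ) / y) ^ (M w)`, `δ = y - card P ≤ y ^ (1-γ)`
(independence: `av_prod_fun`, or `av_restrict`, for functions on `P × Fin M`).  There are at most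
` (e y / w) ^ w` sets `W` and at most as many sets `U'` with `w` elements (every `U` is contained in
one).  The term for `w` is at most `K / y ^ 2` for a constant `K` and large `y`.
-/

set_option autoImplicit false

namespace Pool.Agent.HC

open Finset
open scoped Classical

/-- the average does not depend on the `Fintype` instance -/
theorem c02_inst {Ω : Type*} (I1 I2 : Fintype Ω) (f : Ω → ℝ) : @av Ω I1 f = @av Ω I2 f := by
  have : I1 = I2 := Subsingleton.elim _ _
  rw [this]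

/-- independence of the picks -/
theorem c02_indep {P Y : Type} [Fintype P] [Fintype Y] [Nonempty Y] {M : ℕ} (W : Finset P)
    (S : Finset Y) :
    pr (fun x : P → Fin M → Y => ∀ p ∈ W, ∀ i, x p i ∈ S) =
      ((S.card : ℝ) / Fintype.card Y) ^ (M * W.card) := by
  have h1 : pr (fun x : P → Fin M → Y => ∀ p ∈ W, ∀ i, x p i ∈ S) =
      av (fun x : P → Fin M → Y =>
        ∏ p, (if p ∈ W then ∏ i, (if x p i ∈ S then (1 : ℝ) else 0) else 1)) := by
    unfold pr
    refine av_congr (fun x => ?_)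
    by_cases h : ∀ p ∈ W, ∀ i, x p i ∈ S
    · rw [if_pos h]
      symm
      refine Finset.prod_eq_one (fun p _ => ?_)
      split_ifs with hp
      · exact Finset.prod_eq_one (fun i _ => if_pos (h p hp i))
      · rfl
    · rw [if_neg h]
      push Not at h
      obtain ⟨p, hp, i, hi⟩ := h
      symm
      apply Finset.prod_eq_zero (Finset.mem_univ p)
      rw [if_pos hp]
      exact Finset.prod_eq_zero (Finset.mem_univ i) (if_neg hi)
  rw [h1]
  rw [av_prod_fun (fun p (f : Fin M → Y) =>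
    if p ∈ W then ∏ i, (if f i ∈ S then (1 : ℝ) else 0) else 1)]
  have h3 : av (fun y : Y => if y ∈ S then (1 : ℝ) else 0) = (S.card : ℝ) / Fintype.card Y := by
    simp [av]
  have h2 : ∀ p, av (fun f : Fin M → Y =>
      if p ∈ W then ∏ i, (if f i ∈ S then (1 : ℝ) else 0) else 1) =
      if p ∈ W then ((S.card : ℝ) / Fintype.card Y) ^ M else 1 := by
    intro p
    by_cases hp : p ∈ W
    · simp only [if_pos hp]
      refine (c02_inst _ _ _).trans ((av_prod_fun (ι := Fin M)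
        (fun _ y => if y ∈ S then (1 : ℝ) else 0)).trans ?_)
      rw [Finset.prod_const, h3, Finset.card_univ, Fintype.card_fin]
    · simp only [if_neg hp]
      exact av_const _
  rw [Finset.prod_congr rfl (fun p _ => h2 p), Finset.prod_ite, Finset.prod_const_one, mul_one,
    Finset.prod_const, pow_mul]
  congr 1
  congr 1
  ext p
  simp

theorem c02_choose (N w y : ℕ) (hN : N ≤ y) (hw : 1 ≤ w) :
    (N.choose w : ℝ) ≤ (Real.exp 1 * y / w) ^ w := by
  have hw0 : (0 : ℝ) < w := by exact_mod_cast hw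
  have h1 : (N.choose w : ℝ) ≤ (N : ℝ) ^ w / (w.factorial : ℝ) := Nat.choose_le_pow_div w N
  have h2 : (w : ℝ) ^ w / (w.factorial : ℝ) ≤ Real.exp w :=
    Real.pow_div_factorial_le_exp (w : ℝ) hw0.le w
  have h3 : (0 : ℝ) < w.factorial := by exact_mod_cast Nat.factorial_pos w
  have h4 : (N : ℝ) ^ w ≤ (y : ℝ) ^ w := by
    have : (N : ℝ) ≤ y := by exact_mod_cast hN
    exact pow_le_pow_left₀ (Nat.cast_nonneg _) this w
  have h5 : Real.exp w = (Real.exp 1) ^ w := by
    rw [← Real.exp_nat_mul, mul_one]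
  refine h1.trans ?_
  rw [div_pow, mul_pow, ← h5]
  rw [div_le_div_iff₀ h3 (by positivity)]
  rw [div_le_iff₀ h3] at h2
  calc (N : ℝ) ^ w * (w : ℝ) ^ w ≤ (y : ℝ) ^ w * (Real.exp w * w.factorial) :=
        mul_le_mul h4 h2 (by positivity) (by positivity)
    _ = Real.exp w * (y : ℝ) ^ w * w.factorial := by ring

theorem c02_term (γ : ℝ) (hγ : 0 < γ) : ∃ M₀ : ℕ, ∀ M ≥ M₀, ∃ K : ℝ, 0 < K ∧ ∃ y₁ : ℕ, ∀ y : ℕ,
    y₁ ≤ y → ∀ δ : ℝ, 0 ≤ δ → δ ≤ (y : ℝ) ^ (1 - γ) → ∀ w : ℕ, 1 ≤ w → 64 * w ≤ y →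
      ((Real.exp 1 * y / w) ^ w) ^ 2 * ((2 * w + δ) / y) ^ (M * w) ≤ K / (y : ℝ) ^ 2 := by
  refine ⟨⌈4 / γ⌉₊ + 6, fun M hM => ⟨(Real.exp 1) ^ 2 * 3 ^ M + 5500, by positivity,
    ⌈(Real.exp 1) ^ 2 * 3 ^ M + 5500⌉₊, ?_⟩⟩
  intro y hy δ hδ hδy w hw hwy
  set e := Real.exp 1 with he
  have he0 : 0 < e := Real.exp_pos 1
  have he2 : e ^ 2 ≤ 7.4 := by
    have h1 := Real.exp_one_lt_d9
    rw [← he] at h1
    nlinarith
  have hyK : e ^ 2 * 3 ^ M + 5500 ≤ (y : ℝ) := (Nat.le_ceil _).trans (by exact_mod_cast hy)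
  have hpos1 : 0 ≤ e ^ 2 * 3 ^ M := by positivity
  have hy1 : (5500 : ℝ) ≤ y := by linarith
  have hy0 : (0 : ℝ) < y := by linarith
  have hw0 : (0 : ℝ) < w := by exact_mod_cast hw
  have hw1 : (1 : ℝ) ≤ w := by exact_mod_cast hw
  have hwy' : 64 * (w : ℝ) ≤ y := by exact_mod_cast hwy
  have hMγ : 4 ≤ γ * M := by
    have h1 : 4 / γ ≤ ⌈4 / γ⌉₊ := Nat.le_ceil _
    have h2 : (⌈4 / γ⌉₊ : ℝ) + 6 ≤ M := by exact_mod_cast hM
    rw [div_le_iff₀ hγ] at h1
    nlinarith
  have hM6 : 6 ≤ M := by omega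
  set T : ℝ := (e * y / w) ^ 2 * ((2 * w + δ) / y) ^ M with hT
  have hT0 : 0 ≤ T := by positivity
  have hLHS : ((e * y / w) ^ w) ^ 2 * ((2 * w + δ) / y) ^ (M * w) = T ^ w := by
    rw [hT, mul_pow, ← pow_mul, ← pow_mul, ← pow_mul, mul_comm w 2]
  rw [hLHS]
  have hTw : T ≤ 1 → T ^ w ≤ T := fun h => by
    have := pow_le_pow_of_le_one hT0 h hw
    rwa [pow_one] at this
  rcases le_or_gt (w : ℝ) δ with hcase | hcase
  · -- case A
    set a : ℝ := (y : ℝ) ^ (-γ) with ha
    have ha0 : 0 < a := Real.rpow_pos_of_pos hy0 _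
    have h1 : (2 * w + δ) / y ≤ 3 * a := by
      rw [div_le_iff₀ hy0]
      have h2 : a * y = (y : ℝ) ^ (1 - γ) := by
        rw [ha, show (1 - γ) = -γ + 1 by ring, Real.rpow_add hy0, Real.rpow_one]
      rw [mul_assoc, h2]
      linarith
    have h3 : a ^ M ≤ ((y : ℝ) ^ 4)⁻¹ := by
      have h4 : a ^ M = (y : ℝ) ^ (-γ * M) := by
        rw [ha, ← Real.rpow_natCast, ← Real.rpow_mul hy0.le]
      have h5 : ((y : ℝ) ^ 4)⁻¹ = (y : ℝ) ^ (-4 : ℝ) := by
        rw [Real.rpow_neg hy0.le]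
        congr 1
        rw [← Real.rpow_natCast]
        norm_num
      rw [h4, h5]
      exact Real.rpow_le_rpow_of_exponent_le (by linarith) (by linarith)
    have h6 : (e * y / w) ^ 2 ≤ e ^ 2 * y ^ 2 := by
      rw [div_pow, mul_pow]
      exact div_le_self (by positivity) (one_le_pow₀ hw1)
    have h7 : T ≤ (e ^ 2 * 3 ^ M) / (y : ℝ) ^ 2 := by
      calc T ≤ (e ^ 2 * y ^ 2) * (3 * a) ^ M := by
            refine mul_le_mul h6 (pow_le_pow_left₀ (by positivity) h1 M) (by positivity)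
              (by positivity)
        _ = e ^ 2 * y ^ 2 * 3 ^ M * a ^ M := by rw [mul_pow]; ring
        _ ≤ e ^ 2 * y ^ 2 * 3 ^ M * ((y : ℝ) ^ 4)⁻¹ :=
            mul_le_mul_of_nonneg_left h3 (by positivity)
        _ = (e ^ 2 * 3 ^ M) / (y : ℝ) ^ 2 := by field_simp
    have h8 : (e ^ 2 * 3 ^ M) / (y : ℝ) ^ 2 ≤ 1 := by
      rw [div_le_one (by positivity)]
      nlinarith
    refine (hTw (h7.trans h8)).trans (h7.trans ?_)
    gcongr
    linarith
  · -- case B
    have h1 : (2 * w + δ) / y ≤ 3 * w / y := by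
      gcongr
      linarith
    have h2 : 3 * (w : ℝ) / y ≤ 3 / 64 := by
      rw [div_le_div_iff₀ hy0 (by norm_num)]
      linarith
    have h20 : 0 ≤ 3 * (w : ℝ) / y := by positivity
    have h3 : T ≤ 67 * (3 * w / y) ^ 4 := by
      have h4 : ((2 * w + δ) / y) ^ M ≤ (3 * w / y) ^ 6 :=
        (pow_le_pow_left₀ (by positivity) h1 M).trans
          (pow_le_pow_of_le_one h20 (by linarith) hM6)
      calc T ≤ (e * y / w) ^ 2 * (3 * w / y) ^ 6 :=
            mul_le_mul_of_nonneg_left h4 (by positivity)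
        _ = 9 * e ^ 2 * (3 * w / y) ^ 4 := by
            field_simp
            ring
        _ ≤ 67 * (3 * w / y) ^ 4 := by
            refine mul_le_mul_of_nonneg_right ?_ (by positivity)
            linarith
    rcases le_or_gt ((w : ℝ) ^ 2) y with hc | hc
    · have h5 : (3 * (w : ℝ) / y) ^ 4 ≤ 81 / (y : ℝ) ^ 2 := by
        rw [div_pow, mul_pow]
        rw [div_le_div_iff₀ (by positivity) (by positivity)]
        have h6 : (w : ℝ) ^ 4 ≤ y ^ 2 := by
          have : (w : ℝ) ^ 4 = (w ^ 2) ^ 2 := by ring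
          rw [this]
          exact pow_le_pow_left₀ (by positivity) hc 2
        have h7 : 0 ≤ (y : ℝ) ^ 2 := by positivity
        nlinarith
      have h6 : T ≤ 5427 / (y : ℝ) ^ 2 := by
        refine h3.trans ?_
        calc 67 * (3 * (w : ℝ) / y) ^ 4 ≤ 67 * (81 / (y : ℝ) ^ 2) :=
              mul_le_mul_of_nonneg_left h5 (by norm_num)
          _ = 5427 / (y : ℝ) ^ 2 := by ring
      have h8 : 5427 / (y : ℝ) ^ 2 ≤ 1 := by
        rw [div_le_one (by positivity)]
        nlinarith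
      refine (hTw (h6.trans h8)).trans (h6.trans ?_)
      gcongr
      linarith
    · have h5 : T ≤ 1 / 16 := by
        refine h3.trans ?_
        have h6 : (3 * (w : ℝ) / y) ^ 4 ≤ (3 / 64) ^ 4 := pow_le_pow_left₀ h20 h2 4
        have h7 : (67 : ℝ) * (3 / 64) ^ 4 ≤ 1 / 16 := by norm_num
        linarith
      have h6 : T ^ w ≤ (1 / 16 : ℝ) ^ w := pow_le_pow_left₀ hT0 h5 w
      have h7 : (1 / 16 : ℝ) ^ w = ((2 : ℝ) ^ w)⁻¹ ^ 4 := by
        rw [← inv_pow, ← pow_mul, mul_comm w 4, pow_mul]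
        norm_num
      have h8 : (w : ℝ) ≤ 2 ^ w := by
        exact_mod_cast (Nat.lt_two_pow_self (n := w)).le
      have h9 : ((2 : ℝ) ^ w)⁻¹ ^ 4 ≤ ((w : ℝ))⁻¹ ^ 4 :=
        pow_le_pow_left₀ (by positivity) (inv_anti₀ hw0 h8) 4
      have h10 : ((w : ℝ))⁻¹ ^ 4 ≤ 1 / (y : ℝ) ^ 2 := by
        rw [inv_pow, ← one_div, div_le_div_iff₀ (by positivity) (by positivity), one_mul, one_mul]
        have : (w : ℝ) ^ 4 = (w ^ 2) ^ 2 := by ring
        rw [this]
        exact pow_le_pow_left₀ hy0.le hc.le 2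
      have h11 : 1 / (y : ℝ) ^ 2 ≤ (e ^ 2 * 3 ^ M + 5500) / (y : ℝ) ^ 2 := by
        gcongr
        linarith
      linarith

theorem C02 (γ : ℝ) (hγ : 0 < γ) : ∃ M₀ : ℕ, ∀ M ≥ M₀, ∀ ε : ℝ, 0 < ε → ∃ y₀ : ℕ,
    ∀ (P Y : Type) [Fintype P] [Fintype Y] (ι : P ↪ Y), y₀ ≤ Fintype.card Y →
      (Fintype.card Y : ℝ) - Fintype.card P ≤ (Fintype.card Y : ℝ) ^ (1 - γ) →
      pr (fun x : P → Fin M → Y => ∃ W U : Finset P, W.Nonempty ∧
        64 * W.card ≤ Fintype.card Y ∧ U.card < W.card ∧ Disjoint W U ∧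
        ∀ p ∈ W, ∀ i, ∀ q, x p i = ι q → q ∈ W ∨ q ∈ U) ≤ ε := by
  obtain ⟨M₀, hM₀⟩ := c02_term γ hγ
  refine ⟨M₀, fun M hM ε hε => ?_⟩
  obtain ⟨K, hK, y₁, hy₁⟩ := hM₀ M hM
  refine ⟨max y₁ (⌈2 * K / ε⌉₊ + 1), ?_⟩
  intro P Y _ _ ι hy hδ
  set y := Fintype.card Y with hydef
  set N := Fintype.card P with hNdef
  have hNy : N ≤ y := Fintype.card_le_of_injective ι ι.injective
  have hy1 : y₁ ≤ y := (le_max_left _ _).trans hy
  have hy2 : ⌈2 * K / ε⌉₊ + 1 ≤ y := (le_max_right _ _).trans hy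
  have hypos : 0 < y := by omega
  have hy0 : (0 : ℝ) < y := by exact_mod_cast hypos
  have : Nonempty Y := Fintype.card_pos_iff.1 hypos
  have hδ0 : (0 : ℝ) ≤ (y : ℝ) - N := by
    have : (N : ℝ) ≤ y := by exact_mod_cast hNy
    linarith
  -- the set of allowed values
  set S : Finset P → Finset P → Finset Y := fun W U =>
    Finset.univ.filter (fun z => ∀ q, z = ι q → q ∈ W ∨ q ∈ U) with hS
  have hScard : ∀ W U : Finset P, W.card = U.card →
      ((S W U).card : ℝ) ≤ 2 * W.card + ((y : ℝ) - N) := by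
    intro W U hWU
    have h1 : S W U ⊆ (W ∪ U).map ι ∪ (Finset.univ.map ι)ᶜ := by
      intro z hz
      rw [hS, Finset.mem_filter] at hz
      rw [Finset.mem_union]
      by_cases hzi : ∃ q, z = ι q
      · obtain ⟨q, rfl⟩ := hzi
        left
        rw [Finset.mem_map]
        refine ⟨q, ?_, rfl⟩
        rw [Finset.mem_union]
        exact hz.2 q rfl
      · right
        rw [Finset.mem_compl, Finset.mem_map]
        rintro ⟨q, -, hq⟩
        exact hzi ⟨q, hq.symm⟩
    have h2 := (Finset.card_le_card h1).trans (Finset.card_union_le _ _)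
    have h3 := Finset.card_union_le W U
    rw [Finset.card_map, Finset.card_compl, Finset.card_map, Finset.card_univ] at h2
    have h4 : (S W U).card ≤ 2 * W.card + (y - N) := by omega
    have h5 : ((S W U).card : ℝ) ≤ ((2 * W.card + (y - N) : ℕ) : ℝ) := by exact_mod_cast h4
    rw [Nat.cast_add, Nat.cast_sub hNy] at h5
    push_cast at h5
    exact h5
  -- union bound
  have hev : ∀ x : P → Fin M → Y, (∃ W U : Finset P, W.Nonempty ∧
        64 * W.card ≤ y ∧ U.card < W.card ∧ Disjoint W U ∧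
        ∀ p ∈ W, ∀ i, ∀ q, x p i = ι q → q ∈ W ∨ q ∈ U) →
      ∃ w ∈ Finset.Icc 1 y, ∃ t ∈ (if 64 * w ≤ y then
        (Finset.powersetCard w (Finset.univ : Finset P)) ×ˢ
        (Finset.powersetCard w (Finset.univ : Finset P)) else ∅),
        ∀ p ∈ t.1, ∀ i, x p i ∈ S t.1 t.2 := by
    rintro x ⟨W, U, hW, h64, hUW, -, hx⟩
    obtain ⟨U', hU', -, hU'c⟩ := Finset.exists_subsuperset_card_eq (Finset.subset_univ U) hUW.le
      (Finset.card_le_univ W)
    refine ⟨W.card, ?_, (W, U'), ?_, ?_⟩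
    · rw [Finset.mem_Icc]
      exact ⟨hW.card_pos, by omega⟩
    · rw [if_pos h64, Finset.mem_product, Finset.mem_powersetCard, Finset.mem_powersetCard]
      exact ⟨⟨Finset.subset_univ _, rfl⟩, ⟨Finset.subset_univ _, hU'c⟩⟩
    · intro p hp i
      rw [hS, Finset.mem_filter]
      refine ⟨Finset.mem_univ _, fun q hq => ?_⟩
      rcases hx p hp i q hq with h | h
      · exact Or.inl h
      · exact Or.inr (hU' h)
  refine (pr_mono hev).trans ((pr_exists_le _ _).trans ?_)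
  have hw : ∀ w ∈ Finset.Icc 1 y, pr (fun x : P → Fin M → Y => ∃ t ∈ (if 64 * w ≤ y then
        (Finset.powersetCard w (Finset.univ : Finset P)) ×ˢ
        (Finset.powersetCard w (Finset.univ : Finset P)) else ∅),
        ∀ p ∈ t.1, ∀ i, x p i ∈ S t.1 t.2) ≤ K / (y : ℝ) ^ 2 := by
    intro w hw
    rw [Finset.mem_Icc] at hw
    refine (pr_exists_le _ _).trans ?_
    by_cases h64 : 64 * w ≤ y
    · rw [if_pos h64]
      have hterm : ∀ t ∈ (Finset.powersetCard w (Finset.univ : Finset P)) ×ˢ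
          (Finset.powersetCard w (Finset.univ : Finset P)),
          pr (fun x : P → Fin M → Y => ∀ p ∈ t.1, ∀ i, x p i ∈ S t.1 t.2) ≤
            ((2 * w + ((y : ℝ) - N)) / y) ^ (M * w) := by
        intro t ht
        rw [Finset.mem_product, Finset.mem_powersetCard, Finset.mem_powersetCard] at ht
        rw [c02_indep, ht.1.2]
        refine pow_le_pow_left₀ (by positivity) ?_ _
        have h1 := hScard t.1 t.2 (ht.1.2.trans ht.2.2.symm)
        rw [ht.1.2] at h1
        exact div_le_div_of_nonneg_right h1 (Nat.cast_nonneg _)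
      refine (Finset.sum_le_sum hterm).trans ?_
      rw [Finset.sum_const, nsmul_eq_mul, Finset.card_product, Finset.card_powersetCard,
        Finset.card_univ, Nat.cast_mul, ← pow_two]
      refine le_trans ?_ (hy₁ y hy1 ((y : ℝ) - N) hδ0 hδ w hw.1 h64)
      refine mul_le_mul_of_nonneg_right ?_ (by positivity)
      exact pow_le_pow_left₀ (Nat.cast_nonneg _) (c02_choose N w y hNy hw.1) 2
    · rw [if_neg h64, Finset.sum_empty]
      positivity
  refine (Finset.sum_le_sum hw).trans ?_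
  rw [Finset.sum_const, nsmul_eq_mul, Nat.card_Icc, Nat.add_sub_cancel]
  have h1 : (y : ℝ) * (K / (y : ℝ) ^ 2) = K / y := by field_simp
  rw [h1, div_le_iff₀ hy0]
  have h2 : 2 * K / ε ≤ y := by
    have h3 : 2 * K / ε ≤ ⌈2 * K / ε⌉₊ := Nat.le_ceil _
    have h4 : ((⌈2 * K / ε⌉₊ + 1 : ℕ) : ℝ) ≤ y := by exact_mod_cast hy2
    push_cast at h4
    linarith
  rw [div_le_iff₀ hε] at h2
  nlinarith

end Pool.Agent.HC
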