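import Pool.Agent.Lib.MP_ec42c8_pr.C02

/-!
# C03 : two large sets are joined

PROOF.  For fixed `A`, `B` with at least `y / 128` elements, `y = card Y`, the probability that no pick of
an element of `A` is in `ι B` is at most ` (1 - 1/128) ^ (M y / 128)` (independence).  There are at most
`2 ^ (card P) · 2 ^ (card P) ≤ 4 ^ y` pairs.  For `M₀ = 128 · 128 · 3` this gives at most
` (4 e ^ (- 3)) ^ y → 0`.
-/

set_option autoImplicit false

namespace Pool.Agent.HC

open Finset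
open scoped Classical

theorem C03 : ∃ M₀ : ℕ, ∀ M ≥ M₀, ∀ ε : ℝ, 0 < ε → ∃ y₀ : ℕ,
    ∀ (P Y : Type) [Fintype P] [Fintype Y] (ι : P ↪ Y), y₀ ≤ Fintype.card Y →
      pr (fun x : P → Fin M → Y => ∃ A B : Finset P, Fintype.card Y ≤ 128 * A.card ∧
        Fintype.card Y ≤ 128 * B.card ∧ ∀ p ∈ A, ∀ i, ∀ q ∈ B, x p i ≠ ι q) ≤ ε := by
  refine ⟨49152, fun M hM ε hε => ⟨⌈1 / ε⌉₊ + 1, ?_⟩⟩
  intro P Y _ _ ι hy
  set y := Fintype.card Y with hydef
  have hypos : 0 < y := by omega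
  have hy0 : (0 : ℝ) < y := by exact_mod_cast hypos
  have : Nonempty Y := Fintype.card_pos_iff.1 hypos
  have hNy : Fintype.card P ≤ y := Fintype.card_le_of_injective ι ι.injective
  have hev : ∀ x : P → Fin M → Y, (∃ A B : Finset P, y ≤ 128 * A.card ∧
        y ≤ 128 * B.card ∧ ∀ p ∈ A, ∀ i, ∀ q ∈ B, x p i ≠ ι q) →
      ∃ t ∈ (Finset.univ : Finset (Finset P × Finset P)).filter
        (fun t => y ≤ 128 * t.1.card ∧ y ≤ 128 * t.2.card),
        ∀ p ∈ t.1, ∀ i, x p i ∈ (t.2.map ι)ᶜ := by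
    rintro x ⟨A, B, hA, hB, hx⟩
    refine ⟨(A, B), ?_, ?_⟩
    · rw [Finset.mem_filter]
      exact ⟨Finset.mem_univ _, hA, hB⟩
    · intro p hp i
      rw [Finset.mem_compl, Finset.mem_map]
      rintro ⟨q, hq, hqx⟩
      exact hx p hp i q hq hqx.symm
  refine (pr_mono hev).trans ((pr_exists_le _ _).trans ?_)
  have hterm : ∀ t ∈ (Finset.univ : Finset (Finset P × Finset P)).filter
      (fun t => y ≤ 128 * t.1.card ∧ y ≤ 128 * t.2.card),
      pr (fun x : P → Fin M → Y => ∀ p ∈ t.1, ∀ i, x p i ∈ (t.2.map ι)ᶜ) ≤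
        Real.exp (-(3 * y)) := by
    intro t ht
    rw [Finset.mem_filter] at ht
    obtain ⟨-, hA, hB⟩ := ht
    rw [c02_indep, Finset.card_compl, Finset.card_map]
    have hBle : t.2.card ≤ y := (Finset.card_le_univ _).trans hNy
    have h1 : ((y - t.2.card : ℕ) : ℝ) / y ≤ Real.exp (-(1 / 128)) := by
      rw [Nat.cast_sub hBle]
      have h2 : ((y : ℝ) - t.2.card) / y ≤ 1 - 1 / 128 := by
        rw [div_le_iff₀ hy0]
        have : (y : ℝ) ≤ 128 * t.2.card := by exact_mod_cast hB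
        linarith
      have h3 := Real.add_one_le_exp (-(1 / 128 : ℝ))
      linarith
    have h2 : 0 ≤ ((y - t.2.card : ℕ) : ℝ) / y := by positivity
    refine (pow_le_pow_left₀ h2 h1 _).trans ?_
    rw [← Real.exp_nat_mul]
    apply Real.exp_le_exp.2
    have h3 : (y : ℝ) ≤ 128 * t.1.card := by exact_mod_cast hA
    have h4 : (49152 : ℝ) ≤ M := by exact_mod_cast hM
    push_cast
    have h5 : (49152 : ℝ) * (y / 128) ≤ M * t.1.card :=
      mul_le_mul h4 (by linarith) (by positivity) (by positivity)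
    linarith
  refine (Finset.sum_le_sum hterm).trans ?_
  rw [Finset.sum_const, nsmul_eq_mul]
  have hcard : ((((Finset.univ : Finset (Finset P × Finset P)).filter
      (fun t => y ≤ 128 * t.1.card ∧ y ≤ 128 * t.2.card)).card : ℕ) : ℝ) ≤ Real.exp (2 * y) := by
    have h1 := Finset.card_filter_le (Finset.univ : Finset (Finset P × Finset P))
      (fun t => y ≤ 128 * t.1.card ∧ y ≤ 128 * t.2.card)
    rw [Finset.card_univ, Fintype.card_prod, Fintype.card_finset] at h1
    have h2 : 2 ^ Fintype.card P * 2 ^ Fintype.card P ≤ 4 ^ y := by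
      rw [← mul_pow]
      exact Nat.pow_le_pow_right (by norm_num) hNy
    have h3 : ((((Finset.univ : Finset (Finset P × Finset P)).filter
      (fun t => y ≤ 128 * t.1.card ∧ y ≤ 128 * t.2.card)).card : ℕ) : ℝ) ≤ ((4 ^ y : ℕ) : ℝ) := by
      exact_mod_cast h1.trans h2
    refine h3.trans ?_
    rw [Nat.cast_pow, show (2 : ℝ) * y = y * 2 by ring, Real.exp_nat_mul]
    refine pow_le_pow_left₀ (by positivity) ?_ _
    have h4 := Real.exp_one_gt_d9
    have h5 : Real.exp 2 = Real.exp 1 * Real.exp 1 := by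
      rw [← Real.exp_add]
      norm_num
    rw [h5]
    push_cast
    nlinarith
  refine (mul_le_mul_of_nonneg_right hcard (Real.exp_pos _).le).trans ?_
  rw [← Real.exp_add, show (2 : ℝ) * y + -(3 * y) = -y by ring, Real.exp_neg]
  have h1 : (y : ℝ) ≤ Real.exp y := by
    have := Real.add_one_le_exp (y : ℝ)
    linarith
  have h2 : (Real.exp y)⁻¹ ≤ (y : ℝ)⁻¹ := inv_anti₀ hy0 h1
  refine h2.trans ?_
  have h3 : 1 / ε ≤ y := by
    have h4 : 1 / ε ≤ ⌈1 / ε⌉₊ := Nat.le_ceil _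
    have h5 : ((⌈1 / ε⌉₊ + 1 : ℕ) : ℝ) ≤ y := by exact_mod_cast hy
    push_cast at h5
    linarith
  rw [div_le_iff₀ hε] at h3
  rw [inv_le_iff_one_le_mul₀ hy0]
  linarith

end Pool.Agent.HC
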