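import Pool.Agent.Lib.MP_ec42c8_pr.C01
import Pool.Agent.Lib.MP_ec42c8_pr.C02
import Pool.Agent.Lib.MP_ec42c8_pr.C03

/-!
# C04 : the graph of the picks has a perfect matching

PROOF.  Let `G` be the graph on `P` with `p ~ q` iff `p ≠ q` and `x p i = ι q` or `x q i = ι p` for some `i`.
If there is no admissible pairing then `C01`, with `b = card Y / 100` (rounded down; `64 b ≤ card Y ≤
128 b`, `8 b ≤ card P` for large `card Y`), gives one of the events of `C02`, `C03` (with the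
bounds `64 card W ≤ card Y`, `card Y ≤ 128 card A`).
-/

set_option autoImplicit false

namespace Pool.Agent.HC

open Finset
open scoped Classical

/-- The pairing uses only picks. -/
def Adm {P Y : Type} {M : ℕ} (ι : P → Y) (x : P → Fin M → Y) (π : Pairing P) : Prop :=
  ∀ p, ∃ i, x p i = ι (π.1 p) ∨ x (π.1 p) i = ι p

/-- the graph of the picks -/
def c04_graph {P Y : Type} {M : ℕ} (ι : P → Y) (x : P → Fin M → Y) : SimpleGraph P where
  Adj p q := p ≠ q ∧ ∃ i, x p i = ι q ∨ x q i = ι p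
  symm := ⟨by
    rintro p q ⟨hne, i, h⟩
    exact ⟨hne.symm, i, h.symm⟩⟩
  loopless := ⟨fun p h => h.1 rfl⟩

theorem C04 (γ : ℝ) (hγ : 0 < γ) : ∃ M : ℕ, ∀ ε : ℝ, 0 < ε → ∃ y₀ : ℕ,
    ∀ (P Y : Type) [Fintype P] [Fintype Y] (ι : P ↪ Y), y₀ ≤ Fintype.card Y →
      Even (Fintype.card P) →
      (Fintype.card Y : ℝ) - Fintype.card P ≤ (Fintype.card Y : ℝ) ^ (1 - γ) →
      pr (fun x : P → Fin M → Y => ¬ ∃ π : Pairing P, Adm ι x π) ≤ ε := by
  obtain ⟨M2, h2⟩ := C02 γ hγ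
  obtain ⟨M3, h3⟩ := C03
  refine ⟨max M2 M3, fun ε hε => ?_⟩
  obtain ⟨y2, hy2⟩ := h2 (max M2 M3) (le_max_left _ _) (ε / 2) (by linarith)
  obtain ⟨y3, hy3⟩ := h3 (max M2 M3) (le_max_right _ _) (ε / 2) (by linarith)
  have hlim : Filter.Tendsto (fun y : ℕ => (y : ℝ) ^ (-γ)) Filter.atTop (nhds 0) :=
    (tendsto_rpow_neg_atTop hγ).comp tendsto_natCast_atTop_atTop
  obtain ⟨y4, hy4⟩ := Filter.eventually_atTop.1
    (hlim.eventually (ge_mem_nhds (show (0 : ℝ) < 1 / 2 by norm_num)))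
  refine ⟨max (max y2 y3) (max y4 1000), ?_⟩
  intro P Y _ _ ι hy hev hδ
  have hyy2 : y2 ≤ Fintype.card Y := by omega
  have hyy3 : y3 ≤ Fintype.card Y := by omega
  have hyy4 : y4 ≤ Fintype.card Y := by omega
  have hy1000 : 1000 ≤ Fintype.card Y := by omega
  have hy0 : (0 : ℝ) < Fintype.card Y := by
    have : (1000 : ℝ) ≤ Fintype.card Y := by exact_mod_cast hy1000
    linarith
  have hN : 8 * (Fintype.card Y / 100) ≤ Fintype.card P := by
    have h5 := hy4 _ hyy4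
    have h6 : (Fintype.card Y : ℝ) ^ (1 - γ) ≤ Fintype.card Y / 2 := by
      rw [show (1 - γ) = -γ + 1 by ring, Real.rpow_add hy0, Real.rpow_one]
      have := mul_le_mul_of_nonneg_right h5 hy0.le
      linarith
    have h7 : (Fintype.card Y : ℝ) ≤ 2 * Fintype.card P := by linarith
    have h8 : Fintype.card Y ≤ 2 * Fintype.card P := by exact_mod_cast h7
    omega
  have hkey : ∀ x : P → Fin (max M2 M3) → Y, (¬ ∃ π : Pairing P, Adm ι x π) →
      ((∃ W U : Finset P, W.Nonempty ∧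
        64 * W.card ≤ Fintype.card Y ∧ U.card < W.card ∧ Disjoint W U ∧
        ∀ p ∈ W, ∀ i, ∀ q, x p i = ι q → q ∈ W ∨ q ∈ U) ∨
      ∃ A B : Finset P, Fintype.card Y ≤ 128 * A.card ∧
        Fintype.card Y ≤ 128 * B.card ∧ ∀ p ∈ A, ∀ i, ∀ q ∈ B, x p i ≠ ι q) := by
    intro x hx
    have hno : ¬ ∃ π : Pairing P, ∀ p, (c04_graph ι x).Adj p (π.1 p) := by
      rintro ⟨π, hπ⟩
      exact hx ⟨π, fun p => (hπ p).2⟩
    rcases C01 (c04_graph ι x) (Fintype.card Y / 100) (by omega) hev hN hno with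
      ⟨W, U, hW, hWb, hUW, hdis, hWU⟩ | ⟨A, B, hA, hB, hdis, hAB⟩
    · left
      refine ⟨W, U, hW, by omega, hUW, hdis, fun p hp i q hq => ?_⟩
      by_cases hpq : p = q
      · left
        rw [← hpq]
        exact hp
      · exact hWU p hp q ⟨hpq, i, Or.inl hq⟩
    · right
      refine ⟨A, B, by omega, by omega, fun p hp i q hq hpq => ?_⟩
      refine hAB p hp q hq ⟨?_, i, Or.inl hpq⟩
      rintro rfl
      exact (Finset.disjoint_left.1 hdis hp) hq
  refine (pr_mono hkey).trans ((pr_or_le _ _).trans ?_)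
  have h5 := hy2 P Y ι hyy2 hδ
  have h6 := hy3 P Y ι hyy3
  linarith

end Pool.Agent.HC
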