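import Pool.Agent.Lib.MP_ec42c8_pr.F01

/-!
# C05 : an equivariant random choice is uniformly random

PROOF.  Let `F x` be an admissible element for `x` if there is one, and an arbitrary element of `T`
otherwise.  Put `τ x t = av over g of 1{t = g • F (g⁻¹ • x)}` (`g • x = aX g x`, `g • t = aT g t`).
(i) `τ ≥ 0`, `∑ t, τ x t = 1`: clear.
(ii) `av over x of τ x t = av over g, x of 1{t = g • F (g⁻¹ • x)} = av over g, x' of
1{t = g • F x'}` (substitute `x = g • x'`, a bijection); for fixed `x'` the number of `g` with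
`g • F x' = t` is the same for all `t` (transitivity: if `g₀ • t = t'` then `g ↦ g₀ g` is a bijection between
the two sets), so the average is `1 / card T`.
(iii) If there is an admissible `t` for `x` then there is one for `g⁻¹ • x`, so `F (g⁻¹ • x)` is
admissible for `g⁻¹ • x` and `g • F (g⁻¹ • x)` is admissible for `x`.
-/

set_option autoImplicit false

namespace Pool.Agent.HC

open Finset
open scoped Classical

theorem C05 {G X T : Type*} [Group G] [Fintype G] [Fintype X] [Nonempty X] [Fintype T]
    [Nonempty T] (aX : G →* Equiv.Perm X) (aT : G →* Equiv.Perm T)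
    (htr : ∀ t t' : T, ∃ g, aT g t = t')
    (Ad : X → T → Prop) (hAd : ∀ (g : G) x t, Ad x t → Ad (aX g x) (aT g t)) :
    ∃ τ : X → T → ℝ, (∀ x t, 0 ≤ τ x t) ∧ (∀ x, ∑ t, τ x t = 1) ∧
      (∀ t, av (fun x => τ x t) = 1 / (Fintype.card T : ℝ)) ∧
      (∀ x, (∃ t, Ad x t) → ∀ t, τ x t ≠ 0 → Ad x t) := by
  have hF : ∀ x, ∃ t, (∃ t', Ad x t') → Ad x t := by
    intro x
    by_cases h : ∃ t', Ad x t'
    · obtain ⟨t, ht⟩ := h
      exact ⟨t, fun _ => ht⟩
    · exact ⟨Classical.arbitrary T, fun h' => absurd h' h⟩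
  choose F hF using hF
  have hG : Nonempty G := ⟨1⟩
  have hsum : ∀ f : G → T, ∑ t, av (fun g => if t = f g then (1 : ℝ) else 0) = 1 := by
    intro f
    rw [← av_sum]
    rw [av_congr (g := fun _ => (1 : ℝ)) (fun g => by simp), av_const]
  refine ⟨fun x t => av (fun g : G => if t = aT g (F (aX g⁻¹ x)) then (1 : ℝ) else 0),
    fun x t => av_nonneg fun g => by split_ifs <;> norm_num, fun x => hsum _, fun t => ?_, ?_⟩
  · rw [av_comm]
    have h1 : ∀ g : G, av (fun x => if t = aT g (F (aX g⁻¹ x)) then (1 : ℝ) else 0) =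
        av (fun x => if t = aT g (F x) then (1 : ℝ) else 0) := by
      intro g
      rw [← av_equiv (aX g) (fun x => if t = aT g (F (aX g⁻¹ x)) then (1 : ℝ) else 0)]
      refine av_congr fun x => ?_
      have : aX g⁻¹ (aX g x) = x := by
        rw [← Equiv.Perm.mul_apply, ← map_mul, inv_mul_cancel, map_one, Equiv.Perm.one_apply]
      rw [this]
    rw [av_congr h1, av_comm]
    have h2 : ∀ s : T, av (fun g : G => if t = aT g s then (1 : ℝ) else 0) =
        1 / (Fintype.card T : ℝ) := by
      intro s
      have h3 : ∀ t' : T, av (fun g : G => if t' = aT g s then (1 : ℝ) else 0) =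
          av (fun g : G => if t = aT g s then (1 : ℝ) else 0) := by
        intro t'
        obtain ⟨g₀, hg₀⟩ := htr t t'
        rw [← av_equiv (Equiv.mulLeft g₀) (fun g : G => if t' = aT g s then (1 : ℝ) else 0)]
        refine av_congr fun g => ?_
        have : (t' = aT (Equiv.mulLeft g₀ g) s) ↔ (t = aT g s) := by
          rw [Equiv.coe_mulLeft, map_mul, Equiv.Perm.mul_apply, ← hg₀]
          exact (aT g₀).injective.eq_iff
        simp only [this]
      have h4 := hsum (fun g => aT g s)
      simp only [h3] at h4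
      rw [Finset.sum_const, Finset.card_univ, nsmul_eq_mul] at h4
      have h5 : (Fintype.card T : ℝ) ≠ 0 := by exact_mod_cast Fintype.card_ne_zero
      field_simp
      linarith
    rw [av_congr (g := fun _ => 1 / (Fintype.card T : ℝ)) (fun x => h2 (F x)), av_const]
  · intro x hx t ht
    by_contra hn
    apply ht
    have : ∀ g : G, (if t = aT g (F (aX g⁻¹ x)) then (1 : ℝ) else 0) = 0 := by
      intro g
      rw [if_neg]
      rintro rfl
      apply hn
      have h1 : Ad (aX g⁻¹ x) (F (aX g⁻¹ x)) := by
        apply hF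
        obtain ⟨t', ht'⟩ := hx
        exact ⟨_, hAd g⁻¹ x t' ht'⟩
      have h2 := hAd g _ _ h1
      have h3 : aX g (aX g⁻¹ x) = x := by
        rw [← Equiv.Perm.mul_apply, ← map_mul, mul_inv_cancel, map_one, Equiv.Perm.one_apply]
      rwa [h3] at h2
    simp only [this]
    simp [av]

end Pool.Agent.HC
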