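import Pool.Agent.Lib.MP_ec42c8_pr.P00

/-!
# P01 : uniformly random pairings

`red a b π` removes the points `a` and `b` and joins their partners (`P00`).
FIBRES.  Let `P' = {x // x ≠ a ∧ x ≠ b}`.  For `τ : Pairing P'` the pairings `π` with `red a b π = τ` are:
the one with `π a = b` that extends `τ`; and for every `c : P'` the one with `π a = c`, `π b = τ c`
that agrees with `τ` on the other points.  So
`Pairing P ≃ Option P' × Pairing P'`, `π ↦ (none if π a = b, else some (π a); red a b π)`, is a bijection.
Everything follows: `P01a`, `P01b` (card `Option P'` is `card P - 1`), `P01c` (the fibre of `none`).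
`P01d`: induction on `r` with `P01b`; `P01e`: a fixed point free involution exists only on sets of even
cardinality (or induction with `P01b`; `card P = 1` has none).
`P01f`: conjugation: two fixed point free involutions are conjugate (`Equiv.Perm.isConj_iff_cycleType_eq`,
or by induction, or by listing the pairs).
-/

set_option autoImplicit false

namespace Pool.Agent.HC

open Finset
open scoped Classical

section ins
variable {P : Type} (a b : P)

/-- The pairing with given partner of `a` and given reduction. -/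
noncomputable def p01_ins (o : Option {x : P // x ≠ a ∧ x ≠ b})
    (τ : Pairing {x : P // x ≠ a ∧ x ≠ b}) (x : P) : P :=
  if hx : x ≠ a ∧ x ≠ b then
    (if o = some ⟨x, hx⟩ then a else if o = some (τ.1 ⟨x, hx⟩) then b else (τ.1 ⟨x, hx⟩ : P))
  else if x = a then (match o with
    | none => b
    | some c => (c : P))
  else (match o with
    | none => a
    | some c => (τ.1 c : P))

lemma p01_ins_a (o : Option {x : P // x ≠ a ∧ x ≠ b}) (τ : Pairing {x : P // x ≠ a ∧ x ≠ b}) :
    p01_ins a b o τ a = (match o with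
    | none => b
    | some c => (c : P)) := by
  simp [p01_ins]

lemma p01_ins_b (hab : a ≠ b) (o : Option {x : P // x ≠ a ∧ x ≠ b})
    (τ : Pairing {x : P // x ≠ a ∧ x ≠ b}) :
    p01_ins a b o τ b = (match o with
    | none => a
    | some c => (τ.1 c : P)) := by
  simp [p01_ins, Ne.symm hab]

lemma p01_ins_x (o : Option {x : P // x ≠ a ∧ x ≠ b}) (τ : Pairing {x : P // x ≠ a ∧ x ≠ b})
    (x : {x : P // x ≠ a ∧ x ≠ b}) :
    p01_ins a b o τ x = if o = some x then a else if o = some (τ.1 x) then b else (τ.1 x : P) := by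
  have hx := x.2
  simp [p01_ins, hx.1, hx.2]

lemma p01_cases (x : P) : x = a ∨ x = b ∨ ∃ y : {x : P // x ≠ a ∧ x ≠ b}, x = y := by
  by_cases h1 : x = a
  · exact Or.inl h1
  · by_cases h2 : x = b
    · exact Or.inr (Or.inl h2)
    · exact Or.inr (Or.inr ⟨⟨x, h1, h2⟩, rfl⟩)

lemma p01_inv (hab : a ≠ b) (o : Option {x : P // x ≠ a ∧ x ≠ b})
    (τ : Pairing {x : P // x ≠ a ∧ x ≠ b}) (x : P) :
    p01_ins a b o τ (p01_ins a b o τ x) = x := by
  rcases p01_cases a b x with rfl | rfl | ⟨y, rfl⟩
  · rw [p01_ins_a]
    cases o with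
    | none => simp [p01_ins_b x b hab]
    | some c => simp [p01_ins_x]
  · rw [p01_ins_b a x hab]
    cases o with
    | none => simp [p01_ins_a]
    | some c =>
      simp only
      rw [p01_ins_x]
      have h1 : ¬ (some c = some (τ.1 c)) := by
        intro h
        exact τ.ne c (Option.some.inj h).symm
      rw [if_neg h1, if_pos (by rw [τ.inv])]
  · rw [p01_ins_x]
    split_ifs with h1 h2
    · subst h1
      rw [p01_ins_a]
    · subst h2
      rw [p01_ins_b a b hab]
      simp [τ.inv]
    · rw [p01_ins_x, if_neg h2, if_neg (by rw [τ.inv]; exact h1), τ.inv]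

lemma p01_fix (hab : a ≠ b) (o : Option {x : P // x ≠ a ∧ x ≠ b})
    (τ : Pairing {x : P // x ≠ a ∧ x ≠ b}) (x : P) : p01_ins a b o τ x ≠ x := by
  rcases p01_cases a b x with rfl | rfl | ⟨y, rfl⟩
  · rw [p01_ins_a]
    cases o with
    | none => exact hab.symm
    | some c => exact c.2.1
  · rw [p01_ins_b a x hab]
    cases o with
    | none => exact hab
    | some c => exact (τ.1 c).2.2
  · rw [p01_ins_x]
    split_ifs with h1 h2
    · exact y.2.1.symm
    · exact y.2.2.symm
    · exact fun h => τ.ne y (Subtype.ext h)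

/-- The pairing with given partner of `a` and given reduction. -/
noncomputable def p01_bk (hab : a ≠ b) (o : Option {x : P // x ≠ a ∧ x ≠ b})
    (τ : Pairing {x : P // x ≠ a ∧ x ≠ b}) : Pairing P :=
  ⟨Function.Involutive.toPerm (p01_ins a b o τ) (p01_inv a b hab o τ),
    fun x => ⟨p01_fix a b hab o τ x, p01_inv a b hab o τ x⟩⟩

lemma p01_bk_apply (hab : a ≠ b) (o : Option {x : P // x ≠ a ∧ x ≠ b})
    (τ : Pairing {x : P // x ≠ a ∧ x ≠ b}) (x : P) :
    (p01_bk a b hab o τ).1 x = p01_ins a b o τ x := rfl

/-- The partner of `a`, `none` if it is `b`. -/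
noncomputable def p01_o (π : Pairing P) : Option {x : P // x ≠ a ∧ x ≠ b} :=
  if h : π.1 a = b then none else some ⟨π.1 a, π.ne a, h⟩

lemma p01_ext {π π' : Pairing P} (h : ∀ x, π.1 x = π'.1 x) : π = π' :=
  Subtype.ext (Equiv.ext h)

lemma p01_left (hab : a ≠ b) (π : Pairing P) :
    p01_bk a b hab (p01_o a b π) (red a b hab π) = π := by
  apply p01_ext
  intro x
  rw [p01_bk_apply]
  rcases p01_cases a b x with rfl | rfl | ⟨y, rfl⟩
  · rw [p01_ins_a, p01_o]
    split_ifs with h
    · exact h.symm
    · rfl
  · rw [p01_ins_b a x hab, p01_o]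
    by_cases h : π.1 a = x
    · rw [dif_pos h]
      rw [Pairing.eq_iff] at h
      exact h
    · rw [dif_neg h]
      simp only
      rw [red_apply]
      simp only [π.inv, if_true]
  · rw [p01_ins_x, p01_o]
    have hy := y.2
    by_cases h : π.1 a = b
    · rw [dif_pos h]
      simp only [reduceCtorEq, if_false]
      rw [red_apply]
      have h1 : π.1 y ≠ a := by
        intro h'
        rw [Pairing.eq_iff, h] at h'
        exact hy.2 h'
      have h2 : π.1 y ≠ b := by
        intro h'
        rw [Pairing.eq_iff] at h' h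
        exact hy.1 (h'.trans h.symm)
      rw [if_neg h1, if_neg h2]
    · rw [dif_neg h]
      by_cases h1 : π.1 y = a
      · have h1' := h1
        rw [Pairing.eq_iff] at h1'
        rw [if_pos, h1]
        congr 1
        exact Subtype.ext h1'.symm
      · have h3 : ¬ (some (⟨π.1 a, π.ne a, h⟩ : {x : P // x ≠ a ∧ x ≠ b}) = some y) := by
          intro h'
          have h4 := congrArg Subtype.val (Option.some.inj h')
          simp only at h4
          rw [Pairing.eq_iff] at h4
          exact h1 h4.symm
        rw [if_neg h3]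
        by_cases h2 : π.1 y = b
        · rw [if_pos, h2]
          congr 1
          apply Subtype.ext
          rw [red_apply, if_neg h1, if_pos h2]
        · rw [if_neg, red_apply, if_neg h1, if_neg h2]
          intro h'
          have h4 := congrArg Subtype.val (Option.some.inj h')
          rw [red_apply, if_neg h1, if_neg h2] at h4
          simp only at h4
          exact hy.1 (π.1.injective h4).symm

lemma p01_right_o (hab : a ≠ b) (o : Option {x : P // x ≠ a ∧ x ≠ b})
    (τ : Pairing {x : P // x ≠ a ∧ x ≠ b}) : p01_o a b (p01_bk a b hab o τ) = o := by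
  rw [p01_o]
  simp only [p01_bk_apply, p01_ins_a]
  cases o with
  | none => simp
  | some c =>
    simp only
    rw [dif_neg c.2.2]

lemma p01_right_τ (hab : a ≠ b) (o : Option {x : P // x ≠ a ∧ x ≠ b})
    (τ : Pairing {x : P // x ≠ a ∧ x ≠ b}) : red a b hab (p01_bk a b hab o τ) = τ := by
  apply p01_ext
  intro x
  apply Subtype.ext
  rw [red_apply]
  simp only [p01_bk_apply]
  rw [p01_ins_x, p01_ins_a, p01_ins_b a b hab]
  have hx := x.2
  have hτ := (τ.1 x).2
  cases o with
  | none => simp [hτ.1, hτ.2]
  | some c =>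
    simp only
    by_cases h1 : some c = some x
    · have := Option.some.inj h1
      subst this
      simp
    · rw [if_neg h1]
      by_cases h2 : some c = some (τ.1 x)
      · rw [if_pos h2, if_neg hab.symm, if_pos rfl]
        exact congrArg Subtype.val (Option.some.inj h2)
      · rw [if_neg h2, if_neg hτ.1, if_neg hτ.2]

/-- Pairings as pairs: partner of `a`, reduction. -/
noncomputable def p01_e (hab : a ≠ b) :
    Pairing P ≃ Option {x : P // x ≠ a ∧ x ≠ b} × Pairing {x : P // x ≠ a ∧ x ≠ b} where
  toFun π := (p01_o a b π, red a b hab π)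
  invFun y := p01_bk a b hab y.1 y.2
  left_inv π := p01_left a b hab π
  right_inv y := Prod.ext (p01_right_o a b hab y.1 y.2) (p01_right_τ a b hab y.1 y.2)

lemma p01_o_none (π : Pairing P) : p01_o a b π = none ↔ π.1 a = b := by
  rw [p01_o]
  split_ifs with h <;> simp [h]

end ins

lemma p01_card {P : Type} [Fintype P] (a b : P) (hab : a ≠ b) :
    Fintype.card (Option {x : P // x ≠ a ∧ x ≠ b}) = Fintype.card P - 1 ∧
      Fintype.card {x : P // x ≠ a ∧ x ≠ b} = Fintype.card P - 2 ∧ 2 ≤ Fintype.card P := by
  have h2 : 2 ≤ Fintype.card P := by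
    have : ({a, b} : Finset P).card ≤ Fintype.card P := Finset.card_le_univ _
    rwa [Finset.card_pair hab] at this
  have h1 : Fintype.card {x : P // x ≠ a ∧ x ≠ b} = Fintype.card P - 2 := by
    rw [Fintype.card_subtype]
    have : (Finset.univ.filter fun x : P => x ≠ a ∧ x ≠ b) = ({a, b} : Finset P)ᶜ := by
      ext x
      simp
    rw [this, Finset.card_compl, Finset.card_pair hab]
  refine ⟨?_, h1, h2⟩
  rw [Fintype.card_option, h1]
  omega

/-- The reduction of a uniformly random pairing is uniformly random. -/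
theorem P01a {P : Type} [Fintype P] (a b : P) (hab : a ≠ b)
    (Ψ : Pairing {x : P // x ≠ a ∧ x ≠ b} → ℝ) :
    av (fun π : Pairing P => Ψ (red a b hab π)) = av Ψ := by
  have h := av_equiv (p01_e a b hab) (fun y : Option {x : P // x ≠ a ∧ x ≠ b} ×
    Pairing {x : P // x ≠ a ∧ x ≠ b} => Ψ y.2)
  exact h.trans (av_snd _)

theorem P01b {P : Type} [Fintype P] (a b : P) (hab : a ≠ b) :
    Fintype.card (Pairing P) =
      (Fintype.card P - 1) * Fintype.card (Pairing {x : P // x ≠ a ∧ x ≠ b}) := by
  rw [Fintype.card_congr (p01_e a b hab), Fintype.card_prod, (p01_card a b hab).1]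

/-- Conditionally on `π a = b` the rest is uniformly random. -/
theorem P01c {P : Type} [Fintype P] (a b : P) (hab : a ≠ b)
    (Ψ : Pairing {x : P // x ≠ a ∧ x ≠ b} → ℝ) :
    av (fun π : Pairing P => if π.1 a = b then Ψ (red a b hab π) else 0) =
      av Ψ / ((Fintype.card P : ℝ) - 1) := by
  have h := av_equiv (p01_e a b hab) (fun y : Option {x : P // x ≠ a ∧ x ≠ b} ×
    Pairing {x : P // x ≠ a ∧ x ≠ b} => if y.1 = none then Ψ y.2 else 0)
  have h0 : ∀ π : Pairing P, (if π.1 a = b then Ψ (red a b hab π) else 0) =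
      (if (p01_e a b hab π).1 = none then Ψ (p01_e a b hab π).2 else 0) := by
    intro π
    have : ((p01_e a b hab π).1 = none) ↔ (π.1 a = b) := p01_o_none a b π
    simp only [this]
    rfl
  rw [av_congr h0, h, av_prod]
  have h1 : ∀ o : Option {x : P // x ≠ a ∧ x ≠ b},
      av (fun τ : Pairing {x : P // x ≠ a ∧ x ≠ b} => if (o, τ).1 = none then Ψ (o, τ).2 else 0) =
        (if o = none then av Ψ else 0) := by
    intro o
    by_cases ho : o = none
    · simp [ho]
    · simp [ho, av]
  rw [av_congr h1, av, (p01_card a b hab).1]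
  have h2 := (p01_card a b hab).2.2
  simp only [Finset.sum_ite_eq', Finset.mem_univ, if_true]
  rw [Nat.cast_sub (by omega)]
  simp

lemma p01_inst (α : Type) (i j : Fintype α) : @Fintype.card α i = @Fintype.card α j := by
  rw [Subsingleton.elim i j]

theorem P01d {P : Type} [Fintype P] (r : ℕ) (hP : Fintype.card P = 2 * r) :
    Fintype.card (Pairing P) = (2 * r - 1).doubleFactorial := by
  induction r generalizing P with
  | zero =>
    have hE : IsEmpty P := Fintype.card_eq_zero_iff.1 (by simpa using hP)
    rw [Nat.mul_zero, Nat.zero_sub, Nat.doubleFactorial, Fintype.card_eq_one_iff]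
    exact ⟨⟨1, fun p => (hE.false p).elim⟩, fun π => p01_ext fun p => (hE.false p).elim⟩
  | succ r ih =>
    obtain ⟨a, b, hab⟩ := Fintype.exists_pair_of_one_lt_card (α := P) (by omega)
    have h3 := ih (P := {x : P // x ≠ a ∧ x ≠ b}) (by rw [(p01_card a b hab).2.1]; omega)
    have h4 : Fintype.card (Pairing P) = (2 * (r + 1) - 1) * (2 * r - 1).doubleFactorial := by
      refine (P01b a b hab).trans ?_
      rw [hP]
      exact congrArg _ ((p01_inst _ _ _).trans h3)
    rw [h4]
    have e1 : 2 * (r + 1) - 1 = 2 * r + 1 := by omega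
    rw [e1]
    cases r with
    | zero => rfl
    | succ r =>
      have e2 : 2 * (r + 1) + 1 = (2 * r + 1) + 2 := by omega
      have e3 : 2 * (r + 1) - 1 = 2 * r + 1 := by omega
      rw [e3, e2, Nat.doubleFactorial_add_two]

lemma p01_even (m : ℕ) : ∀ {P : Type} [Fintype P], Fintype.card P = m → Pairing P → Even m := by
  induction m using Nat.strong_induction_on with
  | _ m ih =>
    intro P _ hP π
    rcases Nat.eq_zero_or_pos m with rfl | hm
    · exact Even.zero
    · have : Nonempty P := Fintype.card_pos_iff.1 (by omega)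
      obtain ⟨a⟩ := this
      have hab : a ≠ π.1 a := (π.ne a).symm
      have h1 := p01_card a (π.1 a) hab
      have h2 := ih (m - 2) (by omega) (by rw [h1.2.1, hP]) (red a (π.1 a) hab π)
      have h3 : 2 ≤ m := by rw [← hP]; exact h1.2.2
      obtain ⟨k, hk⟩ := h2
      exact ⟨k + 1, by omega⟩

theorem P01e {P : Type} [Fintype P] (hP : ¬ Even (Fintype.card P)) : IsEmpty (Pairing P) :=
  ⟨fun π => hP (p01_even _ rfl π)⟩

lemma p01_cycle {P : Type} [Fintype P] (π : Pairing P) :
    π.1.cycleType = Multiset.replicate (Fintype.card P / 2) 2 := by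
  have h1 : ∀ m ∈ π.1.cycleType, m = 2 := by
    intro m hm
    have h2 := Equiv.Perm.dvd_of_mem_cycleType hm
    have h3 : orderOf π.1 ∣ 2 := by
      apply orderOf_dvd_of_pow_eq_one
      ext p
      simp [pow_two, π.inv]
    have h4 := Equiv.Perm.two_le_of_mem_cycleType hm
    have h5 := Nat.le_of_dvd (by norm_num) (h2.trans h3)
    omega
  have h2 : π.1.cycleType = Multiset.replicate (Multiset.card π.1.cycleType) 2 :=
    Multiset.eq_replicate_card.2 h1
  have h3 := Equiv.Perm.sum_cycleType π.1
  have h4 : π.1.support = Finset.univ := by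
    ext p
    simp [π.ne p]
  rw [h4, Finset.card_univ, h2, Multiset.sum_replicate, smul_eq_mul] at h3
  rw [h2]
  congr 1
  omega

/-- Pairings are conjugate. -/
theorem P01f {P : Type} [Fintype P] (π π' : Pairing P) :
    ∃ g : Equiv.Perm P, ∀ p, π'.1 p = g (π.1 (g.symm p)) := by
  have h : IsConj π.1 π'.1 := by
    rw [Equiv.Perm.isConj_iff_cycleType_eq, p01_cycle, p01_cycle]
  rw [isConj_iff] at h
  obtain ⟨g, hg⟩ := h
  refine ⟨g, fun p => ?_⟩
  rw [← hg]
  rfl

end Pool.Agent.HC
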