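import Pool.Agent.Lib.MP_ec42c8_pr.C04
import Pool.Agent.Lib.MP_ec42c8_pr.C05
import Pool.Agent.Lib.MP_ec42c8_pr.P01

/-!
# C06 : a uniformly random perfect matching inside the picks

PROOF.  Apply `C05` with `G = Equiv.Perm P`, `X = P → Fin M → Y`, `T = Pairing P`,
` (g • x) p i = ĝ (x (g⁻¹ p) i)`, where `ĝ` is the permutation of `Y` that acts as `g` on the image of
`ι` and fixes the other elements (`Equiv.Perm.viaEmbeddingHom`), and `g • π = g π g⁻¹`; transitivity is
`P01f`.  Pairings exist by `P01d`.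
-/

set_option autoImplicit false

namespace Pool.Agent.HC

open Finset
open scoped Classical

/-- The action on tables. -/
noncomputable def c06_aX {P Y : Type} (ι : P ↪ Y) (M : ℕ) :
    Equiv.Perm P →* Equiv.Perm (P → Fin M → Y) where
  toFun g :=
    { toFun := fun x p i => Equiv.Perm.viaEmbeddingHom ι g (x (g⁻¹ p) i)
      invFun := fun x p i => Equiv.Perm.viaEmbeddingHom ι g⁻¹ (x (g p) i)
      left_inv := fun x => by
        funext p i
        simp
      right_inv := fun x => by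
        funext p i
        simp }
  map_one' := by
    ext x p i
    simp
  map_mul' g h := by
    ext x p i
    simp

lemma c06_aX_apply {P Y : Type} (ι : P ↪ Y) (M : ℕ) (g : Equiv.Perm P) (x : P → Fin M → Y)
    (p : P) (i : Fin M) :
    c06_aX ι M g x p i = Equiv.Perm.viaEmbeddingHom ι g (x (g⁻¹ p) i) := rfl

/-- The action on pairings. -/
noncomputable def c06_aT (P : Type) : Equiv.Perm P →* Equiv.Perm (Pairing P) where
  toFun g := trP g
  map_one' := by
    ext π p
    rfl
  map_mul' g h := by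
    ext π p
    rfl

lemma c06_aT_apply {P : Type} (g : Equiv.Perm P) (π : Pairing P) (p : P) :
    (c06_aT P g π).1 p = g (π.1 (g⁻¹ p)) := rfl

theorem C06 {P Y : Type} [Fintype P] [Fintype Y] [Nonempty Y] (ι : P ↪ Y) (M : ℕ)
    (hP : Even (Fintype.card P)) :
    ∃ τ : (P → Fin M → Y) → Pairing P → ℝ, (∀ x π, 0 ≤ τ x π) ∧ (∀ x, ∑ π, τ x π = 1) ∧
      (∀ π, av (fun x => τ x π) = 1 / (Fintype.card (Pairing P) : ℝ)) ∧
      (∀ x, (∃ π, Adm ι x π) → ∀ π, τ x π ≠ 0 → Adm ι x π) := by
  have hne : Nonempty (Pairing P) := by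
    obtain ⟨r, hr⟩ := hP
    rw [← Fintype.card_pos_iff, P01d (P := P) r (by omega)]
    exact Nat.doubleFactorial_pos _
  refine C05 (G := Equiv.Perm P) (c06_aX ι M) (c06_aT P) ?_ (fun x π => Adm ι x π) ?_
  · intro π π'
    obtain ⟨g, hg⟩ := P01f π π'
    refine ⟨g, ?_⟩
    apply Subtype.ext
    ext p
    rw [hg p]
    rfl
  · intro g x π h p
    obtain ⟨i, hi⟩ := h (g⁻¹ p)
    have hv : ∀ q : P, Equiv.Perm.viaEmbeddingHom ι g (ι q) = ι (g q) := by
      intro q
      rw [Equiv.Perm.viaEmbeddingHom_apply]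
      exact Equiv.Perm.viaEmbedding_apply g ι q
    refine ⟨i, ?_⟩
    rw [c06_aX_apply, c06_aX_apply, c06_aT_apply]
    rcases hi with hi | hi
    · left
      rw [hi, hv]
    · right
      have e1 : g⁻¹ (g (π.1 (g⁻¹ p))) = π.1 (g⁻¹ p) := g.symm_apply_apply _
      have e2 : g (g⁻¹ p) = p := g.apply_symm_apply _
      rw [e1, hi, hv, e2]

end Pool.Agent.HC
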