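import Pool.Agent.Lib.MP_ec42c8_pr.C06
import Pool.Agent.Lib.MP_ec42c8_pr.P03

/-!
# C07 : repeated attempts

PROOF.  Let `τ` be the kernel of `C06` for `P = Pt d F` (its cardinality is even by `P03e`).
Induction on `s`.  `s = 0`: `κ` is the uniform distribution on `Reg n d F` (nonempty since `PS d F > 0`:
`P03b`), the bound is `1`.
Step: for `x : Fin (s+1) → ..` put `κ' x H = ∑ π, τ (x 0) π * (if Simp F π then (if H = grP F π then 1
else 0) else κ (fun j => x j.succ) H)`.  Marginal: the average over `x 0` of `τ (x 0) π` is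
`1 / card`, so the average of `κ' x H` is
`av over π of (if Simp F π then 1{H = grP F π} else u H)`, with `u` the uniform distribution on
`Reg n d F`; by `P03d` this is `PS · u H + (1 - PS) · u H = u H`.
Failure: the event is `∃ j π, Adm ι (x j) π ∧ Simp F π ∧ H = grP F π`.  If `Simp F π` (first pairing) and `π` is
admissible for `x 0` then `H = grP F π` is fine; the mass of non-admissible `π` is at most
`1{no admissible pairing for x 0}`, average `≤ δ`; if `Simp F π` fails, we use the induction
hypothesis for the remaining coordinates, which are independent of `x 0`: total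
`δ + (1 - PS) ((1 - PS) ^ s + s δ) ≤ (1 - PS) ^ (s+1) + (s+1) δ`.
-/

set_option autoImplicit false

namespace Pool.Agent.HC

open Finset
open scoped Classical

section abs
variable {X T G : Type} [Fintype X] [Nonempty X] [Fintype T] [Nonempty T] [Fintype G]

lemma c07_cons {X : Type} [Fintype X] (s : ℕ) (f : (Fin (s + 1) → X) → ℝ) :
    av f = av (fun a : X => av (fun b : Fin s → X => f (Fin.cons a b))) := by
  rw [← av_equiv (Fin.consEquiv (fun _ : Fin (s + 1) => X)) f]
  exact av_prod _

lemma c07_fail (s : ℕ) (τ : X → T → ℝ) (Ad : X → T → Prop) (S : T → Prop) (gr : T → G)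
    (h0 : ∀ x π, 0 ≤ τ x π) (h1 : ∀ x, ∑ π, τ x π = 1)
    (h3 : ∀ x, (∃ π, Ad x π) → ∀ π, τ x π ≠ 0 → Ad x π)
    (κ : (Fin s → X) → G → ℝ) (k0 : ∀ x H, 0 ≤ κ x H) (a : X) (b : Fin s → X) :
    (∑ H, if (∃ j, ∃ π : T, Ad ((Fin.cons a b : Fin (s + 1) → X) j) π ∧ S π ∧ H = gr π)
        then 0 else ∑ π, τ a π * (if S π then (if H = gr π then (1 : ℝ) else 0)
          else κ b H)) ≤
      (if ¬ ∃ π : T, Ad a π then (1 : ℝ) else 0) +
        ∑ π, τ a π * ((1 - if S π then (1 : ℝ) else 0) *
          ∑ H, if (∃ j, ∃ π : T, Ad (b j) π ∧ S π ∧ H = gr π) then 0 else κ b H) := by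
  have key : ∀ π : T, (∑ H, if (∃ j, ∃ π : T,
        Ad ((Fin.cons a b : Fin (s + 1) → X) j) π ∧ S π ∧ H = gr π)
        then 0 else (if S π then (if H = gr π then (1 : ℝ) else 0)
          else κ b H)) ≤ (if ¬ Ad a π then (1 : ℝ) else 0) +
          (1 - if S π then (1 : ℝ) else 0) *
          ∑ H, if (∃ j, ∃ π : T, Ad (b j) π ∧ S π ∧ H = gr π)
            then 0 else κ b H := by
    intro π
    by_cases hS : S π
    · simp only [hS, if_true, sub_self, zero_mul, add_zero]
      by_cases hA : Ad a π
      · rw [if_neg (not_not.2 hA)]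
        refine Finset.sum_nonpos fun H _ => ?_
        split_ifs with hE hH
        · exact le_rfl
        · exact absurd ⟨0, π, by simpa using hA, hS, hH⟩ hE
        · exact le_rfl
      · rw [if_pos hA]
        calc _ ≤ ∑ H, (if H = gr π then (1 : ℝ) else 0) := by
              refine Finset.sum_le_sum fun H _ => ?_
              split_ifs <;> norm_num
          _ = 1 := by simp
    · simp only [hS, if_false, sub_zero, one_mul]
      have : 0 ≤ (if ¬ Ad a π then (1 : ℝ) else 0) := by split_ifs <;> norm_num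
      refine le_add_of_nonneg_of_le this (Finset.sum_le_sum fun H _ => ?_)
      by_cases hE : ∃ j, ∃ π : T, Ad (b j) π ∧ S π ∧ H = gr π
      · obtain ⟨j, π', hA, hS', hH⟩ := hE
        rw [if_pos ⟨j.succ, π', by simpa using hA, hS', hH⟩, if_pos ⟨j, π', hA, hS', hH⟩]
      · rw [if_neg hE]
        split_ifs
        · exact k0 _ _
        · exact le_rfl
  calc _ = ∑ π, τ a π * (∑ H, if (∃ j, ∃ π : T,
        Ad ((Fin.cons a b : Fin (s + 1) → X) j) π ∧ S π ∧ H = gr π)
        then 0 else (if S π then (if H = gr π then (1 : ℝ) else 0)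
          else κ b H)) := by
        simp only [Finset.mul_sum]
        rw [Finset.sum_comm]
        refine Finset.sum_congr rfl fun H _ => ?_
        split_ifs with hE
        · simp
        · rfl
    _ ≤ ∑ π, τ a π * ((if ¬ Ad a π then (1 : ℝ) else 0) +
          (1 - if S π then (1 : ℝ) else 0) *
          ∑ H, if (∃ j, ∃ π : T, Ad (b j) π ∧ S π ∧ H = gr π)
            then 0 else κ b H) :=
        Finset.sum_le_sum fun π _ => mul_le_mul_of_nonneg_left (key π) (h0 a π)
    _ = ∑ π, τ a π * (if ¬ Ad a π then (1 : ℝ) else 0) +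
        ∑ π, τ a π * ((1 - if S π then (1 : ℝ) else 0) *
          ∑ H, if (∃ j, ∃ π : T, Ad (b j) π ∧ S π ∧ H = gr π) then 0 else κ b H) := by
        simp only [mul_add]
        rw [Finset.sum_add_distrib]
    _ ≤ _ := by
        refine add_le_add ?_ le_rfl
        by_cases hA : ∃ π : T, Ad a π
        · rw [if_neg (not_not.2 hA)]
          refine Finset.sum_nonpos fun π _ => ?_
          by_cases ht : τ a π = 0
          · simp [ht]
          · simp [h3 a hA π ht]
        · rw [if_pos hA]
          refine le_trans (Finset.sum_le_sum fun π _ => ?_) (h1 a).le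
          have := h0 a π
          split_ifs <;> simp [this]

theorem c07_abs (τ : X → T → ℝ) (Ad : X → T → Prop) (S : T → Prop) (gr : T → G)
    (h0 : ∀ x π, 0 ≤ τ x π) (h1 : ∀ x, ∑ π, τ x π = 1)
    (h2 : ∀ π, av (fun x => τ x π) = 1 / (Fintype.card T : ℝ))
    (h3 : ∀ x, (∃ π, Ad x π) → ∀ π, τ x π ≠ 0 → Ad x π)
    (u : G → ℝ) (u0 : ∀ H, 0 ≤ u H) (u1 : ∑ H, u H = 1)
    (um : ∀ H, av (fun π : T => if S π then (if H = gr π then (1 : ℝ) else 0) else u H) = u H)
    (δ : ℝ) (hδ : pr (fun x : X => ¬ ∃ π : T, Ad x π) ≤ δ) (s : ℕ) :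
    ∃ κ : (Fin s → X) → G → ℝ, (∀ x H, 0 ≤ κ x H) ∧
      (∀ x, ∑ H, κ x H = 1) ∧
      (∀ H, av (fun x => κ x H) = u H) ∧
      av (fun x => ∑ H, if (∃ j, ∃ π : T, Ad (x j) π ∧ S π ∧ H = gr π)
        then 0 else κ x H) ≤ (1 - pr S) ^ s + s * δ := by
  have hPS1 : pr S ≤ 1 := pr_le_one _
  have hPS0 : 0 ≤ pr S := pr_nonneg _
  have hδ0 : 0 ≤ δ := (pr_nonneg _).trans hδ
  have hcP : (Fintype.card T : ℝ) ≠ 0 := by
    exact_mod_cast Fintype.card_ne_zero
  induction s with
  | zero =>
    refine ⟨fun _ H => u H, fun _ H => u0 H, fun _ => u1, fun H => av_const _, ?_⟩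
    simp only [pow_zero, Nat.cast_zero, zero_mul, add_zero]
    refine av_le_of_nonneg zero_le_one fun x => ?_
    rw [← u1]
    refine Finset.sum_le_sum fun H _ => ?_
    split_ifs
    · exact u0 H
    · exact le_rfl
  | succ s ih =>
    obtain ⟨κ, k0, k1, k2, k3⟩ := ih
    refine ⟨fun x H => ∑ π, τ (x 0) π * (if S π then (if H = gr π then (1 : ℝ) else 0)
      else κ (fun j => x j.succ) H), ?_, ?_, ?_, ?_⟩
    · intro x H
      refine Finset.sum_nonneg fun π _ => mul_nonneg (h0 _ _) ?_
      split_ifs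
      · exact zero_le_one
      · exact le_rfl
      · exact k0 _ _
    · intro x
      rw [Finset.sum_comm]
      refine (Finset.sum_congr rfl fun π _ => ?_).trans (h1 (x 0))
      rw [← Finset.mul_sum]
      by_cases hS : S π
      · simp [hS]
      · simp [hS, k1]
    · intro H
      rw [c07_cons]
      simp only [Fin.cons_zero, Fin.cons_succ]
      have e1 : ∀ a : X, av (fun b : Fin s → X =>
          ∑ π, τ a π * (if S π then (if H = gr π then (1 : ℝ) else 0) else κ b H)) =
          ∑ π, τ a π * (if S π then (if H = gr π then (1 : ℝ) else 0)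
            else u H) := by
        intro a
        rw [av_sum]
        refine Finset.sum_congr rfl fun π _ => ?_
        rw [av_mul_left]
        congr 1
        by_cases hS : S π
        · simp only [hS, if_true]
          exact av_const _
        · simp only [hS, if_false]
          exact k2 H
      rw [av_congr e1, av_sum]
      simp only [av_mul_right]
      refine Eq.trans ?_ (um H)
      rw [av, Finset.sum_div]
      refine Finset.sum_congr rfl fun π _ => ?_
      rw [h2 π, one_div, mul_comm, div_eq_mul_inv]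
    · rw [c07_cons]
      simp only [Fin.cons_zero, Fin.cons_succ]
      set R : (Fin s → X) → ℝ := fun b => ∑ H,
        if (∃ j, ∃ π : T, Ad (b j) π ∧ S π ∧ H = gr π)
            then 0 else κ b H with hR
      have hR0 : 0 ≤ av R := av_nonneg fun b => Finset.sum_nonneg fun H _ => by
        split_ifs
        · exact le_rfl
        · exact k0 _ _
      have step : ∀ a : X, av (fun b : Fin s → X =>
          ∑ H, if (∃ j, ∃ π : T,
          Ad ((Fin.cons a b : Fin (s + 1) → X) j) π ∧ S π ∧ H = gr π)
          then 0 else ∑ π, τ a π * (if S π then (if H = gr π then (1 : ℝ) else 0)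
            else κ b H)) ≤
          (if ¬ ∃ π : T, Ad a π then (1 : ℝ) else 0) +
          ∑ π, τ a π * ((1 - if S π then (1 : ℝ) else 0) * av R) := by
        intro a
        refine (av_mono fun b => c07_fail s τ Ad S gr h0 h1 h3 κ k0 a b).trans (le_of_eq ?_)
        rw [av_add, av_const, av_sum]
        simp only [av_mul_left]
        rfl
      refine (av_mono step).trans ?_
      rw [av_add, av_sum]
      simp only [av_mul_right, h2]
      have e2 : ∑ π : T, 1 / (Fintype.card T : ℝ) *
          ((1 - if S π then (1 : ℝ) else 0) * av R) = (1 - pr S) * av R := by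
        rw [← Finset.mul_sum, ← Finset.sum_mul, ← mul_assoc]
        congr 1
        rw [pr, av, Finset.sum_sub_distrib]
        simp only [Finset.sum_const, Finset.card_univ, nsmul_eq_mul, mul_one]
        field_simp
      rw [e2]
      have e3 : (1 - pr S) * av R ≤ (1 - pr S) ^ (s + 1) + s * δ := by
        have h4 : (1 - pr S) * av R ≤ (1 - pr S) * ((1 - pr S) ^ s + s * δ) :=
          mul_le_mul_of_nonneg_left k3 (by linarith)
        have h5 : (1 - pr S) * (s * δ) ≤ s * δ := by
          have : 0 ≤ (s : ℝ) * δ := by positivity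
          nlinarith
        calc _ ≤ _ := h4
          _ = (1 - pr S) ^ (s + 1) + (1 - pr S) * (s * δ) := by ring
          _ ≤ _ := by linarith
      have e4 : av (fun a : X =>
          if ¬ ∃ π : T, Ad a π then (1 : ℝ) else 0) ≤ δ := by
        refine le_trans (le_of_eq ?_) hδ
        refine av_congr fun a => ?_
        by_cases h : ∃ π, Ad a π <;> simp [h]
      push_cast
      linarith

end abs

lemma c07_regNonempty {n d : ℕ} (F : Gr n) (hF : ∀ v, deg F v ≤ d) (hPS : 0 < PS d F) :
    (Reg n d F).Nonempty := by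
  by_contra hne
  have : ∀ π : Pairing (Pt d F), ¬ Simp F π := fun π h => hne ⟨_, P03b F hF π h⟩
  have h0 : PS d F = 0 := by
    unfold PS pr
    rw [av_congr (g := fun _ => (0 : ℝ)) (fun π => by simp [this π])]
    simp [av]
  exact absurd h0 hPS.ne'

/-- The uniform distribution on the regular graphs containing `F`. -/
noncomputable def c07_u {n d : ℕ} (F : Gr n) (H : Gr n) : ℝ :=
  if H ∈ Reg n d F then 1 / ((Reg n d F).card : ℝ) else 0

lemma c07_u_nonneg {n d : ℕ} (F : Gr n) (H : Gr n) : 0 ≤ c07_u (d := d) F H := by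
  unfold c07_u
  split_ifs <;> positivity

lemma c07_u_sum {n d : ℕ} (F : Gr n) (hne : (Reg n d F).Nonempty) :
    ∑ H, c07_u (d := d) F H = 1 := by
  unfold c07_u
  rw [Finset.sum_ite_mem, Finset.univ_inter, Finset.sum_const, nsmul_eq_mul]
  have : ((Reg n d F).card : ℝ) ≠ 0 := by exact_mod_cast hne.card_pos.ne'
  field_simp

lemma c07_avOn {n d : ℕ} (F : Gr n) (H : Gr n) :
    avOn (Reg n d F) (fun G => if H = G then (1 : ℝ) else 0) = c07_u (d := d) F H := by
  unfold c07_u avOn
  rw [Finset.sum_ite_eq]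
  split_ifs <;> simp

lemma c07_marg {n d : ℕ} (F : Gr n) (hF : ∀ v, deg F v ≤ d) (hPS : 0 < PS d F) (H : Gr n) :
    av (fun π : Pairing (Pt d F) => if Simp F π then (if H = grP F π then (1 : ℝ) else 0)
      else c07_u (d := d) F H) = c07_u (d := d) F H := by
  have hne : Nonempty (Pairing (Pt d F)) := by
    by_contra h
    rw [not_nonempty_iff] at h
    have : PS d F = 0 := by simp [PS, pr, av]
    exact absurd this hPS.ne'
  have h1 : ∀ π : Pairing (Pt d F), (if Simp F π then (if H = grP F π then (1 : ℝ) else 0)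
      else c07_u (d := d) F H) =
      (if Simp F π then (if H = grP F π then (1 : ℝ) else 0) else 0) +
        (c07_u (d := d) F H - (if Simp F π then (1 : ℝ) else 0) * c07_u (d := d) F H) := by
    intro π
    by_cases h : Simp F π <;> simp [h]
  have h2 := P03d F hF (fun G => if H = G then (1 : ℝ) else 0)
  rw [c07_avOn] at h2
  rw [av_congr h1, av_add, av_sub, av_mul_right, av_const, h2]
  show PS d F * _ + (_ - PS d F * _) = _
  ring

lemma c07_instS {Ω : Type*} (i j : Fintype Ω) (f : Ω → ℝ) :
    @Finset.sum Ω ℝ _ (@Finset.univ Ω i) f = @Finset.sum Ω ℝ _ (@Finset.univ Ω j) f := by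
  rw [Subsingleton.elim i j]

lemma c07_instA {Ω : Type*} (i j : Fintype Ω) (f : Ω → ℝ) : @av Ω i f = @av Ω j f := by
  rw [Subsingleton.elim i j]

lemma c07_instC {Ω : Type*} (i j : Fintype Ω) : @Fintype.card Ω i = @Fintype.card Ω j := by
  rw [Subsingleton.elim i j]

theorem C07 {n d : ℕ} (F : Gr n) (hF : ∀ v, deg F v ≤ d) (hdn : Even (d * n)) {Y : Type}
    [Fintype Y] [Nonempty Y] (ι : Pt d F ↪ Y) (M s : ℕ) (hPS : 0 < PS d F) (δ : ℝ)
    (hδ : pr (fun x : Pt d F → Fin M → Y => ¬ ∃ π : Pairing (Pt d F), Adm ι x π) ≤ δ) :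
    ∃ κ : (Fin s → Pt d F → Fin M → Y) → Gr n → ℝ, (∀ x H, 0 ≤ κ x H) ∧
      (∀ x, ∑ H, κ x H = 1) ∧
      (∀ H, av (fun x => κ x H) =
        if H ∈ Reg n d F then 1 / ((Reg n d F).card : ℝ) else 0) ∧
      av (fun x => ∑ H, if (∃ j, ∃ π : Pairing (Pt d F), Adm ι (x j) π ∧ Simp F π ∧ H = grP F π)
        then 0 else κ x H) ≤ (1 - PS d F) ^ s + s * δ := by
  have hne := c07_regNonempty F hF hPS
  have hev : Even (Fintype.card (Pt d F)) := by
    have h := P03e F hF
    rw [← h] at hdn
    rw [Nat.even_add] at hdn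
    exact hdn.2 (even_two_mul _)
  obtain ⟨τ, h0, h1, h2, h3⟩ := C06 ι M hev
  have hnP : Nonempty (Pairing (Pt d F)) := by
    by_contra h
    rw [not_nonempty_iff] at h
    have : PS d F = 0 := by simp [PS, pr, av]
    exact absurd this hPS.ne'
  have um : ∀ H : Gr n, av (fun π : Pairing (Pt d F) => if Simp F π then
      (@ite _ (H = grP F π) (Classical.propDecidable _) (1 : ℝ) 0) else c07_u (d := d) F H) =
      c07_u (d := d) F H := by
    intro H
    refine (av_congr fun π => ?_).trans (c07_marg F hF hPS H)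
    congr
  have hu1 := c07_u_sum F hne
  have h1' : ∀ x : Pt d F → Fin M → Y, ∑ π : Pairing (Pt d F), τ x π = 1 := fun x => by
    exact (c07_instS _ _ _).trans (h1 x)
  have h2' : ∀ π : Pairing (Pt d F), av (fun x : Pt d F → Fin M → Y => τ x π) =
      1 / (Fintype.card (Pairing (Pt d F)) : ℝ) := fun π => by
    exact (c07_instA _ _ _).trans ((h2 π).trans (by rw [c07_instC]))
  have key := c07_abs τ (fun x π => Adm ι x π) (fun π => Simp F π) (fun π => grP F π) h0 h1'
    h2' h3 (c07_u (d := d) F) (c07_u_nonneg F) hu1 um δ hδ s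
  obtain ⟨κ, k0, k1, k2, k3⟩ := key
  refine ⟨κ, k0, k1, k2, ?_⟩
  refine le_trans (le_of_eq ?_) k3
  refine av_congr fun x => Finset.sum_congr rfl fun H _ => ?_
  congr

end Pool.Agent.HC
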