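import Pool.Agent.Lib.MP_ec42c8_pr.C07
import Pool.Agent.Lib.MP_ec42c8_pr.P04

/-!
# CL : completion of a partial graph by means of random picks

PROOF.  Let `c` be the constant of `P04`, choose `s` with ` (1 - c) ^ s ≤ ε / 2`, `M` from `C04` for `γ / 2`,
`k = s * (d * M)` (if this is `0` the statement still makes sense; take `M ≥ 1`, `s ≥ 1`).  Let `n` be large,
`F`, `L` as in the statement; then `8 card F ≤ n`, `card L ≤ 2 card F` (`P03f`; `d ≥ 1`), so
`Y := {v // v ∉ L} × Fin d` has between `d n / 2` and `d n` elements, and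
`card Y - card (Pt d F) = ∑ over v ∉ L of deg F v ≤ 2 card F ≤ 2 n ^ (1-γ) ≤ (card Y) ^ (1 - γ/2)`.
`ι p = (⟨p.1.1, _⟩, p.1.2)`: a point `p` of `Pt d F` has `deg F p.1.1 < d`, so its vertex is not in `L`.
Fix a bijection `idx : Fin s × Fin d × Fin M ≃ Fin k`.  For `θ ∈ Tk k L` and
`lab : Fin n → Fin k → Fin d` let `x(θ, lab) j p i = (θ p.1.1 a, lab p.1.1 a)`, `a = idx (j, p.1.2, i)`.
For uniformly random `θ ∈ Tk k L` (a function with values in `{v // v ∉ L}`) and `lab`, the table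
`x(θ, lab)` is uniformly random (`av_restrict`: ` (j, p, i) ↦ (p.1.1, idx (j, p.1.2, i))` is injective).
Let `κ θ H = av over lab of κ' (x(θ, lab)) H`, with `κ'` from `C07`, `δ = ε / (2 s)`
(`C04`; `card (Pt d F)` is even by `P03e`).
If `π` is admissible for `x j` then every pair `{p, π p}` has an edge `s(p.1.1, θ p.1.1 a)` or
`s((π p).1.1, θ (π p).1.1 a)` in `pk L θ`, so `grP F π ⊆ F ∪ pk L θ`, and `F ⊆ grP F π`.
`Reg n d F` is nonempty because `PS d F > 0` (`P03b`).
-/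

set_option autoImplicit false

namespace Pool.Agent.HC

open Finset
open scoped Classical

lemma cl_inst {Ω : Type*} (i j : Fintype Ω) (f : Ω → ℝ) : @av Ω i f = @av Ω j f := by
  rw [Subsingleton.elim i j]

lemma cl_instp {Ω : Type*} (i j : Fintype Ω) (A : Ω → Prop) : @pr Ω i A = @pr Ω j A := by
  rw [Subsingleton.elim i j]

lemma cl_abs {V K W D S P M : Type} [Fintype V] [Fintype K] [Fintype W] [Fintype D] [Fintype S]
    [Fintype P] [Fintype M] [Nonempty W] [Nonempty D] (g : S → P → M → V × K)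
    (hg : Function.Injective (fun t : S × P × M => g t.1 t.2.1 t.2.2))
    (Φ : (S → P → M → W × D) → ℝ) :
    av (fun θ : V → K → W => av (fun lab : V → K → D =>
      Φ (fun j p i => (θ (g j p i).1 (g j p i).2, lab (g j p i).1 (g j p i).2)))) = av Φ := by
  let E : (V × K → W × D) ≃ (V → K → W) × (V → K → D) :=
    { toFun := fun Z => (fun v i => (Z (v, i)).1, fun v i => (Z (v, i)).2)
      invFun := fun θ vi => (θ.1 vi.1 vi.2, θ.2 vi.1 vi.2)
      left_inv := fun Z => rfl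
      right_inv := fun θ => rfl }
  let E' : (S × P × M → W × D) ≃ (S → P → M → W × D) :=
    { toFun := fun y j p i => y (j, p, i)
      invFun := fun y t => y t.1 t.2.1 t.2.2
      left_inv := fun Z => rfl
      right_inv := fun θ => rfl }
  have h1 := av_prod (fun x : (V → K → W) × (V → K → D) =>
      Φ (fun j p i => (x.1 (g j p i).1 (g j p i).2, x.2 (g j p i).1 (g j p i).2)))
  have h2 := av_equiv E (fun x : (V → K → W) × (V → K → D) =>
      Φ (fun j p i => (x.1 (g j p i).1 (g j p i).2, x.2 (g j p i).1 (g j p i).2)))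
  have h3 := av_restrict (α := W × D) (fun t : S × P × M => g t.1 t.2.1 t.2.2) hg
    (fun y => Φ (E' y))
  have h4 := av_equiv E' Φ
  have h5 : av (fun x : V × K → W × D => Φ (E' (fun t => x (g t.1 t.2.1 t.2.2)))) = av Φ := by
    refine Eq.trans ?_ (Eq.trans h3 (Eq.trans ?_ h4))
    · exact cl_inst _ _ _
    · exact cl_inst _ _ _
  have h6 : av (fun x : V × K → W × D => Φ (E' (fun t => x (g t.1 t.2.1 t.2.2)))) =
      av (fun θ : V → K → W => av (fun lab : V → K → D =>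
      Φ (fun j p i => (θ (g j p i).1 (g j p i).2, lab (g j p i).1 (g j p i).2)))) := by
    refine Eq.trans ?_ (Eq.trans h2 (Eq.trans ?_ h1))
    · exact cl_inst _ _ _
    · exact cl_inst _ _ _
  exact h6.symm.trans h5

lemma cl_gen {A B C : Type} (J1 i1 : Fintype A) (J2 i2 : Fintype B) (J3 i3 : Fintype C)
    (F : A → B → ℝ) (G : C → ℝ) (h : @av A J1 (fun a => @av B J2 (F a)) = @av C J3 G) :
    @av A i1 (fun a => @av B i2 (F a)) = @av C i3 G := by
  rw [Subsingleton.elim i1 J1, Subsingleton.elim i2 J2, Subsingleton.elim i3 J3]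
  exact h

lemma cl_avOn {n k : ℕ} (L : Finset (Fin n)) (f : (Fin n → Fin k → Fin n) → ℝ) :
    avOn (Tk k L) f = av (fun θ : Fin n → Fin k → {v // v ∉ L} =>
      f (fun v i => (θ v i).1)) := by
  let e : (Fin n → Fin k → {v // v ∉ L}) ↪ (Fin n → Fin k → Fin n) :=
    ⟨fun θ v i => (θ v i).1, fun θ θ' h => by
      funext v i
      exact Subtype.ext (congrFun (congrFun h v) i)⟩
  have h : Tk k L = Finset.univ.map e := by
    ext θ
    simp only [Tk, Finset.mem_filter, Finset.mem_univ, true_and, Finset.mem_map]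
    constructor
    · intro h
      exact ⟨fun v i => ⟨θ v i, h v i⟩, rfl⟩
    · rintro ⟨θ', rfl⟩ v i
      exact (θ' v i).2
  rw [h, avOn_map]
  rfl

lemma cl_large (γ : ℝ) (hγ : 0 < γ) (hγ1 : γ ≤ 1) (y₀ : ℕ) : ∃ n₀ : ℕ, ∀ n ≥ n₀, 1 ≤ n ∧
    2 * y₀ ≤ n ∧
    ∀ f : ℕ, (f : ℝ) ≤ (n : ℝ) ^ (1 - γ) → 8 * f ≤ n ∧
      ∀ y : ℝ, (n : ℝ) / 2 ≤ y → 2 * (f : ℝ) ≤ y ^ (1 - γ / 2) := by
  have hlim : Filter.Tendsto (fun y : ℕ => (y : ℝ) ^ (-γ / 2)) Filter.atTop (nhds 0) := by
    have : Filter.Tendsto (fun y : ℕ => (y : ℝ) ^ (-(γ / 2))) Filter.atTop (nhds 0) :=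
      (tendsto_rpow_neg_atTop (by linarith)).comp tendsto_natCast_atTop_atTop
    refine this.congr fun y => ?_
    rw [neg_div]
  obtain ⟨n₁, hn₁⟩ := Filter.eventually_atTop.1
    (hlim.eventually (ge_mem_nhds (show (0 : ℝ) < 1 / 8 by norm_num)))
  refine ⟨max n₁ (2 * y₀ + 1), fun n hn => ⟨by omega, by omega, fun f hf => ?_⟩⟩
  have h1 := hn₁ n (by omega)
  have hn1 : (1 : ℝ) ≤ n := by
    have : 1 ≤ n := by omega
    exact_mod_cast this
  have hn0 : (0 : ℝ) < n := by linarith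
  have h2 : (n : ℝ) ^ (1 - γ) = (n : ℝ) ^ (-γ / 2) * (n : ℝ) ^ (1 - γ / 2) := by
    rw [← Real.rpow_add hn0]
    congr 1
    ring
  have h3 : (n : ℝ) ^ (1 - γ / 2) ≤ n := by
    calc (n : ℝ) ^ (1 - γ / 2) ≤ (n : ℝ) ^ (1 : ℝ) :=
          Real.rpow_le_rpow_of_exponent_le hn1 (by linarith)
      _ = n := Real.rpow_one _
  have h4 : 0 ≤ (n : ℝ) ^ (1 - γ / 2) := Real.rpow_nonneg hn0.le _
  have h5 : (f : ℝ) ≤ 1 / 8 * (n : ℝ) ^ (1 - γ / 2) := by
    refine hf.trans ?_
    rw [h2]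
    exact mul_le_mul_of_nonneg_right h1 h4
  refine ⟨?_, fun y hy => ?_⟩
  · have : (8 : ℝ) * f ≤ n := by linarith
    exact_mod_cast this
  · have h6 : ((n : ℝ) / 2) ^ (1 - γ / 2) ≤ y ^ (1 - γ / 2) :=
      Real.rpow_le_rpow (by positivity) hy (by linarith)
    have h7 : (n : ℝ) ^ (1 - γ / 2) / 2 ≤ ((n : ℝ) / 2) ^ (1 - γ / 2) := by
      rw [Real.div_rpow hn0.le (by norm_num)]
      refine div_le_div_of_nonneg_left h4 (Real.rpow_pos_of_pos (by norm_num) _) ?_
      calc (2 : ℝ) ^ (1 - γ / 2) ≤ (2 : ℝ) ^ (1 : ℝ) :=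
            Real.rpow_le_rpow_of_exponent_le (by norm_num) (by linarith)
        _ = 2 := Real.rpow_one _
    linarith

theorem CL (d : ℕ) (hd : 1 ≤ d) (γ ε : ℝ) (hγ : 0 < γ) (hε : 0 < ε) :
    ∃ k n₀ : ℕ, ∀ n ≥ n₀, Even (d * n) → ∀ (F : Gr n) (L : Finset (Fin n)),
      (∀ v, deg F v ≤ d) → (∀ v ∈ L, deg F v = d) → (F.card : ℝ) ≤ (n : ℝ) ^ (1 - γ) →
      (Reg n d F).Nonempty ∧
      ∃ κ : (Fin n → Fin k → Fin n) → Gr n → ℝ, (∀ θ H, 0 ≤ κ θ H) ∧ (∀ θ, ∑ H, κ θ H = 1) ∧
        (∀ H, avOn (Tk k L) (fun θ => κ θ H) =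
          if H ∈ Reg n d F then 1 / ((Reg n d F).card : ℝ) else 0) ∧
        avOn (Tk k L) (fun θ => ∑ H, if F ⊆ H ∧ H ⊆ F ∪ pk L θ then 0 else κ θ H) ≤ ε := by
  obtain ⟨c, n₁, hc, hP4⟩ := P04 d hd
  set γ' : ℝ := min γ 1 with hγ'
  have hγ0 : 0 < γ' := lt_min hγ one_pos
  have hγ1 : γ' ≤ 1 := min_le_right _ _
  have hγγ : γ' ≤ γ := min_le_left _ _
  set c' : ℝ := min c 1 with hc'
  have hc0 : 0 < c' := lt_min hc one_pos
  have hc1 : c' ≤ 1 := min_le_right _ _
  obtain ⟨s, hs⟩ := exists_pow_lt_of_lt_one (show (0 : ℝ) < ε / 2 by linarith)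
    (show 1 - c' < 1 by linarith)
  obtain ⟨M, hM⟩ := C04 (γ' / 2) (by linarith)
  set δ : ℝ := ε / (2 * (s + 1)) with hδ
  have hs1 : (0 : ℝ) < (s : ℝ) + 1 := by positivity
  have hδ0 : 0 < δ := by positivity
  obtain ⟨y₀, hy₀⟩ := hM δ hδ0
  obtain ⟨n₂, hn₂⟩ := cl_large γ' hγ0 hγ1 (y₀ + 1)
  refine ⟨s * (d * M), max n₁ n₂, fun n hn hev F L hF hL hFc => ?_⟩
  have hn1 : n₁ ≤ n := (le_max_left _ _).trans hn
  obtain ⟨hn1', hny, hfn⟩ := hn₂ n ((le_max_right _ _).trans hn)
  have hnR : (1 : ℝ) ≤ n := by exact_mod_cast hn1'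
  have hFc' : (F.card : ℝ) ≤ (n : ℝ) ^ (1 - γ') :=
    hFc.trans (Real.rpow_le_rpow_of_exponent_le hnR (by linarith))
  obtain ⟨hF8, hFy⟩ := hfn F.card hFc'
  have hPSc : c ≤ PS d F := hP4 n hn1 hev F hF hF8
  have hPS : 0 < PS d F := hc.trans_le hPSc
  have hPS1 : PS d F ≤ 1 := pr_le_one _
  have hPP := P03e F hF
  have hev' : Even (Fintype.card (Pt d F)) := by
    have h := hev
    rw [← hPP, Nat.even_add] at h
    exact h.2 (even_two_mul _)
  refine ⟨c07_regNonempty F hF hPS, ?_⟩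
  -- the size of L
  have hLc : d * L.card ≤ 2 * F.card := by
    rw [← P03f F]
    calc d * L.card = ∑ v ∈ L, deg F v := by
          rw [Finset.sum_congr rfl hL, Finset.sum_const, smul_eq_mul, mul_comm]
      _ ≤ ∑ v, deg F v := Finset.sum_le_univ_sum_of_nonneg fun _ => Nat.zero_le _
  have hLc' : L.card ≤ 2 * F.card := (Nat.le_mul_of_pos_left _ hd).trans hLc
  have hcardW : Fintype.card {v : Fin n // v ∉ L} = n - L.card := by
    rw [Fintype.card_subtype_compl, Fintype.card_fin]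
    simp
  have hcardY : Fintype.card ({v : Fin n // v ∉ L} × Fin d) = (n - L.card) * d := by
    rw [Fintype.card_prod, Fintype.card_fin, hcardW]
  have hWpos : 0 < Fintype.card {v : Fin n // v ∉ L} := by omega
  have hW : Nonempty {v : Fin n // v ∉ L} := Fintype.card_pos_iff.1 hWpos
  have hD : Nonempty (Fin d) := ⟨⟨0, hd⟩⟩
  -- the embedding of the points
  let ι : Pt d F ↪ {v : Fin n // v ∉ L} × Fin d :=
    ⟨fun p => (⟨p.1.1, fun h => by
        have h1 := hL _ h
        have h2 := p.2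
        have h3 := p.1.2.2
        omega⟩, p.1.2), fun p q h => by
      have h1 := congrArg Prod.fst h
      have h2 := congrArg Prod.snd h
      have h3 := congrArg Subtype.val h1
      exact Subtype.ext (Prod.ext h3 h2)⟩
  have hYn : (n : ℝ) / 2 ≤ (Fintype.card ({v : Fin n // v ∉ L} × Fin d) : ℝ) := by
    have h1 : n ≤ 2 * ((n - L.card) * d) := by
      have : n - L.card ≤ (n - L.card) * d := Nat.le_mul_of_pos_right _ hd
      omega
    rw [hcardY]
    have h2 : (n : ℝ) ≤ 2 * (((n - L.card) * d : ℕ) : ℝ) := by exact_mod_cast h1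
    linarith
  have hYy : y₀ ≤ Fintype.card ({v : Fin n // v ∉ L} × Fin d) := by
    rw [hcardY]
    have : n - L.card ≤ (n - L.card) * d := Nat.le_mul_of_pos_right _ hd
    omega
  have hdiff : (Fintype.card ({v : Fin n // v ∉ L} × Fin d) : ℝ) - Fintype.card (Pt d F) ≤
      (Fintype.card ({v : Fin n // v ∉ L} × Fin d) : ℝ) ^ (1 - γ' / 2) := by
    refine le_trans ?_ (hFy _ hYn)
    have h1 : Fintype.card ({v : Fin n // v ∉ L} × Fin d) ≤
        Fintype.card (Pt d F) + 2 * F.card := by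
      rw [hPP, hcardY, mul_comm]
      exact Nat.mul_le_mul_left _ (Nat.sub_le _ _)
    have h2 : (Fintype.card ({v : Fin n // v ∉ L} × Fin d) : ℝ) ≤
        Fintype.card (Pt d F) + 2 * F.card := by exact_mod_cast h1
    linarith
  have hpr : pr (fun x : Pt d F → Fin M → {v : Fin n // v ∉ L} × Fin d =>
      ¬ ∃ π : Pairing (Pt d F), Adm ι x π) ≤ δ := by
    exact (le_of_eq (cl_instp _ _ _)).trans
      (hy₀ (Pt d F) ({v : Fin n // v ∉ L} × Fin d) ι hYy hev' hdiff)
  obtain ⟨κ', k0, k1, k2, k3⟩ := C07 F hF hev ι M s hPS δ hpr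
  -- the tables
  let idx : Fin s × (Fin d × Fin M) ≃ Fin (s * (d * M)) :=
    (Equiv.prodCongr (Equiv.refl _) finProdFinEquiv).trans finProdFinEquiv
  let g : Fin s → Pt d F → Fin M → Fin n × Fin (s * (d * M)) :=
    fun j p i => (p.1.1, idx (j, (p.1.2, i)))
  have hg : Function.Injective (fun t : Fin s × Pt d F × Fin M => g t.1 t.2.1 t.2.2) := by
    rintro ⟨j, p, i⟩ ⟨j', p', i'⟩ h
    have h1 := congrArg Prod.fst h
    have h2 := idx.injective (congrArg Prod.snd h)
    simp only [Prod.mk.injEq] at h2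
    obtain ⟨rfl, h3, rfl⟩ := h2
    have h4 : p = p' := Subtype.ext (Prod.ext h1 h3)
    rw [h4]
  let tab : (Fin n → Fin (s * (d * M)) → {v : Fin n // v ∉ L}) →
      (Fin n → Fin (s * (d * M)) → Fin d) → Fin s → Pt d F → Fin M →
        {v : Fin n // v ∉ L} × Fin d :=
    fun θ lab j p i => (θ (g j p i).1 (g j p i).2, lab (g j p i).1 (g j p i).2)
  have htab : ∀ Φ : (Fin s → Pt d F → Fin M → {v : Fin n // v ∉ L} × Fin d) → ℝ,
      av (fun θ => av (fun lab => Φ (tab θ lab))) = av Φ := by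
    intro Φ
    exact cl_gen _ _ _ _ _ _ (fun θ lab => Φ (tab θ lab)) Φ (cl_abs g hg Φ)
  let r : Fin n → {v : Fin n // v ∉ L} := fun v => if h : v ∉ L then ⟨v, h⟩ else
    Classical.arbitrary _
  have hr : ∀ v : {v : Fin n // v ∉ L}, r v.1 = v := by
    intro v
    simp only [r, dif_pos v.2]
  have hrθ : ∀ θ : Fin n → Fin (s * (d * M)) → {v : Fin n // v ∉ L},
      (fun v i => r ((fun v i => (θ v i).1) v i)) = θ := by
    intro θ
    funext v i
    exact hr _
  refine ⟨fun θ H => av (fun lab => κ' (tab (fun v i => r (θ v i)) lab) H), ?_, ?_, ?_, ?_⟩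
  · intro θ H
    exact av_nonneg fun lab => k0 _ _
  · intro θ
    rw [← av_sum, av_congr (g := fun _ => (1 : ℝ)) (fun lab => k1 _)]
    exact av_const _
  · intro H
    rw [cl_avOn, ← k2 H, ← htab (fun x => κ' x H)]
    refine av_congr fun θ => av_congr fun lab => ?_
    rw [hrθ θ]
  · rw [cl_avOn]
    have hstep : ∀ θ : Fin n → Fin (s * (d * M)) → {v : Fin n // v ∉ L},
        (∑ H, if F ⊆ H ∧ H ⊆ F ∪ pk L (fun v i => (θ v i).1) then 0 else
          av (fun lab => κ' (tab (fun v i => r ((fun v i => (θ v i).1) v i)) lab) H)) ≤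
        av (fun lab => ∑ H, if (∃ j, ∃ π : Pairing (Pt d F),
          Adm ι (tab θ lab j) π ∧ Simp F π ∧ H = grP F π) then 0 else κ' (tab θ lab) H) := by
      intro θ
      rw [hrθ θ, av_sum]
      refine Finset.sum_le_sum fun H _ => ?_
      by_cases hH : F ⊆ H ∧ H ⊆ F ∪ pk L (fun v i => (θ v i).1)
      · rw [if_pos hH]
        refine av_nonneg fun lab => ?_
        split_ifs
        · exact le_rfl
        · exact k0 _ _
      · rw [if_neg hH]
        refine av_mono fun lab => ?_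
        rw [if_neg]
        rintro ⟨j, π, hA, -, rfl⟩
        apply hH
        refine ⟨Finset.subset_union_left, ?_⟩
        intro e he
        rw [grP, Finset.mem_union] at he
        rw [Finset.mem_union]
        rcases he with he | he
        · exact Or.inl he
        · right
          simp only [Finset.mem_filter, Finset.mem_univ, true_and] at he
          obtain ⟨p, hp⟩ := he
          obtain ⟨i, hi⟩ := hA p
          simp only [pk, Finset.mem_filter, Finset.mem_univ, true_and]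
          rcases hi with hi | hi
          · have h1 := congrArg (fun z => (Prod.fst z).1) hi
            refine ⟨p.1.1, (ι p).1.2, idx (j, (p.1.2, i)), ?_⟩
            rw [hp]
            have h2 : (θ p.1.1 (idx (j, (p.1.2, i)))).1 = (π.1 p).1.1 := h1
            rw [h2]
          · have h1 := congrArg (fun z => (Prod.fst z).1) hi
            refine ⟨(π.1 p).1.1, (ι (π.1 p)).1.2, idx (j, ((π.1 p).1.2, i)), ?_⟩
            rw [hp]
            have h2 : (θ (π.1 p).1.1 (idx (j, ((π.1 p).1.2, i)))).1 = p.1.1 := h1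
            rw [h2]
            exact Sym2.eq_swap
    refine (av_mono hstep).trans ?_
    rw [htab (fun x => ∑ H, if (∃ j, ∃ π : Pairing (Pt d F),
          Adm ι (x j) π ∧ Simp F π ∧ H = grP F π) then 0 else κ' x H)]
    refine k3.trans ?_
    have h1 : (1 - PS d F) ^ s ≤ (1 - c') ^ s :=
      pow_le_pow_left₀ (by linarith) (by linarith [min_le_left c 1]) s
    have h2 : (s : ℝ) * δ ≤ ε / 2 := by
      rw [hδ]
      rw [show (s : ℝ) * (ε / (2 * (s + 1))) = (s * ε) / (2 * (s + 1)) by ring,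
        div_le_div_iff₀ (by positivity) (by norm_num)]
      nlinarith
    linarith

end Pool.Agent.HC
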