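import Pool.Agent.Lib.MP_ec42c8_pr.F01

/-!
# F02 : repairing the second marginal of a joint law

PROOF.  Let `p b = ∑ a, q a b` and `m b = min (p b) (u b)`.  Both `p` and `u` have sum `1`
(`∑ a, 1 / card α = 1`), so `D := 1 - ∑ m = ∑ (p - m) = ∑ (u - m)`.  Testing with the indicator of
`{b | u b < p b}` gives `D ≤ δ`.  If `D = 0` then `p = u` and `w = q` works.  Otherwise put
`w a b = q a b * (m b / p b) + (∑ b', q a b' * (1 - m b' / p b')) * (u b - m b) / D`
(with `0 / 0 = 0`; if `p b = 0` then `q a b = 0` for all `a`).  The row sums of `w` are those of `q`,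
the column sums are `m b + D * (u b - m b) / D = u b`, and the bad mass of `w` is at most the bad
mass of `q` plus the total mass `D` of the second term.
-/

set_option autoImplicit false

namespace Pool.Agent.HC

open Finset
open scoped Classical

theorem F02 {α β : Type*} [Fintype α] [Nonempty α] [Fintype β] (q : α → β → ℝ)
    (hq : ∀ a b, 0 ≤ q a b) (hq1 : ∀ a, ∑ b, q a b = 1 / (Fintype.card α : ℝ))
    (u : β → ℝ) (hu : ∀ b, 0 ≤ u b) (hu1 : ∑ b, u b = 1) (δ : ℝ)
    (hδ : ∀ Φ : β → ℝ, Unit01 Φ → |∑ a, ∑ b, q a b * Φ b - ∑ b, u b * Φ b| ≤ δ)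
    (Bad : α → β → Prop) (δ' : ℝ)
    (hbad : ∑ a, ∑ b, (if Bad a b then q a b else 0) ≤ δ') :
    ∃ w : α → β → ℝ, (∀ a b, 0 ≤ w a b) ∧ (∀ a, ∑ b, w a b = 1 / (Fintype.card α : ℝ)) ∧
      (∀ b, ∑ a, w a b = u b) ∧ ∑ a, ∑ b, (if Bad a b then w a b else 0) ≤ δ + δ' := by
  have hN : (Fintype.card α : ℝ) ≠ 0 := by exact_mod_cast Fintype.card_ne_zero
  set p : β → ℝ := fun b => ∑ a, q a b with hp
  have hp0 : ∀ b, 0 ≤ p b := fun b => Finset.sum_nonneg fun a _ => hq a b
  have hp1 : ∑ b, p b = 1 := by
    rw [hp, Finset.sum_comm]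
    rw [Finset.sum_congr rfl (fun a _ => hq1 a)]
    simp [hN]
  set m : β → ℝ := fun b => min (p b) (u b) with hm
  have hm0 : ∀ b, 0 ≤ m b := fun b => le_min (hp0 b) (hu b)
  have hmp : ∀ b, m b ≤ p b := fun b => min_le_left _ _
  have hmu : ∀ b, m b ≤ u b := fun b => min_le_right _ _
  set D : ℝ := ∑ b, (u b - m b) with hD
  have hD0 : 0 ≤ D := Finset.sum_nonneg fun b _ => sub_nonneg.2 (hmu b)
  have hDp : ∑ b, (p b - m b) = D := by
    rw [hD, Finset.sum_sub_distrib, Finset.sum_sub_distrib, hp1, hu1]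
  have hDδ : D ≤ δ := by
    have h := hδ (fun b => if u b < p b then 1 else 0) (by
      intro b
      by_cases h : u b < p b
      · simp [h]
      · simp [h])
    have h1 : ∑ a, ∑ b, q a b * (if u b < p b then (1 : ℝ) else 0) -
        ∑ b, u b * (if u b < p b then (1 : ℝ) else 0) = D := by
      rw [Finset.sum_comm, ← Finset.sum_sub_distrib, ← hDp]
      refine Finset.sum_congr rfl fun b _ => ?_
      rw [← Finset.sum_mul]
      by_cases h : u b < p b
      · simp only [h, if_true, mul_one, hm]
        rw [min_eq_right h.le]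
      · simp only [h, if_false, mul_zero, sub_zero, hm]
        rw [min_eq_left (not_lt.1 h), sub_self]
    rw [h1] at h
    exact (le_abs_self _).trans h
  rcases hD0.eq_or_lt with hDz | hDpos
  · have h1 : ∀ b, u b - m b = 0 := by
      intro b
      exact (Finset.sum_eq_zero_iff_of_nonneg (fun b _ => sub_nonneg.2 (hmu b))).1 hDz.symm b
        (Finset.mem_univ b)
    have h2 : ∀ b, p b - m b = 0 := by
      intro b
      exact (Finset.sum_eq_zero_iff_of_nonneg (fun b _ => sub_nonneg.2 (hmp b))).1
        (hDp.trans hDz.symm) b (Finset.mem_univ b)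
    refine ⟨q, hq, hq1, fun b => ?_, ?_⟩
    · have := h1 b
      have := h2 b
      show p b = u b
      linarith
    · linarith
  · set r : β → ℝ := fun b => m b / p b with hr
    have hr0 : ∀ b, 0 ≤ r b := fun b => div_nonneg (hm0 b) (hp0 b)
    have hr1 : ∀ b, r b ≤ 1 := fun b => div_le_one_of_le₀ (hmp b) (hp0 b)
    have hpr : ∀ b, p b * r b = m b := by
      intro b
      by_cases h : p b = 0
      · have : m b = 0 := le_antisymm (h ▸ hmp b) (hm0 b)
        rw [h, this, zero_mul]
      · rw [hr]
        field_simp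
    have hg0 : ∀ a, 0 ≤ ∑ b', q a b' * (1 - r b') := fun a =>
      Finset.sum_nonneg fun b _ => mul_nonneg (hq a b) (sub_nonneg.2 (hr1 b))
    have hgs : ∑ a, ∑ b', q a b' * (1 - r b') = D := by
      rw [Finset.sum_comm, ← hDp]
      refine Finset.sum_congr rfl fun b _ => ?_
      rw [← Finset.sum_mul]
      show p b * (1 - r b) = _
      rw [mul_sub, hpr b, mul_one]
    have hs0 : ∀ a b, 0 ≤ (∑ b', q a b' * (1 - r b')) * ((u b - m b) / D) := fun a b =>
      mul_nonneg (hg0 a) (div_nonneg (sub_nonneg.2 (hmu b)) hD0)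
    have hsD : ∑ b, (u b - m b) / D = 1 := by
      rw [← Finset.sum_div, ← hD]
      exact div_self hDpos.ne'
    refine ⟨fun a b => q a b * r b + (∑ b', q a b' * (1 - r b')) * ((u b - m b) / D),
      fun a b => add_nonneg (mul_nonneg (hq a b) (hr0 b)) (hs0 a b), fun a => ?_, fun b => ?_, ?_⟩
    · rw [Finset.sum_add_distrib, ← Finset.mul_sum, hsD, mul_one, ← Finset.sum_add_distrib,
        ← hq1 a]
      refine Finset.sum_congr rfl fun b _ => ?_
      ring
    · rw [Finset.sum_add_distrib, ← Finset.sum_mul, ← Finset.sum_mul, hgs]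
      show p b * r b + _ = _
      rw [hpr b]
      field_simp
      ring
    · have h1 : ∀ a b, (if Bad a b then
          q a b * r b + (∑ b', q a b' * (1 - r b')) * ((u b - m b) / D) else 0) ≤
          (∑ b', q a b' * (1 - r b')) * ((u b - m b) / D) + (if Bad a b then q a b else 0) := by
        intro a b
        by_cases h : Bad a b
        · simp only [h, if_true]
          have : q a b * r b ≤ q a b := mul_le_of_le_one_right (hq a b) (hr1 b)
          linarith
        · simp only [h, if_false, add_zero]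
          exact hs0 a b
      calc ∑ a, ∑ b, (if Bad a b then
          q a b * r b + (∑ b', q a b' * (1 - r b')) * ((u b - m b) / D) else 0)
          ≤ ∑ a, ∑ b, ((∑ b', q a b' * (1 - r b')) * ((u b - m b) / D) +
            (if Bad a b then q a b else 0)) :=
            Finset.sum_le_sum fun a _ => Finset.sum_le_sum fun b _ => h1 a b
        _ = D + ∑ a, ∑ b, (if Bad a b then q a b else 0) := by
            rw [Finset.sum_congr rfl (fun a _ => Finset.sum_add_distrib), Finset.sum_add_distrib]
            have h2 : ∑ a, ∑ b, (∑ b', q a b' * (1 - r b')) * ((u b - m b) / D) = D := by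
              refine Eq.trans (Finset.sum_congr rfl fun a _ => ?_) hgs
              rw [← Finset.mul_sum, hsD, mul_one]
            rw [h2]
        _ ≤ δ + δ' := add_le_add hDδ hbad

end Pool.Agent.HC
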