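import Pool.Agent.Lib.MP_ec42c8_pr.F01

/-!
# O02 : the rank defined by an array

`rk B ρ e` is `sInf (hitT B e) < m` if `e` occurs in `B` (`Nat.sInf_mem`), and `m + ρ e ≥ m`
otherwise.  Two different edges cannot occur at the same time, so `rk` is injective.  For
`app A B` (which is `Fin.append A B`): the times of `e` in it are the times in `A` and `a +` the
times in `B`.
-/

set_option autoImplicit false

namespace Pool.Agent.HC

open Finset
open scoped Classical

lemma o02_nonempty_iff {n m : ℕ} (B : Fin m → Fin n × Fin n) (e : Edge n) :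
    (hitT B e).Nonempty ↔ e ∈ bedges B := by
  unfold hitT bedges Set.Nonempty
  simp only [Set.mem_ofPred_eq, Finset.mem_filter, Finset.mem_univ, true_and]
  constructor
  · rintro ⟨t, ht, h⟩
    exact ⟨⟨t, ht⟩, h⟩
  · rintro ⟨t, h⟩
    exact ⟨t, t.2, h⟩

lemma o02_sInf_lt {n m : ℕ} (B : Fin m → Fin n × Fin n) (e : Edge n)
    (h : (hitT B e).Nonempty) : sInf (hitT B e) < m := by
  obtain ⟨h1, -⟩ := Nat.sInf_mem h
  exact h1

lemma o02_hitT_disj {n m : ℕ} (B : Fin m → Fin n × Fin n) (e e' : Edge n) (t : ℕ)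
    (h : t ∈ hitT B e) (h' : t ∈ hitT B e') : e = e' := by
  obtain ⟨h1, h2⟩ := h
  obtain ⟨h3, h4⟩ := h'
  exact Subtype.ext (h2.symm.trans h4)

lemma rk_injective {n m : ℕ} (B : Fin m → Fin n × Fin n) (ρ : Edge n ≃ Fin (NE n)) :
    Function.Injective (rk B ρ) := by
  intro e e' h
  unfold rk at h
  split_ifs at h with h1 h2 h2
  · have a1 := Nat.sInf_mem h1
    have a2 := Nat.sInf_mem h2
    rw [h] at a1
    exact o02_hitT_disj B e e' _ a1 a2
  · have := o02_sInf_lt B e h1
    omega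
  · have := o02_sInf_lt B e' h2
    omega
  · apply ρ.injective
    apply Fin.ext
    omega

lemma rk_lt_iff {n m : ℕ} (B : Fin m → Fin n × Fin n) (ρ : Edge n ≃ Fin (NE n)) (e : Edge n) :
    rk B ρ e < m ↔ e ∈ bedges B := by
  rw [← o02_nonempty_iff]
  unfold rk
  split_ifs with h
  · simp only [h, iff_true]
    exact o02_sInf_lt B e h
  · simp only [h, iff_false]
    omega

/-- The rank of an edge that occurs in the array does not depend on `ρ`. -/
lemma rk_eq_of_mem {n m : ℕ} (B : Fin m → Fin n × Fin n) (ρ ρ' : Edge n ≃ Fin (NE n))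
    (e : Edge n) (he : e ∈ bedges B) : rk B ρ e = rk B ρ' e := by
  rw [← o02_nonempty_iff] at he
  unfold rk
  rw [if_pos he, if_pos he]

lemma rk_of_not_mem {n m : ℕ} (B : Fin m → Fin n × Fin n) (ρ : Edge n ≃ Fin (NE n))
    (e : Edge n) (he : e ∉ bedges B) : rk B ρ e = m + (ρ e : ℕ) := by
  rw [← o02_nonempty_iff] at he
  unfold rk
  rw [if_neg he]

lemma o02_app_left {n a m : ℕ} (A : Fin a → Fin n × Fin n) (B : Fin m → Fin n × Fin n)
    (t : ℕ) (h : t < a) : app A B ⟨t, by omega⟩ = A ⟨t, h⟩ := by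
  have : (⟨t, by omega⟩ : Fin (a + m)) = Fin.castAdd m ⟨t, h⟩ := rfl
  rw [this]
  exact Fin.append_left A B _

lemma o02_app_right {n a m : ℕ} (A : Fin a → Fin n × Fin n) (B : Fin m → Fin n × Fin n)
    (t : ℕ) (h : t < m) : app A B ⟨a + t, by omega⟩ = B ⟨t, h⟩ := by
  have : (⟨a + t, by omega⟩ : Fin (a + m)) = Fin.natAdd a ⟨t, h⟩ := rfl
  rw [this]
  exact Fin.append_right A B _

lemma o02_hitT_app {n a m : ℕ} (A : Fin a → Fin n × Fin n) (B : Fin m → Fin n × Fin n)
    (e : Edge n) (t : ℕ) :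
    t ∈ hitT (app A B) e ↔ t ∈ hitT A e ∨ (a ≤ t ∧ t - a ∈ hitT B e) := by
  unfold hitT
  simp only [Set.mem_ofPred_eq]
  constructor
  · rintro ⟨h, h1⟩
    by_cases ht : t < a
    · left
      refine ⟨ht, ?_⟩
      rw [o02_app_left A B t ht] at h1
      exact h1
    · right
      refine ⟨by omega, by omega, ?_⟩
      have h2 := o02_app_right A B (t - a) (by omega)
      have h3 : (⟨a + (t - a), by omega⟩ : Fin (a + m)) = ⟨t, h⟩ := by
        apply Fin.ext
        show a + (t - a) = t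
        omega
      rw [h3] at h2
      rw [h2] at h1
      exact h1
  · rintro (⟨h, h1⟩ | ⟨h0, h, h1⟩)
    · refine ⟨by omega, ?_⟩
      rw [o02_app_left A B t h]
      exact h1
    · refine ⟨by omega, ?_⟩
      have h2 := o02_app_right A B (t - a) (by omega)
      have h3 : (⟨a + (t - a), by omega⟩ : Fin (a + m)) = ⟨t, by omega⟩ := by
        apply Fin.ext
        show a + (t - a) = t
        omega
      rw [h3] at h2
      rw [h2]
      exact h1

lemma o02_sInf_eq (S : Set ℕ) (t : ℕ) (h : t ∈ S) (h' : ∀ s ∈ S, t ≤ s) : sInf S = t :=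
  le_antisymm (Nat.sInf_le h) (h' _ (Nat.sInf_mem ⟨t, h⟩))

lemma rk_app {n a m : ℕ} (A : Fin a → Fin n × Fin n) (B : Fin m → Fin n × Fin n)
    (ρ : Edge n ≃ Fin (NE n)) (e : Edge n) :
    rk (app A B) ρ e = if e ∈ bedges A then rk A ρ e else a + rk B ρ e := by
  have hsub : (hitT A e).Nonempty → (hitT (app A B) e).Nonempty := by
    rintro ⟨t, ht⟩
    exact ⟨t, (o02_hitT_app A B e t).2 (Or.inl ht)⟩
  by_cases hA : e ∈ bedges A
  · rw [if_pos hA]
    rw [← o02_nonempty_iff] at hA
    unfold rk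
    rw [if_pos hA, if_pos (hsub hA)]
    have h1 := Nat.sInf_mem hA
    apply o02_sInf_eq
    · exact (o02_hitT_app A B e _).2 (Or.inl h1)
    · intro s hs
      rcases (o02_hitT_app A B e _).1 hs with h2 | ⟨h2, h3⟩
      · exact Nat.sInf_le h2
      · have := o02_sInf_lt A e hA
        omega
  · rw [if_neg hA]
    rw [← o02_nonempty_iff] at hA
    by_cases hB : (hitT B e).Nonempty
    · have h1 := Nat.sInf_mem hB
      have h2 : a + sInf (hitT B e) ∈ hitT (app A B) e := by
        rw [o02_hitT_app]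
        right
        refine ⟨by omega, ?_⟩
        rw [Nat.add_sub_cancel_left]
        exact h1
      unfold rk
      rw [if_pos hB, if_pos ⟨_, h2⟩]
      apply o02_sInf_eq _ _ h2
      intro s hs
      rcases (o02_hitT_app A B e _).1 hs with h3 | ⟨h3, h4⟩
      · exact absurd ⟨s, h3⟩ hA
      · have := Nat.sInf_le h4
        omega
    · have h1 : ¬ (hitT (app A B) e).Nonempty := by
        rintro ⟨t, ht⟩
        rcases (o02_hitT_app A B e _).1 ht with h3 | ⟨h3, h4⟩
        · exact hA ⟨_, h3⟩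
        · exact hB ⟨_, h4⟩
      unfold rk
      rw [if_neg hB, if_neg h1]
      omega

lemma bedges_app {n a m : ℕ} (A : Fin a → Fin n × Fin n) (B : Fin m → Fin n × Fin n) :
    bedges (app A B) = bedges A ∪ bedges B := by
  ext e
  rw [Finset.mem_union, ← o02_nonempty_iff, ← o02_nonempty_iff, ← o02_nonempty_iff]
  constructor
  · rintro ⟨t, ht⟩
    rcases (o02_hitT_app A B e _).1 ht with h3 | ⟨h3, h4⟩
    · exact Or.inl ⟨_, h3⟩
    · exact Or.inr ⟨_, h4⟩
  · rintro (⟨t, ht⟩ | ⟨t, ht⟩)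
    · exact ⟨t, (o02_hitT_app A B e _).2 (Or.inl ht)⟩
    · refine ⟨a + t, (o02_hitT_app A B e _).2 (Or.inr ⟨by omega, ?_⟩)⟩
      rw [Nat.add_sub_cancel_left]
      exact ht

lemma card_bedges_le {n m : ℕ} (B : Fin m → Fin n × Fin n) : (bedges B).card ≤ m := by
  have h : ∀ e ∈ bedges B, ∃ t : Fin m, s((B t).1, (B t).2) = e.1 := by
    intro e he
    unfold bedges at he
    simpa using he
  have h' : ∀ e : {e // e ∈ bedges B}, ∃ t : Fin m, s((B t).1, (B t).2) = e.1.1 :=
    fun e => h e.1 e.2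
  choose f hf using h'
  have hinj : Function.Injective f := by
    intro e e' h
    apply Subtype.ext
    apply Subtype.ext
    rw [← hf e, ← hf e', h]
  have h1 := Fintype.card_le_of_injective f hinj
  simpa using h1

end Pool.Agent.HC
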