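import Pool.Agent.Lib.MP_ec42c8_pr.O01
import Pool.Agent.Lib.MP_ec42c8_pr.O02

/-!
# O05 : the last graph of maximum degree at most d

`deg_KK_le`: `Nat.findGreatest_spec` (the property holds for `i = 0`, as `proc σ 0 = ∅`).
`proc_subset_KK`: if the property holds for `i` then also for `min i (NE n)` (`proc σ i = proc σ
(min i (NE n))`), so `min i (NE n) ≤ istar d σ`, and `proc` is monotone in `i`.
`O05`: put `σ = ordOf (rk (app A B) ρ)`, `σ' = ordOf (rk A ρ')`, `J = card (bedges A)`.  The ranks of
the two orderings agree on `bedges A` and are `< a` exactly there (`rk_app`, `rk_lt_iff`), hence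
`posOf` agrees on `bedges A` and is `≥ J` outside, `proc σ i = proc σ' i` for `i ≤ J` and
`proc σ J = proc σ' J = bedges A` (`proc_ordOf_card` with `T = a`).  By the hypothesis the property
fails for `J`, so (it is decreasing in `i`) `istar` is `< J` for both and is the same number.
-/

set_option autoImplicit false

namespace Pool.Agent.HC

open Finset
open scoped Classical

lemma proc_mono {n : ℕ} (σ : Ord n) {i j : ℕ} (h : i ≤ j) : proc σ i ⊆ proc σ j := by
  intro e he
  unfold proc at he ⊢
  simp only [Finset.mem_filter, Finset.mem_univ, true_and] at he ⊢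
  omega

lemma deg_mono {n : ℕ} {H H' : Gr n} (h : H ⊆ H') (v : Fin n) : deg H v ≤ deg H' v := by
  unfold deg
  exact Finset.card_le_card (Finset.filter_subset_filter _ h)

lemma o05_proc_zero {n : ℕ} (σ : Ord n) : proc σ 0 = ∅ := by
  unfold proc
  apply Finset.filter_false_of_mem
  intro e _
  omega

lemma o05_deg_empty {n : ℕ} (v : Fin n) : deg (∅ : Gr n) v = 0 := by
  simp [deg]

lemma o05_istar_spec {n : ℕ} (d : ℕ) (σ : Ord n) : ∀ v, deg (proc σ (istar d σ)) v ≤ d := by
  unfold istar
  apply Nat.findGreatest_spec (P := fun i => ∀ v, deg (proc σ i) v ≤ d) (Nat.zero_le _)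
  intro v
  rw [o05_proc_zero, o05_deg_empty]
  exact Nat.zero_le _

lemma deg_KK_le {n : ℕ} (d : ℕ) (σ : Ord n) (v : Fin n) : deg (KK d σ) v ≤ d := by
  exact o05_istar_spec d σ v

lemma proc_subset_KK {n : ℕ} (d : ℕ) (σ : Ord n) (i : ℕ) (h : ∀ v, deg (proc σ i) v ≤ d) :
    proc σ i ⊆ KK d σ := by
  have h1 : proc σ i ⊆ proc σ (min i (NE n)) := by
    intro e he
    unfold proc at he ⊢
    simp only [Finset.mem_filter, Finset.mem_univ, true_and] at he ⊢
    have := (σ.symm e).2
    exact lt_min he this
  have h2 : min i (NE n) ≤ istar d σ := by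
    unfold istar
    apply Nat.le_findGreatest (min_le_right _ _)
    intro v
    exact (deg_mono (proc_mono σ (min_le_left _ _)) v).trans (h v)
  exact h1.trans (proc_mono σ h2)

lemma o05_istar_eq {n : ℕ} (d : ℕ) (σ σ' : Ord n) (J : ℕ) (hJ : ∀ i ≤ J, proc σ i = proc σ' i)
    (h : ∃ v, d < deg (proc σ J) v) : istar d σ ≤ istar d σ' := by
  obtain ⟨v, hv⟩ := h
  have h1 : istar d σ ≤ J := by
    by_contra hc
    have h2 := o05_istar_spec d σ v
    have h3 := deg_mono (proc_mono σ (not_le.1 hc).le) v
    omega
  have h2 : istar d σ ≤ NE n := Nat.findGreatest_le _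
  show istar d σ ≤ Nat.findGreatest _ _
  apply Nat.le_findGreatest h2
  rw [← hJ _ h1]
  exact o05_istar_spec d σ

theorem O05 {n a m : ℕ} (d : ℕ) (A : Fin a → Fin n × Fin n) (B : Fin m → Fin n × Fin n)
    (ρ ρ' : Edge n ≃ Fin (NE n)) (h : ∃ v, d < deg (bedges A) v) :
    KK d (ordOf (rk (app A B) ρ)) = KK d (ordOf (rk A ρ')) ∧
      KK d (ordOf (rk A ρ')) ⊆ bedges A := by
  set σ := ordOf (rk (app A B) ρ) with hσ
  set σ' := ordOf (rk A ρ') with hσ'
  have hr := rk_injective (app A B) ρ
  have hr' := rk_injective A ρ'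
  have e1 : (Finset.univ.filter (fun e : Edge n => rk A ρ' e < a)) = bedges A := by
    ext e
    simp only [Finset.mem_filter, Finset.mem_univ, true_and]
    exact rk_lt_iff A ρ' e
  have hlt : ∀ e : Edge n, rk (app A B) ρ e < a ↔ e ∈ bedges A := by
    intro e
    rw [rk_app]
    split_ifs with h1
    · simp only [h1, iff_true]
      exact (rk_lt_iff A ρ e).2 h1
    · simp only [h1, iff_false]
      omega
  have e2 : (Finset.univ.filter (fun e : Edge n => rk (app A B) ρ e < a)) = bedges A := by
    ext e
    simp only [Finset.mem_filter, Finset.mem_univ, true_and]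
    exact hlt e
  set J := (bedges A).card with hJ
  have p1 : proc σ' J = bedges A := by
    have := proc_ordOf_card (rk A ρ') hr' a
    rw [e1] at this
    exact this
  have p2 : proc σ J = bedges A := by
    have := proc_ordOf_card (rk (app A B) ρ) hr a
    rw [e2] at this
    exact this
  have hrk : ∀ e ∈ bedges A, rk (app A B) ρ e = rk A ρ' e := by
    intro e he
    rw [rk_app, if_pos he]
    exact rk_eq_of_mem A ρ ρ' e he
  have hpos : ∀ e ∈ bedges A, posOf (rk (app A B) ρ) e = posOf (rk A ρ') e := by
    intro e he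
    unfold posOf
    congr 1
    ext x
    simp only [Finset.mem_filter, Finset.mem_univ, true_and]
    rw [hrk e he]
    have hea : rk A ρ' e < a := (rk_lt_iff A ρ' e).2 he
    by_cases hx : x ∈ bedges A
    · rw [hrk x hx]
    · have h3 : ¬ rk (app A B) ρ x < a := fun h => hx ((hlt x).1 h)
      have h4 : ¬ rk A ρ' x < a := fun h => hx ((rk_lt_iff A ρ' x).1 h)
      constructor
      · intro h5
        omega
      · intro h5
        omega
  have hprocs : ∀ i ≤ J, proc σ i = proc σ' i := by
    intro i hi
    ext e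
    by_cases he : e ∈ bedges A
    · rw [hσ, hσ', mem_proc_ordOf _ hr, mem_proc_ordOf _ hr', hpos e he]
    · constructor
      · intro h1
        exact absurd (p2 ▸ (proc_mono σ hi h1)) he
      · intro h1
        exact absurd (p1 ▸ (proc_mono σ' hi h1)) he
  have hist : istar d σ = istar d σ' := by
    apply le_antisymm
    · exact o05_istar_eq d σ σ' J hprocs (by rw [p2]; exact h)
    · exact o05_istar_eq d σ' σ J (fun i hi => (hprocs i hi).symm) (by rw [p1]; exact h)
  have hle : istar d σ' ≤ J := by
    obtain ⟨v, hv⟩ := h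
    by_contra hc
    have h2 := o05_istar_spec d σ' v
    have h3 := deg_mono (proc_mono σ' (not_le.1 hc).le) v
    rw [p1] at h3
    omega
  constructor
  · unfold KK
    rw [hist]
    exact hprocs _ hle
  · unfold KK
    rw [← p1]
    exact proc_mono σ' hle

end Pool.Agent.HC
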