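import Pool.Agent.Lib.MP_ec42c8_pr.KDefs
import Pool.Agent.Lib.MP_ec42c8_pr.O05

/-!
# K01 : the law of the last graph of maximum degree at most d

PROOF.  Let `K` have all degrees at most `d`, `k = card K`.  `KK d σ = K` iff the first `k` edges of `σ` are
those of `K` and the next edge is one of the `bK d K` pairs outside `K` whose addition creates a degree
larger than `d` (then `istar d σ = k`; there is a next edge because the complete graph has degrees
`n - 1 > d`, so `K` is not complete).  The number of such orderings is
`k! · bK d K · (N - k - 1)!` with `N = NE n`: an ordering is a bijection `Fin N ≃ Edge n`; those with the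
first `k` values in `K` and the value at `k` equal to a given `e ∉ K` are counted by the bijections of
the three blocks.  Sum over `K` (`av_fiber`); `KK d σ` always has degrees at most `d` (`deg_KK_le`).
-/

set_option autoImplicit false

namespace Pool.Agent.HC

open Finset
open scoped Classical

/-! ### Counting bijections with prescribed colours -/

lemma k01_fib {α β : Type} [Fintype α] [Fintype β] (f : α → Fin 3) (g : β → Fin 3)
    (h : ∀ c, Fintype.card {a // f a = c} = Fintype.card {b // g b = c}) :
    Fintype.card {σ : α ≃ β // g ∘ σ = f} = ∏ c, (Fintype.card {a // f a = c}).factorial := by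
  let σ₀ : α ≃ β := Equiv.ofFiberEquiv (f := f) (g := g) (fun c => Fintype.equivOfCardEq (h c))
  have h0 : ∀ a, g (σ₀ a) = f a := fun a => Equiv.ofFiberEquiv_map _ a
  rw [← DomMulAct.stabilizer_card]
  refine Fintype.card_congr
    { toFun := fun σ => ⟨σ.1.trans σ₀.symm, ?_⟩
      invFun := fun π => ⟨π.1.trans σ₀, ?_⟩
      left_inv := fun σ => ?_
      right_inv := fun π => ?_ }
  · funext a
    have h1 := h0 (σ₀.symm (σ.1 a))
    rw [Equiv.apply_symm_apply] at h1
    have h2 := congrFun σ.2 a
    simp only [Function.comp_apply, Equiv.trans_apply] at h2 ⊢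
    rw [← h1, h2]
  · funext a
    have h2 := congrFun π.2 a
    simp only [Function.comp_apply, Equiv.trans_apply] at h2 ⊢
    rw [h0, h2]
  · apply Subtype.ext
    ext a
    simp
  · apply Subtype.ext
    ext a
    simp

lemma k01_fin3 {α : Type} [Fintype α] (f : α → Fin 3) :
    Fintype.card α = ∑ c, Fintype.card {a // f a = c} := by
  rw [← Fintype.card_sigma]
  exact (Fintype.card_congr (Equiv.sigmaFiberEquiv f)).symm

lemma k01_card {n : ℕ} (K : Gr n) (e : Edge n) (he : e ∉ K) :
    (univ.filter (fun σ : Ord n => proc σ K.card = K ∧ (σ.symm e : ℕ) = K.card)).card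
      = K.card.factorial * (NE n - K.card - 1).factorial := by
  have hlt : K.card < NE n := by
    have h1 : (insert e K).card ≤ NE n := Finset.card_le_univ _
    rw [Finset.card_insert_of_notMem he] at h1
    omega
  set f : Fin (NE n) → Fin 3 := fun i => if (i : ℕ) < K.card then 0 else
    if (i : ℕ) = K.card then 1 else 2 with hf
  set g : Edge n → Fin 3 := fun x => if x ∈ K then 0 else if x = e then 1 else 2 with hg
  have f0 : Fintype.card {i // f i = 0} = K.card := by
    have h1 : ∀ i, f i = 0 ↔ (i : ℕ) < K.card := fun i => by
      simp only [hf]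
      split_ifs with h1 h2 <;> simp [h1]
    rw [Fintype.card_subtype, Finset.filter_congr fun i _ => h1 i]
    rw [Fin.card_filter_val_lt]
    omega
  have f1 : Fintype.card {i // f i = 1} = 1 := by
    have h1 : ∀ i, f i = 1 ↔ i = ⟨K.card, hlt⟩ := fun i => by
      have h0 : i = ⟨K.card, hlt⟩ ↔ (i : ℕ) = K.card := Fin.ext_iff
      rw [h0]
      simp only [hf]
      split_ifs with h1 h2
      · simp only [Fin.isValue, zero_ne_one, false_iff]
        omega
      · simp only [true_iff]
        exact h2
      · simp only [Fin.isValue, h2, iff_false]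
        decide
    rw [Fintype.card_subtype, Finset.filter_congr fun i _ => h1 i, Finset.filter_eq',
      if_pos (Finset.mem_univ _), Finset.card_singleton]
  have g0 : Fintype.card {x // g x = 0} = K.card := by
    have h1 : ∀ x, g x = 0 ↔ x ∈ K := fun x => by
      simp only [hg]
      split_ifs with h1 h2 <;> simp [h1]
    rw [Fintype.card_subtype, Finset.filter_congr fun i _ => h1 i]
    congr 1
    ext x
    simp
  have g1 : Fintype.card {x // g x = 1} = 1 := by
    have h1 : ∀ x, g x = 1 ↔ x = e := fun x => by
      simp only [hg]
      split_ifs with h1 h2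
      · simp only [Fin.isValue, zero_ne_one, false_iff]
        rintro rfl
        exact he h1
      · simp only [true_iff]
        exact h2
      · simp only [Fin.isValue, h2, iff_false]
        decide
    rw [Fintype.card_subtype, Finset.filter_congr fun i _ => h1 i, Finset.filter_eq',
      if_pos (Finset.mem_univ _), Finset.card_singleton]
  have hsf := k01_fin3 f
  have hsg := k01_fin3 g
  rw [Fin.sum_univ_three, f0, f1, Fintype.card_fin] at hsf
  rw [Fin.sum_univ_three, g0, g1] at hsg
  have hsg' : NE n = K.card + 1 + Fintype.card {x // g x = 2} := hsg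
  have h2 : Fintype.card {i // f i = 2} = NE n - K.card - 1 := by omega
  have h3 : ∀ c, Fintype.card {a // f a = c} = Fintype.card {b // g b = c} := by
    intro c
    fin_cases c
    · change Fintype.card {a // f a = 0} = Fintype.card {b // g b = 0}
      rw [f0, g0]
    · change Fintype.card {a // f a = 1} = Fintype.card {b // g b = 1}
      rw [f1, g1]
    · change Fintype.card {a // f a = 2} = Fintype.card {b // g b = 2}
      omega
  have h4 := k01_fib f g h3
  rw [Fin.prod_univ_three, f0, f1, h2, Nat.factorial_one, mul_one] at h4
  rw [← h4, Fintype.card_subtype]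
  congr 1
  refine Finset.filter_congr fun σ _ => ?_
  constructor
  · rintro ⟨h5, h6⟩
    funext i
    simp only [Function.comp_apply]
    have h7 : σ i ∈ K ↔ (i : ℕ) < K.card := by
      have h8 : σ i ∈ proc σ K.card ↔ (i : ℕ) < K.card := by
        unfold proc
        simp
      rwa [h5] at h8
    have h8 : σ i = e ↔ (i : ℕ) = K.card := by
      constructor
      · intro h9
        rw [← h6, ← h9, Equiv.symm_apply_apply]
      · intro h9
        have : i = σ.symm e := Fin.ext (by rw [h6, h9])
        rw [this, Equiv.apply_symm_apply]
    simp only [hf, hg, h7, h8]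
  · intro h5
    have h6 : ∀ x, g x = f (σ.symm x) := fun x => by
      have := congrFun h5 (σ.symm x)
      simp only [Function.comp_apply, Equiv.apply_symm_apply] at this
      exact this
    constructor
    · ext x
      have h7 := h6 x
      unfold proc
      simp only [hf, hg] at h7
      simp only [Finset.mem_filter, Finset.mem_univ, true_and]
      by_cases hx : x ∈ K
      · rw [if_pos hx] at h7
        refine ⟨fun _ => hx, fun _ => ?_⟩
        by_contra h8
        rw [if_neg h8] at h7
        split_ifs at h7 <;> simp at h7
      · rw [if_neg hx] at h7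
        refine ⟨fun h8 => ?_, fun h8 => absurd h8 hx⟩
        rw [if_pos h8] at h7
        split_ifs at h7 <;> simp at h7
    · have h7 := h6 e
      have hge : g e = 1 := by
        change (if e ∈ K then (0 : Fin 3) else if e = e then 1 else 2) = 1
        rw [if_neg he, if_pos rfl]
      rw [hge] at h7
      simp only [hf] at h7
      by_contra h8
      rw [if_neg h8] at h7
      split_ifs at h7 <;> simp at h7

/-! ### The last graph -/

lemma k01_proc_card {n : ℕ} (σ : Ord n) (i : ℕ) (hi : i ≤ NE n) : (proc σ i).card = i := by
  have h1 : proc σ i = (univ.filter (fun j : Fin (NE n) => (j : ℕ) < i)).map σ.toEmbedding := by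
    ext x
    unfold proc
    simp only [Finset.mem_filter, Finset.mem_univ, true_and, Finset.mem_map,
      Equiv.coe_toEmbedding]
    constructor
    · intro h
      exact ⟨σ.symm x, h, σ.apply_symm_apply x⟩
    · rintro ⟨j, hj, rfl⟩
      rwa [Equiv.symm_apply_apply]
  rw [h1, Finset.card_map, Fin.card_filter_val_lt]
  omega

lemma k01_proc_succ {n : ℕ} (σ : Ord n) (i : ℕ) (e : Edge n) (he : (σ.symm e : ℕ) = i) :
    proc σ (i + 1) = insert e (proc σ i) := by
  ext x
  unfold proc
  simp only [Finset.mem_filter, Finset.mem_univ, true_and, Finset.mem_insert]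
  constructor
  · intro h
    rcases Nat.lt_succ_iff_lt_or_eq.1 h with h1 | h1
    · exact Or.inr h1
    · left
      have : σ.symm x = σ.symm e := Fin.ext (by rw [h1, he])
      exact σ.symm.injective this
  · rintro (rfl | h)
    · omega
    · omega

lemma k01_full {n : ℕ} (d : ℕ) (hn : d + 2 ≤ n) (K : Gr n) (hK : ∀ v, deg K v ≤ d) :
    K.card < NE n := by
  by_contra h
  have h1 : K = Finset.univ := by
    refine Finset.eq_univ_of_card _ (le_antisymm (Finset.card_le_univ _) (not_lt.1 h))
  have hv : 0 < n := by omega
  have h2 := hK ⟨0, hv⟩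
  have h3 : n - 1 ≤ deg K ⟨0, hv⟩ := by
    rw [h1]
    unfold deg
    have h4 : ((univ.erase (⟨0, hv⟩ : Fin n)).attach.map
        ⟨fun y => mkE ⟨0, hv⟩ y.1 (Finset.ne_of_mem_erase y.2).symm, by
          intro y y' h
          have h5 := congrArg Subtype.val h
          simp only [mkE, Sym2.congr_right] at h5
          exact Subtype.ext h5⟩ : Finset (Edge n)) ⊆
        univ.filter (fun e : Edge n => (⟨0, hv⟩ : Fin n) ∈ e.1) := by
      intro e he
      simp only [Finset.mem_map, Function.Embedding.coeFn_mk] at he
      obtain ⟨y, _, rfl⟩ := he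
      simp [mkE]
    have h5 := Finset.card_le_card h4
    rw [Finset.card_map, Finset.card_attach, Finset.card_erase_of_mem (Finset.mem_univ _),
      Finset.card_univ, Fintype.card_fin] at h5
    exact h5
  omega

lemma k01_iff {n : ℕ} (d : ℕ) (hn : d + 2 ≤ n) (K : Gr n) (hK : ∀ v, deg K v ≤ d) (σ : Ord n) :
    KK d σ = K ↔ ∃ e ∈ univ.filter (fun e => e ∉ K ∧ ∃ v, d < deg (insert e K) v),
      (proc σ K.card = K ∧ (σ.symm e : ℕ) = K.card) := by
  have hP0 : ∀ v, deg (proc σ 0) v ≤ d := by
    intro v
    have : proc σ 0 = ∅ := by
      unfold proc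
      simp
    rw [this]
    simp [deg]
  constructor
  · intro h
    have h1 : istar d σ ≤ NE n := Nat.findGreatest_le _
    have h2 : istar d σ = K.card := by
      rw [← h]
      exact (k01_proc_card σ _ h1).symm
    have h3 : K.card < NE n := k01_full d hn K hK
    have h4 : proc σ K.card = K := by
      rw [← h2]
      exact h
    refine ⟨σ ⟨K.card, h3⟩, ?_, h4, by rw [Equiv.symm_apply_apply]⟩
    simp only [Finset.mem_filter, Finset.mem_univ, true_and]
    refine ⟨?_, ?_⟩
    · intro h5
      have h6 : σ ⟨K.card, h3⟩ ∈ proc σ K.card := by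
        rw [h4]
        exact h5
      unfold proc at h6
      simp at h6
    · have h5 : ¬ ∀ v, deg (proc σ (K.card + 1)) v ≤ d := by
        have := Nat.findGreatest_is_greatest (P := fun i => ∀ v, deg (proc σ i) v ≤ d)
          (n := NE n) (k := K.card + 1) (by
            change istar d σ < K.card + 1
            omega) h3
        exact this
      rw [k01_proc_succ σ K.card (σ ⟨K.card, h3⟩) (by rw [Equiv.symm_apply_apply]), h4] at h5
      push Not at h5
      exact h5
  · rintro ⟨e, he, h4, h5⟩
    simp only [Finset.mem_filter, Finset.mem_univ, true_and] at he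
    obtain ⟨he1, v, hv⟩ := he
    have h3 : K.card < NE n := k01_full d hn K hK
    have h6 : istar d σ = K.card := by
      unfold istar
      rw [Nat.findGreatest_eq_iff]
      refine ⟨h3.le, fun _ => ?_, fun j hj _ hall => ?_⟩
      · rw [h4]
        exact hK
      · have h7 := hall v
        have h8 : insert e K ⊆ proc σ j := by
          rw [← h4, ← k01_proc_succ σ _ e h5]
          exact proc_mono σ hj
        have h9 := deg_mono h8 v
        omega
    unfold KK
    rw [h6, h4]

lemma k01_pr {Ω : Type} [Fintype Ω] (P : Ω → Prop) [DecidablePred P] :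
    pr P = ((univ.filter P).card : ℝ) / (Fintype.card Ω : ℝ) := by
  rw [pr_eq_card]
  exact congrArg (fun s : Finset Ω => (s.card : ℝ) / (Fintype.card Ω : ℝ))
    (Finset.ext fun ω => by simp)

theorem K01 {n : ℕ} (d : ℕ) (hn : d + 2 ≤ n) (Ψ : Gr n → ℝ) :
    av (fun σ : Ord n => Ψ (KK d σ)) =
      ∑ K : Gr n, if (∀ v, deg K v ≤ d) then
        (bK d K : ℝ) * ((K.card.factorial * (NE n - K.card - 1).factorial : ℕ) : ℝ) /
          ((NE n).factorial : ℝ) * Ψ K else 0 := by
  rw [av_fiber]
  refine Finset.sum_congr rfl fun K _ => ?_
  split_ifs with hK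
  · congr 1
    rw [k01_pr]
    have h1 : univ.filter (fun σ : Ord n => KK d σ = K)
        = (univ.filter (fun e => e ∉ K ∧ ∃ v, d < deg (insert e K) v)).biUnion
          (fun e => univ.filter (fun σ : Ord n => proc σ K.card = K ∧
            (σ.symm e : ℕ) = K.card)) := by
      ext σ
      rw [Finset.mem_biUnion]
      simp only [Finset.mem_filter, Finset.mem_univ, true_and]
      rw [k01_iff d hn K hK σ]
      simp only [Finset.mem_filter, Finset.mem_univ, true_and]
    rw [h1, Finset.card_biUnion]
    · rw [Finset.sum_congr rfl fun e he => k01_card K e (Finset.mem_filter.1 he).2.1,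
        Finset.sum_const, smul_eq_mul]
      have h2 : Fintype.card (Ord n) = (NE n).factorial := by
        rw [Fintype.card_equiv (Fintype.equivFin (Edge n)).symm, Fintype.card_fin]
      rw [h2]
      unfold bK
      push_cast
      ring
    · intro e he e' he' hne
      rw [Function.onFun, Finset.disjoint_left]
      intro σ h2 h3
      apply hne
      have h4 := (Finset.mem_filter.1 h2).2.2
      have h5 := (Finset.mem_filter.1 h3).2.2
      exact σ.symm.injective (Fin.ext (by rw [h4, h5]))
  · have h1 : pr (fun σ : Ord n => KK d σ = K) = 0 := by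
      have h2 : ∀ σ : Ord n, (KK d σ = K) ↔ False := by
        intro σ
        refine iff_false_intro fun h => hK fun v => ?_
        rw [← h]
        exact deg_KK_le d σ v
      rw [pr_congr h2, pr_false]
    rw [h1, zero_mul]

end Pool.Agent.HC
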