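import Pool.Agent.Lib.MP_ec42c8_pr.O02

/-!
# K02 : after n^(1-γ) random edges some degree is larger than d

PROOF.  Let `a = aW γ n`, so `n ^ (1-γ) ≤ a ≤ n ^ (1-γ) + 1`, and `s = a / (d + 1)` (rounded down).
(1) The array has a loop (` (A t).1 = (A t).2`) with probability at most `a / n`, and two
times `t ≠ t'` with the same unordered pair with probability at most `2 a² / n²`.
(2) Let the blocks `j = 0, …, d` consist of `s` times each and let `X` be the number of choices of a
vertex `v` and of one time in every block with tail `v`: `X = ∑ v, ∏ j, N j v`.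
`av X = μ = n (s / n) ^ (d + 1)`, the blocks are independent and
`av (N j v * N j v') ≤ (s / n)²` for `v ≠ v'`, `≤ 2 s / n` for `v = v'`, so
`av X² ≤ μ² + 2 ^ (d+1) μ`, hence `pr (X = 0) ≤ 2 ^ (d+1) / μ → 0`.
If `X ≠ 0` some vertex is a tail `d + 1` times, and has degree at least `d + 1` unless (1).
-/

set_option autoImplicit false

namespace Pool.Agent.HC

open Finset
open scoped Classical

theorem k02_inst {Ω : Type*} (I1 I2 : Fintype Ω) (f : Ω → ℝ) : @av Ω I1 f = @av Ω I2 f := by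
  have : I1 = I2 := Subsingleton.elim _ _
  rw [this]

theorem k02_prod {k : ℕ} {α : Type*} [Fintype α] (φ : Fin k → α → ℝ) :
    av (fun f : Fin k → α => ∏ i, φ i (f i)) = ∏ i, av (φ i) :=
  (k02_inst _ _ _).trans (av_prod_fun φ)

theorem k02_one {β : Type*} [Fintype β] [Nonempty β] {s : ℕ} (t : Fin s) (f : β → ℝ) :
    av (fun w : Fin s → β => f (w t)) = av f := by
  have h1 := av_restrict (ι := Fin s) (α := β) (T := Unit) (fun _ => t)
    (fun _ _ _ => rfl) (fun x => f (x ()))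
  refine (k02_inst _ _ _).trans (h1.trans ?_)
  exact (k02_inst _ _ _).trans (av_equiv (Equiv.funUnique Unit β) f)

theorem k02_two {β : Type*} [Fintype β] [Nonempty β] {s : ℕ} (t t' : Fin s) (h : t ≠ t')
    (f : β → β → ℝ) :
    av (fun w : Fin s → β => f (w t) (w t')) = av (fun x => av (fun y => f x y)) := by
  have hinj : Function.Injective (fun b : Bool => if b then t' else t) := by
    intro b b' hb
    cases b <;> cases b' <;> simp_all
  have h1 := av_restrict (ι := Fin s) (α := β) (T := Bool) (fun b => if b then t' else t)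
    hinj (fun x => f (x false) (x true))
  refine (k02_inst _ _ _).trans (h1.trans ?_)
  exact (k02_inst _ _ _).trans ((av_equiv (Equiv.boolArrowEquivProd β)
    (fun p : β × β => f p.1 p.2)).trans (av_prod _))

theorem k02_onep {β : Type*} [Fintype β] [Nonempty β] {s : ℕ} (t : Fin s) (E : β → Prop) :
    pr (fun w : Fin s → β => E (w t)) = pr E :=
  k02_one t (fun x => if E x then (1 : ℝ) else 0)

theorem k02_twop {β : Type*} [Fintype β] [Nonempty β] {s : ℕ} (t t' : Fin s) (h : t ≠ t')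
    (E : β → β → Prop) :
    pr (fun w : Fin s → β => E (w t) (w t')) = av (fun x => pr (fun y => E x y)) :=
  k02_two t t' h (fun x y => if E x y then (1 : ℝ) else 0)

theorem k02_pt {Ω : Type*} [Fintype Ω] (y0 : Ω) :
    pr (fun y : Ω => y = y0) = 1 / Fintype.card Ω := by
  simp [pr, av]

theorem k02_diag {Ω : Type*} [Fintype Ω] [Nonempty Ω] :
    pr (fun x : Ω × Ω => x.1 = x.2) = 1 / Fintype.card Ω := by
  have h1 : pr (fun x : Ω × Ω => x.1 = x.2) = av (fun a : Ω => pr (fun b : Ω => a = b)) :=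
    av_prod _
  rw [h1]
  have h2 : ∀ a : Ω, pr (fun b : Ω => a = b) = 1 / Fintype.card Ω := by
    intro a
    rw [← k02_pt a]
    exact pr_congr (fun b => eq_comm)
  rw [av_congr h2, av_const]

/-- the number of times with tail `v` -/
noncomputable def k02_N {n s : ℕ} (w : Fin s → Fin n × Fin n) (v : Fin n) : ℝ :=
  ∑ t, if (w t).1 = v then (1 : ℝ) else 0

theorem k02_tail {n : ℕ} (hn : 0 < n) (v : Fin n) :
    av (fun x : Fin n × Fin n => if x.1 = v then (1 : ℝ) else 0) = 1 / n := by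
  have : Nonempty (Fin n) := ⟨⟨0, hn⟩⟩
  rw [av_fst (fun x : Fin n => if x = v then (1 : ℝ) else 0)]
  simp [av]

theorem k02_meanN {n s : ℕ} (hn : 0 < n) (v : Fin n) :
    av (fun w : Fin s → Fin n × Fin n => k02_N w v) = s / n := by
  have : Nonempty (Fin n) := ⟨⟨0, hn⟩⟩
  unfold k02_N
  rw [av_sum]
  have h : ∀ t : Fin s, av (fun w : Fin s → Fin n × Fin n =>
      if (w t).1 = v then (1 : ℝ) else 0) = 1 / n := fun t =>
    (k02_one t (fun x : Fin n × Fin n => if x.1 = v then (1 : ℝ) else 0)).trans (k02_tail hn v)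
  rw [Finset.sum_congr rfl (fun t _ => h t)]
  simp [div_eq_mul_inv]

theorem k02_sqN {n s : ℕ} (hn : 0 < n) (v v' : Fin n) :
    av (fun w : Fin s → Fin n × Fin n => k02_N w v * k02_N w v') ≤
      (if v = v' then (s : ℝ) / n else 0) + ((s : ℝ) / n) ^ 2 := by
  have : Nonempty (Fin n) := ⟨⟨0, hn⟩⟩
  have hn0 : (0 : ℝ) < n := by exact_mod_cast hn
  have h1 : ∀ w : Fin s → Fin n × Fin n, k02_N w v * k02_N w v' =
      ∑ t, ∑ t', (if (w t).1 = v then (1 : ℝ) else 0) * (if (w t').1 = v' then (1 : ℝ) else 0) := by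
    intro w
    unfold k02_N
    rw [Finset.sum_mul_sum]
  rw [av_congr h1, av_sum]
  have h2 : ∀ t t' : Fin s, av (fun w : Fin s → Fin n × Fin n =>
      (if (w t).1 = v then (1 : ℝ) else 0) * (if (w t').1 = v' then (1 : ℝ) else 0)) ≤
      (if t = t' then (if v = v' then 1 / (n : ℝ) else 0) else 0) + (1 / (n : ℝ)) ^ 2 := by
    intro t t'
    by_cases ht : t = t'
    · subst ht
      rw [if_pos rfl]
      have h3 := k02_one t (fun x : Fin n × Fin n =>
        (if x.1 = v then (1 : ℝ) else 0) * (if x.1 = v' then (1 : ℝ) else 0))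
      rw [h3]
      by_cases hv : v = v'
      · subst hv
        rw [if_pos rfl, ← k02_tail hn v]
        have h4 : ∀ x : Fin n × Fin n, (if x.1 = v then (1 : ℝ) else 0) *
            (if x.1 = v then (1 : ℝ) else 0) = if x.1 = v then (1 : ℝ) else 0 := by
          intro x
          split_ifs <;> simp
        rw [av_congr h4]
        have : (0 : ℝ) ≤ (av (fun x : Fin n × Fin n => if x.1 = v then (1 : ℝ) else 0)) ^ 2 :=
          sq_nonneg _
        linarith
      · rw [if_neg hv]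
        have h4 : ∀ x : Fin n × Fin n, (if x.1 = v then (1 : ℝ) else 0) *
            (if x.1 = v' then (1 : ℝ) else 0) = 0 := by
          intro x
          by_cases hx : x.1 = v
          · rw [if_neg (c := x.1 = v') (fun h => hv (hx.symm.trans h)), mul_zero]
          · rw [if_neg hx, zero_mul]
        rw [av_congr h4, av_const]
        positivity
    · rw [if_neg ht, zero_add]
      have h3 := k02_two t t' ht (fun x y : Fin n × Fin n =>
        (if x.1 = v then (1 : ℝ) else 0) * (if y.1 = v' then (1 : ℝ) else 0))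
      rw [h3]
      simp only [av_mul_left, av_mul_right]
      rw [k02_tail hn, k02_tail hn, pow_two]
  have h5 : ∑ t : Fin s, av (fun w : Fin s → Fin n × Fin n => ∑ t',
      (if (w t).1 = v then (1 : ℝ) else 0) * (if (w t').1 = v' then (1 : ℝ) else 0)) ≤
      ∑ t : Fin s, ∑ t' : Fin s, ((if t = t' then (if v = v' then 1 / (n : ℝ) else 0) else 0) +
        (1 / (n : ℝ)) ^ 2) := by
    refine Finset.sum_le_sum (fun t _ => ?_)
    rw [av_sum]
    exact Finset.sum_le_sum (fun t' _ => h2 t t')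
  refine h5.trans (le_of_eq ?_)
  simp only [Finset.sum_add_distrib, Finset.sum_ite_eq, Finset.mem_univ, if_true,
    Finset.sum_const, Finset.card_univ, Fintype.card_fin, nsmul_eq_mul]
  split_ifs <;> ring

/-- the number of choices of a vertex and of one time in every block with this tail -/
noncomputable def k02_X {n d s : ℕ} (y : Fin (d + 1) → Fin s → Fin n × Fin n) : ℝ :=
  ∑ v, ∏ j, k02_N (y j) v

theorem k02_meanX {n d s : ℕ} (hn : 0 < n) :
    av (fun y : Fin (d + 1) → Fin s → Fin n × Fin n => k02_X y) =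
      n * ((s : ℝ) / n) ^ (d + 1) := by
  unfold k02_X
  rw [av_sum]
  have h : ∀ v : Fin n, av (fun y : Fin (d + 1) → Fin s → Fin n × Fin n =>
      ∏ j, k02_N (y j) v) = ((s : ℝ) / n) ^ (d + 1) := by
    intro v
    rw [k02_prod (fun (_ : Fin (d + 1)) (w : Fin s → Fin n × Fin n) => k02_N w v)]
    rw [Finset.prod_const, k02_meanN hn, Finset.card_univ, Fintype.card_fin]
  rw [Finset.sum_congr rfl (fun v _ => h v)]
  simp

theorem k02_sqX {n d s : ℕ} (hn : 0 < n) (hs : s ≤ n) :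
    av (fun y : Fin (d + 1) → Fin s → Fin n × Fin n => k02_X y * k02_X y) ≤
      (n * ((s : ℝ) / n) ^ (d + 1)) ^ 2 + 2 ^ (d + 1) * (n * ((s : ℝ) / n) ^ (d + 1)) := by
  have hn0 : (0 : ℝ) < n := by exact_mod_cast hn
  have hs1 : (s : ℝ) / n ≤ 1 := by
    rw [div_le_one hn0]
    exact_mod_cast hs
  have hs0 : 0 ≤ (s : ℝ) / n := by positivity
  have h1 : ∀ y : Fin (d + 1) → Fin s → Fin n × Fin n, k02_X y * k02_X y =
      ∑ v, ∑ v', ∏ j, (k02_N (y j) v * k02_N (y j) v') := by
    intro y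
    unfold k02_X
    rw [Finset.sum_mul_sum]
    simp only [Finset.prod_mul_distrib]
  rw [av_congr h1, av_sum]
  have h2 : ∀ v v' : Fin n, av (fun y : Fin (d + 1) → Fin s → Fin n × Fin n =>
      ∏ j, (k02_N (y j) v * k02_N (y j) v')) ≤
      (if v = v' then (2 * ((s : ℝ) / n)) ^ (d + 1) else 0) + (((s : ℝ) / n) ^ 2) ^ (d + 1) := by
    intro v v'
    rw [k02_prod (fun (_ : Fin (d + 1)) (w : Fin s → Fin n × Fin n) => k02_N w v * k02_N w v')]
    rw [Finset.prod_const, Finset.card_univ, Fintype.card_fin]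
    have h3 := k02_sqN (s := s) hn v v'
    have h4 : 0 ≤ av (fun w : Fin s → Fin n × Fin n => k02_N w v * k02_N w v') := by
      refine av_nonneg (fun w => mul_nonneg ?_ ?_) <;>
      · unfold k02_N
        exact Finset.sum_nonneg (fun t _ => by split_ifs <;> norm_num)
    by_cases hv : v = v'
    · rw [if_pos hv] at h3 ⊢
      have h5 : (s : ℝ) / n + ((s : ℝ) / n) ^ 2 ≤ 2 * ((s : ℝ) / n) := by nlinarith
      have h6 := pow_le_pow_left₀ h4 (h3.trans h5) (d + 1)
      have h7 : 0 ≤ (((s : ℝ) / n) ^ 2) ^ (d + 1) := by positivity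
      linarith
    · rw [if_neg hv] at h3 ⊢
      rw [zero_add] at h3 ⊢
      exact pow_le_pow_left₀ h4 h3 (d + 1)
  have h5 : ∑ v : Fin n, av (fun y : Fin (d + 1) → Fin s → Fin n × Fin n => ∑ v',
      ∏ j, (k02_N (y j) v * k02_N (y j) v')) ≤
      ∑ v : Fin n, ∑ v' : Fin n, ((if v = v' then (2 * ((s : ℝ) / n)) ^ (d + 1) else 0) +
        (((s : ℝ) / n) ^ 2) ^ (d + 1)) := by
    refine Finset.sum_le_sum (fun v _ => ?_)
    rw [av_sum]
    exact Finset.sum_le_sum (fun v' _ => h2 v v')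
  refine h5.trans (le_of_eq ?_)
  simp only [Finset.sum_add_distrib, Finset.sum_ite_eq, Finset.mem_univ, if_true,
    Finset.sum_const, Finset.card_univ, Fintype.card_fin, nsmul_eq_mul]
  rw [mul_pow, mul_pow, ← pow_mul, ← pow_mul, mul_comm 2 (d + 1)]
  ring

/-- second moment bound -/
theorem k02_zero {n d s : ℕ} (hn : 0 < n) (hs : s ≤ n) (hs0 : 0 < s) :
    pr (fun y : Fin (d + 1) → Fin s → Fin n × Fin n => k02_X y = 0) ≤
      2 ^ (d + 1) / (n * ((s : ℝ) / n) ^ (d + 1)) := by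
  have hn0 : (0 : ℝ) < n := by exact_mod_cast hn
  have hs0' : (0 : ℝ) < s := by exact_mod_cast hs0
  set μ : ℝ := n * ((s : ℝ) / n) ^ (d + 1) with hμ
  have hμ0 : 0 < μ := by positivity
  have : Nonempty (Fin n) := ⟨⟨0, hn⟩⟩
  have h1 : pr (fun y : Fin (d + 1) → Fin s → Fin n × Fin n => k02_X y = 0) ≤
      pr (fun y : Fin (d + 1) → Fin s → Fin n × Fin n => μ ^ 2 ≤ (k02_X y - μ) ^ 2) := by
    refine pr_mono (fun y hy => ?_)
    rw [hy]
    nlinarith
  refine h1.trans ((markov _ (fun y => sq_nonneg _) (by positivity)).trans ?_)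
  have h2 : av (fun y : Fin (d + 1) → Fin s → Fin n × Fin n => (k02_X y - μ) ^ 2) ≤
      2 ^ (d + 1) * μ := by
    have h3 : ∀ y : Fin (d + 1) → Fin s → Fin n × Fin n, (k02_X y - μ) ^ 2 =
        (k02_X y * k02_X y + (-(2 * μ)) * k02_X y) + μ ^ 2 := by
      intro y
      ring
    rw [av_congr h3, av_add, av_add, av_mul_left, av_const, k02_meanX hn, ← hμ]
    have h4 := k02_sqX (d := d) hn hs
    rw [← hμ] at h4
    nlinarith
  calc av (fun y : Fin (d + 1) → Fin s → Fin n × Fin n => (k02_X y - μ) ^ 2) / μ ^ 2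
      ≤ 2 ^ (d + 1) * μ / μ ^ 2 := div_le_div_of_nonneg_right h2 (by positivity)
    _ = 2 ^ (d + 1) / μ := by field_simp

/-- the blocks -/
def k02_c {d s a : ℕ} (h : (d + 1) * s ≤ a) (t : Fin (d + 1) × Fin s) : Fin a :=
  Fin.castLE h (finProdFinEquiv t)

theorem k02_c_inj {d s a : ℕ} (h : (d + 1) * s ≤ a) :
    Function.Injective (k02_c (d := d) (s := s) h) := by
  intro t t' htt
  exact finProdFinEquiv.injective (Fin.castLE_injective h htt)

/-- transfer of the bound to the array -/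
theorem k02_zero' {n d s a : ℕ} (hn : 0 < n) (hs : s ≤ n) (hs0 : 0 < s)
    (h : (d + 1) * s ≤ a) :
    pr (fun A : Fin a → Fin n × Fin n => k02_X (fun j t => A (k02_c h (j, t))) = 0) ≤
      2 ^ (d + 1) / (n * ((s : ℝ) / n) ^ (d + 1)) := by
  have : Nonempty (Fin n) := ⟨⟨0, hn⟩⟩
  refine le_trans (le_of_eq ?_) (k02_zero hn hs hs0)
  unfold pr
  have h1 := av_restrict (ι := Fin a) (α := Fin n × Fin n) (k02_c (d := d) (s := s) h)
    (k02_c_inj h) (fun x => if k02_X (fun j t => x (j, t)) = 0 then (1 : ℝ) else 0)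
  refine (k02_inst _ _ _).trans (h1.trans ?_)
  exact (k02_inst _ _ _).trans (av_equiv (Equiv.curry (Fin (d + 1)) (Fin s) (Fin n × Fin n))
    (fun y => if k02_X y = 0 then (1 : ℝ) else 0))

theorem k02_loop {n a : ℕ} (hn : 0 < n) :
    pr (fun A : Fin a → Fin n × Fin n => ∃ t, (A t).1 = (A t).2) ≤ a / n := by
  have : Nonempty (Fin n) := ⟨⟨0, hn⟩⟩
  have hn0 : (0 : ℝ) < n := by exact_mod_cast hn
  have h1 : pr (fun A : Fin a → Fin n × Fin n => ∃ t, (A t).1 = (A t).2) ≤
      pr (fun A : Fin a → Fin n × Fin n => ∃ t ∈ (Finset.univ : Finset (Fin a)),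
        (A t).1 = (A t).2) :=
    pr_mono (fun A ⟨t, ht⟩ => ⟨t, Finset.mem_univ _, ht⟩)
  refine h1.trans ((pr_exists_le _ _).trans ?_)
  have h2 : ∀ t : Fin a, pr (fun A : Fin a → Fin n × Fin n => (A t).1 = (A t).2) = 1 / n := by
    intro t
    rw [k02_onep t (fun x : Fin n × Fin n => x.1 = x.2), k02_diag, Fintype.card_fin]
  rw [Finset.sum_congr rfl (fun t _ => h2 t)]
  simp [div_eq_mul_inv]

theorem k02_rep {n a : ℕ} (hn : 0 < n) :
    pr (fun A : Fin a → Fin n × Fin n => ∃ t t', t ≠ t' ∧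
      s((A t).1, (A t).2) = s((A t').1, (A t').2)) ≤ 2 * ((a : ℝ) / n) ^ 2 := by
  have : Nonempty (Fin n) := ⟨⟨0, hn⟩⟩
  have hn0 : (0 : ℝ) < n := by exact_mod_cast hn
  have h1 : pr (fun A : Fin a → Fin n × Fin n => ∃ t t', t ≠ t' ∧
      s((A t).1, (A t).2) = s((A t').1, (A t').2)) ≤
      pr (fun A : Fin a → Fin n × Fin n => ∃ t ∈ (Finset.univ : Finset (Fin a × Fin a)),
        t.1 ≠ t.2 ∧ s((A t.1).1, (A t.1).2) = s((A t.2).1, (A t.2).2)) :=
    pr_mono (fun A ⟨t, t', ht⟩ => ⟨(t, t'), Finset.mem_univ _, ht⟩)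
  refine h1.trans ((pr_exists_le _ _).trans ?_)
  have h2 : ∀ t : Fin a × Fin a, pr (fun A : Fin a → Fin n × Fin n =>
      t.1 ≠ t.2 ∧ s((A t.1).1, (A t.1).2) = s((A t.2).1, (A t.2).2)) ≤ 2 / (n : ℝ) ^ 2 := by
    rintro ⟨t, t'⟩
    by_cases ht : t = t'
    · have h3 : ∀ A : Fin a → Fin n × Fin n, ((t, t').1 ≠ (t, t').2 ∧
          s((A (t, t').1).1, (A (t, t').1).2) = s((A (t, t').2).1, (A (t, t').2).2)) → False :=
        fun A h => h.1 ht
      refine (pr_mono h3).trans ?_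
      rw [pr_false]
      positivity
    · have h3 : ∀ A : Fin a → Fin n × Fin n, ((t, t').1 ≠ (t, t').2 ∧
          s((A (t, t').1).1, (A (t, t').1).2) = s((A (t, t').2).1, (A (t, t').2).2)) →
          (A t' = A t ∨ A t' = (A t).swap) := by
        rintro A ⟨-, h⟩
        rw [Sym2.eq_iff] at h
        rcases h with ⟨h4, h5⟩ | ⟨h4, h5⟩
        · left
          exact Prod.ext h4.symm h5.symm
        · right
          exact Prod.ext h5.symm h4.symm
      refine (pr_mono h3).trans ((pr_or_le _ _).trans ?_)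
      have h4 : ∀ F : Fin n × Fin n → Fin n × Fin n,
          pr (fun A : Fin a → Fin n × Fin n => A t' = F (A t)) = 1 / (n : ℝ) ^ 2 := by
        intro F
        rw [k02_twop t t' ht (fun x y : Fin n × Fin n => y = F x)]
        have h5 : ∀ x : Fin n × Fin n, pr (fun y : Fin n × Fin n => y = F x) =
            1 / (n : ℝ) ^ 2 := by
          intro x
          rw [k02_pt, Fintype.card_prod, Fintype.card_fin]
          push_cast
          ring
        rw [av_congr h5, av_const]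
      have h6 := h4 id
      have h7 := h4 Prod.swap
      simp only [id] at h6
      rw [h6, h7]
      apply le_of_eq
      ring
  refine (Finset.sum_le_sum (fun t _ => h2 t)).trans (le_of_eq ?_)
  simp only [Finset.sum_const, Finset.card_univ, Fintype.card_prod, Fintype.card_fin,
    nsmul_eq_mul]
  push_cast
  ring

/-- large degree -/
theorem k02_deg {n d s a : ℕ} (h : (d + 1) * s ≤ a) (A : Fin a → Fin n × Fin n)
    (hloop : ¬ ∃ t, (A t).1 = (A t).2)
    (hrep : ¬ ∃ t t', t ≠ t' ∧ s((A t).1, (A t).2) = s((A t').1, (A t').2))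
    (hX : k02_X (fun j t => A (k02_c (d := d) h (j, t))) ≠ 0) : ∃ v, d < deg (bedges A) v := by
  push Not at hloop hrep
  unfold k02_X at hX
  obtain ⟨v, -, hv⟩ := Finset.exists_ne_zero_of_sum_ne_zero hX
  rw [Finset.prod_ne_zero_iff] at hv
  have h1 : ∀ j : Fin (d + 1), ∃ t : Fin s, (A (k02_c h (j, t))).1 = v := by
    intro j
    have h2 := hv j (Finset.mem_univ j)
    unfold k02_N at h2
    obtain ⟨t, -, ht⟩ := Finset.exists_ne_zero_of_sum_ne_zero h2
    refine ⟨t, ?_⟩
    by_contra hc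
    exact ht (if_neg hc)
  choose τ hτ using h1
  set c : Fin (d + 1) → Fin a := fun j => k02_c h (j, τ j) with hc
  have hcinj : Function.Injective c := by
    intro j j' hjj
    have := k02_c_inj h hjj
    exact congrArg Prod.fst this
  refine ⟨v, ?_⟩
  let e : Fin (d + 1) → Edge n := fun j => mkE (A (c j)).1 (A (c j)).2 (hloop (c j))
  have he : ∀ j, (e j).1 = s((A (c j)).1, (A (c j)).2) := fun j => rfl
  have heinj : Function.Injective e := by
    intro j j' hjj
    by_contra hne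
    have h3 : c j ≠ c j' := fun h => hne (hcinj h)
    exact hrep (c j) (c j') h3 (congrArg Subtype.val hjj)
  have h4 : (Finset.univ.image e) ⊆ (bedges A).filter (fun e => v ∈ e.1) := by
    intro x hx
    rw [Finset.mem_image] at hx
    obtain ⟨j, -, rfl⟩ := hx
    rw [Finset.mem_filter]
    constructor
    · unfold bedges
      rw [Finset.mem_filter]
      exact ⟨Finset.mem_univ _, c j, (he j).symm⟩
    · rw [he, Sym2.mem_iff]
      left
      exact (hτ j).symm
  have h5 := Finset.card_le_card h4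
  rw [Finset.card_image_of_injective _ heinj, Finset.card_univ, Fintype.card_fin] at h5
  exact h5

theorem k02_main {n d s a : ℕ} (hn : 0 < n) (hs : s ≤ n) (hs0 : 0 < s)
    (h : (d + 1) * s ≤ a) :
    pr (fun A : Fin a → Fin n × Fin n => ∀ v, deg (bedges A) v ≤ d) ≤
      (a : ℝ) / n + (2 * ((a : ℝ) / n) ^ 2 + 2 ^ (d + 1) / (n * ((s : ℝ) / n) ^ (d + 1))) := by
  have h1 : ∀ A : Fin a → Fin n × Fin n, (∀ v, deg (bedges A) v ≤ d) →
      ((∃ t, (A t).1 = (A t).2) ∨ ((∃ t t', t ≠ t' ∧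
        s((A t).1, (A t).2) = s((A t').1, (A t').2)) ∨
        k02_X (fun j t => A (k02_c (d := d) h (j, t))) = 0)) := by
    intro A hA
    by_contra hcon
    push Not at hcon
    obtain ⟨v, hv⟩ := k02_deg h A (fun ⟨t, ht⟩ => hcon.1 t ht)
      (fun ⟨t, t', htt, hs⟩ => hcon.2.1 t t' htt hs) hcon.2.2
    have := hA v
    omega
  refine (pr_mono h1).trans ((pr_or_le _ _).trans ?_)
  refine add_le_add (k02_loop hn) ((pr_or_le _ _).trans ?_)
  exact add_le_add (k02_rep hn) (k02_zero' hn hs hs0 h)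

theorem K02 (d : ℕ) (hd : 1 ≤ d) (γ ε : ℝ) (hγ : 0 < γ) (hγ' : γ * (d + 1) < 1) (hε : 0 < ε) :
    ∃ n₀ : ℕ, ∀ n ≥ n₀,
      pr (fun A : Fin (aW γ n) → Fin n × Fin n => ∀ v, deg (bedges A) v ≤ d) ≤ ε := by
  have hd1 : (1 : ℝ) ≤ d := by exact_mod_cast hd
  have hγ1 : 0 < 1 - γ := by nlinarith
  set K : ℝ := 2 ^ (d + 1) * (2 * ((d : ℝ) + 1)) ^ (d + 1) with hK
  have hK0 : 0 < K := by positivity
  have l1 : Filter.Tendsto (fun n : ℕ => (n : ℝ) ^ (-γ)) Filter.atTop (nhds 0) :=
    (tendsto_rpow_neg_atTop hγ).comp tendsto_natCast_atTop_atTop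
  have l2 : Filter.Tendsto (fun n : ℕ => (n : ℝ) ^ (1 - γ * (d + 1))) Filter.atTop
      Filter.atTop :=
    (tendsto_rpow_atTop (by linarith)).comp tendsto_natCast_atTop_atTop
  have l3 : Filter.Tendsto (fun n : ℕ => (n : ℝ) ^ (1 - γ)) Filter.atTop Filter.atTop :=
    (tendsto_rpow_atTop hγ1).comp tendsto_natCast_atTop_atTop
  have e1 := l1.eventually (ge_mem_nhds (show (0 : ℝ) < min 1 (ε / 20) by positivity))
  have e2 := l2.eventually (Filter.eventually_ge_atTop (K * 2 / ε))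
  have e3 := l3.eventually (Filter.eventually_ge_atTop (2 * ((d : ℝ) + 1)))
  obtain ⟨n₀, hn₀⟩ := Filter.eventually_atTop.1 ((e1.and e2).and e3)
  refine ⟨max n₀ 1, fun n hn => ?_⟩
  obtain ⟨⟨h1, h2⟩, h3⟩ := hn₀ n ((le_max_left _ _).trans hn)
  have hn1 : 1 ≤ n := (le_max_right _ _).trans hn
  have hn1' : (1 : ℝ) ≤ n := by exact_mod_cast hn1
  have hn0 : (0 : ℝ) < n := by linarith
  set b : ℝ := (n : ℝ) ^ (-γ) with hb
  have hb0 : 0 < b := Real.rpow_pos_of_pos hn0 _
  have hb1 : b ≤ 1 := h1.trans (min_le_left _ _)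
  have hbε : b ≤ ε / 20 := h1.trans (min_le_right _ _)
  have hbn : (n : ℝ) ^ (1 - γ) = b * n := by
    rw [hb, show (1 - γ) = -γ + 1 by ring, Real.rpow_add hn0, Real.rpow_one]
  have hbn2 : (n : ℝ) ^ (1 - γ * (d + 1)) = n * b ^ (d + 1) := by
    rw [hb, ← Real.rpow_natCast, ← Real.rpow_mul hn0.le, ← Real.rpow_one_add' hn0.le]
    · congr 1
      push_cast
      ring
    · push_cast
      nlinarith
  set a : ℕ := aW γ n with ha
  have ha1 : b * n ≤ a := by
    rw [← hbn, ha]
    exact Nat.le_ceil _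
  have ha2 : (a : ℝ) ≤ b * n + 1 := by
    rw [← hbn, ha]
    exact (Nat.ceil_lt_add_one (by positivity)).le
  rw [hbn] at h3
  have hbn1 : 1 ≤ b * n := by nlinarith
  have han : a ≤ n := by
    rw [ha]
    unfold aW
    rw [Nat.ceil_le, hbn]
    nlinarith
  set s : ℕ := a / (d + 1) with hs
  have hsa : (d + 1) * s ≤ a := Nat.mul_div_le a (d + 1)
  have hsn : s ≤ n := (Nat.div_le_self _ _).trans han
  have hda : d + 1 ≤ a := by
    have : ((d + 1 : ℕ) : ℝ) ≤ a := by
      push_cast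
      linarith
    exact_mod_cast this
  have hs0 : 0 < s := Nat.div_pos hda (by omega)
  have hs1 : b * n / (2 * ((d : ℝ) + 1)) ≤ s := by
    have h5 : a < (d + 1) * (s + 1) := by
      have := Nat.lt_mul_div_succ a (show 0 < d + 1 by omega)
      exact this
    have h6 : (a : ℝ) < ((d : ℝ) + 1) * (s + 1) := by exact_mod_cast h5
    rw [div_le_iff₀ (by positivity)]
    nlinarith
  have hmain := k02_main (d := d) (n := n) (by omega) hsn hs0 hsa
  refine hmain.trans ?_
  have t1 : (a : ℝ) / n ≤ 2 * b := by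
    rw [div_le_iff₀ hn0]
    linarith
  have t0 : 0 ≤ (a : ℝ) / n := by positivity
  have t2 : 2 * ((a : ℝ) / n) ^ 2 ≤ 8 * b := by nlinarith
  have t3 : 2 ^ (d + 1) / (n * ((s : ℝ) / n) ^ (d + 1)) ≤ ε / 2 := by
    have h5 : b / (2 * ((d : ℝ) + 1)) ≤ (s : ℝ) / n := by
      rw [le_div_iff₀ hn0]
      calc b / (2 * ((d : ℝ) + 1)) * n = b * n / (2 * ((d : ℝ) + 1)) := by ring
        _ ≤ s := hs1
    have h6 : n * (b / (2 * ((d : ℝ) + 1))) ^ (d + 1) ≤ n * ((s : ℝ) / n) ^ (d + 1) :=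
      mul_le_mul_of_nonneg_left (pow_le_pow_left₀ (by positivity) h5 _) hn0.le
    have h7 : 0 < n * (b / (2 * ((d : ℝ) + 1))) ^ (d + 1) := by positivity
    have h8 : 2 ^ (d + 1) / (n * ((s : ℝ) / n) ^ (d + 1)) ≤
        2 ^ (d + 1) / (n * (b / (2 * ((d : ℝ) + 1))) ^ (d + 1)) :=
      div_le_div_of_nonneg_left (by positivity) h7 h6
    refine h8.trans ?_
    rw [hbn2] at h2
    have h9 : (0 : ℝ) < n * b ^ (d + 1) := by positivity
    rw [div_le_iff₀ hε] at h2
    rw [div_le_iff₀ h7, div_pow]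
    have h10 : ε / 2 * (n * (b ^ (d + 1) / (2 * ((d : ℝ) + 1)) ^ (d + 1))) =
        (n * b ^ (d + 1) * ε) / (2 * (2 * ((d : ℝ) + 1)) ^ (d + 1)) := by
      field_simp
    rw [h10, le_div_iff₀ (by positivity)]
    calc 2 ^ (d + 1) * (2 * (2 * ((d : ℝ) + 1)) ^ (d + 1)) = K * 2 := by rw [hK]; ring
      _ ≤ n * b ^ (d + 1) * ε := h2
  linarith

end Pool.Agent.HC
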