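import Pool.Agent.Lib.MP_ec42c8_pr.O01
import Pool.Agent.Lib.MP_ec42c8_pr.O02

/-!
# O03 : the ordering of a random array is uniformly random

PROOF.  Let `I Φ` be the left side.  For a permutation `τ` of the edges, `I (fun σ => Φ (σ.trans τ)) =
I Φ`: let `act τ` be the permutation of `Fin n × Fin n` that fixes the diagonal and maps ` (x, y)`,
`x ≠ y`, to the ends of `τ {x, y}`, in increasing order if `x < y` and in decreasing order
otherwise (its inverse is `act τ⁻¹`).  If `B' t = act τ (B t)` and `ρ' = τ.symm.trans ρ` then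
`rk B' ρ' (τ e) = rk B ρ e`, that is `rk B' ρ' = rk B ρ ∘ τ.symm`, so by `ordOf_comp`
`ordOf (rk B' ρ') = (ordOf (rk B ρ)).trans τ`; the maps `B ↦ B'` and `ρ ↦ ρ'` are bijections
(`av_equiv`).  Hence `I Φ = av over τ of I (fun σ => Φ (σ.trans τ))`, exchange the averages
(`av_comm`); for a fixed `σ` the map `τ ↦ σ.trans τ` is a bijection from the permutations of
`Edge n` to `Ord n`, so the inner average is `av Φ`, and the average of a constant is the constant
(`av_const`; arrays exist because `1 ≤ n`, and `ρ` exists).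
-/

set_option autoImplicit false

namespace Pool.Agent.HC

open Finset
open scoped Classical

/-- the edge of an ordered pair -/
noncomputable def o03_l {n : ℕ} (p : Fin n × Fin n) : Option (Edge n) :=
  if h : p.1 ≠ p.2 then some (mkE p.1 p.2 h) else none

lemma o03_l_iff {n : ℕ} (p : Fin n × Fin n) (e : Edge n) :
    o03_l p = some e ↔ s(p.1, p.2) = e.1 := by
  unfold o03_l
  by_cases h : p.1 ≠ p.2
  · rw [dif_pos h, Option.some_inj]
    constructor
    · intro h'
      rw [← h']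
      rfl
    · intro h'
      exact Subtype.ext h'
  · rw [dif_neg h]
    constructor
    · intro h'
      exact absurd h' (by simp)
    · intro h'
      exfalso
      refine e.2 ?_
      rw [← h', Sym2.mk_isDiag_iff]
      exact not_not.1 h

lemma o03_card {n : ℕ} (e : Edge n) : Nat.card {p : Fin n × Fin n // o03_l p = some e} = 2 := by
  obtain ⟨e, he⟩ := e
  induction e using Sym2.inductionOn with
  | hf x y =>
    have hxy : x ≠ y := by
      rw [Sym2.mk_isDiag_iff] at he
      exact he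
    have h1 : {p : Fin n × Fin n | o03_l p = some ⟨s(x, y), he⟩} = {(x, y), (y, x)} := by
      ext p
      obtain ⟨a, b⟩ := p
      simp only [Set.mem_ofPred_eq, o03_l_iff, Sym2.eq_iff, Set.mem_insert_iff,
        Set.mem_singleton_iff, Prod.mk.injEq]
    have h2 : Nat.card {p : Fin n × Fin n // o03_l p = some ⟨s(x, y), he⟩} =
        Set.ncard {p : Fin n × Fin n | o03_l p = some ⟨s(x, y), he⟩} := rfl
    rw [h2, h1]
    exact Set.ncard_pair (fun h => hxy (Prod.mk.injEq _ _ _ _ ▸ h).1)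

lemma o03_exists_act {n : ℕ} (τ : Edge n ≃ Edge n) :
    ∃ g : (Fin n × Fin n) ≃ (Fin n × Fin n), ∀ p, o03_l (g p) = Option.map τ (o03_l p) := by
  have h1 : ∀ o : Option (Edge n), Nonempty ({p : Fin n × Fin n // o03_l p = o} ≃
      {p : Fin n × Fin n // o03_l p = Equiv.optionCongr τ o}) := by
    intro o
    refine ⟨Fintype.equivOfCardEq ?_⟩
    rw [← Nat.card_eq_fintype_card, ← Nat.card_eq_fintype_card]
    cases o with
    | none => rfl
    | some e =>
      have h2 : Equiv.optionCongr τ (some e) = some (τ e) := rfl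
      rw [h2, o03_card, o03_card]
  let F : ∀ o : Option (Edge n), {p : Fin n × Fin n // o03_l p = o} ≃
      {p : Fin n × Fin n // o03_l p = Equiv.optionCongr τ o} := fun o => (h1 o).some
  refine ⟨(Equiv.sigmaFiberEquiv (o03_l (n := n))).symm.trans
    ((Equiv.sigmaCongr (Equiv.optionCongr τ) F).trans (Equiv.sigmaFiberEquiv (o03_l (n := n)))), ?_⟩
  intro p
  exact ((F (o03_l p)) ⟨p, rfl⟩).2

/-- a permutation of the ordered pairs inducing `τ` -/
noncomputable def o03_act {n : ℕ} (τ : Edge n ≃ Edge n) : (Fin n × Fin n) ≃ (Fin n × Fin n) :=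
  (o03_exists_act τ).choose

lemma o03_act_iff {n : ℕ} (τ : Edge n ≃ Edge n) (p : Fin n × Fin n) (e : Edge n) :
    s((o03_act τ p).1, (o03_act τ p).2) = (τ e).1 ↔ s(p.1, p.2) = e.1 := by
  have h := (o03_exists_act τ).choose_spec p
  rw [← o03_l_iff, ← o03_l_iff]
  have h' : o03_l (o03_act τ p) = Option.map τ (o03_l p) := h
  rw [h']
  constructor
  · intro h2
    cases h3 : o03_l p with
    | none => rw [h3] at h2; exact absurd h2 (by simp)
    | some e' =>
      rw [h3, Option.map_some, Option.some_inj] at h2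
      rw [τ.injective h2]
  · intro h2
    rw [h2, Option.map_some]

lemma o03_rk {n m : ℕ} (τ : Edge n ≃ Edge n) (B : Fin m → Fin n × Fin n)
    (ρ : Edge n ≃ Fin (NE n)) :
    rk (fun t => o03_act τ (B t)) (τ.symm.trans ρ) = fun e => rk B ρ (τ.symm e) := by
  funext e
  have h1 : hitT (fun t => o03_act τ (B t)) e = hitT B (τ.symm e) := by
    ext t
    constructor
    · rintro ⟨h, h2⟩
      refine ⟨h, ?_⟩
      rw [← o03_act_iff τ, Equiv.apply_symm_apply]
      exact h2
    · rintro ⟨h, h2⟩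
      refine ⟨h, ?_⟩
      rw [← o03_act_iff τ, Equiv.apply_symm_apply] at h2
      exact h2
  unfold rk
  rw [h1]
  rfl

lemma o03_inst {Ω : Type*} (i1 i2 : Fintype Ω) (f : Ω → ℝ) : @av Ω i1 f = @av Ω i2 f := by
  rw [Subsingleton.elim i1 i2]

lemma o03_inv {n : ℕ} (m : ℕ) (Φ : Ord n → ℝ) (τ : Edge n ≃ Edge n) :
    av (fun B : Fin m → Fin n × Fin n =>
      av (fun ρ : Edge n ≃ Fin (NE n) => Φ ((ordOf (rk B ρ)).trans τ))) =
    av (fun B : Fin m → Fin n × Fin n =>
      av (fun ρ : Edge n ≃ Fin (NE n) => Φ (ordOf (rk B ρ)))) := by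
  have h1 := av_equiv (Equiv.arrowCongr (Equiv.refl (Fin m)) (o03_act τ))
    (fun B : Fin m → Fin n × Fin n =>
      av (fun ρ : Edge n ≃ Fin (NE n) => Φ (ordOf (rk B ρ))))
  rw [← h1]
  refine av_congr fun B => ?_
  have h2 := av_equiv (Equiv.equivCongr τ (Equiv.refl (Fin (NE n))))
    (fun ρ : Edge n ≃ Fin (NE n) =>
      Φ (ordOf (rk (Equiv.arrowCongr (Equiv.refl (Fin m)) (o03_act τ) B) ρ)))
  rw [← h2]
  refine av_congr fun ρ => ?_
  have h3 : rk (Equiv.arrowCongr (Equiv.refl (Fin m)) (o03_act τ) B)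
      (Equiv.equivCongr τ (Equiv.refl (Fin (NE n))) ρ) = fun e => rk B ρ (τ.symm e) :=
    o03_rk τ B ρ
  rw [h3, ordOf_comp (rk B ρ) (rk_injective B ρ) τ.symm]
  rfl

theorem O03 {n : ℕ} (hn : 1 ≤ n) (m : ℕ) (Φ : Ord n → ℝ) :
    av (fun B : Fin m → Fin n × Fin n =>
      av (fun ρ : Edge n ≃ Fin (NE n) => Φ (ordOf (rk B ρ)))) = av Φ := by
  have : Nonempty (Fin n) := ⟨⟨0, hn⟩⟩
  have hρ : Nonempty (Edge n ≃ Fin (NE n)) := ⟨Fintype.equivFin (Edge n)⟩
  have hτ : Nonempty (Edge n ≃ Edge n) := ⟨Equiv.refl _⟩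
  have h1 : av (fun _ : Edge n ≃ Edge n => av (fun B : Fin m → Fin n × Fin n =>
      av (fun ρ : Edge n ≃ Fin (NE n) => Φ (ordOf (rk B ρ))))) =
      av (fun B : Fin m → Fin n × Fin n =>
      av (fun ρ : Edge n ≃ Fin (NE n) => Φ (ordOf (rk B ρ)))) := av_const _
  rw [← h1]
  have h2 : av (fun _ : Edge n ≃ Edge n => av (fun B : Fin m → Fin n × Fin n =>
      av (fun ρ : Edge n ≃ Fin (NE n) => Φ (ordOf (rk B ρ))))) =
      av (fun τ : Edge n ≃ Edge n => av (fun B : Fin m → Fin n × Fin n =>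
      av (fun ρ : Edge n ≃ Fin (NE n) => Φ ((ordOf (rk B ρ)).trans τ)))) :=
    av_congr fun τ => (o03_inv m Φ τ).symm
  rw [h2, av_comm]
  have h3 : ∀ B : Fin m → Fin n × Fin n, av (fun τ : Edge n ≃ Edge n =>
      av (fun ρ : Edge n ≃ Fin (NE n) => Φ ((ordOf (rk B ρ)).trans τ))) = av Φ := by
    intro B
    rw [av_comm]
    have h4 : ∀ ρ : Edge n ≃ Fin (NE n), av (fun τ : Edge n ≃ Edge n =>
        Φ ((ordOf (rk B ρ)).trans τ)) = av Φ := by
      intro ρ
      exact av_equiv (Equiv.equivCongr (ordOf (rk B ρ)).symm (Equiv.refl (Edge n))) Φ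
    rw [av_congr h4, av_const]
  rw [av_congr h3, av_const]

end Pool.Agent.HC
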