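import Pool.Agent.Lib.MP_ec42c8_pr.K02
import Pool.Agent.Lib.MP_ec42c8_pr.O03
import Pool.Agent.Lib.MP_ec42c8_pr.O05

/-!
# K03 : the last graph of maximum degree at most d is small

PROOF.  By `O03` the probability is that of `aW γ n < card (KK d (ordOf (rk A ρ)))` for a random array `A`
of length `aW γ n` and random `ρ`.  If some degree of `bedges A` is larger than `d` then
`KK d (ordOf (rk A ρ)) ⊆ bedges A` (`O05`), which has at most `aW γ n` elements (`card_bedges_le`).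
So the probability is at most that of `K02`.
`K03b`: for every `Φ` with values in `[0,1]` the average of `Φ (KK d (ordOf (rk A ρ₀)))` over `A` differs from
the average of `Φ (KK d σ)` over `σ` by at most the probability of `K02`: by `O03` the latter is the average
over `A` and `ρ` of `Φ (KK d (ordOf (rk A ρ)))`, and by `O05` (with an empty second array, or directly)
`KK d (ordOf (rk A ρ)) = KK d (ordOf (rk A ρ₀))` if some degree of `bedges A` is larger than `d`.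
(`O05` gives `KK d (ordOf (rk (app A B) ρ)) = KK d (ordOf (rk A ρ'))` for all `ρ, ρ'`; apply it twice.)
-/

set_option autoImplicit false

namespace Pool.Agent.HC

open Finset
open scoped Classical

theorem k03_sub {n a : ℕ} (d : ℕ) (A : Fin a → Fin n × Fin n) (ρ : Edge n ≃ Fin (NE n))
    (h : ¬ ∀ v, deg (bedges A) v ≤ d) : KK d (ordOf (rk A ρ)) ⊆ bedges A := by
  push Not at h
  exact (O05 d A (Fin.elim0 : Fin 0 → Fin n × Fin n) ρ ρ h).2

theorem k03_eq {n a : ℕ} (d : ℕ) (A : Fin a → Fin n × Fin n) (ρ ρ₀ : Edge n ≃ Fin (NE n))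
    (h : ¬ ∀ v, deg (bedges A) v ≤ d) :
    KK d (ordOf (rk A ρ₀)) = KK d (ordOf (rk A ρ)) := by
  push Not at h
  have h1 := (O05 d A (Fin.elim0 : Fin 0 → Fin n × Fin n) ρ ρ₀ h).1
  have h2 := (O05 d A (Fin.elim0 : Fin 0 → Fin n × Fin n) ρ ρ h).1
  rw [← h1, h2]

theorem K03 (d : ℕ) (hd : 1 ≤ d) (γ ε : ℝ) (hγ : 0 < γ) (hγ' : γ * (d + 1) < 1) (hε : 0 < ε) :
    ∃ n₀ : ℕ, ∀ n ≥ n₀, pr (fun σ : Ord n => aW γ n < (KK d σ).card) ≤ ε := by
  obtain ⟨n₀, hn₀⟩ := K02 d hd γ ε hγ hγ' hε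
  refine ⟨max n₀ 1, fun n hn => ?_⟩
  have h1 := hn₀ n ((le_max_left _ _).trans hn)
  refine le_trans ?_ h1
  unfold pr
  rw [← O03 ((le_max_right _ _).trans hn) (aW γ n)]
  refine av_mono (fun A => ?_)
  by_cases hA : ∀ v, deg (bedges A) v ≤ d
  · rw [if_pos hA]
    exact av_le_of_nonneg zero_le_one (fun ρ => by split_ifs <;> norm_num)
  · rw [if_neg hA]
    refine av_le_of_nonneg le_rfl (fun ρ => ?_)
    rw [if_neg]
    have h2 := (Finset.card_le_card (k03_sub d A ρ hA)).trans (card_bedges_le A)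
    omega

theorem K03b (d : ℕ) (hd : 1 ≤ d) (γ ε : ℝ) (hγ : 0 < γ) (hγ' : γ * (d + 1) < 1) (hε : 0 < ε) :
    ∃ n₀ : ℕ, ∀ n ≥ n₀, ∀ (ρ₀ : Edge n ≃ Fin (NE n)) (Φ : Gr n → ℝ), Unit01 Φ →
      |av (fun A : Fin (aW γ n) → Fin n × Fin n => Φ (KK d (ordOf (rk A ρ₀)))) -
        av (fun σ : Ord n => Φ (KK d σ))| ≤ ε := by
  obtain ⟨n₀, hn₀⟩ := K02 d hd γ ε hγ hγ' hε
  refine ⟨max n₀ 1, fun n hn ρ₀ Φ hΦ => ?_⟩
  have h1 := hn₀ n ((le_max_left _ _).trans hn)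
  refine le_trans ?_ h1
  have hne : Nonempty (Edge n ≃ Fin (NE n)) := ⟨ρ₀⟩
  rw [← O03 ((le_max_right _ _).trans hn) (aW γ n) (fun σ : Ord n => Φ (KK d σ))]
  refine abs_av_sub_le _ _ (fun A => hΦ _) (fun A => ⟨av_nonneg (fun ρ => (hΦ _).1),
    av_le_const (fun ρ => (hΦ _).2)⟩) _ (fun A hA => ?_)
  have h2 : ∀ ρ : Edge n ≃ Fin (NE n), Φ (KK d (ordOf (rk A ρ))) =
      Φ (KK d (ordOf (rk A ρ₀))) := fun ρ => by rw [k03_eq d A ρ ρ₀ hA]
  rw [av_congr h2, av_const]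

end Pool.Agent.HC
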