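import Pool.Agent.Lib.MP_ec42c8_pr.F01

/-!
# K04 : Beta integrals

`K04a`: `∫ p in 0..1, p ^ k (1 - p) ^ l = k! l! / (k + l + 1)!` (induction on `l` with integration by parts,
or `Complex.betaIntegral`), with `l = N - k - 1`.
`K04b`: `∫ p in P..1, p ^ k (1-p) ^ l ≤ (1/P) ∫ p in 0..1, p ^ (k+1) (1-p) ^ l
= (1/P) (k+1)! l! / (k+l+2)! = (k+1) / (P (k+l+2)) · ∫ p in 0..1, p ^ k (1-p) ^ l`; with
`k + l + 1 = N`.
-/

set_option autoImplicit false

namespace Pool.Agent.HC

open Finset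
open scoped Classical

lemma k04_cont (k l : ℕ) : Continuous fun p : ℝ => p ^ k * (1 - p) ^ l := by fun_prop

lemma k04_rec (k l : ℕ) :
    ((k : ℝ) + 1) * ∫ p in (0 : ℝ)..1, p ^ k * (1 - p) ^ (l + 1) =
      ((l : ℝ) + 1) * ∫ p in (0 : ℝ)..1, p ^ (k + 1) * (1 - p) ^ l := by
  have h1 : ∀ x ∈ Set.uIcc (0 : ℝ) 1, HasDerivAt (fun p : ℝ => p ^ (k + 1) * (1 - p) ^ (l + 1))
      (((k : ℝ) + 1) * (x ^ k * (1 - x) ^ (l + 1)) -
        ((l : ℝ) + 1) * (x ^ (k + 1) * (1 - x) ^ l)) x := by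
    intro x _
    have a1 : HasDerivAt (fun p : ℝ => p ^ (k + 1)) (((k + 1 : ℕ) : ℝ) * x ^ k) x := by
      simpa using hasDerivAt_pow (k + 1) x
    have a2 : HasDerivAt (fun p : ℝ => (1 - p)) (-1) x := by
      simpa using (hasDerivAt_id x).const_sub 1
    have a3 : HasDerivAt (fun p : ℝ => (1 - p) ^ (l + 1))
        (((l + 1 : ℕ) : ℝ) * (1 - x) ^ l * (-1)) x := by
      simpa using a2.fun_pow (l + 1)
    have a4 := a1.mul a3
    refine a4.congr_deriv ?_
    push_cast
    ring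
  have h2 := intervalIntegral.integral_eq_sub_of_hasDerivAt h1
    ((Continuous.intervalIntegrable (by fun_prop) _ _))
  rw [intervalIntegral.integral_sub ((Continuous.intervalIntegrable (by fun_prop) _ _))
    ((Continuous.intervalIntegrable (by fun_prop) _ _)),
    intervalIntegral.integral_const_mul, intervalIntegral.integral_const_mul] at h2
  simp at h2
  linarith

lemma k04_eq (l : ℕ) : ∀ k : ℕ, ∫ p in (0 : ℝ)..1, p ^ k * (1 - p) ^ l =
    (k.factorial : ℝ) * (l.factorial : ℝ) / ((k + l + 1).factorial : ℝ) := by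
  induction l with
  | zero =>
    intro k
    simp only [pow_zero, mul_one, Nat.factorial_zero, Nat.cast_one, add_zero]
    rw [integral_pow]
    rw [Nat.factorial_succ]
    push_cast
    have : (k.factorial : ℝ) ≠ 0 := by exact_mod_cast k.factorial_ne_zero
    field_simp
    simp
  | succ l ih =>
    intro k
    have h1 := k04_rec k l
    rw [ih (k + 1)] at h1
    have h2 : (0 : ℝ) < (k : ℝ) + 1 := by positivity
    have h3 : k + 1 + l + 1 = k + (l + 1) + 1 := by ring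
    rw [h3] at h1
    have h4 : ((k + 1).factorial : ℝ) = ((k : ℝ) + 1) * (k.factorial : ℝ) := by
      rw [Nat.factorial_succ]; push_cast; ring
    have h5 : ((l + 1).factorial : ℝ) = ((l : ℝ) + 1) * (l.factorial : ℝ) := by
      rw [Nat.factorial_succ]; push_cast; ring
    rw [h4] at h1
    rw [h5]
    apply mul_left_cancel₀ h2.ne'
    rw [h1]
    ring

theorem K04a (N k : ℕ) (hk : k < N) :
    ∫ p in (0 : ℝ)..1, p ^ k * (1 - p) ^ (N - k - 1) =
      ((k.factorial * (N - k - 1).factorial : ℕ) : ℝ) / (N.factorial : ℝ) := by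
  rw [k04_eq]
  have : k + (N - k - 1) + 1 = N := by omega
  rw [this]
  push_cast
  ring

theorem K04b (N k : ℕ) (hk : k < N) (P : ℝ) (hP : 0 < P) (hP' : P ≤ 1) :
    ∫ p in P..1, p ^ k * (1 - p) ^ (N - k - 1) ≤
      ((k : ℝ) + 1) / (P * (N + 1)) *
        (((k.factorial * (N - k - 1).factorial : ℕ) : ℝ) / (N.factorial : ℝ)) := by
  obtain ⟨l, hl⟩ : ∃ l, l = N - k - 1 := ⟨_, rfl⟩
  have hN : N = k + l + 1 := by omega
  rw [← hl]
  have h1 : ∫ p in P..1, p ^ k * (1 - p) ^ l ≤ ∫ p in P..1, P⁻¹ * (p ^ (k + 1) * (1 - p) ^ l) := by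
    refine intervalIntegral.integral_mono_on hP'
      (Continuous.intervalIntegrable (by fun_prop) _ _)
      (Continuous.intervalIntegrable (by fun_prop) _ _) fun p hp => ?_
    have e1 : 0 ≤ p ^ k * (1 - p) ^ l :=
      mul_nonneg (pow_nonneg (hP.le.trans hp.1) _) (pow_nonneg (by linarith [hp.2]) _)
    have e2 : 1 ≤ P⁻¹ * p := by
      rw [inv_mul_eq_div, le_div_iff₀ hP]; linarith [hp.1]
    calc p ^ k * (1 - p) ^ l = 1 * (p ^ k * (1 - p) ^ l) := (one_mul _).symm
      _ ≤ (P⁻¹ * p) * (p ^ k * (1 - p) ^ l) := mul_le_mul_of_nonneg_right e2 e1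
      _ = P⁻¹ * (p ^ (k + 1) * (1 - p) ^ l) := by ring
  rw [intervalIntegral.integral_const_mul] at h1
  have h2 : ∫ p in P..1, p ^ (k + 1) * (1 - p) ^ l ≤
      ∫ p in (0 : ℝ)..1, p ^ (k + 1) * (1 - p) ^ l := by
    rw [← intervalIntegral.integral_add_adjacent_intervals (a := (0 : ℝ)) (b := P) (c := 1)
      (Continuous.intervalIntegrable (by fun_prop) _ _)
      (Continuous.intervalIntegrable (by fun_prop) _ _)]
    have : 0 ≤ ∫ p in (0 : ℝ)..P, p ^ (k + 1) * (1 - p) ^ l := by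
      refine intervalIntegral.integral_nonneg hP.le fun p hp => ?_
      exact mul_nonneg (pow_nonneg hp.1 _) (pow_nonneg (by linarith [hp.2]) _)
    linarith
  rw [k04_eq] at h2
  refine h1.trans ((mul_le_mul_of_nonneg_left h2 (inv_pos.2 hP).le).trans (le_of_eq ?_))
  have h3 : k + 1 + l + 1 = N + 1 := by omega
  rw [h3]
  have h4 : ((k + 1).factorial : ℝ) = ((k : ℝ) + 1) * (k.factorial : ℝ) := by
    rw [Nat.factorial_succ]; push_cast; ring
  have h5 : ((N + 1).factorial : ℝ) = ((N : ℝ) + 1) * (N.factorial : ℝ) := by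
    rw [Nat.factorial_succ]; push_cast; ring
  rw [h4, h5]
  have h6 : (N.factorial : ℝ) ≠ 0 := by exact_mod_cast N.factorial_ne_zero
  have h7 : (N : ℝ) + 1 ≠ 0 := by positivity
  push_cast
  field_simp

end Pool.Agent.HC
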