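import Pool.Agent.Lib.MP_ec42c8_pr.KDefs
import Pool.Agent.Lib.MP_ec42c8_pr.P03

/-!
# K08 : the ratio of the numbers of regular graphs

PROOF.  Let `k = card F`, `2 r = d n`.  `P03c`: `card (Reg n d F) ∏ v, (d - deg F v)!` is the number of simple
pairings of `Pt d F`, i.e. `PS d F` times `card (Pairing (Pt d F)) = (2 (r - k) - 1)!!` (`P01d`, `P03e`).  For
`F = ∅`: `card (Reg n d ∅) (d!) ^ n = PS d ∅ (2r - 1)!!`.  ` (2r-1)!! = Lk d n k · (2(r-k)-1)!!`, and
` (d - f)! / d! = 1 / descFactorial d f` for `f ≤ d`.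
-/

set_option autoImplicit false

namespace Pool.Agent.HC

open Finset
open scoped Classical

lemma k08_df_step (m : ℕ) (hm : 1 ≤ m) :
    ((2 * m - 1).doubleFactorial : ℝ) = (2 * (m : ℝ) - 1) * ((2 * (m - 1) - 1).doubleFactorial : ℝ) := by
  obtain ⟨m, rfl⟩ : ∃ m', m = m' + 1 := ⟨m - 1, by omega⟩
  rcases Nat.eq_zero_or_pos m with h | h
  · subst h
    norm_num [Nat.doubleFactorial]
  · obtain ⟨m, rfl⟩ : ∃ m', m = m' + 1 := ⟨m - 1, by omega⟩
    have h1 : 2 * (m + 1 + 1) - 1 = (2 * (m + 1) - 1) + 2 := by omega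
    have h2 : m + 1 + 1 - 1 = m + 1 := by omega
    rw [h1, h2, Nat.doubleFactorial_add_two]
    have h3 : 2 * (m + 1) - 1 + 2 = 2 * m + 3 := by omega
    rw [h3]
    push_cast
    ring

lemma k08_df (r k : ℕ) (hk : k ≤ r) :
    ((2 * r - 1).doubleFactorial : ℝ) = (∏ j ∈ Finset.range k, (2 * (r : ℝ) - 2 * j - 1)) *
      ((2 * (r - k) - 1).doubleFactorial : ℝ) := by
  induction k with
  | zero => simp
  | succ k ih =>
    rw [Finset.prod_range_succ, ih (by omega), k08_df_step (r - k) (by omega)]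
    have h1 : r - k - 1 = r - (k + 1) := by omega
    have h2 : ((r - k : ℕ) : ℝ) = (r : ℝ) - k := Nat.cast_sub (by omega)
    rw [h1, h2]
    ring

lemma k08_card_inst {α : Type*} (i j : Fintype α) : @Fintype.card α i = @Fintype.card α j := by
  rw [Subsingleton.elim i j]

lemma k08_card {n : ℕ} (d : ℕ) (F : Gr n) (r : ℕ) (h2 : Fintype.card (Pt d F) = 2 * r) :
    Fintype.card (Pairing (Pt d F)) = (2 * r - 1).doubleFactorial := by
  have h3' := P01d (P := Pt d F) r h2
  exact (k08_card_inst _ _).trans h3'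

lemma k08_PS {n : ℕ} (d : ℕ) (F : Gr n) (hF : ∀ v, deg F v ≤ d) (r : ℕ) (hr : d * n = 2 * r) :
    PS d F * ((2 * (r - F.card) - 1).doubleFactorial : ℝ) =
      ((Reg n d F).card : ℝ) * ∏ v, ((d - deg F v).factorial : ℝ) := by
  have h1 := P03e (d := d) F hF
  have h2 : Fintype.card (Pt d F) = 2 * (r - F.card) := by omega
  have h3 := k08_card d F (r - F.card) h2
  have h4 := P03c (d := d) F hF
  unfold PS
  rw [pr_eq_card, h4, h3]
  have h5 : ((2 * (r - F.card) - 1).doubleFactorial : ℝ) ≠ 0 := by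
    exact_mod_cast (Nat.doubleFactorial_pos _).ne'
  push_cast
  field_simp

theorem K08 {n : ℕ} (d : ℕ) (hd : 1 ≤ d) (hdn : Even (d * n)) (F : Gr n)
    (hF : ∀ v, deg F v ≤ d) :
    ((Reg n d ∅).card : ℝ) * PS d F =
      ((Reg n d F).card : ℝ) * Lk d n F.card * wK d F * PS d (∅ : Gr n) := by
  obtain ⟨r, hr⟩ := hdn
  have hr' : d * n = 2 * r := by omega
  have hE : ∀ v, deg (∅ : Gr n) v ≤ d := by
    intro v
    simp [deg]
  have h1 := k08_PS d F hF r hr'
  have h2 := k08_PS d (∅ : Gr n) hE r hr'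
  have h3 := P03e (d := d) F hF
  have hk : F.card ≤ r := by omega
  have h4 := k08_df r F.card hk
  have hL : Lk d n F.card = ∏ j ∈ Finset.range F.card, (2 * (r : ℝ) - 2 * j - 1) := by
    unfold Lk
    have : (d : ℝ) * n = 2 * r := by exact_mod_cast hr'
    rw [this]
  have h5 : ((2 * r - 1).doubleFactorial : ℝ) ≠ 0 := by
    exact_mod_cast (Nat.doubleFactorial_pos _).ne'
  have h6 : ((2 * (r - F.card) - 1).doubleFactorial : ℝ) ≠ 0 := by
    exact_mod_cast (Nat.doubleFactorial_pos _).ne'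
  have h7 : (∏ v : Fin n, ((d - deg F v).factorial : ℝ)) =
      wK d F * ∏ v : Fin n, ((d - deg (∅ : Gr n) v).factorial : ℝ) := by
    unfold wK
    rw [← Finset.prod_mul_distrib]
    refine Finset.prod_congr rfl fun v _ => ?_
    have h8 : deg (∅ : Gr n) v = 0 := by simp [deg]
    rw [h8, Nat.sub_zero]
    have h9 := Nat.factorial_mul_descFactorial (hF v)
    have h10 : ((Nat.descFactorial d (deg F v) : ℕ) : ℝ) ≠ 0 := by
      have : 0 < Nat.descFactorial d (deg F v) := Nat.descFactorial_pos.2 (hF v)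
      exact_mod_cast this.ne'
    rw [eq_comm, div_mul_eq_mul_div, one_mul, div_eq_iff h10]
    exact_mod_cast h9.symm
  rw [Finset.card_empty, Nat.sub_zero] at h2
  rw [h7] at h1
  rw [← hL] at h4
  set a := ((2 * (r - F.card) - 1).doubleFactorial : ℝ)
  set b := ((2 * r - 1).doubleFactorial : ℝ)
  set R0 := ((Reg n d ∅).card : ℝ)
  set R := ((Reg n d F).card : ℝ)
  set L := Lk d n F.card
  set P0 := ∏ v : Fin n, ((d - deg (∅ : Gr n) v).factorial : ℝ)
  have h11 : (R0 * PS d F) * a = (R * L * wK d F * PS d (∅ : Gr n)) * a := by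
    calc (R0 * PS d F) * a = R0 * (PS d F * a) := by ring
      _ = R0 * (R * (wK d F * P0)) := by rw [h1]
      _ = R * wK d F * (R0 * P0) := by ring
      _ = R * wK d F * (PS d (∅ : Gr n) * b) := by rw [h2]
      _ = R * wK d F * (PS d (∅ : Gr n) * (L * a)) := by rw [h4]
      _ = _ := by ring
  exact mul_right_cancel₀ h6 h11

end Pool.Agent.HC
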