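import Pool.Agent.Lib.MP_ec42c8_pr.KDefs
import Pool.Agent.Lib.MP_ec42c8_pr.P01

/-!
# K09 : the gauge transformation

PROOF.  `Bm m` is an orthogonal matrix: `∑ c, Bm m c x * Bm m c x' = 1` if `x = x'` and `0` otherwise.
Expand the right side: `∑ over c (invariant) of ∏ v ∑ x_v, f v x_v ∏ i, Bm m (c v i) (x_v i)
= ∑ over all x of (∏ v, f v (x v)) · (∑ over invariant c of ∏ over points p of Bm m (c p) (x p))`.
Choose one point of each pair (a transversal `T`); invariant `c` correspond to functions `T → Bool`, so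
the inner sum is `∏ over p ∈ T of ∑ c, Bm m c (x p) Bm m c (x (π p)) = ∏ over p ∈ T of 1{x p = x (π p)}`, which is
`1` if `x` is invariant and `0` otherwise.
-/

set_option autoImplicit false

namespace Pool.Agent.HC

open Finset
open scoped Classical

/-- The points that come before their partner. -/
abbrev k09T {P : Type} [Fintype P] (π : Equiv.Perm P) : Type :=
  {p : P // Fintype.equivFin P p < Fintype.equivFin P (π p)}

lemma k09_prod {P : Type} [Fintype P] (π : Equiv.Perm P) (hπ : ∀ p, π p ≠ p ∧ π (π p) = p)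
    (g : P → ℝ) : ∏ p, g p = ∏ p : k09T π, g p.1 * g (π p.1) := by
  rw [← Finset.prod_filter_mul_prod_filter_not Finset.univ
    (fun p => Fintype.equivFin P p < Fintype.equivFin P (π p))]
  have h2 : ∏ p ∈ univ.filter (fun p => ¬ (Fintype.equivFin P p < Fintype.equivFin P (π p))), g p
      = ∏ p ∈ univ.filter (fun p => Fintype.equivFin P p < Fintype.equivFin P (π p)), g (π p) := by
    refine Finset.prod_nbij' (fun p => π p) (fun p => π p) ?_ ?_ ?_ ?_ ?_
    · intro p hp
      simp only [Finset.mem_filter, Finset.mem_univ, true_and, not_lt] at hp ⊢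
      rw [(hπ p).2]
      refine lt_of_le_of_ne hp fun h => ?_
      exact (hπ p).1 ((Fintype.equivFin P).injective h)
    · intro p hp
      simp only [Finset.mem_filter, Finset.mem_univ, true_and, not_lt] at hp ⊢
      rw [(hπ p).2]
      exact hp.le
    · intro p _
      exact (hπ p).2
    · intro p _
      exact (hπ p).2
    · intro p _
      rw [(hπ p).2]
  rw [h2, ← Finset.prod_mul_distrib]
  exact Finset.prod_subtype _ (fun p => by simp) _

/-- Extension of a function on the transversal. -/
noncomputable def k09x {P : Type} [Fintype P] (π : Equiv.Perm P) (hπ : ∀ p, π p ≠ p ∧ π (π p) = p)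
    (c : k09T π → Bool) (p : P) : Bool :=
  if h : Fintype.equivFin P p < Fintype.equivFin P (π p) then c ⟨p, h⟩
  else c ⟨π p, by
    rw [(hπ p).2]
    exact lt_of_le_of_ne (not_lt.1 h) fun h' => (hπ p).1 ((Fintype.equivFin P).injective h')⟩

lemma k09x_inv {P : Type} [Fintype P] (π : Equiv.Perm P) (hπ : ∀ p, π p ≠ p ∧ π (π p) = p)
    (c : k09T π → Bool) (p : P) : k09x π hπ c (π p) = k09x π hπ c p := by
  unfold k09x
  by_cases h : Fintype.equivFin P p < Fintype.equivFin P (π p)
  · have h' : ¬ (Fintype.equivFin P (π p) < Fintype.equivFin P (π (π p))) := by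
      rw [(hπ p).2]
      exact not_lt.2 h.le
    rw [dif_pos h, dif_neg h']
    congr 1
    exact Subtype.ext (hπ p).2
  · have h' : Fintype.equivFin P (π p) < Fintype.equivFin P (π (π p)) := by
      rw [(hπ p).2]
      exact lt_of_le_of_ne (not_lt.1 h) fun h' => (hπ p).1 ((Fintype.equivFin P).injective h')
    rw [dif_neg h, dif_pos h']

lemma k09_sum {P : Type} [Fintype P] [DecidableEq P] (π : Equiv.Perm P) (hπ : ∀ p, π p ≠ p ∧ π (π p) = p)
    (B : Bool → Bool → ℝ) (hB : ∀ x x', ∑ c, B c x * B c x' = if x = x' then 1 else 0)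
    (x : P → Bool) :
    ∑ c ∈ univ.filter (fun c : P → Bool => ∀ p, c (π p) = c p), ∏ p, B (c p) (x p)
      = if (∀ p, x (π p) = x p) then 1 else 0 := by
  have h1 : ∑ c ∈ univ.filter (fun c : P → Bool => ∀ p, c (π p) = c p), ∏ p, B (c p) (x p)
      = ∑ c : k09T π → Bool, ∏ p : k09T π, B (c p) (x p.1) * B (c p) (x (π p.1)) := by
    refine Finset.sum_bij' (fun c _ => fun p : k09T π => c p.1) (fun c _ => k09x π hπ c)
      (fun c _ => Finset.mem_univ _) ?_ ?_ ?_ ?_
    · intro c _
      simp only [Finset.mem_filter, Finset.mem_univ, true_and]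
      exact k09x_inv π hπ c
    · intro c hc
      simp only [Finset.mem_filter, Finset.mem_univ, true_and] at hc
      funext p
      unfold k09x
      split_ifs with h
      · rfl
      · exact hc p
    · intro c _
      funext p
      simp only [k09x]
      rw [dif_pos p.2]
    · intro c hc
      simp only [Finset.mem_filter, Finset.mem_univ, true_and] at hc
      rw [k09_prod π hπ (fun p => B (c p) (x p))]
      refine Finset.prod_congr rfl fun p _ => ?_
      rw [hc p.1]
  rw [h1]
  have h2 := Finset.prod_univ_sum (fun _ : k09T π => (Finset.univ : Finset Bool))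
    (fun p b => B b (x p.1) * B b (x (π p.1)))
  rw [Fintype.piFinset_univ] at h2
  rw [← h2]
  have h3 : ∀ p : k09T π, ∑ b, B b (x p.1) * B b (x (π p.1))
      = if x p.1 = x (π p.1) then (1 : ℝ) else 0 := fun p => hB _ _
  rw [Finset.prod_congr rfl fun p _ => h3 p, Fintype.prod_ite_zero]
  have h4 : (∀ p : k09T π, x p.1 = x (π p.1)) ↔ (∀ p, x (π p) = x p) := by
    constructor
    · intro h p
      by_cases h' : Fintype.equivFin P p < Fintype.equivFin P (π p)
      · exact (h ⟨p, h'⟩).symm
      · have h'' : Fintype.equivFin P (π p) < Fintype.equivFin P (π (π p)) := by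
          rw [(hπ p).2]
          exact lt_of_le_of_ne (not_lt.1 h') fun h' =>
            (hπ p).1 ((Fintype.equivFin P).injective h')
        have := h ⟨π p, h''⟩
        simp only at this
        rwa [(hπ p).2] at this
    · intro h p
      exact (h p.1).symm
  simp only [Finset.prod_const_one, h4]

lemma k09_orth (m : ℝ) (x x' : Bool) :
    ∑ c, Bm m c x * Bm m c x' = if x = x' then 1 else 0 := by
  have h0 : (0 : ℝ) < 1 + m ^ 2 := by positivity
  have hs : Real.sqrt (1 + m ^ 2) * Real.sqrt (1 + m ^ 2) = 1 + m ^ 2 :=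
    Real.mul_self_sqrt h0.le
  have hs0 : Real.sqrt (1 + m ^ 2) ≠ 0 := (Real.sqrt_pos.2 h0).ne'
  rw [Fintype.sum_bool]
  unfold Bm
  cases x <;> cases x' <;> simp only [if_true, Bool.false_eq_true, if_false, Bool.true_eq_false]
  all_goals (rw [div_mul_div_comm, div_mul_div_comm, hs, ← add_div])
  · rw [div_eq_one_iff_eq h0.ne']
    ring
  · rw [div_eq_zero_iff]
    left
    ring
  · rw [div_eq_zero_iff]
    left
    ring
  · rw [div_eq_one_iff_eq h0.ne']
    ring

theorem K09 {n d : ℕ} (m : ℝ) (π : Pairing (Fin n × Fin d)) (f : Fin n → (Fin d → Bool) → ℝ) :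
    ∑ x ∈ Finset.univ.filter (fun x : Fin n → Fin d → Bool => InvP π x), ∏ v, f v (x v) =
      ∑ c ∈ Finset.univ.filter (fun c : Fin n → Fin d → Bool => InvP π c),
        ∏ v, hat m (f v) (c v) := by
  have h1 : ∀ c : Fin n → Fin d → Bool, ∏ v, hat m (f v) (c v)
      = ∑ x : Fin n → Fin d → Bool, (∏ v, f v (x v)) * ∏ p : Fin n × Fin d,
        Bm m (c p.1 p.2) (x p.1 p.2) := by
    intro c
    unfold hat
    rw [Finset.prod_univ_sum, Fintype.piFinset_univ]
    refine Finset.sum_congr rfl fun x _ => ?_
    rw [Finset.prod_mul_distrib, Fintype.prod_prod_type]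
  rw [Finset.sum_congr rfl fun c _ => h1 c, Finset.sum_comm]
  have h2 : ∀ x : Fin n → Fin d → Bool,
      ∑ c ∈ Finset.univ.filter (fun c : Fin n → Fin d → Bool => InvP π c),
        (∏ v, f v (x v)) * ∏ p : Fin n × Fin d, Bm m (c p.1 p.2) (x p.1 p.2)
      = if InvP π x then ∏ v, f v (x v) else 0 := by
    intro x
    rw [← Finset.mul_sum]
    have h3 : ∑ c ∈ Finset.univ.filter (fun c : Fin n → Fin d → Bool => InvP π c),
        ∏ p : Fin n × Fin d, Bm m (c p.1 p.2) (x p.1 p.2)
        = ∑ c ∈ univ.filter (fun c : Fin n × Fin d → Bool => ∀ p, c (π.1 p) = c p),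
          ∏ p, Bm m (c p) (x p.1 p.2) := by
      refine Finset.sum_nbij' (fun c => fun p : Fin n × Fin d => c p.1 p.2)
        (fun c => fun i j => c (i, j)) ?_ ?_ ?_ ?_ ?_
      · intro c hc
        simp only [Finset.mem_filter, Finset.mem_univ, true_and] at hc ⊢
        exact hc
      · intro c hc
        simp only [Finset.mem_filter, Finset.mem_univ, true_and] at hc ⊢
        exact hc
      · intro c _
        rfl
      · intro c _
        rfl
      · intro c _
        rfl
    rw [h3, k09_sum π.1 π.2 (Bm m) (k09_orth m) (fun p => x p.1 p.2)]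
    have h4 : (∀ p : Fin n × Fin d, (fun p : Fin n × Fin d => x p.1 p.2) (π.1 p)
        = (fun p : Fin n × Fin d => x p.1 p.2) p) ↔ InvP π x := Iff.rfl
    simp only [h4]
    split_ifs
    · rw [mul_one]
    · rw [mul_zero]
  rw [Finset.sum_congr rfl fun x _ => h2 x, Finset.sum_filter]

end Pool.Agent.HC
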