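import Pool.Agent.Lib.MP_ec42c8_pr.KDefs

/-!
# K10 : the transformed vertex weights

Let `R = (1 + m²) ^ (d/2)` (`= Real.sqrt (1 + m²) ^ d`), `y = mu m`.  For `s` coordinates in state `true` the
product `∏ i, Bm m (c i) (x i)` is `R⁻¹ ∏` of `1` or `m` (state `false`, `x i = false` or `true`), resp. `-m`
or `1` (state `true`).
`K10a` (`c = false`): `R hat = ∑ j, C(d,j) m ^ j mu ^ j (d-j)!/d! = ∑ j ≤ d, y ^ j / j! = Ed d y`, and
`1 / descFactorial d j = (d-j)!/d!`.
`K10b` (`sz c = 1`, by symmetry, or directly): `R hat = ∑ j < d, C(d-1, j) m ^ j (f_{j+1} - m f_j)` with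
`f_j = mu ^ j (d-j)!/d!`; `C(d-1,j) (d-1-j)! = (d-1)!/j!` and `C(d-1,j) (d-j)! = (d-1)! (d-j)/j!` give
`R hat = (mu/d) ∑ j < d, y ^ j / j! - (m/d) ∑ j < d, (d-j) y ^ j / j!`, and `mu` times this is
` (1/d) (mu² Ed (d-1) y - y ∑ j < d, (d-j) y ^ j/j!) = 0` by hypothesis.
`K10c`: all `f_j ≤ mu ^ j`, so `R |hat| ≤ (1 + m mu) ^ (d-s) (m + mu) ^ s ≤ 2 ^ d (2 mu) ^ s ≤
(2 ^ (d+1) mu) ^ s` for `s ≥ 1` and `m ≤ mu ≤ 1`, and `R hat(0) = Ed d y ≥ 1`.
`K10d`: only `x = true` contributes: `hat = mu ^ d / d! · m ^ (d - s) / R`.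
-/

set_option autoImplicit false

namespace Pool.Agent.HC

open Finset
open scoped Classical

/-- The number of `true` values as a sum over subsets. -/
lemma k10_sum_set {d : ℕ} (F : Finset (Fin d) → ℝ) :
    ∑ x : Fin d → Bool, F (Finset.univ.filter (fun i => x i = true))
      = ∑ S ∈ (Finset.univ : Finset (Fin d)).powerset, F S := by
  refine Finset.sum_nbij' (fun x => Finset.univ.filter (fun i => x i = true))
    (fun S => fun i => decide (i ∈ S)) ?_ ?_ ?_ ?_ ?_
  · intro x _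
    exact Finset.mem_powerset.2 (Finset.subset_univ _)
  · intro S _
    exact Finset.mem_univ _
  · intro x _
    funext i
    cases h : x i <;> simp [h]
  · intro S _
    ext i
    simp
  · intro x _
    rfl

lemma k10_prod {d : ℕ} (m : ℝ) (c x : Fin d → Bool) :
    ∏ i, Bm m (c i) (x i) = (∏ i, (if c i then (if x i then 1 else -m) else (if x i then m else 1)))
      / Real.sqrt (1 + m ^ 2) ^ d := by
  unfold Bm
  rw [Finset.prod_div_distrib, Finset.prod_const, Finset.card_univ, Fintype.card_fin]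

lemma k10_false {d : ℕ} (c : Fin d → Bool) (hc : sz c = 0) : c = fun _ => false := by
  funext i
  unfold sz at hc
  rw [Finset.card_eq_zero, Finset.filter_eq_empty_iff] at hc
  have := hc (Finset.mem_univ i)
  simpa using this

lemma k10_pow {d : ℕ} (m : ℝ) (x : Fin d → Bool) :
    ∏ i, (if x i then m else 1) = m ^ sz x := by
  rw [Finset.prod_ite, Finset.prod_const, Finset.prod_const_one, mul_one]
  rfl

lemma k10_desc (d j : ℕ) (hj : j ≤ d) :
    ((d.choose j : ℕ) : ℝ) / ((Nat.descFactorial d j : ℕ) : ℝ) = 1 / (j.factorial : ℝ) := by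
  have h1 := Nat.descFactorial_eq_factorial_mul_choose d j
  have h2 : (0 : ℝ) < (d.choose j : ℝ) := by exact_mod_cast Nat.choose_pos hj
  have h3 : (0 : ℝ) < (j.factorial : ℝ) := by exact_mod_cast Nat.factorial_pos _
  rw [h1]
  push_cast
  field_simp

lemma k10_hat0 {d : ℕ} (mu m : ℝ) (c : Fin d → Bool) (hc : sz c = 0) :
    hat m (fmu mu) c = Ed d (mu * m) / Real.sqrt (1 + m ^ 2) ^ d := by
  rw [k10_false c hc]
  unfold hat
  simp only [k10_prod, Bool.false_eq_true, if_false, k10_pow]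
  obtain ⟨F, hF⟩ : ∃ F : Finset (Fin d) → ℝ, F = fun S => (fun j : ℕ => (mu * m) ^ j
        / ((Nat.descFactorial d j : ℕ) : ℝ)) S.card / Real.sqrt (1 + m ^ 2) ^ d := ⟨_, rfl⟩
  have h1 : ∀ x : Fin d → Bool, fmu mu x * (m ^ sz x / Real.sqrt (1 + m ^ 2) ^ d)
      = F (Finset.univ.filter (fun i => x i = true)) := by
    intro x
    rw [hF]
    simp only [fmu]
    change mu ^ sz x / ((Nat.descFactorial d (sz x) : ℕ) : ℝ)
        * (m ^ sz x / Real.sqrt (1 + m ^ 2) ^ d)
      = (mu * m) ^ sz x / ((Nat.descFactorial d (sz x) : ℕ) : ℝ) / Real.sqrt (1 + m ^ 2) ^ d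
    rw [mul_pow]
    ring
  rw [Finset.sum_congr rfl fun x _ => h1 x, k10_sum_set, hF, ← Finset.sum_div]
  congr 1
  rw [Finset.sum_powerset_apply_card (fun j : ℕ => (mu * m) ^ j
        / ((Nat.descFactorial d j : ℕ) : ℝ)), Finset.card_univ, Fintype.card_fin]
  unfold Ed
  refine Finset.sum_congr rfl fun j hj => ?_
  have hj' : j ≤ d := by
    have := Finset.mem_range.1 hj
    omega
  have := k10_desc d j hj'
  rw [nsmul_eq_mul]
  calc ((d.choose j : ℕ) : ℝ) * ((mu * m) ^ j / ((Nat.descFactorial d j : ℕ) : ℝ))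
      = (mu * m) ^ j * (((d.choose j : ℕ) : ℝ) / ((Nat.descFactorial d j : ℕ) : ℝ)) := by ring
    _ = _ := by rw [this]; ring

theorem K10a {d : ℕ} (mu m : ℝ) (hm : 0 < m) (hmu : 0 < mu) (c : Fin d → Bool)
    (hc : sz c = 0) :
    hat m (fmu mu) c = Ed d (mu * m) / Real.sqrt (1 + m ^ 2) ^ d :=
  k10_hat0 mu m c hc

lemma k10_one {d : ℕ} (c : Fin d → Bool) (hc : sz c = 1) : ∃ i₀, ∀ i, c i = true ↔ i = i₀ := by
  unfold sz at hc
  obtain ⟨i₀, h⟩ := Finset.card_eq_one.1 hc
  refine ⟨i₀, fun i => ?_⟩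
  have : i ∈ Finset.univ.filter (fun i => c i = true) ↔ i ∈ ({i₀} : Finset (Fin d)) := by rw [h]
  simpa using this

lemma k10_descA (d j : ℕ) (hj : j < d) :
    (((d - 1).choose j : ℕ) : ℝ) / ((Nat.descFactorial d (j + 1) : ℕ) : ℝ)
      = 1 / ((d : ℝ) * (j.factorial : ℝ)) := by
  obtain ⟨e, rfl⟩ : ∃ e, d = e + 1 := ⟨d - 1, by omega⟩
  rw [Nat.succ_descFactorial_succ, Nat.add_sub_cancel]
  have h := k10_desc e j (by omega)
  have h0 : (0 : ℝ) < ((e + 1 : ℕ) : ℝ) := by positivity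
  push_cast at h ⊢
  rw [mul_comm ((e : ℝ) + 1) (e.descFactorial j : ℝ), ← div_div, h]
  rw [div_div, mul_comm]

lemma k10_descB (d j : ℕ) (hj : j < d) :
    (((d - 1).choose j : ℕ) : ℝ) / ((Nat.descFactorial d j : ℕ) : ℝ)
      = ((d : ℝ) - j) / ((d : ℝ) * (j.factorial : ℝ)) := by
  have h := k10_descA d j hj
  rw [Nat.descFactorial_succ] at h
  have h1 : ((d - j : ℕ) : ℝ) = (d : ℝ) - j := by
    rw [Nat.cast_sub hj.le]
  have h2 : (0 : ℝ) < (d : ℝ) - j := by
    rw [← h1]
    exact_mod_cast Nat.sub_pos_of_lt hj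
  have h3 : (0 : ℝ) < ((Nat.descFactorial d j : ℕ) : ℝ) := by
    exact_mod_cast Nat.pos_of_ne_zero (Nat.descFactorial_eq_zero_iff_lt.not.2 (by omega))
  rw [Nat.cast_mul, h1] at h
  have h4 : (((d - 1).choose j : ℕ) : ℝ) / ((Nat.descFactorial d j : ℕ) : ℝ)
      = ((d : ℝ) - j) * ((((d - 1).choose j : ℕ) : ℝ)
        / (((d : ℝ) - j) * ((Nat.descFactorial d j : ℕ) : ℝ))) := by
    field_simp
  rw [h4, h]
  ring

theorem K10b {d : ℕ} (mu m : ℝ) (hm : 0 < m) (hmu : 0 < mu)
    (h : mu ^ 2 * Ed (d - 1) (mu * m) =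
      mu * m * ∑ j ∈ Finset.range d, ((d : ℝ) - j) * (mu * m) ^ j / (j.factorial : ℝ))
    (c : Fin d → Bool) (hc : sz c = 1) : hat m (fmu mu) c = 0 := by
  obtain ⟨i₀, hi₀⟩ := k10_one c hc
  have hd : 0 < d := lt_of_le_of_lt (Nat.zero_le _) i₀.2
  unfold hat
  -- write the sum over subsets
  obtain ⟨F, hF⟩ : ∃ F : Finset (Fin d) → ℝ, F = fun S : Finset (Fin d) =>
        mu ^ S.card / ((Nat.descFactorial d S.card : ℕ) : ℝ)
        * ((∏ i, (if i = i₀ then (if i ∈ S then 1 else -m) else (if i ∈ S then m else 1)))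
          / Real.sqrt (1 + m ^ 2) ^ d) := ⟨_, rfl⟩
  have h1 : ∀ x : Fin d → Bool, fmu mu x * ∏ i, Bm m (c i) (x i)
      = F (Finset.univ.filter (fun i => x i = true)) := by
    intro x
    rw [k10_prod, hF]
    simp only [fmu, Finset.mem_filter, Finset.mem_univ, true_and]
    congr 3
    funext i
    by_cases hi : i = i₀
    · rw [if_pos hi, if_pos ((hi₀ i).2 hi)]
    · rw [if_neg hi, if_neg (fun h' => hi ((hi₀ i).1 h'))]
  rw [Finset.sum_congr rfl fun x _ => h1 x, k10_sum_set, hF]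
  have h2 : (Finset.univ : Finset (Fin d)) = insert i₀ (Finset.univ.erase i₀) :=
    (Finset.insert_erase (Finset.mem_univ i₀)).symm
  rw [h2, Finset.sum_powerset_insert (Finset.notMem_erase _ _)]
  have hcard : (Finset.univ.erase i₀ : Finset (Fin d)).card = d - 1 := by
    rw [Finset.card_erase_of_mem (Finset.mem_univ _), Finset.card_univ, Fintype.card_fin]
  have hpr : ∀ S ∈ (Finset.univ.erase i₀ : Finset (Fin d)).powerset,
      ∏ i ∈ insert i₀ (Finset.univ.erase i₀), (if i = i₀ then (if i ∈ S then (1 : ℝ) else -m)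
        else (if i ∈ S then m else 1)) = -m * m ^ S.card := by
    intro S hS
    have hS' : S ⊆ Finset.univ.erase i₀ := Finset.mem_powerset.1 hS
    have hi : i₀ ∉ S := fun h' => Finset.notMem_erase _ _ (hS' h')
    rw [Finset.prod_insert (Finset.notMem_erase _ _), if_pos rfl, if_neg hi]
    congr 1
    have h3 : ∀ i ∈ Finset.univ.erase i₀, (if i = i₀ then (if i ∈ S then (1 : ℝ) else -m)
        else (if i ∈ S then m else 1)) = if i ∈ S then m else 1 := fun i hi' => by
      rw [if_neg (Finset.ne_of_mem_erase hi')]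
    rw [Finset.prod_congr rfl h3, Finset.prod_ite, Finset.prod_const, Finset.prod_const_one,
      mul_one]
    congr 2
    ext i
    simp only [Finset.mem_filter]
    exact ⟨fun h' => h'.2, fun h' => ⟨hS' h', h'⟩⟩
  have hpr' : ∀ S ∈ (Finset.univ.erase i₀ : Finset (Fin d)).powerset,
      ∏ i ∈ insert i₀ (Finset.univ.erase i₀), (if i = i₀ then (if i ∈ insert i₀ S then (1 : ℝ)
        else -m) else (if i ∈ insert i₀ S then m else 1)) = m ^ S.card := by
    intro S hS
    have hS' : S ⊆ Finset.univ.erase i₀ := Finset.mem_powerset.1 hS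
    rw [Finset.prod_insert (Finset.notMem_erase _ _), if_pos rfl,
      if_pos (Finset.mem_insert_self _ _), one_mul]
    have h3 : ∀ i ∈ Finset.univ.erase i₀, (if i = i₀ then (if i ∈ insert i₀ S then (1 : ℝ)
        else -m) else (if i ∈ insert i₀ S then m else 1)) = if i ∈ S then m else 1 :=
      fun i hi' => by
        have hne := Finset.ne_of_mem_erase hi'
        rw [if_neg hne]
        simp only [Finset.mem_insert, hne, false_or]
    rw [Finset.prod_congr rfl h3, Finset.prod_ite, Finset.prod_const, Finset.prod_const_one,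
      mul_one]
    congr 2
    ext i
    simp only [Finset.mem_filter]
    exact ⟨fun h' => h'.2, fun h' => ⟨hS' h', h'⟩⟩
  have hA : ∑ S ∈ (Finset.univ.erase i₀ : Finset (Fin d)).powerset,
      mu ^ S.card / ((Nat.descFactorial d S.card : ℕ) : ℝ)
        * ((∏ i ∈ insert i₀ (Finset.univ.erase i₀), (if i = i₀ then (if i ∈ S then (1 : ℝ) else -m)
        else (if i ∈ S then m else 1))) / Real.sqrt (1 + m ^ 2) ^ d)
      = ∑ j ∈ Finset.range d, (-m) * ((((d : ℝ) - j) * (mu * m) ^ j / (j.factorial : ℝ)) / d)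
          / Real.sqrt (1 + m ^ 2) ^ d := by
    have h3 : ∀ S ∈ (Finset.univ.erase i₀ : Finset (Fin d)).powerset,
        mu ^ S.card / ((Nat.descFactorial d S.card : ℕ) : ℝ)
        * ((∏ i ∈ insert i₀ (Finset.univ.erase i₀), (if i = i₀ then (if i ∈ S then (1 : ℝ) else -m)
        else (if i ∈ S then m else 1))) / Real.sqrt (1 + m ^ 2) ^ d)
        = (fun j : ℕ => mu ^ j / ((Nat.descFactorial d j : ℕ) : ℝ) * ((-m * m ^ j)
          / Real.sqrt (1 + m ^ 2) ^ d)) S.card := fun S hS => by rw [hpr S hS]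
    rw [Finset.sum_congr rfl h3, Finset.sum_powerset_apply_card (fun j : ℕ => mu ^ j
      / ((Nat.descFactorial d j : ℕ) : ℝ) * ((-m * m ^ j) / Real.sqrt (1 + m ^ 2) ^ d)), hcard,
      Nat.sub_add_cancel hd]
    refine Finset.sum_congr rfl fun j hj => ?_
    have h4 := k10_descB d j (Finset.mem_range.1 hj)
    rw [nsmul_eq_mul]
    calc (((d - 1).choose j : ℕ) : ℝ) * (mu ^ j / ((Nat.descFactorial d j : ℕ) : ℝ) * ((-m * m ^ j)
          / Real.sqrt (1 + m ^ 2) ^ d))
        = ((((d - 1).choose j : ℕ) : ℝ) / ((Nat.descFactorial d j : ℕ) : ℝ)) * (mu ^ j * (-m * m ^ j)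
          / Real.sqrt (1 + m ^ 2) ^ d) := by ring
      _ = _ := by
          rw [h4, mul_pow]
          ring
  have hB : ∑ S ∈ (Finset.univ.erase i₀ : Finset (Fin d)).powerset,
      mu ^ (insert i₀ S).card / ((Nat.descFactorial d (insert i₀ S).card : ℕ) : ℝ)
        * ((∏ i ∈ insert i₀ (Finset.univ.erase i₀), (if i = i₀ then (if i ∈ insert i₀ S then (1 : ℝ)
        else -m) else (if i ∈ insert i₀ S then m else 1))) / Real.sqrt (1 + m ^ 2) ^ d)
      = ∑ j ∈ Finset.range d, mu * (((mu * m) ^ j / (j.factorial : ℝ)) / d)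
          / Real.sqrt (1 + m ^ 2) ^ d := by
    have h3 : ∀ S ∈ (Finset.univ.erase i₀ : Finset (Fin d)).powerset,
        mu ^ (insert i₀ S).card / ((Nat.descFactorial d (insert i₀ S).card : ℕ) : ℝ)
        * ((∏ i ∈ insert i₀ (Finset.univ.erase i₀), (if i = i₀ then (if i ∈ insert i₀ S then (1 : ℝ)
        else -m) else (if i ∈ insert i₀ S then m else 1))) / Real.sqrt (1 + m ^ 2) ^ d)
        = (fun j : ℕ => mu ^ (j + 1) / ((Nat.descFactorial d (j + 1) : ℕ) : ℝ) * (m ^ j
          / Real.sqrt (1 + m ^ 2) ^ d)) S.card := fun S hS => by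
      have hi : i₀ ∉ S := fun h' => Finset.notMem_erase _ _ (Finset.mem_powerset.1 hS h')
      rw [hpr' S hS, Finset.card_insert_of_notMem hi]
    rw [Finset.sum_congr rfl h3, Finset.sum_powerset_apply_card (fun j : ℕ => mu ^ (j + 1)
      / ((Nat.descFactorial d (j + 1) : ℕ) : ℝ) * (m ^ j / Real.sqrt (1 + m ^ 2) ^ d)), hcard,
      Nat.sub_add_cancel hd]
    refine Finset.sum_congr rfl fun j hj => ?_
    have h4 := k10_descA d j (Finset.mem_range.1 hj)
    rw [nsmul_eq_mul]
    calc (((d - 1).choose j : ℕ) : ℝ) * (mu ^ (j + 1) / ((Nat.descFactorial d (j + 1) : ℕ) : ℝ)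
          * (m ^ j / Real.sqrt (1 + m ^ 2) ^ d))
        = ((((d - 1).choose j : ℕ) : ℝ) / ((Nat.descFactorial d (j + 1) : ℕ) : ℝ))
          * (mu ^ (j + 1) * m ^ j / Real.sqrt (1 + m ^ 2) ^ d) := by ring
      _ = _ := by
          rw [h4, mul_pow]
          ring
  rw [hA, hB, ← Finset.sum_div, ← Finset.sum_div, ← add_div, ← Finset.mul_sum, ← Finset.mul_sum,
    ← Finset.sum_div, ← Finset.sum_div]
  have hE : Ed (d - 1) (mu * m) = ∑ j ∈ Finset.range d, (mu * m) ^ j / (j.factorial : ℝ) := by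
    unfold Ed
    rw [Nat.sub_add_cancel hd]
  rw [hE] at h
  have hd' : (0 : ℝ) < d := by exact_mod_cast hd
  have h5 : -m * ((∑ j ∈ Finset.range d, ((d : ℝ) - j) * (mu * m) ^ j / (j.factorial : ℝ)) / d)
      + mu * ((∑ j ∈ Finset.range d, (mu * m) ^ j / (j.factorial : ℝ)) / d) = 0 := by
    have h6 : mu * (-m * ((∑ j ∈ Finset.range d, ((d : ℝ) - j) * (mu * m) ^ j
        / (j.factorial : ℝ)) / d)
      + mu * ((∑ j ∈ Finset.range d, (mu * m) ^ j / (j.factorial : ℝ)) / d)) = 0 := by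
      calc mu * (-m * ((∑ j ∈ Finset.range d, ((d : ℝ) - j) * (mu * m) ^ j
        / (j.factorial : ℝ)) / d)
      + mu * ((∑ j ∈ Finset.range d, (mu * m) ^ j / (j.factorial : ℝ)) / d))
          = (mu ^ 2 * (∑ j ∈ Finset.range d, (mu * m) ^ j / (j.factorial : ℝ))
            - mu * m * (∑ j ∈ Finset.range d, ((d : ℝ) - j) * (mu * m) ^ j
              / (j.factorial : ℝ))) / d := by ring
        _ = 0 := by rw [h, sub_self, zero_div]
    exact (mul_eq_zero.1 h6).resolve_left hmu.ne'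
  rw [h5, zero_div]

lemma k10_ed {d : ℕ} (y : ℝ) (hy : 0 ≤ y) : 1 ≤ Ed d y := by
  unfold Ed
  rw [Finset.sum_range_succ']
  simp only [pow_zero, Nat.factorial_zero, Nat.cast_one, div_one]
  have : 0 ≤ ∑ k ∈ Finset.range d, y ^ (k + 1) / ((k + 1).factorial : ℝ) :=
    Finset.sum_nonneg fun k _ => by positivity
  linarith

theorem K10c {d : ℕ} (mu m : ℝ) (hm : 0 < m) (hmm : m ≤ mu) (hmu : mu ≤ 1) (c c₀ : Fin d → Bool)
    (hc₀ : sz c₀ = 0) :
    |hat m (fmu mu) c| ≤ (2 ^ (d + 1) * mu) ^ sz c * hat m (fmu mu) c₀ := by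
  have hmu0 : 0 < mu := lt_of_lt_of_le hm hmm
  have hR : 0 < Real.sqrt (1 + m ^ 2) ^ d := by positivity
  have hE : 1 ≤ Ed d (mu * m) := k10_ed _ (by positivity)
  have h0 := k10_hat0 mu m c₀ hc₀
  rcases Nat.eq_zero_or_pos (sz c) with hs | hs
  · rw [hs, pow_zero, one_mul, h0, k10_hat0 mu m c hs, abs_of_nonneg (by positivity)]
  · have h1 : |hat m (fmu mu) c| ≤ (∏ i, ∑ b : Bool, (if b then mu else 1)
        * |(if c i then (if b then 1 else -m) else (if b then m else 1))|)
          / Real.sqrt (1 + m ^ 2) ^ d := by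
      unfold hat
      rw [Finset.prod_univ_sum, Fintype.piFinset_univ, Finset.sum_div]
      refine (Finset.abs_sum_le_sum_abs _ _).trans (Finset.sum_le_sum fun x _ => ?_)
      rw [k10_prod, abs_mul, abs_div, abs_of_pos hR, Finset.abs_prod, ← mul_div_assoc,
        Finset.prod_mul_distrib, k10_pow]
      refine div_le_div_of_nonneg_right (mul_le_mul_of_nonneg_right ?_
        (Finset.prod_nonneg fun i _ => abs_nonneg _)) hR.le
      unfold fmu
      rw [abs_of_nonneg (by positivity)]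
      refine div_le_self (by positivity) ?_
      have : 1 ≤ Nat.descFactorial d (sz x) := by
        refine Nat.pos_of_ne_zero (Nat.descFactorial_eq_zero_iff_lt.not.2 ?_)
        have h2 : sz x ≤ d := by
          unfold sz
          refine (Finset.card_le_univ _).trans ?_
          rw [Fintype.card_fin]
        omega
      exact_mod_cast this
    have h2 : ∏ i, ∑ b : Bool, (if b then mu else 1)
        * |(if c i then (if b then 1 else -m) else (if b then m else 1))|
        ≤ ∏ i, (2 * (if c i then mu else 1)) := by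
      refine Finset.prod_le_prod (fun i _ => Finset.sum_nonneg fun b _ => ?_) fun i _ => ?_
      · refine mul_nonneg ?_ (abs_nonneg _)
        split_ifs <;> linarith
      · rw [Fintype.sum_bool]
        cases hci : c i <;>
          simp only [if_true, if_false, Bool.false_eq_true, abs_one, abs_neg, abs_of_pos hm,
            mul_one, one_mul]
        · nlinarith
        · linarith
    have h3 : ∏ i, (2 * (if c i then mu else 1)) = 2 ^ d * mu ^ sz c := by
      rw [Finset.prod_mul_distrib, k10_pow, Finset.prod_const, Finset.card_univ, Fintype.card_fin]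
    have h4 : (2 : ℝ) ^ d * mu ^ sz c ≤ (2 ^ (d + 1) * mu) ^ sz c := by
      rw [mul_pow, ← pow_mul]
      refine mul_le_mul_of_nonneg_right (pow_le_pow_right₀ (by norm_num) ?_) (by positivity)
      calc d ≤ (d + 1) * 1 := by omega
        _ ≤ (d + 1) * sz c := Nat.mul_le_mul_left _ hs
    refine h1.trans ?_
    rw [h0, ← mul_div_assoc]
    refine div_le_div_of_nonneg_right ?_ hR.le
    calc ∏ i, ∑ b : Bool, (if b then mu else 1)
        * |(if c i then (if b then 1 else -m) else (if b then m else 1))|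
        ≤ 2 ^ d * mu ^ sz c := h2.trans h3.le
      _ ≤ (2 ^ (d + 1) * mu) ^ sz c * 1 := by rw [mul_one]; exact h4
      _ ≤ (2 ^ (d + 1) * mu) ^ sz c * Ed d (mu * m) := by gcongr

lemma k10_gmu {d : ℕ} (mu m : ℝ) (c : Fin d → Bool) :
    hat m (gmu mu) c = mu ^ d / (d.factorial : ℝ) * ((∏ i, (if c i then (1 : ℝ) else m))
      / Real.sqrt (1 + m ^ 2) ^ d) := by
  unfold hat
  rw [Finset.sum_eq_single (fun _ : Fin d => true)]
  · rw [k10_prod]
    have h1 : sz (fun _ : Fin d => true) = d := by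
      unfold sz
      simp
    unfold gmu
    rw [if_pos h1]
    simp only [if_true]
  · intro x _ hx
    unfold gmu
    rw [if_neg, zero_mul]
    intro h
    apply hx
    funext i
    unfold sz at h
    have h2 : Finset.univ.filter (fun i => x i = true) = Finset.univ := by
      refine Finset.eq_univ_of_card _ ?_
      rw [h, Fintype.card_fin]
    have h3 : i ∈ Finset.univ.filter (fun i => x i = true) := by
      rw [h2]
      exact Finset.mem_univ _
    exact (Finset.mem_filter.1 h3).2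
  · intro h
    exact absurd (Finset.mem_univ _) h

theorem K10d {d : ℕ} (mu m : ℝ) (hm : 0 < m) (hmu : 0 < mu) (c c₀ : Fin d → Bool)
    (hc₀ : sz c₀ = 0) :
    0 < hat m (gmu mu) c₀ ∧ hat m (gmu mu) c * m ^ sz c = hat m (gmu mu) c₀ := by
  have hR : 0 < Real.sqrt (1 + m ^ 2) ^ d := by positivity
  have hf : (0 : ℝ) < (d.factorial : ℝ) := by exact_mod_cast Nat.factorial_pos _
  rw [k10_gmu, k10_gmu, k10_false c₀ hc₀]
  constructor
  · have : 0 < ∏ i : Fin d, (if (false : Bool) = true then (1 : ℝ) else m) :=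
      Finset.prod_pos fun i _ => by
        rw [if_neg (by simp)]
        exact hm
    positivity
  · have h1 : (∏ i, (if c i then (1 : ℝ) else m)) * ∏ i, (if c i then m else 1)
        = ∏ i : Fin d, (if (fun _ : Fin d => false) i = true then (1 : ℝ) else m) := by
      rw [← Finset.prod_mul_distrib]
      refine Finset.prod_congr rfl fun i _ => ?_
      cases c i <;> simp
    rw [← h1, ← k10_pow m c]
    ring

/-- The existence of the parameter. -/
theorem K11 (d : ℕ) (hd : 1 ≤ d) (lam : ℝ) (h0 : 0 < lam) (h1 : lam ≤ 1) :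
    ∃ y : ℝ, lam / d ≤ y ∧ y ≤ lam ∧ lam * Ed (d - 1) y =
      y * ∑ j ∈ Finset.range d, ((d : ℝ) - j) * y ^ j / (j.factorial : ℝ) := by
  have hd' : (1 : ℝ) ≤ d := by exact_mod_cast hd
  have hE : ∀ y, Ed (d - 1) y = ∑ j ∈ Finset.range d, y ^ j / (j.factorial : ℝ) := fun y => by
    unfold Ed
    rw [Nat.sub_add_cancel hd]
  set G : ℝ → ℝ := fun y => y * (∑ j ∈ Finset.range d, ((d : ℝ) - j) * y ^ j / (j.factorial : ℝ))
    - lam * ∑ j ∈ Finset.range d, y ^ j / (j.factorial : ℝ) with hG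
  have hcont : Continuous G := by
    rw [hG]
    fun_prop
  have hle : lam / d ≤ lam := div_le_self h0.le hd'
  have hGl : G (lam / d) ≤ 0 := by
    simp only [hG]
    rw [Finset.mul_sum, Finset.mul_sum, ← Finset.sum_sub_distrib]
    refine Finset.sum_nonpos fun j _ => ?_
    have h2 : 0 ≤ (lam / d) ^ j / (j.factorial : ℝ) := by positivity
    have h3 : lam / d * ((d : ℝ) - j) ≤ lam := by
      rw [div_mul_eq_mul_div, div_le_iff₀ (by linarith)]
      have : (0 : ℝ) ≤ j := Nat.cast_nonneg j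
      nlinarith
    calc lam / d * (((d : ℝ) - j) * (lam / d) ^ j / (j.factorial : ℝ))
          - lam * ((lam / d) ^ j / (j.factorial : ℝ))
        = (lam / d * ((d : ℝ) - j) - lam) * ((lam / d) ^ j / (j.factorial : ℝ)) := by ring
      _ ≤ 0 := mul_nonpos_of_nonpos_of_nonneg (by linarith) h2
  have hGr : 0 ≤ G lam := by
    simp only [hG]
    rw [← mul_sub, ← Finset.sum_sub_distrib]
    refine mul_nonneg h0.le (Finset.sum_nonneg fun j hj => ?_)
    have h2 : 0 ≤ lam ^ j / (j.factorial : ℝ) := by positivity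
    have h3 : (j : ℝ) + 1 ≤ d := by exact_mod_cast Finset.mem_range.1 hj
    calc 0 ≤ ((d : ℝ) - j - 1) * (lam ^ j / (j.factorial : ℝ)) := mul_nonneg (by linarith) h2
      _ = _ := by ring
  obtain ⟨y, hy, hy0⟩ := intermediate_value_Icc hle hcont.continuousOn ⟨hGl, hGr⟩
  refine ⟨y, hy.1, hy.2, ?_⟩
  rw [hE]
  simp only [hG] at hy0
  linarith

end Pool.Agent.HC
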