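import Pool.Agent.Lib.MP_ec42c8_pr.KDefs

/-!
# K13 : the sum over leafless configurations

Write `|c| = ∑ v, sz (c v)`, `t 0 = 1`, `t 1 = 0`, `t s = (A mu) ^ s` for `s ≥ 2`, `mu² = lam`, `2 r = d n`.
PROOF.  Fix `v₀`, `s = sz (c v₀) ≤ d` (at most `2 ^ d` choices of `c v₀`) and `|c| = 2 j`; `j ≥ 1` and
`2 j ≥ s`.  The other vertices with `sz (c v) ≠ 0` have `2 ≤ sz (c v) ≤ d`; if there are `i` of
them then `2 i ≤ 2 j - s ≤ d i`; for each `i` there are at most `C(n, i) 2 ^ (d i)` such `c`.  The weight is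
` (d/mu) ^ s (A mu) ^ (2j - s)`.
`C(n, i) ≤ (e n / i) ^ i`, `C(r, j) ≥ (r / j) ^ j ≥ (n / (2 j)) ^ j`, so for `i ≥ 1`
`C(n,i) / C(r,j) ≤ e ^ i 2 ^ j (j / i) ^ i (j / n) ^ (j-i) ≤ (2 e d) ^ j (j/n) ^ (j-i)`
(`j ≤ (d i + s)/2 ≤ d i`), and for `i = 0` the quotient is at most `2 ^ j (j/n) ^ j`.  As
`j - i ≥ ⌈s/2⌉` and `j ≤ r = d n / 2`: ` (j/n) ^ (j-i) ≤ d ^ j (j/n) ^ ⌈s/2⌉`.  So the sum for given `j, s` is at
most `2 ^ d (d/mu) ^ s (A mu) ^ (2j-s) (j+1) 2 ^ (d j) (2 e d²) ^ j (j/n) ^ ⌈s/2⌉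
≤ C₁ (C₂ lam) ^ j lam ^ (-s) (j/n) ^ ⌈s/2⌉` with constants depending on `d, A`.
Sum over `j ≥ max 1 ⌈s/2⌉` for `C₂ lam ≤ 1/4`: at most
`C₃ lam ^ (max 1 ⌈s/2⌉) lam ^ (-s) n ^ (-⌈s/2⌉)`, which for `s = 0` is `C₃ lam`, and for `s ≥ 1` is
`C₃ (lam n) ^ (-⌈s/2⌉) lam ^ (2 ⌈s/2⌉ - s) ≤ C₃ / (lam n)` since `lam n ≥ 1`.
(For `d = 1` there is no such `c` at all.)
-/

set_option autoImplicit false

namespace Pool.Agent.HC

open Finset
open scoped Classical

/-- The weights of the vertices. -/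
noncomputable def tw (A mu : ℝ) (s : ℕ) : ℝ := if s = 0 then 1 else if s = 1 then 0 else (A * mu) ^ s

lemma k13_choose (j r : ℕ) (hjr : j ≤ r) : (r : ℝ) ^ j ≤ (j : ℝ) ^ j * (r.choose j : ℝ) := by
  induction j generalizing r with
  | zero => simp
  | succ j ih =>
    obtain ⟨r, rfl⟩ : ∃ r', r = r' + 1 := ⟨r - 1, by omega⟩
    have hjr' : j ≤ r := by omega
    have h1 := ih r hjr'
    have h2 : ((r + 1).choose (j + 1) : ℝ) * (j + 1) = (r + 1) * (r.choose j : ℝ) := by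
      have := Nat.add_one_mul_choose_eq r j
      have h3 : (((r + 1) * r.choose j : ℕ) : ℝ) = (((r + 1).choose (j + 1) * (j + 1) : ℕ) : ℝ) := by
        rw [this]
      push_cast at h3
      linarith
    rcases Nat.eq_zero_or_pos j with rfl | hj
    · simp
    have hj' : (0 : ℝ) < j := by exact_mod_cast hj
    -- (r+1)^j * j^j ≤ (j+1)^j * r^j
    have h4 : ((r : ℝ) + 1) * j ≤ ((j : ℝ) + 1) * r := by
      have : (j : ℝ) ≤ r := by exact_mod_cast hjr'
      nlinarith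
    have h5 : (((r : ℝ) + 1) * j) ^ j ≤ (((j : ℝ) + 1) * r) ^ j :=
      pow_le_pow_left₀ (by positivity) h4 j
    rw [mul_pow, mul_pow] at h5
    have h6 : ((r : ℝ) + 1) ^ j * (j : ℝ) ^ j ≤ ((j : ℝ) + 1) ^ j * ((j : ℝ) ^ j * (r.choose j : ℝ)) :=
      h5.trans (mul_le_mul_of_nonneg_left h1 (by positivity))
    have h7 : ((r : ℝ) + 1) ^ j ≤ ((j : ℝ) + 1) ^ j * (r.choose j : ℝ) := by
      have hpos : (0 : ℝ) < (j : ℝ) ^ j := by positivity
      have : ((r : ℝ) + 1) ^ j * (j : ℝ) ^ j ≤ (((j : ℝ) + 1) ^ j * (r.choose j : ℝ)) * (j : ℝ) ^ j := by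
        linarith
      exact le_of_mul_le_mul_right this hpos
    push_cast
    calc ((r : ℝ) + 1) ^ (j + 1) = ((r : ℝ) + 1) ^ j * (r + 1) := by ring
      _ ≤ (((j : ℝ) + 1) ^ j * (r.choose j : ℝ)) * (r + 1) :=
          mul_le_mul_of_nonneg_right h7 (by positivity)
      _ = ((j : ℝ) + 1) ^ j * ((r + 1) * (r.choose j : ℝ)) := by ring
      _ = ((j : ℝ) + 1) ^ j * (((r + 1).choose (j + 1) : ℝ) * (j + 1)) := by rw [h2]
      _ = ((j : ℝ) + 1) ^ (j + 1) * ((r + 1).choose (j + 1) : ℝ) := by ring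

lemma k13_exp (x m : ℕ) : (x : ℝ) ^ m ≤ (m.factorial : ℝ) * 3 ^ x := by
  have h1 := Real.pow_div_factorial_le_exp (x : ℝ) (by positivity) m
  rw [div_le_iff₀ (by positivity)] at h1
  have h2 : Real.exp (x : ℝ) ≤ 3 ^ x := by
    have : Real.exp (x : ℝ) = Real.exp 1 ^ x := by
      rw [← Real.exp_nat_mul, mul_one]
    rw [this]
    refine pow_le_pow_left₀ (Real.exp_pos 1).le ?_ x
    linarith [Real.exp_one_lt_d9]
  calc (x : ℝ) ^ m ≤ Real.exp (x : ℝ) * m.factorial := h1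
    _ ≤ 3 ^ x * m.factorial := mul_le_mul_of_nonneg_right h2 (by positivity)
    _ = _ := by ring

/-- The bound for the reciprocal of the binomial coefficient. -/
lemma k13_inv (d n r j i s h : ℕ) (hd : 1 ≤ d) (hn : 1 ≤ n) (hr : 2 * r = d * n) (hj : 1 ≤ j)
    (hjr : j ≤ r) (h1 : 2 * i + s ≤ 2 * j) (h2 : 2 * j ≤ d * i + s) (hs : s ≤ d)
    (hh : h = (s + 1) / 2) :
    1 / (r.choose j : ℝ) ≤
      (d.factorial : ℝ) * (25 * (d : ℝ) ^ 2) ^ j * ((1 / (n : ℝ)) ^ h) *
        ((i.factorial : ℝ) / (n : ℝ) ^ i) := by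
  have hn' : (0 : ℝ) < n := by exact_mod_cast hn
  have hd' : (1 : ℝ) ≤ d := by exact_mod_cast hd
  have hr0 : 1 ≤ r := le_trans hj hjr
  have hr' : (0 : ℝ) < r := by exact_mod_cast hr0
  have hrn : (n : ℝ) ≤ 2 * r := by
    have : n ≤ 2 * r := by rw [hr]; exact Nat.le_mul_of_pos_left n hd
    exact_mod_cast this
  have hC : (0 : ℝ) < (r.choose j : ℝ) := by exact_mod_cast Nat.choose_pos hjr
  have hjn : (j : ℝ) / n ≤ d := by
    rw [div_le_iff₀ hn']
    have : j ≤ d * n := by omega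
    exact_mod_cast this
  have hij : i ≤ j := by omega
  have hhj : h ≤ j - i := by omega
  -- 1 / C ≤ (2 j / n) ^ j
  have e1 : 1 / (r.choose j : ℝ) ≤ (2 * (j : ℝ) / n) ^ j := by
    rw [div_le_iff₀ hC]
    have h3 := k13_choose j r hjr
    have h4 : (1 : ℝ) ≤ (j : ℝ) ^ j / (r : ℝ) ^ j * (r.choose j : ℝ) := by
      rw [div_mul_eq_mul_div, le_div_iff₀ (by positivity), one_mul]
      exact h3
    refine h4.trans (mul_le_mul_of_nonneg_right ?_ hC.le)
    rw [← div_pow]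
    refine pow_le_pow_left₀ (by positivity) ?_ j
    rw [div_le_div_iff₀ hr' hn']
    nlinarith [show (0:ℝ) ≤ j by positivity]
  -- split
  have e2 : (2 * (j : ℝ) / n) ^ j = 2 ^ j * ((j : ℝ) / n) ^ (j - i - h) * ((j : ℝ) / n) ^ h *
      ((j : ℝ) / n) ^ i := by
    have : j = (j - i - h) + h + i := by omega
    calc (2 * (j : ℝ) / n) ^ j = 2 ^ j * ((j : ℝ) / n) ^ j := by rw [← mul_pow]; ring
      _ = 2 ^ j * ((j : ℝ) / n) ^ ((j - i - h) + h + i) := by rw [← this]
      _ = _ := by rw [pow_add, pow_add]; ring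
  have e3 : ((j : ℝ) / n) ^ (j - i - h) ≤ (d : ℝ) ^ j :=
    (pow_le_pow_left₀ (by positivity) hjn _).trans
      (pow_le_pow_right₀ hd' (by omega))
  have e4 : ((j : ℝ) / n) ^ h ≤ (d.factorial : ℝ) * 3 ^ j * (1 / (n : ℝ)) ^ h := by
    rw [div_eq_mul_one_div, mul_pow]
    refine mul_le_mul_of_nonneg_right ?_ (by positivity)
    refine (k13_exp j h).trans (mul_le_mul_of_nonneg_right ?_ (by positivity))
    exact_mod_cast Nat.factorial_le (by omega)
  have e5 : ((j : ℝ) / n) ^ i ≤ (3 * (d : ℝ)) ^ j * ((i.factorial : ℝ) / (n : ℝ) ^ i) := by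
    rcases Nat.eq_zero_or_pos i with rfl | hi
    · simp only [pow_zero, Nat.factorial_zero, Nat.cast_one, div_one, mul_one]
      exact one_le_pow₀ (by nlinarith)
    · rw [div_pow]
      have hji : (j : ℝ) ≤ d * i := by
        have h5 : 2 * j ≤ 2 * (d * i) := by
          have : d ≤ d * i := Nat.le_mul_of_pos_right d hi
          omega
        have h6 : j ≤ d * i := by omega
        exact_mod_cast h6
      have h7 : (j : ℝ) ^ i ≤ (3 * (d : ℝ)) ^ j * (i.factorial : ℝ) := by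
        calc (j : ℝ) ^ i ≤ (d * i : ℝ) ^ i := pow_le_pow_left₀ (by positivity) hji i
          _ = (d : ℝ) ^ i * (i : ℝ) ^ i := by rw [mul_pow]
          _ ≤ (d : ℝ) ^ i * ((i.factorial : ℝ) * 3 ^ i) :=
              mul_le_mul_of_nonneg_left (k13_exp i i) (by positivity)
          _ = (3 * (d : ℝ)) ^ i * (i.factorial : ℝ) := by rw [mul_pow]; ring
          _ ≤ _ := mul_le_mul_of_nonneg_right
              (pow_le_pow_right₀ (by nlinarith) hij) (by positivity)
      calc (j : ℝ) ^ i / (n : ℝ) ^ i ≤ ((3 * (d : ℝ)) ^ j * (i.factorial : ℝ)) / (n : ℝ) ^ i :=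
            div_le_div_of_nonneg_right h7 (by positivity)
        _ = _ := by ring
  calc 1 / (r.choose j : ℝ) ≤ (2 * (j : ℝ) / n) ^ j := e1
    _ = 2 ^ j * ((j : ℝ) / n) ^ (j - i - h) * ((j : ℝ) / n) ^ h * ((j : ℝ) / n) ^ i := e2
    _ ≤ 2 ^ j * (d : ℝ) ^ j * ((d.factorial : ℝ) * 3 ^ j * (1 / (n : ℝ)) ^ h) *
        ((3 * (d : ℝ)) ^ j * ((i.factorial : ℝ) / (n : ℝ) ^ i)) := by
        gcongr
    _ = (d.factorial : ℝ) * (18 * (d : ℝ) ^ 2) ^ j * ((1 / (n : ℝ)) ^ h) *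
        ((i.factorial : ℝ) / (n : ℝ) ^ i) := by
        have : (18 * (d : ℝ) ^ 2) ^ j = 2 ^ j * (d : ℝ) ^ j * 3 ^ j * (3 * (d : ℝ)) ^ j := by
          rw [← mul_pow, ← mul_pow, ← mul_pow]
          congr 1
          ring
        rw [this]
        ring
    _ ≤ _ := by
        gcongr
        norm_num


/-- Sum over the sets of active vertices. -/
lemma k13_powerset (n : ℕ) (v₀ : Fin n) (β : ℝ) (hβ : 0 ≤ β) (hβ' : β ≤ 1 / 2) :
    ∑ T ∈ (Finset.univ.erase v₀).powerset.erase ∅,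
      ((T.card.factorial : ℝ) / (n : ℝ) ^ T.card) * β ^ T.card ≤ 2 * β := by
  have hn : 1 ≤ n := Nat.one_le_iff_ne_zero.2 (by
    rintro rfl
    exact Fin.elim0 v₀)
  have hn' : (0 : ℝ) < n := by exact_mod_cast hn
  set f : ℕ → ℝ := fun i => if i = 0 then 0 else ((i.factorial : ℝ) / (n : ℝ) ^ i) * β ^ i with hf
  have h1 : ∑ T ∈ (Finset.univ.erase v₀).powerset.erase ∅,
      ((T.card.factorial : ℝ) / (n : ℝ) ^ T.card) * β ^ T.card =
      ∑ T ∈ (Finset.univ.erase v₀).powerset, f T.card := by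
    have hmem : (∅ : Finset (Fin n)) ∈ (Finset.univ.erase v₀).powerset := by simp
    rw [← Finset.add_sum_erase _ _ hmem]
    have : f (∅ : Finset (Fin n)).card = 0 := by simp [hf]
    rw [this, zero_add]
    refine Finset.sum_congr rfl fun T hT => ?_
    have hT' : T.card ≠ 0 := by
      rw [Finset.mem_erase] at hT
      exact fun h => hT.1 (Finset.card_eq_zero.1 h)
    simp only [hf, if_neg hT']
  rw [h1, Finset.sum_powerset_apply_card]
  have hcard : (Finset.univ.erase v₀).card = n - 1 := by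
    rw [Finset.card_erase_of_mem (Finset.mem_univ _), Finset.card_univ, Fintype.card_fin]
  rw [hcard]
  have h2 : ∀ i ∈ Finset.range (n - 1 + 1), (n - 1).choose i • f i ≤ if i = 0 then 0 else β ^ i := by
    intro i _
    simp only [hf]
    split_ifs with hi
    · simp
    · rw [nsmul_eq_mul]
      have h3 : ((n - 1).choose i : ℝ) * (i.factorial : ℝ) ≤ (n : ℝ) ^ i := by
        have h4 : (n - 1).choose i * i.factorial ≤ n ^ i := by
          have h5 := Nat.descFactorial_eq_factorial_mul_choose (n - 1) i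
          have h6 := Nat.descFactorial_le_pow (n - 1) i
          calc (n - 1).choose i * i.factorial = (n - 1).descFactorial i := by rw [h5, mul_comm]
            _ ≤ (n - 1) ^ i := h6
            _ ≤ n ^ i := Nat.pow_le_pow_left (Nat.sub_le _ _) i
        exact_mod_cast h4
      calc ((n - 1).choose i : ℝ) * ((i.factorial : ℝ) / (n : ℝ) ^ i * β ^ i)
          = (((n - 1).choose i : ℝ) * (i.factorial : ℝ)) / (n : ℝ) ^ i * β ^ i := by ring
        _ ≤ (n : ℝ) ^ i / (n : ℝ) ^ i * β ^ i := by gcongr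
        _ = β ^ i := by rw [div_self (by positivity), one_mul]
  refine (Finset.sum_le_sum h2).trans ?_
  rw [Finset.sum_range_succ']
  simp only [if_true, add_zero, Nat.add_eq_zero_iff, one_ne_zero, and_false, if_false]
  have h3 : ∀ m : ℕ, ∑ i ∈ Finset.range m, β ^ (i + 1) ≤ 2 * β - 2 * (β * β ^ m) := by
    intro m
    induction m with
    | zero => simp
    | succ m ih =>
      rw [Finset.sum_range_succ]
      have hp : 0 ≤ β ^ m := by positivity
      have : β ^ (m + 1) = β * β ^ m := by ring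
      have h8 : β * β ^ (m + 1) ≤ (1 / 2) * (β * β ^ m) := by
        have : 0 ≤ β * β ^ m := by positivity
        calc β * β ^ (m + 1) = β * (β * β ^ m) := by ring
          _ ≤ (1 / 2) * (β * β ^ m) := mul_le_mul_of_nonneg_right hβ' this
      have h9 : β ^ (m + 1) = β * β ^ m := by ring
      linarith
  have h4 := h3 (n - 1)
  have h5 : 0 ≤ β * β ^ (n - 1) := by positivity
  linarith

/-- The active vertices other than `v₀`. -/
noncomputable def k13_act {n d : ℕ} (v₀ : Fin n) (c : Fin n → Fin d → Bool) : Finset (Fin n) :=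
  (Finset.univ.erase v₀).filter (fun v => sz (c v) ≠ 0)

/-- The factor of the special vertex. -/
noncomputable def k13_g (d n : ℕ) (mu : ℝ) (s : ℕ) : ℝ :=
  (1 / (n : ℝ)) ^ ((s + 1) / 2) * (5 * (d : ℝ) ^ 2 / mu) ^ s

/-- The factors in the product bound. -/
noncomputable def k13_phi {n d : ℕ} (v₀ : Fin n) (b mu : ℝ) (T : Finset (Fin n)) (v : Fin n)
    (x : Fin d → Bool) : ℝ :=
  if v = v₀ then (if T = ∅ ∧ sz x = 0 then 0 else k13_g d n mu (sz x)) else
    if v ∈ T then (if 2 ≤ sz x then b ^ sz x else 0) else (if sz x = 0 then 1 else 0)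

lemma k13_sz_le {d : ℕ} (x : Fin d → Bool) : sz x ≤ d := by
  unfold sz
  exact (Finset.card_le_univ _).trans (by simp)

lemma k13_phi_nonneg {n d : ℕ} (v₀ : Fin n) (b mu : ℝ) (hb : 0 ≤ b) (hmu : 0 ≤ mu)
    (T : Finset (Fin n)) (v : Fin n) (x : Fin d → Bool) : 0 ≤ k13_phi v₀ b mu T v x := by
  unfold k13_phi k13_g
  split_ifs <;> positivity

/-- The bound for one configuration. -/
lemma k13_one {n d r : ℕ} (hd : 1 ≤ d) (hr : 2 * r = d * n) (A mu : ℝ)
    (hA : 1 ≤ A) (hmu : 0 < mu) (v₀ : Fin n) (c : Fin n → Fin d → Bool)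
    (hc : ∃ v, sz (c v) ≠ 0) (hev : Even (∑ v, sz (c v))) :
    (1 / (r.choose ((∑ v, sz (c v)) / 2) : ℝ)) * (((d : ℝ) / mu) ^ sz (c v₀) *
      ∏ v ∈ Finset.univ.erase v₀, tw A mu (sz (c v))) ≤
    (d.factorial : ℝ) * (((k13_act v₀ c).card.factorial : ℝ) / (n : ℝ) ^ (k13_act v₀ c).card) *
      ∏ v, k13_phi v₀ (5 * d * A * mu) mu (k13_act v₀ c) v (c v) := by
  have hn : 1 ≤ n := Nat.one_le_iff_ne_zero.2 (by
    rintro rfl
    exact Fin.elim0 v₀)
  have hn' : (0 : ℝ) < n := by exact_mod_cast hn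
  have hd' : (1 : ℝ) ≤ d := by exact_mod_cast hd
  have hb : (0 : ℝ) < 5 * d * A * mu := by positivity
  by_cases h1 : ∃ v ∈ Finset.univ.erase v₀, sz (c v) = 1
  · obtain ⟨v, hv, hv1⟩ := h1
    have : ∏ v ∈ Finset.univ.erase v₀, tw A mu (sz (c v)) = 0 := by
      refine Finset.prod_eq_zero hv ?_
      simp [tw, hv1]
    rw [this, mul_zero, mul_zero]
    refine mul_nonneg (by positivity) (Finset.prod_nonneg fun v _ =>
      k13_phi_nonneg v₀ _ mu hb.le hmu.le _ v _)
  push Not at h1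
  set T := k13_act v₀ c with hT
  set i := T.card with hi
  obtain ⟨j, hj⟩ := hev
  have hj2 : (∑ v, sz (c v)) / 2 = j := by omega
  rw [hj2]
  set s := sz (c v₀) with hs
  have hTsub : T ⊆ Finset.univ.erase v₀ := Finset.filter_subset _ _
  have hsum1 : ∑ v, sz (c v) = s + ∑ v ∈ Finset.univ.erase v₀, sz (c v) :=
    (Finset.add_sum_erase _ _ (Finset.mem_univ v₀)).symm
  have hsum2 : ∑ v ∈ Finset.univ.erase v₀, sz (c v) = ∑ v ∈ T, sz (c v) := by
    refine (Finset.sum_subset hTsub ?_).symm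
    intro v hv hvT
    by_contra h
    exact hvT (by
      rw [hT, k13_act, Finset.mem_filter]
      exact ⟨hv, h⟩)
  have hge : ∀ v ∈ T, 2 ≤ sz (c v) := by
    intro v hv
    have hv' := hv
    rw [hT, k13_act, Finset.mem_filter] at hv'
    have := h1 v hv'.1
    omega
  have hlow : 2 * i ≤ ∑ v ∈ T, sz (c v) := by
    have := Finset.card_nsmul_le_sum T (fun v => sz (c v)) 2 hge
    simpa [mul_comm] using this
  have hup : ∑ v ∈ T, sz (c v) ≤ d * i := by
    have := Finset.sum_le_card_nsmul T (fun v => sz (c v)) d (fun v _ => k13_sz_le _)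
    simpa [mul_comm] using this
  have hj3 : 2 * j = s + ∑ v ∈ T, sz (c v) := by omega
  have hjpos : 1 ≤ j := by
    obtain ⟨v, hv⟩ := hc
    have : sz (c v) ≤ ∑ v, sz (c v) := Finset.single_le_sum (f := fun v => sz (c v)) (fun _ _ => Nat.zero_le _) (Finset.mem_univ v)
    omega
  have hjr : j ≤ r := by
    have : ∑ v, sz (c v) ≤ ∑ _v : Fin n, d := Finset.sum_le_sum fun v _ => k13_sz_le _
    rw [Finset.sum_const, Finset.card_univ, Fintype.card_fin, smul_eq_mul, mul_comm] at this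
    omega
  have hinv := k13_inv d n r j i s ((s + 1) / 2) hd hn hr hjpos hjr (by omega) (by omega)
    (k13_sz_le _) rfl
  -- the product of tw
  have htw : ∏ v ∈ Finset.univ.erase v₀, tw A mu (sz (c v)) = ∏ v ∈ T, (A * mu) ^ sz (c v) := by
    rw [← Finset.prod_subset hTsub (f := fun v => tw A mu (sz (c v)))]
    · refine Finset.prod_congr rfl fun v hv => ?_
      have := hge v hv
      have h2 : sz (c v) ≠ 0 := by omega
      have h3 : sz (c v) ≠ 1 := by omega
      simp [tw, h2, h3]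
    · intro v hv hvT
      have h0 : sz (c v) = 0 := by
        by_contra h
        exact hvT (by
          rw [hT, k13_act, Finset.mem_filter]
          exact ⟨hv, h⟩)
      simp [tw, h0]
  -- the product of phi
  have hphi : ∏ v, k13_phi v₀ (5 * d * A * mu) mu T v (c v) =
      k13_g d n mu s * ∏ v ∈ T, (5 * d * A * mu) ^ sz (c v) := by
    rw [← Finset.mul_prod_erase _ _ (Finset.mem_univ v₀)]
    congr 1
    · have hne : ¬ (T = ∅ ∧ sz (c v₀) = 0) := by
        rintro ⟨h2, h3⟩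
        obtain ⟨v, hv⟩ := hc
        by_cases h4 : v = v₀
        · rw [h4] at hv
          exact hv h3
        · have h5 : v ∈ T := by
            rw [hT, k13_act, Finset.mem_filter]
            exact ⟨Finset.mem_erase.2 ⟨h4, Finset.mem_univ _⟩, hv⟩
          rw [h2] at h5
          exact absurd h5 (Finset.notMem_empty _)
      simp only [k13_phi, if_true, if_neg hne, hs]
    · rw [← Finset.prod_subset hTsub]
      · refine Finset.prod_congr rfl fun v hv => ?_
        have hne : v ≠ v₀ := (Finset.mem_erase.1 (hTsub hv)).1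
        simp [k13_phi, hne, hv, hge v hv]
      · intro v hv hvT
        have hne : v ≠ v₀ := (Finset.mem_erase.1 hv).1
        have h0 : sz (c v) = 0 := by
          by_contra h
          exact hvT (by
            rw [hT, k13_act, Finset.mem_filter]
            exact ⟨hv, h⟩)
        simp [k13_phi, hne, hvT, h0]
  rw [htw, hphi]
  -- powers
  have hpow : (25 * (d : ℝ) ^ 2) ^ j = (5 * (d : ℝ)) ^ s * ∏ v ∈ T, (5 * (d : ℝ)) ^ sz (c v) := by
    rw [Finset.prod_pow_eq_pow_sum, ← pow_add, ← hj3, pow_mul]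
    congr 1
    ring
  have hprod : ∏ v ∈ T, (5 * d * A * mu) ^ sz (c v) =
      (∏ v ∈ T, (5 * (d : ℝ)) ^ sz (c v)) * ∏ v ∈ T, (A * mu) ^ sz (c v) := by
    rw [← Finset.prod_mul_distrib]
    refine Finset.prod_congr rfl fun v _ => ?_
    rw [← mul_pow]
    congr 1
    ring
  have hPnn : (0 : ℝ) ≤ ∏ v ∈ T, (A * mu) ^ sz (c v) := Finset.prod_nonneg fun v _ => by positivity
  calc (1 / (r.choose j : ℝ)) * (((d : ℝ) / mu) ^ s * ∏ v ∈ T, (A * mu) ^ sz (c v))
      ≤ ((d.factorial : ℝ) * (25 * (d : ℝ) ^ 2) ^ j * ((1 / (n : ℝ)) ^ ((s + 1) / 2)) *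
        ((i.factorial : ℝ) / (n : ℝ) ^ i)) * (((d : ℝ) / mu) ^ s * ∏ v ∈ T, (A * mu) ^ sz (c v)) :=
        mul_le_mul_of_nonneg_right hinv (by positivity)
    _ = _ := by
        rw [hpow, hprod, k13_g]
        have : (5 * (d : ℝ) ^ 2 / mu) ^ s = (5 * (d : ℝ)) ^ s * ((d : ℝ) / mu) ^ s := by
          rw [← mul_pow]
          congr 1
          ring
        rw [this]
        ring

/-- The bound of the factor of the special vertex. -/
lemma k13_g_le (d n : ℕ) (hd : 1 ≤ d) (hn : 1 ≤ n) (lam mu : ℝ) (hmu : 0 < mu) (hmu1 : mu ≤ 1)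
    (hlam : mu ^ 2 = lam) (h1 : 1 ≤ lam * n) (s : ℕ) (hs : 1 ≤ s) (hsd : s ≤ d) :
    k13_g d n mu s ≤ (5 * (d : ℝ) ^ 2) ^ d * (1 / (lam * n)) := by
  have hn' : (0 : ℝ) < n := by exact_mod_cast hn
  have hd' : (1 : ℝ) ≤ d := by exact_mod_cast hd
  have hlam0 : 0 < lam := by rw [← hlam]; positivity
  unfold k13_g
  rw [div_pow (5 * (d : ℝ) ^ 2) mu s]
  have e1 : (5 * (d : ℝ) ^ 2) ^ s ≤ (5 * (d : ℝ) ^ 2) ^ d :=
    pow_le_pow_right₀ (by nlinarith) hsd
  have e2 : (1 / (n : ℝ)) ^ ((s + 1) / 2) ≤ (1 / (lam * n)) * mu ^ s := by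
    -- (1/n)^h = lam^h / (lam n)^h, lam^h = mu^(2h) ≤ mu^s
    have e3 : (1 / (n : ℝ)) ^ ((s + 1) / 2) = (1 / (lam * n)) ^ ((s + 1) / 2) * mu ^ (2 * ((s + 1) / 2)) := by
      rw [pow_mul, hlam, ← mul_pow]
      congr 1
      field_simp
    rw [e3]
    have e4 : (1 / (lam * n)) ^ ((s + 1) / 2) ≤ 1 / (lam * n) := by
      have h0 : (0 : ℝ) ≤ 1 / (lam * n) := by positivity
      have h2 : 1 / (lam * n) ≤ 1 := by
        rw [div_le_one (by positivity)]
        exact h1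
      calc (1 / (lam * n)) ^ ((s + 1) / 2) ≤ (1 / (lam * n)) ^ 1 :=
            pow_le_pow_of_le_one h0 h2 (by omega)
        _ = _ := pow_one _
    have e5 : mu ^ (2 * ((s + 1) / 2)) ≤ mu ^ s :=
      pow_le_pow_of_le_one hmu.le hmu1 (by omega)
    exact mul_le_mul e4 e5 (by positivity) (by positivity)
  calc (1 / (n : ℝ)) ^ ((s + 1) / 2) * ((5 * (d : ℝ) ^ 2) ^ s / mu ^ s)
      ≤ ((1 / (lam * n)) * mu ^ s) * ((5 * (d : ℝ) ^ 2) ^ d / mu ^ s) := by
        refine mul_le_mul e2 (div_le_div_of_nonneg_right e1 (by positivity)) (by positivity)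
          (by positivity)
    _ = (5 * (d : ℝ) ^ 2) ^ d * (1 / (lam * n)) * (mu ^ s / mu ^ s) := by ring
    _ = _ := by rw [div_self (by positivity), mul_one]

/-- The sum over the configurations of the product bound. -/
lemma k13_sum {n d : ℕ} (v₀ : Fin n) (b mu : ℝ) (hb : 0 ≤ b) (hb1 : b ≤ 1) (hmu : 0 ≤ mu)
    (T : Finset (Fin n)) (hT : T ⊆ Finset.univ.erase v₀) (G : ℝ) (hG : 0 ≤ G)
    (hGT : ∀ x : Fin d → Bool, (if T = ∅ ∧ sz x = 0 then 0 else k13_g d n mu (sz x)) ≤ G) :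
    ∑ c : Fin n → Fin d → Bool, ∏ v, k13_phi v₀ b mu T v (c v) ≤
      (2 ^ d * G) * (2 ^ d * b ^ 2) ^ T.card := by
  have h1 : ∑ c : Fin n → Fin d → Bool, ∏ v, k13_phi v₀ b mu T v (c v) =
      ∏ v, ∑ x : Fin d → Bool, k13_phi v₀ b mu T v x := by
    rw [Finset.prod_univ_sum, Fintype.piFinset_univ]
  have hcard : ((Finset.univ : Finset (Fin d → Bool)).card : ℝ) = 2 ^ d := by
    rw [Finset.card_univ]
    simp
  rw [h1, ← Finset.mul_prod_erase _ _ (Finset.mem_univ v₀)]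
  have h2 : ∑ x : Fin d → Bool, k13_phi v₀ b mu T v₀ x ≤ 2 ^ d * G := by
    have : ∑ x : Fin d → Bool, k13_phi v₀ b mu T v₀ x ≤ ∑ _x : Fin d → Bool, G := by
      refine Finset.sum_le_sum fun x _ => ?_
      simp only [k13_phi, if_true]
      exact hGT x
    refine this.trans (le_of_eq ?_)
    rw [Finset.sum_const, nsmul_eq_mul, hcard]
  have h3 : ∏ v ∈ Finset.univ.erase v₀, ∑ x : Fin d → Bool, k13_phi v₀ b mu T v x ≤
      (2 ^ d * b ^ 2) ^ T.card := by
    have h4 : ∀ v ∈ Finset.univ.erase v₀, ∑ x : Fin d → Bool, k13_phi v₀ b mu T v x ≤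
        if v ∈ T then 2 ^ d * b ^ 2 else 1 := by
      intro v hv
      have hne : v ≠ v₀ := (Finset.mem_erase.1 hv).1
      split_ifs with hvT
      · have : ∑ x : Fin d → Bool, k13_phi v₀ b mu T v x ≤ ∑ _x : Fin d → Bool, b ^ 2 := by
          refine Finset.sum_le_sum fun x _ => ?_
          simp only [k13_phi, if_neg hne, if_pos hvT]
          split_ifs with h5
          · exact pow_le_pow_of_le_one hb hb1 h5
          · positivity
        refine this.trans (le_of_eq ?_)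
        rw [Finset.sum_const, nsmul_eq_mul, hcard]
      · have : ∑ x : Fin d → Bool, k13_phi v₀ b mu T v x =
            ((Finset.univ.filter (fun x : Fin d → Bool => sz x = 0)).card : ℝ) := by
          rw [Finset.card_filter]
          push_cast
          refine Finset.sum_congr rfl fun x _ => ?_
          simp only [k13_phi, if_neg hne, if_neg hvT]
        rw [this]
        have hc : (Finset.univ.filter (fun x : Fin d → Bool => sz x = 0)).card ≤ 1 := by
          rw [Finset.card_le_one]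
          intro x hx y hy
          rw [Finset.mem_filter] at hx hy
          have key : ∀ z : Fin d → Bool, sz z = 0 → ∀ i, z i = false := by
            intro z hz i
            unfold sz at hz
            rw [Finset.card_eq_zero] at hz
            by_contra h
            have : i ∈ Finset.univ.filter (fun i => z i = true) := by
              rw [Finset.mem_filter]
              exact ⟨Finset.mem_univ _, by simpa using h⟩
            rw [hz] at this
            exact absurd this (Finset.notMem_empty _)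
          funext i
          rw [key x hx.2 i, key y hy.2 i]
        exact_mod_cast hc
    refine (Finset.prod_le_prod (fun v _ => Finset.sum_nonneg fun x _ =>
      k13_phi_nonneg v₀ b mu hb hmu T v x) h4).trans (le_of_eq ?_)
    rw [← Finset.prod_subset hT (f := fun v => if v ∈ T then 2 ^ d * b ^ 2 else (1 : ℝ))]
    · rw [Finset.prod_congr rfl (fun v hv => if_pos hv), Finset.prod_const]
    · intro v _ hvT
      exact if_neg hvT
  exact mul_le_mul h2 h3 (Finset.prod_nonneg fun v _ => Finset.sum_nonneg fun x _ =>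
      k13_phi_nonneg v₀ b mu hb hmu T v x) (by positivity)

/-- The bound for a fixed special vertex. -/
lemma k13_fix {n d r : ℕ} (hd : 1 ≤ d) (hr : 2 * r = d * n) (A lam mu : ℝ) (hn : 1 ≤ n)
    (hA : 1 ≤ A) (hmu : 0 < mu) (hlam : mu ^ 2 = lam) (hlam1 : lam ≤ 1)
    (hlam2 : 2 ^ d * (25 * (d : ℝ) ^ 2 * A ^ 2) * lam ≤ 1 / 2) (h1 : 1 ≤ lam * n) (v₀ : Fin n) :
    ∑ c ∈ Finset.univ.filter (fun c : Fin n → Fin d → Bool =>
          (∃ v, sz (c v) ≠ 0) ∧ Even (∑ v, sz (c v))),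
        (1 / (r.choose ((∑ v, sz (c v)) / 2) : ℝ)) * (((d : ℝ) / mu) ^ sz (c v₀) *
      ∏ v ∈ Finset.univ.erase v₀, tw A mu (sz (c v))) ≤
      (d.factorial : ℝ) * (2 ^ d * (5 * (d : ℝ) ^ 2) ^ d) *
        (2 * (2 ^ d * (25 * (d : ℝ) ^ 2 * A ^ 2) * lam) + 1 / (lam * n)) := by
  have hn' : (0 : ℝ) < n := by exact_mod_cast hn
  have hd' : (1 : ℝ) ≤ d := by exact_mod_cast hd
  have hlam0 : 0 < lam := by rw [← hlam]; positivity
  have hmu1 : mu ≤ 1 := by
    by_contra h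
    push Not at h
    nlinarith
  set b : ℝ := 5 * d * A * mu with hb
  have hb0 : 0 ≤ b := by positivity
  have hb2 : b ^ 2 = (25 * (d : ℝ) ^ 2 * A ^ 2) * lam := by
    rw [hb, ← hlam]
    ring
  have h2d : (1 : ℝ) ≤ 2 ^ d := one_le_pow₀ (by norm_num)
  have hb1 : b ≤ 1 := by
    have : b ^ 2 ≤ 1 := by
      rw [hb2]
      have h3 : (25 * (d : ℝ) ^ 2 * A ^ 2) * lam ≤ 2 ^ d * ((25 * (d : ℝ) ^ 2 * A ^ 2) * lam) :=
        le_mul_of_one_le_left (by positivity) h2d
      linarith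
    nlinarith
  set G : Finset (Fin n) → (Fin n → Fin d → Bool) → ℝ := fun T c =>
    (d.factorial : ℝ) * ((T.card.factorial : ℝ) / (n : ℝ) ^ T.card) *
      ∏ v, k13_phi v₀ b mu T v (c v) with hG
  have hGnn : ∀ T c, 0 ≤ G T c := by
    intro T c
    exact mul_nonneg (by positivity) (Finset.prod_nonneg fun v _ =>
      k13_phi_nonneg v₀ b mu hb0 hmu.le T v _)
  have step1 : ∑ c ∈ Finset.univ.filter (fun c : Fin n → Fin d → Bool =>
          (∃ v, sz (c v) ≠ 0) ∧ Even (∑ v, sz (c v))),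
        (1 / (r.choose ((∑ v, sz (c v)) / 2) : ℝ)) * (((d : ℝ) / mu) ^ sz (c v₀) *
      ∏ v ∈ Finset.univ.erase v₀, tw A mu (sz (c v))) ≤
      ∑ c : Fin n → Fin d → Bool, ∑ T ∈ (Finset.univ.erase v₀).powerset, G T c := by
    refine le_trans (Finset.sum_le_sum (g := fun c => ∑ T ∈ (Finset.univ.erase v₀).powerset, G T c)
      ?_) (Finset.sum_le_sum_of_subset_of_nonneg (Finset.filter_subset _ _)
        (fun c _ _ => Finset.sum_nonneg fun T _ => hGnn T c))
    intro c hc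
    rw [Finset.mem_filter] at hc
    refine (k13_one hd hr A mu hA hmu v₀ c hc.2.1 hc.2.2).trans ?_
    exact Finset.single_le_sum (f := fun T => G T c) (fun T _ => hGnn T c)
      (Finset.mem_powerset.2 (Finset.filter_subset _ _))
  refine step1.trans ?_
  rw [Finset.sum_comm]
  have hmem : (∅ : Finset (Fin n)) ∈ (Finset.univ.erase v₀).powerset := by simp
  rw [← Finset.add_sum_erase _ _ hmem]
  have hKpos : (0 : ℝ) ≤ (5 * (d : ℝ) ^ 2) ^ d := by positivity
  have hK1 : (1 : ℝ) ≤ (5 * (d : ℝ) ^ 2) ^ d := one_le_pow₀ (by nlinarith)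
  have h4 : 1 / (lam * n) ≤ 1 := by
    rw [div_le_one (by positivity)]
    exact h1
  have hsplit : ∀ T : Finset (Fin n), ∑ c : Fin n → Fin d → Bool, G T c =
      (d.factorial : ℝ) * ((T.card.factorial : ℝ) / (n : ℝ) ^ T.card) *
        ∑ c : Fin n → Fin d → Bool, ∏ v, k13_phi v₀ b mu T v (c v) := by
    intro T
    rw [Finset.mul_sum]
  have hempty : ∑ c : Fin n → Fin d → Bool, G ∅ c ≤
      (d.factorial : ℝ) * (2 ^ d * (5 * (d : ℝ) ^ 2) ^ d) * (1 / (lam * n)) := by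
    rw [hsplit]
    have h5 := k13_sum v₀ b mu hb0 hb1 hmu.le ∅ (by simp) ((5 * (d : ℝ) ^ 2) ^ d * (1 / (lam * n)))
      (by positivity) (by
        intro x
        by_cases h6 : sz x = 0
        · rw [if_pos ⟨rfl, h6⟩]
          positivity
        · rw [if_neg (fun h => h6 h.2)]
          exact k13_g_le d n hd hn lam mu hmu hmu1 hlam h1 _ (Nat.one_le_iff_ne_zero.2 h6)
            (k13_sz_le x))
    calc (d.factorial : ℝ) * (((∅ : Finset (Fin n)).card.factorial : ℝ) /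
          (n : ℝ) ^ (∅ : Finset (Fin n)).card) *
        ∑ c : Fin n → Fin d → Bool, ∏ v, k13_phi v₀ b mu ∅ v (c v)
        ≤ (d.factorial : ℝ) * (((∅ : Finset (Fin n)).card.factorial : ℝ) /
          (n : ℝ) ^ (∅ : Finset (Fin n)).card) *
          ((2 ^ d * ((5 * (d : ℝ) ^ 2) ^ d * (1 / (lam * n)))) *
            (2 ^ d * b ^ 2) ^ (∅ : Finset (Fin n)).card) :=
          mul_le_mul_of_nonneg_left h5 (by positivity)
      _ = _ := by
          simp only [Finset.card_empty, Nat.factorial_zero, Nat.cast_one, pow_zero, div_one,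
            mul_one]
          ring
  have hrest : ∑ T ∈ (Finset.univ.erase v₀).powerset.erase ∅, ∑ c : Fin n → Fin d → Bool, G T c ≤
      (d.factorial : ℝ) * (2 ^ d * (5 * (d : ℝ) ^ 2) ^ d) *
        (2 * (2 ^ d * (25 * (d : ℝ) ^ 2 * A ^ 2) * lam)) := by
    have h6 : ∀ T ∈ (Finset.univ.erase v₀).powerset.erase ∅,
        ∑ c : Fin n → Fin d → Bool, G T c ≤
        (d.factorial : ℝ) * (2 ^ d * (5 * (d : ℝ) ^ 2) ^ d) *
          (((T.card.factorial : ℝ) / (n : ℝ) ^ T.card) * (2 ^ d * b ^ 2) ^ T.card) := by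
      intro T hT
      rw [Finset.mem_erase, Finset.mem_powerset] at hT
      rw [hsplit]
      have h7 := k13_sum v₀ b mu hb0 hb1 hmu.le T hT.2 ((5 * (d : ℝ) ^ 2) ^ d)
        (by positivity) (by
          intro x
          rw [if_neg (fun h => hT.1 h.1)]
          by_cases h8 : sz x = 0
          · rw [h8]
            simpa [k13_g] using hK1
          · refine (k13_g_le d n hd hn lam mu hmu hmu1 hlam h1 _ (Nat.one_le_iff_ne_zero.2 h8)
              (k13_sz_le x)).trans ?_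
            exact mul_le_of_le_one_right hKpos h4)
      calc (d.factorial : ℝ) * ((T.card.factorial : ℝ) / (n : ℝ) ^ T.card) *
          ∑ c : Fin n → Fin d → Bool, ∏ v, k13_phi v₀ b mu T v (c v)
          ≤ (d.factorial : ℝ) * ((T.card.factorial : ℝ) / (n : ℝ) ^ T.card) *
            ((2 ^ d * ((5 * (d : ℝ) ^ 2) ^ d)) * (2 ^ d * b ^ 2) ^ T.card) :=
            mul_le_mul_of_nonneg_left h7 (by positivity)
        _ = _ := by ring
    refine (Finset.sum_le_sum h6).trans ?_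
    rw [← Finset.mul_sum]
    refine mul_le_mul_of_nonneg_left ?_ (by positivity)
    have hβ : 2 ^ d * b ^ 2 = 2 ^ d * (25 * (d : ℝ) ^ 2 * A ^ 2) * lam := by
      rw [hb2]
      ring
    rw [hβ]
    exact k13_powerset n v₀ _ (by positivity) hlam2
  calc _ ≤ (d.factorial : ℝ) * (2 ^ d * (5 * (d : ℝ) ^ 2) ^ d) * (1 / (lam * n)) +
      (d.factorial : ℝ) * (2 ^ d * (5 * (d : ℝ) ^ 2) ^ d) *
        (2 * (2 ^ d * (25 * (d : ℝ) ^ 2 * A ^ 2) * lam)) := add_le_add hempty hrest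
    _ = _ := by ring

theorem K13 (d : ℕ) (hd : 1 ≤ d) (A : ℝ) (hA : 1 ≤ A) : ∃ C lam₀ : ℝ, 0 < C ∧ 0 < lam₀ ∧
    ∀ (n r : ℕ) (lam mu : ℝ), 1 ≤ n → 2 * r = d * n → 0 < mu → mu ^ 2 = lam → lam ≤ lam₀ →
      1 ≤ lam * n →
      ∑ c ∈ Finset.univ.filter (fun c : Fin n → Fin d → Bool =>
          (∃ v, sz (c v) ≠ 0) ∧ Even (∑ v, sz (c v))),
        (1 / (r.choose ((∑ v, sz (c v)) / 2) : ℝ)) *
          ((1 / (n : ℝ)) * ∑ v₀, ((d : ℝ) / mu) ^ sz (c v₀) *
            ∏ v ∈ Finset.univ.erase v₀, tw A mu (sz (c v))) ≤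
      C * (lam + 1 / (lam * n)) := by
  have hd' : (1 : ℝ) ≤ d := by exact_mod_cast hd
  set a : ℝ := 2 ^ d * (25 * (d : ℝ) ^ 2 * A ^ 2) with ha
  have ha0 : 0 < a := by positivity
  set B : ℝ := (d.factorial : ℝ) * (2 ^ d * (5 * (d : ℝ) ^ 2) ^ d) with hB
  have hB0 : 0 < B := by positivity
  refine ⟨B * (2 * a + 1), min 1 (1 / (2 * a)), by positivity, by positivity, ?_⟩
  intro n r lam mu hn hr hmu hlam hlam0 h1
  have hn' : (0 : ℝ) < n := by exact_mod_cast hn
  have hlampos : 0 < lam := by rw [← hlam]; positivity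
  have hl1 : lam ≤ 1 := hlam0.trans (min_le_left _ _)
  have hl2 : a * lam ≤ 1 / 2 := by
    have h2 : lam ≤ 1 / (2 * a) := hlam0.trans (min_le_right _ _)
    rw [le_div_iff₀ (by positivity)] at h2
    linarith
  have h3 := fun v₀ => k13_fix (n := n) (d := d) (r := r) hd hr A lam mu hn hA hmu hlam hl1 hl2 h1 v₀
  have h4 : ∑ c ∈ Finset.univ.filter (fun c : Fin n → Fin d → Bool =>
          (∃ v, sz (c v) ≠ 0) ∧ Even (∑ v, sz (c v))),
        (1 / (r.choose ((∑ v, sz (c v)) / 2) : ℝ)) *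
          ((1 / (n : ℝ)) * ∑ v₀, ((d : ℝ) / mu) ^ sz (c v₀) *
            ∏ v ∈ Finset.univ.erase v₀, tw A mu (sz (c v))) =
      (1 / (n : ℝ)) * ∑ v₀, ∑ c ∈ Finset.univ.filter (fun c : Fin n → Fin d → Bool =>
          (∃ v, sz (c v) ≠ 0) ∧ Even (∑ v, sz (c v))),
        (1 / (r.choose ((∑ v, sz (c v)) / 2) : ℝ)) * (((d : ℝ) / mu) ^ sz (c v₀) *
            ∏ v ∈ Finset.univ.erase v₀, tw A mu (sz (c v))) := by
    rw [Finset.sum_comm, Finset.mul_sum]
    refine Finset.sum_congr rfl fun c _ => ?_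
    rw [← Finset.mul_sum]
    ring
  rw [h4]
  calc (1 / (n : ℝ)) * ∑ v₀, ∑ c ∈ Finset.univ.filter (fun c : Fin n → Fin d → Bool =>
          (∃ v, sz (c v) ≠ 0) ∧ Even (∑ v, sz (c v))),
        (1 / (r.choose ((∑ v, sz (c v)) / 2) : ℝ)) * (((d : ℝ) / mu) ^ sz (c v₀) *
            ∏ v ∈ Finset.univ.erase v₀, tw A mu (sz (c v)))
      ≤ (1 / (n : ℝ)) * ∑ _v₀ : Fin n, B * (2 * (a * lam) + 1 / (lam * n)) :=
        mul_le_mul_of_nonneg_left (Finset.sum_le_sum fun v₀ _ => h3 v₀) (by positivity)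
    _ = B * (2 * (a * lam) + 1 / (lam * n)) := by
        rw [Finset.sum_const, Finset.card_univ, Fintype.card_fin, nsmul_eq_mul]
        field_simp
    _ ≤ B * ((2 * a + 1) * (lam + 1 / (lam * n))) := by
        refine mul_le_mul_of_nonneg_left ?_ hB0.le
        have h5 : 0 ≤ 1 / (lam * n) := by positivity
        nlinarith [mul_nonneg ha0.le h5]
    _ = _ := by ring

end Pool.Agent.HC
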