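import Pool.Agent.Lib.MP_ec42c8_pr.K09
import Pool.Agent.Lib.MP_ec42c8_pr.K10
import Pool.Agent.Lib.MP_ec42c8_pr.K13
import Pool.Agent.Lib.MP_ec42c8_pr.P06

/-!
# K14 : concentration for pairings

PROOF.  Let `mu = √lam`, `y` from `K11`, `m = y / mu`, so `mu / d ≤ m ≤ mu ≤ 1` and `mu m = y`; the hypothesis
of `K10b` is `K11`.  For `v₀` let `f_{v₀} = gmu mu` and `f_v = fmu mu` for `v ≠ v₀`; then
`ZP mu π = ∑ v₀, ∑ x invariant, ∏ v, f_v (x v)` (`fmu` at `sz = d` is `mu ^ d / d!`).  By `K09` this is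
`∑ v₀, ∑ c invariant, ∏ v, hat m f_v (c v)`.  The term `c = 0` (all `false`) gives
`M := n · hat m (gmu mu) 0 · (hat m (fmu mu) 0) ^ (n-1) > 0`.  For the other `c`, by `K10b`, `K10c`, `K10d`,
`|∏ v, hat m f_v (c v)| ≤ (M / n) m ^ (-sz (c v₀)) ∏ v ≠ v₀, tw A mu (sz (c v))` with `A = 2 ^ (d+1)`, and
`m⁻¹ ≤ d / mu`.  The average over `π` of `1{InvP π c}` is `0` if `|c|` is odd (`P06b`) and at most
`1 / C(r, |c|/2)` otherwise (`P06`, `Q = {p | c p = true}`).  Sum: `K13`.
-/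

set_option autoImplicit false

namespace Pool.Agent.HC

open Finset
open scoped Classical

section inst
lemma k14_inst {Ω : Type*} (i j : Fintype Ω) (A : Ω → Prop) : @pr Ω i A = @pr Ω j A := by
  rw [Subsingleton.elim i j]

variable {P : Type} [Fintype P] [inst : Fintype (Pairing P)]

lemma k14_P06 (r j : ℕ) (hP : Fintype.card P = 2 * r) (Q : Finset P) (hQ : Q.card = 2 * j) :
    pr (fun π : Pairing P => ∀ p, p ∈ Q ↔ π.1 p ∈ Q) ≤ 1 / (r.choose j : ℝ) := by
  have h := P06 r j hP Q hQ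
  exact (le_of_eq (k14_inst _ _ _)).trans h

end inst

/-- The set of points with value `true`. -/
noncomputable def k14_Q {n d : ℕ} (c : Fin n → Fin d → Bool) : Finset (Fin n × Fin d) :=
  Finset.univ.filter (fun p => c p.1 p.2 = true)

lemma k14_inv {n d : ℕ} (π : Pairing (Fin n × Fin d)) (c : Fin n → Fin d → Bool) :
    InvP π c ↔ ∀ p, p ∈ k14_Q c ↔ π.1 p ∈ k14_Q c := by
  unfold InvP k14_Q
  refine forall_congr' fun p => ?_
  simp only [Finset.mem_filter, Finset.mem_univ, true_and]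
  rw [Bool.eq_iff_iff]
  exact ⟨fun h => h.symm, fun h => h.symm⟩

lemma k14_card {n d : ℕ} (c : Fin n → Fin d → Bool) : (k14_Q c).card = ∑ v, sz (c v) := by
  unfold k14_Q sz
  rw [Finset.card_filter, Fintype.sum_prod_type]
  refine Finset.sum_congr rfl fun v _ => ?_
  rw [Finset.card_filter]

lemma k14_pr {n d r : ℕ} (hr : 2 * r = d * n) (c : Fin n → Fin d → Bool) :
    pr (fun π : Pairing (Fin n × Fin d) => InvP π c) ≤
      if Even (∑ v, sz (c v)) then 1 / (r.choose ((∑ v, sz (c v)) / 2) : ℝ) else 0 := by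
  have h0 : pr (fun π : Pairing (Fin n × Fin d) => InvP π c) =
      pr (fun π : Pairing (Fin n × Fin d) => ∀ p, p ∈ k14_Q c ↔ π.1 p ∈ k14_Q c) :=
    pr_congr fun π => k14_inv π c
  rw [h0]
  split_ifs with h
  · refine k14_P06 r _ ?_ (k14_Q c) ?_
    · rw [Fintype.card_prod, Fintype.card_fin, Fintype.card_fin, hr, mul_comm]
    · rw [k14_card]
      obtain ⟨j, hj⟩ := h
      omega
  · refine le_of_eq ?_
    have h1 : ∀ π : Pairing (Fin n × Fin d), (∀ p, p ∈ k14_Q c ↔ π.1 p ∈ k14_Q c) ↔ False := by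
      intro π
      rw [← k14_card] at h
      exact ⟨fun h2 => P06b (k14_Q c) h π h2, fun h2 => h2.elim⟩
    rw [pr_congr h1, pr_false]

lemma k14_sz0 {d : ℕ} (c : Fin d → Bool) : sz c = 0 ↔ c = fun _ => false := by
  unfold sz
  rw [Finset.card_eq_zero, Finset.filter_eq_empty_iff]
  constructor
  · intro h
    funext i
    simpa using h (Finset.mem_univ i)
  · rintro rfl
    simp

/-- The functions at the vertices. -/
noncomputable def k14_f {n d : ℕ} (mu : ℝ) (v₀ v : Fin n) : (Fin d → Bool) → ℝ :=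
  if v = v₀ then gmu mu else fmu mu

lemma k14_Z {n d : ℕ} (mu : ℝ) (π : Pairing (Fin n × Fin d)) :
    ZP mu π = ∑ v₀ : Fin n, ∑ x ∈ Finset.univ.filter (fun x : Fin n → Fin d → Bool => InvP π x),
      ∏ v, k14_f mu v₀ v (x v) := by
  unfold ZP
  rw [Finset.sum_comm]
  refine Finset.sum_congr rfl fun x _ => ?_
  have h1 : ((Finset.univ.filter (fun v => sz (x v) = d)).card : ℝ) =
      ∑ v₀ : Fin n, (if sz (x v₀) = d then (1 : ℝ) else 0) := by
    rw [Finset.card_filter]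
    push_cast
    rfl
  rw [h1, Finset.sum_mul]
  refine Finset.sum_congr rfl fun v₀ _ => ?_
  rw [← Finset.mul_prod_erase _ _ (Finset.mem_univ v₀),
    ← Finset.mul_prod_erase Finset.univ (fun v => k14_f mu v₀ v (x v)) (Finset.mem_univ v₀),
    ← mul_assoc]
  congr 1
  · simp only [k14_f, if_true, gmu]
    split_ifs with h2
    · rw [one_mul, h2, Nat.descFactorial_self]
    · rw [zero_mul]
  · refine Finset.prod_congr rfl fun v hv => ?_
    have hne : v ≠ v₀ := (Finset.mem_erase.1 hv).1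
    simp only [k14_f, if_neg hne, fmu]

/-- The weight of a configuration. -/
noncomputable def k14_W {n d : ℕ} (A mu : ℝ) (c : Fin n → Fin d → Bool) : ℝ :=
  (1 / (n : ℝ)) * ∑ v₀, ((d : ℝ) / mu) ^ sz (c v₀) *
            ∏ v ∈ Finset.univ.erase v₀, tw A mu (sz (c v))

lemma k14_tw_nonneg (A mu : ℝ) (hA : 0 ≤ A) (hmu : 0 ≤ mu) (s : ℕ) : 0 ≤ tw A mu s := by
  unfold tw
  split_ifs <;> positivity

lemma k14_W_nonneg {n d : ℕ} (A mu : ℝ) (hA : 0 ≤ A) (hmu : 0 < mu) (c : Fin n → Fin d → Bool) :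
    0 ≤ k14_W A mu c := by
  unfold k14_W
  refine mul_nonneg (by positivity) (Finset.sum_nonneg fun v₀ _ => mul_nonneg (by positivity)
    (Finset.prod_nonneg fun v _ => k14_tw_nonneg A mu hA hmu.le _))

/-- The main pointwise bound. -/
lemma k14_pt {n d : ℕ} (hd : 1 ≤ d) (hn : 1 ≤ n) (mu m : ℝ) (hm : 0 < m) (hmm : m ≤ mu)
    (hmu : mu ≤ 1) (hmd : 1 / m ≤ d / mu)
    (hgauge : mu ^ 2 * Ed (d - 1) (mu * m) =
      mu * m * ∑ j ∈ Finset.range d, ((d : ℝ) - j) * (mu * m) ^ j / (j.factorial : ℝ))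
    (π : Pairing (Fin n × Fin d)) (c₀ : Fin d → Bool) (hc₀ : c₀ = fun _ => false) (M : ℝ)
    (hM : M = n * (hat m (gmu mu) c₀ * (hat m (fmu mu) c₀) ^ (n - 1))) :
    |ZP mu π - M| ≤ ∑ c ∈ Finset.univ.filter (fun c : Fin n → Fin d → Bool => ∃ v, sz (c v) ≠ 0),
      (if InvP π c then (1 : ℝ) else 0) * (M * k14_W (2 ^ (d + 1)) mu c) := by
  have hn' : (0 : ℝ) < n := by exact_mod_cast hn
  have hmu0 : 0 < mu := lt_of_lt_of_le hm hmm
  have hs0 : sz c₀ = 0 := (k14_sz0 c₀).2 hc₀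
  set g0 := hat m (gmu mu) c₀ with hg0
  set h0 := hat m (fmu mu) c₀ with hh0
  have hg0pos : 0 < g0 := (K10d mu m hm hmu0 c₀ c₀ hs0).1
  have hh0pos : 0 < h0 := by
    rw [hh0, K10a mu m hm hmu0 c₀ hs0]
    have := k10_ed (d := d) (mu * m) (by positivity)
    positivity
  have hM0 : 0 < M := by rw [hM]; positivity
  set G : (Fin n → Fin d → Bool) → ℝ := fun c => ∑ v₀ : Fin n, ∏ v, hat m (k14_f mu v₀ v) (c v)
    with hG
  have hZ : ZP mu π = ∑ c ∈ Finset.univ.filter (fun c : Fin n → Fin d → Bool => InvP π c), G c := by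
    rw [k14_Z, Finset.sum_congr rfl (fun v₀ _ => K09 m π (k14_f mu v₀)), Finset.sum_comm]
  -- the trivial configuration
  set z : Fin n → Fin d → Bool := fun _ => c₀ with hz
  have hzinv : InvP π z := by
    intro p
    simp [hz, hc₀]
  have hGz : G z = M := by
    rw [hG, hM]
    simp only [hz]
    have h1 : ∀ v₀ : Fin n, ∏ v, hat m (k14_f mu v₀ v) c₀ = g0 * h0 ^ (n - 1) := by
      intro v₀
      rw [← Finset.mul_prod_erase _ _ (Finset.mem_univ v₀)]
      congr 1
      · simp only [k14_f, if_true, hg0]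
      · rw [Finset.prod_congr rfl (g := fun _ => h0) (fun v hv => by
          have hne : v ≠ v₀ := (Finset.mem_erase.1 hv).1
          simp only [k14_f, if_neg hne, hh0]), Finset.prod_const,
          Finset.card_erase_of_mem (Finset.mem_univ _), Finset.card_univ, Fintype.card_fin]
    rw [Finset.sum_congr rfl fun v₀ _ => h1 v₀, Finset.sum_const, Finset.card_univ,
      Fintype.card_fin, nsmul_eq_mul]
  -- bound of a configuration
  have hfb : ∀ c : Fin d → Bool, |hat m (fmu mu) c| ≤ h0 * tw (2 ^ (d + 1)) mu (sz c) := by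
    intro c
    unfold tw
    split_ifs with e1 e2
    · rw [mul_one, (k14_sz0 c).1 e1, ← hc₀, ← hh0, abs_of_pos hh0pos]
    · rw [K10b mu m hm hmu0 hgauge c e2, abs_zero, mul_zero]
    · have := K10c mu m hm hmm hmu c c₀ hs0
      rw [mul_comm]
      exact this
  have hgb : ∀ c : Fin d → Bool, |hat m (gmu mu) c| ≤ g0 * (d / mu) ^ sz c := by
    intro c
    have h1 := (K10d mu m hm hmu0 c c₀ hs0).2
    have h2 : hat m (gmu mu) c = g0 * (1 / m) ^ sz c := by
      rw [one_div, inv_pow, hg0, ← h1]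
      field_simp
    rw [h2, abs_of_nonneg (by positivity)]
    refine mul_le_mul_of_nonneg_left ?_ hg0pos.le
    exact pow_le_pow_left₀ (by positivity) hmd _
  have hGb : ∀ c : Fin n → Fin d → Bool, |G c| ≤ M * k14_W (2 ^ (d + 1)) mu c := by
    intro c
    have h1 : ∀ v₀ : Fin n, |∏ v, hat m (k14_f mu v₀ v) (c v)| ≤
        (g0 * h0 ^ (n - 1)) * (((d : ℝ) / mu) ^ sz (c v₀) *
            ∏ v ∈ Finset.univ.erase v₀, tw (2 ^ (d + 1)) mu (sz (c v))) := by
      intro v₀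
      rw [Finset.abs_prod, ← Finset.mul_prod_erase _ _ (Finset.mem_univ v₀)]
      have h2 : |hat m (k14_f mu v₀ v₀) (c v₀)| ≤ g0 * (d / mu) ^ sz (c v₀) := by
        simp only [k14_f, if_true]
        exact hgb _
      have h3 : ∏ v ∈ Finset.univ.erase v₀, |hat m (k14_f mu v₀ v) (c v)| ≤
          ∏ v ∈ Finset.univ.erase v₀, (h0 * tw (2 ^ (d + 1)) mu (sz (c v))) := by
        refine Finset.prod_le_prod (fun v _ => abs_nonneg _) fun v hv => ?_
        have hne : v ≠ v₀ := (Finset.mem_erase.1 hv).1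
        simp only [k14_f, if_neg hne]
        exact hfb _
      have h4 : ∏ v ∈ Finset.univ.erase v₀, (h0 * tw (2 ^ (d + 1)) mu (sz (c v))) =
          h0 ^ (n - 1) * ∏ v ∈ Finset.univ.erase v₀, tw (2 ^ (d + 1)) mu (sz (c v)) := by
        rw [Finset.prod_mul_distrib, Finset.prod_const,
          Finset.card_erase_of_mem (Finset.mem_univ _), Finset.card_univ, Fintype.card_fin]
      rw [h4] at h3
      refine (mul_le_mul h2 h3 (Finset.prod_nonneg fun v _ => abs_nonneg _)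
        (by positivity)).trans (le_of_eq ?_)
      ring
    calc |G c| ≤ ∑ v₀ : Fin n, |∏ v, hat m (k14_f mu v₀ v) (c v)| := Finset.abs_sum_le_sum_abs _ _
      _ ≤ ∑ v₀ : Fin n, (g0 * h0 ^ (n - 1)) * (((d : ℝ) / mu) ^ sz (c v₀) *
            ∏ v ∈ Finset.univ.erase v₀, tw (2 ^ (d + 1)) mu (sz (c v))) :=
          Finset.sum_le_sum fun v₀ _ => h1 v₀
      _ = M * k14_W (2 ^ (d + 1)) mu c := by
          rw [← Finset.mul_sum, hM, k14_W]
          field_simp
  -- sum
  have hmem : z ∈ Finset.univ.filter (fun c : Fin n → Fin d → Bool => InvP π c) := by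
    rw [Finset.mem_filter]
    exact ⟨Finset.mem_univ _, hzinv⟩
  have h1 : ZP mu π - M = ∑ c ∈ (Finset.univ.filter
      (fun c : Fin n → Fin d → Bool => InvP π c)).erase z, G c := by
    rw [hZ, ← Finset.add_sum_erase _ _ hmem, hGz]
    ring
  rw [h1]
  refine (Finset.abs_sum_le_sum_abs _ _).trans ?_
  refine (Finset.sum_le_sum fun c _ => hGb c).trans ?_
  have h2 : ∀ c : Fin n → Fin d → Bool,
      (if InvP π c then (1 : ℝ) else 0) * (M * k14_W (2 ^ (d + 1)) mu c) =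
      if InvP π c then M * k14_W (2 ^ (d + 1)) mu c else 0 := by
    intro c
    split_ifs <;> ring
  rw [Finset.sum_congr rfl (fun c _ => h2 c), ← Finset.sum_filter, Finset.filter_filter]
  refine Finset.sum_le_sum_of_subset_of_nonneg ?_ (fun c _ _ => mul_nonneg hM0.le
    (k14_W_nonneg _ mu (by positivity) hmu0 c))
  intro c hc
  rw [Finset.mem_erase, Finset.mem_filter] at hc
  rw [Finset.mem_filter]
  refine ⟨Finset.mem_univ _, ?_, hc.2.2⟩
  by_contra h
  push Not at h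
  apply hc.1
  funext v
  rw [hz, hc₀]
  exact (k14_sz0 (c v)).1 (h v)

theorem K14 (d : ℕ) (hd : 1 ≤ d) : ∃ C lam₀ : ℝ, 0 < C ∧ 0 < lam₀ ∧
    ∀ (n : ℕ) (lam mu : ℝ), 1 ≤ n → Even (d * n) → 0 < mu → mu ^ 2 = lam → lam ≤ lam₀ →
      1 ≤ lam * n → ∃ M : ℝ, 0 < M ∧
        av (fun π : Pairing (Fin n × Fin d) => |ZP mu π - M|) ≤
          C * (lam + 1 / (lam * n)) * M := by
  have hA : (1 : ℝ) ≤ 2 ^ (d + 1) := one_le_pow₀ (by norm_num)
  obtain ⟨C, l₁, hC, hl₁, hK13⟩ := K13 d hd (2 ^ (d + 1)) hA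
  refine ⟨C, min 1 l₁, hC, by positivity, ?_⟩
  intro n lam mu hn hev hmu hlam hlam0 h1
  have hn' : (0 : ℝ) < n := by exact_mod_cast hn
  have hd' : (1 : ℝ) ≤ d := by exact_mod_cast hd
  have hlampos : 0 < lam := by rw [← hlam]; positivity
  have hl1 : lam ≤ 1 := hlam0.trans (min_le_left _ _)
  have hl2 : lam ≤ l₁ := hlam0.trans (min_le_right _ _)
  have hmu1 : mu ≤ 1 := by
    by_contra h
    push Not at h
    nlinarith
  obtain ⟨r, hr⟩ := hev
  have hr2 : 2 * r = d * n := by omega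
  obtain ⟨y, hy1, hy2, hy3⟩ := K11 d hd lam hlampos hl1
  have hy0 : 0 < y := lt_of_lt_of_le (by positivity) hy1
  set m : ℝ := y / mu with hm
  have hm0 : 0 < m := by positivity
  have hmum : mu * m = y := by rw [hm]; field_simp
  have hmm : m ≤ mu := by
    rw [hm, div_le_iff₀ hmu, ← pow_two, hlam]
    exact hy2
  have hmd : 1 / m ≤ d / mu := by
    rw [hm, one_div_div, div_le_div_iff₀ hy0 hmu, ← pow_two, hlam]
    rw [div_le_iff₀ (by positivity)] at hy1
    linarith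
  set c₀ : Fin d → Bool := fun _ => false with hc₀
  set M : ℝ := n * (hat m (gmu mu) c₀ * (hat m (fmu mu) c₀) ^ (n - 1)) with hM
  have hs0 : sz c₀ = 0 := (k14_sz0 c₀).2 hc₀
  have hMpos : 0 < M := by
    have e1 := (K10d mu m hm0 hmu c₀ c₀ hs0).1
    have e2 : 0 < hat m (fmu mu) c₀ := by
      rw [K10a mu m hm0 hmu c₀ hs0]
      have := k10_ed (d := d) (mu * m) (by positivity)
      positivity
    positivity
  refine ⟨M, hMpos, ?_⟩
  have hpt := fun π : Pairing (Fin n × Fin d) => k14_pt hd hn mu m hm0 hmm hmu1 hmd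
    (by rw [hmum, hlam]; exact hy3) π c₀ hc₀ M hM
  refine (av_mono hpt).trans ?_
  rw [av_sum]
  have h2 : ∀ c : Fin n → Fin d → Bool,
      av (fun π : Pairing (Fin n × Fin d) => (if InvP π c then (1 : ℝ) else 0) *
        (M * k14_W (2 ^ (d + 1)) mu c)) ≤
      if Even (∑ v, sz (c v)) then M * ((1 / (r.choose ((∑ v, sz (c v)) / 2) : ℝ)) *
        k14_W (2 ^ (d + 1)) mu c) else 0 := by
    intro c
    rw [av_mul_right]
    have h3 := k14_pr hr2 c
    have h4 : 0 ≤ M * k14_W (2 ^ (d + 1)) mu c :=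
      mul_nonneg hMpos.le (k14_W_nonneg _ mu (by positivity) hmu c)
    unfold pr at h3
    refine (mul_le_mul_of_nonneg_right h3 h4).trans (le_of_eq ?_)
    split_ifs
    · ring
    · ring
  refine (Finset.sum_le_sum fun c _ => h2 c).trans ?_
  rw [← Finset.sum_filter, Finset.filter_filter, ← Finset.mul_sum]
  have h5 := hK13 n r lam mu hn hr2 hmu hlam hl2 h1
  calc M * ∑ c ∈ Finset.univ.filter (fun c : Fin n → Fin d → Bool =>
        (∃ v, sz (c v) ≠ 0) ∧ Even (∑ v, sz (c v))), ((1 / (r.choose ((∑ v, sz (c v)) / 2) : ℝ)) *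
        k14_W (2 ^ (d + 1)) mu c) ≤ M * (C * (lam + 1 / (lam * n))) :=
        mul_le_mul_of_nonneg_left h5 hMpos.le
    _ = _ := by ring

end Pool.Agent.HC
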