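import Pool.Agent.Lib.MP_ec42c8_pr.K14
import Pool.Agent.Lib.MP_ec42c8_pr.K15
import Pool.Agent.Lib.MP_ec42c8_pr.P04

/-!
# K16 : the generating function is concentrated for the uniform regular graph

PROOF.  Let `c` be the constant of `P04`, `δ = C (lam + 1/(lam n)) / c` with `C` from `K14`, `Z = Zl d lam`.
By `P03d` (`F = ∅`), `K15`, `av_equiv (trP (ptE n d))` and `K14`:
`avOn (Reg n d ∅) |Z - M| = (1 / PS d ∅) av (if Simp then |ZP - M|) ≤ δ M`.  So `|avOn Z - M| ≤ δ M`.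
If `δ ≤ 1/2`: `M ≤ 2 avOn Z` and `avOn |Z - avOn Z| ≤ 2 δ M ≤ 4 δ avOn Z`.  If `δ > 1/2`:
`avOn |Z - avOn Z| ≤ 2 avOn Z ≤ 4 δ avOn Z` (`Z ≥ 0`).
-/

set_option autoImplicit false

namespace Pool.Agent.HC

open Finset
open scoped Classical

lemma k16_Zl_nonneg {n : ℕ} (d : ℕ) (lam : ℝ) (hlam : 0 < lam) (H : Gr n) : 0 ≤ Zl d lam H := by
  unfold Zl
  refine Finset.sum_nonneg fun K _ => ?_
  have h1 : 0 ≤ wK d K := by
    unfold wK
    exact Finset.prod_nonneg fun v _ => by positivity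
  positivity

/-- The transfer from pairings to regular graphs. -/
lemma k16_transfer {n : ℕ} (d : ℕ) (lam mu M : ℝ) (hmu : mu ^ 2 = lam) :
    PS d (∅ : Gr n) * avOn (Reg n d ∅) (fun H => |Zl d lam H - M|) ≤
      av (fun π : Pairing (Fin n × Fin d) => |ZP mu π - M|) := by
  have hE : ∀ v, deg (∅ : Gr n) v ≤ d := by
    intro v
    simp [deg]
  rw [← P03d (d := d) (∅ : Gr n) hE (fun H => |Zl d lam H - M|)]
  rw [← av_equiv (trP (ptE n d)) (fun π : Pairing (Fin n × Fin d) => |ZP mu π - M|)]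
  refine av_mono fun π => ?_
  by_cases h : Simp (∅ : Gr n) π
  · rw [if_pos h, ← hmu, K15 d mu π h]
  · rw [if_neg h]
    exact abs_nonneg _

/-- The elementary part. -/
lemma k16_elem {α : Type*} (s : Finset α) (Z : α → ℝ) (hZ : ∀ a ∈ s, 0 ≤ Z a) (M δ : ℝ)
    (hM : 0 < M) (hδ : 0 ≤ δ) (h : avOn s (fun a => |Z a - M|) ≤ δ * M) :
    avOn s (fun a => |Z a - avOn s Z|) ≤ 4 * δ * avOn s Z := by
  rcases s.eq_empty_or_nonempty with rfl | hs
  · rw [avOn_empty, avOn_empty, mul_zero]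
  have hA0 : 0 ≤ avOn s Z := avOn_nonneg hZ
  have h1 : |avOn s Z - M| ≤ δ * M := by
    have h2 : avOn s Z - M = avOn s (fun a => Z a - M) := by
      rw [avOn_sub, avOn_const hs]
    rw [h2]
    exact (abs_avOn_le s _).trans h
  by_cases hδ2 : δ ≤ 1 / 2
  · have h3 : avOn s (fun a => |Z a - avOn s Z|) ≤ 2 * δ * M := by
      calc avOn s (fun a => |Z a - avOn s Z|)
          ≤ avOn s (fun a => |Z a - M| + |avOn s Z - M|) := by
            refine avOn_mono fun a _ => ?_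
            have := abs_sub_le (Z a) M (avOn s Z)
            rw [abs_sub_comm M (avOn s Z)] at this
            exact this
        _ = avOn s (fun a => |Z a - M|) + |avOn s Z - M| := by
            rw [avOn_add, avOn_const hs]
        _ ≤ 2 * δ * M := by linarith
    have h4 : M ≤ 2 * avOn s Z := by
      have h5 := (abs_le.1 h1).1
      nlinarith
    nlinarith
  · push Not at hδ2
    calc avOn s (fun a => |Z a - avOn s Z|)
        ≤ avOn s (fun a => Z a + avOn s Z) := by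
          refine avOn_mono fun a ha => ?_
          have h5 := hZ a ha
          rw [abs_le]
          constructor <;> linarith
      _ = 2 * avOn s Z := by
          rw [avOn_add, avOn_const hs]
          ring
      _ ≤ 4 * δ * avOn s Z := by nlinarith

theorem K16 (d : ℕ) (hd : 1 ≤ d) : ∃ (C lam₀ : ℝ) (n₀ : ℕ), 0 < C ∧ 0 < lam₀ ∧
    ∀ (n : ℕ) (lam : ℝ), n₀ ≤ n → Even (d * n) → 0 < lam → lam ≤ lam₀ → 1 ≤ lam * n →
      avOn (Reg n d ∅) (fun H => |Zl d lam H - avOn (Reg n d ∅) (Zl d lam)|) ≤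
        C * (lam + 1 / (lam * n)) * avOn (Reg n d ∅) (Zl d lam) := by
  obtain ⟨C₁, lam₀, hC₁, hlam₀, h14⟩ := K14 d hd
  obtain ⟨c, n₀, hc, h04⟩ := P04 d hd
  refine ⟨4 * (C₁ / c), lam₀, max n₀ 1, by positivity, hlam₀, ?_⟩
  intro n lam hn hdn hlam hlam2 hlamn
  have hn1 : 1 ≤ n := le_trans (le_max_right _ _) hn
  have hmu : Real.sqrt lam ^ 2 = lam := Real.sq_sqrt hlam.le
  obtain ⟨M, hM, h1⟩ := h14 n lam (Real.sqrt lam) hn1 hdn (Real.sqrt_pos.2 hlam) hmu hlam2 hlamn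
  have h2 := k16_transfer (n := n) d lam (Real.sqrt lam) M hmu
  have h3 : c ≤ PS d (∅ : Gr n) := by
    refine h04 n (le_trans (le_max_left _ _) hn) hdn ∅ ?_ ?_
    · intro v
      simp [deg]
    · simp
  set t := lam + 1 / (lam * n) with ht
  have ht0 : 0 ≤ t := by positivity
  have h4 : avOn (Reg n d ∅) (fun H => |Zl d lam H - M|) ≤ (C₁ / c * t) * M := by
    have h5 : 0 ≤ avOn (Reg n d ∅) (fun H => |Zl d lam H - M|) :=
      avOn_nonneg fun _ _ => abs_nonneg _
    have h6 : c * avOn (Reg n d ∅) (fun H => |Zl d lam H - M|) ≤ C₁ * t * M :=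
      le_trans (mul_le_mul_of_nonneg_right h3 h5) (h2.trans h1)
    have h7 : (C₁ / c * t) * M = (C₁ * t * M) / c := by ring
    rw [h7, le_div_iff₀ hc]
    linarith
  have h8 := k16_elem (Reg n d ∅) (Zl d lam) (fun H _ => k16_Zl_nonneg d lam hlam H) M
    (C₁ / c * t) hM (by positivity) h4
  calc _ ≤ 4 * (C₁ / c * t) * avOn (Reg n d ∅) (Zl d lam) := h8
    _ = _ := by ring

end Pool.Agent.HC
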