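import Pool.Agent.Lib.MP_ec42c8_pr.KDefs

/-!
# K17 : the exponential majorant

Let `2 r = d n`, `ℓ = ell d n p = d n - 2 x`, `x = NE n * p`.
`K17a`: for `j < r` the factor `d n - 2 j - 1` is at least `1`.  `K17b`: definition of `Cp` (`Finset.le_sup'`).
`K17c`.  The maximum in `Cp` is attained at some `k₀ ≤ r`: `rho = Lk k₀ ℓ ^ (k - k₀) / Lk k`.
If `k₀ ≥ k`: `rho = ∏ j = k..k₀-1, (d n - 2j - 1) / ℓ`, and
` (d n - 2 j - 1) / ℓ = 1 + (2 (x - j) - 1) / ℓ ≤ exp ((2 (x - j) - 1) / ℓ)`;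
`∑ j = k..k₀-1, (2 (x - j) - 1) = (x - k)² - (x - k₀)² ≤ (x-k)²`.
If `k₀ < k`: `rho = ∏ j = k₀..k-1, 1 / (1 - z_j)`, `z_j = (2 (j - x) + 1) / ℓ`, `-1 ≤ z_j ≤ 1/2`
(`2 x ≤ ℓ` because `ℓ ≥ d n / 2`; `k - x ≤ ℓ / 4`).  `- log (1 - z) ≤ z + z²` for `z ≤ 1/2`, this is
`≤ 0` for `-1 ≤ z ≤ 0` and `≤ (3/2) z` for `0 ≤ z ≤ 1/2`; the sum of the positive `z_j` is at most
` (k - x)² / ℓ` (telescoping as before).
`K17d`: if `k - x ≤ ℓ / 4` then by `K17c` `rho ≤ exp (2 (k-x)²/ℓ) ≤ exp ((k - x)/2) ≤ exp k`.  Otherwise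
`k ≥ ℓ / 4 ≥ d n / 8`; if `k₀ ≥ k` then `rho ≤ 1` (all exponents above are negative as `j ≥ k ≥ x`); if `k₀ < k`
then `rho = ∏ ℓ / (d n - 2 j - 1) ≤ ∏ over j < r of (2 r) / (2 r - 2 j - 1) = (2r) ^ r / (2r-1)!! =
(2r) ^ r 2 ^ r r! / (2r)! ≤ e ^ (2 r) = e ^ (d n) ≤ e ^ (8 k)`, using ` (2r)! ≥ (2r/e) ^ (2r)`, `r! ≤ r ^ r`.
`K17e`: `Cp` is continuous where `ell > 0` (finite supremum of continuous functions).
-/

set_option autoImplicit false

namespace Pool.Agent.HC

open Finset
open scoped Classical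

section
variable (d n : ℕ) (hdn : Even (d * n)) (p : ℝ) (k : ℕ)

lemma k17_fac (d n j : ℕ) (hj : j + 1 ≤ d * n / 2) : (1 : ℝ) ≤ (d : ℝ) * n - 2 * j - 1 := by
  have h1 : 2 * (j + 1) ≤ d * n := by omega
  have h2 : ((2 * (j + 1) : ℕ) : ℝ) ≤ ((d * n : ℕ) : ℝ) := by exact_mod_cast h1
  push_cast at h2
  linarith

lemma k17_pos (d n k : ℕ) (hk : k ≤ d * n / 2) : 0 < Lk d n k := by
  unfold Lk
  refine Finset.prod_pos fun j hj => ?_
  have := k17_fac d n j (by have := Finset.mem_range.1 hj; omega)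
  linarith

lemma k17_succ (d n k : ℕ) : Lk d n (k + 1) = Lk d n k * ((d : ℝ) * n - 2 * k - 1) := by
  unfold Lk
  rw [Finset.prod_range_succ]

theorem K17a (hdn : Even (d * n)) (hk : k ≤ d * n / 2) : 0 < Lk d n k :=
  k17_pos d n k hk

theorem K17b (h : 0 < ell d n p) (hk : k ≤ d * n / 2) :
    Lk d n k ≤ Cp d n p * ell d n p ^ k := by
  have h1 : Lk d n k / ell d n p ^ k ≤ Cp d n p := by
    unfold Cp
    exact Finset.le_sup' (fun k => Lk d n k / ell d n p ^ k)
      (Finset.mem_range.2 (by omega))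
  exact (div_le_iff₀ (by positivity)).1 h1

theorem K17b' (hdn : Even (d * n)) (h : 0 < ell d n p) (hk : k ≤ d * n / 2) :
    1 ≤ rho d n p k := by
  unfold rho
  rw [le_div_iff₀ (k17_pos d n k hk), one_mul]
  exact K17b d n p k h hk

lemma k17_up (h : 0 < ell d n p) (k₀ : ℕ) (hk : k ≤ k₀) (hk₀ : k₀ ≤ d * n / 2) :
    Lk d n k₀ / ell d n p ^ k₀ ≤ Real.exp ((((k : ℝ) - NE n * p) ^ 2
      - ((k₀ : ℝ) - NE n * p) ^ 2) / ell d n p) * (Lk d n k / ell d n p ^ k) := by
  induction k₀, hk using Nat.le_induction with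
  | base => simp
  | succ j hj ih =>
    have ih' := ih (by omega)
    have hf := k17_fac d n j (by omega)
    have h1 : ((d : ℝ) * n - 2 * j - 1) / ell d n p
        ≤ Real.exp ((2 * (NE n * p - j) - 1) / ell d n p) := by
      refine le_trans (le_of_eq ?_) (Real.add_one_le_exp _)
      rw [div_add_one h.ne']
      congr 1
      unfold ell
      ring
    have h2 : Lk d n (j + 1) / ell d n p ^ (j + 1)
        = (Lk d n j / ell d n p ^ j) * (((d : ℝ) * n - 2 * j - 1) / ell d n p) := by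
      rw [k17_succ, pow_succ, mul_div_mul_comm]
    have h3 : 0 ≤ Lk d n k / ell d n p ^ k :=
      div_nonneg (k17_pos d n k (by omega)).le (by positivity)
    rw [h2]
    calc (Lk d n j / ell d n p ^ j) * (((d : ℝ) * n - 2 * j - 1) / ell d n p)
        ≤ (Real.exp ((((k : ℝ) - NE n * p) ^ 2
          - ((j : ℝ) - NE n * p) ^ 2) / ell d n p) * (Lk d n k / ell d n p ^ k))
          * Real.exp ((2 * (NE n * p - j) - 1) / ell d n p) := by
          refine mul_le_mul ih' h1 (div_nonneg (by linarith) h.le) (by positivity)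
      _ = _ := by
          rw [mul_right_comm, ← Real.exp_add, ← add_div]
          congr 3
          push_cast
          ring

lemma k17_down (h : 0 < ell d n p) (k₀ : ℕ) (hk : k₀ ≤ k) (hkr : k ≤ d * n / 2)
    (hk' : (k : ℝ) - NE n * p ≤ ell d n p / 4) :
    Lk d n k₀ / ell d n p ^ k₀ ≤ Real.exp (2 * (max ((k : ℝ) - NE n * p) 0) ^ 2 / ell d n p)
      * (Lk d n k / ell d n p ^ k) := by
  induction k, hk using Nat.le_induction with
  | base =>
    have h3 : 0 ≤ Lk d n k₀ / ell d n p ^ k₀ :=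
      div_nonneg (k17_pos d n k₀ hkr).le (by positivity)
    have h4 : 1 ≤ Real.exp (2 * (max ((k₀ : ℝ) - NE n * p) 0) ^ 2 / ell d n p) :=
      Real.one_le_exp (by positivity)
    nlinarith
  | succ j hj ih =>
    push_cast at hk'
    have ih' := ih (by omega) (by linarith)
    have hf := k17_fac d n j hkr
    refine ih'.trans ?_
    have h2 : Lk d n (j + 1) / ell d n p ^ (j + 1)
        = (Lk d n j / ell d n p ^ j) * (((d : ℝ) * n - 2 * j - 1) / ell d n p) := by
      rw [k17_succ, pow_succ, mul_div_mul_comm]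
    have h3 : 0 ≤ Lk d n j / ell d n p ^ j :=
      div_nonneg (k17_pos d n j (by omega)).le (by positivity)
    rw [h2, mul_left_comm, mul_comm (Real.exp _)]
    refine mul_le_mul_of_nonneg_left ?_ h3
    -- `exp A ≤ exp B * (1 - z)`
    have hz : ((d : ℝ) * n - 2 * j - 1) / ell d n p
        = 1 - (2 * (j - NE n * p) + 1) / ell d n p := by
      rw [eq_sub_iff_add_eq, ← add_div, div_eq_one_iff_eq h.ne']
      unfold ell
      ring
    have key : 1 ≤ Real.exp (2 * (max (2 * ((j : ℝ) - NE n * p) + 1) 0) / ell d n p)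
        * (((d : ℝ) * n - 2 * j - 1) / ell d n p) := by
      rcases le_total (2 * ((j : ℝ) - NE n * p) + 1) 0 with h5 | h5
      · rw [max_eq_right h5]
        simp only [mul_zero, zero_div, Real.exp_zero, one_mul]
        rw [hz]
        have : (2 * ((j : ℝ) - NE n * p) + 1) / ell d n p ≤ 0 :=
          div_nonpos_of_nonpos_of_nonneg h5 h.le
        linarith
      · rw [max_eq_left h5, hz, mul_div_assoc]
        set z := (2 * ((j : ℝ) - NE n * p) + 1) / ell d n p with hzdef
        have hz0 : 0 ≤ z := div_nonneg h5 h.le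
        have hz1 : z ≤ 1 / 2 := by
          rw [hzdef, div_le_iff₀ h]
          linarith
        have h6 := Real.add_one_le_exp (2 * z)
        have h7 : 1 ≤ (2 * z + 1) * (1 - z) := by nlinarith
        exact h7.trans (mul_le_mul_of_nonneg_right h6 (by linarith))
    have h8 : Real.exp (2 * (max ((j : ℝ) - NE n * p) 0) ^ 2 / ell d n p)
        * Real.exp (2 * (max (2 * ((j : ℝ) - NE n * p) + 1) 0) / ell d n p)
        ≤ Real.exp (2 * (max (((j + 1 : ℕ) : ℝ) - NE n * p) 0) ^ 2 / ell d n p) := by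
      rw [← Real.exp_add, ← add_div]
      refine Real.exp_le_exp.2 (div_le_div_of_nonneg_right ?_ h.le)
      push_cast
      set u := (j : ℝ) - NE n * p with hu
      have hu1 : (j : ℝ) + 1 - NE n * p = u + 1 := by
        rw [hu]
        ring
      rw [hu1]
      rcases le_total 0 u with h9 | h9
      · rw [max_eq_left h9, max_eq_left (by linarith), max_eq_left (by linarith)]
        nlinarith
      · rw [max_eq_right h9]
        rcases le_total 0 (2 * u + 1) with h10 | h10
        · rw [max_eq_left h10, max_eq_left (by linarith)]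
          nlinarith
        · rw [max_eq_right h10]
          have : 0 ≤ (max (u + 1) 0) ^ 2 := by positivity
          linarith
    have hexp := Real.exp_pos (2 * (max ((j : ℝ) - NE n * p) 0) ^ 2 / ell d n p)
    calc Real.exp (2 * (max ((j : ℝ) - NE n * p) 0) ^ 2 / ell d n p)
        = Real.exp (2 * (max ((j : ℝ) - NE n * p) 0) ^ 2 / ell d n p) * 1 := (mul_one _).symm
      _ ≤ Real.exp (2 * (max ((j : ℝ) - NE n * p) 0) ^ 2 / ell d n p)
          * (Real.exp (2 * (max (2 * ((j : ℝ) - NE n * p) + 1) 0) / ell d n p)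
          * (((d : ℝ) * n - 2 * j - 1) / ell d n p)) := by gcongr
      _ = (Real.exp (2 * (max ((j : ℝ) - NE n * p) 0) ^ 2 / ell d n p)
          * Real.exp (2 * (max (2 * ((j : ℝ) - NE n * p) + 1) 0) / ell d n p))
          * (((d : ℝ) * n - 2 * j - 1) / ell d n p) := by ring
      _ ≤ _ := mul_le_mul_of_nonneg_right h8 (div_nonneg (by linarith) h.le)

/-- Bounding `rho` by bounding every term of the supremum. -/
lemma k17_rho (h : 0 < ell d n p) (hk : k ≤ d * n / 2) (M : ℝ)
    (hM : ∀ k₀ ≤ d * n / 2, Lk d n k₀ / ell d n p ^ k₀ ≤ M * (Lk d n k / ell d n p ^ k)) :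
    rho d n p k ≤ M := by
  have hL := k17_pos d n k hk
  have h1 : Cp d n p ≤ M * (Lk d n k / ell d n p ^ k) := by
    unfold Cp
    refine Finset.sup'_le _ _ fun k₀ hk₀ => ?_
    exact hM k₀ (by have := Finset.mem_range.1 hk₀; omega)
  unfold rho
  rw [div_le_iff₀ hL]
  calc Cp d n p * ell d n p ^ k ≤ (M * (Lk d n k / ell d n p ^ k)) * ell d n p ^ k := by gcongr
    _ = M * Lk d n k := by
      rw [mul_assoc, div_mul_cancel₀ _ (by positivity)]

theorem K17c (hdn : Even (d * n)) (hp : 0 ≤ p) (h : (d : ℝ) * n / 2 ≤ ell d n p) (hd : 1 ≤ d)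
    (hn : 1 ≤ n) (hk : k ≤ d * n / 2) (hk' : (k : ℝ) - NE n * p ≤ ell d n p / 4) :
    rho d n p k ≤ Real.exp (2 * ((k : ℝ) - NE n * p) ^ 2 / ell d n p) := by
  have hdn1 : (1 : ℝ) ≤ (d : ℝ) * n := by exact_mod_cast Nat.mul_pos hd hn
  have hl : 0 < ell d n p := by linarith
  refine k17_rho d n p k hl hk _ fun k₀ hk₀ => ?_
  have h3 : 0 ≤ Lk d n k / ell d n p ^ k :=
    div_nonneg (k17_pos d n k hk).le (by positivity)
  rcases le_total k k₀ with hkk | hkk
  · refine (k17_up d n p k hl k₀ hkk hk₀).trans (mul_le_mul_of_nonneg_right ?_ h3)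
    refine Real.exp_le_exp.2 (div_le_div_of_nonneg_right ?_ hl.le)
    nlinarith [sq_nonneg ((k : ℝ) - NE n * p), sq_nonneg ((k₀ : ℝ) - NE n * p)]
  · refine (k17_down d n p k hl k₀ hkk hk hk').trans (mul_le_mul_of_nonneg_right ?_ h3)
    refine Real.exp_le_exp.2 (div_le_div_of_nonneg_right ?_ hl.le)
    rcases le_total 0 ((k : ℝ) - NE n * p) with h9 | h9
    · rw [max_eq_left h9]
    · rw [max_eq_right h9]
      nlinarith [sq_nonneg ((k : ℝ) - NE n * p)]

theorem K17d (hdn : Even (d * n)) (hp : 0 ≤ p) (h : (d : ℝ) * n / 2 ≤ ell d n p) (hd : 1 ≤ d)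
    (hn : 1 ≤ n) (hk : k ≤ d * n / 2) (hk' : NE n * p ≤ (k : ℝ)) :
    rho d n p k ≤ Real.exp (8 * k) := by
  have hdn1 : (1 : ℝ) ≤ (d : ℝ) * n := by exact_mod_cast Nat.mul_pos hd hn
  have hl : 0 < ell d n p := by linarith
  have hx : 0 ≤ (NE n : ℝ) * p := by positivity
  have hk0 : (0 : ℝ) ≤ k := Nat.cast_nonneg k
  rcases le_total ((k : ℝ) - NE n * p) (ell d n p / 4) with h1 | h1
  · refine (K17c d n p k hdn hp h hd hn hk h1).trans (Real.exp_le_exp.2 ?_)
    rw [div_le_iff₀ hl]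
    nlinarith
  · have hk8 : (d : ℝ) * n ≤ 8 * k := by linarith
    have h3 : 0 ≤ Lk d n k / ell d n p ^ k :=
      div_nonneg (k17_pos d n k hk).le (by positivity)
    refine k17_rho d n p k hl hk _ fun k₀ hk₀ => ?_
    rcases le_total k k₀ with hkk | hkk
    · refine (k17_up d n p k hl k₀ hkk hk₀).trans (mul_le_mul_of_nonneg_right ?_ h3)
      refine Real.exp_le_exp.2 ?_
      have h4 : (k : ℝ) ≤ k₀ := by exact_mod_cast hkk
      have h5 : (((k : ℝ) - NE n * p) ^ 2 - ((k₀ : ℝ) - NE n * p) ^ 2) / ell d n p ≤ 0 := by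
        refine div_nonpos_of_nonpos_of_nonneg ?_ hl.le
        nlinarith
      linarith
    · -- the crude bound
      have hell : ell d n p ≤ (d : ℝ) * n := by
        unfold ell
        linarith
      have hfac : ∀ j : ℕ, j ≤ d * n / 2 →
          (((d * n / 2 - j : ℕ).factorial : ℕ) : ℝ) * ((d : ℝ) * n) ^ j
            ≤ (((d * n / 2 : ℕ).factorial : ℕ) : ℝ) * ((d : ℝ) * n) ^ j := by
        intro j _
        gcongr
        omega
      -- `Lk j / ell ^ j` loses at most `(d n) / (r - j)` per step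
      have hstep : ∀ k₁ : ℕ, k₀ ≤ k₁ → k₁ ≤ d * n / 2 →
          (Lk d n k₀ / ell d n p ^ k₀) * (((d * n / 2 - k₀ : ℕ).factorial : ℕ) : ℝ)
            ≤ (Lk d n k₁ / ell d n p ^ k₁) * (((d : ℝ) * n) ^ (k₁ - k₀)
              * (((d * n / 2 - k₁ : ℕ).factorial : ℕ) : ℝ)) := by
        intro k₁ hk₁
        induction k₁, hk₁ using Nat.le_induction with
        | base => intro _; simp
        | succ j hj ih =>
          intro hj'
          refine (ih (by omega)).trans ?_
          have hf := k17_fac d n j hj'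
          have h2 : Lk d n (j + 1) / ell d n p ^ (j + 1)
              = (Lk d n j / ell d n p ^ j) * (((d : ℝ) * n - 2 * j - 1) / ell d n p) := by
            rw [k17_succ, pow_succ, mul_div_mul_comm]
          have h4 : 0 ≤ Lk d n j / ell d n p ^ j :=
            div_nonneg (k17_pos d n j (by omega)).le (by positivity)
          obtain ⟨r', hr'⟩ : ∃ r', d * n / 2 - j = r' + 1 := ⟨d * n / 2 - j - 1, by omega⟩
          have hr'' : d * n / 2 - (j + 1) = r' := by omega
          have hrr : ((r' + 1 : ℕ) : ℝ) ≤ (d : ℝ) * n - 2 * j - 1 := by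
            have h5 : (r' + 1) + 2 * j + 1 ≤ d * n := by omega
            have h6 : (((r' + 1) + 2 * j + 1 : ℕ) : ℝ) ≤ ((d * n : ℕ) : ℝ) := by exact_mod_cast h5
            push_cast at h6 ⊢
            linarith
          have h7 : j + 1 - k₀ = (j - k₀) + 1 := by omega
          rw [h2, hr', hr'', h7, pow_succ, Nat.factorial_succ, mul_assoc]
          refine mul_le_mul_of_nonneg_left ?_ h4
          push_cast
          have h8 : ((r' : ℝ) + 1) ≤ ((d : ℝ) * n - 2 * j - 1) / ell d n p * ((d : ℝ) * n) := by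
            rw [div_mul_eq_mul_div, le_div_iff₀ hl]
            push_cast at hrr
            have h9 : (0 : ℝ) ≤ (r' : ℝ) + 1 := by positivity
            nlinarith
          calc ((d : ℝ) * n) ^ (j - k₀) * (((r' : ℝ) + 1) * (r'.factorial : ℝ))
              ≤ ((d : ℝ) * n) ^ (j - k₀) * ((((d : ℝ) * n - 2 * j - 1) / ell d n p
                * ((d : ℝ) * n)) * (r'.factorial : ℝ)) := by gcongr
            _ = _ := by ring
      have h5 := hstep k hkk hk
      have h6 : (0 : ℝ) < (((d * n / 2 - k₀ : ℕ).factorial : ℕ) : ℝ) := by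
        exact_mod_cast Nat.factorial_pos _
      -- `(dn)^(k-k₀) (r-k)! / (r-k₀)! ≤ (dn)^(k-k₀) / (k-k₀)! ≤ exp (d n)`
      have h7 : (((d * n / 2 - k : ℕ).factorial * (k - k₀).factorial : ℕ) : ℝ)
          ≤ (((d * n / 2 - k₀ : ℕ).factorial : ℕ) : ℝ) := by
        have h8 : d * n / 2 - k₀ = (d * n / 2 - k) + (k - k₀) := by omega
        rw [h8]
        exact_mod_cast Nat.le_of_dvd (Nat.factorial_pos _) (Nat.factorial_mul_factorial_dvd_factorial_add _ _)
      have h9 := Real.pow_div_factorial_le_exp ((d : ℝ) * n) (by linarith) (k - k₀)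
      have h10 : (0 : ℝ) < ((k - k₀).factorial : ℝ) := by exact_mod_cast Nat.factorial_pos _
      have h11 : ((d : ℝ) * n) ^ (k - k₀) * (((d * n / 2 - k : ℕ).factorial : ℕ) : ℝ)
          ≤ Real.exp (8 * k) * (((d * n / 2 - k₀ : ℕ).factorial : ℕ) : ℝ) := by
        have h12 : ((d : ℝ) * n) ^ (k - k₀) ≤ Real.exp (8 * k) * ((k - k₀).factorial : ℝ) := by
          rw [div_le_iff₀ h10] at h9
          refine h9.trans (mul_le_mul_of_nonneg_right (Real.exp_le_exp.2 hk8) h10.le)
        calc ((d : ℝ) * n) ^ (k - k₀) * (((d * n / 2 - k : ℕ).factorial : ℕ) : ℝ)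
            ≤ (Real.exp (8 * k) * ((k - k₀).factorial : ℝ))
              * (((d * n / 2 - k : ℕ).factorial : ℕ) : ℝ) := by gcongr
          _ = Real.exp (8 * k)
              * (((d * n / 2 - k : ℕ).factorial * (k - k₀).factorial : ℕ) : ℝ) := by
            push_cast
            ring
          _ ≤ _ := by gcongr
      have h13 : (Lk d n k₀ / ell d n p ^ k₀) * (((d * n / 2 - k₀ : ℕ).factorial : ℕ) : ℝ)
          ≤ (Real.exp (8 * k) * (Lk d n k / ell d n p ^ k))
            * (((d * n / 2 - k₀ : ℕ).factorial : ℕ) : ℝ) := by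
        refine h5.trans ?_
        calc (Lk d n k / ell d n p ^ k) * (((d : ℝ) * n) ^ (k - k₀)
              * (((d * n / 2 - k : ℕ).factorial : ℕ) : ℝ))
            ≤ (Lk d n k / ell d n p ^ k) * (Real.exp (8 * k)
              * (((d * n / 2 - k₀ : ℕ).factorial : ℕ) : ℝ)) :=
              mul_le_mul_of_nonneg_left h11 h3
          _ = _ := by ring
      exact le_of_mul_le_mul_right h13 h6

theorem K17e (a b : ℝ) (h : ∀ p ∈ Set.Icc a b, 0 < ell d n p) :
    ContinuousOn (fun p => Cp d n p) (Set.Icc a b) := by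
  unfold Cp
  refine ContinuousOn.finset_sup'_apply _ fun k _ => ?_
  refine ContinuousOn.div continuousOn_const (ContinuousOn.pow ?_ _) fun p hp => ?_
  · unfold ell
    fun_prop
  · exact pow_ne_zero _ (h p hp).ne'

end

end Pool.Agent.HC
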