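import Pool.Agent.Lib.MP_ec42c8_pr.K17

/-!
# K18a : binomial average of the error of the majorant

Let `N = NE n`, `v = n ^ (1-γ₂)`, `p ≤ n ^ (-1-γ₂)`, so `N p ≤ v / 2`, `ℓ := ell d n p ≥ d n / 2` for large `n`;
`k = j + d`, `X = k - N p`.  Since `k ≤ n ^ (1-γ₃) ≤ ℓ / 4`, `K17c` gives
`rho - 1 ≤ exp (4 X² / (d n)) - 1`.
CHERNOFF.  For the binomial weights with parameters `N - d`, `p` and `0 ≤ θ ≤ 1`:
`∑ over j with ±(j - (N-d) p) ≥ x of bin ≤ exp (-θ x + v θ²)` (`∑ bin z ^ j = (1 - p + p z) ^ (N-d) ≤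
exp ((N-d) p (z - 1))`, `e ^ (±θ) - 1 ∓ θ ≤ θ²`).  With `θ = min 1 (x / (2 v))`: at most `exp (-x²/(4v))` for
`x ≤ 2 v` and `exp (-x/2)` for `x ≥ 2 v`.
(1) `|X| ≤ √n`: `exp (4 X²/(dn)) - 1 ≤ (4 X² / (d n)) e⁴`, and `∑ bin X² ≤ 2 (N p + (2 d)²)` (variance), so this
part is at most `C (v + 1) / n ≤ C' n ^ (-γ₂)`.
(2) `|X| > √n`: for `x = |X|` up to `2 v + 2 d`: `4 x² / (d n) ≤ x² / (16 v)` for large `n` (`v / n → 0`),
each such `j` contributes at most `exp (- x² / (16 v)) ≤ exp (- n ^ γ₂ / 16)`; for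
`2 v ≤ x ≤ n ^ (1-γ₃)`: `4 x² / (d n) ≤ x / 8`, each contributes at most `exp (-x/8) ≤ exp (-√n / 8)`.
There are at most `n` such `j`, so part (2) is at most `n ^ (-γ₂)` for large `n`.
(Replace `x = |j - (N-d) p|` by `|X| ± (2d+1)` where necessary.)
-/

set_option autoImplicit false

namespace Pool.Agent.HC

open Finset
open scoped Classical

/-- the number of pairs is at most half of the square -/
theorem K18a_NE (n : ℕ) : (NE n : ℝ) ≤ (n : ℝ) ^ 2 / 2 := by
  have h1 : NE n = n.choose 2 := by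
    have h := Sym2.card_subtype_not_diag (α := Fin n)
    rw [Fintype.card_fin] at h
    exact h
  rw [h1, Nat.choose_two_right]
  have h2 : ((n * (n - 1) / 2 : ℕ) : ℝ) ≤ ((n * (n - 1) : ℕ) : ℝ) / 2 := Nat.cast_div_le
  refine h2.trans ?_
  have h3 : ((n * (n - 1) : ℕ) : ℝ) ≤ (n : ℝ) ^ 2 := by
    have h4 : n * (n - 1) ≤ n ^ 2 := by
      rw [pow_two]
      exact Nat.mul_le_mul_left _ (Nat.sub_le _ _)
    exact_mod_cast h4
  linarith

theorem K18a_bin_nonneg (m : ℕ) (p : ℝ) (hp : 0 ≤ p) (hp1 : p ≤ 1) (j : ℕ) : 0 ≤ bin m p j := by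
  unfold bin
  have : 0 ≤ 1 - p := by linarith
  positivity

/-- generating function -/
theorem K18a_gen (m : ℕ) (p z : ℝ) :
    ∑ j ∈ Finset.range (m + 1), bin m p j * z ^ j = (1 - p + p * z) ^ m := by
  have h := add_pow (p * z) (1 - p) m
  rw [show 1 - p + p * z = p * z + (1 - p) by ring, h]
  apply Finset.sum_congr rfl
  intro j _
  unfold bin
  rw [mul_pow]
  ring

/-- pointwise Chernoff bound -/
theorem K18a_chern (m : ℕ) (p : ℝ) (hp : 0 ≤ p) (hp1 : p ≤ 1) (j : ℕ) (hj : j ≤ m) (θ : ℝ)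
    (hθ : |θ| ≤ 1) :
    bin m p j ≤ Real.exp (-θ * ((j : ℝ) - m * p) + m * p * θ ^ 2) := by
  have h1 : bin m p j * Real.exp θ ^ j ≤ (1 - p + p * Real.exp θ) ^ m := by
    rw [← K18a_gen]
    apply Finset.single_le_sum (f := fun j => bin m p j * Real.exp θ ^ j)
    · intro i _
      exact mul_nonneg (K18a_bin_nonneg m p hp hp1 i) (by positivity)
    · exact Finset.mem_range.mpr (by omega)
  have h2 : Real.exp θ - 1 ≤ θ + θ ^ 2 := by
    have h3 := Real.abs_exp_sub_one_sub_id_le hθ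
    have h4 := (abs_le.mp h3).2
    linarith
  have h5 : 1 - p + p * Real.exp θ ≤ Real.exp (p * (θ + θ ^ 2)) := by
    calc 1 - p + p * Real.exp θ = p * (Real.exp θ - 1) + 1 := by ring
      _ ≤ p * (θ + θ ^ 2) + 1 := by
          have := mul_le_mul_of_nonneg_left h2 hp
          linarith
      _ ≤ Real.exp (p * (θ + θ ^ 2)) := Real.add_one_le_exp _
  have h6 : 0 ≤ 1 - p + p * Real.exp θ := by
    have : 0 ≤ 1 - p := by linarith
    positivity
  have h7 : (1 - p + p * Real.exp θ) ^ m ≤ Real.exp (p * (θ + θ ^ 2)) ^ m :=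
    pow_le_pow_left₀ h6 h5 m
  have h8 : bin m p j * Real.exp θ ^ j ≤ Real.exp (m * (p * (θ + θ ^ 2))) := by
    rw [Real.exp_nat_mul]
    exact h1.trans h7
  have h9 : Real.exp (-θ * ((j : ℝ) - m * p) + m * p * θ ^ 2) =
      Real.exp (m * (p * (θ + θ ^ 2))) * (Real.exp θ ^ j)⁻¹ := by
    rw [← Real.exp_nat_mul, ← Real.exp_neg, ← Real.exp_add]
    congr 1
    ring
  rw [h9, ← div_eq_mul_inv, le_div_iff₀ (by positivity)]
  exact h8

theorem K18a_sum (m : ℕ) (p : ℝ) : ∑ j ∈ Finset.range (m + 1), bin m p j = 1 := by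
  have h := K18a_gen m p 1
  simpa using h

/-- variance -/
theorem K18a_var (m : ℕ) (p : ℝ) :
    ∑ j ∈ Finset.range (m + 1), bin m p j * ((j : ℝ) - m * p) ^ 2 = m * p * (1 - p) := by
  have h := congrArg (Polynomial.eval p) (bernsteinPolynomial.variance (R := ℝ) m)
  rw [Polynomial.eval_finsetSum] at h
  simp only [bernsteinPolynomial, Polynomial.eval_mul, Polynomial.eval_pow, Polynomial.eval_sub,
    Polynomial.eval_X, Polynomial.eval_natCast, Polynomial.eval_one, nsmul_eq_mul] at h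
  rw [← h]
  apply Finset.sum_congr rfl
  intro j _
  unfold bin
  ring

/-- bound for a single large term: `y = j - m p`, `X` with `|X| ≤ |y| + d` -/
theorem K18a_large (m : ℕ) (p : ℝ) (hp : 0 ≤ p) (hp1 : p ≤ 1) (j : ℕ) (hj : j ≤ m)
    (v : ℝ) (hv : 0 < v) (hmp : m * p ≤ v / 2) :
    (|(j : ℝ) - m * p| ≤ v →
      bin m p j ≤ Real.exp (-((j : ℝ) - m * p) ^ 2 / (2 * v))) ∧
    (v ≤ |(j : ℝ) - m * p| → bin m p j ≤ Real.exp (-|(j : ℝ) - m * p| / 2)) := by
  have hmp0 : 0 ≤ m * p := by positivity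
  set y := (j : ℝ) - m * p with hy
  constructor
  · intro hyv
    have h1 : |y / v| ≤ 1 := by
      rw [abs_div, abs_of_pos hv, div_le_one hv]
      exact hyv
    have h2 := K18a_chern m p hp hp1 j hj (y / v) h1
    refine h2.trans ?_
    apply Real.exp_le_exp.mpr
    rw [← hy]
    calc -(y / v) * y + m * p * (y / v) ^ 2 ≤ -(y / v) * y + (v / 2) * (y / v) ^ 2 := by
          have := mul_le_mul_of_nonneg_right hmp (sq_nonneg (y / v))
          linarith
      _ = -y ^ 2 / (2 * v) := by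
          field_simp
          ring
  · intro hyv
    obtain ⟨θ, hθ1, hθ2, hθ3⟩ : ∃ θ : ℝ, |θ| ≤ 1 ∧ θ * y = |y| ∧ θ ^ 2 = 1 := by
      rcases le_or_gt 0 y with h | h
      · exact ⟨1, by simp, by rw [abs_of_nonneg h, one_mul], by norm_num⟩
      · exact ⟨-1, by simp, by rw [abs_of_neg h]; ring, by norm_num⟩
    have h2 := K18a_chern m p hp hp1 j hj θ hθ1
    refine h2.trans ?_
    apply Real.exp_le_exp.mpr
    rw [← hy, hθ3, neg_mul, hθ2]
    linarith

/-- super-polynomially small terms -/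
theorem K18a_small (a c γ : ℝ) (ha : 0 < a) (hc : 0 < c) (hγ : γ ≤ 2) :
    ∀ᶠ n : ℕ in Filter.atTop, ((n : ℝ) + 1) * Real.exp (-c * (n : ℝ) ^ a) ≤
      (n : ℝ) ^ (-γ) / 2 := by
  have hcast : Filter.Tendsto (fun n : ℕ => (n : ℝ)) Filter.atTop Filter.atTop :=
    tendsto_natCast_atTop_atTop
  have h5 : Filter.Tendsto (fun x : ℝ => (x ^ (a⁻¹ * 3)) * Real.exp (-c * x))
      Filter.atTop (nhds 0) := tendsto_rpow_mul_exp_neg_mul_atTop_nhds_zero _ _ hc
  have h6 := (h5.comp ((tendsto_rpow_atTop ha).comp hcast)).eventually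
    (Iic_mem_nhds (show (0 : ℝ) < 1 / 4 by norm_num))
  filter_upwards [h6, hcast.eventually_ge_atTop 1] with n hn hn1
  have hn0 : (0 : ℝ) < n := by linarith
  simp only [Function.comp_apply] at hn
  have h7 : ((n : ℝ) ^ a) ^ (a⁻¹ * 3) = (n : ℝ) ^ (3 : ℝ) := by
    rw [← Real.rpow_mul hn0.le]
    congr 1
    have : a ≠ 0 := by linarith
    field_simp
  rw [h7] at hn
  set E := Real.exp (-c * (n : ℝ) ^ a) with hE
  have hE0 : 0 < E := Real.exp_pos _
  have h9 : (n : ℝ) ^ (3 : ℝ) = (n : ℝ) * (n : ℝ) ^ (2 : ℝ) := by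
    rw [← Real.rpow_one_add' hn0.le (by norm_num)]
    norm_num
  have h10 : (n : ℝ) ^ γ ≤ (n : ℝ) ^ (2 : ℝ) :=
    Real.rpow_le_rpow_of_exponent_le hn1 (by linarith)
  have h11 : ((n : ℝ) + 1) * E * (n : ℝ) ^ γ ≤ 1 / 2 := by
    calc ((n : ℝ) + 1) * E * (n : ℝ) ^ γ ≤ (2 * n) * E * (n : ℝ) ^ (2 : ℝ) := by
          have : (n : ℝ) + 1 ≤ 2 * n := by linarith
          gcongr
      _ = 2 * ((n : ℝ) ^ (3 : ℝ) * E) := by rw [h9]; ring
      _ ≤ 2 * (1 / 4) := by linarith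
      _ = 1 / 2 := by norm_num
  have h12 : 0 < (n : ℝ) ^ γ := by positivity
  rw [Real.rpow_neg hn0.le]
  have h13 := (le_div_iff₀ h12).mpr h11
  calc ((n : ℝ) + 1) * E ≤ 1 / 2 / (n : ℝ) ^ γ := h13
    _ = ((n : ℝ) ^ γ)⁻¹ / 2 := by field_simp

theorem K18a_exp (t : ℝ) : Real.exp t - 1 ≤ t * Real.exp t := by
  have h7 := Real.add_one_le_exp (-t)
  have h8 : Real.exp t * Real.exp (-t) = 1 := by
    rw [← Real.exp_add]
    simp
  have h9 := mul_le_mul_of_nonneg_left h7 (Real.exp_pos t).le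
  rw [h8] at h9
  linarith

theorem K18a_sq (X y D : ℝ) (hXa : |X| ≤ |y| + D) : X ^ 2 ≤ 2 * y ^ 2 + 2 * D ^ 2 := by
  have h12 : X ^ 2 ≤ (|y| + D) ^ 2 := by
    rw [← sq_abs X]
    exact pow_le_pow_left₀ (abs_nonneg X) hXa 2
  have h13 : y ^ 2 = |y| ^ 2 := (sq_abs y).symm
  have h14 : 0 ≤ (|y| - D) ^ 2 := sq_nonneg _
  rw [h13]
  linarith [h12, h14, show (|y| + D) ^ 2 + (|y| - D) ^ 2 = 2 * |y| ^ 2 + 2 * D ^ 2 by ring]

/-- first case: small deviation -/
theorem K18a_caseA (n X y D t R : ℝ) (hn0 : 0 < n) (hXa : |X| ≤ |y| + D) (hXn : X ^ 2 ≤ n)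
    (ht : t = 4 * X ^ 2 / n) (hrt : R ≤ Real.exp t) :
    R - 1 ≤ 8 * Real.exp 4 / n * (y ^ 2 + D ^ 2) := by
  have ht0 : 0 ≤ t := by rw [ht]; positivity
  have ht4 : t ≤ 4 := by
    rw [ht, div_le_iff₀ hn0]
    linarith
  have h10 : t * Real.exp t ≤ t * Real.exp 4 :=
    mul_le_mul_of_nonneg_left (Real.exp_le_exp.mpr ht4) ht0
  have h11 := K18a_sq X y D hXa
  calc R - 1 ≤ Real.exp t - 1 := by linarith
    _ ≤ t * Real.exp 4 := (K18a_exp t).trans h10
    _ = 4 * Real.exp 4 / n * X ^ 2 := by rw [ht]; ring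
    _ ≤ 4 * Real.exp 4 / n * (2 * y ^ 2 + 2 * D ^ 2) :=
        mul_le_mul_of_nonneg_left h11 (by positivity)
    _ = 8 * Real.exp 4 / n * (y ^ 2 + D ^ 2) := by ring

/-- second case: moderate deviation -/
theorem K18a_caseB (n X y v r t : ℝ) (hn0 : 0 < n) (hv0 : 0 < v) (hv64 : 64 * v ≤ n)
    (hXa : |X| ≤ 2 * |y|) (ht : t = 4 * X ^ 2 / n) (hyr : r / 2 ≤ |y|) (hr0 : 0 < r)
    (hrr : r ^ 2 = n) : -y ^ 2 / (2 * v) + t ≤ -(1 / 16) * (n / v) := by
  have h6 : t ≤ 16 * y ^ 2 / n := by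
    rw [ht]
    apply div_le_div_of_nonneg_right _ hn0.le
    have h7 : X ^ 2 ≤ (2 * |y|) ^ 2 := by
      rw [← sq_abs X]
      exact pow_le_pow_left₀ (abs_nonneg X) hXa 2
    rw [mul_pow, sq_abs] at h7
    linarith
  have h8 : 16 * y ^ 2 / n ≤ y ^ 2 / (4 * v) := by
    rw [div_le_div_iff₀ hn0 (by positivity)]
    have h9 : y ^ 2 * (64 * v) ≤ y ^ 2 * n := mul_le_mul_of_nonneg_left hv64 (sq_nonneg y)
    linarith [h9, show 16 * y ^ 2 * (4 * v) = y ^ 2 * (64 * v) by ring]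
  have h10 : n / 4 ≤ y ^ 2 := by
    have h11 : (r / 2) ^ 2 ≤ |y| ^ 2 := pow_le_pow_left₀ (by positivity) hyr 2
    rw [sq_abs, div_pow, hrr] at h11
    linarith
  calc -y ^ 2 / (2 * v) + t ≤ -y ^ 2 / (2 * v) + y ^ 2 / (4 * v) := by linarith
    _ = -((1 / (4 * v)) * y ^ 2) := by
        field_simp
        ring
    _ ≤ -((1 / (4 * v)) * (n / 4)) := by
        have h12 : 0 < 1 / (4 * v) := by positivity
        have h13 := mul_le_mul_of_nonneg_left h10 h12.le
        linarith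
    _ = -(1 / 16) * (n / v) := by
        field_simp
        ring

/-- third case: large deviation -/
theorem K18a_caseC (n X y w r t : ℝ) (hn0 : 0 < n) (hw0 : 0 < w) (hw32 : 32 * w ≤ n)
    (hXa : |X| ≤ 2 * |y|) (hXw : |X| ≤ w) (ht : t = 4 * X ^ 2 / n) (hyr : r / 2 ≤ |y|) :
    -|y| / 2 + t ≤ -(1 / 8) * r := by
  have h6 : t ≤ |y| / 4 := by
    rw [ht, div_le_iff₀ hn0]
    have h7 : X ^ 2 ≤ |X| * w := by
      rw [← sq_abs X, pow_two]
      exact mul_le_mul_of_nonneg_left hXw (abs_nonneg X)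
    have h8 : |X| * w ≤ (2 * |y|) * w := mul_le_mul_of_nonneg_right hXa hw0.le
    have h9 : |y| * (32 * w) ≤ |y| * n := mul_le_mul_of_nonneg_left hw32 (abs_nonneg y)
    linarith [h7, h8, h9, show |y| * (32 * w) = 16 * ((2 * |y|) * w) by ring,
      show |y| / 4 * n = |y| * n / 4 by ring]
  linarith

theorem K18a (d : ℕ) (hd : 1 ≤ d) (γ₂ γ₃ : ℝ) (h3 : 0 < γ₃) (h32 : γ₃ < γ₂) (h2 : γ₂ < 1) :
    ∃ (C : ℝ) (n₀ : ℕ), 0 < C ∧ ∀ n ≥ n₀, Even (d * n) → ∀ p : ℝ, 0 < p →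
      p ≤ (n : ℝ) ^ (-1 - γ₂) →
      ∑ j ∈ Finset.range (NE n - d + 1),
        (if ((j + d : ℕ) : ℝ) ≤ (n : ℝ) ^ (1 - γ₃) then
          bin (NE n - d) p j * (rho d n p (j + d) - 1) else 0) ≤ C * (n : ℝ) ^ (-γ₂) := by
  have hcast : Filter.Tendsto (fun n : ℕ => (n : ℝ)) Filter.atTop Filter.atTop :=
    tendsto_natCast_atTop_atTop
  have e1 : ∀ᶠ n : ℕ in Filter.atTop, (64 : ℝ) ≤ (n : ℝ) ^ γ₂ :=
    ((tendsto_rpow_atTop (by linarith : 0 < γ₂)).comp hcast).eventually_ge_atTop _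
  have e2 : ∀ᶠ n : ℕ in Filter.atTop, (32 : ℝ) ≤ (n : ℝ) ^ γ₃ :=
    ((tendsto_rpow_atTop h3).comp hcast).eventually_ge_atTop _
  have e3 : ∀ᶠ n : ℕ in Filter.atTop, 16 * (d : ℝ) ^ 2 + 16 ≤ (n : ℝ) :=
    hcast.eventually_ge_atTop _
  have e4 := K18a_small γ₂ (1 / 16) γ₂ (by linarith) (by norm_num) (by linarith)
  have e5 := K18a_small (1 / 2) (1 / 8) γ₂ (by norm_num) (by norm_num) (by linarith)
  obtain ⟨n₀, hn₀⟩ := Filter.eventually_atTop.mp (e1.and (e2.and (e3.and (e4.and e5))))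
  refine ⟨8 * Real.exp 4 * (1 / 2 + (d : ℝ) ^ 2) + 1, n₀, by positivity, ?_⟩
  intro n hn hev p hp hpn
  obtain ⟨f1, f2, f3, f4, f5⟩ := hn₀ n hn
  have hd' : (1 : ℝ) ≤ d := by exact_mod_cast hd
  have hn1 : (1 : ℝ) ≤ n := by nlinarith
  have hn0 : (0 : ℝ) < n := by linarith
  have hnN : 1 ≤ n := by exact_mod_cast hn1
  have hp1 : p ≤ 1 := by
    refine hpn.trans ?_
    apply Real.rpow_le_one_of_one_le_of_nonpos hn1
    linarith
  obtain ⟨v, hvdef⟩ : ∃ v : ℝ, v = (n : ℝ) ^ (1 - γ₂) := ⟨_, rfl⟩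
  have hv0 : 0 < v := by rw [hvdef]; positivity
  have hNp : (NE n : ℝ) * p ≤ v / 2 := by
    calc (NE n : ℝ) * p ≤ ((n : ℝ) ^ 2 / 2) * (n : ℝ) ^ (-1 - γ₂) :=
          mul_le_mul (K18a_NE n) hpn hp.le (by positivity)
      _ = v / 2 := by
          rw [hvdef, ← Real.rpow_natCast (n : ℝ) 2, div_mul_eq_mul_div, ← Real.rpow_add hn0]
          congr 2
          push_cast
          ring
  have hNp0 : 0 ≤ (NE n : ℝ) * p := by positivity
  have hvn : v * (n : ℝ) ^ γ₂ = n := by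
    rw [hvdef, ← Real.rpow_add hn0]
    simp
  have hv64 : 64 * v ≤ n := by
    calc 64 * v = v * 64 := by ring
      _ ≤ v * (n : ℝ) ^ γ₂ := mul_le_mul_of_nonneg_left f1 hv0.le
      _ = n := hvn
  obtain ⟨w, hwdef⟩ : ∃ w : ℝ, w = (n : ℝ) ^ (1 - γ₃) := ⟨_, rfl⟩
  have hw0 : 0 < w := by rw [hwdef]; positivity
  have hwn : w * (n : ℝ) ^ γ₃ = n := by
    rw [hwdef, ← Real.rpow_add hn0]
    simp
  have hw32 : 32 * w ≤ n := by
    calc 32 * w = w * 32 := by ring
      _ ≤ w * (n : ℝ) ^ γ₃ := mul_le_mul_of_nonneg_left f2 hw0.le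
      _ = n := hwn
  have hvw : v ≤ w := by
    rw [hvdef, hwdef]
    exact Real.rpow_le_rpow_of_exponent_le hn1 (by linarith)
  have hndn : (n : ℝ) ≤ d * n := by nlinarith
  have hell : (d : ℝ) * n / 2 ≤ ell d n p := by
    unfold ell
    linarith
  have hell0 : 0 < ell d n p := by
    have : 0 < (d : ℝ) * n / 2 := by positivity
    linarith
  obtain ⟨m, hm⟩ : ∃ m : ℕ, m = NE n - d := ⟨_, rfl⟩
  have hmN : (m : ℝ) ≤ NE n := by
    have : m ≤ NE n := by omega
    exact_mod_cast this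
  have hmN2 : (NE n : ℝ) - m ≤ d := by
    have h5 : NE n ≤ m + d := by omega
    have h6 : (NE n : ℝ) ≤ m + d := by exact_mod_cast h5
    linarith
  have hmp : (m : ℝ) * p ≤ v / 2 := by
    have := mul_le_mul_of_nonneg_right hmN hp.le
    linarith
  obtain ⟨E1, hE1⟩ : ∃ E : ℝ, E = Real.exp (-(1 / 16) * (n : ℝ) ^ γ₂) := ⟨_, rfl⟩
  obtain ⟨E2, hE2⟩ : ∃ E : ℝ, E = Real.exp (-(1 / 8) * (n : ℝ) ^ (1 / 2 : ℝ)) := ⟨_, rfl⟩
  have hE10 : 0 < E1 := by rw [hE1]; exact Real.exp_pos _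
  have hE20 : 0 < E2 := by rw [hE2]; exact Real.exp_pos _
  rw [← hE1] at f4
  rw [← hE2] at f5
  obtain ⟨r, hr⟩ : ∃ r : ℝ, r = (n : ℝ) ^ (1 / 2 : ℝ) := ⟨_, rfl⟩
  have hr0 : 0 < r := by rw [hr]; positivity
  have hrr : r ^ 2 = n := by
    rw [hr, ← Real.rpow_natCast, ← Real.rpow_mul hn0.le]
    norm_num
  have hrd : 4 * (d : ℝ) ≤ r := by
    apply le_of_sq_le_sq _ hr0.le
    nlinarith
  rw [← hwdef, ← hm]
  -- one term
  have hterm : ∀ j ∈ Finset.range (m + 1),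
      (if ((j + d : ℕ) : ℝ) ≤ w then bin m p j * (rho d n p (j + d) - 1) else 0) ≤
        8 * Real.exp 4 / n * (bin m p j * ((j : ℝ) - m * p) ^ 2 + (d : ℝ) ^ 2 * bin m p j) +
          (if j < n + 1 then E1 + E2 else 0) := by
    intro j hj
    have hjm : j ≤ m := by
      rw [Finset.mem_range] at hj
      omega
    have hb0 := K18a_bin_nonneg m p hp.le hp1 j
    have hif0 : 0 ≤ (if j < n + 1 then E1 + E2 else 0) := by
      split_ifs
      · positivity
      · exact le_rfl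
    have hfirst0 : 0 ≤ 8 * Real.exp 4 / n *
        (bin m p j * ((j : ℝ) - m * p) ^ 2 + (d : ℝ) ^ 2 * bin m p j) := by positivity
    by_cases hjw : ((j + d : ℕ) : ℝ) ≤ w
    · rw [if_pos hjw]
      push_cast at hjw
      obtain ⟨y, hy⟩ : ∃ y : ℝ, y = (j : ℝ) - m * p := ⟨_, rfl⟩
      obtain ⟨X, hX⟩ : ∃ X : ℝ, X = ((j + d : ℕ) : ℝ) - NE n * p := ⟨_, rfl⟩
      have hXy : |X - y| ≤ d := by
        have h5 : X - y = d - ((NE n : ℝ) - m) * p := by
          rw [hX, hy]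
          push_cast
          ring
        have h6 : 0 ≤ ((NE n : ℝ) - m) * p := mul_nonneg (by linarith) hp.le
        have h7 : ((NE n : ℝ) - m) * p ≤ d * 1 := mul_le_mul hmN2 hp1 hp.le (by positivity)
        rw [h5, abs_le]
        constructor <;> linarith
      have hXa : |X| ≤ |y| + d := by
        have h5 : |X| ≤ |X - y| + |y| := by
          have := abs_add_le (X - y) y
          simpa using this
        linarith
      have hk2 : j + d ≤ d * n / 2 := by
        rw [Nat.le_div_iff_mul_le (by norm_num)]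
        have h5 : ((j : ℝ) + d) * 2 ≤ d * n := by linarith
        exact_mod_cast h5
      have hrho := K17c d n p (j + d) hev hp.le hell hd hnN hk2 (by
        push_cast
        have h5 : (j : ℝ) + d - NE n * p ≤ w := by linarith
        linarith)
      rw [← hX] at hrho
      have hrho1 := K17b' d n p (j + d) hev hell0 hk2
      obtain ⟨t, ht⟩ : ∃ t : ℝ, t = 4 * X ^ 2 / n := ⟨_, rfl⟩
      have ht0 : 0 ≤ t := by rw [ht]; positivity
      have hrt : rho d n p (j + d) ≤ Real.exp t := by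
        refine hrho.trans (Real.exp_le_exp.mpr ?_)
        rw [ht, div_le_div_iff₀ hell0 hn0]
        have h5 : (n : ℝ) ≤ 2 * ell d n p := by linarith
        have h6 := mul_le_mul_of_nonneg_left h5 (sq_nonneg X)
        linarith [h6]
      have hfold : 8 * Real.exp 4 / n *
          (bin m p j * ((j : ℝ) - m * p) ^ 2 + (d : ℝ) ^ 2 * bin m p j) =
          bin m p j * (8 * Real.exp 4 / n * (y ^ 2 + (d : ℝ) ^ 2)) := by
        rw [← hy]
        ring
      by_cases hXn : X ^ 2 ≤ n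
      · have h5 := K18a_caseA n X y d t _ hn0 hXa hXn ht hrt
        have h6 := mul_le_mul_of_nonneg_left h5 hb0
        rw [hfold]
        linarith
      · push Not at hXn
        have hXr : r < |X| := by
          apply lt_of_pow_lt_pow_left₀ 2 (abs_nonneg X)
          rw [hrr, sq_abs]
          exact hXn
        have hyr : r / 2 ≤ |y| := by linarith
        have hyd : (d : ℝ) ≤ |y| := by linarith
        have hX2 : |X| ≤ 2 * |y| := by linarith
        have hjn : j < n + 1 := by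
          have h5 : (j : ℝ) < n + 1 := by linarith
          exact_mod_cast h5
        have hXw : |X| ≤ w := by
          rw [hX, abs_le]
          push_cast
          constructor <;> linarith
        have hsmall : bin m p j * Real.exp t ≤ E1 + E2 := by
          obtain ⟨hL1, hL2⟩ := K18a_large m p hp.le hp1 j hjm v hv0 hmp
          rw [← hy] at hL1 hL2
          rcases le_total |y| v with hyv | hyv
          · have h5 : bin m p j * Real.exp t ≤ E1 := by
              calc bin m p j * Real.exp t ≤ Real.exp (-y ^ 2 / (2 * v)) * Real.exp t :=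
                    mul_le_mul_of_nonneg_right (hL1 hyv) (Real.exp_pos _).le
                _ = Real.exp (-y ^ 2 / (2 * v) + t) := (Real.exp_add _ _).symm
                _ ≤ E1 := by
                    rw [hE1]
                    apply Real.exp_le_exp.mpr
                    have h9 : (n : ℝ) ^ γ₂ = n / v := by
                      rw [eq_div_iff hv0.ne', mul_comm]
                      exact hvn
                    rw [h9]
                    exact K18a_caseB n X y v r t hn0 hv0 hv64 hX2 ht hyr hr0 hrr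
            linarith
          · have h5 : bin m p j * Real.exp t ≤ E2 := by
              calc bin m p j * Real.exp t ≤ Real.exp (-|y| / 2) * Real.exp t :=
                    mul_le_mul_of_nonneg_right (hL2 hyv) (Real.exp_pos _).le
                _ = Real.exp (-|y| / 2 + t) := (Real.exp_add _ _).symm
                _ ≤ E2 := by
                    rw [hE2]
                    apply Real.exp_le_exp.mpr
                    rw [← hr]
                    exact K18a_caseC n X y w r t hn0 hw0 hw32 hX2 hXw ht hyr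
            linarith
        rw [if_pos hjn]
        calc bin m p j * (rho d n p (j + d) - 1) ≤ bin m p j * Real.exp t :=
              mul_le_mul_of_nonneg_left (by linarith) hb0
          _ ≤ E1 + E2 := hsmall
          _ ≤ _ := by linarith
    · rw [if_neg hjw]
      positivity
  -- the sum
  refine (Finset.sum_le_sum hterm).trans ?_
  rw [Finset.sum_add_distrib, ← Finset.mul_sum, Finset.sum_add_distrib, ← Finset.mul_sum,
    K18a_var, K18a_sum, mul_one]
  have h5 : ∑ j ∈ Finset.range (m + 1), (if j < n + 1 then E1 + E2 else 0) ≤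
      ((n : ℝ) + 1) * (E1 + E2) := by
    rw [← Finset.sum_filter, Finset.sum_const, nsmul_eq_mul]
    apply mul_le_mul_of_nonneg_right _ (by positivity)
    have h6 : ((Finset.range (m + 1)).filter (fun j => j < n + 1)).card ≤ n + 1 := by
      calc _ ≤ (Finset.range (n + 1)).card := by
            apply Finset.card_le_card
            intro j hj
            rw [Finset.mem_filter] at hj
            exact Finset.mem_range.mpr hj.2
        _ = n + 1 := Finset.card_range _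
    exact_mod_cast h6
  have h6 : (m : ℝ) * p * (1 - p) ≤ v / 2 := by
    have h7 : 0 ≤ (m : ℝ) * p := by positivity
    have h8 := mul_nonneg h7 hp.le
    linarith [h8]
  have h7 : v / n = (n : ℝ) ^ (-γ₂) := by
    rw [hvdef, div_eq_iff hn0.ne', ← Real.rpow_add_one hn0.ne']
    congr 1
    ring
  have h8 : 1 / (n : ℝ) ≤ (n : ℝ) ^ (-γ₂) := by
    rw [one_div, ← Real.rpow_neg_one]
    exact Real.rpow_le_rpow_of_exponent_le hn1 (by linarith)
  have h9 : 8 * Real.exp 4 / n * ((m : ℝ) * p * (1 - p) + (d : ℝ) ^ 2) ≤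
      8 * Real.exp 4 * (1 / 2 + (d : ℝ) ^ 2) * (n : ℝ) ^ (-γ₂) := by
    calc 8 * Real.exp 4 / n * ((m : ℝ) * p * (1 - p) + (d : ℝ) ^ 2)
        ≤ 8 * Real.exp 4 / n * (v / 2 + (d : ℝ) ^ 2) := by gcongr
      _ = 8 * Real.exp 4 * (1 / 2 * (v / n) + (d : ℝ) ^ 2 * (1 / n)) := by
          field_simp
      _ ≤ 8 * Real.exp 4 * (1 / 2 * (n : ℝ) ^ (-γ₂) + (d : ℝ) ^ 2 * (n : ℝ) ^ (-γ₂)) := by
          rw [h7]
          gcongr
      _ = 8 * Real.exp 4 * (1 / 2 + (d : ℝ) ^ 2) * (n : ℝ) ^ (-γ₂) := by ring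
  calc _ ≤ 8 * Real.exp 4 * (1 / 2 + (d : ℝ) ^ 2) * (n : ℝ) ^ (-γ₂) +
        ((n : ℝ) + 1) * (E1 + E2) := add_le_add h9 h5
    _ ≤ (8 * Real.exp 4 * (1 / 2 + (d : ℝ) ^ 2) + 1) * (n : ℝ) ^ (-γ₂) := by
        have h10 : ((n : ℝ) + 1) * (E1 + E2) = ((n : ℝ) + 1) * E1 + ((n : ℝ) + 1) * E2 := by ring
        rw [h10]
        linarith

end Pool.Agent.HC
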