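import Pool.Agent.Lib.MP_ec42c8_pr.K17

/-!
# K18b : the large terms of the majorant

PROOF.  `N = NE n`; `N p ≤ n ^ (1-γ₂) ≤ n ^ (1-γ₃) < k = j + d`, so `K17d` gives `rho ≤ exp (8 k)`
(`ell d n p ≥ d n / 2` for large `n`).  `bin (N-d) p j ≤ C(N, j) p ^ j ≤ (e N p / j) ^ j ≤
(2 e n ^ (γ₃ - γ₂)) ^ j`, since `j ≥ n ^ (1-γ₃) / 2`.  So each term is at most
`e ^ (8 d) (C n ^ (γ₃ - γ₂)) ^ j ≤ n ^ (-j₀ (γ₂ - γ₃) / 2)`, `j ≥ j₀ = n ^ (1-γ₃) / 2`, super-polynomially
small; there are at most `d n` terms.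
-/

set_option autoImplicit false

namespace Pool.Agent.HC

open Finset
open scoped Classical

/-- the number of pairs is at most half of the square -/
theorem K18b_NE (n : ℕ) : (NE n : ℝ) ≤ (n : ℝ) ^ 2 / 2 := by
  have h1 : NE n = n.choose 2 := by
    have h := Sym2.card_subtype_not_diag (α := Fin n)
    rw [Fintype.card_fin] at h
    exact h
  rw [h1, Nat.choose_two_right]
  have h2 : ((n * (n - 1) / 2 : ℕ) : ℝ) ≤ ((n * (n - 1) : ℕ) : ℝ) / 2 := Nat.cast_div_le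
  refine h2.trans ?_
  have h3 : ((n * (n - 1) : ℕ) : ℝ) ≤ (n : ℝ) ^ 2 := by
    have h4 : n * (n - 1) ≤ n ^ 2 := by
      rw [pow_two]
      exact Nat.mul_le_mul_left _ (Nat.sub_le _ _)
    exact_mod_cast h4
  linarith

/-- pointwise bound for binomial weights -/
theorem K18b_bin (N m : ℕ) (hm : m ≤ N) (p : ℝ) (hp : 0 ≤ p) (hp1 : p ≤ 1) (j : ℕ) (hj : 1 ≤ j) :
    bin m p j ≤ (Real.exp 1 * ((N : ℝ) * p / j)) ^ j := by
  have hj0 : (0 : ℝ) < j := by exact_mod_cast hj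
  unfold bin
  have h1 : (1 - p) ^ (m - j) ≤ 1 := pow_le_one₀ (by linarith) (by linarith)
  have h2 : ((m.choose j : ℕ) : ℝ) ≤ (N : ℝ) ^ j / (j.factorial : ℝ) := by
    calc ((m.choose j : ℕ) : ℝ) ≤ ((N.choose j : ℕ) : ℝ) := by
          exact_mod_cast Nat.choose_le_choose j hm
      _ ≤ (N : ℝ) ^ j / (j.factorial : ℝ) := Nat.choose_le_pow_div j N
  have h3 : (j : ℝ) ^ j / (j.factorial : ℝ) ≤ Real.exp j :=
    Real.pow_div_factorial_le_exp _ hj0.le j
  have hf : (0 : ℝ) < (j.factorial : ℝ) := by exact_mod_cast Nat.factorial_pos j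
  calc (m.choose j : ℝ) * p ^ j * (1 - p) ^ (m - j) ≤ (m.choose j : ℝ) * p ^ j * 1 := by
        gcongr
    _ ≤ ((N : ℝ) ^ j / (j.factorial : ℝ)) * p ^ j := by
        rw [mul_one]
        gcongr
    _ = ((N : ℝ) * p / j) ^ j * ((j : ℝ) ^ j / (j.factorial : ℝ)) := by
        rw [div_pow, mul_pow]
        field_simp
    _ ≤ ((N : ℝ) * p / j) ^ j * Real.exp j := by
        gcongr
    _ = (Real.exp 1 * ((N : ℝ) * p / j)) ^ j := by
        rw [mul_pow, ← Real.exp_nat_mul, mul_one, mul_comm]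

theorem K18b (d : ℕ) (hd : 1 ≤ d) (γ₂ γ₃ : ℝ) (h3 : 0 < γ₃) (h32 : γ₃ < γ₂) (h2 : γ₂ < 1) :
    ∃ n₀ : ℕ, ∀ n ≥ n₀, Even (d * n) → ∀ p : ℝ, 0 < p → p ≤ (n : ℝ) ^ (-1 - γ₂) →
      ∑ j ∈ Finset.range (NE n - d + 1),
        (if (n : ℝ) ^ (1 - γ₃) < ((j + d : ℕ) : ℝ) ∧ j + d ≤ d * n / 2 then
          bin (NE n - d) p j * rho d n p (j + d) else 0) ≤ (n : ℝ) ^ (-((d : ℝ) + 3)) := by
  obtain ⟨β, hβ, hβ'⟩ : ∃ β : ℝ, 0 < β ∧ γ₂ - γ₃ = 2 * β := ⟨(γ₂ - γ₃) / 2, by linarith, by ring⟩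
  have hcast : Filter.Tendsto (fun n : ℕ => (n : ℝ)) Filter.atTop Filter.atTop :=
    tendsto_natCast_atTop_atTop
  have e1 : ∀ᶠ n : ℕ in Filter.atTop, (2 : ℝ) ≤ (n : ℝ) ^ γ₂ :=
    ((tendsto_rpow_atTop (by linarith : 0 < γ₂)).comp hcast).eventually_ge_atTop 2
  have e2 : ∀ᶠ n : ℕ in Filter.atTop, (2 * (d : ℝ) + 2) ≤ (n : ℝ) ^ (1 - γ₃) :=
    ((tendsto_rpow_atTop (by linarith : 0 < 1 - γ₃)).comp hcast).eventually_ge_atTop _
  have e3 : ∀ᶠ n : ℕ in Filter.atTop, Real.exp 9 ≤ (n : ℝ) ^ β :=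
    ((tendsto_rpow_atTop hβ).comp hcast).eventually_ge_atTop _
  have e4 : ∀ᶠ n : ℕ in Filter.atTop, 2 * ((d : ℝ) + 5) / β ≤ (n : ℝ) ^ (1 - γ₃) :=
    ((tendsto_rpow_atTop (by linarith : 0 < 1 - γ₃)).comp hcast).eventually_ge_atTop _
  have e5 : ∀ᶠ n : ℕ in Filter.atTop, (d : ℝ) * Real.exp (8 * d) + 1 ≤ (n : ℝ) :=
    hcast.eventually_ge_atTop _
  obtain ⟨n₀, hn₀⟩ := Filter.eventually_atTop.mp (e1.and (e2.and (e3.and (e4.and e5))))
  refine ⟨n₀, ?_⟩
  intro n hn hev p hp hpn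
  obtain ⟨f1, f2, f3, f4, f5⟩ := hn₀ n hn
  have hd' : (1 : ℝ) ≤ d := by exact_mod_cast hd
  have hn1 : (1 : ℝ) ≤ n := by
    have : 0 ≤ (d : ℝ) * Real.exp (8 * d) := by positivity
    linarith
  have hn0 : (0 : ℝ) < n := by linarith
  have hnN : 1 ≤ n := by exact_mod_cast hn1
  have hp1 : p ≤ 1 := by
    refine hpn.trans ?_
    apply Real.rpow_le_one_of_one_le_of_nonpos hn1
    linarith
  -- `N p`
  have hNp : (NE n : ℝ) * p ≤ (n : ℝ) ^ (1 - γ₂) / 2 := by
    calc (NE n : ℝ) * p ≤ ((n : ℝ) ^ 2 / 2) * (n : ℝ) ^ (-1 - γ₂) :=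
          mul_le_mul (K18b_NE n) hpn hp.le (by positivity)
      _ = (n : ℝ) ^ (1 - γ₂) / 2 := by
          rw [← Real.rpow_natCast (n : ℝ) 2, div_mul_eq_mul_div, ← Real.rpow_add hn0]
          congr 2
          push_cast
          ring
  have hNp0 : 0 ≤ (NE n : ℝ) * p := by positivity
  have hv : (n : ℝ) ^ (1 - γ₂) ≤ (d : ℝ) * n / 2 := by
    have h4 : (n : ℝ) ^ (1 - γ₂) * (n : ℝ) ^ γ₂ = n := by
      rw [← Real.rpow_add hn0]
      simp
    have h5 : 0 ≤ (n : ℝ) ^ (1 - γ₂) := by positivity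
    have h6 : (n : ℝ) ^ (1 - γ₂) * 2 ≤ n := by
      calc (n : ℝ) ^ (1 - γ₂) * 2 ≤ (n : ℝ) ^ (1 - γ₂) * (n : ℝ) ^ γ₂ :=
            mul_le_mul_of_nonneg_left f1 h5
        _ = n := h4
    have h7 : (n : ℝ) ≤ d * n := by nlinarith
    linarith
  have hell : (d : ℝ) * n / 2 ≤ ell d n p := by
    unfold ell
    linarith
  have hv23 : (n : ℝ) ^ (1 - γ₂) ≤ (n : ℝ) ^ (1 - γ₃) :=
    Real.rpow_le_rpow_of_exponent_le hn1 (by linarith)
  -- bound for one term
  set A : ℝ := (n : ℝ) ^ (-β) with hA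
  have hA0 : 0 < A := by positivity
  have hA1 : A ≤ 1 := Real.rpow_le_one_of_one_le_of_nonpos hn1 (by linarith)
  have hexpA : Real.exp 9 * (n : ℝ) ^ (γ₃ - γ₂) ≤ A := by
    have h4 : (n : ℝ) ^ (γ₃ - γ₂) = A * (n : ℝ) ^ (-β) := by
      rw [hA, ← Real.rpow_add hn0]
      congr 1
      linarith
    have h5 : Real.exp 9 * (n : ℝ) ^ (-β) ≤ 1 := by
      rw [Real.rpow_neg hn0.le]
      have h6 : 0 < (n : ℝ) ^ β := by positivity
      rw [← div_eq_mul_inv, div_le_one h6]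
      exact f3
    rw [h4]
    calc Real.exp 9 * (A * (n : ℝ) ^ (-β)) = A * (Real.exp 9 * (n : ℝ) ^ (-β)) := by ring
      _ ≤ A * 1 := mul_le_mul_of_nonneg_left h5 hA0.le
      _ = A := mul_one _
  have hterm : ∀ j : ℕ, (n : ℝ) ^ (1 - γ₃) < ((j + d : ℕ) : ℝ) → j + d ≤ d * n / 2 →
      bin (NE n - d) p j * rho d n p (j + d) ≤ Real.exp (8 * d) * (n : ℝ) ^ (-((d : ℝ) + 5)) := by
    intro j hj hj2
    have hjd : (n : ℝ) ^ (1 - γ₃) < (j : ℝ) + d := by
      push_cast at hj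
      exact hj
    have hjh : (n : ℝ) ^ (1 - γ₃) / 2 ≤ j := by linarith
    have hj1 : (1 : ℝ) ≤ j := by
      have : (d : ℝ) + 1 ≤ (n : ℝ) ^ (1 - γ₃) / 2 := by linarith
      linarith
    have hj1' : 1 ≤ j := by exact_mod_cast hj1
    have hj0 : (0 : ℝ) < j := by linarith
    have hrho : rho d n p (j + d) ≤ Real.exp (8 * ((j + d : ℕ) : ℝ)) := by
      apply K17d d n p (j + d) hev hp.le hell hd hnN hj2
      push_cast
      linarith
    have hbin0 : 0 ≤ bin (NE n - d) p j := by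
      unfold bin
      have : 0 ≤ 1 - p := by linarith
      positivity
    have hbin := K18b_bin (NE n) (NE n - d) (Nat.sub_le _ _) p hp.le hp1 j hj1'
    have hq : Real.exp 1 * ((NE n : ℝ) * p / j) ≤ Real.exp 1 * (n : ℝ) ^ (γ₃ - γ₂) := by
      apply mul_le_mul_of_nonneg_left _ (Real.exp_pos 1).le
      rw [div_le_iff₀ hj0]
      calc (NE n : ℝ) * p ≤ (n : ℝ) ^ (1 - γ₂) / 2 := hNp
        _ = (n : ℝ) ^ (γ₃ - γ₂) * ((n : ℝ) ^ (1 - γ₃) / 2) := by
            rw [mul_div_assoc', ← Real.rpow_add hn0]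
            congr 2
            ring
        _ ≤ (n : ℝ) ^ (γ₃ - γ₂) * j := mul_le_mul_of_nonneg_left hjh (by positivity)
    calc bin (NE n - d) p j * rho d n p (j + d)
        ≤ (Real.exp 1 * (n : ℝ) ^ (γ₃ - γ₂)) ^ j * Real.exp (8 * ((j + d : ℕ) : ℝ)) := by
          apply mul_le_mul _ hrho _ (by positivity)
          · exact hbin.trans (pow_le_pow_left₀ (by positivity) hq j)
          · have h5 : 0 < ell d n p := by
              have : 0 < (d : ℝ) * n / 2 := by positivity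
              linarith
            have h6 := K17b' d n p (j + d) hev h5 hj2
            linarith
      _ = Real.exp (8 * d) * (Real.exp 9 * (n : ℝ) ^ (γ₃ - γ₂)) ^ j := by
          have h5 : Real.exp (8 * ((j + d : ℕ) : ℝ)) = Real.exp (8 * d) * Real.exp 8 ^ j := by
            rw [← Real.exp_nat_mul, ← Real.exp_add]
            congr 1
            push_cast
            ring
          have h6 : Real.exp 9 = Real.exp 1 * Real.exp 8 := by
            rw [← Real.exp_add]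
            norm_num
          rw [h5, h6]
          simp only [mul_pow]
          ring
      _ ≤ Real.exp (8 * d) * A ^ j := by
          gcongr
      _ ≤ Real.exp (8 * d) * (n : ℝ) ^ (-((d : ℝ) + 5)) := by
          apply mul_le_mul_of_nonneg_left _ (Real.exp_pos _).le
          rw [hA, ← Real.rpow_natCast, ← Real.rpow_mul hn0.le]
          apply Real.rpow_le_rpow_of_exponent_le hn1
          have h7 : (d : ℝ) + 5 ≤ β * j := by
            have h8 : 2 * ((d : ℝ) + 5) / β ≤ 2 * j := by linarith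
            rw [div_le_iff₀ hβ] at h8
            linarith
          linarith
  -- the sum
  calc ∑ j ∈ Finset.range (NE n - d + 1),
        (if (n : ℝ) ^ (1 - γ₃) < ((j + d : ℕ) : ℝ) ∧ j + d ≤ d * n / 2 then
          bin (NE n - d) p j * rho d n p (j + d) else 0)
      ≤ ∑ j ∈ Finset.range (NE n - d + 1), (if j < d * n then
          Real.exp (8 * d) * (n : ℝ) ^ (-((d : ℝ) + 5)) else 0) := by
        apply Finset.sum_le_sum
        intro j _
        have hB : 0 ≤ Real.exp (8 * d) * (n : ℝ) ^ (-((d : ℝ) + 5)) := by positivity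
        by_cases hc : (n : ℝ) ^ (1 - γ₃) < ((j + d : ℕ) : ℝ) ∧ j + d ≤ d * n / 2
        · rw [if_pos hc]
          have h8 : j < d * n := by
            have h9 : d * n / 2 ≤ d * n := Nat.div_le_self _ _
            omega
          rw [if_pos h8]
          exact hterm j hc.1 hc.2
        · rw [if_neg hc]
          split_ifs
          · exact hB
          · exact le_rfl
    _ = (((Finset.range (NE n - d + 1)).filter (fun j => j < d * n)).card : ℝ) *
          (Real.exp (8 * d) * (n : ℝ) ^ (-((d : ℝ) + 5))) := by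
        rw [← Finset.sum_filter, Finset.sum_const, nsmul_eq_mul]
    _ ≤ ((d : ℝ) * n) * (Real.exp (8 * d) * (n : ℝ) ^ (-((d : ℝ) + 5))) := by
        apply mul_le_mul_of_nonneg_right _ (by positivity)
        have h8 : ((Finset.range (NE n - d + 1)).filter (fun j => j < d * n)).card ≤ d * n := by
          calc _ ≤ (Finset.range (d * n)).card := by
                apply Finset.card_le_card
                intro j hj
                rw [Finset.mem_filter] at hj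
                exact Finset.mem_range.mpr hj.2
            _ = d * n := Finset.card_range _
        exact_mod_cast h8
    _ = ((d : ℝ) * Real.exp (8 * d) / n) * (n : ℝ) ^ (-((d : ℝ) + 3)) := by
        have h8 : (n : ℝ) ^ (-((d : ℝ) + 3)) = (n : ℝ) ^ (-((d : ℝ) + 5)) * (n : ℝ) ^ 2 := by
          rw [← Real.rpow_natCast (n : ℝ) 2, ← Real.rpow_add hn0]
          congr 1
          push_cast
          ring
        rw [h8]
        field_simp
    _ ≤ 1 * (n : ℝ) ^ (-((d : ℝ) + 3)) := by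
        apply mul_le_mul_of_nonneg_right _ (by positivity)
        rw [div_le_one hn0]
        linarith
    _ = (n : ℝ) ^ (-((d : ℝ) + 3)) := one_mul _

end Pool.Agent.HC
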