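import Pool.Agent.Lib.MP_ec42c8_pr.KDefs

/-!
# K19a : vertices of degree d in a random graph; the number of dangerous pairs

`K19a`: `ndK d K` is at most the number of pairs ` (v, T)` with `T ⊆ K` a set of `d` edges at `v`.  Exchange the
sums: for fixed ` (v, T)` the graphs `K ⊇ T` with `card K = j + d` are counted by `C(N - d, j)`; the number of
pairs ` (v, T)` is at most `n · C(n-1, d) ≤ n ^ (d+1)`.
`K19b`: a pair `e ∉ K` with `d < deg (insert e K) v` for some `v` contains a vertex of degree `d` (all degrees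
of `K` are at most `d`), and conversely; there are at most `n - 1` pairs at each such vertex: upper bound.
Lower bound: with `D` the set of vertices of degree `d`: at least
`card D (n-1) - C(card D, 2)` pairs meet `D`, at most `d card D` of them are in `K`, and
`card D · d ≤ ∑ deg = 2 card K`, so ` (card D - 1) / 2 ≤ card K`.
-/

set_option autoImplicit false

namespace Pool.Agent.HC

open Finset
open scoped Classical

/-- The pairs that contain `v`. -/
noncomputable def k19a_star {n : ℕ} (v : Fin n) : Gr n := Finset.univ.filter (fun e => v ∈ e.1)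

lemma k19a_mem_star {n : ℕ} (v : Fin n) (e : Edge n) : e ∈ k19a_star v ↔ v ∈ e.1 := by
  simp [k19a_star]

/-- The other end. -/
noncomputable def k19a_oth {n : ℕ} (v : Fin n) (e : Edge n) : Fin n :=
  if h : v ∈ e.1 then Sym2.Mem.other h else v

lemma k19a_oth_spec {n : ℕ} (v : Fin n) (e : Edge n) (h : v ∈ e.1) : s(v, k19a_oth v e) = e.1 := by
  rw [k19a_oth, dif_pos h, Sym2.other_spec]

lemma k19a_inj {n : ℕ} (v : Fin n) (e f : Edge n) (he : v ∈ e.1) (hf : v ∈ f.1)
    (h : k19a_oth v e = k19a_oth v f) : e = f := by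
  apply Subtype.ext
  rw [← k19a_oth_spec v e he, ← k19a_oth_spec v f hf, h]

lemma k19a_star_le {n : ℕ} (v : Fin n) : (k19a_star v).card ≤ n := by
  have h : (k19a_star v).card ≤ (Finset.univ : Finset (Fin n)).card := by
    refine Finset.card_le_card_of_injOn (k19a_oth v) (fun _ _ => Finset.mem_univ _) ?_
    intro e he f hf hef
    rw [Finset.mem_coe, k19a_mem_star] at he hf
    exact k19a_inj v e f he hf hef
  simpa using h

lemma k19a_star_ge {n : ℕ} (v : Fin n) : n - 1 ≤ (k19a_star v).card := by
  have h : (Finset.univ.erase v).card ≤ (k19a_star v).card := by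
    refine Finset.card_le_card_of_surjOn (k19a_oth v) ?_
    intro w hw
    rw [Finset.mem_coe, Finset.mem_erase] at hw
    have hm : v ∈ (mkE v w (Ne.symm hw.1)).1 := Sym2.mem_mk_left v w
    refine ⟨mkE v w (Ne.symm hw.1), ?_, ?_⟩
    · rw [Finset.mem_coe, k19a_mem_star]
      exact hm
    · have hs : s(v, k19a_oth v (mkE v w (Ne.symm hw.1))) = s(v, w) := k19a_oth_spec v _ hm
      exact Sym2.congr_right.1 hs
  rw [Finset.card_erase_of_mem (Finset.mem_univ _)] at h
  simpa using h

lemma k19a_two {n : ℕ} (e : Edge n) : (Finset.univ.filter (fun v : Fin n => v ∈ e.1)).card = 2 := by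
  have h1 : (Finset.univ.filter (fun v => v ∈ e.1)) = e.1.toFinset := by
    ext v; simp
  rw [h1]
  exact Sym2.card_toFinset_of_not_isDiag e.1 e.2

lemma k19a_sum {n : ℕ} (F : Gr n) (D : Finset (Fin n)) :
    ∑ v ∈ D, deg F v = ∑ e ∈ F, (D.filter (fun v => v ∈ e.1)).card := by
  simp only [deg, Finset.card_filter]
  rw [Finset.sum_comm]

lemma k19a_supersets {n : ℕ} (d : ℕ) (T : Gr n) (hT : T.card = d) (φ : ℕ → ℝ) :
    ∑ K : Gr n, (if T ⊆ K then φ K.card else 0) =
      ∑ j ∈ Finset.range (NE n - d + 1), ((NE n - d).choose j : ℝ) * φ (j + d) := by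
  have h1 : ∑ K : Gr n, (if T ⊆ K then φ K.card else 0) =
      ∑ K' ∈ (Tᶜ).powerset, φ (K'.card + d) := by
    rw [← Finset.sum_filter]
    refine Finset.sum_bij' (fun K _ => K \ T) (fun K' _ => K' ∪ T) ?_ ?_ ?_ ?_ ?_
    · intro K hK
      rw [Finset.mem_powerset]
      intro e he
      rw [Finset.mem_sdiff] at he
      rw [Finset.mem_compl]
      exact he.2
    · intro K' _
      rw [Finset.mem_filter]
      exact ⟨Finset.mem_univ _, Finset.subset_union_right⟩
    · intro K hK
      rw [Finset.mem_filter] at hK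
      exact Finset.sdiff_union_of_subset hK.2
    · intro K' hK'
      rw [Finset.mem_powerset] at hK'
      rw [Finset.union_sdiff_right]
      refine Finset.sdiff_eq_self_of_disjoint ?_
      rw [Finset.disjoint_left]
      intro e he heT
      exact (Finset.mem_compl.1 (hK' he)) heT
    · intro K hK
      rw [Finset.mem_filter] at hK
      have : (K \ T).card + d = K.card := by
        rw [← hT]
        exact Finset.card_sdiff_add_card_eq_card hK.2
      rw [this]
  rw [h1, Finset.sum_powerset_apply_card (fun k => φ (k + d))]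
  have h2 : (Tᶜ).card = NE n - d := by
    rw [Finset.card_compl, hT]
  rw [h2]
  refine Finset.sum_congr rfl fun j _ => ?_
  rw [nsmul_eq_mul]

theorem K19a {n : ℕ} (d : ℕ) (hd : d ≤ NE n) (φ : ℕ → ℝ) (hφ : ∀ k, 0 ≤ φ k) :
    ∑ K : Gr n, (ndK d K : ℝ) * φ K.card ≤
      (n : ℝ) ^ (d + 1) * ∑ j ∈ Finset.range (NE n - d + 1),
        ((NE n - d).choose j : ℝ) * φ (j + d) := by
  set S : ℝ := ∑ j ∈ Finset.range (NE n - d + 1), ((NE n - d).choose j : ℝ) * φ (j + d) with hS
  have hS0 : 0 ≤ S := Finset.sum_nonneg fun j _ => mul_nonneg (by positivity) (hφ _)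
  have h1 : ∀ K : Gr n, (ndK d K : ℝ) * φ K.card ≤
      ∑ v : Fin n, ∑ T ∈ (k19a_star v).powersetCard d, (if T ⊆ K then φ K.card else 0) := by
    intro K
    have h2 : (ndK d K : ℝ) = ∑ v : Fin n, (if deg K v = d then (1 : ℝ) else 0) := by
      rw [ndK, Finset.card_filter]
      push_cast
      rfl
    rw [h2, Finset.sum_mul]
    refine Finset.sum_le_sum fun v _ => ?_
    split_ifs with h3
    · rw [one_mul]
      have hm : K.filter (fun e => v ∈ e.1) ∈ (k19a_star v).powersetCard d := by
        rw [Finset.mem_powersetCard]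
        refine ⟨fun e he => ?_, h3⟩
        rw [k19a_mem_star]
        exact (Finset.mem_filter.1 he).2
      have h4 := Finset.single_le_sum
        (f := fun T : Gr n => if T ⊆ K then φ K.card else (0 : ℝ))
        (fun T _ => by
          show (0 : ℝ) ≤ if T ⊆ K then φ K.card else (0 : ℝ)
          split_ifs
          · exact hφ _
          · exact le_rfl) hm
      simp only [Finset.filter_subset, if_true] at h4
      exact h4
    · rw [zero_mul]
      refine Finset.sum_nonneg fun T _ => ?_
      split_ifs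
      · exact hφ _
      · exact le_rfl
  refine (Finset.sum_le_sum fun K _ => h1 K).trans ?_
  rw [Finset.sum_comm]
  have h5 : ∀ v : Fin n, ∑ K : Gr n, ∑ T ∈ (k19a_star v).powersetCard d,
      (if T ⊆ K then φ K.card else 0) ≤ (n : ℝ) ^ d * S := by
    intro v
    rw [Finset.sum_comm]
    have h6 : ∀ T ∈ (k19a_star v).powersetCard d,
        ∑ K : Gr n, (if T ⊆ K then φ K.card else 0) = S := by
      intro T hT
      exact k19a_supersets d T (Finset.mem_powersetCard.1 hT).2 φ
    rw [Finset.sum_congr rfl h6, Finset.sum_const, nsmul_eq_mul, Finset.card_powersetCard]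
    refine mul_le_mul_of_nonneg_right ?_ hS0
    have h7 : (k19a_star v).card.choose d ≤ n ^ d :=
      (Nat.choose_le_pow _ _).trans (Nat.pow_le_pow_left (k19a_star_le v) d)
    exact_mod_cast h7
  refine (Finset.sum_le_sum fun v _ => h5 v).trans (le_of_eq ?_)
  rw [Finset.sum_const, Finset.card_univ, Fintype.card_fin, nsmul_eq_mul]
  ring

lemma k19a_insert {n : ℕ} (K : Gr n) (e : Edge n) (he : e ∉ K) (v : Fin n) :
    deg (insert e K) v = deg K v + (if v ∈ e.1 then 1 else 0) := by
  simp only [deg, Finset.filter_insert]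
  split_ifs with h
  · rw [Finset.card_insert_of_notMem]
    intro h2
    exact he (Finset.mem_filter.1 h2).1
  · rfl

theorem K19b_upper {n : ℕ} (d : ℕ) (K : Gr n) (hK : ∀ v, deg K v ≤ d) :
    (bK d K : ℝ) ≤ n * ndK d K := by
  have h1 : Finset.univ.filter (fun e => e ∉ K ∧ ∃ v, d < deg (insert e K) v) ⊆
      (Finset.univ.filter (fun v => deg K v = d)).biUnion (fun v => k19a_star v) := by
    intro e he
    rw [Finset.mem_filter] at he
    obtain ⟨_, heK, v, hv⟩ := he
    rw [k19a_insert K e heK v] at hv
    have := hK v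
    rw [Finset.mem_biUnion]
    refine ⟨v, ?_, ?_⟩
    · rw [Finset.mem_filter]
      refine ⟨Finset.mem_univ _, ?_⟩
      split_ifs at hv <;> omega
    · rw [k19a_mem_star]
      by_contra h
      rw [if_neg h] at hv
      omega
  have h2 : bK d K ≤ ndK d K * n := by
    unfold bK ndK
    refine (Finset.card_le_card h1).trans (Finset.card_biUnion_le_card_mul _ _ _ fun v _ => ?_)
    exact k19a_star_le v
  have h3 : (bK d K : ℝ) ≤ ndK d K * n := by exact_mod_cast h2
  linarith

theorem K19b_lower {n : ℕ} (d : ℕ) (hd : 1 ≤ d) (K : Gr n) (hK : ∀ v, deg K v ≤ d) :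
    (ndK d K : ℝ) * ((n : ℝ) - 1 - d - K.card) ≤ bK d K := by
  set D := Finset.univ.filter (fun v => deg K v = d) with hD
  have hDcard : D.card = ndK d K := rfl
  -- card D ≤ 2 card K
  have hDK : D.card ≤ 2 * K.card := by
    have h1 : ∑ v ∈ D, deg K v ≤ 2 * K.card := by
      rw [k19a_sum K D]
      have : ∀ e ∈ K, (D.filter (fun v => v ∈ e.1)).card ≤ 2 := by
        intro e _
        rw [← k19a_two e]
        exact Finset.card_le_card (Finset.filter_subset_filter _ (Finset.subset_univ _))
      refine (Finset.sum_le_sum this).trans (le_of_eq ?_)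
      rw [Finset.sum_const, smul_eq_mul, mul_comm]
    have h2 : ∑ v ∈ D, deg K v = D.card * d := by
      rw [Finset.sum_congr rfl (g := fun _ => d) (fun v hv => (Finset.mem_filter.1 hv).2),
        Finset.sum_const, smul_eq_mul]
    rw [h2] at h1
    exact (Nat.le_mul_of_pos_right _ hd).trans h1
  -- the pairs inside D
  set I : Gr n := Finset.univ.filter (fun e => ∀ v ∈ e.1, v ∈ D) with hI
  have hIcard : 2 * I.card ≤ D.card * D.card := by
    have h1 : ∑ v ∈ D, deg I v = 2 * I.card := by
      rw [k19a_sum I D]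
      have : ∀ e ∈ I, (D.filter (fun v => v ∈ e.1)).card = 2 := by
        intro e he
        rw [← k19a_two e]
        congr 1
        ext v
        simp only [Finset.mem_filter, Finset.mem_univ, true_and, and_iff_right_iff_imp]
        intro hv
        exact (Finset.mem_filter.1 he).2 v hv
      rw [Finset.sum_congr rfl this, Finset.sum_const, smul_eq_mul, mul_comm]
    rw [← h1]
    have h2 : ∀ v ∈ D, deg I v ≤ D.card := by
      intro v _
      refine Finset.card_le_card_of_injOn (k19a_oth v) ?_ ?_
      · intro e he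
        rw [Finset.mem_coe, Finset.mem_filter] at he
        have h3 := (Finset.mem_filter.1 he.1).2
        refine h3 _ ?_
        have h4 := k19a_oth_spec v e he.2
        rw [← h4]
        exact Sym2.mem_mk_right _ _
      · intro e he f hf hef
        rw [Finset.mem_coe, Finset.mem_filter] at he hf
        exact k19a_inj v e f he.2 hf.2 hef
    refine (Finset.sum_le_sum h2).trans (le_of_eq ?_)
    rw [Finset.sum_const, smul_eq_mul]
  -- double counting of the pairs outside K
  have hcount : ∑ v ∈ D, deg (Kᶜ) v ≤ bK d K + I.card := by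
    rw [k19a_sum (Kᶜ) D]
    have h1 : bK d K = ∑ e ∈ Kᶜ, (if ∃ v ∈ D, v ∈ e.1 then 1 else 0) := by
      rw [← Finset.card_filter]
      unfold bK
      congr 1
      ext e
      simp only [Finset.mem_filter, Finset.mem_univ, true_and, Finset.mem_compl]
      constructor
      · rintro ⟨heK, v, hv⟩
        rw [k19a_insert K e heK v] at hv
        have := hK v
        refine ⟨heK, v, ?_, ?_⟩
        · rw [hD, Finset.mem_filter]
          refine ⟨Finset.mem_univ _, ?_⟩
          split_ifs at hv <;> omega
        · by_contra h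
          rw [if_neg h] at hv
          omega
      · rintro ⟨heK, v, hv, hve⟩
        refine ⟨heK, v, ?_⟩
        rw [k19a_insert K e heK v, if_pos hve, (Finset.mem_filter.1 hv).2]
        omega
    have h2 : ∑ e ∈ Kᶜ, (if ∀ v ∈ e.1, v ∈ D then 1 else 0) ≤ I.card := by
      rw [← Finset.card_filter, hI]
      exact Finset.card_le_card (Finset.filter_subset_filter _ (Finset.subset_univ _))
    have h3 : ∀ e ∈ Kᶜ, (D.filter (fun v => v ∈ e.1)).card ≤
        (if ∃ v ∈ D, v ∈ e.1 then 1 else 0) + (if ∀ v ∈ e.1, v ∈ D then 1 else 0) := by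
      intro e _
      have hsub : D.filter (fun v => v ∈ e.1) ⊆ Finset.univ.filter (fun v : Fin n => v ∈ e.1) :=
        Finset.filter_subset_filter _ (Finset.subset_univ _)
      have h4 : (D.filter (fun v => v ∈ e.1)).card ≤ 2 := by
        rw [← k19a_two e]
        exact Finset.card_le_card hsub
      by_cases h5 : ∃ v ∈ D, v ∈ e.1
      · rw [if_pos h5]
        by_cases h6 : ∀ v ∈ e.1, v ∈ D
        · rw [if_pos h6]
          exact h4
        · rw [if_neg h6]
          push Not at h6
          obtain ⟨w, hw, hwD⟩ := h6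
          have h7 : D.filter (fun v => v ∈ e.1) ⊂ Finset.univ.filter (fun v : Fin n => v ∈ e.1) := by
            refine ⟨hsub, fun h8 => hwD ?_⟩
            have h9 : w ∈ Finset.univ.filter (fun v : Fin n => v ∈ e.1) := by
              rw [Finset.mem_filter]
              exact ⟨Finset.mem_univ _, hw⟩
            exact (Finset.mem_filter.1 (h8 h9)).1
          have h10 := Finset.card_lt_card h7
          rw [k19a_two e] at h10
          omega
      · rw [if_neg h5]
        have h6 : D.filter (fun v => v ∈ e.1) = ∅ := by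
          rw [Finset.filter_eq_empty_iff]
          intro v hv hve
          exact h5 ⟨v, hv, hve⟩
        rw [h6]
        simp
    calc ∑ e ∈ Kᶜ, (D.filter (fun v => v ∈ e.1)).card
        ≤ ∑ e ∈ Kᶜ, ((if ∃ v ∈ D, v ∈ e.1 then 1 else 0) + (if ∀ v ∈ e.1, v ∈ D then 1 else 0)) :=
          Finset.sum_le_sum h3
      _ = bK d K + ∑ e ∈ Kᶜ, (if ∀ v ∈ e.1, v ∈ D then 1 else 0) := by
          rw [Finset.sum_add_distrib, ← h1]
      _ ≤ _ := Nat.add_le_add_left h2 _
  have hlow : D.card * (n - 1) ≤ ∑ v ∈ D, deg (Kᶜ) v + D.card * d := by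
    have h1 : ∀ v ∈ D, n - 1 ≤ deg (Kᶜ) v + d := by
      intro v hv
      have h2 : k19a_star v = (Kᶜ).filter (fun e => v ∈ e.1) ∪ K.filter (fun e => v ∈ e.1) := by
        ext e
        simp only [k19a_mem_star, Finset.mem_union, Finset.mem_filter, Finset.mem_compl]
        tauto
      have h3 : (k19a_star v).card ≤ deg (Kᶜ) v + deg K v := by
        rw [h2]
        exact Finset.card_union_le _ _
      have h4 := k19a_star_ge v
      have h5 := (Finset.mem_filter.1 hv).2
      omega
    calc D.card * (n - 1) = ∑ _v ∈ D, (n - 1) := by rw [Finset.sum_const, smul_eq_mul]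
      _ ≤ ∑ v ∈ D, (deg (Kᶜ) v + d) := Finset.sum_le_sum h1
      _ = _ := by rw [Finset.sum_add_distrib, Finset.sum_const, smul_eq_mul]
  have hn : ((n - 1 : ℕ) : ℝ) ≥ (n : ℝ) - 1 := by
    have : n ≤ (n - 1) + 1 := by omega
    have : (n : ℝ) ≤ ((n - 1 : ℕ) : ℝ) + 1 := by exact_mod_cast this
    linarith
  have e1 : (D.card : ℝ) * ((n - 1 : ℕ) : ℝ) ≤ bK d K + I.card + D.card * d := by
    have : D.card * (n - 1) ≤ bK d K + I.card + D.card * d := by omega
    exact_mod_cast this
  have e2 : 2 * (I.card : ℝ) ≤ D.card * D.card := by exact_mod_cast hIcard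
  have e3 : (D.card : ℝ) ≤ 2 * K.card := by exact_mod_cast hDK
  have e4 : (D.card : ℝ) * ((n : ℝ) - 1) ≤ (D.card : ℝ) * ((n - 1 : ℕ) : ℝ) :=
    mul_le_mul_of_nonneg_left hn (by positivity)
  have e5 : (D.card : ℝ) * D.card ≤ D.card * (2 * K.card) :=
    mul_le_mul_of_nonneg_left e3 (by positivity)
  rw [← hDcard]
  nlinarith

end Pool.Agent.HC
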