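import Pool.Agent.Lib.MP_ec42c8_pr.P02
import Pool.Agent.Lib.MP_ec42c8_pr.P03

/-!
# P04a : the expected number of bad points is bounded

A point `p` is bad if its pair is a loop, is an edge of `F`, or is parallel to another pair.
PROOF.  `N = card (Pt d F) ≥ 3 n / 4` (`P03e`, `8 card F ≤ n`, `d ≥ 1`), `n` large so that
`N - 1 ≥ n / 2`, `N - 3 ≥ n / 2`.
Loop: `π p` is one of at most `d` points: `d / (N - 1)`.  Edge of `F`: `π p` is one of at most
`d · d` points (neighbours of `p.1.1` in `F`): `d² / (N - 1)`.  Parallel: there is `q ≠ p` with the same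
vertex, at most `d` choices, and `π p = c`, `π q = c'` with `c, c'` at the same vertex, at most `N d`
choices: `d · N d / ((N - 1)(N - 3))` (`P02b`; `q ≠ c`, i.e. `π p = q`, is the case of a loop).
Sum over the `N ≤ d n` points `p`.
-/

set_option autoImplicit false

namespace Pool.Agent.HC

open Finset
open scoped Classical

/-- The pair of `p` is a loop, an edge of `F`, or parallel to another pair. -/
def BadPt {n d : ℕ} (F : Gr n) (π : Pairing (Pt d F)) (p : Pt d F) : Prop :=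
  p.1.1 = (π.1 p).1.1 ∨ (∃ e ∈ F, e.1 = s(p.1.1, (π.1 p).1.1)) ∨
    ∃ q : Pt d F, q ≠ p ∧ q.1.1 = p.1.1 ∧ (π.1 q).1.1 = (π.1 p).1.1

theorem simp_iff {n d : ℕ} (F : Gr n) (π : Pairing (Pt d F)) :
    Simp F π ↔ ∀ p, ¬ BadPt F π p := by
  unfold Simp BadPt
  refine forall_congr' fun p => ?_
  constructor
  · rintro ⟨h1, h2, h3⟩ (h | ⟨e, he, h⟩ | ⟨q, hq, hqp, h⟩)
    · exact h1 h
    · exact h2 e he h
    · exact h3 q hq hqp h
  · intro h
    refine ⟨fun h1 => h (Or.inl h1), fun e he h2 => h (Or.inr (Or.inl ⟨e, he, h2⟩)),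
      fun q hq hqp h3 => h (Or.inr (Or.inr ⟨q, hq, hqp, h3⟩))⟩

/-- The number of bad points. -/
noncomputable def NB {n d : ℕ} (F : Gr n) (π : Pairing (Pt d F)) : ℕ :=
  (Finset.univ.filter (fun p => BadPt F π p)).card

section gen

/-! The instance `Fintype (Pairing P)` is arbitrary here: for `P = Pt d F` the instance found by
Lean is not the one found for a general type `P`. -/

lemma p04a_inst {Ω : Type*} (i j : Fintype Ω) (A : Ω → Prop) : @pr Ω i A = @pr Ω j A := by
  rw [Subsingleton.elim i j]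

variable {P : Type} [Fintype P] [inst : Fintype (Pairing P)]

lemma p04a_P02a (a b : P) (hP : 2 ≤ Fintype.card P) :
    pr (fun π : Pairing P => π.1 a = b) ≤ 1 / ((Fintype.card P : ℝ) - 1) := by
  have h := P02a a b hP
  exact (le_of_eq (p04a_inst _ _ _)).trans h

lemma p04a_P02b (a b c e : P) (hc : c ≠ a ∧ c ≠ b) (hP : 4 ≤ Fintype.card P) :
    pr (fun π : Pairing P => π.1 a = b ∧ π.1 c = e) ≤
      1 / (((Fintype.card P : ℝ) - 1) * ((Fintype.card P : ℝ) - 3)) := by
  have h := P02b a b c e hc hP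
  exact (le_of_eq (p04a_inst _ _ _)).trans h

lemma p04a_P02c (a b c e f g : P) (hc : c ≠ a ∧ c ≠ b) (hf : f ≠ a ∧ f ≠ b ∧ f ≠ c ∧ f ≠ e)
    (hP : 6 ≤ Fintype.card P) :
    pr (fun π : Pairing P => π.1 a = b ∧ π.1 c = e ∧ π.1 f = g) ≤
      1 / (((Fintype.card P : ℝ) - 1) * ((Fintype.card P : ℝ) - 3) *
        ((Fintype.card P : ℝ) - 5)) := by
  have h := P02c a b c e f g hc hf hP
  exact (le_of_eq (p04a_inst _ _ _)).trans h

/-- Union bound for the partner of one point. -/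
lemma p04a_one (a : P) (S : Finset P) (hP : 2 ≤ Fintype.card P) :
    pr (fun π : Pairing P => π.1 a ∈ S) ≤ (S.card : ℝ) / ((Fintype.card P : ℝ) - 1) := by
  have h1 : pr (fun π : Pairing P => π.1 a ∈ S) =
      pr (fun π : Pairing P => ∃ b ∈ S, π.1 a = b) := pr_congr fun π => by simp
  rw [h1]
  refine (pr_exists_le S _).trans ((Finset.sum_le_sum fun b _ => p04a_P02a a b hP).trans ?_)
  rw [Finset.sum_const, nsmul_eq_mul, mul_one_div]

/-- Union bound for the partners of two points. -/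
lemma p04a_two (a c : P) (hac : c ≠ a) (S : Finset (P × P)) (hP : 4 ≤ Fintype.card P) :
    pr (fun π : Pairing P => π.1 a ≠ c ∧ (π.1 a, π.1 c) ∈ S) ≤
      (S.card : ℝ) / (((Fintype.card P : ℝ) - 1) * ((Fintype.card P : ℝ) - 3)) := by
  have hP' : (4 : ℝ) ≤ Fintype.card P := by exact_mod_cast hP
  have h1 : ∀ π : Pairing P, (π.1 a ≠ c ∧ (π.1 a, π.1 c) ∈ S) →
      ∃ x ∈ S, (π.1 a = x.1 ∧ π.1 c = x.2) ∧ c ≠ x.1 := fun π h =>
    ⟨(π.1 a, π.1 c), h.2, ⟨rfl, rfl⟩, Ne.symm h.1⟩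
  refine (pr_mono h1).trans ((pr_exists_le S _).trans ?_)
  have h2 : ∀ x ∈ S, pr (fun π : Pairing P => (π.1 a = x.1 ∧ π.1 c = x.2) ∧ c ≠ x.1) ≤
      1 / (((Fintype.card P : ℝ) - 1) * ((Fintype.card P : ℝ) - 3)) := by
    intro x _
    by_cases hx : c = x.1
    · have : pr (fun π : Pairing P => (π.1 a = x.1 ∧ π.1 c = x.2) ∧ c ≠ x.1) = 0 := by
        rw [← pr_false (Ω := Pairing P)]
        exact pr_congr fun π => by simp [hx]
      rw [this]
      exact one_div_nonneg.2 (mul_nonneg (by linarith) (by linarith))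
    · exact (pr_mono fun π h => h.1).trans (p04a_P02b a x.1 c x.2 ⟨hac, hx⟩ hP)
  refine (Finset.sum_le_sum h2).trans ?_
  rw [Finset.sum_const, nsmul_eq_mul, mul_one_div]

end gen

section cnt
variable {n d : ℕ} (F : Gr n)

/-- The points at `v`. -/
noncomputable def p04a_at (d : ℕ) (F : Gr n) (v : Fin n) : Finset (Pt d F) :=
  Finset.univ.filter (fun q => q.1.1 = v)

lemma p04a_mem_at (v : Fin n) (q : Pt d F) : q ∈ p04a_at d F v ↔ q.1.1 = v := by
  simp [p04a_at]

lemma p04a_card_at (v : Fin n) : (p04a_at d F v).card ≤ d := by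
  rw [p04a_at, ← Fintype.card_subtype, p03_card_pts]
  exact Nat.sub_le _ _

/-- The points at the neighbours of `v` in `F`. -/
noncomputable def p04a_nb (d : ℕ) (F : Gr n) (v : Fin n) : Finset (Pt d F) :=
  Finset.univ.filter (fun q => ∃ e ∈ F, e.1 = s(v, q.1.1))

lemma p04a_mem_nb (v : Fin n) (q : Pt d F) :
    q ∈ p04a_nb d F v ↔ ∃ e ∈ F, e.1 = s(v, q.1.1) := by
  simp [p04a_nb]

lemma p04a_card_nb (hF : ∀ v, deg F v ≤ d) (v : Fin n) : (p04a_nb d F v).card ≤ d * d := by
  have h1 : p04a_nb d F v ⊆ (Finset.univ.filter (fun w : Fin n => ∃ h : v ≠ w, mkE v w h ∈ F)).biUnion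
      (fun w => p04a_at d F w) := by
    intro q hq
    obtain ⟨e, he, hq⟩ := (p04a_mem_nb F v q).1 hq
    rw [Finset.mem_biUnion]
    have hne : v ≠ q.1.1 := by
      intro h
      apply e.2
      rw [hq, Sym2.mk_isDiag_iff]
      exact h
    refine ⟨q.1.1, ?_, (p04a_mem_at F _ q).2 rfl⟩
    rw [Finset.mem_filter]
    refine ⟨Finset.mem_univ _, hne, ?_⟩
    have : mkE v q.1.1 hne = e := Subtype.ext hq.symm
    rw [this]; exact he
  refine (Finset.card_le_card h1).trans ?_
  refine (Finset.card_biUnion_le_card_mul _ _ d fun w _ => p04a_card_at F w).trans ?_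
  refine Nat.mul_le_mul_right d ?_
  rw [← Fintype.card_subtype, p03_card_nbs]
  exact hF v

/-- The pairs of points with the same vertex. -/
noncomputable def p04a_par (d : ℕ) (F : Gr n) : Finset (Pt d F × Pt d F) :=
  Finset.univ.filter (fun x => x.1.1.1 = x.2.1.1)

lemma p04a_card_par : (p04a_par d F).card ≤ Fintype.card (Pt d F) * d := by
  have h1 : p04a_par d F ⊆ (Finset.univ : Finset (Pt d F)).biUnion
      (fun p => (p04a_at d F p.1.1).image (fun q => (p, q))) := by
    rintro ⟨p, q⟩ h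
    have h' : p.1.1 = q.1.1 := (Finset.mem_filter.1 h).2
    rw [Finset.mem_biUnion]
    exact ⟨p, Finset.mem_univ _, Finset.mem_image.2 ⟨q, (p04a_mem_at F _ q).2 h'.symm, rfl⟩⟩
  refine (Finset.card_le_card h1).trans ?_
  refine (Finset.card_biUnion_le_card_mul _ _ d fun p _ => Finset.card_image_le.trans
    (p04a_card_at F _)).trans ?_
  rw [Finset.card_univ]

/-- The number of points. -/
lemma p04a_N (hd : 1 ≤ d) (hF : ∀ v, deg F v ≤ d) (h8 : 8 * F.card ≤ n) :
    (3 : ℝ) / 4 * n ≤ Fintype.card (Pt d F) ∧ (Fintype.card (Pt d F) : ℝ) ≤ d * n := by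
  have h1 := P03e F hF
  have h2 : (Fintype.card (Pt d F) : ℝ) + 2 * F.card = d * n := by exact_mod_cast h1
  have h3 : (8 : ℝ) * F.card ≤ n := by exact_mod_cast h8
  have h4 : (1 : ℝ) ≤ d := by exact_mod_cast hd
  have h5 : (0 : ℝ) ≤ n := Nat.cast_nonneg n
  have h6 : (0 : ℝ) ≤ F.card := Nat.cast_nonneg _
  constructor
  · nlinarith [mul_le_mul_of_nonneg_right h4 h5]
  · linarith

/-- The probability that a point is bad. -/
lemma p04a_bad (hF : ∀ v, deg F v ≤ d) (hN : 4 ≤ Fintype.card (Pt d F)) (p : Pt d F) :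
    pr (fun π : Pairing (Pt d F) => BadPt F π p) ≤
      (2 * d + d * d) / ((Fintype.card (Pt d F) : ℝ) - 1) +
        (d * (Fintype.card (Pt d F) * d)) / (((Fintype.card (Pt d F) : ℝ) - 1) *
          ((Fintype.card (Pt d F) : ℝ) - 3)) := by
  set N : ℝ := (Fintype.card (Pt d F) : ℝ) with hNdef
  have hN4 : (4 : ℝ) ≤ N := by rw [hNdef]; exact_mod_cast hN
  have hN1 : 0 < N - 1 := by linarith
  have hN3 : 0 < N - 3 := by linarith
  have h1 : ∀ π : Pairing (Pt d F), BadPt F π p →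
      (π.1 p ∈ p04a_at d F p.1.1 ∨ π.1 p ∈ p04a_nb d F p.1.1) ∨
      ∃ q ∈ (p04a_at d F p.1.1).erase p, π.1 p ≠ q ∧ (π.1 p, π.1 q) ∈ p04a_par d F := by
    rintro π (h | h | ⟨q, hq, hqp, h⟩)
    · exact Or.inl (Or.inl ((p04a_mem_at F _ _).2 h.symm))
    · exact Or.inl (Or.inr ((p04a_mem_nb F _ _).2 h))
    · by_cases hpq : π.1 p = q
      · left; left
        rw [p04a_mem_at, hpq, hqp]
      · right
        refine ⟨q, Finset.mem_erase.2 ⟨hq, (p04a_mem_at F _ _).2 hqp⟩, hpq, ?_⟩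
        rw [p04a_par, Finset.mem_filter]
        exact ⟨Finset.mem_univ _, h.symm⟩
  refine (pr_mono h1).trans ((pr_or_le _ _).trans ?_)
  refine add_le_add ?_ ?_
  · refine (pr_or_le _ _).trans ?_
    have e1 := p04a_one p (p04a_at d F p.1.1) (by omega)
    have e2 := p04a_one p (p04a_nb d F p.1.1) (by omega)
    have e3 : ((p04a_at d F p.1.1).card : ℝ) ≤ d := by exact_mod_cast p04a_card_at F p.1.1
    have e4 : ((p04a_nb d F p.1.1).card : ℝ) ≤ d * d := by exact_mod_cast p04a_card_nb F hF p.1.1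
    refine (add_le_add e1 e2).trans ?_
    rw [← add_div]
    refine div_le_div_of_nonneg_right ?_ hN1.le
    have : (0 : ℝ) ≤ d := Nat.cast_nonneg d
    linarith
  · refine (pr_exists_le _ _).trans ?_
    have e1 : ∀ q ∈ (p04a_at d F p.1.1).erase p,
        pr (fun π : Pairing (Pt d F) => π.1 p ≠ q ∧ (π.1 p, π.1 q) ∈ p04a_par d F) ≤
          (N * d) / ((N - 1) * (N - 3)) := by
      intro q hq
      refine (p04a_two p q (Finset.ne_of_mem_erase hq) (p04a_par d F) hN).trans ?_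
      refine div_le_div_of_nonneg_right ?_ (mul_pos hN1 hN3).le
      have := p04a_card_par (d := d) F
      rw [hNdef]
      exact_mod_cast this
    refine (Finset.sum_le_sum e1).trans ?_
    rw [Finset.sum_const, nsmul_eq_mul, mul_div_assoc (d : ℝ)]
    refine mul_le_mul_of_nonneg_right ?_ (by positivity)
    have : ((p04a_at d F p.1.1).erase p).card ≤ d :=
      (Finset.card_le_card (Finset.erase_subset _ _)).trans (p04a_card_at F _)
    exact_mod_cast this

end cnt

theorem P04a (d : ℕ) (hd : 1 ≤ d) : ∃ (C : ℝ) (n₀ : ℕ), 0 < C ∧ ∀ n ≥ n₀, ∀ F : Gr n,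
    (∀ v, deg F v ≤ d) → 8 * F.card ≤ n →
      av (fun π : Pairing (Pt d F) => (NB F π : ℝ)) ≤ C := by
  have hd' : (1 : ℝ) ≤ d := by exact_mod_cast hd
  refine ⟨d * (2 * (2 * d + d * d) + 4 * (d * (d * d))), 12, by positivity, ?_⟩
  intro n hn F hF h8
  have hn' : (12 : ℝ) ≤ n := by exact_mod_cast hn
  obtain ⟨hN1, hN2⟩ := p04a_N F hd hF h8
  have hN4 : 4 ≤ Fintype.card (Pt d F) := by
    have : (4 : ℝ) ≤ Fintype.card (Pt d F) := by linarith
    exact_mod_cast this
  have h1 : av (fun π : Pairing (Pt d F) => (NB F π : ℝ)) =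
      ∑ p : Pt d F, pr (fun π : Pairing (Pt d F) => BadPt F π p) := by
    simp only [pr]
    rw [← av_sum]
    refine av_congr fun π => ?_
    rw [NB, Finset.card_filter]
    push_cast
    rfl
  rw [h1]
  refine (Finset.sum_le_sum fun p _ => p04a_bad F hF hN4 p).trans ?_
  rw [Finset.sum_const, Finset.card_univ, nsmul_eq_mul]
  set N : ℝ := (Fintype.card (Pt d F) : ℝ)
  have a1 : (n : ℝ) / 2 ≤ N - 1 := by linarith
  have a3 : (n : ℝ) / 2 ≤ N - 3 := by linarith
  have hn0 : (0 : ℝ) < n := by linarith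
  have hN0 : 0 ≤ N := by linarith
  have b1 : (2 * (d : ℝ) + d * d) / (N - 1) ≤ (2 * (2 * d + d * d)) / n := by
    rw [div_le_div_iff₀ (by linarith) hn0]
    nlinarith [mul_le_mul_of_nonneg_left a1 (show (0 : ℝ) ≤ 2 * (2 * d + d * d) by positivity)]
  have b2 : ((d : ℝ) * (N * d)) / ((N - 1) * (N - 3)) ≤ (4 * (d * (d * d))) / n := by
    have c1 : (n : ℝ) / 2 * (n / 2) ≤ (N - 1) * (N - 3) := by
      apply mul_le_mul a1 a3 (by positivity) (by linarith)
    have c2 : (d : ℝ) * (N * d) ≤ d * (d * n * d) := by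
      have : N * d ≤ d * n * d := mul_le_mul_of_nonneg_right hN2 (by linarith)
      exact mul_le_mul_of_nonneg_left this (by linarith)
    calc ((d : ℝ) * (N * d)) / ((N - 1) * (N - 3)) ≤ (d * (d * n * d)) / (n / 2 * (n / 2)) :=
          div_le_div₀ (by positivity) c2 (by positivity) c1
      _ = (4 * (d * (d * d))) / n := by field_simp; ring
  calc N * ((2 * (d : ℝ) + d * d) / (N - 1) + (d * (N * d)) / ((N - 1) * (N - 3)))
      ≤ (d * n) * ((2 * (2 * d + d * d)) / n + (4 * (d * (d * d))) / n) := by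
        refine mul_le_mul hN2 (add_le_add b1 b2) ?_ (by positivity)
        have : 0 < N - 1 := by linarith
        have : 0 < N - 3 := by linarith
        positivity
    _ = d * (2 * (2 * d + d * d) + 4 * (d * (d * d))) := by field_simp

end Pool.Agent.HC
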