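import Pool.Agent.Lib.MP_ec42c8_pr.P03

/-!
# P05a : adding one edge: the pairings of F and of F + e

Let `e = s(x, y)`, `e ∉ F`, `deg F x < d`, `deg F y < d`, `F' = insert e F`.  Let `a = (x, deg F x)`,
`b = (y, deg F y)` be the first free points; `Pt d F'` is `Pt d F` without `a`, `b`
(`deg F' x = deg F x + 1`, etc.).  `redE` is the composition of `red a b` and this identification.
`P05a1`: `P01a` and `av_equiv`.
`P05a2`: suppose none of the events (B0)-(B4) holds for `π`; write `A, B` for the vertices of `π a`, `π b`.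
(B0) `π a = b`;
(B1) `a` is a bad point of `π` (`A = x`, or `s(x, A) ∈ F`, or `A` is the vertex of `π q`, `q ≠ a` at `x`);
(B2) `b` is a bad point of `π`;
(B3) `A = B`, or `s(A, B) ∈ F`, or there is a point `q ≠ π a` at `A` with `π q` at `B`, `π q ≠ π b`;
(B4) there is a point `q` at `x` with `π q` at `y`.
The pairs of `redE π` are those of `π` except `{a, π a}`, `{b, π b}`, and the new pair `{π a, π b}`.
`Simp F π` iff the common pairs are no loops, not in `F`, and not parallel to each other (the two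
other pairs are not bad); `Simp F' (redE π)` iff the same holds, since the new pair is not a loop,
not in `F`, not parallel to a common pair (B3), not `e` (that would be `A = y`, `B = x`, excluded by
B4 for `q = a`; or `A = x`, excluded by B1), and no common pair is `e` (B4).
-/

set_option autoImplicit false

namespace Pool.Agent.HC

open Finset
open scoped Classical

section
variable {n d : ℕ} (F : Gr n) (x y : Fin n) (hxy : x ≠ y) (he : mkE x y hxy ∉ F)
  (hx : deg F x < d) (hy : deg F y < d)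

/-- The first free point of a vertex. -/
noncomputable def fpt (F : Gr n) (x : Fin n) (hx : deg F x < d) : Pt d F := ⟨(x, ⟨deg F x, hx⟩), le_refl _⟩

/-- The exceptional event. -/
def Exc (F : Gr n) (x y : Fin n) (hx : deg F x < d) (hy : deg F y < d)
    (π : Pairing (Pt d F)) : Prop :=
  let a := fpt F x hx
  let b := fpt F y hy
  π.1 a = b ∨
  ((π.1 a).1.1 = x ∨ (∃ e ∈ F, e.1 = s(x, (π.1 a).1.1)) ∨
    ∃ q, q ≠ a ∧ q.1.1 = x ∧ (π.1 q).1.1 = (π.1 a).1.1) ∨
  ((π.1 b).1.1 = y ∨ (∃ e ∈ F, e.1 = s(y, (π.1 b).1.1)) ∨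
    ∃ q, q ≠ b ∧ q.1.1 = y ∧ (π.1 q).1.1 = (π.1 b).1.1) ∨
  ((π.1 a).1.1 = (π.1 b).1.1 ∨ (∃ e ∈ F, e.1 = s((π.1 a).1.1, (π.1 b).1.1)) ∨
    ∃ q, q ≠ π.1 a ∧ π.1 q ≠ π.1 b ∧ q.1.1 = (π.1 a).1.1 ∧ (π.1 q).1.1 = (π.1 b).1.1) ∨
  (∃ q : Pt d F, q.1.1 = x ∧ (π.1 q).1.1 = y)

/-- Degree after adding an edge. -/
lemma p05a_deg {n : ℕ} (F : Gr n) (e : Edge n) (he : e ∉ F) (v : Fin n) :
    deg (insert e F) v = deg F v + (if v ∈ e.1 then 1 else 0) := by
  unfold deg
  rw [Finset.filter_insert]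
  split_ifs with h
  · rw [Finset.card_insert_of_notMem (fun h' => he (Finset.mem_filter.1 h').1)]
  · rfl

lemma p05a_fpt_eq {n d : ℕ} (F : Gr n) (x : Fin n) (hx : deg F x < d) (p : Pt d F) :
    p = fpt F x hx ↔ p.1.1 = x ∧ (p.1.2 : ℕ) = deg F x := by
  obtain ⟨⟨v, i⟩, h⟩ := p
  constructor
  · intro h'
    have h1 := congrArg Subtype.val h'
    simp only [fpt, Prod.mk.injEq] at h1
    exact ⟨h1.1, congrArg Fin.val h1.2⟩
  · rintro ⟨h1, h2⟩
    apply Subtype.ext
    simp only [fpt, Prod.mk.injEq]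
    exact ⟨h1, Fin.ext h2⟩

lemma p05a_ab {n d : ℕ} (F : Gr n) (x y : Fin n) (hxy : x ≠ y) (hx : deg F x < d)
    (hy : deg F y < d) : fpt F x hx ≠ fpt F y hy := fun h => hxy (by
  have := (p05a_fpt_eq F y hy (fpt F x hx)).1 h
  exact this.1)

section aux

include he

lemma p05a_pt (p : Fin n × Fin d) :
    deg (insert (mkE x y hxy) F) p.1 ≤ (p.2 : ℕ) ↔
      deg F p.1 ≤ (p.2 : ℕ) ∧ ¬ (p.1 = x ∧ (p.2 : ℕ) = deg F x) ∧
        ¬ (p.1 = y ∧ (p.2 : ℕ) = deg F y) := by
  have hmem : p.1 ∈ (mkE x y hxy).1 ↔ p.1 = x ∨ p.1 = y := Sym2.mem_iff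
  rw [p05a_deg F _ he]
  simp only [hmem]
  by_cases h1 : p.1 = x
  · have h2 : p.1 ≠ y := fun h => hxy (h1.symm.trans h)
    simp only [h1, true_or, if_true, true_and, hxy, false_and, not_false_eq_true, and_true]
    omega
  · by_cases h2 : p.1 = y
    · have h3 : y ≠ x := Ne.symm hxy
      simp only [h2, or_true, if_true, true_and, h3, false_and, not_false_eq_true]
      omega
    · simp [h1, h2]

/-- The points that remain. -/
noncomputable def p05a_E :
    {p : Pt d F // p ≠ fpt F x hx ∧ p ≠ fpt F y hy} ≃ Pt d (insert (mkE x y hxy) F) where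
  toFun p := ⟨p.1.1, (p05a_pt F x y hxy he p.1.1).2 ⟨p.1.2,
    fun h => p.2.1 ((p05a_fpt_eq F x hx p.1).2 h), fun h => p.2.2 ((p05a_fpt_eq F y hy p.1).2 h)⟩⟩
  invFun p := ⟨⟨p.1, ((p05a_pt F x y hxy he p.1).1 p.2).1⟩,
    fun h => ((p05a_pt F x y hxy he p.1).1 p.2).2.1 ((p05a_fpt_eq F x hx _).1 h),
    fun h => ((p05a_pt F x y hxy he p.1).1 p.2).2.2 ((p05a_fpt_eq F y hy _).1 h)⟩
  left_inv _ := rfl
  right_inv _ := rfl

lemma p05a_E_val (p : {p : Pt d F // p ≠ fpt F x hx ∧ p ≠ fpt F y hy}) :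
    (p05a_E F x y hxy he hx hy p).1 = p.1.1 := rfl

lemma p05a_E_symm_val (p : Pt d (insert (mkE x y hxy) F)) :
    ((p05a_E F x y hxy he hx hy).symm p).1.1 = p.1 := rfl


/-- The reduced pairing. -/
noncomputable def p05a_R (π : Pairing (Pt d F)) : Pairing (Pt d (insert (mkE x y hxy) F)) :=
  trP (p05a_E F x y hxy he hx hy)
    (red (fpt F x hx) (fpt F y hy) (p05a_ab F x y hxy hx hy) π)

lemma p05a_R_val (π : Pairing (Pt d F))
    (p : {p : Pt d F // p ≠ fpt F x hx ∧ p ≠ fpt F y hy}) :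
    (((p05a_R F x y hxy he hx hy π).1 (p05a_E F x y hxy he hx hy p)).1.1 : Fin n) =
      (redF (fpt F x hx) (fpt F y hy) π p.1).1.1 := by
  rw [p05a_R, trP_apply, Equiv.symm_apply_apply, p05a_E_val]
  rfl

/-- Simplicity of the reduced pairing. -/
lemma p05a_simp (π : Pairing (Pt d F)) :
    Simp (insert (mkE x y hxy) F) (p05a_R F x y hxy he hx hy π) ↔
      ∀ p : Pt d F, p ≠ fpt F x hx → p ≠ fpt F y hy →
        p.1.1 ≠ (redF (fpt F x hx) (fpt F y hy) π p).1.1 ∧
        (∀ e ∈ insert (mkE x y hxy) F,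
          e.1 ≠ s(p.1.1, (redF (fpt F x hx) (fpt F y hy) π p).1.1)) ∧
        ∀ q : Pt d F, q ≠ fpt F x hx → q ≠ fpt F y hy → q ≠ p → q.1.1 = p.1.1 →
          (redF (fpt F x hx) (fpt F y hy) π q).1.1 ≠
            (redF (fpt F x hx) (fpt F y hy) π p).1.1 := by
  constructor
  · intro h p ha hb
    have hp := h (p05a_E F x y hxy he hx hy ⟨p, ha, hb⟩)
    rw [p05a_R_val, p05a_E_val] at hp
    refine ⟨hp.1, hp.2.1, fun q hqa hqb hqp hv => ?_⟩
    have h1 := hp.2.2 (p05a_E F x y hxy he hx hy ⟨q, hqa, hqb⟩)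
      (fun h' => hqp (congrArg Subtype.val ((p05a_E F x y hxy he hx hy).injective h'))) hv
    rwa [p05a_R_val] at h1
  · intro h p
    obtain ⟨⟨p, ha, hb⟩, rfl⟩ := (p05a_E F x y hxy he hx hy).surjective p
    have hp := h p ha hb
    rw [p05a_R_val, p05a_E_val]
    refine ⟨hp.1, hp.2.1, fun q hqp hv => ?_⟩
    obtain ⟨⟨q, hqa, hqb⟩, rfl⟩ := (p05a_E F x y hxy he hx hy).surjective q
    rw [p05a_R_val]
    refine hp.2.2 q hqa hqb (fun h' => hqp ?_) hv
    subst h'
    rfl

end aux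

/-- The main case distinction. -/
lemma p05a_main {n d : ℕ} (F : Gr n) (x y : Fin n) (hxy : x ≠ y) (a b : Pt d F)
    (ha : a.1.1 = x) (hb : b.1.1 = y) (π : Pairing (Pt d F)) (B0 : π.1 a ≠ b)
    (B1a : (π.1 a).1.1 ≠ x) (B1b : ∀ e ∈ F, e.1 ≠ s(x, (π.1 a).1.1))
    (B1c : ∀ q, q ≠ a → q.1.1 = x → (π.1 q).1.1 ≠ (π.1 a).1.1)
    (B2a : (π.1 b).1.1 ≠ y) (B2b : ∀ e ∈ F, e.1 ≠ s(y, (π.1 b).1.1))
    (B2c : ∀ q, q ≠ b → q.1.1 = y → (π.1 q).1.1 ≠ (π.1 b).1.1)
    (B3a : (π.1 a).1.1 ≠ (π.1 b).1.1) (B3b : ∀ e ∈ F, e.1 ≠ s((π.1 a).1.1, (π.1 b).1.1))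
    (B3c : ∀ q, q ≠ π.1 a → π.1 q ≠ π.1 b → q.1.1 = (π.1 a).1.1 → (π.1 q).1.1 ≠ (π.1 b).1.1)
    (B4 : ∀ q : Pt d F, q.1.1 = x → (π.1 q).1.1 ≠ y) :
    Simp F π ↔
      ∀ p : Pt d F, p ≠ a → p ≠ b →
        p.1.1 ≠ (redF a b π p).1.1 ∧
        (∀ e ∈ insert (mkE x y hxy) F, e.1 ≠ s(p.1.1, (redF a b π p).1.1)) ∧
        ∀ q : Pt d F, q ≠ a → q ≠ b → q ≠ p → q.1.1 = p.1.1 →
          (redF a b π q).1.1 ≠ (redF a b π p).1.1 := by
  have hab : a ≠ b := fun h => hxy (by rw [← ha, ← hb, h])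
  have e1 : redF a b π (π.1 a) = π.1 b := by simp [redF, π.inv]
  have e2 : redF a b π (π.1 b) = π.1 a := by
    have : b ≠ a := Ne.symm hab
    simp [redF, π.inv, this]
  have e3 : ∀ p, π.1 p ≠ a → π.1 p ≠ b → redF a b π p = π.1 p := by
    intro p h1 h2
    simp [redF, h1, h2]
  constructor
  · intro hS p hpa hpb
    by_cases h1 : π.1 p = a
    · have hp : p = π.1 a := (Pairing.eq_iff π p a).1 h1
      subst hp
      rw [e1]
      refine ⟨B3a, ?_, ?_⟩
      · intro e he
        rcases Finset.mem_insert.1 he with rfl | he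
        · intro h
          have h' : s(x, y) = s((π.1 a).1.1, (π.1 b).1.1) := h
          rw [Sym2.eq_iff] at h'
          rcases h' with ⟨h2, h3⟩ | ⟨h2, h3⟩
          · exact B1a h2.symm
          · exact B4 a ha h3.symm
        · exact B3b e he
      · intro q hqa hqb hqp hv h
        have k1 : π.1 q ≠ a := fun h' => hqp ((Pairing.eq_iff π q a).1 h')
        by_cases k2 : π.1 q = b
        · have : q = π.1 b := (Pairing.eq_iff π q b).1 k2
          rw [this] at hv
          exact B3a hv.symm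
        · rw [e3 q k1 k2] at h
          exact B3c q hqp (fun h' => hqb (π.1.injective h')) hv h
    · by_cases h2 : π.1 p = b
      · have hp : p = π.1 b := (Pairing.eq_iff π p b).1 h2
        subst hp
        rw [e2]
        refine ⟨Ne.symm B3a, ?_, ?_⟩
        · intro e he
          rcases Finset.mem_insert.1 he with rfl | he
          · intro h
            have h' : s(x, y) = s((π.1 b).1.1, (π.1 a).1.1) := h
            rw [Sym2.eq_iff] at h'
            rcases h' with ⟨h2, h3⟩ | ⟨h2, h3⟩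
            · exact B4 a ha h3.symm
            · exact B1a h2.symm
          · rw [Sym2.eq_swap]
            exact B3b e he
        · intro q hqa hqb hqp hv h
          have k2 : π.1 q ≠ b := fun h' => hqp ((Pairing.eq_iff π q b).1 h')
          by_cases k1 : π.1 q = a
          · have : q = π.1 a := (Pairing.eq_iff π q a).1 k1
            rw [this] at hv
            exact B3a hv
          · rw [e3 q k1 k2] at h
            refine B3c (π.1 q) (fun h' => hqa (π.1.injective h')) ?_ h ?_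
            · rw [π.inv]; exact hqp
            · rw [π.inv]; exact hv
      · rw [e3 p h1 h2]
        obtain ⟨s1, s2, s3⟩ := hS p
        refine ⟨s1, ?_, ?_⟩
        · intro e he
          rcases Finset.mem_insert.1 he with rfl | he
          · intro h
            have h' : s(x, y) = s(p.1.1, (π.1 p).1.1) := h
            rw [Sym2.eq_iff] at h'
            rcases h' with ⟨h2, h3⟩ | ⟨h2, h3⟩
            · exact B4 p h2.symm h3.symm
            · refine B4 (π.1 p) h2.symm ?_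
              rw [π.inv]; exact h3.symm
          · exact s2 e he
        · intro q hqa hqb hqp hv h
          by_cases k1 : π.1 q = a
          · have hq : q = π.1 a := (Pairing.eq_iff π q a).1 k1
            subst hq
            rw [e1] at h
            exact B3c p (Ne.symm hqp) (fun h' => hpb (π.1.injective h')) hv.symm h.symm
          · by_cases k2 : π.1 q = b
            · have hq : q = π.1 b := (Pairing.eq_iff π q b).1 k2
              subst hq
              rw [e2] at h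
              refine B3c (π.1 p) (fun h' => hpa (π.1.injective h')) ?_ h.symm ?_
              · rw [π.inv]; exact Ne.symm hqp
              · rw [π.inv]; exact hv.symm
            · rw [e3 q k1 k2] at h
              exact s3 q hqp hv h
  · intro hR
    -- no bad points at a, b
    have ga : ∀ q, q ≠ a → q.1.1 = a.1.1 → (π.1 q).1.1 ≠ (π.1 a).1.1 := fun q hq hv =>
      B1c q hq (hv.trans ha)
    have gb : ∀ q, q ≠ b → q.1.1 = b.1.1 → (π.1 q).1.1 ≠ (π.1 b).1.1 := fun q hq hv =>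
      B2c q hq (hv.trans hb)
    have ga' : ∀ q, q ≠ π.1 a → q.1.1 = (π.1 a).1.1 → (π.1 q).1.1 ≠ (π.1 (π.1 a)).1.1 := by
      intro q hq hv h
      rw [π.inv] at h
      refine ga (π.1 q) (fun h' => hq ((Pairing.eq_iff π q a).1 h')) h ?_
      rw [π.inv]; exact hv
    have gb' : ∀ q, q ≠ π.1 b → q.1.1 = (π.1 b).1.1 → (π.1 q).1.1 ≠ (π.1 (π.1 b)).1.1 := by
      intro q hq hv h
      rw [π.inv] at h
      refine gb (π.1 q) (fun h' => hq ((Pairing.eq_iff π q b).1 h')) h ?_
      rw [π.inv]; exact hv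
    intro p
    by_cases hpa : p = a
    · subst hpa
      refine ⟨?_, ?_, ga⟩
      · rw [ha]; exact Ne.symm B1a
      · rw [ha]; exact B1b
    by_cases hpb : p = b
    · subst hpb
      refine ⟨?_, ?_, gb⟩
      · rw [hb]; exact Ne.symm B2a
      · rw [hb]; exact B2b
    by_cases h1 : π.1 p = a
    · have hp : p = π.1 a := (Pairing.eq_iff π p a).1 h1
      subst hp
      refine ⟨?_, ?_, ga'⟩
      · rw [π.inv, ha]; exact B1a
      · rw [π.inv, ha, Sym2.eq_swap]; exact B1b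
    by_cases h2 : π.1 p = b
    · have hp : p = π.1 b := (Pairing.eq_iff π p b).1 h2
      subst hp
      refine ⟨?_, ?_, gb'⟩
      · rw [π.inv, hb]; exact B2a
      · rw [π.inv, hb, Sym2.eq_swap]; exact B2b
    obtain ⟨s1, s2, s3⟩ := hR p hpa hpb
    rw [e3 p h1 h2] at s1 s2 s3
    refine ⟨s1, fun e he => s2 e (Finset.mem_insert_of_mem he), ?_⟩
    intro q hqp hv h
    by_cases hqa : q = a
    · subst hqa
      exact ga p (Ne.symm hqp) hv.symm h.symm
    by_cases hqb : q = b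
    · subst hqb
      exact gb p (Ne.symm hqp) hv.symm h.symm
    by_cases k1 : π.1 q = a
    · have hq : q = π.1 a := (Pairing.eq_iff π q a).1 k1
      subst hq
      exact ga' p (Ne.symm hqp) hv.symm h.symm
    by_cases k2 : π.1 q = b
    · have hq : q = π.1 b := (Pairing.eq_iff π q b).1 k2
      subst hq
      exact gb' p (Ne.symm hqp) hv.symm h.symm
    have := s3 q hqa hqb hqp hv
    rw [e3 q k1 k2] at this
    exact this h

lemma p05a_inst {Ω : Type*} (i j : Fintype Ω) (f : Ω → ℝ) : @av Ω i f = @av Ω j f := by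
  rw [Subsingleton.elim i j]

theorem P05a : ∃ R : Pairing (Pt d F) → Pairing (Pt d (insert (mkE x y hxy) F)),
    (∀ Ψ : Pairing (Pt d (insert (mkE x y hxy) F)) → ℝ, av (fun π => Ψ (R π)) = av Ψ) ∧
    ∀ π, ¬ Exc F x y hx hy π → (Simp F π ↔ Simp (insert (mkE x y hxy) F) (R π)) := by
  by_cases he : mkE x y hxy ∈ F
  · rw [Finset.insert_eq_of_mem he]
    exact ⟨id, fun Ψ => rfl, fun π _ => Iff.rfl⟩
  refine ⟨p05a_R F x y hxy he hx hy, ?_, ?_⟩
  · intro Ψ
    let I : Fintype (Pairing {p : Pt d F // p ≠ fpt F x hx ∧ p ≠ fpt F y hy}) :=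
      Fintype.ofEquiv _ (trP (p05a_E F x y hxy he hx hy)).symm
    have h2 := av_equiv (trP (p05a_E F x y hxy he hx hy)) Ψ
    rw [← h2]
    have h1 := P01a (fpt F x hx) (fpt F y hy) (p05a_ab F x y hxy hx hy)
      (fun τ => Ψ (trP (p05a_E F x y hxy he hx hy) τ))
    unfold p05a_R
    exact (p05a_inst _ _ _).trans (h1.trans (p05a_inst _ _ _))
  · intro π hE
    rw [p05a_simp]
    unfold Exc at hE
    simp only [not_or, not_exists, not_and] at hE
    obtain ⟨B0, ⟨B1a, B1b, B1c⟩, ⟨B2a, B2b, B2c⟩, ⟨B3a, B3b, B3c⟩, B4⟩ := hE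
    exact p05a_main F x y hxy (fpt F x hx) (fpt F y hy) rfl rfl π B0 B1a B1b B1c B2a B2b B2c
      B3a B3b B3c B4

end

end Pool.Agent.HC
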