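import Pool.Agent.Lib.MP_ec42c8_pr.P02
import Pool.Agent.Lib.MP_ec42c8_pr.P05a
import Pool.Agent.Lib.MP_ec42c8_pr.P04a

/-!
# P05 : the probability of simplicity changes little

PROOF of `P05b`.  By `P05a` and `abs_av_sub_le` the difference is at most the probability of `Exc`, for a
uniformly random pairing of `N = card (Pt d F) ≥ 3 n / 4` points (`P03e`).  With `P02a`, `P02b`, `P02c`:
(B0) `1 / (N-1)`; (B1) `d / (N-1) + d² / (N-1) + d · N d / ((N-1)(N-3))`; (B2) the same;
(B3) `N d / ((N-1)(N-3)) + N d² / ((N-1)(N-3)) + N² d² / ((N-1)(N-3)(N-5))`;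
(B4) `d² / (N-1)`.  All are `O(1/n)`.
(In the union bounds: for (B3), last part, sum over the values `c, c'` of `π a`, `π b` and over the points
`q` at the vertex of `c`, `q'` at the vertex of `c'`: `π a = c`, `π b = c'`, `π q = q'`; the cases in which
these points coincide are either excluded by `q ≠ π a`, `π q ≠ π b` or contained in the other parts.)
`P05c`: add the edges of `F` one after the other (all the intermediate graphs have degrees at most `d`):
induction on `F` (`Finset.induction_on`).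
-/

set_option autoImplicit false

namespace Pool.Agent.HC

open Finset
open scoped Classical

section gen
variable {P : Type} [Fintype P] [inst : Fintype (Pairing P)]

/-- Union bound for the partners of three points. -/
lemma p05_three (a b : P) (hab : b ≠ a) (S : Finset ((P × P) × (P × P)))
    (hP : 6 ≤ Fintype.card P)
    (hS : ∀ x ∈ S, b ≠ x.1.1 ∧ x.2.1 ≠ a ∧ x.2.1 ≠ x.1.1 ∧ x.2.1 ≠ b ∧ x.2.1 ≠ x.1.2) :
    pr (fun π : Pairing P => ∃ x ∈ S, π.1 a = x.1.1 ∧ π.1 b = x.1.2 ∧ π.1 x.2.1 = x.2.2) ≤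
      (S.card : ℝ) / (((Fintype.card P : ℝ) - 1) * ((Fintype.card P : ℝ) - 3) *
        ((Fintype.card P : ℝ) - 5)) := by
  refine (pr_exists_le S _).trans ?_
  refine (Finset.sum_le_sum fun x hx => p04a_P02c a x.1.1 b x.1.2 x.2.1 x.2.2
    ⟨hab, (hS x hx).1⟩ ⟨(hS x hx).2.1, (hS x hx).2.2.1, (hS x hx).2.2.2.1, (hS x hx).2.2.2.2⟩
    hP).trans ?_
  rw [Finset.sum_const, nsmul_eq_mul, mul_one_div]

end gen

section cnt
variable {n d : ℕ} (F : Gr n)

/-- The pairs of points at adjacent vertices. -/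
noncomputable def p05_adj (d : ℕ) (F : Gr n) : Finset (Pt d F × Pt d F) :=
  Finset.univ.filter (fun x => ∃ e ∈ F, e.1 = s(x.1.1.1, x.2.1.1))

lemma p05_card_adj (hF : ∀ v, deg F v ≤ d) :
    (p05_adj d F).card ≤ Fintype.card (Pt d F) * (d * d) := by
  have h1 : p05_adj d F ⊆ (Finset.univ : Finset (Pt d F)).biUnion
      (fun p => (p04a_nb d F p.1.1).image (fun q => (p, q))) := by
    rintro ⟨p, q⟩ h
    have h' := (Finset.mem_filter.1 h).2
    rw [Finset.mem_biUnion]
    exact ⟨p, Finset.mem_univ _, Finset.mem_image.2 ⟨q, (p04a_mem_nb F _ q).2 h', rfl⟩⟩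
  refine (Finset.card_le_card h1).trans ?_
  refine (Finset.card_biUnion_le_card_mul _ _ (d * d) fun p _ => Finset.card_image_le.trans
    (p04a_card_nb F hF _)).trans ?_
  rw [Finset.card_univ]

/-- The quadruples of points `c, c', q, q'` with `q` at the vertex of `c` and `q'` at that of `c'`. -/
noncomputable def p05_quad (d : ℕ) (F : Gr n) : Finset ((Pt d F × Pt d F) × (Pt d F × Pt d F)) :=
  Finset.univ.filter (fun x => x.2.1.1.1 = x.1.1.1.1 ∧ x.2.2.1.1 = x.1.2.1.1)

lemma p05_card_quad :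
    (p05_quad d F).card ≤ (Fintype.card (Pt d F) * Fintype.card (Pt d F)) * (d * d) := by
  have h1 : p05_quad d F ⊆ (Finset.univ : Finset (Pt d F × Pt d F)).biUnion
      (fun p => ((p04a_at d F p.1.1.1) ×ˢ (p04a_at d F p.2.1.1)).image (fun q => (p, q))) := by
    rintro ⟨p, q⟩ h
    have h' := (Finset.mem_filter.1 h).2
    rw [Finset.mem_biUnion]
    refine ⟨p, Finset.mem_univ _, Finset.mem_image.2 ⟨q, ?_, rfl⟩⟩
    rw [Finset.mem_product]
    exact ⟨(p04a_mem_at F _ _).2 h'.1, (p04a_mem_at F _ _).2 h'.2⟩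
  refine (Finset.card_le_card h1).trans ?_
  refine (Finset.card_biUnion_le_card_mul _ _ (d * d) fun p _ => Finset.card_image_le.trans ?_).trans ?_
  · rw [Finset.card_product]
    exact Nat.mul_le_mul (p04a_card_at F _) (p04a_card_at F _)
  · rw [Finset.card_univ, Fintype.card_prod]

/-- The probability of the exceptional event. -/
lemma p05_exc (hF : ∀ v, deg F v ≤ d) (hN : 6 ≤ Fintype.card (Pt d F)) (x y : Fin n) (hxy : x ≠ y)
    (hx : deg F x < d) (hy : deg F y < d) (N : ℝ) (hNN : N = (Fintype.card (Pt d F) : ℝ)) :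
    pr (fun π : Pairing (Pt d F) => Exc F x y hx hy π) ≤
      (1 + 2 * (2 * d + d * d) + d * d) / (N - 1) +
        (2 * (d * (N * d)) + N * d + N * (d * d)) / ((N - 1) * (N - 3)) +
        ((N * N) * (d * d)) / ((N - 1) * (N - 3) * (N - 5)) := by
  have hN6 : (6 : ℝ) ≤ N := by rw [hNN]; exact_mod_cast hN
  have hN1 : 0 < N - 1 := by linarith
  have hN3 : 0 < N - 3 := by linarith
  have hN5 : 0 < N - 5 := by linarith
  set a := fpt F x hx with ha
  set b := fpt F y hy with hb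
  have hav : a.1.1 = x := rfl
  have hbv : b.1.1 = y := rfl
  have hab : a ≠ b := fun h => hxy (by rw [← hav, ← hbv, h])
  set S := (p05_quad d F).filter (fun z => b ≠ z.1.1 ∧ z.2.1 ≠ a ∧ z.2.1 ≠ z.1.1 ∧ z.2.1 ≠ b ∧
    z.2.1 ≠ z.1.2) with hS
  have key : ∀ π : Pairing (Pt d F), Exc F x y hx hy π →
      ((((π.1 a = b ∨ BadPt F π a) ∨ BadPt F π b) ∨
        (∃ q ∈ p04a_at d F x, π.1 q ∈ p04a_at d F y)) ∨
        ((π.1 a ≠ b ∧ (π.1 a, π.1 b) ∈ p04a_par d F) ∨
          (π.1 a ≠ b ∧ (π.1 a, π.1 b) ∈ p05_adj d F))) ∨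
        (∃ z ∈ S, π.1 a = z.1.1 ∧ π.1 b = z.1.2 ∧ π.1 z.2.1 = z.2.2) := by
    intro π h
    by_cases h0 : π.1 a = b
    · exact Or.inl (Or.inl (Or.inl (Or.inl (Or.inl h0))))
    have hbad1 : ((π.1 a).1.1 = x ∨ (∃ e ∈ F, e.1 = s(x, (π.1 a).1.1)) ∨
      ∃ q, q ≠ a ∧ q.1.1 = x ∧ (π.1 q).1.1 = (π.1 a).1.1) → BadPt F π a := by
      rintro (h | h | h)
      · exact Or.inl h.symm
      · exact Or.inr (Or.inl h)
      · exact Or.inr (Or.inr h)
    have hbad2 : ((π.1 b).1.1 = y ∨ (∃ e ∈ F, e.1 = s(y, (π.1 b).1.1)) ∨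
      ∃ q, q ≠ b ∧ q.1.1 = y ∧ (π.1 q).1.1 = (π.1 b).1.1) → BadPt F π b := by
      rintro (h | h | h)
      · exact Or.inl h.symm
      · exact Or.inr (Or.inl h)
      · exact Or.inr (Or.inr h)
    rcases h with h | h | h | h | h
    · exact absurd h h0
    · exact Or.inl (Or.inl (Or.inl (Or.inl (Or.inr (hbad1 h)))))
    · exact Or.inl (Or.inl (Or.inl (Or.inr (hbad2 h))))
    · rcases h with h | h | ⟨q, hq1, hq2, hq3, hq4⟩
      · refine Or.inl (Or.inr (Or.inl ⟨h0, ?_⟩))
        rw [p04a_par, Finset.mem_filter]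
        exact ⟨Finset.mem_univ _, h⟩
      · refine Or.inl (Or.inr (Or.inr ⟨h0, ?_⟩))
        rw [p05_adj, Finset.mem_filter]
        exact ⟨Finset.mem_univ _, h⟩
      · by_cases h1 : q = a
        · refine Or.inl (Or.inl (Or.inl (Or.inl (Or.inr (hbad1 (Or.inl ?_))))))
          rw [h1] at hq3
          exact hq3.symm
        by_cases h2 : q = π.1 b
        · refine Or.inl (Or.inr (Or.inl ⟨h0, ?_⟩))
          rw [p04a_par, Finset.mem_filter]
          rw [h2] at hq3
          exact ⟨Finset.mem_univ _, hq3.symm⟩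
        refine Or.inr ⟨((π.1 a, π.1 b), (q, π.1 q)), ?_, rfl, rfl, rfl⟩
        rw [hS, Finset.mem_filter, p05_quad, Finset.mem_filter]
        refine ⟨⟨Finset.mem_univ _, hq3, hq4⟩, Ne.symm h0, h1, hq1, ?_, h2⟩
        intro h3
        exact hq2 (by change π.1 q = π.1 b; exact congrArg π.1 h3)
    · obtain ⟨q, hq1, hq2⟩ := h
      refine Or.inl (Or.inl (Or.inr ⟨q, (p04a_mem_at F _ _).2 hq1, (p04a_mem_at F _ _).2 hq2⟩))
  refine (pr_mono key).trans ?_
  have dnn : (0 : ℝ) ≤ d := Nat.cast_nonneg d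
  have b0 : pr (fun π : Pairing (Pt d F) => π.1 a = b) ≤ 1 / (N - 1) := by
    rw [hNN]
    exact p04a_P02a a b (by omega)
  have b1 : ∀ p : Pt d F, pr (fun π : Pairing (Pt d F) => BadPt F π p) ≤
      (2 * d + d * d) / (N - 1) + (d * (N * d)) / ((N - 1) * (N - 3)) := by
    intro p
    rw [hNN]
    exact p04a_bad F hF (by omega) p
  have b4 : pr (fun π : Pairing (Pt d F) => ∃ q ∈ p04a_at d F x, π.1 q ∈ p04a_at d F y) ≤
      (d * d) / (N - 1) := by
    refine (pr_exists_le _ _).trans ?_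
    have e1 : ∀ q ∈ p04a_at d F x, pr (fun π : Pairing (Pt d F) => π.1 q ∈ p04a_at d F y) ≤
        d / (N - 1) := by
      intro q _
      refine (p04a_one q (p04a_at d F y) (by omega)).trans ?_
      rw [← hNN]
      refine div_le_div_of_nonneg_right ?_ hN1.le
      exact_mod_cast p04a_card_at F y
    refine (Finset.sum_le_sum e1).trans ?_
    rw [Finset.sum_const, nsmul_eq_mul, mul_div_assoc (d : ℝ)]
    refine mul_le_mul_of_nonneg_right ?_ (by positivity)
    exact_mod_cast p04a_card_at F x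
  have b3 : pr (fun π : Pairing (Pt d F) => π.1 a ≠ b ∧ (π.1 a, π.1 b) ∈ p04a_par d F) ≤
      (N * d) / ((N - 1) * (N - 3)) := by
    refine (p04a_two a b (Ne.symm hab) (p04a_par d F) (by omega)).trans ?_
    rw [← hNN]
    refine div_le_div_of_nonneg_right ?_ (mul_pos hN1 hN3).le
    rw [hNN]
    exact_mod_cast p04a_card_par (d := d) F
  have b3' : pr (fun π : Pairing (Pt d F) => π.1 a ≠ b ∧ (π.1 a, π.1 b) ∈ p05_adj d F) ≤
      (N * (d * d)) / ((N - 1) * (N - 3)) := by
    refine (p04a_two a b (Ne.symm hab) (p05_adj d F) (by omega)).trans ?_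
    rw [← hNN]
    refine div_le_div_of_nonneg_right ?_ (mul_pos hN1 hN3).le
    rw [hNN]
    exact_mod_cast p05_card_adj (d := d) F hF
  have b5 : pr (fun π : Pairing (Pt d F) => ∃ z ∈ S, π.1 a = z.1.1 ∧ π.1 b = z.1.2 ∧
      π.1 z.2.1 = z.2.2) ≤ ((N * N) * (d * d)) / ((N - 1) * (N - 3) * (N - 5)) := by
    refine (p05_three a b (Ne.symm hab) S hN (fun z hz => (Finset.mem_filter.1 hz).2)).trans ?_
    rw [← hNN]
    refine div_le_div_of_nonneg_right ?_ (mul_pos (mul_pos hN1 hN3) hN5).le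
    rw [hNN]
    have h1 : S.card ≤ (p05_quad d F).card := Finset.card_le_card (Finset.filter_subset _ _)
    exact_mod_cast h1.trans (p05_card_quad (d := d) F)
  refine (pr_or_le _ _).trans ?_
  refine add_le_add ?_ b5
  refine (pr_or_le _ _).trans ?_
  have c1 : pr (fun π : Pairing (Pt d F) => ((π.1 a = b ∨ BadPt F π a) ∨ BadPt F π b) ∨
        (∃ q ∈ p04a_at d F x, π.1 q ∈ p04a_at d F y)) ≤
      ((1 / (N - 1) + ((2 * d + d * d) / (N - 1) + (d * (N * d)) / ((N - 1) * (N - 3)))) +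
        ((2 * d + d * d) / (N - 1) + (d * (N * d)) / ((N - 1) * (N - 3)))) + (d * d) / (N - 1) := by
    refine (pr_or_le _ _).trans (add_le_add ?_ b4)
    refine (pr_or_le _ _).trans (add_le_add ?_ (b1 b))
    exact (pr_or_le _ _).trans (add_le_add b0 (b1 a))
  have c2 : pr (fun π : Pairing (Pt d F) => (π.1 a ≠ b ∧ (π.1 a, π.1 b) ∈ p04a_par d F) ∨
          (π.1 a ≠ b ∧ (π.1 a, π.1 b) ∈ p05_adj d F)) ≤
      (N * d) / ((N - 1) * (N - 3)) + (N * (d * d)) / ((N - 1) * (N - 3)) :=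
    (pr_or_le _ _).trans (add_le_add b3 b3')
  refine (add_le_add c1 c2).trans (le_of_eq ?_)
  simp only [add_div, mul_div_assoc]
  ring

end cnt

theorem P05b (d : ℕ) (hd : 1 ≤ d) : ∃ (C : ℝ) (n₀ : ℕ), 0 < C ∧ ∀ n ≥ n₀, Even (d * n) →
    ∀ (F : Gr n) (e : Edge n), e ∉ F → (∀ v, deg (insert e F) v ≤ d) → 8 * F.card ≤ n →
      |PS d F - PS d (insert e F)| ≤ C / n := by
  have hd' : (1 : ℝ) ≤ d := by exact_mod_cast hd
  refine ⟨2 * (1 + 2 * (2 * d + d * d) + d * d) + 4 * (2 * (d * (d * d)) + d * d + d * (d * d)) +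
    8 * ((d * d) * (d * d)), 20, by positivity, ?_⟩
  intro n hn _ F e heF hdeg h8
  have hn' : (20 : ℝ) ≤ n := by exact_mod_cast hn
  obtain ⟨⟨x, y⟩, hxy'⟩ : ∃ z : Fin n × Fin n, e.1 = s(z.1, z.2) := by
    obtain ⟨e, he⟩ := e
    induction e using Sym2.inductionOn with
    | hf x y => exact ⟨(x, y), rfl⟩
  have hxy : x ≠ y := by
    intro h
    apply e.2
    rw [hxy', Sym2.mk_isDiag_iff]
    exact h
  have he : e = mkE x y hxy := Subtype.ext hxy'
  have hF : ∀ v, deg F v ≤ d := by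
    intro v
    refine le_trans ?_ (hdeg v)
    rw [p05a_deg F e heF]
    exact Nat.le_add_right _ _
  have hx : deg F x < d := by
    have h1 := hdeg x
    rw [p05a_deg F e heF, if_pos (by rw [hxy']; exact Sym2.mem_mk_left _ _)] at h1
    exact h1
  have hy : deg F y < d := by
    have h1 := hdeg y
    rw [p05a_deg F e heF, if_pos (by rw [hxy']; exact Sym2.mem_mk_right _ _)] at h1
    exact h1
  obtain ⟨hN1, hN2⟩ := p04a_N F hd hF h8
  have hN6 : 6 ≤ Fintype.card (Pt d F) := by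
    have : (6 : ℝ) ≤ Fintype.card (Pt d F) := by linarith
    exact_mod_cast this
  have h1 : |PS d F - PS d (insert e F)| ≤ pr (fun π : Pairing (Pt d F) => Exc F x y hx hy π) := by
    subst he
    obtain ⟨R, hR1, hR2⟩ := P05a F x y hxy hx hy
    have h2 : PS d (insert (mkE x y hxy) F) = av (fun π : Pairing (Pt d F) =>
        if Simp (insert (mkE x y hxy) F) (R π) then (1 : ℝ) else 0) := by
      rw [PS, pr]
      exact (hR1 (fun π' => if Simp (insert (mkE x y hxy) F) π' then (1 : ℝ) else 0)).symm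
    rw [h2, PS, pr]
    refine abs_av_sub_le _ _ (fun π => by split_ifs <;> norm_num)
      (fun π => by split_ifs <;> norm_num) _ ?_
    intro π hπ
    have h3 := hR2 π hπ
    by_cases h4 : Simp F π
    · rw [if_pos h4, if_pos (h3.1 h4)]
    · rw [if_neg h4, if_neg (fun h => h4 (h3.2 h))]
  refine h1.trans ((p05_exc F hF hN6 x y hxy hx hy _ rfl).trans ?_)
  set N : ℝ := (Fintype.card (Pt d F) : ℝ)
  have a1 : (n : ℝ) / 2 ≤ N - 1 := by linarith
  have a3 : (n : ℝ) / 2 ≤ N - 3 := by linarith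
  have a5 : (n : ℝ) / 2 ≤ N - 5 := by linarith
  have hn0 : (0 : ℝ) < n := by linarith
  have hN0 : 0 ≤ N := by linarith
  have c13 : (n : ℝ) / 2 * (n / 2) ≤ (N - 1) * (N - 3) :=
    mul_le_mul a1 a3 (by positivity) (by linarith)
  have c135 : (n : ℝ) / 2 * (n / 2) * (n / 2) ≤ (N - 1) * (N - 3) * (N - 5) :=
    mul_le_mul c13 a5 (by positivity) (mul_nonneg (by linarith) (by linarith))
  have t1 : (1 + 2 * (2 * (d : ℝ) + d * d) + d * d) / (N - 1) ≤
      (2 * (1 + 2 * (2 * d + d * d) + d * d)) / n := by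
    calc (1 + 2 * (2 * (d : ℝ) + d * d) + d * d) / (N - 1) ≤
        (1 + 2 * (2 * (d : ℝ) + d * d) + d * d) / (n / 2) :=
          div_le_div₀ (by positivity) le_rfl (by positivity) a1
      _ = _ := by field_simp
  have t2 : (2 * ((d : ℝ) * (N * d)) + N * d + N * (d * d)) / ((N - 1) * (N - 3)) ≤
      (4 * (2 * (d * (d * d)) + d * d + d * (d * d))) / n := by
    calc (2 * ((d : ℝ) * (N * d)) + N * d + N * (d * d)) / ((N - 1) * (N - 3)) ≤
        (2 * ((d : ℝ) * ((d * n) * d)) + (d * n) * d + (d * n) * (d * d)) / (n / 2 * (n / 2)) := by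
          refine div_le_div₀ (by positivity) ?_ (by positivity) c13
          gcongr
      _ = _ := by field_simp; ring
  have t3 : ((N * N) * ((d : ℝ) * d)) / ((N - 1) * (N - 3) * (N - 5)) ≤
      (8 * ((d * d) * (d * d))) / n := by
    calc ((N * N) * ((d : ℝ) * d)) / ((N - 1) * (N - 3) * (N - 5)) ≤
        (((d * n) * (d * n)) * ((d : ℝ) * d)) / (n / 2 * (n / 2) * (n / 2)) := by
          refine div_le_div₀ (by positivity) ?_ (by positivity) c135
          gcongr
      _ = _ := by field_simp; ring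
  refine (add_le_add (add_le_add t1 t2) t3).trans (le_of_eq ?_)
  rw [← add_div, ← add_div]

theorem P05c (d : ℕ) (hd : 1 ≤ d) : ∃ (C : ℝ) (n₀ : ℕ), 0 < C ∧ ∀ n ≥ n₀, Even (d * n) →
    ∀ F : Gr n, (∀ v, deg F v ≤ d) → 8 * F.card ≤ n →
      |PS d F - PS d (∅ : Gr n)| ≤ C * F.card / n := by
  obtain ⟨C, n₀, hC, h⟩ := P05b d hd
  refine ⟨C, n₀, hC, fun n hn hev F => ?_⟩
  induction F using Finset.induction_on with
  | empty =>
    intro _ _
    simp
  | insert e F heF ih =>
    intro hdeg h8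
    have hF : ∀ v, deg F v ≤ d := by
      intro v
      refine le_trans ?_ (hdeg v)
      rw [p05a_deg F e heF]
      exact Nat.le_add_right _ _
    have hc : (insert e F).card = F.card + 1 := Finset.card_insert_of_notMem heF
    have h8' : 8 * F.card ≤ n := by omega
    have h1 := h n hn hev F e heF hdeg h8'
    have h2 := ih hF h8'
    rw [hc]
    push_cast
    have h3 : PS d (insert e F) - PS d (∅ : Gr n) =
        -(PS d F - PS d (insert e F)) + (PS d F - PS d (∅ : Gr n)) := by ring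
    rw [h3]
    refine (abs_add_le _ _).trans ?_
    rw [abs_neg]
    refine (add_le_add h1 h2).trans (le_of_eq ?_)
    ring

end Pool.Agent.HC
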