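import Pool.Agent.Lib.MP_ec42c8_pr.K01
import Pool.Agent.Lib.MP_ec42c8_pr.K04
import Pool.Agent.Lib.MP_ec42c8_pr.K08
import Pool.Agent.Lib.MP_ec42c8_pr.K18a
import Pool.Agent.Lib.MP_ec42c8_pr.K18b
import Pool.Agent.Lib.MP_ec42c8_pr.K19a
import Pool.Agent.Lib.MP_ec42c8_pr.P04
import Pool.Agent.Lib.MP_ec42c8_pr.P05

/-!
# K19 : the average of the comparison density is at most 1 + ε

Here `1/(d+2) < γ < 1/(d+1)` (written with products).  Fix `γ₃ = γ / 2`; `N = NE n`; all `n` large.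
(1) For `lam > 0`, by the definition of `Zl` and exchanging sums,
`avOn (Reg n d ∅) (Zl d lam) = ∑ over K with degrees ≤ d of lam ^ k ndK K wK K card (Reg n d K) / card (Reg n d ∅)`,
`k = card K` (if some degree of `K` is larger than `d` no `H ∈ Reg` contains `K`), and by `K08` the quotient times
`wK K` is `PS d K / (Lk d n k PS d ∅)` (`Lk > 0`, `PS d ∅ > 0`; `k ≤ d n / 2` by `P03f`).
(2) Hence `avOn D2 = ∫ ∑ over K of n ndK K p ^ k (1-p) ^ (N-1-k) rho d n p k PS d K / PS d ∅ dp`, over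
`p ∈ [n^(-5/3), n^(-1-γ)]` (finite sums of continuous functions, `K17e`).
(3) `K` with `k ≤ n ^ (1-γ₃)`: `PS d K ≤ PS d ∅ (1 + ε/16)` (`P05c`, `P04`), write `rho = 1 + (rho - 1)`.
The part with `1`: `n ndK K ≤ (1 + ε/16) bK d K` (`K19b_lower`), `∫ p^k (1-p)^(N-1-k) ≤ bet N k` (`K04a`, the
integrand is nonnegative), and `∑ over K with degrees ≤ d of bK K bet N k = 1` (`K01` with `Ψ = 1`).  Total
`≤ (1 + ε/16)²`.
The part with `rho - 1`: by `K19a` (with `φ k = 0` for `k > n^(1-γ₃)`) the integrand is at most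
`n · n ^ (d+1) p ^ d (1-p)⁻¹ · (sum in K18a) ≤ 2 C n ^ (d+2-γ) p ^ d`, integral
`≤ 2 C n ^ (d + 2 - γ - (1+γ)(d+1)) = 2 C n ^ (1 - γ (d+2)) → 0`.
(4) `K` with `k > n ^ (1-γ₃)`: `PS d K ≤ 1`, `PS d ∅ ≥ c`; by `K19a` and `K18b` the integrand is at most
` (2/c) n ^ (d+2) p ^ d n ^ (-(d+3))`, integral `→ 0`.
-/

set_option autoImplicit false

namespace Pool.Agent.HC

open Finset
open scoped Classical

/-- exchanging the sums -/
theorem K19_swap (n d : ℕ) (lam : ℝ) :
    ∑ H ∈ Reg n d ∅, Zl d lam H =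
      ∑ K : Gr n, lam ^ K.card * (ndK d K : ℝ) * wK d K * ((Reg n d K).card : ℝ) := by
  have h1 : ∀ H : Gr n, Zl d lam H =
      ∑ K : Gr n, if K ⊆ H then lam ^ K.card * (ndK d K : ℝ) * wK d K else 0 := by
    intro H
    unfold Zl
    rw [← Finset.sum_filter]
    apply Finset.sum_congr _ (fun _ _ => rfl)
    ext K
    simp
  simp_rw [h1]
  rw [Finset.sum_comm]
  apply Finset.sum_congr rfl
  intro K _
  rw [← Finset.sum_filter, Finset.sum_const, nsmul_eq_mul, mul_comm]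
  congr 2
  have h2 : (Reg n d ∅).filter (fun H => K ⊆ H) = Reg n d K := by
    ext H
    simp only [Reg, Finset.mem_filter, Finset.mem_univ, true_and, Finset.empty_subset]
    tauto
  rw [h2]

theorem K19_deg_mono {n : ℕ} {K H : Gr n} (h : K ⊆ H) (v : Fin n) : deg K v ≤ deg H v := by
  unfold deg
  exact Finset.card_le_card (Finset.filter_subset_filter _ h)

theorem K19_reg_zero {n d : ℕ} {K : Gr n} (h : ¬ ∀ v, deg K v ≤ d) : (Reg n d K).card = 0 := by
  rw [Finset.card_eq_zero, Finset.eq_empty_iff_forall_notMem]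
  intro H hH
  rw [Reg, Finset.mem_filter] at hH
  apply h
  intro v
  exact (K19_deg_mono hH.2.1 v).trans (hH.2.2 v).le

theorem K19_card {n d : ℕ} {K : Gr n} (h : ∀ v, deg K v ≤ d) : K.card ≤ d * n / 2 := by
  have h1 := P03f K
  have h2 : ∑ v, deg K v ≤ ∑ _v : Fin n, d := Finset.sum_le_sum fun v _ => h v
  rw [Finset.sum_const, Finset.card_univ, Fintype.card_fin, smul_eq_mul] at h2
  have h3 : n * d = d * n := mul_comm _ _
  omega

/-- one term of the average -/
theorem K19_term {n : ℕ} (d : ℕ) (hd : 1 ≤ d) (hdn : Even (d * n)) (K : Gr n)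
    (hK : ∀ v, deg K v ≤ d) (hKN : K.card < NE n) (hPS : 0 < PS d (∅ : Gr n)) (p : ℝ)
    (hp1 : p < 1) :
    (n : ℝ) * (1 - p) ^ (NE n - 1) * Cp d n p *
      ((p * ell d n p / (1 - p)) ^ K.card * (ndK d K : ℝ) * wK d K * ((Reg n d K).card : ℝ)) =
    ((Reg n d ∅).card : ℝ) * ((n : ℝ) * ndK d K * (p ^ K.card * (1 - p) ^ (NE n - 1 - K.card)) *
      rho d n p K.card * (PS d K / PS d (∅ : Gr n))) := by
  have h1 := K08 d hd hdn K hK
  have hL : 0 < Lk d n K.card := K17a d n K.card hdn (K19_card hK)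
  have hq : (1 - p) ≠ 0 := by
    intro h
    linarith
  have h2 : (1 - p) ^ (NE n - 1) = (1 - p) ^ (NE n - 1 - K.card) * (1 - p) ^ K.card := by
    rw [← pow_add]
    congr 1
    omega
  have h3 : ((Reg n d K).card : ℝ) * wK d K =
      ((Reg n d ∅).card : ℝ) * PS d K / (Lk d n K.card * PS d (∅ : Gr n)) := by
    rw [eq_div_iff (by positivity), h1]
    ring
  unfold rho
  rw [h2, div_pow, mul_pow]
  calc (n : ℝ) * ((1 - p) ^ (NE n - 1 - K.card) * (1 - p) ^ K.card) * Cp d n p *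
      (p ^ K.card * ell d n p ^ K.card / (1 - p) ^ K.card * (ndK d K : ℝ) * wK d K *
        ((Reg n d K).card : ℝ))
      = (n : ℝ) * ndK d K * (p ^ K.card * (1 - p) ^ (NE n - 1 - K.card)) * Cp d n p *
        ell d n p ^ K.card * (((Reg n d K).card : ℝ) * wK d K) *
        ((1 - p) ^ K.card / (1 - p) ^ K.card) := by ring
    _ = _ := by
        rw [h3, div_self (pow_ne_zero _ hq)]
        field_simp

/-- the average of the integrand -/
theorem K19_avg {n : ℕ} (d : ℕ) (hd : 1 ≤ d) (hdn : Even (d * n))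
    (hKN : ∀ K : Gr n, (∀ v, deg K v ≤ d) → K.card < NE n) (hPS : 0 < PS d (∅ : Gr n)) (p : ℝ)
    (hp1 : p < 1) :
    ∑ H ∈ Reg n d ∅, (n : ℝ) * (1 - p) ^ (NE n - 1) * Cp d n p *
        Zl d (p * ell d n p / (1 - p)) H =
    ((Reg n d ∅).card : ℝ) * ∑ K : Gr n, (if ∀ v, deg K v ≤ d then
      (n : ℝ) * ndK d K * (p ^ K.card * (1 - p) ^ (NE n - 1 - K.card)) *
      rho d n p K.card * (PS d K / PS d (∅ : Gr n)) else 0) := by
  rw [← Finset.mul_sum, K19_swap, Finset.mul_sum, Finset.mul_sum]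
  apply Finset.sum_congr rfl
  intro K _
  split_ifs with hK
  · exact K19_term d hd hdn K hK (hKN K hK) hPS p hp1
  · rw [K19_reg_zero hK]
    simp

/-- pointwise bound of the averaged integrand -/
theorem K19_point (n d : ℕ) (hdn : Even (d * n)) (hdN : d ≤ NE n)
    (hPS : 0 < PS d (∅ : Gr n)) (p : ℝ) (hp : 0 < p) (hp2 : p ≤ 1 / 2) (w δ A : ℝ) (hδ : 0 ≤ δ)
    (hA : 0 ≤ A) (hw2 : ∀ k : ℕ, (k : ℝ) ≤ w → k ≤ d * n / 2) (hdn2 : d * n / 2 < NE n)
    (hell : 0 < ell d n p)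
    (hP1 : ∀ K : Gr n, (∀ v, deg K v ≤ d) → (K.card : ℝ) ≤ w →
      PS d K ≤ (1 + δ) * PS d (∅ : Gr n))
    (hP2 : 1 ≤ A * PS d (∅ : Gr n))
    (hb : ∀ K : Gr n, (∀ v, deg K v ≤ d) → (K.card : ℝ) ≤ w →
      (n : ℝ) * ndK d K ≤ (1 + δ) * bK d K) (S1 S2 : ℝ)
    (h1 : ∑ j ∈ Finset.range (NE n - d + 1), (if ((j + d : ℕ) : ℝ) ≤ w then
      bin (NE n - d) p j * (rho d n p (j + d) - 1) else 0) ≤ S1)
    (h2 : ∑ j ∈ Finset.range (NE n - d + 1),
      (if w < ((j + d : ℕ) : ℝ) ∧ j + d ≤ d * n / 2 then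
        bin (NE n - d) p j * rho d n p (j + d) else 0) ≤ S2) :
    ∑ K : Gr n, (if ∀ v, deg K v ≤ d then
      (n : ℝ) * ndK d K * (p ^ K.card * (1 - p) ^ (NE n - 1 - K.card)) *
      rho d n p K.card * (PS d K / PS d (∅ : Gr n)) else 0) ≤
    (1 + δ) ^ 2 * ∑ K : Gr n, (if ∀ v, deg K v ≤ d then
      (bK d K : ℝ) * (p ^ K.card * (1 - p) ^ (NE n - K.card - 1)) else 0) +
      (n : ℝ) ^ (d + 2) * p ^ d * (2 * ((1 + δ) * S1 + A * S2)) := by
  have hq0 : 0 < 1 - p := by linarith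
  obtain ⟨br, hbr⟩ : ∃ br : ℕ → ℝ, ∀ k, br k = (1 + δ) * (if (k : ℝ) ≤ w then
      rho d n p k - 1 else 0) + A * (if w < (k : ℝ) ∧ k ≤ d * n / 2 then rho d n p k else 0) :=
    ⟨_, fun _ => rfl⟩
  have hbr0 : ∀ k, 0 ≤ br k := by
    intro k
    rw [hbr]
    have i1 : 0 ≤ (if (k : ℝ) ≤ w then rho d n p k - 1 else 0) := by
      split_ifs with h
      · have := K17b' d n p k hdn hell (hw2 k h)
        linarith
      · exact le_rfl
    have i2 : 0 ≤ (if w < (k : ℝ) ∧ k ≤ d * n / 2 then rho d n p k else 0) := by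
      split_ifs with h
      · have := K17b' d n p k hdn hell h.2
        linarith
      · exact le_rfl
    have : 0 ≤ 1 + δ := by linarith
    positivity
  obtain ⟨φ, hφ⟩ : ∃ φ : ℕ → ℝ, ∀ k, φ k = (p ^ k * (1 - p) ^ (NE n - 1 - k)) * br k :=
    ⟨_, fun _ => rfl⟩
  have hφ0 : ∀ k, 0 ≤ φ k := by
    intro k
    rw [hφ]
    have := hbr0 k
    positivity
  -- termwise
  have hterm : ∀ K : Gr n, (if ∀ v, deg K v ≤ d then
      (n : ℝ) * ndK d K * (p ^ K.card * (1 - p) ^ (NE n - 1 - K.card)) *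
      rho d n p K.card * (PS d K / PS d (∅ : Gr n)) else 0) ≤
      (1 + δ) ^ 2 * (if ∀ v, deg K v ≤ d then
      (bK d K : ℝ) * (p ^ K.card * (1 - p) ^ (NE n - K.card - 1)) else 0) +
      n * ((ndK d K : ℝ) * φ K.card) := by
    intro K
    by_cases hK : ∀ v, deg K v ≤ d
    · rw [if_pos hK, if_pos hK]
      have hkc := K19_card hK
      have hrho := K17b' d n p K.card hdn hell hkc
      have hsub : NE n - K.card - 1 = NE n - 1 - K.card := by omega
      rw [hsub, hφ]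
      obtain ⟨B, hB⟩ : ∃ B : ℝ, B = p ^ K.card * (1 - p) ^ (NE n - 1 - K.card) := ⟨_, rfl⟩
      have hB0 : 0 ≤ B := by rw [hB]; positivity
      rw [← hB]
      have hnd : (0 : ℝ) ≤ ndK d K := Nat.cast_nonneg _
      have hn0 : (0 : ℝ) ≤ n := Nat.cast_nonneg _
      by_cases hkw : (K.card : ℝ) ≤ w
      · have hr : PS d K / PS d (∅ : Gr n) ≤ 1 + δ := by
          rw [div_le_iff₀ hPS]
          exact hP1 K hK hkw
        have hbrK : br K.card = (1 + δ) * (rho d n p K.card - 1) := by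
          rw [hbr, if_pos hkw, if_neg (fun h => absurd h.1 (not_lt.mpr hkw))]
          ring
        rw [hbrK]
        have h3 : (n : ℝ) * ndK d K * B * rho d n p K.card * (PS d K / PS d (∅ : Gr n)) ≤
            (n : ℝ) * ndK d K * B * rho d n p K.card * (1 + δ) := by
          apply mul_le_mul_of_nonneg_left hr
          have : 0 ≤ rho d n p K.card := by linarith
          positivity
        have h4 : ((n : ℝ) * ndK d K) * (B * (1 + δ)) ≤ ((1 + δ) * bK d K) * (B * (1 + δ)) := by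
          apply mul_le_mul_of_nonneg_right (hb K hK hkw)
          have : 0 ≤ 1 + δ := by linarith
          positivity
        calc _ ≤ (n : ℝ) * ndK d K * B * rho d n p K.card * (1 + δ) := h3
          _ = ((n : ℝ) * ndK d K) * (B * (1 + δ)) +
              n * (ndK d K * (B * ((1 + δ) * (rho d n p K.card - 1)))) := by ring
          _ ≤ ((1 + δ) * bK d K) * (B * (1 + δ)) +
              n * (ndK d K * (B * ((1 + δ) * (rho d n p K.card - 1)))) := by linarith
          _ = _ := by ring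
      · have hr : PS d K / PS d (∅ : Gr n) ≤ A := by
          rw [div_le_iff₀ hPS]
          have h5 : PS d K ≤ 1 := pr_le_one _
          linarith
        push Not at hkw
        have hbrK : br K.card = A * rho d n p K.card := by
          rw [hbr, if_neg (not_le.mpr hkw), if_pos ⟨hkw, hkc⟩]
          ring
        rw [hbrK]
        have h3 : (n : ℝ) * ndK d K * B * rho d n p K.card * (PS d K / PS d (∅ : Gr n)) ≤
            (n : ℝ) * ndK d K * B * rho d n p K.card * A := by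
          apply mul_le_mul_of_nonneg_left hr
          have : 0 ≤ rho d n p K.card := by linarith
          positivity
        have h4 : 0 ≤ (1 + δ) ^ 2 * ((bK d K : ℝ) * B) := by positivity
        calc _ ≤ (n : ℝ) * ndK d K * B * rho d n p K.card * A := h3
          _ = n * (ndK d K * (B * (A * rho d n p K.card))) := by ring
          _ ≤ _ := by linarith
    · rw [if_neg hK, if_neg hK]
      have := hφ0 K.card
      positivity
  refine (Finset.sum_le_sum fun K _ => hterm K).trans ?_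
  rw [Finset.sum_add_distrib, ← Finset.mul_sum, ← Finset.mul_sum]
  apply add_le_add le_rfl
  have h3 := K19a (n := n) d hdN φ hφ0
  have h4 : ∑ j ∈ Finset.range (NE n - d + 1), ((NE n - d).choose j : ℝ) * φ (j + d) ≤
      p ^ d * (2 * ((1 + δ) * S1 + A * S2)) := by
    have h5 : ∀ j ∈ Finset.range (NE n - d + 1), ((NE n - d).choose j : ℝ) * φ (j + d) ≤
        2 * p ^ d * ((1 + δ) * (if ((j + d : ℕ) : ℝ) ≤ w then
          bin (NE n - d) p j * (rho d n p (j + d) - 1) else 0) +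
          A * (if w < ((j + d : ℕ) : ℝ) ∧ j + d ≤ d * n / 2 then
            bin (NE n - d) p j * rho d n p (j + d) else 0)) := by
      intro j _
      have h6 : (1 + δ) * (if ((j + d : ℕ) : ℝ) ≤ w then
          bin (NE n - d) p j * (rho d n p (j + d) - 1) else 0) +
          A * (if w < ((j + d : ℕ) : ℝ) ∧ j + d ≤ d * n / 2 then
            bin (NE n - d) p j * rho d n p (j + d) else 0) =
          bin (NE n - d) p j * br (j + d) := by
        rw [hbr]
        split_ifs <;> ring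
      rw [h6, hφ]
      by_cases hjd : j + d ≤ d * n / 2
      · have h7 : NE n - d - j = NE n - 1 - (j + d) + 1 := by omega
        have h8 : (1 - p) ^ (NE n - 1 - (j + d)) ≤ 2 * (1 - p) ^ (NE n - d - j) := by
          rw [h7, pow_succ]
          have h9 : 0 < (1 - p) ^ (NE n - 1 - (j + d)) := by positivity
          have h10 := mul_le_mul_of_nonneg_left (show (1 : ℝ) / 2 ≤ 1 - p by linarith) h9.le
          linarith
        unfold bin
        have h9 := hbr0 (j + d)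
        calc ((NE n - d).choose j : ℝ) * (p ^ (j + d) * (1 - p) ^ (NE n - 1 - (j + d)) *
              br (j + d))
            ≤ ((NE n - d).choose j : ℝ) * (p ^ (j + d) * (2 * (1 - p) ^ (NE n - d - j)) *
              br (j + d)) := by gcongr
          _ = _ := by rw [pow_add]; ring
      · have h7 : br (j + d) = 0 := by
          rw [hbr, if_neg (fun h => hjd (hw2 _ h)), if_neg (fun h => hjd h.2)]
          ring
        rw [h7]
        simp
    refine (Finset.sum_le_sum h5).trans ?_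
    rw [← Finset.mul_sum, Finset.sum_add_distrib, ← Finset.mul_sum, ← Finset.mul_sum]
    have h6 : (1 + δ) * ∑ j ∈ Finset.range (NE n - d + 1), (if ((j + d : ℕ) : ℝ) ≤ w then
        bin (NE n - d) p j * (rho d n p (j + d) - 1) else 0) +
        A * ∑ j ∈ Finset.range (NE n - d + 1),
          (if w < ((j + d : ℕ) : ℝ) ∧ j + d ≤ d * n / 2 then
          bin (NE n - d) p j * rho d n p (j + d) else 0) ≤ (1 + δ) * S1 + A * S2 :=
      add_le_add (mul_le_mul_of_nonneg_left h1 (by linarith)) (mul_le_mul_of_nonneg_left h2 hA)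
    calc _ ≤ 2 * p ^ d * ((1 + δ) * S1 + A * S2) :=
          mul_le_mul_of_nonneg_left h6 (by positivity)
      _ = _ := by ring
  calc (n : ℝ) * ∑ K : Gr n, (ndK d K : ℝ) * φ K.card
      ≤ (n : ℝ) * ((n : ℝ) ^ (d + 1) * ∑ j ∈ Finset.range (NE n - d + 1),
        ((NE n - d).choose j : ℝ) * φ (j + d)) := mul_le_mul_of_nonneg_left h3 (Nat.cast_nonneg _)
    _ ≤ (n : ℝ) * ((n : ℝ) ^ (d + 1) * (p ^ d * (2 * ((1 + δ) * S1 + A * S2)))) := by
        gcongr
    _ = _ := by ring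

/-- the first part of the integral -/
theorem K19_main_int (n d : ℕ) (hn : d + 2 ≤ n) (a b : ℝ) (ha : 0 ≤ a) (hab : a ≤ b)
    (hb : b ≤ 1) :
    ∫ p in a..b, ∑ K : Gr n, (if ∀ v, deg K v ≤ d then
      (bK d K : ℝ) * (p ^ K.card * (1 - p) ^ (NE n - K.card - 1)) else 0) ≤ 1 := by
  have hcont : ∀ K : Gr n, Continuous (fun p : ℝ => (if ∀ v, deg K v ≤ d then
      (bK d K : ℝ) * (p ^ K.card * (1 - p) ^ (NE n - K.card - 1)) else 0)) := by
    intro K
    split_ifs
    · fun_prop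
    · exact continuous_const
  have hc : Continuous (fun p : ℝ => ∑ K : Gr n, (if ∀ v, deg K v ≤ d then
      (bK d K : ℝ) * (p ^ K.card * (1 - p) ^ (NE n - K.card - 1)) else 0)) :=
    continuous_finsetSum _ fun K _ => hcont K
  have h1 : ∫ p in a..b, ∑ K : Gr n, (if ∀ v, deg K v ≤ d then
      (bK d K : ℝ) * (p ^ K.card * (1 - p) ^ (NE n - K.card - 1)) else 0) ≤
      ∫ p in (0 : ℝ)..1, ∑ K : Gr n, (if ∀ v, deg K v ≤ d then
      (bK d K : ℝ) * (p ^ K.card * (1 - p) ^ (NE n - K.card - 1)) else 0) := by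
    apply intervalIntegral.integral_mono_interval ha hab hb
    · rw [Filter.EventuallyLE, MeasureTheory.ae_restrict_iff' measurableSet_Ioc]
      refine Filter.Eventually.of_forall fun p hp => ?_
      apply Finset.sum_nonneg
      intro K _
      have h2 : 0 ≤ 1 - p := by linarith [hp.2]
      have h3 : 0 ≤ p := hp.1.le
      split_ifs
      · positivity
      · exact le_rfl
    · exact hc.intervalIntegrable _ _
  refine h1.trans ?_
  rw [intervalIntegral.integral_finsetSum (fun K _ => (hcont K).intervalIntegrable _ _)]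
  have h2 := K01 (n := n) d hn (fun _ => 1)
  have hne : Nonempty (Ord n) := ⟨(Fintype.equivFin (Edge n)).symm⟩
  rw [av_const] at h2
  refine le_trans ?_ (le_of_eq h2.symm)
  apply Finset.sum_le_sum
  intro K _
  by_cases hK : ∀ v, deg K v ≤ d
  · rw [if_pos hK]
    refine le_of_eq (Eq.trans (intervalIntegral.integral_congr
      (g := fun p : ℝ => (bK d K : ℝ) * (p ^ K.card * (1 - p) ^ (NE n - K.card - 1)))
      (fun p _ => if_pos hK)) ?_)
    have h4 := K04a (NE n) K.card (k01_full d hn K hK)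
    rw [intervalIntegral.integral_const_mul, h4]
    ring
  · rw [if_neg hK]
    refine le_of_eq (Eq.trans (intervalIntegral.integral_congr
      (g := fun _ : ℝ => (0 : ℝ)) (fun p _ => if_neg hK)) ?_)
    simp

theorem K19_cont (n d : ℕ) (H : Gr n) (a b : ℝ) (hb : b < 1)
    (h : ∀ p ∈ Set.Icc a b, 0 < ell d n p) :
    ContinuousOn (fun p : ℝ => (n : ℝ) * (1 - p) ^ (NE n - 1) * Cp d n p *
        Zl d (p * ell d n p / (1 - p)) H) (Set.Icc a b) := by
  have h1 := K17e d n a b h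
  have h2 : Continuous (fun lam : ℝ => Zl d lam H) := by
    unfold Zl
    exact continuous_finsetSum _ fun K _ => by fun_prop
  have h3 : ContinuousOn (fun p : ℝ => p * ell d n p / (1 - p)) (Set.Icc a b) := by
    apply ContinuousOn.div
    · unfold ell
      fun_prop
    · fun_prop
    · intro p hp h0
      linarith [hp.2]
  have h4 : ContinuousOn (fun p : ℝ => Zl d (p * ell d n p / (1 - p)) H) (Set.Icc a b) :=
    h2.comp_continuousOn h3
  have h5 : ContinuousOn (fun p : ℝ => (n : ℝ) * (1 - p) ^ (NE n - 1)) (Set.Icc a b) := by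
    fun_prop
  exact (h5.mul h1).mul h4

/-- linear bound for the integral -/
theorem K19_lin (g : ℝ → ℝ) (hg : Continuous g) (a b R e E : ℝ) (hR0 : 0 ≤ R) (hE0 : 0 ≤ E)
    (ha : 0 ≤ a) (he : 0 ≤ e) (h1 : ∫ p in a..b, g p ≤ 1) :
    ∫ p in a..b, R * (e * g p + E) ≤ R * (e + E * b) := by
  have i1 : IntervalIntegrable (fun p : ℝ => e * g p) MeasureTheory.volume a b :=
    (continuous_const.mul hg).intervalIntegrable a b
  have i2 : IntervalIntegrable (fun _ : ℝ => E) MeasureTheory.volume a b :=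
    continuous_const.intervalIntegrable a b
  have h2 : ∫ p in a..b, R * (e * g p + E) = R * (e * (∫ p in a..b, g p) + (b - a) * E) := by
    rw [intervalIntegral.integral_const_mul, intervalIntegral.integral_add i1 i2,
      intervalIntegral.integral_const_mul, intervalIntegral.integral_const, smul_eq_mul]
  rw [h2]
  apply mul_le_mul_of_nonneg_left _ hR0
  have h3 := mul_le_mul_of_nonneg_left h1 he
  have h4 := mul_le_mul_of_nonneg_right (show b - a ≤ b by linarith) hE0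
  linarith

theorem K19 (d : ℕ) (hd : 1 ≤ d) (γ ε : ℝ) (hγ : 1 < γ * (d + 2)) (hγ' : γ * (d + 1) < 1)
    (hε : 0 < ε) : ∃ n₀ : ℕ, ∀ n ≥ n₀, Even (d * n) →
      avOn (Reg n d ∅) (fun H => D2 d γ H) ≤ 1 + ε := by
  have hd' : (1 : ℝ) ≤ d := by exact_mod_cast hd
  have hγ0 : 0 < γ := by
    by_contra h
    push Not at h
    have : γ * (d + 2) ≤ 0 := mul_nonpos_of_nonpos_of_nonneg h (by linarith)
    linarith
  have hγ1 : γ < 1 / 2 := by nlinarith
  obtain ⟨C1, n1, hC1, hK1⟩ := K18a d hd γ (γ / 2) (by linarith) (by linarith) (by linarith)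
  obtain ⟨n2, hK2⟩ := K18b d hd γ (γ / 2) (by linarith) (by linarith) (by linarith)
  obtain ⟨C3, n3, hC3, hK3⟩ := P05c d hd
  obtain ⟨c, n4, hc, hK4⟩ := P04 d hd
  obtain ⟨δ, hδ0, hδ1, hδε⟩ : ∃ δ : ℝ, 0 < δ ∧ δ ≤ 1 ∧ 3 * δ ≤ ε / 2 := by
    refine ⟨min 1 (ε / 6), lt_min one_pos (by linarith), min_le_left _ _, ?_⟩
    have := min_le_right 1 (ε / 6)
    linarith
  obtain ⟨A, hA⟩ : ∃ A : ℝ, A = 1 / c := ⟨_, rfl⟩
  have hA0 : 0 < A := by rw [hA]; positivity
  have hcast : Filter.Tendsto (fun n : ℕ => (n : ℝ)) Filter.atTop Filter.atTop :=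
    tendsto_natCast_atTop_atTop
  have e1 : ∀ᶠ n : ℕ in Filter.atTop, (8 : ℝ) ≤ (n : ℝ) ^ (γ / 2) :=
    ((tendsto_rpow_atTop (by linarith : 0 < γ / 2)).comp hcast).eventually_ge_atTop _
  have e2 : ∀ᶠ n : ℕ in Filter.atTop, C3 / (δ * c) ≤ (n : ℝ) ^ (γ / 2) :=
    ((tendsto_rpow_atTop (by linarith : 0 < γ / 2)).comp hcast).eventually_ge_atTop _
  have e3 : ∀ᶠ n : ℕ in Filter.atTop, 4 / δ ≤ (n : ℝ) ^ (γ / 2) :=
    ((tendsto_rpow_atTop (by linarith : 0 < γ / 2)).comp hcast).eventually_ge_atTop _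
  have e4 : ∀ᶠ n : ℕ in Filter.atTop, 4 * (1 + (d : ℝ)) / δ + d + 2 ≤ (n : ℝ) :=
    hcast.eventually_ge_atTop _
  have e5 : ∀ᶠ n : ℕ in Filter.atTop, 16 * C1 / ε ≤ (n : ℝ) ^ (γ * (d + 2) - 1) :=
    ((tendsto_rpow_atTop (by linarith : 0 < γ * (d + 2) - 1)).comp hcast).eventually_ge_atTop _
  have e6 : ∀ᶠ n : ℕ in Filter.atTop, 8 * A / ε ≤ (n : ℝ) := hcast.eventually_ge_atTop _
  obtain ⟨n5, hn5⟩ := Filter.eventually_atTop.mp
    (e1.and (e2.and (e3.and (e4.and (e5.and e6)))))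
  refine ⟨max (max n1 n2) (max (max n3 n4) n5), ?_⟩
  intro n hn hev
  have hn1' : n ≥ n1 := le_trans (le_max_left _ _ |>.trans (le_max_left _ _)) hn
  have hn2' : n ≥ n2 := le_trans (le_max_right _ _ |>.trans (le_max_left _ _)) hn
  have hn3' : n ≥ n3 :=
    le_trans (le_max_left _ _ |>.trans ((le_max_left _ _).trans (le_max_right _ _))) hn
  have hn4' : n ≥ n4 :=
    le_trans (le_max_right _ _ |>.trans ((le_max_left _ _).trans (le_max_right _ _))) hn
  have hn5' : n ≥ n5 := le_trans (le_max_right _ _ |>.trans (le_max_right _ _)) hn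
  obtain ⟨f1, f2, f3, f4, f5, f6⟩ := hn5 n hn5'
  have hdn2 : d + 2 ≤ n := by
    have h0 : 0 ≤ 4 * (1 + (d : ℝ)) / δ := by positivity
    have h1 : (d : ℝ) + 2 ≤ n := by linarith
    exact_mod_cast h1
  have hnr : (d : ℝ) + 2 ≤ n := by exact_mod_cast hdn2
  have hn1 : (1 : ℝ) ≤ n := by linarith
  have hn0 : (0 : ℝ) < n := by linarith
  have hNE : (NE n : ℝ) = (n : ℝ) * (n - 1) / 2 := by
    have h1 : NE n = n.choose 2 := by
      have h := Sym2.card_subtype_not_diag (α := Fin n)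
      rw [Fintype.card_fin] at h
      exact h
    rw [h1, Nat.cast_choose_two]
  have hNEn : d * n / 2 < NE n := by
    have h1 : NE n = n.choose 2 := by
      have h := Sym2.card_subtype_not_diag (α := Fin n)
      rw [Fintype.card_fin] at h
      exact h
    rw [h1, Nat.choose_two_right]
    have h2 : d * n + n ≤ n * (n - 1) := by
      calc d * n + n = (d + 1) * n := by ring
        _ ≤ (n - 1) * n := Nat.mul_le_mul_right _ (by omega)
        _ = n * (n - 1) := mul_comm _ _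
    omega
  have hdN : d ≤ NE n := by
    have h1 : d ≤ d * n / 2 := by
      rw [Nat.le_div_iff_mul_le (by norm_num)]
      exact Nat.mul_le_mul_left _ (by omega)
    omega
  obtain ⟨w, hw⟩ : ∃ w : ℝ, w = (n : ℝ) ^ (1 - γ / 2) := ⟨_, rfl⟩
  have hw0 : 0 < w := by rw [hw]; positivity
  have hwn : w * (n : ℝ) ^ (γ / 2) = n := by
    rw [hw, ← Real.rpow_add hn0]
    simp
  have hw8 : 8 * w ≤ n := by
    calc 8 * w = w * 8 := by ring
      _ ≤ w * (n : ℝ) ^ (γ / 2) := mul_le_mul_of_nonneg_left f1 hw0.le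
      _ = n := hwn
  have hndn : (n : ℝ) ≤ d * n := by nlinarith
  have hw2 : ∀ k : ℕ, (k : ℝ) ≤ w → k ≤ d * n / 2 := by
    intro k hk
    rw [Nat.le_div_iff_mul_le (by norm_num)]
    have h5 : (k : ℝ) * 2 ≤ d * n := by linarith
    exact_mod_cast h5
  have hPSc : c ≤ PS d (∅ : Gr n) := by
    apply hK4 n hn4' hev
    · intro v
      simp [deg]
    · simp
  have hPS : 0 < PS d (∅ : Gr n) := lt_of_lt_of_le hc hPSc
  have hP1 : ∀ K : Gr n, (∀ v, deg K v ≤ d) → (K.card : ℝ) ≤ w →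
      PS d K ≤ (1 + δ) * PS d (∅ : Gr n) := by
    intro K hK hKw
    have h8 : 8 * K.card ≤ n := by
      have : 8 * (K.card : ℝ) ≤ n := by linarith
      exact_mod_cast this
    have h1 := hK3 n hn3' hev K hK h8
    have h2 : C3 * (K.card : ℝ) / n ≤ δ * c := by
      have h3 : C3 * (K.card : ℝ) / n ≤ C3 * w / n := by gcongr
      have h4 : C3 * w / n ≤ δ * c := by
        rw [div_le_iff₀ hn0]
        rw [div_le_iff₀ (by positivity)] at f2
        calc C3 * w ≤ ((n : ℝ) ^ (γ / 2) * (δ * c)) * w := mul_le_mul_of_nonneg_right f2 hw0.le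
          _ = δ * c * (w * (n : ℝ) ^ (γ / 2)) := by ring
          _ = δ * c * n := by rw [hwn]
      linarith
    have h5 := (abs_le.mp h1).2
    have h6 : δ * c ≤ δ * PS d (∅ : Gr n) := mul_le_mul_of_nonneg_left hPSc hδ0.le
    linarith
  have hP2 : 1 ≤ A * PS d (∅ : Gr n) := by
    rw [hA, one_div, ← div_eq_inv_mul, le_div_iff₀ hc]
    linarith
  have hb : ∀ K : Gr n, (∀ v, deg K v ≤ d) → (K.card : ℝ) ≤ w →
      (n : ℝ) * ndK d K ≤ (1 + δ) * bK d K := by
    intro K hK hKw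
    have h1 := K19b_lower d hd K hK
    have hnd : (0 : ℝ) ≤ ndK d K := Nat.cast_nonneg _
    have h2 : (n : ℝ) ≤ (1 + δ) * ((n : ℝ) - 1 - d - K.card) := by
      have h3 : 4 * w ≤ δ * n := by
        rw [div_le_iff₀ hδ0] at f3
        calc 4 * w ≤ ((n : ℝ) ^ (γ / 2) * δ) * w := mul_le_mul_of_nonneg_right f3 hw0.le
          _ = δ * (w * (n : ℝ) ^ (γ / 2)) := by ring
          _ = δ * n := by rw [hwn]
      have h4 : 4 * (1 + (d : ℝ)) ≤ δ * n := by
        have h5 : 4 * (1 + (d : ℝ)) / δ ≤ n := by linarith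
        rw [div_le_iff₀ hδ0] at h5
        linarith
      have h5 : (1 + δ) * (1 + (d : ℝ) + K.card) ≤ 2 * (1 + (d : ℝ) + K.card) :=
        mul_le_mul_of_nonneg_right (by linarith) (by positivity)
      linarith
    have h3 := mul_le_mul_of_nonneg_right h2 hnd
    have h4 := mul_le_mul_of_nonneg_left h1 (show (0 : ℝ) ≤ 1 + δ by linarith)
    linarith
  obtain ⟨a, ha⟩ : ∃ a : ℝ, a = (n : ℝ) ^ (-(5 : ℝ) / 3) := ⟨_, rfl⟩
  obtain ⟨b, hbd⟩ : ∃ b : ℝ, b = (n : ℝ) ^ (-1 - γ) := ⟨_, rfl⟩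
  have ha0 : 0 < a := by rw [ha]; positivity
  have hb0 : 0 < b := by rw [hbd]; positivity
  have hab : a ≤ b := by
    rw [ha, hbd]
    exact Real.rpow_le_rpow_of_exponent_le hn1 (by linarith)
  have hbn : b ≤ 1 / n := by
    rw [hbd, one_div, ← Real.rpow_neg_one]
    exact Real.rpow_le_rpow_of_exponent_le hn1 (by linarith)
  have hb2 : b ≤ 1 / 2 := by
    refine hbn.trans ?_
    apply one_div_le_one_div_of_le (by norm_num)
    linarith
  have hell : ∀ p : ℝ, 0 < p → p ≤ b → 0 < ell d n p := by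
    intro p hp hpb
    unfold ell
    have h1 : (NE n : ℝ) * p ≤ (n : ℝ) * (n - 1) / 2 * (1 / n) := by
      rw [hNE]
      apply mul_le_mul_of_nonneg_left (hpb.trans hbn)
      have : 0 ≤ (n : ℝ) - 1 := by linarith
      positivity
    have h2 : (n : ℝ) * (n - 1) / 2 * (1 / n) = (n - 1) / 2 := by field_simp
    rw [h2] at h1
    linarith
  obtain ⟨S1, hS1⟩ : ∃ S : ℝ, S = C1 * (n : ℝ) ^ (-γ) := ⟨_, rfl⟩
  obtain ⟨S2, hS2⟩ : ∃ S : ℝ, S = (n : ℝ) ^ (-((d : ℝ) + 3)) := ⟨_, rfl⟩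
  have hS10 : 0 ≤ S1 := by rw [hS1]; positivity
  have hS20 : 0 ≤ S2 := by rw [hS2]; positivity
  obtain ⟨E, hE⟩ : ∃ E : ℝ, E = (n : ℝ) ^ (d + 2) * b ^ d * (2 * ((1 + δ) * S1 + A * S2)) :=
    ⟨_, rfl⟩
  have hE0 : 0 ≤ E := by rw [hE]; positivity
  obtain ⟨R, hR⟩ : ∃ R : ℝ, R = ((Reg n d ∅).card : ℝ) := ⟨_, rfl⟩
  have hR0 : 0 ≤ R := by rw [hR]; positivity
  -- the pointwise bound
  have hpt : ∀ p ∈ Set.Icc a b, ∑ H ∈ Reg n d ∅, (n : ℝ) * (1 - p) ^ (NE n - 1) * Cp d n p *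
        Zl d (p * ell d n p / (1 - p)) H ≤
      R * ((1 + δ) ^ 2 * (∑ K : Gr n, (if ∀ v, deg K v ≤ d then
      (bK d K : ℝ) * (p ^ K.card * (1 - p) ^ (NE n - K.card - 1)) else 0)) + E) := by
    intro p hp
    have hp0 : 0 < p := lt_of_lt_of_le ha0 hp.1
    have hpb : p ≤ (n : ℝ) ^ (-1 - γ) := by
      rw [← hbd]
      exact hp.2
    rw [K19_avg d hd hev (fun K hK => k01_full d hdn2 K hK) hPS p (by linarith [hp.2]), ← hR]
    apply mul_le_mul_of_nonneg_left _ hR0
    have h1 := hK1 n hn1' hev p hp0 hpb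
    have h2 := hK2 n hn2' hev p hp0 hpb
    rw [← hw, ← hS1] at h1
    rw [← hw, ← hS2] at h2
    refine (K19_point n d hev hdN hPS p hp0 (hp.2.trans hb2) w δ A hδ0.le hA0.le hw2 hNEn
      (hell p hp0 hp.2) hP1 hP2 hb S1 S2 h1 h2).trans ?_
    apply add_le_add le_rfl
    rw [hE]
    have h3 : p ^ d ≤ b ^ d := pow_le_pow_left₀ hp0.le hp.2 d
    gcongr
  -- integration
  have hcontH : ∀ H : Gr n, IntervalIntegrable (fun p : ℝ => (n : ℝ) * (1 - p) ^ (NE n - 1) *
      Cp d n p * Zl d (p * ell d n p / (1 - p)) H) MeasureTheory.volume a b := by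
    intro H
    apply ContinuousOn.intervalIntegrable
    rw [Set.uIcc_of_le hab]
    exact K19_cont n d H a b (by linarith) (fun p hp => hell p (lt_of_lt_of_le ha0 hp.1) hp.2)
  have hsum : ∑ H ∈ Reg n d ∅, D2 d γ H =
      ∫ p in a..b, ∑ H ∈ Reg n d ∅, (n : ℝ) * (1 - p) ^ (NE n - 1) * Cp d n p *
        Zl d (p * ell d n p / (1 - p)) H := by
    rw [intervalIntegral.integral_finsetSum (fun H _ => hcontH H)]
    apply Finset.sum_congr rfl
    intro H _
    unfold D2
    rw [ha, hbd]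
  have hc0 : Continuous (fun p : ℝ => ∑ K : Gr n, (if ∀ v, deg K v ≤ d then
      (bK d K : ℝ) * (p ^ K.card * (1 - p) ^ (NE n - K.card - 1)) else 0)) := by
    apply continuous_finsetSum
    intro K _
    split_ifs
    · fun_prop
    · exact continuous_const
  have hint : ∫ p in a..b, ∑ H ∈ Reg n d ∅, (n : ℝ) * (1 - p) ^ (NE n - 1) * Cp d n p *
        Zl d (p * ell d n p / (1 - p)) H ≤
      ∫ p in a..b, R * ((1 + δ) ^ 2 * (∑ K : Gr n, (if ∀ v, deg K v ≤ d then
      (bK d K : ℝ) * (p ^ K.card * (1 - p) ^ (NE n - K.card - 1)) else 0)) + E) := by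
    apply intervalIntegral.integral_mono_on hab
    · have h1 := IntervalIntegrable.sum (Reg n d ∅) (fun H _ => hcontH H)
      have h2 : (∑ H ∈ Reg n d ∅, fun p : ℝ => (n : ℝ) * (1 - p) ^ (NE n - 1) *
        Cp d n p * Zl d (p * ell d n p / (1 - p)) H) = fun p : ℝ => ∑ H ∈ Reg n d ∅,
        (n : ℝ) * (1 - p) ^ (NE n - 1) * Cp d n p * Zl d (p * ell d n p / (1 - p)) H := by
        funext p
        rw [Finset.sum_apply]
      rw [h2] at h1
      exact h1
    · exact (continuous_const.mul ((continuous_const.mul hc0).add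
        continuous_const)).intervalIntegrable _ _
    · exact hpt
  have hval : ∫ p in a..b, R * ((1 + δ) ^ 2 * (∑ K : Gr n, (if ∀ v, deg K v ≤ d then
      (bK d K : ℝ) * (p ^ K.card * (1 - p) ^ (NE n - K.card - 1)) else 0)) + E) ≤
      R * ((1 + δ) ^ 2 + E * b) := by
    have h1 := K19_main_int n d hdn2 a b ha0.le hab (by linarith)
    exact K19_lin _ hc0 a b R ((1 + δ) ^ 2) E hR0 hE0 ha0.le (by positivity) h1
  have hEb : E * b ≤ ε / 2 := by
    have h1 : E * b = 2 * ((1 + δ) * C1) * ((n : ℝ) ^ (d + 2) * b ^ (d + 1) * (n : ℝ) ^ (-γ)) +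
        2 * A * ((n : ℝ) ^ (d + 2) * b ^ (d + 1) * (n : ℝ) ^ (-((d : ℝ) + 3))) := by
      rw [hE, hS1, hS2, pow_succ b d]
      ring
    have h2 : (n : ℝ) ^ (d + 2) * b ^ (d + 1) = (n : ℝ) ^ (1 - γ * (d + 1)) := by
      rw [hbd, ← Real.rpow_natCast (n : ℝ) (d + 2), ← Real.rpow_natCast _ (d + 1),
        ← Real.rpow_mul hn0.le, ← Real.rpow_add hn0]
      congr 1
      push_cast
      ring
    have h3 : (n : ℝ) ^ (1 - γ * (d + 1)) * (n : ℝ) ^ (-γ) =
        ((n : ℝ) ^ (γ * (d + 2) - 1))⁻¹ := by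
      rw [← Real.rpow_add hn0, ← Real.rpow_neg hn0.le]
      congr 1
      ring
    have h4 : (n : ℝ) ^ (1 - γ * (d + 1)) * (n : ℝ) ^ (-((d : ℝ) + 3)) ≤ (n : ℝ)⁻¹ := by
      rw [← Real.rpow_add hn0, ← Real.rpow_neg_one]
      apply Real.rpow_le_rpow_of_exponent_le hn1
      nlinarith
    have h5 : 2 * ((1 + δ) * C1) * ((n : ℝ) ^ (γ * (d + 2) - 1))⁻¹ ≤ ε / 4 := by
      have h6 : 0 < (n : ℝ) ^ (γ * (d + 2) - 1) := by positivity
      rw [← div_eq_mul_inv, div_le_iff₀ h6]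
      rw [div_le_iff₀ hε] at f5
      have h7 : (1 + δ) * C1 ≤ 2 * C1 := mul_le_mul_of_nonneg_right (by linarith) hC1.le
      linarith
    have h6 : 2 * A * (n : ℝ)⁻¹ ≤ ε / 4 := by
      rw [← div_eq_mul_inv, div_le_iff₀ hn0]
      rw [div_le_iff₀ hε] at f6
      linarith
    rw [h1, h2, h3]
    have h7 := mul_le_mul_of_nonneg_left h4 (show 0 ≤ 2 * A by positivity)
    linarith
  have hfin : ∑ H ∈ Reg n d ∅, D2 d γ H ≤ R * (1 + ε) := by
    rw [hsum]
    refine (hint.trans hval).trans ?_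
    apply mul_le_mul_of_nonneg_left _ hR0
    have h1 : (1 + δ) ^ 2 ≤ 1 + 3 * δ := by nlinarith
    linarith
  unfold avOn
  rw [← hR]
  rcases eq_or_lt_of_le hR0 with h0 | h0
  · rw [← h0, div_zero]
    linarith
  · rw [div_le_iff₀ h0]
    linarith

end Pool.Agent.HC
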