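import Pool.Agent.Lib.MP_ec42c8_pr.K16
import Pool.Agent.Lib.MP_ec42c8_pr.K19
import Pool.Agent.Lib.MP_ec42c8_pr.K17

/-!
# K20 : the comparison density is concentrated

PROOF.  For `p` in the interval of integration `lam(p) = p ell / (1-p)` satisfies, for large `n`,
` (1/2) n^(-5/3) · (d n / 2) ≤ lam ≤ 2 d n · n^(-1-γ)`, so `lam ≤ lam₀`, `lam n ≥ n^(1/3)/4 ≥ 1` and
`C (lam + 1/(lam n)) ≤ ε / 2` (`C`, `lam₀` from `K16`).  Then
`avOn |D2 - avOn D2| ≤ ∫ n (1-p)^(N-1) Cp avOn |Zl - avOn Zl| dp ≤ (ε/2) avOn D2 ≤ (ε/2)(1 + 1)`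
(exchange the finite sum `avOn` and the integral; `K19` with `ε = 1`; `Cp > 0` since it is at least the term
`k = 0`, which is `1`).
-/

set_option autoImplicit false

namespace Pool.Agent.HC

open Finset
open scoped Classical

private lemma k20_NE (n : ℕ) : 2 * (NE n : ℝ) ≤ (n : ℝ) ^ 2 := by
  have h : NE n = n.choose 2 := by
    have h1 := Sym2.card_subtype_not_diag (α := Fin n)
    rw [Fintype.card_fin] at h1
    rw [← h1]
  have h2 : 2 * n.choose 2 ≤ n ^ 2 := by
    rw [Nat.choose_two_right]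
    have := Nat.div_mul_le_self (n * (n - 1)) 2
    have h3 : n * (n - 1) ≤ n ^ 2 := by
      rw [pow_two]; exact Nat.mul_le_mul_left _ (Nat.sub_le _ _)
    omega
  rw [h]
  exact_mod_cast h2

private lemma k20_Cp (d n : ℕ) (p : ℝ) : 1 ≤ Cp d n p := by
  have h := Finset.le_sup' (fun k => Lk d n k / ell d n p ^ k)
    (Finset.mem_range.2 (Nat.succ_pos (d * n / 2)))
  refine le_trans ?_ h
  simp [Lk]

private lemma k20_cont {n : ℕ} (d : ℕ) (H : Gr n) (a b : ℝ) (hb : b < 1) :
    ContinuousOn (fun p => Zl d (p * ell d n p / (1 - p)) H) (Set.Icc a b) := by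
  have h1 : ContinuousOn (fun p : ℝ => p * ell d n p / (1 - p)) (Set.Icc a b) := by
    refine ContinuousOn.div ?_ ?_ ?_
    · unfold ell; fun_prop
    · fun_prop
    · intro p hp
      have : p ≤ b := hp.2
      intro h0
      linarith
  unfold Zl
  refine continuousOn_finsetSum _ fun K _ => ?_
  exact ((h1.pow _).mul continuousOn_const).mul continuousOn_const

/-- Average over a finite set of an integral. -/
private lemma k20_swap {α : Type*} (s : Finset α) (F : ℝ → α → ℝ) (a b : ℝ) (hab : a ≤ b)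
    (hF : ∀ H ∈ s, ContinuousOn (fun p => F p H) (Set.Icc a b)) :
    avOn s (fun H => ∫ p in a..b, F p H) = ∫ p in a..b, avOn s (F p) := by
  unfold avOn
  rw [intervalIntegral.integral_div, intervalIntegral.integral_finsetSum]
  intro H hH
  refine ContinuousOn.intervalIntegrable ?_
  rw [Set.uIcc_of_le hab]
  exact hF H hH

private lemma k20_contAv {α : Type*} (s : Finset α) (F : ℝ → α → ℝ) (a b : ℝ)
    (hF : ∀ H ∈ s, ContinuousOn (fun p => F p H) (Set.Icc a b)) :
    ContinuousOn (fun p => avOn s (F p)) (Set.Icc a b) := by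
  unfold avOn
  exact (continuousOn_finsetSum _ hF).div_const _

/-- The general step. -/
private lemma k20_core {α : Type*} (s : Finset α) (w : ℝ → ℝ) (Z : ℝ → α → ℝ) (a b δ : ℝ)
    (hab : a ≤ b) (hw : ∀ p ∈ Set.Icc a b, 0 ≤ w p) (hwc : ContinuousOn w (Set.Icc a b))
    (hZc : ∀ H, ContinuousOn (fun p => Z p H) (Set.Icc a b))
    (h : ∀ p ∈ Set.Icc a b, avOn s (fun H => |Z p H - avOn s (Z p)|) ≤ δ * avOn s (Z p)) :
    avOn s (fun H => |(∫ p in a..b, w p * Z p H) - avOn s (fun H => ∫ p in a..b, w p * Z p H)|) ≤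
      δ * avOn s (fun H => ∫ p in a..b, w p * Z p H) := by
  have hFc : ∀ H, ContinuousOn (fun p => w p * Z p H) (Set.Icc a b) := fun H => hwc.mul (hZc H)
  have hAc : ContinuousOn (fun p => avOn s (Z p)) (Set.Icc a b) :=
    k20_contAv s Z a b fun H _ => hZc H
  have hwAc : ContinuousOn (fun p => w p * avOn s (Z p)) (Set.Icc a b) := hwc.mul hAc
  have hav : avOn s (fun H => ∫ p in a..b, w p * Z p H) = ∫ p in a..b, w p * avOn s (Z p) := by
    rw [k20_swap s (fun p H => w p * Z p H) a b hab (fun H _ => hFc H)]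
    refine intervalIntegral.integral_congr fun p _ => ?_
    exact avOn_mul_left s (w p) (Z p)
  have hint : ∀ {f : ℝ → ℝ}, ContinuousOn f (Set.Icc a b) →
      IntervalIntegrable f MeasureTheory.volume a b := by
    intro f hf
    refine ContinuousOn.intervalIntegrable ?_
    rw [Set.uIcc_of_le hab]
    exact hf
  have hdc : ∀ H, ContinuousOn (fun p => w p * |Z p H - avOn s (Z p)|) (Set.Icc a b) := fun H =>
    hwc.mul ((hZc H).sub hAc).abs
  have h1 : ∀ H ∈ s, |(∫ p in a..b, w p * Z p H) - avOn s (fun H => ∫ p in a..b, w p * Z p H)| ≤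
      ∫ p in a..b, w p * |Z p H - avOn s (Z p)| := by
    intro H _
    rw [hav, ← intervalIntegral.integral_sub (hint (hFc H)) (hint hwAc)]
    refine (intervalIntegral.abs_integral_le_integral_abs hab).trans ?_
    refine intervalIntegral.integral_mono_on hab ?_ (hint (hdc H)) ?_
    · exact hint (((hFc H).sub hwAc).abs)
    · intro p hp
      rw [← mul_sub, abs_mul, abs_of_nonneg (hw p hp)]
  refine (avOn_mono h1).trans ?_
  rw [k20_swap s (fun p H => w p * |Z p H - avOn s (Z p)|) a b hab (fun H _ => hdc H), hav,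
    ← intervalIntegral.integral_const_mul]
  refine intervalIntegral.integral_mono_on hab ?_ ?_ ?_
  · exact hint (k20_contAv s _ a b fun H _ => hdc H)
  · exact hint (continuousOn_const.mul hwAc)
  · intro p hp
    have e1 : avOn s (fun H => w p * |Z p H - avOn s (Z p)|) =
        w p * avOn s (fun H => |Z p H - avOn s (Z p)|) := avOn_mul_left s (w p) _
    rw [e1]
    calc w p * avOn s (fun H => |Z p H - avOn s (Z p)|) ≤ w p * (δ * avOn s (Z p)) :=
          mul_le_mul_of_nonneg_left (h p hp) (hw p hp)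
      _ = δ * (w p * avOn s (Z p)) := by ring

theorem K20 (d : ℕ) (hd : 1 ≤ d) (γ ε : ℝ) (hγ : 1 < γ * (d + 2)) (hγ' : γ * (d + 1) < 1)
    (hε : 0 < ε) : ∃ n₀ : ℕ, ∀ n ≥ n₀, Even (d * n) →
      avOn (Reg n d ∅) (fun H => |D2 d γ H - avOn (Reg n d ∅) (fun H => D2 d γ H)|) ≤ ε := by
  obtain ⟨C, lam₀, n₀, hC, hlam₀, hK16⟩ := K16 d hd
  obtain ⟨n₁, hK19⟩ := K19 d hd γ 1 hγ hγ' one_pos
  have hd1 : (1 : ℝ) ≤ d := by exact_mod_cast hd
  have hγ0 : 0 < γ := by
    by_contra hcon
    push Not at hcon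
    have : γ * (d + 2) ≤ 0 := mul_nonpos_of_nonpos_of_nonneg hcon (by positivity)
    linarith
  have hγ2 : γ < 1 / 2 := by
    have h1 : γ * 2 ≤ γ * (d + 1) := by gcongr; linarith
    linarith
  have T1 : Filter.Tendsto (fun n : ℕ => (n : ℝ) ^ (-γ)) Filter.atTop (nhds 0) :=
    (tendsto_rpow_neg_atTop hγ0).comp tendsto_natCast_atTop_atTop
  have T2 : Filter.Tendsto (fun n : ℕ => (n : ℝ) ^ (-(1 / 3 : ℝ))) Filter.atTop (nhds 0) :=
    (tendsto_rpow_neg_atTop (by norm_num)).comp tendsto_natCast_atTop_atTop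
  have p1 : (0 : ℝ) < min (lam₀ / (2 * d)) (min (1 / 2) (ε / (8 * d * C))) :=
    lt_min (by positivity) (lt_min (by norm_num) (by positivity))
  have p2 : (0 : ℝ) < min ((d : ℝ) / 2) (ε / (8 * C)) := lt_min (by positivity) (by positivity)
  have E1 := T1.eventually (gt_mem_nhds p1)
  have E2 := T2.eventually (gt_mem_nhds p2)
  obtain ⟨n₂, hn₂⟩ := Filter.eventually_atTop.1 (E1.and E2)
  refine ⟨max (max n₀ n₁) (max n₂ 1), fun n hn heven => ?_⟩
  have hn0 : n₀ ≤ n := le_trans (le_trans (le_max_left _ _) (le_max_left _ _)) hn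
  have hn1 : n₁ ≤ n := le_trans (le_trans (le_max_right _ _) (le_max_left _ _)) hn
  have hn2 : n₂ ≤ n := le_trans (le_trans (le_max_left _ _) (le_max_right _ _)) hn
  have hn3 : 1 ≤ n := le_trans (le_trans (le_max_right _ _) (le_max_right _ _)) hn
  obtain ⟨g1, g2⟩ := hn₂ n hn2
  set x : ℝ := (n : ℝ) with hx
  have hx1 : 1 ≤ x := by rw [hx]; exact_mod_cast hn3
  have hx0 : 0 < x := by linarith
  set X : ℝ := x ^ (-γ) with hX
  set Y : ℝ := x ^ (-(1 / 3 : ℝ)) with hY
  have hX0 : 0 < X := Real.rpow_pos_of_pos hx0 _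
  have hY0 : 0 < Y := Real.rpow_pos_of_pos hx0 _
  have g1a : X < lam₀ / (2 * d) := lt_of_lt_of_le g1 (min_le_left _ _)
  have g1b : X < 1 / 2 := lt_of_lt_of_le g1 ((min_le_right _ _).trans (min_le_left _ _))
  have g1c : X < ε / (8 * d * C) := lt_of_lt_of_le g1 ((min_le_right _ _).trans (min_le_right _ _))
  have g2a : Y < d / 2 := lt_of_lt_of_le g2 (min_le_left _ _)
  have g2b : Y < ε / (8 * C) := lt_of_lt_of_le g2 (min_le_right _ _)
  set a : ℝ := x ^ (-(5 : ℝ) / 3) with ha
  set b : ℝ := x ^ (-1 - γ) with hb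
  have hab : a ≤ b := Real.rpow_le_rpow_of_exponent_le hx1 (by linarith)
  have ha0 : 0 < a := Real.rpow_pos_of_pos hx0 _
  have hbX : x * b = X := by
    rw [hb, hX]
    nth_rewrite 1 [← Real.rpow_one x]
    rw [← Real.rpow_add hx0]
    congr 1; ring
  have haY : x * a = Y ^ 2 := by
    rw [ha, hY, ← Real.rpow_natCast, ← Real.rpow_mul hx0.le]
    nth_rewrite 1 [← Real.rpow_one x]
    rw [← Real.rpow_add hx0]
    congr 1; push_cast; ring
  have hxY : x * Y ^ 3 = 1 := by
    rw [hY, ← Real.rpow_natCast, ← Real.rpow_mul hx0.le]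
    nth_rewrite 1 [← Real.rpow_one x]
    rw [← Real.rpow_add hx0]
    have : (1 : ℝ) + -(1 / 3) * ((3 : ℕ) : ℝ) = 0 := by push_cast; ring
    rw [this, Real.rpow_zero]
  have hbX' : b ≤ X := by
    have : b * 1 ≤ b * x := by gcongr
    linarith [mul_comm b x]
  have hell : ∀ p ∈ Set.Icc a b, (d : ℝ) * x / 2 ≤ ell d n p ∧ ell d n p ≤ d * x := by
    intro p hp
    have hp0 : 0 < p := lt_of_lt_of_le ha0 hp.1
    unfold ell
    have h2 := k20_NE n
    have h3 : 2 * (NE n : ℝ) * p ≤ x ^ 2 * b := by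
      calc 2 * (NE n : ℝ) * p ≤ x ^ 2 * p := by gcongr
        _ ≤ x ^ 2 * b := by gcongr; exact hp.2
    have h4 : x ^ 2 * b = x * X := by rw [pow_two, mul_assoc, hbX]
    have h5 : x * X ≤ x * (1 / 2) := by gcongr
    have h6 : 0 ≤ 2 * (NE n : ℝ) * p := by positivity
    constructor
    · nlinarith
    · linarith
  have hlam : ∀ p ∈ Set.Icc a b, 0 < p * ell d n p / (1 - p) ∧
      p * ell d n p / (1 - p) ≤ 2 * d * X ∧ d * Y ^ 2 / 2 ≤ p * ell d n p / (1 - p) := by
    intro p hp
    obtain ⟨e1, e2⟩ := hell p hp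
    have hp0 : 0 < p := lt_of_lt_of_le ha0 hp.1
    have hpX : p ≤ 1 / 2 := by linarith [hp.2]
    have h1p : 0 < 1 - p := by linarith
    have hell0 : 0 < ell d n p := lt_of_lt_of_le (by positivity) e1
    refine ⟨by positivity, ?_, ?_⟩
    · rw [div_le_iff₀ h1p]
      have h1 : p * ell d n p ≤ b * (d * x) := mul_le_mul hp.2 e2 hell0.le (by linarith [hp.2])
      have h2 : b * (d * x) = d * X := by rw [← hbX]; ring
      have h3 : d * X ≤ 2 * d * X * (1 - p) := by
        have : 0 ≤ d * X * (1 - 2 * p) := mul_nonneg (by positivity) (by linarith)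
        nlinarith
      linarith
    · rw [le_div_iff₀ h1p]
      have h1 : a * (d * x / 2) ≤ p * ell d n p := mul_le_mul hp.1 e1 (by positivity) hp0.le
      have h2 : a * (d * x / 2) = d * Y ^ 2 / 2 := by rw [← haY]; ring
      have h3 : d * Y ^ 2 / 2 * (1 - p) ≤ d * Y ^ 2 / 2 * 1 := by gcongr; linarith
      linarith
  have hb1 : b < 1 := by linarith
  have hcore := k20_core (Reg n d ∅)
    (fun p => (n : ℝ) * (1 - p) ^ (NE n - 1) * Cp d n p)
    (fun p H => Zl d (p * ell d n p / (1 - p)) H) a b (ε / 2) hab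
    (by
      intro p hp
      have h1 : 0 ≤ 1 - p := by linarith [hp.2]
      have h2 : 0 ≤ Cp d n p := zero_le_one.trans (k20_Cp d n p)
      positivity)
    (by
      refine ContinuousOn.mul (by fun_prop) ?_
      refine K17e d n a b fun p hp => ?_
      exact lt_of_lt_of_le (by positivity) (hell p hp).1)
    (fun H => k20_cont d H a b hb1)
    (by
      intro p hp
      obtain ⟨l1, l2, l3⟩ := hlam p hp
      set lam := p * ell d n p / (1 - p) with hlamd
      have hlY : d * Y ^ 2 / 2 * x * Y = d / 2 := by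
        have : d * Y ^ 2 / 2 * x * Y = d / 2 * (x * Y ^ 3) := by ring
        rw [this, hxY, mul_one]
      have hlx : d / 2 ≤ lam * x * Y := by
        rw [← hlY]; gcongr
      have hlamx : 0 < lam * x := by positivity
      have h1 : 1 ≤ lam * x := by
        by_contra hcon
        push Not at hcon
        have : lam * x * Y < 1 * Y := by gcongr
        linarith
      have h2 : 1 / (lam * x) ≤ 2 * Y := by
        rw [div_le_iff₀ hlamx]
        have : (1 : ℝ) ≤ d := hd1
        nlinarith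
      have h3 : lam ≤ lam₀ := by
        refine l2.trans ?_
        have := (lt_div_iff₀ (by positivity : (0 : ℝ) < 2 * d)).1 g1a
        linarith
      have h4 := hK16 n lam hn0 heven l1 h3 h1
      refine h4.trans ?_
      have h5 : C * (lam + 1 / (lam * x)) ≤ ε / 2 := by
        have k1 : C * lam ≤ ε / 4 := by
          have := (lt_div_iff₀ (by positivity : (0 : ℝ) < 8 * d * C)).1 g1c
          have h6 : C * lam ≤ C * (2 * d * X) := by gcongr
          nlinarith
        have k2 : C * (1 / (lam * x)) ≤ ε / 4 := by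
          have := (lt_div_iff₀ (by positivity : (0 : ℝ) < 8 * C)).1 g2b
          have h6 : C * (1 / (lam * x)) ≤ C * (2 * Y) := by gcongr
          nlinarith
        rw [mul_add]
        linarith
      have h6 : 0 ≤ avOn (Reg n d ∅) (Zl d lam) := by
        refine avOn_nonneg fun H _ => ?_
        unfold Zl
        refine Finset.sum_nonneg fun K _ => ?_
        have : 0 ≤ wK d K := by
          unfold wK
          exact Finset.prod_nonneg fun v _ => by positivity
        positivity
      exact mul_le_mul_of_nonneg_right h5 h6)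
  have hD2 : ∀ H : Gr n, D2 d γ H = ∫ p in a..b,
      ((n : ℝ) * (1 - p) ^ (NE n - 1) * Cp d n p) * Zl d (p * ell d n p / (1 - p)) H := fun H => rfl
  have hfin := hK19 n hn1 heven
  simp only [hD2] at hfin ⊢
  refine hcore.trans ?_
  have : ε / 2 * avOn (Reg n d ∅) (fun H => ∫ p in a..b,
      ((n : ℝ) * (1 - p) ^ (NE n - 1) * Cp d n p) * Zl d (p * ell d n p / (1 - p)) H) ≤
      ε / 2 * (1 + 1) := by gcongr
  linarith

end Pool.Agent.HC
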