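import Pool.Agent.Lib.MP_ec42c8_pr.K01
import Pool.Agent.Lib.MP_ec42c8_pr.K03
import Pool.Agent.Lib.MP_ec42c8_pr.K04
import Pool.Agent.Lib.MP_ec42c8_pr.K08
import Pool.Agent.Lib.MP_ec42c8_pr.K17
import Pool.Agent.Lib.MP_ec42c8_pr.K19a
import Pool.Agent.Lib.MP_ec42c8_pr.P04
import Pool.Agent.Lib.MP_ec42c8_pr.P05

/-!
# K21 : the density of the planted graph, and its upper bound

`K21a`: by `K01`, `avOn (Reg n d K) Φ = (∑ over H ∈ Reg n d ∅ with K ⊆ H of Φ H) / card (Reg n d K)`; exchange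
the sums.  If `K ⊆ H ∈ Reg n d ∅` then the degrees of `K` are at most `d` and `H ∈ Reg n d K`.
`K21b`: let `N = NE n`, `2 r = d n`, `ε' = ε/4`, `γ < γ₁ < 1/(d+1)` (for instance `γ₁ = (γ + 1/(d+1)) / 2`), and
`a = aW γ₁ n`.  Define `bad K` for `K` with degrees `≤ d` by `a < card K`.  By `K08`, `P05c`, `P04`, for
`K` not bad and `n` large, `card (Reg n d ∅) / card (Reg n d K) = Lk d n k wK K PS d ∅ / PS d K ≤
(1 + ε') Lk d n k wK K`.  With `bK ≤ n ndK` (`K19b_upper`), `bet N k = ∫ p in 0..1, p^k (1-p)^(N-k-1)` (`K04a`), split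
into the interval `I = [n^(-5/3), n^(-1-γ)]` and the rest, and `Lk ≤ Cp ell ^ k` (`K17b`) on `I`:
`Dd H ≤ (1 + ε') D2 H + Dbad H`, where `Dbad H` is the sum over the bad `K ⊆ H` of `bK bet card(Reg ∅)/card(Reg K)`
plus the sum over the other `K ⊆ H` of `bK (∫ outside I) card(Reg ∅)/card(Reg K)`.  (On `I`:
`∑ over K ⊆ H of n ndK wK p^k (1-p)^(N-k-1) Cp ell^k = n (1-p)^(N-1) Cp Zl d (p ell/(1-p)) H`.)
`avOn Dbad = ∑ over bad K of bK bet + ∑ over other K of bK ∫ outside I` (each `K` with `Reg n d K` nonempty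
contributes its weight).  The first sum is at most the probability that `card (KK d σ) > a` (`K01`, `K03`).
The second: `∫ over p > n^(-1-γ)` is at most ` (k+1) / (n^(-1-γ) (N+1)) bet N k ≤ 4 n^(γ - γ₁) bet N k·C` (`K04b`,
`k ≤ a`), and `∑ bK bet ≤ 1`; `∫ over p < n^(-5/3)`: `∑ over K of n ndK K p^k (1-p)^(N-k-1) ≤
n^(d+2) p^d (1-p)⁻¹` (`K19a`), integral `≤ 2 n^(d+2) n^(-5(d+1)/3) ≤ 2 n^(-1/3)`... for `d ≥ 1`:
`d + 2 - 5(d+1)/3 = (1 - 2d)/3 ≤ -1/3`.
-/

set_option autoImplicit false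

namespace Pool.Agent.HC

open Finset
open scoped Classical

lemma k21_reg {n : ℕ} (d : ℕ) (K : Gr n) :
    Reg n d K = (Reg n d ∅).filter (fun H => K ⊆ H) := by
  ext H
  simp only [Reg, Finset.mem_filter, Finset.mem_univ, true_and, Finset.empty_subset]
  tauto

lemma k21_deg {n : ℕ} (d : ℕ) (K : Gr n) (h : ¬ ∀ v, deg K v ≤ d) : Reg n d K = ∅ := by
  rw [Finset.eq_empty_iff_forall_notMem]
  intro H hH
  simp only [Reg, Finset.mem_filter, Finset.mem_univ, true_and] at hH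
  apply h
  intro v
  rw [← hH.2 v]
  exact deg_mono hH.1 v

lemma k21_swap {n : ℕ} (d : ℕ) (f Φ : Gr n → ℝ) :
    avOn (Reg n d ∅) (fun H => Φ H * ∑ K ∈ H.powerset,
      f K * (((Reg n d ∅).card : ℝ) / ((Reg n d K).card : ℝ))) =
      ∑ K : Gr n, f K * avOn (Reg n d K) Φ := by
  by_cases hR : (Reg n d (∅ : Gr n)).card = 0
  · have he : Reg n d (∅ : Gr n) = ∅ := Finset.card_eq_zero.1 hR
    have hemp : ∀ K : Gr n, Reg n d K = ∅ := fun K => by
      rw [k21_reg, he, Finset.filter_empty]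
    rw [he, avOn_empty]
    simp only [hemp, avOn_empty, mul_zero, Finset.sum_const_zero]
  · have hR0 : ((Reg n d (∅ : Gr n)).card : ℝ) ≠ 0 := by exact_mod_cast hR
    have e1 : ∀ H : Gr n, Φ H * ∑ K ∈ H.powerset,
        f K * (((Reg n d ∅).card : ℝ) / ((Reg n d K).card : ℝ)) =
        ∑ K : Gr n, if K ⊆ H then
          Φ H * (f K * (((Reg n d ∅).card : ℝ) / ((Reg n d K).card : ℝ))) else 0 := by
      intro H
      rw [Finset.mul_sum, ← Finset.sum_filter]
      refine Finset.sum_congr ?_ fun _ _ => rfl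
      ext K
      simp
    rw [avOn, Finset.sum_congr rfl fun H _ => e1 H, Finset.sum_comm, Finset.sum_div]
    refine Finset.sum_congr rfl fun K _ => ?_
    rw [← Finset.sum_filter, ← k21_reg, ← Finset.sum_mul, avOn]
    by_cases hK : (Reg n d K).card = 0
    · rw [Finset.card_eq_zero.1 hK]
      simp
    · have hK0 : ((Reg n d K).card : ℝ) ≠ 0 := by exact_mod_cast hK
      field_simp

theorem K21a {n : ℕ} (d : ℕ) (hn : d + 2 ≤ n) (Φ : Gr n → ℝ) :
    av (fun σ : Ord n => avOn (Reg n d (KK d σ)) Φ) =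
      avOn (Reg n d ∅) (fun H => Φ H * Dd d H) := by
  rw [K01 d hn (fun K => avOn (Reg n d K) Φ)]
  have h := k21_swap d (fun K => (bK d K : ℝ) * bet (NE n) K.card) Φ
  unfold Dd
  rw [h]
  refine Finset.sum_congr rfl fun K _ => ?_
  split_ifs with hK
  · unfold bet
    rw [mul_div_assoc]
  · rw [k21_deg d K hK, avOn_empty, mul_zero]

/-! ### Elementary facts -/

lemma k21_NE (n : ℕ) : NE n = n.choose 2 := by
  have := Sym2.card_subtype_not_diag (α := Fin n)
  simpa using this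

lemma k21_NE_lower (n : ℕ) (hn : 2 ≤ n) : (n : ℝ) ^ 2 / 4 ≤ NE n := by
  rw [k21_NE, Nat.cast_choose_two]
  have : (2 : ℝ) ≤ n := by exact_mod_cast hn
  nlinarith

lemma k21_NE_upper (n : ℕ) (hn : 1 ≤ n) : 2 * (NE n : ℝ) ≤ (n : ℝ) ^ 2 := by
  rw [k21_NE, Nat.cast_choose_two]
  have : (1 : ℝ) ≤ n := by exact_mod_cast hn
  nlinarith

lemma k21_card_lt {n : ℕ} (d : ℕ) (hn : d + 2 ≤ n) (H K : Gr n) (hH : H ∈ Reg n d ∅)
    (hK : K ⊆ H) : K.card < NE n ∧ K.card ≤ d * n / 2 := by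
  have h1 := P03f H
  have h2 : ∑ v, deg H v = n * d := by
    simp only [Reg, Finset.mem_filter, Finset.mem_univ, true_and] at hH
    rw [Finset.sum_congr rfl fun v _ => hH.2 v]
    simp
  have h3 : K.card ≤ H.card := Finset.card_le_card hK
  have h4 : 2 * H.card = n * d := by rw [← h1, h2]
  have h5 : 2 * NE n = n * (n - 1) := by
    rw [k21_NE, Nat.choose_two_right]
    exact Nat.mul_div_cancel' (Nat.even_mul_pred_self n).two_dvd
  have h6 : n * d < n * (n - 1) := Nat.mul_lt_mul_of_pos_left (by omega) (by omega)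
  constructor
  · omega
  · rw [Nat.le_div_iff_mul_le (by norm_num)]
    have : d * n = n * d := mul_comm _ _
    omega

lemma k21_small (s : ℝ) (hs : 0 < s) (δ : ℝ) (hδ : 0 < δ) :
    ∃ n₀ : ℕ, ∀ n ≥ n₀, (n : ℝ) ^ (-s) ≤ δ := by
  have h1 : Filter.Tendsto (fun n : ℕ => (n : ℝ) ^ (-s)) Filter.atTop (nhds 0) :=
    (tendsto_rpow_neg_atTop hs).comp tendsto_natCast_atTop_atTop
  obtain ⟨n₀, h⟩ := Filter.eventually_atTop.1 (h1.eventually (ge_mem_nhds hδ))
  exact ⟨n₀, h⟩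

/-- the integrand -/
lemma k21_cont (k l : ℕ) : Continuous fun p : ℝ => p ^ k * (1 - p) ^ l := by
  fun_prop

lemma k21_int_nonneg (k l : ℕ) (a b : ℝ) (ha : 0 ≤ a) (hab : a ≤ b) (hb : b ≤ 1) :
    0 ≤ ∫ p in a..b, p ^ k * (1 - p) ^ l := by
  refine intervalIntegral.integral_nonneg hab fun p hp => ?_
  have h1 : 0 ≤ p := ha.trans hp.1
  have h2 : 0 ≤ 1 - p := by linarith [hp.2]
  positivity

lemma k21_split (N k : ℕ) (hk : k < N) (P Q : ℝ) :
    bet N k = (∫ p in P..Q, p ^ k * (1 - p) ^ (N - k - 1)) +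
      ((∫ p in (0 : ℝ)..P, p ^ k * (1 - p) ^ (N - k - 1)) +
        ∫ p in Q..1, p ^ k * (1 - p) ^ (N - k - 1)) := by
  have hi : ∀ a b : ℝ, IntervalIntegrable (fun p : ℝ => p ^ k * (1 - p) ^ (N - k - 1))
      MeasureTheory.volume a b := fun a b => (k21_cont k (N - k - 1)).intervalIntegrable a b
  have h1 := intervalIntegral.integral_add_adjacent_intervals (hi 0 P) (hi P Q)
  have h2 := intervalIntegral.integral_add_adjacent_intervals (hi 0 Q) (hi Q 1)
  have h3 := K04a N k hk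
  unfold bet
  rw [← h3, ← h2, ← h1]
  ring

/-- the binomial sum with one factor missing -/
lemma k21_binom (M d : ℕ) (P p : ℝ) (hp : 0 ≤ p) (hpP : p ≤ P) (hP : P ≤ 1 / 2) :
    ∑ j ∈ Finset.range (M + 1), (M.choose j : ℝ) *
      (if j < M then p ^ (j + d) * (1 - p) ^ (M - j - 1) else 0) ≤ 2 * P ^ d := by
  have h1 : (1 / 2 : ℝ) ≤ 1 - p := by linarith
  have h1' : 0 < 1 - p := by linarith
  have key : (1 - p) * ∑ j ∈ Finset.range (M + 1), (M.choose j : ℝ) *
      (if j < M then p ^ (j + d) * (1 - p) ^ (M - j - 1) else 0) ≤ p ^ d := by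
    have hb : ∑ j ∈ Finset.range (M + 1), p ^ j * (1 - p) ^ (M - j) * (M.choose j : ℝ) = 1 := by
      rw [← add_pow]
      simp
    calc (1 - p) * ∑ j ∈ Finset.range (M + 1), (M.choose j : ℝ) *
          (if j < M then p ^ (j + d) * (1 - p) ^ (M - j - 1) else 0)
        ≤ ∑ j ∈ Finset.range (M + 1), p ^ d * (p ^ j * (1 - p) ^ (M - j) * (M.choose j : ℝ)) := by
          rw [Finset.mul_sum]
          refine Finset.sum_le_sum fun j _ => ?_
          split_ifs with hj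
          · obtain ⟨t, ht⟩ : ∃ t, M - j = t + 1 := ⟨M - j - 1, by omega⟩
            have : M - j - 1 = t := by omega
            rw [this, ht]
            apply le_of_eq
            ring
          · rw [mul_zero, mul_zero]
            positivity
      _ = p ^ d := by rw [← Finset.mul_sum, hb, mul_one]
  have hs0 : 0 ≤ ∑ j ∈ Finset.range (M + 1), (M.choose j : ℝ) *
      (if j < M then p ^ (j + d) * (1 - p) ^ (M - j - 1) else 0) := by
    refine Finset.sum_nonneg fun j _ => ?_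
    split_ifs
    · positivity
    · simp
  have h2 : p ^ d ≤ P ^ d := pow_le_pow_left₀ hp hpP d
  nlinarith

/-- the part of small `p` -/
lemma k21_low {n : ℕ} (d : ℕ) (hd : d + 1 ≤ NE n) (P : ℝ) (hP0 : 0 ≤ P) (hP : P ≤ 1 / 2) :
    ∑ K : Gr n, (ndK d K : ℝ) * (if K.card < NE n then
      ∫ p in (0 : ℝ)..P, p ^ K.card * (1 - p) ^ (NE n - K.card - 1) else 0) ≤
      (n : ℝ) ^ (d + 1) * (2 * P ^ (d + 1)) := by
  have hφ : ∀ k : ℕ, (0 : ℝ) ≤ (if k < NE n then
      ∫ p in (0 : ℝ)..P, p ^ k * (1 - p) ^ (NE n - k - 1) else 0) := fun k => by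
    split_ifs
    · exact k21_int_nonneg _ _ _ _ le_rfl hP0 (by linarith)
    · exact le_rfl
  refine (K19a d (by omega) (fun k => if k < NE n then
      ∫ p in (0 : ℝ)..P, p ^ k * (1 - p) ^ (NE n - k - 1) else 0) hφ).trans ?_
  refine mul_le_mul_of_nonneg_left ?_ (by positivity)
  set M := NE n - d with hM
  have e1 : ∑ j ∈ Finset.range (M + 1), (M.choose j : ℝ) * (if j + d < NE n then
      ∫ p in (0 : ℝ)..P, p ^ (j + d) * (1 - p) ^ (NE n - (j + d) - 1) else 0) =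
      ∫ p in (0 : ℝ)..P, ∑ j ∈ Finset.range (M + 1), (M.choose j : ℝ) *
        (if j < M then p ^ (j + d) * (1 - p) ^ (M - j - 1) else 0) := by
    rw [intervalIntegral.integral_finsetSum]
    · refine Finset.sum_congr rfl fun j _ => ?_
      rw [intervalIntegral.integral_const_mul]
      congr 1
      by_cases hj : j < M
      · have hj' : j + d < NE n := by omega
        have e : NE n - (j + d) - 1 = M - j - 1 := by omega
        simp only [hj, hj', if_true, e]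
      · have hj' : ¬ j + d < NE n := by omega
        simp only [hj, hj', if_false]
        simp
    · intro j _
      refine Continuous.intervalIntegrable ?_ _ _
      by_cases hj : j < M
      · simp only [hj, if_true]
        fun_prop
      · simp only [hj, if_false]
        fun_prop
  rw [e1]
  have e2 : ∫ p in (0 : ℝ)..P, ∑ j ∈ Finset.range (M + 1), (M.choose j : ℝ) *
        (if j < M then p ^ (j + d) * (1 - p) ^ (M - j - 1) else 0) ≤
      ∫ _ in (0 : ℝ)..P, 2 * P ^ d := by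
    refine intervalIntegral.integral_mono_on hP0 ?_ ?_ fun p hp => ?_
    · refine Continuous.intervalIntegrable ?_ _ _
      refine continuous_finsetSum _ fun j _ => ?_
      by_cases hj : j < M
      · simp only [hj, if_true]
        fun_prop
      · simp only [hj, if_false]
        fun_prop
    · exact intervalIntegrable_const
    · exact k21_binom M d P p hp.1 hp.2 hP
  refine e2.trans ?_
  rw [intervalIntegral.integral_const, smul_eq_mul, sub_zero]
  apply le_of_eq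
  ring

/-- the coefficient of the error term -/
noncomputable def k21_f {n : ℕ} (d a : ℕ) (P Q : ℝ) (K : Gr n) : ℝ :=
  if a < K.card then (bK d K : ℝ) * bet (NE n) K.card
  else (bK d K : ℝ) * ((∫ p in (0 : ℝ)..P, p ^ K.card * (1 - p) ^ (NE n - K.card - 1)) +
    ∫ p in Q..1, p ^ K.card * (1 - p) ^ (NE n - K.card - 1))

lemma k21_bet_nonneg (N k : ℕ) : 0 ≤ bet N k := by
  unfold bet
  positivity

lemma k21_f_nonneg {n : ℕ} (d a : ℕ) (P Q : ℝ) (hP : 0 ≤ P) (hP1 : P ≤ 1) (hQ : 0 ≤ Q)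
    (hQ1 : Q ≤ 1) (K : Gr n) : 0 ≤ k21_f d a P Q K := by
  unfold k21_f
  split_ifs
  · exact mul_nonneg (Nat.cast_nonneg _) (k21_bet_nonneg _ _)
  · exact mul_nonneg (Nat.cast_nonneg _) (add_nonneg (k21_int_nonneg _ _ _ _ le_rfl hP hP1)
      (k21_int_nonneg _ _ _ _ hQ hQ1 le_rfl))

/-- the mass of the error term -/
lemma k21_mass {n : ℕ} (d a : ℕ) (P Q : ℝ) (hn : d + 2 ≤ n) (hd : d + 1 ≤ NE n) (hP : 0 ≤ P)
    (hP1 : P ≤ 1 / 2) (hQ : 0 < Q) (hQ1 : Q ≤ 1) (haN : a < NE n) :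
    avOn (Reg n d ∅) (fun H => ∑ K ∈ H.powerset,
      k21_f d a P Q K * (((Reg n d ∅).card : ℝ) / ((Reg n d K).card : ℝ))) ≤
      pr (fun σ : Ord n => a < (KK d σ).card) + ((a : ℝ) + 1) / (Q * (NE n + 1)) +
        2 * (n : ℝ) ^ (d + 2) * P ^ (d + 1) := by
  have h0 := k21_swap d (k21_f d a P Q) (fun _ : Gr n => (1 : ℝ))
  simp only [one_mul] at h0
  rw [h0]
  have hf := k21_f_nonneg (n := n) d a P Q hP (by linarith) hQ.le hQ1
  have hn0 : (0 : ℝ) ≤ n := Nat.cast_nonneg n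
  set δ₁ : ℝ := ((a : ℝ) + 1) / (Q * (NE n + 1)) with hδ
  have hδ0 : 0 ≤ δ₁ := by positivity
  have e1 : ∀ K : Gr n, k21_f d a P Q K * avOn (Reg n d K) (fun _ => (1 : ℝ)) ≤
      (if (∀ v, deg K v ≤ d) then
        (bK d K : ℝ) * ((K.card.factorial * (NE n - K.card - 1).factorial : ℕ) : ℝ) /
          ((NE n).factorial : ℝ) * (if a < K.card then (1 : ℝ) else 0) else 0) +
      δ₁ * (if (∀ v, deg K v ≤ d) then
        (bK d K : ℝ) * ((K.card.factorial * (NE n - K.card - 1).factorial : ℕ) : ℝ) /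
          ((NE n).factorial : ℝ) * (1 : ℝ) else 0) +
      n * ((ndK d K : ℝ) * (if K.card < NE n then
        ∫ p in (0 : ℝ)..P, p ^ K.card * (1 - p) ^ (NE n - K.card - 1) else 0)) := by
    intro K
    have hlast : 0 ≤ n * ((ndK d K : ℝ) * (if K.card < NE n then
        ∫ p in (0 : ℝ)..P, p ^ K.card * (1 - p) ^ (NE n - K.card - 1) else 0)) := by
      refine mul_nonneg hn0 (mul_nonneg (Nat.cast_nonneg _) ?_)
      split_ifs
      · exact k21_int_nonneg _ _ _ _ le_rfl hP (by linarith)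
      · exact le_rfl
    by_cases hK : ∀ v, deg K v ≤ d
    · rw [if_pos hK, if_pos hK]
      have hav : avOn (Reg n d K) (fun _ => (1 : ℝ)) ≤ 1 :=
        (avOn_unit (Φ := fun _ : Gr n => (1 : ℝ)) (fun _ => ⟨zero_le_one, le_rfl⟩)).2
      refine (mul_le_of_le_one_right (hf K) hav).trans ?_
      have hb : (bK d K : ℝ) * ((K.card.factorial * (NE n - K.card - 1).factorial : ℕ) : ℝ) /
          ((NE n).factorial : ℝ) = (bK d K : ℝ) * bet (NE n) K.card := by
        unfold bet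
        rw [mul_div_assoc]
      rw [hb]
      have hb0 : 0 ≤ (bK d K : ℝ) * bet (NE n) K.card :=
        mul_nonneg (Nat.cast_nonneg _) (k21_bet_nonneg _ _)
      unfold k21_f
      by_cases hc : a < K.card
      · rw [if_pos hc, if_pos hc, mul_one]
        have := mul_nonneg hδ0 hb0
        linarith
      · have hc' : K.card ≤ a := not_lt.1 hc
        have hkN : K.card < NE n := lt_of_le_of_lt hc' haN
        rw [if_neg hc, if_neg hc, if_pos hkN, mul_zero, mul_one, zero_add]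
        have hw3 := K04b (NE n) K.card hkN Q hQ hQ1
        have hw3' : ∫ p in Q..1, p ^ K.card * (1 - p) ^ (NE n - K.card - 1) ≤
            δ₁ * bet (NE n) K.card := by
          refine hw3.trans ?_
          unfold bet
          refine mul_le_mul_of_nonneg_right ?_ (by positivity)
          rw [hδ]
          have : (K.card : ℝ) ≤ a := by exact_mod_cast hc'
          gcongr
        have hw2 : 0 ≤ ∫ p in (0 : ℝ)..P, p ^ K.card * (1 - p) ^ (NE n - K.card - 1) :=
          k21_int_nonneg _ _ _ _ le_rfl hP (by linarith)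
        have hbn := K19b_upper d K hK
        have hbK0 : (0 : ℝ) ≤ bK d K := Nat.cast_nonneg _
        have t1 := mul_le_mul_of_nonneg_left hw3' hbK0
        have t2 := mul_le_mul_of_nonneg_right hbn hw2
        calc _ = (bK d K : ℝ) * (∫ p in Q..1, p ^ K.card * (1 - p) ^ (NE n - K.card - 1)) +
              (bK d K : ℝ) *
                ∫ p in (0 : ℝ)..P, p ^ K.card * (1 - p) ^ (NE n - K.card - 1) := by ring
          _ ≤ (bK d K : ℝ) * (δ₁ * bet (NE n) K.card) + (n : ℝ) * ndK d K *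
                ∫ p in (0 : ℝ)..P, p ^ K.card * (1 - p) ^ (NE n - K.card - 1) :=
              add_le_add t1 t2
          _ = _ := by ring
    · rw [k21_deg d K hK, avOn_empty, mul_zero, if_neg hK, if_neg hK]
      linarith
  refine (Finset.sum_le_sum fun K _ => e1 K).trans ?_
  rw [Finset.sum_add_distrib, Finset.sum_add_distrib, ← Finset.mul_sum, ← Finset.mul_sum]
  have s1 := K01 d hn (fun K => if a < K.card then (1 : ℝ) else 0)
  have s2 := K01 d hn (fun _ : Gr n => (1 : ℝ))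
  have s3 := k21_low (n := n) d hd P hP hP1
  rw [← s1, ← s2]
  have u1 : av (fun σ : Ord n => if a < (KK d σ).card then (1 : ℝ) else 0) =
      pr (fun σ : Ord n => a < (KK d σ).card) := by
    unfold pr
    refine av_congr fun σ => ?_
    by_cases hh : a < (KK d σ).card <;> simp [hh]
  have u2 : av (fun _ : Ord n => (1 : ℝ)) ≤ 1 := av_le_of_nonneg zero_le_one fun _ => le_rfl
  have u3 := mul_le_mul_of_nonneg_left s3 hn0
  have u4 := mul_le_mul_of_nonneg_left u2 hδ0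
  rw [u1]
  calc _ ≤ pr (fun σ : Ord n => a < (KK d σ).card) + δ₁ * 1 +
        n * ((n : ℝ) ^ (d + 1) * (2 * P ^ (d + 1))) := by
        gcongr
    _ = _ := by ring

lemma k21_Cp (d n : ℕ) (p : ℝ) : 1 ≤ Cp d n p := by
  unfold Cp
  have h := Finset.le_sup' (f := fun k => Lk d n k / ell d n p ^ k)
    (s := Finset.range (d * n / 2 + 1)) (b := 0) (by simp)
  simpa [Lk] using h

lemma k21_wK {n : ℕ} (d : ℕ) (K : Gr n) : 0 ≤ wK d K := by
  unfold wK
  exact Finset.prod_nonneg fun v _ => by positivity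

/-- the integral of one graph -/
noncomputable def k21_I {n : ℕ} (d : ℕ) (P Q : ℝ) (K : Gr n) : ℝ :=
  ∫ p in P..Q, (n : ℝ) * ndK d K * wK d K *
    (p ^ K.card * (1 - p) ^ (NE n - K.card - 1) * (Cp d n p * ell d n p ^ K.card))

lemma k21_contOn {n : ℕ} (d : ℕ) (P Q : ℝ) (hell : ∀ p ∈ Set.Icc P Q, 0 < ell d n p) (K : Gr n) :
    ContinuousOn (fun p : ℝ => (n : ℝ) * ndK d K * wK d K *
    (p ^ K.card * (1 - p) ^ (NE n - K.card - 1) * (Cp d n p * ell d n p ^ K.card)))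
      (Set.Icc P Q) := by
  have h1 := K17e d n P Q hell
  have h2 : Continuous fun p : ℝ => ell d n p := by
    unfold ell
    fun_prop
  exact continuousOn_const.mul (((k21_cont _ _).continuousOn).mul
    (h1.mul ((h2.pow _).continuousOn)))

lemma k21_I_nonneg {n : ℕ} (d : ℕ) (P Q : ℝ) (hP : 0 ≤ P) (hPQ : P ≤ Q) (hQ : Q ≤ 1)
    (hell : ∀ p ∈ Set.Icc P Q, 0 < ell d n p) (K : Gr n) : 0 ≤ k21_I d P Q K := by
  refine intervalIntegral.integral_nonneg hPQ fun p hp => ?_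
  have h1 : 0 ≤ p := hP.trans hp.1
  have h2 : 0 ≤ 1 - p := by linarith [hp.2]
  have h3 := k21_Cp d n p
  have h4 := hell p hp
  have h5 := k21_wK d K
  have h6 : 0 ≤ Cp d n p := by linarith
  positivity

lemma k21_D2 {n : ℕ} (d : ℕ) (γ : ℝ) (P Q : ℝ) (hPe : P = (n : ℝ) ^ (-(5 : ℝ) / 3))
    (hQe : Q = (n : ℝ) ^ (-1 - γ)) (hPQ : P ≤ Q) (hQ : Q ≤ 1 / 2)
    (hell : ∀ p ∈ Set.Icc P Q, 0 < ell d n p) (H : Gr n)
    (hH : ∀ K ⊆ H, K.card < NE n) :
    D2 d γ H = ∑ K ∈ H.powerset, k21_I d P Q K := by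
  unfold D2
  rw [← hPe, ← hQe]
  unfold k21_I
  rw [← intervalIntegral.integral_finsetSum]
  · refine intervalIntegral.integral_congr fun p hp => ?_
    rw [Set.uIcc_of_le hPQ] at hp
    have h1 : (0 : ℝ) < 1 - p := by linarith [hp.2]
    simp only [Zl]
    rw [Finset.mul_sum]
    refine Finset.sum_congr rfl fun K hK => ?_
    have hk := hH K (Finset.mem_powerset.1 hK)
    have e : NE n - 1 = (NE n - K.card - 1) + K.card := by omega
    rw [e, pow_add, div_pow, mul_pow]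
    field_simp
  · intro K _
    exact ContinuousOn.intervalIntegrable_of_Icc hPQ (k21_contOn d P Q hell K)

/-- the main term of one graph -/
lemma k21_term {n : ℕ} (d : ℕ) (hdn : Even (d * n)) (ε P Q : ℝ) (hε : 0 ≤ ε) (hP : 0 ≤ P)
    (hPQ : P ≤ Q) (hQ : Q ≤ 1 / 2) (hell : ∀ p ∈ Set.Icc P Q, 0 < ell d n p) (K : Gr n)
    (hK : ∀ v, deg K v ≤ d) (hk2 : K.card ≤ d * n / 2)
    (hrat : ((Reg n d ∅).card : ℝ) / ((Reg n d K).card : ℝ) ≤
      (1 + ε) * (Lk d n K.card * wK d K)) :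
    (bK d K : ℝ) * (∫ p in P..Q, p ^ K.card * (1 - p) ^ (NE n - K.card - 1)) *
      (((Reg n d ∅).card : ℝ) / ((Reg n d K).card : ℝ)) ≤ (1 + ε) * k21_I d P Q K := by
  have hw1 : 0 ≤ ∫ p in P..Q, p ^ K.card * (1 - p) ^ (NE n - K.card - 1) :=
    k21_int_nonneg _ _ _ _ hP hPQ (by linarith)
  have hL := (K17a d n K.card hdn hk2).le
  have hw := k21_wK d K
  have hb := K19b_upper d K hK
  have hb0 : (0 : ℝ) ≤ bK d K := Nat.cast_nonneg _
  have hn0 : (0 : ℝ) ≤ (n : ℝ) * ndK d K := by positivity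
  have hI : (n : ℝ) * ndK d K * wK d K *
      (Lk d n K.card * ∫ p in P..Q, p ^ K.card * (1 - p) ^ (NE n - K.card - 1)) ≤
      k21_I d P Q K := by
    unfold k21_I
    rw [← intervalIntegral.integral_const_mul, ← intervalIntegral.integral_const_mul]
    refine intervalIntegral.integral_mono_on hPQ ?_ ?_ fun p hp => ?_
    · exact ((continuous_const.mul (continuous_const.mul
        (k21_cont _ _))).intervalIntegrable _ _)
    · exact ContinuousOn.intervalIntegrable_of_Icc hPQ (k21_contOn d P Q hell K)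
    · have h1 : 0 ≤ p := hP.trans hp.1
      have h2 : 0 ≤ 1 - p := by linarith [hp.2]
      have h3 := K17b d n p K.card (hell p hp) hk2
      have h4 : 0 ≤ p ^ K.card * (1 - p) ^ (NE n - K.card - 1) := by positivity
      refine mul_le_mul_of_nonneg_left ?_ (mul_nonneg hn0 hw)
      rw [mul_comm (Lk d n K.card)]
      exact mul_le_mul_of_nonneg_left h3 h4
  calc _ ≤ (bK d K : ℝ) * (∫ p in P..Q, p ^ K.card * (1 - p) ^ (NE n - K.card - 1)) *
        ((1 + ε) * (Lk d n K.card * wK d K)) :=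
        mul_le_mul_of_nonneg_left hrat (mul_nonneg hb0 hw1)
    _ ≤ ((n : ℝ) * ndK d K) *
        (∫ p in P..Q, p ^ K.card * (1 - p) ^ (NE n - K.card - 1)) *
        ((1 + ε) * (Lk d n K.card * wK d K)) := by
        refine mul_le_mul_of_nonneg_right (mul_le_mul_of_nonneg_right hb hw1) ?_
        exact mul_nonneg (by linarith) (mul_nonneg hL hw)
    _ = (1 + ε) * ((n : ℝ) * ndK d K * wK d K *
      (Lk d n K.card * ∫ p in P..Q, p ^ K.card * (1 - p) ^ (NE n - K.card - 1))) := by ring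
    _ ≤ _ := mul_le_mul_of_nonneg_left hI (by linarith)

/-- the ratio of the numbers of regular graphs -/
lemma k21_ratio {n : ℕ} (d : ℕ) (hd : 1 ≤ d) (hdn : Even (d * n)) (ε c C : ℝ) (hc : 0 < c)
    (K : Gr n) (hK : ∀ v, deg K v ≤ d) (hR : (Reg n d K).Nonempty)
    (hk2 : K.card ≤ d * n / 2) (hPS : c ≤ PS d K)
    (hdiff : |PS d K - PS d (∅ : Gr n)| ≤ C * K.card / n) (hsm : C * K.card / n ≤ ε * c)
    (hε : 0 ≤ ε) :
    ((Reg n d ∅).card : ℝ) / ((Reg n d K).card : ℝ) ≤ (1 + ε) * (Lk d n K.card * wK d K) := by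
  have hR0 : (0 : ℝ) < (Reg n d K).card := by exact_mod_cast hR.card_pos
  have hPS0 : 0 < PS d K := hc.trans_le hPS
  have h := K08 d hd hdn K hK
  have hL := (K17a d n K.card hdn hk2).le
  have hw := k21_wK d K
  rw [div_le_iff₀ hR0]
  have h1 : PS d (∅ : Gr n) ≤ (1 + ε) * PS d K := by
    have := (abs_le.1 hdiff).1
    have h2 : ε * c ≤ ε * PS d K := mul_le_mul_of_nonneg_left hPS hε
    linarith
  have h3 : ((Reg n d ∅).card : ℝ) * PS d K ≤
      ((1 + ε) * (Lk d n K.card * wK d K) * (Reg n d K).card) * PS d K := by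
    rw [h]
    calc ((Reg n d K).card : ℝ) * Lk d n K.card * wK d K * PS d (∅ : Gr n)
        ≤ ((Reg n d K).card : ℝ) * Lk d n K.card * wK d K * ((1 + ε) * PS d K) := by
          refine mul_le_mul_of_nonneg_left h1 ?_
          positivity
      _ = _ := by ring
  exact le_of_mul_le_mul_right h3 hPS0

theorem K21b (d : ℕ) (hd : 1 ≤ d) (γ ε : ℝ) (hγ : 1 < γ * (d + 2)) (hγ' : γ * (d + 1) < 1)
    (hε : 0 < ε) : ∃ n₀ : ℕ, ∀ n ≥ n₀, Even (d * n) →
      ∃ Db : Gr n → ℝ, (∀ H, 0 ≤ Db H) ∧ avOn (Reg n d ∅) Db ≤ ε ∧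
        ∀ H ∈ Reg n d ∅, Dd d H ≤ (1 + ε) * D2 d γ H + Db H := by
  have hdr : (1 : ℝ) ≤ d := by exact_mod_cast hd
  have hγ0 : 0 < γ := by
    by_contra hcon
    have : γ * (d + 2) ≤ 0 := mul_nonpos_of_nonpos_of_nonneg (not_lt.1 hcon) (by linarith)
    linarith
  have hγ2 : γ < 1 / 2 := by nlinarith
  have hd1 : (0 : ℝ) < d + 1 := by linarith
  set γ₁ : ℝ := (γ + 1 / (d + 1)) / 2 with hγ₁
  have hinv : γ < 1 / (d + 1) := by
    rw [lt_div_iff₀ hd1]
    exact hγ'
  have hg1 : γ < γ₁ := by rw [hγ₁]; linarith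
  have hg2 : γ₁ < 1 / (d + 1) := by rw [hγ₁]; linarith
  have hg3 : γ₁ * (d + 1) < 1 := by
    rwa [lt_div_iff₀ hd1] at hg2
  have hg0 : 0 < γ₁ := hγ0.trans hg1
  have hg4 : γ₁ < 1 := by nlinarith
  obtain ⟨c, m₁, hc, hm1⟩ := P04 d hd
  obtain ⟨C, m₂, hC, hm2⟩ := P05c d hd
  obtain ⟨m₃, hm3⟩ := K03 d hd γ₁ (ε / 4) hg0 hg3 (by linarith)
  obtain ⟨m₄, hm4⟩ := k21_small γ₁ hg0 (1 / 16) (by norm_num)
  obtain ⟨m₅, hm5⟩ := k21_small γ₁ hg0 (ε * c / (2 * C)) (by positivity)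
  obtain ⟨m₆, hm6⟩ := k21_small (γ₁ - γ) (by linarith) (ε / 48) (by positivity)
  obtain ⟨m₇, hm7⟩ := k21_small (1 / 3) (by norm_num) (ε / 8) (by positivity)
  refine ⟨m₁ + m₂ + m₃ + m₄ + m₅ + m₆ + m₇ + 4 * d + 8, fun n hn hdn => ?_⟩
  have a1 := hm1 n (by omega) hdn
  have a2 := hm2 n (by omega) hdn
  have a3 := hm3 n (by omega)
  have a4 := hm4 n (by omega)
  have a5 := hm5 n (by omega)
  have a6 := hm6 n (by omega)
  have a7 := hm7 n (by omega)
  have hn8 : 4 * d + 8 ≤ n := by omega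
  have hnr : (4 * d + 8 : ℝ) ≤ n := by exact_mod_cast hn8
  have hn1 : (1 : ℝ) ≤ n := by linarith
  have hn2 : (12 : ℝ) ≤ n := by linarith
  have hn0 : (0 : ℝ) < n := by linarith
  have hNl := k21_NE_lower n (by omega)
  have hNu := k21_NE_upper n (by omega)
  -- the sizes
  have ha : (aW γ₁ n : ℝ) ≤ 2 * (n : ℝ) ^ (1 - γ₁) := by
    have h1 : (1 : ℝ) ≤ (n : ℝ) ^ (1 - γ₁) := Real.one_le_rpow hn1 (by linarith)
    have h2 := (Nat.ceil_lt_add_one (show (0 : ℝ) ≤ (n : ℝ) ^ (1 - γ₁) by positivity)).le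
    unfold aW
    linarith
  have hpow : (n : ℝ) ^ (1 - γ₁) = n * (n : ℝ) ^ (-γ₁) := by
    rw [sub_eq_add_neg, Real.rpow_add hn0, Real.rpow_one]
  have ha8 : 8 * (aW γ₁ n : ℝ) ≤ n := by
    rw [hpow] at ha
    nlinarith
  have ha8' : 8 * aW γ₁ n ≤ n := by exact_mod_cast ha8
  have haN : aW γ₁ n < NE n := by
    have h1 : (aW γ₁ n : ℝ) < NE n := by nlinarith
    exact_mod_cast h1
  have hdN : d + 1 ≤ NE n := by
    have h1 : ((d + 1 : ℕ) : ℝ) ≤ NE n := by
      push_cast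
      nlinarith
    exact_mod_cast h1
  set P : ℝ := (n : ℝ) ^ (-(5 : ℝ) / 3) with hPe
  set Q : ℝ := (n : ℝ) ^ (-1 - γ) with hQe
  have hP0 : 0 < P := by positivity
  have hQ0 : 0 < Q := by positivity
  have hPQ : P ≤ Q := Real.rpow_le_rpow_of_exponent_le hn1 (by linarith)
  have hQn : Q ≤ 1 / n := by
    have : Q ≤ (n : ℝ) ^ (-1 : ℝ) := Real.rpow_le_rpow_of_exponent_le hn1 (by linarith)
    rw [Real.rpow_neg_one] at this
    rwa [one_div]
  have hQ2 : Q ≤ 1 / 2 := by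
    refine hQn.trans ?_
    rw [div_le_div_iff₀ hn0 (by norm_num)]
    linarith
  have hell : ∀ p ∈ Set.Icc P Q, 0 < ell d n p := by
    intro p hp
    unfold ell
    have h1 : 2 * (NE n : ℝ) * p ≤ (n : ℝ) ^ 2 * Q :=
      mul_le_mul hNu hp.2 (hP0.le.trans hp.1) (by positivity)
    have h2 : (n : ℝ) ^ 2 * Q < n := by
      have h3 : Q < (n : ℝ) ^ (-1 : ℝ) :=
        Real.rpow_lt_rpow_of_exponent_lt (by linarith) (by linarith)
      rw [Real.rpow_neg_one] at h3
      calc (n : ℝ) ^ 2 * Q < (n : ℝ) ^ 2 * (n : ℝ)⁻¹ :=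
            mul_lt_mul_of_pos_left h3 (by positivity)
        _ = n := by field_simp
    have h3 : (n : ℝ) ≤ d * n := by nlinarith
    linarith
  -- the estimates
  have hsmall : C * aW γ₁ n / n ≤ ε * c := by
    rw [hpow] at ha
    rw [div_le_iff₀ hn0]
    have h1 : 2 * C * (n : ℝ) ^ (-γ₁) ≤ ε * c := by
      have := mul_le_mul_of_nonneg_left a5 (show (0 : ℝ) ≤ 2 * C by positivity)
      have e : 2 * C * (ε * c / (2 * C)) = ε * c := by field_simp
      linarith
    calc C * (aW γ₁ n : ℝ) ≤ C * (2 * (n * (n : ℝ) ^ (-γ₁))) :=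
          mul_le_mul_of_nonneg_left ha hC.le
      _ = (2 * C * (n : ℝ) ^ (-γ₁)) * n := by ring
      _ ≤ ε * c * n := mul_le_mul_of_nonneg_right h1 hn0.le
  have hδ : ((aW γ₁ n : ℝ) + 1) / (Q * (NE n + 1)) ≤ ε / 4 := by
    have h1 : (1 : ℝ) ≤ (n : ℝ) ^ (1 - γ₁) := Real.one_le_rpow hn1 (by linarith)
    rw [div_le_iff₀ (by positivity)]
    have h2 : (aW γ₁ n : ℝ) + 1 ≤ 3 * (n : ℝ) ^ (1 - γ₁) := by linarith
    have h3 : (n : ℝ) ^ (1 - γ₁) = (n : ℝ) ^ (-(γ₁ - γ)) * (Q * (n : ℝ) ^ 2) := by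
      rw [hQe, ← Real.rpow_natCast, ← Real.rpow_add hn0, ← Real.rpow_add hn0]
      congr 1
      push_cast
      ring
    have h4 : Q * ((n : ℝ) ^ 2 / 4) ≤ Q * (NE n + 1) :=
      mul_le_mul_of_nonneg_left (by linarith) hQ0.le
    have h5 : 0 ≤ Q * (n : ℝ) ^ 2 := by positivity
    calc (aW γ₁ n : ℝ) + 1 ≤ 3 * ((n : ℝ) ^ (-(γ₁ - γ)) * (Q * (n : ℝ) ^ 2)) := by
          rw [← h3]; exact h2
      _ ≤ 3 * (ε / 48 * (Q * (n : ℝ) ^ 2)) := by
          have := mul_le_mul_of_nonneg_right a6 h5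
          linarith
      _ = ε / 4 * (Q * ((n : ℝ) ^ 2 / 4)) := by ring
      _ ≤ _ := mul_le_mul_of_nonneg_left h4 (by positivity)
  have hlow : 2 * (n : ℝ) ^ (d + 2) * P ^ (d + 1) ≤ ε / 4 := by
    have h1 : (n : ℝ) ^ (d + 2) * P ^ (d + 1) ≤ (n : ℝ) ^ (-(1 / 3) : ℝ) := by
      rw [hPe, ← Real.rpow_natCast, ← Real.rpow_natCast, ← Real.rpow_mul hn0.le,
        ← Real.rpow_add hn0]
      refine Real.rpow_le_rpow_of_exponent_le hn1 ?_
      push_cast
      linarith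
    calc 2 * (n : ℝ) ^ (d + 2) * P ^ (d + 1) = 2 * ((n : ℝ) ^ (d + 2) * P ^ (d + 1)) := by ring
      _ ≤ 2 * (ε / 8) := by
          have := h1.trans a7
          linarith
      _ = ε / 4 := by ring
  refine ⟨fun H => ∑ K ∈ H.powerset, k21_f d (aW γ₁ n) P Q K *
    (((Reg n d ∅).card : ℝ) / ((Reg n d K).card : ℝ)), fun H => ?_, ?_, fun H hH => ?_⟩
  · refine Finset.sum_nonneg fun K _ => mul_nonneg ?_ (by positivity)
    exact k21_f_nonneg d _ P Q hP0.le (by linarith) hQ0.le (by linarith) K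
  · have := k21_mass (n := n) d (aW γ₁ n) P Q (by omega) hdN hP0.le (by linarith) hQ0
      (by linarith) haN
    linarith
  · have hKs : ∀ K ⊆ H, K.card < NE n ∧ K.card ≤ d * n / 2 := fun K hK =>
      k21_card_lt d (by omega) H K hH hK
    rw [k21_D2 d γ P Q hPe hQe hPQ hQ2 hell H (fun K hK => (hKs K hK).1)]
    unfold Dd
    rw [Finset.mul_sum, ← Finset.sum_add_distrib]
    refine Finset.sum_le_sum fun K hK => ?_
    have hKH := Finset.mem_powerset.1 hK
    obtain ⟨hkN, hk2⟩ := hKs K hKH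
    have hKR : H ∈ Reg n d K := by
      rw [k21_reg]
      exact Finset.mem_filter.2 ⟨hH, hKH⟩
    have hKd : ∀ v, deg K v ≤ d := by
      intro v
      simp only [Reg, Finset.mem_filter, Finset.mem_univ, true_and] at hH
      rw [← hH.2 v]
      exact deg_mono hKH v
    have hI0 := k21_I_nonneg d P Q hP0.le hPQ (by linarith) hell K
    by_cases hc' : aW γ₁ n < K.card
    · unfold k21_f
      rw [if_pos hc']
      have : 0 ≤ (1 + ε) * k21_I d P Q K := mul_nonneg (by linarith) hI0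
      linarith
    · have hka : K.card ≤ aW γ₁ n := not_lt.1 hc'
      have hkar : (K.card : ℝ) ≤ aW γ₁ n := by exact_mod_cast hka
      have h8k : 8 * K.card ≤ n := by omega
      have hrat := k21_ratio d hd hdn ε c C hc K hKd ⟨H, hKR⟩ hk2 (a1 K hKd h8k)
        (a2 K hKd h8k) (le_trans (by gcongr) hsmall) hε.le
      have hterm := k21_term d hdn ε P Q hε.le hP0.le hPQ hQ2 hell K hKd hk2 hrat
      have hsp := k21_split (NE n) K.card hkN P Q
      unfold k21_f
      rw [if_neg hc', hsp]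
      calc _ = (bK d K : ℝ) * (∫ p in P..Q, p ^ K.card * (1 - p) ^ (NE n - K.card - 1)) *
            (((Reg n d ∅).card : ℝ) / ((Reg n d K).card : ℝ)) +
            (bK d K : ℝ) * ((∫ p in (0 : ℝ)..P, p ^ K.card * (1 - p) ^ (NE n - K.card - 1)) +
              ∫ p in Q..1, p ^ K.card * (1 - p) ^ (NE n - K.card - 1)) *
            (((Reg n d ∅).card : ℝ) / ((Reg n d K).card : ℝ)) := by ring
        _ ≤ _ := by linarith

end Pool.Agent.HC
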