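import Pool.Agent.Lib.MP_ec42c8_pr.F01

/-!
# KDefs : definitions for the planting lemma (part K)
-/

set_option autoImplicit false

namespace Pool.Agent.HC

open Finset
open scoped Classical

/-- `∏ over j < k of (d n - 2 j - 1)`: the number of ways to pair `2 k` given points one after the
other. -/
noncomputable def Lk (d n k : ℕ) : ℝ := ∏ j ∈ Finset.range k, ((d : ℝ) * n - 2 * j - 1)

/-- The weight of a graph. -/
noncomputable def wK {n : ℕ} (d : ℕ) (K : Gr n) : ℝ :=
  ∏ v, (1 / ((Nat.descFactorial d (deg K v) : ℕ) : ℝ))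

/-- The number of vertices of degree `d`. -/
noncomputable def ndK {n : ℕ} (d : ℕ) (K : Gr n) : ℕ :=
  (Finset.univ.filter (fun v => deg K v = d)).card

/-- The number of pairs outside `K` whose addition creates a degree larger than `d`. -/
noncomputable def bK {n : ℕ} (d : ℕ) (K : Gr n) : ℕ :=
  (Finset.univ.filter (fun e => e ∉ K ∧ ∃ v, d < deg (insert e K) v)).card

/-- The generating function of the weighted subgraphs of `H`. -/
noncomputable def Zl {n : ℕ} (d : ℕ) (lam : ℝ) (H : Gr n) : ℝ :=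
  ∑ K ∈ H.powerset, lam ^ K.card * (ndK d K : ℝ) * wK d K

/-- Partial sums of the exponential series. -/
noncomputable def Ed (d : ℕ) (y : ℝ) : ℝ := ∑ j ∈ Finset.range (d + 1), y ^ j / (j.factorial : ℝ)

/-- The number of `true` values. -/
noncomputable def sz {d : ℕ} (x : Fin d → Bool) : ℕ :=
  (Finset.univ.filter (fun i => x i = true)).card

/-- The assignment `x` of truth values to the points is constant on the pairs of `π`. -/
def InvP {n d : ℕ} (π : Pairing (Fin n × Fin d)) (x : Fin n → Fin d → Bool) : Prop :=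
  ∀ p : Fin n × Fin d, x (π.1 p).1 (π.1 p).2 = x p.1 p.2

/-- The generating function of the weighted sets of pairs of a pairing. -/
noncomputable def ZP {n d : ℕ} (mu : ℝ) (π : Pairing (Fin n × Fin d)) : ℝ :=
  ∑ x ∈ Finset.univ.filter (fun x : Fin n → Fin d → Bool => InvP π x),
    ((Finset.univ.filter (fun v => sz (x v) = d)).card : ℝ) *
      ∏ v, mu ^ sz (x v) / ((Nat.descFactorial d (sz (x v)) : ℕ) : ℝ)

/-- The rotation of the gauge transformation. -/
noncomputable def Bm (m : ℝ) (c x : Bool) : ℝ :=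
  (if c then (if x then 1 else -m) else (if x then m else 1)) / Real.sqrt (1 + m ^ 2)

/-- The transform of a function of the points of one vertex. -/
noncomputable def hat {d : ℕ} (m : ℝ) (f : (Fin d → Bool) → ℝ) (c : Fin d → Bool) : ℝ :=
  ∑ x, f x * ∏ i, Bm m (c i) (x i)

/-- The vertex weight. -/
noncomputable def fmu {d : ℕ} (mu : ℝ) (x : Fin d → Bool) : ℝ :=
  mu ^ sz x / ((Nat.descFactorial d (sz x) : ℕ) : ℝ)

/-- The weight of a vertex all of whose points are used. -/
noncomputable def gmu {d : ℕ} (mu : ℝ) (x : Fin d → Bool) : ℝ :=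
  if sz x = d then mu ^ d / (d.factorial : ℝ) else 0

/-- The parameter of the intermediate probability. -/
noncomputable def ell (d n : ℕ) (p : ℝ) : ℝ := (d : ℝ) * n - 2 * (NE n : ℝ) * p

/-- The constant of the exponential majorant of `Lk`. -/
noncomputable def Cp (d n : ℕ) (p : ℝ) : ℝ :=
  (Finset.range (d * n / 2 + 1)).sup' (by simp) (fun k => Lk d n k / ell d n p ^ k)

/-- The quotient of the majorant and `Lk`. -/
noncomputable def rho (d n : ℕ) (p : ℝ) (k : ℕ) : ℝ := Cp d n p * ell d n p ^ k / Lk d n k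

/-- Binomial weights. -/
noncomputable def bin (N : ℕ) (p : ℝ) (j : ℕ) : ℝ := (N.choose j : ℝ) * p ^ j * (1 - p) ^ (N - j)

/-- The factor `k! (N-k-1)! / N!`. -/
noncomputable def bet (N k : ℕ) : ℝ :=
  ((k.factorial * (N - k - 1).factorial : ℕ) : ℝ) / (N.factorial : ℝ)

/-- The comparison density. -/
noncomputable def D2 {n : ℕ} (d : ℕ) (γ : ℝ) (H : Gr n) : ℝ :=
  ∫ p in ((n : ℝ) ^ (-(5 : ℝ) / 3))..((n : ℝ) ^ (-1 - γ)),
    (n : ℝ) * (1 - p) ^ (NE n - 1) * Cp d n p * Zl d (p * ell d n p / (1 - p)) H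

/-- The density of the planted regular graph. -/
noncomputable def Dd {n : ℕ} (d : ℕ) (H : Gr n) : ℝ :=
  ∑ K ∈ H.powerset, (bK d K : ℝ) * bet (NE n) K.card *
    (((Reg n d ∅).card : ℝ) / ((Reg n d K).card : ℝ))

end Pool.Agent.HC
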