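import Pool.Agent.Lib.MP_ec42c8_pr.K20
import Pool.Agent.Lib.MP_ec42c8_pr.K21

/-!
# KL : planting the last graph of maximum degree at most d

PROOF.  Choose `γ` with `1/(d+2) < γ < 1/(d+1)`.  By `K21a` the difference is
`|avOn (Reg n d ∅) (Φ (Dd - 1))| ≤ avOn |Dd - 1| = (1 - avOn Dd) + 2 avOn (Dd - 1)⁺`.
(i) `avOn Dd = pr (Reg n d (KK d σ) is nonempty)` (`K21a` with `Φ = 1`), at least `1 - ε/4`: if
`card (KK d σ) ≤ aW γ' n` (`K03`, any `γ'` with `γ' (d+1) < 1`) then `8 card ≤ n`, so `PS d (KK d σ) > 0`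
(`P04`, `deg_KK_le`) and `Reg n d (KK d σ)` is nonempty (`P03b`).
(ii) By `K21b`, `K20`, `K19`, with a small `δ`:
` (Dd - 1)⁺ ≤ ((1+δ) D2 - 1)⁺ + Db`, and `avOn ((1+δ) D2 - 1)⁺ ≤ (1+δ) avOn |D2 - avOn D2| + ((1+δ) avOn D2 - 1)⁺
≤ (1+δ) δ + (1+δ)² - 1`.
-/

set_option autoImplicit false

namespace Pool.Agent.HC

open Finset
open scoped Classical

private lemma kl_reg_nonempty {n d : ℕ} (F : Gr n) (hF : ∀ v, deg F v ≤ d) (h : 0 < PS d F) :
    (Reg n d F).Nonempty := by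
  by_contra hcon
  have h1 : ∀ π : Pairing (Pt d F), ¬ Simp F π := fun π hπ => hcon ⟨_, P03b F hF π hπ⟩
  have h2 : PS d F = 0 := by
    unfold PS
    rw [pr_congr (Q := fun _ => False) (fun π => ⟨fun h => h1 π h, fun h => h.elim⟩), pr_false]
  linarith

theorem KL (d : ℕ) (hd : 1 ≤ d) (ε : ℝ) (hε : 0 < ε) : ∃ n₀ : ℕ, ∀ n ≥ n₀, Even (d * n) →
    ∀ Φ : Gr n → ℝ, Unit01 Φ →
      |av (fun σ : Ord n => avOn (Reg n d (KK d σ)) Φ) - avOn (Reg n d ∅) Φ| ≤ ε := by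
  have hd1 : (1 : ℝ) ≤ d := by exact_mod_cast hd
  set γ : ℝ := (2 * d + 3) / (2 * (d + 1) * (d + 2)) with hγd
  have hγ : 1 < γ * (d + 2) := by
    rw [hγd, div_mul_eq_mul_div, lt_div_iff₀ (by positivity)]
    nlinarith
  have hγ' : γ * (d + 1) < 1 := by
    rw [hγd, div_mul_eq_mul_div, div_lt_iff₀ (by positivity)]
    nlinarith
  have hγ0 : 0 < γ := by rw [hγd]; positivity
  set δ : ℝ := min 1 (ε / 16) with hδ
  have hδ0 : 0 < δ := lt_min one_pos (by positivity)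
  have hδ1 : δ ≤ 1 := min_le_left _ _
  have hδ2 : δ ≤ ε / 16 := min_le_right _ _
  obtain ⟨c, n₁, hc, hP04⟩ := P04 d hd
  obtain ⟨n₂, hK03⟩ := K03 d hd γ (ε / 4) hγ0 hγ' (by positivity)
  obtain ⟨n₃, hK21⟩ := K21b d hd γ δ hγ hγ' hδ0
  obtain ⟨n₄, hK20⟩ := K20 d hd γ δ hγ hγ' hδ0
  obtain ⟨n₅, hK19⟩ := K19 d hd γ δ hγ hγ' hδ0
  have T1 : Filter.Tendsto (fun n : ℕ => (n : ℝ) ^ (-γ)) Filter.atTop (nhds 0) :=
    (tendsto_rpow_neg_atTop hγ0).comp tendsto_natCast_atTop_atTop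
  obtain ⟨n₆, hn₆⟩ := Filter.eventually_atTop.1
    (T1.eventually (gt_mem_nhds (by norm_num : (0 : ℝ) < 1 / 16)))
  refine ⟨n₁ + n₂ + n₃ + n₄ + n₅ + n₆ + 16 + d, fun n hn heven Φ hΦ => ?_⟩
  have hn1 : n₁ ≤ n := by omega
  have hn2 : n₂ ≤ n := by omega
  have hn3 : n₃ ≤ n := by omega
  have hn4 : n₄ ≤ n := by omega
  have hn5 : n₅ ≤ n := by omega
  have hn6 : n₆ ≤ n := by omega
  have hn16 : 16 ≤ n := by omega
  have hnd : d + 2 ≤ n := by omega
  set R := Reg n d ∅ with hR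
  -- the empty graph can be completed
  have hRne : R.Nonempty := by
    refine kl_reg_nonempty ∅ (fun v => by simp [deg]) ?_
    exact lt_of_lt_of_le hc (hP04 n hn1 heven ∅ (fun v => by simp [deg]) (by simp))
  have hn16' : (16 : ℝ) ≤ n := by exact_mod_cast hn16
  have haW : 8 * (aW γ n : ℝ) ≤ n := by
    have h1 : (aW γ n : ℝ) < (n : ℝ) ^ (1 - γ) + 1 :=
      Nat.ceil_lt_add_one (Real.rpow_nonneg (Nat.cast_nonneg _) _)
    have h2 : (n : ℝ) ^ (1 - γ) = n * (n : ℝ) ^ (-γ) := by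
      nth_rewrite 2 [← Real.rpow_one (n : ℝ)]
      rw [← Real.rpow_add (by linarith)]
      congr 1
    have h3 : (n : ℝ) * (n : ℝ) ^ (-γ) ≤ n * (1 / 16) := by
      gcongr; exact (hn₆ n hn6).le
    linarith
  -- (i)
  have hDd : 1 - ε / 4 ≤ avOn R (Dd d) := by
    have h1 := K21a (n := n) d hnd (fun _ => 1)
    have h2 : avOn (Reg n d ∅) (fun H => (1 : ℝ) * Dd d H) = avOn R (Dd d) := by
      refine avOn_congr fun H _ => one_mul _
    rw [h2] at h1
    rw [← h1]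
    have : Nonempty (Ord n) := ⟨(Fintype.equivFin (Edge n)).symm⟩
    have h3 : pr (fun σ : Ord n => ¬ (aW γ n < (KK d σ).card)) = 1 -
        pr (fun σ : Ord n => aW γ n < (KK d σ).card) := pr_not _
    have h4 := hK03 n hn2
    have h5 : pr (fun σ : Ord n => ¬ (aW γ n < (KK d σ).card)) ≤
        av (fun σ : Ord n => avOn (Reg n d (KK d σ)) (fun _ => (1 : ℝ))) := by
      refine av_mono fun σ => ?_
      split_ifs with hσ
      · have hcard : (KK d σ).card ≤ aW γ n := not_lt.1 hσ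
        have h6 : 8 * (KK d σ).card ≤ n := by
          have h7 : ((KK d σ).card : ℝ) ≤ aW γ n := by exact_mod_cast hcard
          have h8 : 8 * ((KK d σ).card : ℝ) ≤ n := by linarith
          exact_mod_cast h8
        have h9 := hP04 n hn1 heven (KK d σ) (deg_KK_le d σ) h6
        have h10 := kl_reg_nonempty (KK d σ) (deg_KK_le d σ) (lt_of_lt_of_le hc h9)
        rw [avOn_const h10]
      · exact avOn_nonneg fun _ _ => zero_le_one
    linarith
  -- (ii)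
  obtain ⟨Db, hDb0, hDb1, hDb2⟩ := hK21 n hn3 heven
  have h20 := hK20 n hn4 heven
  have h19 := hK19 n hn5 heven
  set m : ℝ := avOn R (fun H => D2 d γ H) with hm
  have hpos : ∀ H ∈ R, |Dd d H - 1| ≤
      (1 - Dd d H) + 2 * ((1 + δ) * |D2 d γ H - m| + ((1 + δ) ^ 2 - 1) + Db H) := by
    intro H hH
    have a1 := hDb2 H hH
    have a2 : 0 ≤ (1 + δ) ^ 2 - 1 := by nlinarith
    have a3 : 0 ≤ (1 + δ) * |D2 d γ H - m| := by positivity
    have a4 := hDb0 H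
    have a5 : D2 d γ H ≤ m + |D2 d γ H - m| := by linarith [le_abs_self (D2 d γ H - m)]
    have a6 : (1 + δ) * D2 d γ H ≤ (1 + δ) * (m + |D2 d γ H - m|) := by gcongr
    have a7 : (1 + δ) * m ≤ (1 + δ) * (1 + δ) := by gcongr
    rcases le_total (Dd d H) 1 with h1 | h1
    · rw [abs_of_nonpos (by linarith)]
      linarith
    · rw [abs_of_nonneg (by linarith)]
      nlinarith
  have hmain : avOn R (fun H => |Dd d H - 1|) ≤ ε := by
    refine (avOn_mono hpos).trans ?_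
    have b1 : avOn R (fun H => (1 - Dd d H) + 2 * ((1 + δ) * |D2 d γ H - m| +
        ((1 + δ) ^ 2 - 1) + Db H)) =
        (1 - avOn R (Dd d)) + 2 * ((1 + δ) * avOn R (fun H => |D2 d γ H - m|) +
          ((1 + δ) ^ 2 - 1) + avOn R Db) := by
      rw [avOn_add, avOn_sub, avOn_const hRne, avOn_mul_left, avOn_add, avOn_add, avOn_mul_left,
        avOn_const hRne]
    rw [b1]
    have b2 : (1 + δ) * avOn R (fun H => |D2 d γ H - m|) ≤ (1 + δ) * δ := by gcongr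
    nlinarith
  -- conclusion
  rw [K21a d hnd Φ, ← avOn_sub]
  refine (abs_avOn_le _ _).trans (le_trans (avOn_mono fun H _ => ?_) hmain)
  have : Φ H * Dd d H - Φ H = Φ H * (Dd d H - 1) := by ring
  rw [this, abs_mul]
  have h1 : |Φ H| ≤ 1 := by rw [abs_le]; constructor <;> linarith [(hΦ H).1, (hΦ H).2]
  calc |Φ H| * |Dd d H - 1| ≤ 1 * |Dd d H - 1| := by gcongr
    _ = |Dd d H - 1| := one_mul _

end Pool.Agent.HC
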