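import Pool.Agent.Lib.MP_ec42c8_pr.F01

/-!
# O01 : the ordering given by an injective rank

Everything follows from: `r e < r e' ↔ posOf r e < posOf r e'` for injective `r` (the set
`{e'' | r e'' < r e}` is a proper subset of `{e'' | r e'' < r e'}` iff `r e < r e'`), so the map
`e ↦ posOf r e` is an injection, hence a bijection, from `Edge n` to `Fin (NE n)`.
For the last lemma: `{e | posOf r e < i}` with `i = card {e | r e < T}`; if `r e < T` then
`{e' | r e' < r e}` is a proper subset of `{e' | r e' < T}`; if `T ≤ r e` then it contains it.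
-/

set_option autoImplicit false

namespace Pool.Agent.HC

open Finset
open scoped Classical

lemma posOf_lt_iff {n : ℕ} (r : Edge n → ℕ) (hr : Function.Injective r) (e e' : Edge n) :
    posOf r e < posOf r e' ↔ r e < r e' := by
  have key : ∀ a b : Edge n, r a < r b → posOf r a < posOf r b := by
    intro a b hab
    unfold posOf
    apply Finset.card_lt_card
    rw [Finset.ssubset_iff_of_subset]
    · exact ⟨a, by simp [hab], by simp⟩
    · intro x hx
      simp only [Finset.mem_filter, Finset.mem_univ, true_and] at hx ⊢
      omega
  constructor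
  · intro h
    by_contra hc
    rcases Nat.lt_or_eq_of_le (not_lt.1 hc) with h1 | h1
    · have := key _ _ h1
      omega
    · have := hr h1
      subst this
      exact lt_irrefl _ h
  · exact key e e'

lemma o01_posOf_injective {n : ℕ} (r : Edge n → ℕ) (hr : Function.Injective r) :
    Function.Injective (posOf r) := by
  intro e e' h
  apply hr
  by_contra hc
  rcases Nat.lt_or_gt_of_ne hc with h1 | h1
  · have := (posOf_lt_iff r hr e e').2 h1
    omega
  · have := (posOf_lt_iff r hr e' e).2 h1
    omega

lemma o01_posOf_lt {n : ℕ} (r : Edge n → ℕ) (e : Edge n) : posOf r e < NE n := by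
  have h1 : (Finset.univ.filter (fun e' : Edge n => r e' < r e)) ⊂ Finset.univ := by
    refine Finset.filter_ssubset.2 ⟨e, Finset.mem_univ _, lt_irrefl _⟩
  have h2 := Finset.card_lt_card h1
  rw [Finset.card_univ] at h2
  exact h2

lemma ordOf_symm {n : ℕ} (r : Edge n → ℕ) (hr : Function.Injective r) (e : Edge n) :
    ((ordOf r).symm e : ℕ) = posOf r e := by
  have hb : Function.Bijective (fun e : Edge n =>
      (⟨posOf r e, o01_posOf_lt r e⟩ : Fin (NE n))) := by
    rw [Fintype.bijective_iff_injective_and_card]
    refine ⟨fun a b h => o01_posOf_injective r hr ?_, by simp⟩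
    simpa using h
  unfold ordOf
  rw [dif_pos hb]
  simp

lemma mem_proc_ordOf {n : ℕ} (r : Edge n → ℕ) (hr : Function.Injective r) (i : ℕ) (e : Edge n) :
    e ∈ proc (ordOf r) i ↔ posOf r e < i := by
  unfold proc
  rw [Finset.mem_filter, ordOf_symm r hr]
  simp

lemma posOf_comp {n : ℕ} (r : Edge n → ℕ) (τ : Edge n ≃ Edge n) (e : Edge n) :
    posOf (fun e => r (τ e)) e = posOf r (τ e) := by
  unfold posOf
  rw [← Finset.card_map τ.toEmbedding]
  congr 1
  ext x
  simp only [Finset.mem_map, Finset.mem_filter, Finset.mem_univ, true_and, Equiv.coe_toEmbedding]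
  constructor
  · rintro ⟨y, hy, rfl⟩
    exact hy
  · intro hx
    exact ⟨τ.symm x, by simpa using hx, by simp⟩

lemma ordOf_comp {n : ℕ} (r : Edge n → ℕ) (hr : Function.Injective r) (τ : Edge n ≃ Edge n) :
    ordOf (fun e => r (τ e)) = (ordOf r).trans τ.symm := by
  have hr' : Function.Injective (fun e => r (τ e)) := hr.comp τ.injective
  have h : (ordOf (fun e => r (τ e))).symm = ((ordOf r).trans τ.symm).symm := by
    ext e
    rw [ordOf_symm _ hr', posOf_comp]
    simp only [Equiv.symm_trans_apply, Equiv.symm_symm]
    rw [ordOf_symm r hr]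
  have h2 := congrArg Equiv.symm h
  simpa using h2

lemma proc_ordOf_card {n : ℕ} (r : Edge n → ℕ) (hr : Function.Injective r) (T : ℕ) :
    proc (ordOf r) (Finset.univ.filter (fun e : Edge n => r e < T)).card =
      Finset.univ.filter (fun e : Edge n => r e < T) := by
  ext e
  rw [mem_proc_ordOf r hr]
  simp only [Finset.mem_filter, Finset.mem_univ, true_and]
  constructor
  · intro h
    by_contra hc
    have : (Finset.univ.filter (fun e : Edge n => r e < T)).card ≤ posOf r e := by
      unfold posOf
      apply Finset.card_le_card
      intro x hx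
      simp only [Finset.mem_filter, Finset.mem_univ, true_and] at hx ⊢
      omega
    omega
  · intro h
    unfold posOf
    apply Finset.card_lt_card
    rw [Finset.ssubset_iff_of_subset]
    · exact ⟨e, by simp [h], by simp⟩
    · intro x hx
      simp only [Finset.mem_filter, Finset.mem_univ, true_and] at hx ⊢
      omega

end Pool.Agent.HC
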