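import Pool.Agent.Lib.MP_ec42c8_pr.F01

/-!
# W01 : the window is a uniformly random array

PROOF.  An array is a pair of a tail function and a head function (`av_equiv`, `av_prod`), so it
is enough to show, for fixed `u` and every `Ψ`, that the average over `w, y, h` of
`Ψ (fun t => hd u w y h t)` is the average of `Ψ` over all functions `Fin m → Fin n`.  Put
`ι := Fin m ⊕ (Fin m ⊕ (Fin n × Fin (k + 2)))`; the triples ` (w, y, h)` correspond to the functions
`x : ι → Fin n`.  `hd u w y h t = x (c t)` with `c t = inr (inr (u t, cnt u t))` in the first case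
of `hd`, `inl t` in the second case, `inr (inl t)` in the third.  `c` is injective: two times with
the same tail have different `cnt` (if `t < t'` and `u t = u t'` then `cnt u t < cnt u t'`).  Use
`av_restrict`.
-/

set_option autoImplicit false

namespace Pool.Agent.HC

open Finset
open scoped Classical

lemma w01_cnt_lt {n m : ℕ} (u : Fin m → Fin n) (t t' : Fin m) (h : t < t') (h' : u t = u t') :
    cnt u t < cnt u t' := by
  unfold cnt
  refine Finset.card_lt_card ?_
  rw [Finset.ssubset_iff_of_subset]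
  · refine ⟨t, ?_, ?_⟩
    · simp [h, h']
    · simp
  · intro x hx
    simp only [Finset.mem_filter, Finset.mem_univ, true_and] at hx ⊢
    exact ⟨hx.1.trans h, hx.2.trans h'⟩

/-- the coordinate used at time `t` -/
noncomputable def w01_c {n m : ℕ} (k : ℕ) (u : Fin m → Fin n) (t : Fin m) :
    Fin m ⊕ (Fin m ⊕ (Fin n × Fin (k + 2))) :=
  if H : k + 2 ≤ tot u (u t) ∧ cnt u t < k + 2 then Sum.inr (Sum.inr (u t, ⟨cnt u t, H.2⟩))
  else if k + 2 ≤ cnt u t then Sum.inl t else Sum.inr (Sum.inl t)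

lemma w01_c_inj {n m : ℕ} (k : ℕ) (u : Fin m → Fin n) : Function.Injective (w01_c k u) := by
  intro t t' h
  unfold w01_c at h
  split_ifs at h with h1 h2 h3 h4 h5 h6 h7
  · simp only [Sum.inr.injEq, Prod.mk.injEq, Fin.mk.injEq] at h
    rcases lt_trichotomy t t' with h8 | h8 | h8
    · exact absurd h.2 (w01_cnt_lt u t t' h8 h.1).ne
    · exact h8
    · exact absurd h.2 (w01_cnt_lt u t' t h8 h.1.symm).ne'
  all_goals first | (simp at h; done) | (simpa using h)

/-- functions on the index set are triples -/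
def w01_e (n m k : ℕ) : ((Fin m ⊕ (Fin m ⊕ (Fin n × Fin (k + 2)))) → Fin n) ≃
    (Fin m → Fin n) × ((Fin m → Fin n) × (Fin n → Fin (k + 2) → Fin n)) :=
  (Equiv.sumArrowEquivProdArrow _ _ _).trans
    (Equiv.prodCongr (Equiv.refl _) ((Equiv.sumArrowEquivProdArrow _ _ _).trans
      (Equiv.prodCongr (Equiv.refl _) (Equiv.curry _ _ _))))

lemma w01_inst {Ω : Type*} (i1 i2 : Fintype Ω) (f : Ω → ℝ) : @av Ω i1 f = @av Ω i2 f := by
  rw [Subsingleton.elim i1 i2]

lemma w01_fix {n : ℕ} (hn : 1 ≤ n) (k m : ℕ) (u : Fin m → Fin n)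
    (Ψ : (Fin m → Fin n × Fin n) → ℝ) :
    av (fun w : Fin m → Fin n => av (fun y : Fin m → Fin n =>
      av (fun h : Fin n → Fin (k + 2) → Fin n => Ψ (BB u w y h)))) =
    av (fun x : Fin m → Fin n => Ψ (fun t => (u t, x t))) := by
  have : Nonempty (Fin n) := ⟨⟨0, hn⟩⟩
  have h1 : av (fun w : Fin m → Fin n => av (fun y : Fin m → Fin n =>
      av (fun h : Fin n → Fin (k + 2) → Fin n => Ψ (BB u w y h)))) =
      av (fun p : (Fin m → Fin n) × ((Fin m → Fin n) × (Fin n → Fin (k + 2) → Fin n)) =>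
        Ψ (BB u p.1 p.2.1 p.2.2)) := by
    rw [av_prod]
    refine av_congr fun w => ?_
    rw [av_prod]
  have h2 := av_restrict (α := Fin n) (w01_c k u) (w01_c_inj k u)
    (fun g : Fin m → Fin n => Ψ (fun t => (u t, g t)))
  have h3 : av (fun x : (Fin m ⊕ (Fin m ⊕ (Fin n × Fin (k + 2)))) → Fin n =>
      Ψ (fun t => (u t, x (w01_c k u t)))) =
      av (fun x : Fin m → Fin n => Ψ (fun t => (u t, x t))) :=
    (w01_inst _ _ _).trans (h2.trans (w01_inst _ _ _))
  rw [h1, ← av_equiv (w01_e n m k)]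
  refine Eq.trans ?_ h3
  refine av_congr fun x => ?_
  congr 1
  funext t
  refine Prod.ext rfl ?_
  show hd u _ _ _ t = x (w01_c k u t)
  unfold hd w01_c
  split_ifs <;> rfl

theorem W01 {n : ℕ} (hn : 1 ≤ n) (k m : ℕ) (Ψ : (Fin m → Fin n × Fin n) → ℝ) :
    av (fun u : Fin m → Fin n => av (fun w : Fin m → Fin n => av (fun y : Fin m → Fin n =>
      av (fun h : Fin n → Fin (k + 2) → Fin n => Ψ (BB u w y h))))) = av Ψ := by
  have h1 : av Ψ = av (fun p : (Fin m → Fin n) × (Fin m → Fin n) =>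
      Ψ (fun t => (p.1 t, p.2 t))) := by
    rw [← av_equiv (Equiv.arrowProdEquivProdArrow (Fin m) (fun _ => Fin n) (fun _ => Fin n))]
    rfl
  rw [h1, av_prod]
  refine av_congr fun u => ?_
  exact w01_fix hn k m u Ψ

end Pool.Agent.HC
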