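import Pool.Agent.Lib.MP_ec42c8_pr.O03
import Pool.Agent.Lib.MP_ec42c8_pr.W01

/-!
# O04 : the process built from the initial array and the relabelled window is uniformly random

PROOF.  Fix `g`.  `relB g` is a bijection of the arrays and `ρ ↦ (relE g).symm.trans ρ` a bijection of
the end orderings.  By `W01`, applied to `Ψ B = av over ρ of Φ (ordOf (rk (app A (relB g B)) ρ))`,
and `av_equiv`, the left side is the average over `A`, `B`, `ρ` of `Φ (ordOf (rk (app A B) ρ))`.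
` (A, B) ↦ app A B` is a bijection onto the arrays of length `a + m` (`Fin.appendEquiv`); use `O03`.
The average over `WΩ n k m` is an iterated average by `av_prod`.
-/

set_option autoImplicit false

namespace Pool.Agent.HC

open Finset
open scoped Classical

/-- `relB g` as a bijection -/
def o04_relB {n : ℕ} (m : ℕ) (g : Equiv.Perm (Fin n)) :
    (Fin m → Fin n × Fin n) ≃ (Fin m → Fin n × Fin n) :=
  Equiv.arrowCongr (Equiv.refl (Fin m)) (Equiv.prodCongr g g)

lemma o04_relB_apply {n : ℕ} (m : ℕ) (g : Equiv.Perm (Fin n)) (B : Fin m → Fin n × Fin n) :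
    o04_relB m g B = relB g B := rfl

lemma o04_app {n : ℕ} (a m : ℕ) (Ψ : (Fin (a + m) → Fin n × Fin n) → ℝ) :
    av (fun A : Fin a → Fin n × Fin n => av (fun B : Fin m → Fin n × Fin n => Ψ (app A B))) =
      av Ψ := by
  rw [← av_equiv (Fin.appendEquiv a m) Ψ, av_prod]
  rfl

lemma o04_win {n : ℕ} (hn : 1 ≤ n) (k m : ℕ) (g : Equiv.Perm (Fin n))
    (Θ : (Fin m → Fin n × Fin n) → (Edge n ≃ Fin (NE n)) → ℝ) :
    av (fun ω : WΩ n k m =>
      Θ (relB g (BB ω.1 ω.2.1 ω.2.2.1 ω.2.2.2.1)) ((relE g).symm.trans ω.2.2.2.2)) =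
    av (fun B : Fin m → Fin n × Fin n => av (fun ρ : Edge n ≃ Fin (NE n) => Θ B ρ)) := by
  rw [av_prod]
  have h1 : ∀ u : Fin m → Fin n, av (fun b : (Fin m → Fin n) × (Fin m → Fin n) ×
      (Fin n → Fin (k + 2) → Fin n) × (Edge n ≃ Fin (NE n)) =>
      Θ (relB g (BB u b.1 b.2.1 b.2.2.1)) ((relE g).symm.trans b.2.2.2)) =
      av (fun w : Fin m → Fin n => av (fun y : Fin m → Fin n =>
        av (fun h : Fin n → Fin (k + 2) → Fin n =>
          av (fun ρ : Edge n ≃ Fin (NE n) => Θ (relB g (BB u w y h)) ρ)))) := by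
    intro u
    rw [av_prod]
    refine av_congr fun w => ?_
    rw [av_prod]
    refine av_congr fun y => ?_
    rw [av_prod]
    refine av_congr fun h => ?_
    exact av_equiv (Equiv.equivCongr (relE g) (Equiv.refl (Fin (NE n))))
      (fun ρ => Θ (relB g (BB u w y h)) ρ)
  refine (av_congr h1).trans ?_
  refine (W01 hn k m (fun B => av (fun ρ : Edge n ≃ Fin (NE n) => Θ (relB g B) ρ))).trans ?_
  exact av_equiv (o04_relB m g)
    (fun B : Fin m → Fin n × Fin n => av (fun ρ : Edge n ≃ Fin (NE n) => Θ B ρ))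

theorem O04 {n : ℕ} (hn : 1 ≤ n) (a k m : ℕ) (g : Equiv.Perm (Fin n)) (Φ : Ord n → ℝ) :
    av (fun A : Fin a → Fin n × Fin n => av (fun ω : WΩ n k m =>
      Φ (ordOf (rk (app A (relB g (BB ω.1 ω.2.1 ω.2.2.1 ω.2.2.2.1)))
        ((relE g).symm.trans ω.2.2.2.2))))) = av Φ := by
  have h1 : ∀ A : Fin a → Fin n × Fin n, av (fun ω : WΩ n k m =>
      Φ (ordOf (rk (app A (relB g (BB ω.1 ω.2.1 ω.2.2.1 ω.2.2.2.1)))
        ((relE g).symm.trans ω.2.2.2.2)))) =
      av (fun B : Fin m → Fin n × Fin n => av (fun ρ : Edge n ≃ Fin (NE n) =>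
        Φ (ordOf (rk (app A B) ρ)))) :=
    fun A => o04_win hn k m g (fun B ρ => Φ (ordOf (rk (app A B) ρ)))
  rw [av_congr h1]
  refine (o04_app a m (fun C => av (fun ρ : Edge n ≃ Fin (NE n) =>
    Φ (ordOf (rk C ρ))))).trans ?_
  exact O03 hn (a + m) Φ

/-- The same for the array alone. -/
theorem O04b {n : ℕ} (hn : 1 ≤ n) (a k m : ℕ) (g : Equiv.Perm (Fin n))
    (Ψ : (Fin (a + m) → Fin n × Fin n) → ℝ) :
    av (fun A : Fin a → Fin n × Fin n => av (fun ω : WΩ n k m =>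
      Ψ (app A (relB g (BB ω.1 ω.2.1 ω.2.2.1 ω.2.2.2.1))))) = av Ψ := by
  have hρ : Nonempty (Edge n ≃ Fin (NE n)) := ⟨Fintype.equivFin (Edge n)⟩
  have h1 : ∀ A : Fin a → Fin n × Fin n, av (fun ω : WΩ n k m =>
      Ψ (app A (relB g (BB ω.1 ω.2.1 ω.2.2.1 ω.2.2.2.1)))) =
      av (fun B : Fin m → Fin n × Fin n => Ψ (app A B)) := by
    intro A
    refine (o04_win hn k m g (fun B _ => Ψ (app A B))).trans ?_
    exact av_congr fun B => av_const _
  rw [av_congr h1]
  exact o04_app a m Ψ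

end Pool.Agent.HC
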