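import Pool.Agent.Lib.MP_ec42c8_pr.O05

/-!
# O06 : the containment

PROOF.  Let `r = rk (app A B) ρ`, `σ = ordOf r`, `K = KK d σ`.  First implication: `proc σ i ⊆ K ⊆ H` by
`proc_subset_KK`.  Second: suppose all degrees of `proc σ i` are at least `d ≥ 1`; let `e ∈ H`.
(1) All edges of `bedges A ∪ bedges B` have rank `< a + m`; with `J = card {e | r e < a + m}`,
`proc σ J = bedges A ∪ bedges B` (`proc_ordOf_card`, `rk_lt_iff`, `bedges_app`) has an isolated vertex
(`h2`), so `i > J` (monotonicity) and `bedges A ∪ bedges B ⊆ proc σ i`.  This settles `e ∈ bedges B`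
and `e ∈ K`, since `K ⊆ bedges A` by `O05`.
(2) Let `e = s(z, x)`, `z ∈ L`, `x ∈ St d (rk B ρ) z`.  By `h3` no edge of `bedges A` contains `z`, so
`r = a + rk B ρ` on the edges at `z`.  If `e ∉ proc σ i`, then (as `proc σ i = {e | posOf r e < i}`) all
edges of `proc σ i` at `z` have rank smaller than `e`, so `deg (proc σ i) z` is at most the number of
`y` with `rk B ρ (zy) < rk B ρ (zx)`, which is `< d`: contradiction.
-/

set_option autoImplicit false

namespace Pool.Agent.HC

open Finset
open scoped Classical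

theorem O06 {n a m : ℕ} (d : ℕ) (hd : 1 ≤ d) (A : Fin a → Fin n × Fin n)
    (B : Fin m → Fin n × Fin n) (ρ : Edge n ≃ Fin (NE n)) (L : Finset (Fin n)) (H : Gr n)
    (h1 : ∃ v, d < deg (bedges A) v)
    (h2 : ∃ v, deg (bedges A) v = 0 ∧ deg (bedges B) v = 0)
    (h3 : ∀ e ∈ bedges A, ∀ z ∈ L, z ∉ e.1)
    (hH1 : KK d (ordOf (rk (app A B) ρ)) ⊆ H)
    (hH2 : H ⊆ KK d (ordOf (rk (app A B) ρ)) ∪ SS d (rk B ρ) L ∪ bedges B) :
    Fits d (ordOf (rk (app A B) ρ)) H := by
  set r := rk (app A B) ρ with hr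
  have hinj : Function.Injective r := rk_injective _ _
  intro i
  refine ⟨fun hle e he => hH1 (proc_subset_KK d _ i hle he), fun hge e he => ?_⟩
  -- the process has seen both arrays
  obtain ⟨J, hJ⟩ : ∃ J, J = (Finset.univ.filter (fun e : Edge n => r e < a + m)).card := ⟨_, rfl⟩
  have hJ1 : proc (ordOf r) J = bedges A ∪ bedges B := by
    rw [hJ, proc_ordOf_card r hinj, ← bedges_app]
    ext e'
    rw [Finset.mem_filter]
    constructor
    · intro h
      exact (rk_lt_iff _ ρ e').1 h.2
    · intro h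
      exact ⟨Finset.mem_univ _, (rk_lt_iff _ ρ e').2 h⟩
  have hiJ : J ≤ i := by
    by_contra hcon
    push Not at hcon
    obtain ⟨v, hv1, hv2⟩ := h2
    have h4 : deg (proc (ordOf r) i) v ≤ deg (proc (ordOf r) J) v :=
      deg_mono (proc_mono _ hcon.le) v
    have h5 : deg (proc (ordOf r) J) v = 0 := by
      rw [hJ1]
      unfold deg at hv1 hv2 ⊢
      rw [Finset.card_eq_zero] at hv1 hv2 ⊢
      rw [Finset.filter_union, hv1, hv2, Finset.empty_union]
    have h6 := hge v
    omega
  have hAB : bedges A ∪ bedges B ⊆ proc (ordOf r) i := by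
    rw [← hJ1]
    exact proc_mono _ hiJ
  have hO := O05 d A B ρ ρ h1
  have he2 := hH2 he
  rw [Finset.mem_union, Finset.mem_union] at he2
  rcases he2 with (he2 | he2) | he2
  · rw [hO.1] at he2
    exact hAB (Finset.mem_union_left _ (hO.2 he2))
  · obtain ⟨z, hz, x, hx, hzx⟩ := (Finset.mem_filter.1 he2).2
    obtain ⟨hne, hcard⟩ := (Finset.mem_filter.1 hx).2
    have hemk : e = mkE z x hne := Subtype.ext hzx
    by_contra hcon
    have hpos : ∀ e' ∈ proc (ordOf r) i, r e' < r e := by
      intro e' he'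
      rw [mem_proc_ordOf r hinj] at he' hcon
      rw [← posOf_lt_iff r hinj]
      omega
    have hrk : ∀ e' : Edge n, z ∈ e'.1 → r e' = a + rk B ρ e' := by
      intro e' hze
      rw [hr, rk_app, if_neg]
      intro hA
      exact h3 e' hA z hz hze
    have hsub : (proc (ordOf r) i).filter (fun e' => z ∈ e'.1) ⊆
        (Finset.univ.filter (fun y => ∃ hy : z ≠ y,
          rk B ρ (mkE z y hy) < rk B ρ (mkE z x hne))).image
          (fun y => if hy : z ≠ y then mkE z y hy else e) := by
      intro e' he'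
      obtain ⟨he1, hze⟩ := Finset.mem_filter.1 he'
      obtain ⟨y, hy⟩ := hze
      have hzy : z ≠ y := by
        rintro rfl
        apply e'.2
        rw [hy]
        exact Sym2.mk_isDiag_iff.2 rfl
      have he'mk : e' = mkE z y hzy := Subtype.ext hy
      refine Finset.mem_image.2 ⟨y, ?_, ?_⟩
      · refine Finset.mem_filter.2 ⟨Finset.mem_univ _, hzy, ?_⟩
        have h5 := hpos e' he1
        rw [hrk e' (by rw [hy]; exact Sym2.mem_mk_left _ _),
          hrk e (by rw [hzx]; exact Sym2.mem_mk_left _ _), hemk, he'mk] at h5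
        omega
      · rw [dif_pos hzy, he'mk]
    have h5 := (Finset.card_le_card hsub).trans Finset.card_image_le
    have h6 := hge z
    unfold deg at h6
    omega
  · exact hAB (Finset.mem_union_right _ he2)

end Pool.Agent.HC
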