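import Pool.Agent.Lib.MP_ec42c8_pr.O02

/-!
# O07 : relabelling

All statements are direct: `relE g` maps `s(x, y)` to `s(g x, g y)`, `relE g (mkE x y h) =
mkE (g x) (g y) _`, and the sets in the definitions are carried to each other.
-/

set_option autoImplicit false

namespace Pool.Agent.HC

open Finset
open scoped Classical

section
variable {n : ℕ} (g g' : Equiv.Perm (Fin n))

lemma relE_mkE (x y : Fin n) (h : x ≠ y) :
    relE g (mkE x y h) = mkE (g x) (g y) (fun h' => h (g.injective h')) := by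
  apply Subtype.ext
  simp [relE, mkE]

lemma relE_val (e : Edge n) : (relE g e).1 = e.1.map g := by
  rfl

lemma o07_relE_mul (e : Edge n) : relE (g * g') e = relE g (relE g' e) := by
  apply Subtype.ext
  rw [relE_val, relE_val, relE_val, Sym2.map_map, Equiv.Perm.coe_mul]

lemma o07_relE_one (e : Edge n) : relE (1 : Equiv.Perm (Fin n)) e = e := by
  apply Subtype.ext
  rw [relE_val, Equiv.Perm.coe_one, Sym2.map_id]
  rfl

lemma mem_relG (H : Gr n) (e : Edge n) : e ∈ relG g H ↔ (relE g).symm e ∈ H := by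
  unfold relG
  rw [Finset.mem_map_equiv]

lemma relE_mem_relG (H : Gr n) (e : Edge n) : relE g e ∈ relG g H ↔ e ∈ H := by
  rw [mem_relG, Equiv.symm_apply_apply]

lemma mem_relV (L : Finset (Fin n)) (v : Fin n) : v ∈ relV g L ↔ g.symm v ∈ L := by
  unfold relV
  rw [Finset.mem_map_equiv]

lemma o07_apply_mem_relV (L : Finset (Fin n)) (v : Fin n) : g v ∈ relV g L ↔ v ∈ L := by
  rw [mem_relV, Equiv.symm_apply_apply]

lemma relG_union (H H' : Gr n) : relG g (H ∪ H') = relG g H ∪ relG g H' := by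
  ext e
  simp only [mem_relG, Finset.mem_union]

lemma relG_subset_iff (H H' : Gr n) : relG g H ⊆ relG g H' ↔ H ⊆ H' := by
  unfold relG
  exact Finset.map_subset_map

lemma relG_mul (H : Gr n) : relG (g * g') H = relG g (relG g' H) := by
  ext e
  obtain ⟨e, rfl⟩ := (relE (g * g')).surjective e
  rw [relE_mem_relG, o07_relE_mul, relE_mem_relG, relE_mem_relG]

lemma relG_one (H : Gr n) : relG (1 : Equiv.Perm (Fin n)) H = H := by
  ext e
  conv_lhs => rw [← o07_relE_one e]
  rw [relE_mem_relG]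

lemma relV_mul (L : Finset (Fin n)) : relV (g * g') L = relV g (relV g' L) := by
  ext v
  obtain ⟨v, rfl⟩ := (g * g').surjective v
  rw [o07_apply_mem_relV, Equiv.Perm.coe_mul, Function.comp_apply, o07_apply_mem_relV,
    o07_apply_mem_relV]

lemma relV_one (L : Finset (Fin n)) : relV (1 : Equiv.Perm (Fin n)) L = L := by
  ext v
  have : v = (1 : Equiv.Perm (Fin n)) v := rfl
  conv_lhs => rw [this]
  rw [o07_apply_mem_relV]

lemma relT_mul {k : ℕ} (θ : Fin n → Fin k → Fin n) : relT (g * g') θ = relT g (relT g' θ) := by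
  rfl

lemma relT_one {k : ℕ} (θ : Fin n → Fin k → Fin n) : relT (1 : Equiv.Perm (Fin n)) θ = θ := by
  rfl

lemma card_relG (H : Gr n) : (relG g H).card = H.card := by
  unfold relG
  exact Finset.card_map _

lemma card_relV (L : Finset (Fin n)) : (relV g L).card = L.card := by
  unfold relV
  exact Finset.card_map _

lemma o07_mem_iff (e : Edge n) (v : Fin n) : g v ∈ (relE g e).1 ↔ v ∈ e.1 := by
  rw [relE_val, Sym2.mem_map]
  constructor
  · rintro ⟨a, ha, h⟩
    rwa [← g.injective h]
  · intro h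
    exact ⟨v, h, rfl⟩

lemma deg_relG (H : Gr n) (v : Fin n) : deg (relG g H) (g v) = deg H v := by
  unfold deg relG
  rw [Finset.filter_map, Finset.card_map]
  congr 1
  ext e
  simp only [Finset.mem_filter, Function.comp_apply, Equiv.coe_toEmbedding]
  rw [o07_mem_iff]

lemma relG_mem_Reg (d : ℕ) (F H : Gr n) : relG g H ∈ Reg n d (relG g F) ↔ H ∈ Reg n d F := by
  unfold Reg
  simp only [Finset.mem_filter, Finset.mem_univ, true_and, relG_subset_iff]
  refine and_congr_right fun _ => ?_
  constructor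
  · intro h v
    rw [← deg_relG g H v]
    exact h _
  · intro h v
    obtain ⟨v, rfl⟩ := g.surjective v
    rw [deg_relG]
    exact h v

lemma relT_mem_Tk {k : ℕ} (L : Finset (Fin n)) (θ : Fin n → Fin k → Fin n) :
    relT g θ ∈ Tk k (relV g L) ↔ θ ∈ Tk k L := by
  unfold Tk relT
  simp only [Finset.mem_filter, Finset.mem_univ, true_and, o07_apply_mem_relV]
  constructor
  · intro h v i
    have := h (g v) i
    rwa [Equiv.symm_apply_apply] at this
  · intro h v i
    exact h _ i

/-- Relabelling of tables as an equivalence. -/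
def o07_relTE (k : ℕ) : (Fin n → Fin k → Fin n) ≃ (Fin n → Fin k → Fin n) where
  toFun := relT g
  invFun := relT g⁻¹
  left_inv θ := by
    rw [← relT_mul, inv_mul_cancel, relT_one]
  right_inv θ := by
    rw [← relT_mul, mul_inv_cancel, relT_one]

/-- Averages over tables of picks are carried to each other. -/
lemma avOn_Tk_relV {k : ℕ} (L : Finset (Fin n)) (Φ : (Fin n → Fin k → Fin n) → ℝ) :
    avOn (Tk k (relV g L)) Φ = avOn (Tk k L) (fun θ => Φ (relT g θ)) := by
  have h : Tk k (relV g L) = (Tk k L).map (o07_relTE g k).toEmbedding := by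
    ext θ
    obtain ⟨θ, rfl⟩ := (o07_relTE g k).surjective θ
    rw [Finset.mem_map_equiv, Equiv.symm_apply_apply]
    exact relT_mem_Tk g L θ
  rw [h, avOn_map]
  rfl

lemma bedges_relB {m : ℕ} (B : Fin m → Fin n × Fin n) : bedges (relB g B) = relG g (bedges B) := by
  ext e
  obtain ⟨e, rfl⟩ := (relE g).surjective e
  rw [relE_mem_relG]
  unfold bedges relB
  simp only [Finset.mem_filter, Finset.mem_univ, true_and]
  refine exists_congr fun t => ?_
  rw [relE_val, ← Sym2.map_mk, (Sym2.map.injective g.injective).eq_iff]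

lemma pk_rel {k : ℕ} (L : Finset (Fin n)) (θ : Fin n → Fin k → Fin n) :
    pk (relV g L) (relT g θ) = relG g (pk L θ) := by
  ext e
  obtain ⟨e, rfl⟩ := (relE g).surjective e
  rw [relE_mem_relG]
  unfold pk relT
  simp only [Finset.mem_filter, Finset.mem_univ, true_and]
  constructor
  · rintro ⟨v, hv, i, h⟩
    obtain ⟨v, rfl⟩ := g.surjective v
    rw [o07_apply_mem_relV] at hv
    rw [Equiv.symm_apply_apply, relE_val, ← Sym2.map_mk,
      (Sym2.map.injective g.injective).eq_iff] at h
    exact ⟨v, hv, i, h⟩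
  · rintro ⟨v, hv, i, h⟩
    refine ⟨g v, ?_, i, ?_⟩
    · rwa [o07_apply_mem_relV]
    · rw [Equiv.symm_apply_apply, relE_val, ← Sym2.map_mk, h]

lemma ovw_rel {k : ℕ} (Z : Finset (Fin n)) (a θ : Fin n → Fin k → Fin n) :
    relT g (ovw Z a θ) = ovw (relV g Z) (relT g a) (relT g θ) := by
  funext v i
  obtain ⟨v, rfl⟩ := g.surjective v
  unfold relT ovw
  simp only [o07_apply_mem_relV, Equiv.symm_apply_apply]
  split_ifs <;> rfl

lemma o07_hitT_rel {m : ℕ} (B : Fin m → Fin n × Fin n) (e : Edge n) :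
    hitT (relB g B) (relE g e) = hitT B e := by
  ext t
  unfold hitT relB
  simp only [Set.mem_ofPred_eq]
  refine exists_congr fun h => ?_
  rw [relE_val, ← Sym2.map_mk, (Sym2.map.injective g.injective).eq_iff]

lemma rk_rel {m : ℕ} (B : Fin m → Fin n × Fin n) (ρ : Edge n ≃ Fin (NE n)) (e : Edge n) :
    rk (relB g B) ((relE g).symm.trans ρ) (relE g e) = rk B ρ e := by
  unfold rk
  rw [o07_hitT_rel]
  simp only [Equiv.trans_apply, Equiv.symm_apply_apply]

lemma o07_rk_mkE {m : ℕ} (B : Fin m → Fin n × Fin n) (ρ : Edge n ≃ Fin (NE n)) (x y : Fin n)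
    (h : x ≠ y) (h' : g x ≠ g y) :
    rk (relB g B) ((relE g).symm.trans ρ) (mkE (g x) (g y) h') = rk B ρ (mkE x y h) := by
  rw [← rk_rel g B ρ (mkE x y h), relE_mkE]

lemma St_rel (d : ℕ) {m : ℕ} (B : Fin m → Fin n × Fin n) (ρ : Edge n ≃ Fin (NE n)) (z : Fin n) :
    St d (rk (relB g B) ((relE g).symm.trans ρ)) (g z) = relV g (St d (rk B ρ) z) := by
  ext x
  obtain ⟨x, rfl⟩ := g.surjective x
  rw [o07_apply_mem_relV]
  unfold St
  simp only [Finset.mem_filter, Finset.mem_univ, true_and]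
  have hcard : ∀ (hx : z ≠ x) (hx' : g z ≠ g x),
      (Finset.univ.filter (fun y => ∃ hy : g z ≠ y,
        rk (relB g B) ((relE g).symm.trans ρ) (mkE (g z) y hy) <
          rk (relB g B) ((relE g).symm.trans ρ) (mkE (g z) (g x) hx'))).card =
      (Finset.univ.filter (fun y => ∃ hy : z ≠ y,
        rk B ρ (mkE z y hy) < rk B ρ (mkE z x hx))).card := by
    intro hx hx'
    rw [← card_relV g (Finset.univ.filter (fun y => ∃ hy : z ≠ y,
        rk B ρ (mkE z y hy) < rk B ρ (mkE z x hx)))]
    congr 1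
    ext y
    obtain ⟨y, rfl⟩ := g.surjective y
    rw [o07_apply_mem_relV]
    simp only [Finset.mem_filter, Finset.mem_univ, true_and]
    constructor
    · rintro ⟨hy, h⟩
      have hy' : z ≠ y := fun h => hy (by rw [h])
      rw [o07_rk_mkE g B ρ z y hy' hy, o07_rk_mkE g B ρ z x hx hx'] at h
      exact ⟨hy', h⟩
    · rintro ⟨hy, h⟩
      have hy' : g z ≠ g y := fun h => hy (g.injective h)
      refine ⟨hy', ?_⟩
      rw [o07_rk_mkE g B ρ z y hy hy', o07_rk_mkE g B ρ z x hx hx']
      exact h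
  constructor
  · rintro ⟨hx, h⟩
    have hx' : z ≠ x := fun h => hx (by rw [h])
    rw [hcard hx' hx] at h
    exact ⟨hx', h⟩
  · rintro ⟨hx, h⟩
    have hx' : g z ≠ g x := fun h => hx (g.injective h)
    refine ⟨hx', ?_⟩
    rw [hcard hx hx']
    exact h

lemma SS_rel (d : ℕ) {m : ℕ} (B : Fin m → Fin n × Fin n) (ρ : Edge n ≃ Fin (NE n))
    (L : Finset (Fin n)) :
    SS d (rk (relB g B) ((relE g).symm.trans ρ)) (relV g L) = relG g (SS d (rk B ρ) L) := by
  ext e
  obtain ⟨e, rfl⟩ := (relE g).surjective e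
  rw [relE_mem_relG]
  unfold SS
  simp only [Finset.mem_filter, Finset.mem_univ, true_and]
  constructor
  · rintro ⟨z, hz, x, hx, h⟩
    obtain ⟨z, rfl⟩ := g.surjective z
    obtain ⟨x, rfl⟩ := g.surjective x
    rw [o07_apply_mem_relV] at hz
    rw [St_rel, o07_apply_mem_relV] at hx
    rw [relE_val, ← Sym2.map_mk, (Sym2.map.injective g.injective).eq_iff] at h
    exact ⟨z, hz, x, hx, h⟩
  · rintro ⟨z, hz, x, hx, h⟩
    refine ⟨g z, (o07_apply_mem_relV g L z).2 hz, g x, ?_, ?_⟩
    · rw [St_rel, o07_apply_mem_relV]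
      exact hx
    · rw [relE_val, ← Sym2.map_mk, h]

lemma starForest_rel (d : ℕ) (L : Finset (Fin n)) (S : Gr n) :
    StarForest d (relV g L) (relG g S) ↔ StarForest d L S := by
  constructor
  · rintro ⟨h1, h2, h3⟩
    refine ⟨?_, ?_, ?_⟩
    · intro z hz
      rw [← deg_relG g]
      exact h1 _ ((o07_apply_mem_relV g L z).2 hz)
    · intro e he
      obtain ⟨z, hz, x, hx, h⟩ := h2 _ ((relE_mem_relG g S e).2 he)
      obtain ⟨z, rfl⟩ := g.surjective z
      obtain ⟨x, rfl⟩ := g.surjective x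
      rw [o07_apply_mem_relV] at hz hx
      rw [relE_val, ← Sym2.map_mk, (Sym2.map.injective g.injective).eq_iff] at h
      exact ⟨z, hz, x, hx, h⟩
    · intro x hx
      rw [← deg_relG g]
      exact h3 _ (fun h => hx ((o07_apply_mem_relV g L x).1 h))
  · rintro ⟨h1, h2, h3⟩
    refine ⟨?_, ?_, ?_⟩
    · intro z hz
      obtain ⟨z, rfl⟩ := g.surjective z
      rw [deg_relG]
      exact h1 _ ((o07_apply_mem_relV g L z).1 hz)
    · intro e he
      obtain ⟨e, rfl⟩ := (relE g).surjective e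
      rw [relE_mem_relG] at he
      obtain ⟨z, hz, x, hx, h⟩ := h2 _ he
      refine ⟨g z, (o07_apply_mem_relV g L z).2 hz, g x,
        fun h => hx ((o07_apply_mem_relV g L x).1 h), ?_⟩
      rw [relE_val, ← Sym2.map_mk, h]
    · intro x hx
      obtain ⟨x, rfl⟩ := g.surjective x
      rw [deg_relG]
      exact h3 _ (fun h => hx ((o07_apply_mem_relV g L x).2 h))

end

end Pool.Agent.HC
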