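import Pool.Agent.Lib.MP_ec42c8_pr.F01

/-!
# P00 : reduction of pairings, transport of pairings (proved)
-/

set_option autoImplicit false

namespace Pool.Agent.HC

open Finset
open scoped Classical

section
variable {P : Type}

lemma Pairing.ne (π : Pairing P) (p : P) : π.1 p ≠ p := (π.2 p).1
lemma Pairing.inv (π : Pairing P) (p : P) : π.1 (π.1 p) = p := (π.2 p).2

lemma Pairing.eq_iff (π : Pairing P) (p q : P) : π.1 p = q ↔ p = π.1 q := by
  constructor
  · intro h; rw [← h, π.inv]
  · intro h; rw [h, π.inv]

/-- The underlying map of `red`. -/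
noncomputable def redF (a b : P) (π : Pairing P) (x : P) : P :=
  if π.1 x = a then π.1 b else if π.1 x = b then π.1 a else π.1 x

lemma redF_ne (a b : P) (hab : a ≠ b) (π : Pairing P) (x : P) (hx : x ≠ a ∧ x ≠ b) :
    redF a b π x ≠ a ∧ redF a b π x ≠ b := by
  unfold redF
  split_ifs with h1 h2
  · refine ⟨fun h => ?_, π.ne b⟩
    rw [Pairing.eq_iff] at h1 h
    exact hx.2 (h1.trans h.symm)
  · refine ⟨π.ne a, fun h => ?_⟩
    rw [Pairing.eq_iff] at h2 h
    exact hx.1 (h2.trans h.symm)
  · exact ⟨h1, h2⟩

lemma redF_redF (a b : P) (hab : a ≠ b) (π : Pairing P) (x : P) (hx : x ≠ a ∧ x ≠ b) :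
    redF a b π (redF a b π x) = x := by
  by_cases h1 : π.1 x = a
  · have e1 : redF a b π x = π.1 b := by simp [redF, h1]
    rw [e1]
    have : π.1 (π.1 b) = b := π.inv b
    simp only [redF, this]
    rw [if_neg (Ne.symm hab), if_pos trivial, ← h1, π.inv]
  · by_cases h2 : π.1 x = b
    · have e1 : redF a b π x = π.1 a := by
        simp only [redF]
        rw [if_neg h1, if_pos h2]
      rw [e1]
      have : π.1 (π.1 a) = a := π.inv a
      simp only [redF, this]
      rw [if_pos trivial, ← h2, π.inv]
    · have e1 : redF a b π x = π.1 x := by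
        simp only [redF]
        rw [if_neg h1, if_neg h2]
      rw [e1]
      simp only [redF, π.inv]
      rw [if_neg hx.1, if_neg hx.2]

lemma redF_ne_self (a b : P) (hab : a ≠ b) (π : Pairing P) (x : P) (hx : x ≠ a ∧ x ≠ b) :
    redF a b π x ≠ x := by
  unfold redF
  split_ifs with h1 h2
  · intro h
    have h' : b = π.1 x := (Pairing.eq_iff π b x).1 h
    exact hab (h1.symm.trans h'.symm)
  · intro h
    have h' : a = π.1 x := (Pairing.eq_iff π a x).1 h
    exact hab (h'.trans h2)
  · exact π.ne x

/-- Remove two points and join their partners. -/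
noncomputable def red (a b : P) (hab : a ≠ b) (π : Pairing P) :
    Pairing {x : P // x ≠ a ∧ x ≠ b} :=
  ⟨{ toFun := fun x => ⟨redF a b π x.1, redF_ne a b hab π x.1 x.2⟩
     invFun := fun x => ⟨redF a b π x.1, redF_ne a b hab π x.1 x.2⟩
     left_inv := fun x => Subtype.ext (redF_redF a b hab π x.1 x.2)
     right_inv := fun x => Subtype.ext (redF_redF a b hab π x.1 x.2) },
   fun x => ⟨fun h => redF_ne_self a b hab π x.1 x.2 (congrArg Subtype.val h),
     Subtype.ext (redF_redF a b hab π x.1 x.2)⟩⟩

lemma red_apply (a b : P) (hab : a ≠ b) (π : Pairing P) (x : {x : P // x ≠ a ∧ x ≠ b}) :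
    (((red a b hab π).1 x : {x : P // x ≠ a ∧ x ≠ b}) : P) =
      if π.1 x.1 = a then π.1 b else if π.1 x.1 = b then π.1 a else π.1 x.1 := rfl

end

/-- Transport of pairings. -/
noncomputable def trP {P P' : Type} (e : P ≃ P') : Pairing P ≃ Pairing P' where
  toFun π := ⟨(e.symm.trans π.1).trans e, fun p => by
    constructor
    · intro h
      exact (π.2 (e.symm p)).1 (e.injective (by simpa using h))
    · simp [(π.2 (e.symm p)).2]⟩
  invFun π := ⟨(e.trans π.1).trans e.symm, fun p => by
    constructor
    · intro h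
      exact (π.2 (e p)).1 (e.symm.injective (by simpa using h))
    · simp [(π.2 (e p)).2]⟩
  left_inv π := by
    apply Subtype.ext
    ext p
    simp
  right_inv π := by
    apply Subtype.ext
    ext p
    simp

lemma trP_apply {P P' : Type} (e : P ≃ P') (π : Pairing P) (p : P') :
    (trP e π).1 p = e (π.1 (e.symm p)) := rfl

end Pool.Agent.HC
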