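import Pool.Agent.Lib.MP_ec42c8_pr.P01

/-!
# P02 : marginals of a uniformly random pairing

`P01c` with `Ψ` the indicator of the remaining conditions, repeatedly.  In `P02b`, `P02c` nothing is
assumed about the points: if the conditions contradict each other (for instance `c = b`, `e ≠ a`) the
probability is `0`; if `c ≠ a, b` and `e ≠ a, b` they are conditions on `red a b π`; if `{c, e} = {a, b}`
the second condition is the same as the first, which is excluded by `hc`.
-/

set_option autoImplicit false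

namespace Pool.Agent.HC

open Finset
open scoped Classical

section
variable {P : Type} [Fintype P]

omit [Fintype P] in
lemma p02_av_inst {Ω : Type} (i j : Fintype Ω) (f : Ω → ℝ) : @av Ω i f = @av Ω j f := by
  rw [Subsingleton.elim i j]

omit [Fintype P] in
lemma p02_red (a b : P) (hab : a ≠ b) (π : Pairing P) (h : π.1 a = b)
    (x : {x : P // x ≠ a ∧ x ≠ b}) :
    (((red a b hab π).1 x : {x : P // x ≠ a ∧ x ≠ b}) : P) = π.1 x := by
  rw [red_apply]
  have h1 : π.1 x.1 ≠ a := by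
    intro h'
    rw [Pairing.eq_iff, h] at h'
    exact x.2.2 h'
  have h2 : π.1 x.1 ≠ b := by
    intro h'
    rw [Pairing.eq_iff] at h' h
    exact x.2.1 (h'.trans h.symm)
  rw [if_neg h1, if_neg h2]

/-- `P01c` for indicators. -/
lemma p02_cond (a b : P) (hab : a ≠ b) (A : Pairing P → Prop)
    (B : Pairing {x : P // x ≠ a ∧ x ≠ b} → Prop)
    (hAB : ∀ π : Pairing P, π.1 a = b → (A π ↔ B (red a b hab π)))
    (i : Fintype (Pairing {x : P // x ≠ a ∧ x ≠ b})) (r : ℝ) (hr : @pr _ i B ≤ r) :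
    pr (fun π : Pairing P => π.1 a = b ∧ A π) ≤ r / ((Fintype.card P : ℝ) - 1) := by
  have h0 : (0 : ℝ) < (Fintype.card P : ℝ) - 1 := by
    have : (2 : ℝ) ≤ (Fintype.card P : ℝ) := by exact_mod_cast (p01_card a b hab).2.2
    linarith
  have h1 := P01c a b hab (fun τ => if B τ then (1 : ℝ) else 0)
  refine le_trans (le_of_eq ((av_congr fun π => ?_).trans h1)) ?_
  · by_cases h : π.1 a = b
    · have h3 := hAB π h
      by_cases h4 : A π
      · rw [if_pos ⟨h, h4⟩, if_pos h, if_pos (h3.1 h4)]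
      · rw [if_neg (fun h' => h4 h'.2), if_pos h, if_neg (fun h' => h4 (h3.2 h'))]
    · rw [if_neg (fun h' => h h'.1), if_neg h]
  · refine div_le_div_of_nonneg_right (le_trans (le_of_eq ?_) hr) h0.le
    exact p02_av_inst _ _ _

lemma p02_zero {Ω : Type} [Fintype Ω] {A : Ω → Prop} (h : ∀ ω, ¬ A ω) : pr A = 0 := by
  have : A = fun _ => False := funext fun ω => propext ⟨fun h' => h ω h', fun h' => h'.elim⟩
  rw [this, pr_false]

theorem P02a (a b : P) (hP : 2 ≤ Fintype.card P) :
    pr (fun π : Pairing P => π.1 a = b) ≤ 1 / ((Fintype.card P : ℝ) - 1) := by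
  have h0 : (0 : ℝ) < (Fintype.card P : ℝ) - 1 := by
    have : (2 : ℝ) ≤ (Fintype.card P : ℝ) := by exact_mod_cast hP
    linarith
  by_cases hab : a = b
  · subst hab
    rw [p02_zero fun π => π.ne a]
    positivity
  · refine le_trans (pr_mono fun π h => ?_) (p02_cond a b hab (fun _ => True) (fun _ => True)
      (fun _ _ => Iff.rfl) inferInstance 1 (pr_le_one _))
    exact ⟨h, trivial⟩

theorem P02b (a b c e : P) (hc : c ≠ a ∧ c ≠ b) (hP : 4 ≤ Fintype.card P) :
    pr (fun π : Pairing P => π.1 a = b ∧ π.1 c = e) ≤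
      1 / (((Fintype.card P : ℝ) - 1) * ((Fintype.card P : ℝ) - 3)) := by
  have hP' : (4 : ℝ) ≤ (Fintype.card P : ℝ) := by exact_mod_cast hP
  have h0 : (0 : ℝ) < (Fintype.card P : ℝ) - 1 := by linarith
  have h0' : (0 : ℝ) < (Fintype.card P : ℝ) - 3 := by linarith
  by_cases hz : a = b ∨ e = a ∨ e = b
  · rw [p02_zero]
    · positivity
    · rintro π ⟨h1, h2⟩
      rcases hz with rfl | rfl | rfl
      · exact π.ne a h1
      · rw [Pairing.eq_iff, h1] at h2
        exact hc.2 h2
      · exact hc.1 (π.1.injective (h2.trans h1.symm))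
  · push Not at hz
    obtain ⟨hab, hea, heb⟩ := hz
    have hcard := p01_card a b hab
    have h2 := P02a (P := {x : P // x ≠ a ∧ x ≠ b}) ⟨c, hc⟩ ⟨e, hea, heb⟩
      (by rw [hcard.2.1]; omega)
    have h3 : (Fintype.card {x : P // x ≠ a ∧ x ≠ b} : ℝ) = (Fintype.card P : ℝ) - 2 := by
      rw [hcard.2.1, Nat.cast_sub hcard.2.2]; norm_num
    rw [h3] at h2
    refine (p02_cond a b hab (fun π => π.1 c = e) (fun τ => τ.1 ⟨c, hc⟩ = ⟨e, hea, heb⟩)
      (fun π h => ?_) _ _ h2).trans (le_of_eq ?_)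
    · have h5 := p02_red a b hab π h ⟨c, hc⟩
      constructor
      · intro h6
        apply Subtype.ext
        rw [h5]
        exact h6
      · intro h6
        have h7 := congrArg Subtype.val h6
        rw [h5] at h7
        exact h7
    · have h4 : (Fintype.card P : ℝ) - 2 - 1 = (Fintype.card P : ℝ) - 3 := by ring
      rw [h4, div_div]
      congr 1
      ring

theorem P02c (a b c e f g : P) (hc : c ≠ a ∧ c ≠ b) (hf : f ≠ a ∧ f ≠ b ∧ f ≠ c ∧ f ≠ e)
    (hP : 6 ≤ Fintype.card P) :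
    pr (fun π : Pairing P => π.1 a = b ∧ π.1 c = e ∧ π.1 f = g) ≤
      1 / (((Fintype.card P : ℝ) - 1) * ((Fintype.card P : ℝ) - 3) *
        ((Fintype.card P : ℝ) - 5)) := by
  have hP' : (6 : ℝ) ≤ (Fintype.card P : ℝ) := by exact_mod_cast hP
  have h0 : (0 : ℝ) < (Fintype.card P : ℝ) - 1 := by linarith
  have h0' : (0 : ℝ) < (Fintype.card P : ℝ) - 3 := by linarith
  have h0'' : (0 : ℝ) < (Fintype.card P : ℝ) - 5 := by linarith
  by_cases hz : a = b ∨ e = a ∨ e = b ∨ g = a ∨ g = b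
  · rw [p02_zero]
    · positivity
    · rintro π ⟨h1, h2, h3⟩
      rcases hz with rfl | rfl | rfl | rfl | rfl
      · exact π.ne a h1
      · rw [Pairing.eq_iff, h1] at h2
        exact hc.2 h2
      · exact hc.1 (π.1.injective (h2.trans h1.symm))
      · rw [Pairing.eq_iff, h1] at h3
        exact hf.2.1 h3
      · exact hf.1 (π.1.injective (h3.trans h1.symm))
  · push Not at hz
    obtain ⟨hab, hea, heb, hga, hgb⟩ := hz
    have hcard := p01_card a b hab
    have h2 := P02b (P := {x : P // x ≠ a ∧ x ≠ b}) ⟨c, hc⟩ ⟨e, hea, heb⟩ ⟨f, hf.1, hf.2.1⟩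
      ⟨g, hga, hgb⟩ ⟨fun h => hf.2.2.1 (congrArg Subtype.val h),
        fun h => hf.2.2.2 (congrArg Subtype.val h)⟩ (by rw [hcard.2.1]; omega)
    have h3 : (Fintype.card {x : P // x ≠ a ∧ x ≠ b} : ℝ) = (Fintype.card P : ℝ) - 2 := by
      rw [hcard.2.1, Nat.cast_sub hcard.2.2]; norm_num
    rw [h3] at h2
    refine (p02_cond a b hab (fun π => π.1 c = e ∧ π.1 f = g)
      (fun τ => τ.1 ⟨c, hc⟩ = ⟨e, hea, heb⟩ ∧ τ.1 ⟨f, hf.1, hf.2.1⟩ = ⟨g, hga, hgb⟩)
      (fun π h => ?_) _ _ h2).trans (le_of_eq ?_)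
    · have h5 := p02_red a b hab π h ⟨c, hc⟩
      have h5' := p02_red a b hab π h ⟨f, hf.1, hf.2.1⟩
      constructor
      · rintro ⟨h6, h6'⟩
        refine ⟨Subtype.ext ?_, Subtype.ext ?_⟩
        · rw [h5]
          exact h6
        · rw [h5']
          exact h6'
      · rintro ⟨h6, h6'⟩
        have h7 := congrArg Subtype.val h6
        have h7' := congrArg Subtype.val h6'
        rw [h5] at h7
        rw [h5'] at h7'
        exact ⟨h7, h7'⟩
    · have h4 : (Fintype.card P : ℝ) - 2 - 1 = (Fintype.card P : ℝ) - 3 := by ring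
      have h5 : (Fintype.card P : ℝ) - 2 - 3 = (Fintype.card P : ℝ) - 5 := by ring
      rw [h4, h5, div_div]
      congr 1
      ring

end

end Pool.Agent.HC
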