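import Pool.Agent.Lib.MP_ec42c8_pr.P04a

/-!
# P04b : switching

For a pairing `π` and points `p`, `q` with `q ≠ p`, `q ≠ π p`, the switched pairing `sw π p q` joins `p`
with `q` and `π p` with `π q` and is equal to `π` elsewhere: it is the conjugate of `π` by the
transposition of `π p` and `q`.
(1) FORWARD.  Let `p` be a bad point of `π`, `N = card (Pt d F)`.  Say that `q` is good for ` (π, p)` if
`q ≠ p, π p`; the vertex of `q` and the vertex of `π q` are different from the vertices of `p` and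
of `π p`, and not joined to them by an edge of `F` or a pair of `π`; and `q` is not bad.  Then the bad
points of `sw π p q` are bad points of `π`, and `p` is not bad any more: the new pairs `{p, q}`,
`{π p, π q}` are not loops, not edges of `F`, not parallel to a pair of `π` or to each other (if they
were parallel, then either `q`, `π q` have the same vertex, but `q` is not bad, or the vertex of
`π q` is that of `p`); a pair that is a loop, in `F`, or parallel to
another one and is not one of the new pairs was so before, since only removed pairs could matter.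
So `NB (sw π p q) < NB π`.  The number of `q` that are not good is at most `NB π + C`, `C = 8 d² + 2`
or so (each excluded vertex excludes at most `d` points `q` and at most `d` points `π q`, the
number of excluded vertices is at most `2 + 2 d + 2 d`).
(2) BACKWARD.  Given `π'` and `p`, the pairs ` (π, q)` with `q` good for ` (π, p)`, `p` bad for `π` and
`π' = sw π p q` are determined by `p' = π p` (`q = π' p`, `π q = π' p'`), and there are at most
`d + d² + d²` possibilities for `p'`: `p'` is at the vertex of `p`, or at a vertex joined to it by an edge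
of `F`, or `{p, p'}` is parallel to another pair `{a, π a}` of `π` with `a ≠ p` at the vertex of `p` and
`π a` at the vertex of `p'`; as `a ≠ q, π q, p'` (vertices), `π a = π' a`, so `p'` is at the vertex of `π' a`
for one of the at most `d` points `a` at the vertex of `p`.
CONCLUSION.  Let `c_x` be the number of pairings with `NB = x`, `x ≥ 1`; choose for each of them a
bad point `p(π)`.  The number of ` (π, q)` with `NB π = x`, `q` good for ` (π, p(π))` is at least
`c_x (N - x - C)` and at most `N (d + 2 d²) c_{<x}`, where `c_{<x}` is the number of pairings with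
`NB < x`.
-/

set_option autoImplicit false

namespace Pool.Agent.HC

open Finset
open scoped Classical

section
variable {P : Type}

/-- The switched pairing. -/
noncomputable def p04b_sw (π : Pairing P) (p q : P) : Pairing P :=
  trP (Equiv.swap (π.1 p) q) π

lemma p04b_sw_apply (π : Pairing P) (p q x : P) :
    (p04b_sw π p q).1 x = Equiv.swap (π.1 p) q (π.1 (Equiv.swap (π.1 p) q x)) := by
  unfold p04b_sw
  rw [trP_apply, Equiv.symm_swap]

lemma p04b_sw_p (π : Pairing P) (p q : P) (h1 : q ≠ p) :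
    (p04b_sw π p q).1 p = q := by
  rw [p04b_sw_apply, Equiv.swap_apply_of_ne_of_ne (π.ne p).symm h1.symm, Equiv.swap_apply_left]

lemma p04b_sw_q (π : Pairing P) (p q : P) (h1 : q ≠ p) :
    (p04b_sw π p q).1 q = p := by
  rw [p04b_sw_apply, Equiv.swap_apply_right, π.inv,
    Equiv.swap_apply_of_ne_of_ne (π.ne p).symm h1.symm]

lemma p04b_sw_p' (π : Pairing P) (p q : P) (h1 : q ≠ p) :
    (p04b_sw π p q).1 (π.1 p) = π.1 q := by
  rw [p04b_sw_apply, Equiv.swap_apply_left, Equiv.swap_apply_of_ne_of_ne ?_ (π.ne q)]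
  exact fun h => h1 (π.1.injective h)

lemma p04b_sw_q' (π : Pairing P) (p q : P) (h1 : q ≠ p) :
    (p04b_sw π p q).1 (π.1 q) = π.1 p := by
  rw [p04b_sw_apply, Equiv.swap_apply_of_ne_of_ne ?_ (π.ne q), π.inv, Equiv.swap_apply_right]
  exact fun h => h1 (π.1.injective h)

lemma p04b_sw_else (π : Pairing P) (p q x : P) (h1 : x ≠ p) (h2 : x ≠ q) (h3 : x ≠ π.1 p)
    (h4 : x ≠ π.1 q) : (p04b_sw π p q).1 x = π.1 x := by
  rw [p04b_sw_apply, Equiv.swap_apply_of_ne_of_ne h3 h2, Equiv.swap_apply_of_ne_of_ne]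
  · exact fun h => h1 (π.1.injective h)
  · intro h
    exact h4 ((Pairing.eq_iff π x q).1 h)

lemma p04b_sw_inj (π π' : Pairing P) (p q q' : P) (hq : q ≠ p) (hq' : q' ≠ p)
    (h : p04b_sw π p q = p04b_sw π' p q') (hp : π.1 p = π'.1 p) : π = π' ∧ q = q' := by
  have h1 : q = q' := by
    rw [← p04b_sw_p π p q hq, h, p04b_sw_p π' p q' hq']
  refine ⟨?_, h1⟩
  subst h1
  unfold p04b_sw at h
  rw [← hp] at h
  exact (trP (Equiv.swap (π.1 p) q)).injective h

end

section
variable {n d : ℕ} (F : Gr n)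

/-- The vertices joined to `v` by an edge of `F`. -/
noncomputable def p04b_NF (v : Fin n) : Finset (Fin n) :=
  univ.filter (fun w => ∃ e ∈ F, e.1 = s(v, w))

/-- The vertices joined to `v` by a pair of `π`. -/
noncomputable def p04b_NP (π : Pairing (Pt d F)) (v : Fin n) : Finset (Fin n) :=
  univ.filter (fun w => ∃ a : Pt d F, a.1.1 = v ∧ (π.1 a).1.1 = w)

/-- The excluded vertices. -/
noncomputable def p04b_E (π : Pairing (Pt d F)) (p : Pt d F) : Finset (Fin n) :=
  {p.1.1, (π.1 p).1.1} ∪ (p04b_NF F p.1.1 ∪ p04b_NP F π p.1.1) ∪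
    (p04b_NF F (π.1 p).1.1 ∪ p04b_NP F π (π.1 p).1.1)

/-- Points at the vertices of a set. -/
noncomputable def p04b_at (d : ℕ) (F : Gr n) (V : Finset (Fin n)) : Finset (Pt d F) :=
  univ.filter (fun q => q.1.1 ∈ V)

lemma p04b_card_at (V : Finset (Fin n)) : (p04b_at d F V).card ≤ d * V.card := by
  have h : (p04b_at d F V).card ≤ (V ×ˢ (univ : Finset (Fin d))).card := by
    refine Finset.card_le_card_of_injOn (fun q => q.1) ?_ ?_
    · intro q hq
      have hq' : q ∈ p04b_at d F V := hq
      unfold p04b_at at hq'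
      rw [Finset.mem_filter] at hq'
      exact Finset.mem_coe.2 (Finset.mem_product.2 ⟨hq'.2, Finset.mem_univ _⟩)
    · intro q _ q' _ h
      exact Subtype.ext h
  rw [Finset.card_product, Finset.card_univ, Fintype.card_fin] at h
  rw [mul_comm]
  exact h

lemma p04b_card_NF (v : Fin n) (hF : deg F v ≤ d) : (p04b_NF F v).card ≤ d := by
  refine le_trans ?_ hF
  have h : (p04b_NF F v).card ≤ ((F.filter (fun e => v ∈ e.1)).image Subtype.val).card := by
    refine Finset.card_le_card_of_injOn (fun w => s(v, w)) ?_ ?_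
    · intro w hw
      have hw' : w ∈ p04b_NF F v := hw
      unfold p04b_NF at hw'
      rw [Finset.mem_filter] at hw'
      obtain ⟨e, he, hev⟩ := hw'.2
      refine Finset.mem_coe.2 (Finset.mem_image.2 ⟨e, ?_, hev⟩)
      rw [Finset.mem_filter]
      refine ⟨he, ?_⟩
      rw [hev]
      exact Sym2.mem_mk_left v w
    · intro w _ w' _ h
      exact Sym2.congr_right.1 h
  exact h.trans Finset.card_image_le

lemma p04b_card_NP (π : Pairing (Pt d F)) (v : Fin n) : (p04b_NP F π v).card ≤ d := by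
  have h : p04b_NP F π v ⊆ (p04b_at d F {v}).image (fun a => (π.1 a).1.1) := by
    intro w hw
    unfold p04b_NP at hw
    rw [Finset.mem_filter] at hw
    obtain ⟨a, ha, haw⟩ := hw.2
    rw [Finset.mem_image]
    refine ⟨a, ?_, haw⟩
    unfold p04b_at
    rw [Finset.mem_filter]
    exact ⟨Finset.mem_univ _, by rw [Finset.mem_singleton]; exact ha⟩
  calc (p04b_NP F π v).card ≤ _ := Finset.card_le_card h
    _ ≤ _ := Finset.card_image_le
    _ ≤ d * ({v} : Finset (Fin n)).card := p04b_card_at F {v}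
    _ = d := by rw [Finset.card_singleton, mul_one]

lemma p04b_card_E (hF : ∀ v, deg F v ≤ d) (π : Pairing (Pt d F)) (p : Pt d F) :
    (p04b_E F π p).card ≤ 2 + 4 * d := by
  unfold p04b_E
  refine (Finset.card_union_le _ _).trans ?_
  have h1 := Finset.card_union_le ({p.1.1, (π.1 p).1.1} : Finset (Fin n))
    (p04b_NF F p.1.1 ∪ p04b_NP F π p.1.1)
  have h2 := Finset.card_union_le (p04b_NF F p.1.1) (p04b_NP F π p.1.1)
  have h3 := Finset.card_union_le (p04b_NF F (π.1 p).1.1) (p04b_NP F π (π.1 p).1.1)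
  have h4 : ({p.1.1, (π.1 p).1.1} : Finset (Fin n)).card ≤ 2 := Finset.card_le_two
  have h5 := p04b_card_NF F p.1.1 (hF _)
  have h6 := p04b_card_NF F (π.1 p).1.1 (hF _)
  have h7 := p04b_card_NP F π p.1.1
  have h8 := p04b_card_NP F π (π.1 p).1.1
  omega

/-- `q` is good for `(π, p)`. -/
def p04b_Good (π : Pairing (Pt d F)) (p q : Pt d F) : Prop :=
  q.1.1 ∉ p04b_E F π p ∧ (π.1 q).1.1 ∉ p04b_E F π p ∧ ¬ BadPt F π q

lemma p04b_bad_symm (π : Pairing (Pt d F)) (r : Pt d F) (h : BadPt F π r) :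
    BadPt F π (π.1 r) := by
  unfold BadPt at h ⊢
  rw [π.inv]
  rcases h with h | ⟨e, he, h⟩ | ⟨s, hs, h1, h2⟩
  · exact Or.inl h.symm
  · refine Or.inr (Or.inl ⟨e, he, ?_⟩)
    rw [h, Sym2.eq_swap]
  · refine Or.inr (Or.inr ⟨π.1 s, ?_, h2, ?_⟩)
    · exact fun h => hs (π.1.injective h)
    · rw [π.inv]; exact h1

lemma p04b_good_symm (π : Pairing (Pt d F)) (p q : Pt d F) (h : p04b_Good F π p q) :
    p04b_Good F π (π.1 p) (π.1 q) := by
  obtain ⟨h1, h2, h3⟩ := h
  have hE : p04b_E F π (π.1 p) = p04b_E F π p := by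
    unfold p04b_E
    rw [π.inv]
    ext w
    simp only [Finset.mem_union, Finset.mem_insert, Finset.mem_singleton]
    tauto
  refine ⟨?_, ?_, ?_⟩
  · rw [hE]; exact h2
  · rw [hE, π.inv]; exact h1
  · intro h
    have := p04b_bad_symm F π _ h
    rw [π.inv] at this
    exact h3 this

lemma p04b_good_unfold (π : Pairing (Pt d F)) (p q : Pt d F) (h : p04b_Good F π p q) :
    (q.1.1 ≠ p.1.1 ∧ q.1.1 ≠ (π.1 p).1.1 ∧ (∀ e ∈ F, e.1 ≠ s(p.1.1, q.1.1)) ∧
      (∀ a : Pt d F, a.1.1 = p.1.1 → (π.1 a).1.1 ≠ q.1.1)) := by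
  obtain ⟨h1, h2, h3⟩ := h
  unfold p04b_E p04b_NF p04b_NP at h1
  simp only [Finset.mem_union, Finset.mem_insert, Finset.mem_singleton, Finset.mem_filter,
    Finset.mem_univ, true_and, not_or, not_exists, not_and] at h1
  exact ⟨h1.1.1.1, h1.1.1.2, fun e he => h1.1.2.1 e he, fun a ha => h1.1.2.2 a ha⟩

/-- `p` is not bad after the switching. -/
lemma p04b_not_bad (π : Pairing (Pt d F)) (p q : Pt d F) (h : p04b_Good F π p q) :
    ¬ BadPt F (p04b_sw π p q) p := by
  obtain ⟨h1, h2, h3, h4⟩ := p04b_good_unfold F π p q h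
  obtain ⟨g1, g2, g3, g4⟩ := p04b_good_unfold F π _ _ (p04b_good_symm F π p q h)
  rw [π.inv] at g2
  have hqp : q ≠ p := fun h => h1 (by rw [h])
  unfold BadPt
  rw [p04b_sw_p π p q hqp]
  rintro (h5 | ⟨e, he, h5⟩ | ⟨r, hr, h5, h6⟩)
  · exact h1 h5.symm
  · exact h3 e he h5
  · by_cases hr1 : r = q
    · rw [hr1] at h5
      exact h1 h5
    by_cases hr2 : r = π.1 p
    · rw [hr2, p04b_sw_p' π p q hqp] at h6
      exact h.2.2 (Or.inl h6.symm)
    by_cases hr3 : r = π.1 q
    · rw [hr3] at h5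
      exact g2 h5
    rw [p04b_sw_else π p q r hr hr1 hr2 hr3] at h6
    exact h4 r h5 h6

lemma p04b_sw_symm {P : Type} (π : Pairing P) (p q : P) (h1 : q ≠ p) (h2 : q ≠ π.1 p) :
    p04b_sw π (π.1 p) (π.1 q) = p04b_sw π p q := by
  have h3 : π.1 q ≠ π.1 p := fun h => h1 (π.1.injective h)
  have h4 : π.1 q ≠ p := fun h => h2 ((Pairing.eq_iff π q p).1 h)
  apply Subtype.ext
  ext x
  by_cases hx1 : x = p
  · rw [hx1, p04b_sw_p π p q h1]
    have := p04b_sw_p' π (π.1 p) (π.1 q) h3
    rw [π.inv, π.inv] at this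
    exact this
  by_cases hx2 : x = q
  · rw [hx2, p04b_sw_q π p q h1]
    have := p04b_sw_q' π (π.1 p) (π.1 q) h3
    rw [π.inv, π.inv] at this
    exact this
  by_cases hx3 : x = π.1 p
  · rw [hx3, p04b_sw_p' π p q h1, p04b_sw_p π _ _ h3]
  by_cases hx4 : x = π.1 q
  · rw [hx4, p04b_sw_q' π p q h1, p04b_sw_q π _ _ h3]
  rw [p04b_sw_else π p q x hx1 hx2 hx3 hx4, p04b_sw_else π _ _ x hx3 hx4]
  · rw [π.inv]; exact hx1
  · rw [π.inv]; exact hx2

/-- The bad points after the switching were bad before. -/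
lemma p04b_bad_of (π : Pairing (Pt d F)) (p q : Pt d F) (h : p04b_Good F π p q)
    (hp : BadPt F π p) (r : Pt d F) (hr : BadPt F (p04b_sw π p q) r) : BadPt F π r := by
  obtain ⟨h1, h2, h3, h4⟩ := p04b_good_unfold F π p q h
  obtain ⟨g1, g2, g3, g4⟩ := p04b_good_unfold F π _ _ (p04b_good_symm F π p q h)
  rw [π.inv] at g2
  have hqp : q ≠ p := fun h => h1 (by rw [h])
  have hqp' : q ≠ π.1 p := fun h => h2 (by rw [h])
  have hnb := p04b_not_bad F π p q h
  have hnb' := p04b_not_bad F π _ _ (p04b_good_symm F π p q h)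
  rw [p04b_sw_symm π p q hqp hqp'] at hnb'
  by_cases hr1 : r = p
  · rw [hr1]; exact hp
  by_cases hr2 : r = q
  · exfalso
    rw [hr2] at hr
    have := p04b_bad_symm F _ _ hr
    rw [p04b_sw_q π p q hqp] at this
    exact hnb this
  by_cases hr3 : r = π.1 p
  · rw [hr3]; exact p04b_bad_symm F π p hp
  by_cases hr4 : r = π.1 q
  · exfalso
    rw [hr4] at hr
    have := p04b_bad_symm F _ _ hr
    rw [p04b_sw_q' π p q hqp] at this
    exact hnb' this
  unfold BadPt at hr ⊢
  rw [p04b_sw_else π p q r hr1 hr2 hr3 hr4] at hr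
  rcases hr with h5 | ⟨e, he, h5⟩ | ⟨s, hs, h5, h6⟩
  · exact Or.inl h5
  · exact Or.inr (Or.inl ⟨e, he, h5⟩)
  · by_cases hs1 : s = p
    · exfalso
      rw [hs1, p04b_sw_p π p q hqp] at h6
      rw [hs1] at h5
      exact h4 r h5.symm h6.symm
    by_cases hs2 : s = q
    · exfalso
      rw [hs2, p04b_sw_q π p q hqp] at h6
      rw [hs2] at h5
      exact h4 (π.1 r) h6.symm (by rw [π.inv]; exact h5.symm)
    by_cases hs3 : s = π.1 p
    · exfalso
      rw [hs3, p04b_sw_p' π p q hqp] at h6
      rw [hs3] at h5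
      exact g4 r h5.symm h6.symm
    by_cases hs4 : s = π.1 q
    · exfalso
      rw [hs4, p04b_sw_q' π p q hqp] at h6
      rw [hs4] at h5
      exact g4 (π.1 r) h6.symm (by rw [π.inv]; exact h5.symm)
    rw [p04b_sw_else π p q s hs1 hs2 hs3 hs4] at h6
    exact Or.inr (Or.inr ⟨s, hs, h5, h6⟩)

lemma p04b_NB_lt (π : Pairing (Pt d F)) (p q : Pt d F) (h : p04b_Good F π p q)
    (hp : BadPt F π p) : NB F (p04b_sw π p q) < NB F π := by
  unfold NB
  refine Finset.card_lt_card (Finset.ssubset_iff_of_subset ?_ |>.2 ⟨p, ?_, ?_⟩)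
  · intro r hr
    rw [Finset.mem_filter] at hr ⊢
    exact ⟨Finset.mem_univ _, p04b_bad_of F π p q h hp r hr.2⟩
  · rw [Finset.mem_filter]
    exact ⟨Finset.mem_univ _, hp⟩
  · rw [Finset.mem_filter]
    rintro ⟨_, h'⟩
    exact p04b_not_bad F π p q h h'

/-- The number of good points. -/
lemma p04b_card_good (hd : 1 ≤ d) (hF : ∀ v, deg F v ≤ d) (π : Pairing (Pt d F)) (p : Pt d F) :
    Fintype.card (Pt d F) ≤ (univ.filter (fun q => p04b_Good F π p q)).card + NB F π +
      20 * d ^ 2 := by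
  have hsub : (univ : Finset (Pt d F)) ⊆ (univ.filter (fun q => p04b_Good F π p q)) ∪
      (p04b_at d F (p04b_E F π p) ∪ ((p04b_at d F (p04b_E F π p)).image (fun a => π.1 a)) ∪
        univ.filter (fun r => BadPt F π r)) := by
    intro q _
    rw [Finset.mem_union, Finset.mem_union, Finset.mem_union, Finset.mem_filter, Finset.mem_filter]
    by_cases h1 : q.1.1 ∈ p04b_E F π p
    · right; left; left
      unfold p04b_at
      rw [Finset.mem_filter]
      exact ⟨Finset.mem_univ _, h1⟩
    by_cases h2 : (π.1 q).1.1 ∈ p04b_E F π p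
    · right; left; right
      rw [Finset.mem_image]
      refine ⟨π.1 q, ?_, π.inv q⟩
      unfold p04b_at
      rw [Finset.mem_filter]
      exact ⟨Finset.mem_univ _, h2⟩
    by_cases h3 : BadPt F π q
    · right; right
      exact ⟨Finset.mem_univ _, h3⟩
    left
    exact ⟨Finset.mem_univ _, h1, h2, h3⟩
  have h1 := Finset.card_le_card hsub
  rw [Finset.card_univ] at h1
  have h2 := Finset.card_union_le (univ.filter (fun q => p04b_Good F π p q))
    (p04b_at d F (p04b_E F π p) ∪ ((p04b_at d F (p04b_E F π p)).image (fun a => π.1 a)) ∪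
        univ.filter (fun r => BadPt F π r))
  have h3 := Finset.card_union_le
    (p04b_at d F (p04b_E F π p) ∪ ((p04b_at d F (p04b_E F π p)).image (fun a => π.1 a)))
    (univ.filter (fun r => BadPt F π r))
  have h4 := Finset.card_union_le (p04b_at d F (p04b_E F π p))
    ((p04b_at d F (p04b_E F π p)).image (fun a => π.1 a))
  have h5 : ((p04b_at d F (p04b_E F π p)).image (fun a => π.1 a)).card ≤
    (p04b_at d F (p04b_E F π p)).card := Finset.card_image_le
  have h6 := p04b_card_at (d := d) F (p04b_E F π p)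
  have h7 : d * (p04b_E F π p).card ≤ d * (2 + 4 * d) :=
    Nat.mul_le_mul_left _ (p04b_card_E F hF π p)
  have h8 : NB F π = (univ.filter (fun r => BadPt F π r)).card := rfl
  nlinarith

/-- The possible partners of `p` before the switching. -/
noncomputable def p04b_cand (π' : Pairing (Pt d F)) (p : Pt d F) : Finset (Pt d F) :=
  p04b_at d F ({p.1.1} ∪ (p04b_NF F p.1.1 ∪ p04b_NP F π' p.1.1))

lemma p04b_card_cand (hF : ∀ v, deg F v ≤ d) (π' : Pairing (Pt d F)) (p : Pt d F) :
    (p04b_cand F π' p).card ≤ d + 2 * d ^ 2 := by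
  unfold p04b_cand
  refine (p04b_card_at F _).trans ?_
  have h1 := Finset.card_union_le ({p.1.1} : Finset (Fin n)) (p04b_NF F p.1.1 ∪ p04b_NP F π' p.1.1)
  have h2 := Finset.card_union_le (p04b_NF F p.1.1) (p04b_NP F π' p.1.1)
  have h3 := p04b_card_NF F p.1.1 (hF _)
  have h4 := p04b_card_NP F π' p.1.1
  rw [Finset.card_singleton] at h1
  have h5 : ({p.1.1} ∪ (p04b_NF F p.1.1 ∪ p04b_NP F π' p.1.1)).card ≤ 1 + 2 * d := by omega
  calc _ ≤ d * (1 + 2 * d) := Nat.mul_le_mul_left _ h5
    _ = d + 2 * d ^ 2 := by ring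

lemma p04b_mem_cand (π : Pairing (Pt d F)) (p q : Pt d F) (h : p04b_Good F π p q)
    (hp : BadPt F π p) : π.1 p ∈ p04b_cand F (p04b_sw π p q) p := by
  obtain ⟨h1, h2, h3, h4⟩ := p04b_good_unfold F π p q h
  obtain ⟨g1, g2, g3, g4⟩ := p04b_good_unfold F π _ _ (p04b_good_symm F π p q h)
  rw [π.inv] at g2
  have hqp : q ≠ p := fun h => h1 (by rw [h])
  unfold p04b_cand p04b_at
  rw [Finset.mem_filter]
  refine ⟨Finset.mem_univ _, ?_⟩
  rw [Finset.mem_union, Finset.mem_union, Finset.mem_singleton]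
  rcases hp with h5 | ⟨e, he, h5⟩ | ⟨a, ha, h5, h6⟩
  · exact Or.inl h5.symm
  · right; left
    unfold p04b_NF
    rw [Finset.mem_filter]
    exact ⟨Finset.mem_univ _, e, he, h5⟩
  · by_cases ha1 : a = q
    · exfalso
      rw [ha1] at h5
      exact h1 h5
    by_cases ha2 : a = π.1 q
    · exfalso
      rw [ha2] at h5
      exact g2 h5
    by_cases ha3 : a = π.1 p
    · left
      rw [ha3] at h5
      exact h5
    right; right
    unfold p04b_NP
    rw [Finset.mem_filter]
    refine ⟨Finset.mem_univ _, a, h5, ?_⟩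
    rw [p04b_sw_else π p q a ha ha1 ha3 ha2]
    exact h6

end

theorem P04b {n d : ℕ} (hd : 1 ≤ d) (F : Gr n) (hF : ∀ v, deg F v ≤ d) (x : ℕ) (hx : 1 ≤ x) :
    ((Finset.univ.filter (fun π : Pairing (Pt d F) => NB F π = x)).card : ℝ) *
        ((Fintype.card (Pt d F) : ℝ) - x - 20 * (d : ℝ) ^ 2) ≤
      (Fintype.card (Pt d F) : ℝ) * (d + 2 * (d : ℝ) ^ 2) *
        ((Finset.univ.filter (fun π : Pairing (Pt d F) => NB F π < x)).card : ℝ) := by
  set A := Finset.univ.filter (fun π : Pairing (Pt d F) => NB F π = x) with hA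
  set B := Finset.univ.filter (fun π : Pairing (Pt d F) => NB F π < x) with hB
  -- choose a bad point
  have hex : ∀ π : Pairing (Pt d F), ∃ p : Option (Pt d F), NB F π = x → ∃ p', p = some p' ∧
      BadPt F π p' := by
    intro π
    by_cases h : NB F π = x
    · have h1 : (univ.filter (fun r => BadPt F π r)).Nonempty := by
        rw [← Finset.card_pos]
        have : NB F π = (univ.filter (fun r => BadPt F π r)).card := rfl
        omega
      obtain ⟨p', hp'⟩ := h1
      exact ⟨some p', fun _ => ⟨p', rfl, (Finset.mem_filter.1 hp').2⟩⟩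
    · exact ⟨none, fun h' => absurd h' h⟩
  choose pp hpp using hex
  -- the pairs (π, q)
  set T : Finset (Σ _ : Pairing (Pt d F), Pt d F) :=
    A.sigma (fun π => univ.filter (fun q => ∀ p', pp π = some p' → p04b_Good F π p' q)) with hT
  have hTcard : A.card * Fintype.card (Pt d F) ≤ T.card + A.card * (x + 20 * d ^ 2) := by
    rw [hT, Finset.card_sigma]
    have h1 : ∀ π ∈ A, Fintype.card (Pt d F) ≤
        (univ.filter (fun q => ∀ p', pp π = some p' → p04b_Good F π p' q)).card +
          (x + 20 * d ^ 2) := by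
      intro π hπ
      have hπ' : NB F π = x := by
        rw [hA, Finset.mem_filter] at hπ
        exact hπ.2
      obtain ⟨p', hp', hbad⟩ := hpp π hπ'
      have h2 := p04b_card_good F hd hF π p'
      have h3 : (univ.filter (fun q => p04b_Good F π p' q)).card ≤
          (univ.filter (fun q => ∀ p', pp π = some p' → p04b_Good F π p' q)).card := by
        refine Finset.card_le_card ?_
        intro q hq
        rw [Finset.mem_filter] at hq ⊢
        refine ⟨Finset.mem_univ _, fun p'' h => ?_⟩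
        rw [hp'] at h
        have : p' = p'' := Option.some.inj h
        rw [← this]
        exact hq.2
      omega
    calc A.card * Fintype.card (Pt d F) = ∑ π ∈ A, Fintype.card (Pt d F) := by
          rw [Finset.sum_const, smul_eq_mul]
      _ ≤ ∑ π ∈ A, ((univ.filter (fun q => ∀ p', pp π = some p' → p04b_Good F π p' q)).card +
          (x + 20 * d ^ 2)) := Finset.sum_le_sum h1
      _ = _ := by rw [Finset.sum_add_distrib, Finset.sum_const, smul_eq_mul]
  -- the target
  set S : Finset (Σ _ : Pt d F × Pairing (Pt d F), Pt d F) :=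
    ((univ : Finset (Pt d F)) ×ˢ B).sigma (fun y => p04b_cand F y.2 y.1) with hS
  have hScard : S.card ≤ Fintype.card (Pt d F) * B.card * (d + 2 * d ^ 2) := by
    rw [hS, Finset.card_sigma]
    calc ∑ y ∈ (univ : Finset (Pt d F)) ×ˢ B, (p04b_cand F y.2 y.1).card
        ≤ ∑ y ∈ (univ : Finset (Pt d F)) ×ˢ B, (d + 2 * d ^ 2) :=
          Finset.sum_le_sum fun y _ => p04b_card_cand F hF _ _
      _ = _ := by
          rw [Finset.sum_const, smul_eq_mul, Finset.card_product, Finset.card_univ]
  have hTS : T.card ≤ S.card := by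
    by_cases hne : Nonempty (Pt d F)
    · let p₀ : Pt d F := hne.some
      let f : (Σ _ : Pairing (Pt d F), Pt d F) → (Σ _ : Pt d F × Pairing (Pt d F), Pt d F) :=
        fun t => ⟨((pp t.1).getD p₀, p04b_sw t.1 ((pp t.1).getD p₀) t.2),
          t.1.1 ((pp t.1).getD p₀)⟩
      have key : ∀ t ∈ T, ∃ p', pp t.1 = some p' ∧ BadPt F t.1 p' ∧ p04b_Good F t.1 p' t.2 ∧
          NB F t.1 = x ∧ t.2 ≠ p' := by
        intro t ht
        rw [hT, Finset.mem_sigma, hA, Finset.mem_filter, Finset.mem_filter] at ht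
        obtain ⟨p', hp', hbad⟩ := hpp t.1 ht.1.2
        have hg := ht.2.2 p' hp'
        refine ⟨p', hp', hbad, hg, ht.1.2, ?_⟩
        intro h
        exact (p04b_good_unfold F _ _ _ hg).1 (by rw [h])
      refine Finset.card_le_card_of_injOn f ?_ ?_
      · intro t ht
        obtain ⟨p', hp', hbad, hg, hx', hne'⟩ := key t ht
        refine Finset.mem_coe.2 ?_
        rw [hS, Finset.mem_sigma, Finset.mem_product]
        simp only [f, hp', Option.getD_some]
        refine ⟨⟨Finset.mem_univ _, ?_⟩, p04b_mem_cand F t.1 p' t.2 hg hbad⟩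
        rw [hB, Finset.mem_filter]
        refine ⟨Finset.mem_univ _, ?_⟩
        rw [← hx']
        exact p04b_NB_lt F t.1 p' t.2 hg hbad
      · intro t ht t' ht' hf
        obtain ⟨p₁, hp₁, hbad₁, hg₁, hx₁, hne₁⟩ := key t ht
        obtain ⟨p₂, hp₂, hbad₂, hg₂, hx₂, hne₂⟩ := key t' ht'
        simp only [f, hp₁, hp₂, Option.getD_some, Sigma.mk.injEq, Prod.mk.injEq] at hf
        obtain ⟨⟨h1, h2⟩, h3⟩ := hf
        subst h1
        have h4 := p04b_sw_inj t.1 t'.1 p₁ t.2 t'.2 hne₁ hne₂ h2 (eq_of_heq h3)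
        obtain ⟨a, b⟩ := t
        obtain ⟨a', b'⟩ := t'
        simp only at h4
        rw [h4.1, h4.2]
    · have : IsEmpty (Pt d F) := not_nonempty_iff.1 hne
      have h1 : T = ∅ := by
        rw [Finset.eq_empty_iff_forall_notMem]
        intro t _
        exact this.false t.2
      rw [h1, Finset.card_empty]
      exact Nat.zero_le _
  have hfin : A.card * Fintype.card (Pt d F) ≤
      Fintype.card (Pt d F) * B.card * (d + 2 * d ^ 2) + A.card * (x + 20 * d ^ 2) := by
    omega
  have hfin' : (A.card : ℝ) * (Fintype.card (Pt d F) : ℝ) ≤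
      (Fintype.card (Pt d F) : ℝ) * (B.card : ℝ) * (d + 2 * (d : ℝ) ^ 2) +
        (A.card : ℝ) * (x + 20 * (d : ℝ) ^ 2) := by
    exact_mod_cast hfin
  nlinarith

end Pool.Agent.HC
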