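import Pool.Agent.Lib.MP_ec42c8_pr.O07

/-!
# SLb : the number of positions of a star forest in a regular graph

PROOF.  Let `l = card L`; `V(S) = L ∪ leaves` has ` (d+1) l` elements; let `H` be `d`-regular, `K ⊆ H`.
To choose `g` with `relG g S ⊆ H` and `Apart K (relG g S)`: choose the images of the centres one after
the other; the star of `z` must be mapped onto all the `d` edges of `H` at `g z` (`deg H (g z) = d`), so
its leaves are mapped bijectively to the neighbours of `g z` (`d!` ways); the values outside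
`V(S)` are arbitrary (` (n - (d+1) l)!` ways).
Upper bound: at most `n` images for each centre.
Lower bound: if `g z` is chosen such that its closed neighbourhood in `H` avoids the vertices
with `deg K ≠ 0` (at most `2 card K`) and the at most ` (d+1) l` images of vertices of the
other stars treated before, everything is injective and apart from `K`.  Each vertex is in `d + 1`
closed neighbourhoods, so at least `n - (d+1) (2 card K + (d+1) l)` choices remain.
Formally: the fibres of `g ↦ g|L` are cosets of the stabilizer of the colouring of the vertices by the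
stars, which has ` (d!)^l (n - (d+1) l)!` elements; count the restrictions.
`SLb_apart`: the expected number of `v ∈ V(S)` with `deg K (g v) ≠ 0` is at most
` (d+1) l · 2 card K / n`.
-/

set_option autoImplicit false

namespace Pool.Agent.HC

open Finset
open scoped Classical

/-! ### neighbours -/

/-- neighbours of `v` -/
noncomputable def slb_nb {n : ℕ} (S : Gr n) (v : Fin n) : Finset (Fin n) :=
  Finset.univ.filter (fun x => ∃ e ∈ S, e.1 = s(v, x))

lemma slb_mem_nb {n : ℕ} {S : Gr n} {v x : Fin n} : x ∈ slb_nb S v ↔ ∃ e ∈ S, e.1 = s(v, x) := by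
  simp [slb_nb]

lemma slb_nb_symm {n : ℕ} {S : Gr n} {v x : Fin n} (h : x ∈ slb_nb S v) : v ∈ slb_nb S x := by
  rw [slb_mem_nb] at h ⊢
  obtain ⟨e, he, hv⟩ := h
  exact ⟨e, he, hv.trans Sym2.eq_swap⟩

lemma slb_nb_ne {n : ℕ} {S : Gr n} {v x : Fin n} (h : x ∈ slb_nb S v) : v ≠ x := by
  obtain ⟨e, _, hv⟩ := slb_mem_nb.1 h
  intro hvx
  have := e.2
  rw [hv, hvx] at this
  exact this (by simp)

lemma slb_nb_card {n : ℕ} (S : Gr n) (v : Fin n) : (slb_nb S v).card = deg S v := by
  unfold deg
  refine Finset.card_bij (fun x hx => mkE v x (slb_nb_ne hx)) ?_ ?_ ?_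
  · intro x hx
    obtain ⟨e, he, hv⟩ := slb_mem_nb.1 hx
    rw [Finset.mem_filter]
    have : mkE v x (slb_nb_ne hx) = e := Subtype.ext hv.symm
    rw [this]
    exact ⟨he, by rw [hv]; simp⟩
  · intro x hx y hy hxy
    have h1 : s(v, x) = s(v, y) := congrArg Subtype.val hxy
    exact Sym2.congr_right.1 h1
  · intro e he
    rw [Finset.mem_filter] at he
    obtain ⟨he, hv⟩ := he
    have h1 : e.1 = s(v, Sym2.Mem.other hv) := (Sym2.other_spec hv).symm
    have hx : Sym2.Mem.other hv ∈ slb_nb S v := slb_mem_nb.2 ⟨e, he, h1⟩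
    exact ⟨Sym2.Mem.other hv, hx, Subtype.ext h1.symm⟩

lemma slb_nb_relG {n : ℕ} (S : Gr n) (g : Equiv.Perm (Fin n)) (v x : Fin n)
    (h : x ∈ slb_nb S v) : g x ∈ slb_nb (relG g S) (g v) := by
  obtain ⟨e, he, hv⟩ := slb_mem_nb.1 h
  refine slb_mem_nb.2 ⟨relE g e, (relE_mem_relG g S e).2 he, ?_⟩
  rw [relE_val, hv, Sym2.map_mk]

lemma slb_nb_mono {n : ℕ} {S H : Gr n} (h : S ⊆ H) (v : Fin n) : slb_nb S v ⊆ slb_nb H v := by
  intro x hx
  obtain ⟨e, he, hv⟩ := slb_mem_nb.1 hx
  exact slb_mem_nb.2 ⟨e, h he, hv⟩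

/-! ### the vertices of a graph -/

/-- the vertices of nonzero degree -/
noncomputable def slb_V {n : ℕ} (K : Gr n) : Finset (Fin n) :=
  Finset.univ.filter (fun v => deg K v ≠ 0)

lemma slb_mem_V {n : ℕ} {K : Gr n} {v : Fin n} : v ∈ slb_V K ↔ deg K v ≠ 0 := by
  simp [slb_V]

lemma slb_V_card {n : ℕ} (K : Gr n) : (slb_V K).card ≤ 2 * K.card := by
  have h1 : slb_V K ⊆ K.biUnion (fun e => Finset.univ.filter (fun v => v ∈ e.1)) := by
    intro v hv
    rw [slb_mem_V] at hv
    unfold deg at hv
    obtain ⟨e, he⟩ := Finset.card_ne_zero.1 hv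
    rw [Finset.mem_filter] at he
    exact Finset.mem_biUnion.2 ⟨e, he.1, by simp [he.2]⟩
  refine (Finset.card_le_card h1).trans ?_
  refine (Finset.card_biUnion_le_card_mul K _ 2 ?_).trans (by rw [mul_comm])
  intro e _
  obtain ⟨e, he⟩ := e
  induction e using Sym2.inductionOn with
  | hf x y =>
    have : (Finset.univ.filter (fun v => v ∈ s(x, y))) ⊆ {x, y} := by
      intro v hv
      simpa using hv
    exact (Finset.card_le_card this).trans Finset.card_le_two

lemma slb_leaf_unique {n d : ℕ} {L : Finset (Fin n)} {S : Gr n} (hS : StarForest d L S)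
    {x z z' : Fin n} (hx : x ∉ L) (h : x ∈ slb_nb S z) (h' : x ∈ slb_nb S z') : z = z' := by
  have h1 := hS.leaf x hx
  rw [← slb_nb_card] at h1
  exact Finset.card_le_one.1 h1 z (slb_nb_symm h) z' (slb_nb_symm h')

lemma slb_nb_notMem {n d : ℕ} {L : Finset (Fin n)} {S : Gr n} (hS : StarForest d L S)
    {x z : Fin n} (hz : z ∈ L) (h : x ∈ slb_nb S z) : x ∉ L := by
  obtain ⟨e, he, hv⟩ := slb_mem_nb.1 h
  obtain ⟨z', hz', x', hx', h1⟩ := hS.edge e he
  rw [hv] at h1
  rcases Sym2.eq_iff.1 h1 with ⟨h2, h3⟩ | ⟨h2, h3⟩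
  · rw [h3]; exact hx'
  · rw [h2] at hz; exact absurd hz hx'

lemma slb_V_eq {n d : ℕ} (hd : 1 ≤ d) {L : Finset (Fin n)} {S : Gr n} (hS : StarForest d L S) :
    slb_V S = L ∪ L.biUnion (fun z => slb_nb S z) := by
  ext v
  rw [slb_mem_V, Finset.mem_union, Finset.mem_biUnion]
  constructor
  · intro hv
    by_cases hvL : v ∈ L
    · exact Or.inl hvL
    · right
      unfold deg at hv
      obtain ⟨e, he⟩ := Finset.card_ne_zero.1 hv
      rw [Finset.mem_filter] at he
      obtain ⟨z, hz, x, hx, h1⟩ := hS.edge e he.1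
      have h2 : v = x := by
        have := he.2
        rw [h1, Sym2.mem_iff] at this
        rcases this with h | h
        · rw [h] at hvL; exact absurd hz hvL
        · exact h
      exact ⟨z, hz, slb_mem_nb.2 ⟨e, he.1, by rw [h2]; exact h1⟩⟩
  · rintro (hv | ⟨z, hz, hv⟩)
    · rw [hS.center v hv]; omega
    · rw [← slb_nb_card]
      exact Finset.card_ne_zero_of_mem (slb_nb_symm hv)

lemma slb_V_sub {n d : ℕ} {L : Finset (Fin n)} {S : Gr n} (hS : StarForest d L S) :
    slb_V S ⊆ L ∪ L.biUnion (fun z => slb_nb S z) := by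
  intro v
  rw [slb_mem_V, Finset.mem_union, Finset.mem_biUnion]
  intro hv
  by_cases hvL : v ∈ L
  · exact Or.inl hvL
  · right
    unfold deg at hv
    obtain ⟨e, he⟩ := Finset.card_ne_zero.1 hv
    rw [Finset.mem_filter] at he
    obtain ⟨z, hz, x, hx, h1⟩ := hS.edge e he.1
    have h2 : v = x := by
      have := he.2
      rw [h1, Sym2.mem_iff] at this
      rcases this with h | h
      · rw [h] at hvL; exact absurd hz hvL
      · exact h
    exact ⟨z, hz, slb_mem_nb.2 ⟨e, he.1, by rw [h2]; exact h1⟩⟩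

lemma slb_V_card_eq {n d : ℕ} (hd : 1 ≤ d) {L : Finset (Fin n)} {S : Gr n}
    (hS : StarForest d L S) : (slb_V S).card = (d + 1) * L.card := by
  rw [slb_V_eq hd hS, Finset.card_union_of_disjoint, Finset.card_biUnion]
  · have : ∀ z ∈ L, (slb_nb S z).card = d := fun z hz => by
      rw [slb_nb_card]; exact hS.center z hz
    rw [Finset.sum_congr rfl this, Finset.sum_const, smul_eq_mul]
    ring
  · intro z hz z' hz' hzz
    refine Finset.disjoint_left.2 (fun x hx hx' => hzz ?_)
    exact slb_leaf_unique hS (slb_nb_notMem hS hz hx) hx hx'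
  · refine Finset.disjoint_left.2 (fun x hx hx' => ?_)
    obtain ⟨z, hz, h⟩ := Finset.mem_biUnion.1 hx'
    exact slb_nb_notMem hS hz h hx

lemma slb_V_card_le {n d : ℕ} {L : Finset (Fin n)} {S : Gr n}
    (hS : StarForest d L S) : (slb_V S).card ≤ (d + 1) * L.card := by
  refine (Finset.card_le_card (slb_V_sub hS)).trans ?_
  refine (Finset.card_union_le _ _).trans ?_
  have h1 : (L.biUnion (fun z => slb_nb S z)).card ≤ L.card * d := by
    refine Finset.card_biUnion_le_card_mul L _ d (fun z hz => ?_)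
    rw [slb_nb_card, hS.center z hz]
  calc L.card + (L.biUnion (fun z => slb_nb S z)).card ≤ L.card + L.card * d :=
        Nat.add_le_add_left h1 _
    _ = (d + 1) * L.card := by ring

/-! ### the colouring by the stars -/

/-- the colouring of the vertices by the stars -/
noncomputable def slb_col {n : ℕ} (L : Finset (Fin n)) (S : Gr n) (v : Fin n) :
    Option (Fin n × Bool) :=
  if v ∈ L then some (v, true)
  else if h : ∃ z ∈ L, v ∈ slb_nb S z then some (h.choose, false) else none

lemma slb_col_center {n : ℕ} {L : Finset (Fin n)} {S : Gr n} {z : Fin n} (hz : z ∈ L) :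
    slb_col L S z = some (z, true) := by
  unfold slb_col; rw [if_pos hz]

lemma slb_col_leaf {n d : ℕ} {L : Finset (Fin n)} {S : Gr n} (hS : StarForest d L S)
    {z x : Fin n} (hz : z ∈ L) (hx : x ∈ slb_nb S z) : slb_col L S x = some (z, false) := by
  have h : ∃ z ∈ L, x ∈ slb_nb S z := ⟨z, hz, hx⟩
  have hxL := slb_nb_notMem hS hz hx
  unfold slb_col
  rw [if_neg hxL, dif_pos h]
  have := slb_leaf_unique hS hxL h.choose_spec.2 hx
  rw [this]

lemma slb_col_true {n : ℕ} {L : Finset (Fin n)} {S : Gr n} {z v : Fin n}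
    (h : slb_col L S v = some (z, true)) : v = z ∧ z ∈ L := by
  unfold slb_col at h
  split_ifs at h with h1 h2
  · simp only [Option.some.injEq, Prod.mk.injEq, and_true] at h
    exact ⟨h, h ▸ h1⟩
  · simp at h

lemma slb_col_false {n : ℕ} {L : Finset (Fin n)} {S : Gr n} {z v : Fin n}
    (h : slb_col L S v = some (z, false)) : z ∈ L ∧ v ∈ slb_nb S z := by
  unfold slb_col at h
  split_ifs at h with h1 h2
  · simp at h
  · simp only [Option.some.injEq, Prod.mk.injEq, and_true] at h
    rw [← h]
    exact h2.choose_spec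

lemma slb_col_none {n d : ℕ} (hd : 1 ≤ d) {L : Finset (Fin n)} {S : Gr n}
    (hS : StarForest d L S) {v : Fin n} : slb_col L S v = none ↔ v ∉ slb_V S := by
  rw [slb_V_eq hd hS, Finset.mem_union, Finset.mem_biUnion]
  unfold slb_col
  by_cases h1 : v ∈ L
  · simp [h1]
  · rw [if_neg h1]
    by_cases h2 : ∃ z ∈ L, v ∈ slb_nb S z
    · rw [dif_pos h2]
      simp only [reduceCtorEq, false_iff, not_not]
      exact Or.inr h2
    · rw [dif_neg h2]
      simp only [true_iff, not_or]
      exact ⟨h1, h2⟩

/-- the permutations that preserve the colouring -/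
noncomputable def slb_St {n : ℕ} (L : Finset (Fin n)) (S : Gr n) :
    Finset (Equiv.Perm (Fin n)) :=
  Finset.univ.filter (fun h => ∀ v, slb_col L S (h v) = slb_col L S v)

lemma slb_mem_St {n : ℕ} {L : Finset (Fin n)} {S : Gr n} {h : Equiv.Perm (Fin n)} :
    h ∈ slb_St L S ↔ ∀ v, slb_col L S (h v) = slb_col L S v := by
  simp [slb_St]

lemma slb_St_card {n d : ℕ} (hd : 1 ≤ d) {L : Finset (Fin n)} {S : Gr n}
    (hS : StarForest d L S) :
    (slb_St L S).card = d.factorial ^ L.card * (n - (d + 1) * L.card).factorial := by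
  have h1 : (slb_St L S).card
      = Fintype.card {g : Equiv.Perm (Fin n) // slb_col L S ∘ g = slb_col L S} := by
    rw [Fintype.card_subtype]
    unfold slb_St
    congr 1
    ext g
    simp only [Finset.mem_filter, Finset.mem_univ, true_and]
    exact ⟨fun h => funext h, fun h v => congrFun h v⟩
  have h2 := DomMulAct.stabilizer_card (slb_col L S)
  have hcl : ∀ i : Option (Fin n × Bool), Fintype.card {a // slb_col L S a = i}
      = (Finset.univ.filter (fun a => slb_col L S a = i)).card := fun i => by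
    rw [Fintype.card_subtype]
  rw [h1]
  have h3 : Fintype.card {g : Equiv.Perm (Fin n) // slb_col L S ∘ g = slb_col L S}
      = ∏ i : Option (Fin n × Bool),
        ((Finset.univ.filter (fun a => slb_col L S a = i)).card).factorial := by
    have h4 : Fintype.card {g : Equiv.Perm (Fin n) // slb_col L S ∘ g = slb_col L S}
        = ∏ i : Option (Fin n × Bool), (Fintype.card {a // slb_col L S a = i}).factorial := by
      convert h2
    rw [h4]
    exact Finset.prod_congr rfl (fun i _ => by rw [hcl i])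
  rw [h3, Fintype.prod_option, Fintype.prod_prod_type]
  have e0 : (Finset.univ.filter (fun a => slb_col L S a = none)).card
      = n - (d + 1) * L.card := by
    have : (Finset.univ.filter (fun a => slb_col L S a = none)) = (slb_V S)ᶜ := by
      ext a
      rw [Finset.mem_compl, Finset.mem_filter, slb_col_none hd hS]
      simp
    rw [this, Finset.card_compl, slb_V_card_eq hd hS, Fintype.card_fin]
  have e1 : ∀ z : Fin n, ∏ b : Bool,
      ((Finset.univ.filter (fun a => slb_col L S a = some (z, b))).card).factorial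
        = if z ∈ L then d.factorial else 1 := by
    intro z
    rw [Fintype.prod_bool]
    by_cases hz : z ∈ L
    · rw [if_pos hz]
      have f1 : (Finset.univ.filter (fun a => slb_col L S a = some (z, true))) = {z} := by
        ext a
        rw [Finset.mem_filter, Finset.mem_singleton]
        constructor
        · intro h; exact (slb_col_true h.2).1
        · intro h; rw [h]; exact ⟨Finset.mem_univ _, slb_col_center hz⟩
      have f2 : (Finset.univ.filter (fun a => slb_col L S a = some (z, false)))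
          = slb_nb S z := by
        ext a
        rw [Finset.mem_filter]
        constructor
        · intro h; exact (slb_col_false h.2).2
        · intro h; exact ⟨Finset.mem_univ _, slb_col_leaf hS hz h⟩
      rw [f1, f2, slb_nb_card, hS.center z hz, Finset.card_singleton]
      simp
    · rw [if_neg hz]
      have f1 : (Finset.univ.filter (fun a => slb_col L S a = some (z, true))) = ∅ := by
        rw [Finset.filter_eq_empty_iff]
        intro a _ h
        exact hz (slb_col_true h).2
      have f2 : (Finset.univ.filter (fun a => slb_col L S a = some (z, false))) = ∅ := by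
        rw [Finset.filter_eq_empty_iff]
        intro a _ h
        exact hz (slb_col_false h).1
      rw [f1, f2]
      simp
  rw [e0, Finset.prod_congr rfl (fun z _ => e1 z), Finset.prod_ite_mem, Finset.univ_inter,
    Finset.prod_const, mul_comm]

lemma slb_St_one {n : ℕ} {L : Finset (Fin n)} {S : Gr n} {h : Equiv.Perm (Fin n)}
    (hh : h ∈ slb_St L S) {z : Fin n} (hz : z ∈ L) : h z = z := by
  rw [slb_mem_St] at hh
  have h1 := hh z
  rw [slb_col_center hz] at h1
  exact (slb_col_true h1).1

lemma slb_St_relG {n d : ℕ} {L : Finset (Fin n)} {S : Gr n} (hS : StarForest d L S)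
    {h : Equiv.Perm (Fin n)} (hh : h ∈ slb_St L S) : relG h S = S := by
  have hsub : relG h S ⊆ S := by
    intro e he
    rw [mem_relG] at he
    set e' := (relE h).symm e with he'
    obtain ⟨z, hz, x, hx, h1⟩ := hS.edge e' he
    have hxz : x ∈ slb_nb S z := slb_mem_nb.2 ⟨e', he, h1⟩
    have h2 : relE h e' = e := by rw [he', Equiv.apply_symm_apply]
    have h3 : e.1 = s(h z, h x) := by
      rw [← h2, relE_val, h1, Sym2.map_mk]
    have h4 : h z = z := slb_St_one hh hz
    have h5 : h x ∈ slb_nb S z := by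
      have := slb_mem_St.1 hh x
      rw [slb_col_leaf hS hz hxz] at this
      exact (slb_col_false this).2
    obtain ⟨e'', he'', h6⟩ := slb_mem_nb.1 h5
    rw [h4] at h3
    have : e = e'' := Subtype.ext (h3.trans h6.symm)
    rw [this]
    exact he''
  exact Finset.eq_of_subset_of_card_le hsub (by rw [card_relG])

/-! ### the fibres of the restriction to the centres -/

/-- admissible positions -/
def slb_P {n : ℕ} (S K H : Gr n) (g : Equiv.Perm (Fin n)) : Prop :=
  Apart K (relG g S) ∧ relG g S ⊆ H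

/-- restriction to the centres -/
def slb_R {n : ℕ} (L : Finset (Fin n)) (g : Equiv.Perm (Fin n)) : {z // z ∈ L} → Fin n :=
  fun z => g z.1

lemma slb_image_nb {n d : ℕ} {L : Finset (Fin n)} {S K H : Gr n} (hS : StarForest d L S)
    (hH : H ∈ Reg n d K) {g : Equiv.Perm (Fin n)} (hg : slb_P S K H g) {z : Fin n} (hz : z ∈ L) :
    (slb_nb S z).image g = slb_nb H (g z) := by
  have hdeg : deg H (g z) = d := by
    unfold Reg at hH
    rw [Finset.mem_filter] at hH
    exact hH.2.2 (g z)
  refine Finset.eq_of_subset_of_card_le ?_ ?_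
  · intro y hy
    obtain ⟨x, hx, rfl⟩ := Finset.mem_image.1 hy
    exact slb_nb_mono hg.2 _ (slb_nb_relG S g z x hx)
  · rw [slb_nb_card, hdeg, Finset.card_image_of_injective _ g.injective, slb_nb_card,
      hS.center z hz]

lemma slb_fibre_mem {n d : ℕ} (hd : 1 ≤ d) {L : Finset (Fin n)} {S K H : Gr n}
    (hS : StarForest d L S) (hH : H ∈ Reg n d K) {g g' : Equiv.Perm (Fin n)}
    (hg : slb_P S K H g) (hg' : slb_P S K H g') (hR : slb_R L g = slb_R L g') :
    g⁻¹ * g' ∈ slb_St L S := by
  have hR' : ∀ z ∈ L, g z = g' z := fun z hz => congrFun hR ⟨z, hz⟩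
  have hz1 : ∀ z ∈ L, (g⁻¹ * g') z = z := by
    intro z hz
    rw [Equiv.Perm.mul_apply, ← hR' z hz]
    exact g.symm_apply_apply z
  have hz2 : ∀ z ∈ L, ∀ x ∈ slb_nb S z, (g⁻¹ * g') x ∈ slb_nb S z := by
    intro z hz x hx
    have h1 : g' x ∈ slb_nb H (g' z) := by
      rw [← slb_image_nb hS hH hg' hz]; exact Finset.mem_image_of_mem _ hx
    rw [← hR' z hz, ← slb_image_nb hS hH hg hz] at h1
    obtain ⟨y, hy, hyx⟩ := Finset.mem_image.1 h1
    have h2 : (g⁻¹ * g') x = y := by
      rw [Equiv.Perm.mul_apply, ← hyx]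
      exact g.symm_apply_apply y
    rw [h2]
    exact hy
  have hV : ∀ v ∈ slb_V S, (g⁻¹ * g') v ∈ slb_V S := by
    intro v hv
    rw [slb_V_eq hd hS, Finset.mem_union, Finset.mem_biUnion] at hv ⊢
    rcases hv with hv | ⟨z, hz, hv⟩
    · left; rw [hz1 v hv]; exact hv
    · right; exact ⟨z, hz, hz2 z hz v hv⟩
  have himg : (slb_V S).image (g⁻¹ * g') = slb_V S := by
    refine Finset.eq_of_subset_of_card_le ?_ ?_
    · intro y hy
      obtain ⟨x, hx, rfl⟩ := Finset.mem_image.1 hy
      exact hV x hx
    · rw [Finset.card_image_of_injective _ (Equiv.injective _)]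
  rw [slb_mem_St]
  intro v
  by_cases hv : v ∈ slb_V S
  · rw [slb_V_eq hd hS, Finset.mem_union, Finset.mem_biUnion] at hv
    rcases hv with hv | ⟨z, hz, hv⟩
    · rw [hz1 v hv]
    · rw [slb_col_leaf hS hz hv, slb_col_leaf hS hz (hz2 z hz v hv)]
  · have hv' : (g⁻¹ * g') v ∉ slb_V S := by
      intro h
      rw [← himg] at h
      obtain ⟨x, hx, hxv⟩ := Finset.mem_image.1 h
      exact hv ((Equiv.injective _ hxv) ▸ hx)
    rw [(slb_col_none hd hS).2 hv, (slb_col_none hd hS).2 hv']

/-- the fibre over `c` -/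
noncomputable def slb_F {n : ℕ} (L : Finset (Fin n)) (S K H : Gr n) (c : {z // z ∈ L} → Fin n) :
    Finset (Equiv.Perm (Fin n)) :=
  Finset.univ.filter (fun g => slb_P S K H g ∧ slb_R L g = c)

lemma slb_fibre_le {n d : ℕ} (hd : 1 ≤ d) {L : Finset (Fin n)} {S K H : Gr n}
    (hS : StarForest d L S) (hH : H ∈ Reg n d K) (c : {z // z ∈ L} → Fin n) :
    (slb_F L S K H c).card ≤ (slb_St L S).card := by
  by_cases hne : (slb_F L S K H c).Nonempty
  · obtain ⟨g₀, hg₀⟩ := hne
    unfold slb_F at hg₀
    rw [Finset.mem_filter] at hg₀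
    refine Finset.card_le_card_of_injOn (fun g => g₀⁻¹ * g) ?_ ?_
    · intro g hg
      have hg' := Finset.mem_coe.1 hg
      unfold slb_F at hg'
      rw [Finset.mem_filter] at hg'
      exact Finset.mem_coe.2 (slb_fibre_mem hd hS hH hg₀.2.1 hg'.2.1 (hg₀.2.2.trans hg'.2.2.symm))
    · intro g _ g' _ h
      exact mul_left_cancel h
  · rw [Finset.not_nonempty_iff_eq_empty.1 hne]
    simp

lemma slb_fibre_ge {n d : ℕ} {L : Finset (Fin n)} {S K H : Gr n}
    (hS : StarForest d L S) (g₀ : Equiv.Perm (Fin n)) (hg₀ : slb_P S K H g₀) :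
    (slb_St L S).card ≤ (slb_F L S K H (slb_R L g₀)).card := by
  refine Finset.card_le_card_of_injOn (fun h => g₀ * h) ?_ ?_
  · intro h hh
    have hh' := Finset.mem_coe.1 hh
    refine Finset.mem_coe.2 ?_
    unfold slb_F
    rw [Finset.mem_filter]
    refine ⟨Finset.mem_univ _, ?_, ?_⟩
    · unfold slb_P
      rw [relG_mul, slb_St_relG hS hh']
      exact hg₀
    · funext z
      show (g₀ * h) z.1 = g₀ z.1
      rw [Equiv.Perm.mul_apply, slb_St_one hh' z.2]
  · intro g _ g' _ h
    exact mul_left_cancel h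

lemma slb_count {n : ℕ} (L : Finset (Fin n)) (S K H : Gr n) :
    (Finset.univ.filter (fun g : Equiv.Perm (Fin n) => slb_P S K H g)).card
      = ∑ c : {z // z ∈ L} → Fin n, (slb_F L S K H c).card := by
  rw [Finset.card_eq_sum_card_fiberwise (f := slb_R L) (t := Finset.univ)
    (fun g _ => Finset.mem_coe.2 (Finset.mem_univ _))]
  refine Finset.sum_congr rfl fun c _ => ?_
  rw [Finset.filter_filter]
  rfl

theorem SLb_upper {n : ℕ} (d : ℕ) (hd : 1 ≤ d) (L : Finset (Fin n)) (S : Gr n)
    (hS : StarForest d L S) (K H : Gr n) (hH : H ∈ Reg n d K) :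
    ((Finset.univ.filter (fun g : Equiv.Perm (Fin n) =>
      Apart K (relG g S) ∧ relG g S ⊆ H)).card : ℝ) ≤
      (n : ℝ) ^ L.card * (d.factorial : ℝ) ^ L.card * ((n - (d + 1) * L.card).factorial : ℝ) := by
  have h1 : (Finset.univ.filter (fun g : Equiv.Perm (Fin n) =>
      Apart K (relG g S) ∧ relG g S ⊆ H)).card
      ≤ n ^ L.card * (d.factorial ^ L.card * (n - (d + 1) * L.card).factorial) := by
    have e0 : (Finset.univ.filter (fun g : Equiv.Perm (Fin n) =>
        Apart K (relG g S) ∧ relG g S ⊆ H))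
        = Finset.univ.filter (fun g : Equiv.Perm (Fin n) => slb_P S K H g) := by
      ext g
      rw [Finset.mem_filter, Finset.mem_filter]
      rfl
    rw [e0, slb_count L S K H]
    calc ∑ c : {z // z ∈ L} → Fin n, (slb_F L S K H c).card
        ≤ ∑ _c : {z // z ∈ L} → Fin n, (slb_St L S).card :=
          Finset.sum_le_sum fun c _ => slb_fibre_le hd hS hH c
      _ = _ := by
          rw [Finset.sum_const, smul_eq_mul, Finset.card_univ, Fintype.card_fun,
            Fintype.card_fin, Fintype.card_coe, slb_St_card hd hS]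
  have h2 : ((Finset.univ.filter (fun g : Equiv.Perm (Fin n) =>
      Apart K (relG g S) ∧ relG g S ⊆ H)).card : ℝ)
      ≤ ((n ^ L.card * (d.factorial ^ L.card * (n - (d + 1) * L.card).factorial) : ℕ) : ℝ) :=
    Nat.cast_le.2 h1
  refine h2.trans (le_of_eq ?_)
  push_cast
  ring

/-! ### greedy choice of the centres -/

lemma slb_bad {n : ℕ} (N : Fin n → Finset (Fin n)) (D : ℕ)
    (hsym : ∀ w, (Finset.univ.filter (fun v => w ∈ N v)).card ≤ D) (W : Finset (Fin n)) :
    (Finset.univ.filter (fun v => ¬ Disjoint (N v) W)).card ≤ W.card * D := by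
  have h1 : Finset.univ.filter (fun v => ¬ Disjoint (N v) W)
      ⊆ W.biUnion (fun w => Finset.univ.filter (fun v => w ∈ N v)) := by
    intro v hv
    rw [Finset.mem_filter, Finset.not_disjoint_iff] at hv
    obtain ⟨_, w, hw, hwW⟩ := hv
    exact Finset.mem_biUnion.2 ⟨w, hwW, by simp [hw]⟩
  exact (Finset.card_le_card h1).trans
    (Finset.card_biUnion_le_card_mul W _ D (fun w _ => hsym w))

/-- good tuples of centres -/
def slb_G {n l : ℕ} (N : Fin n → Finset (Fin n)) (W : Finset (Fin n)) (c : Fin l → Fin n) : Prop :=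
  (∀ i, Disjoint (N (c i)) W) ∧ ∀ i j, i ≠ j → Disjoint (N (c i)) (N (c j))

lemma slb_greedy {n : ℕ} (N : Fin n → Finset (Fin n)) (D : ℕ)
    (hN : ∀ v, (N v).card ≤ D)
    (hsym : ∀ w, (Finset.univ.filter (fun v => w ∈ N v)).card ≤ D) (W : Finset (Fin n))
    (B : ℝ) (hB : B ≤ n) (l : ℕ) (hl : ((W.card + D * l : ℕ) : ℝ) * D ≤ B) :
    ((n : ℝ) - B) ^ l ≤ ((Finset.univ.filter (fun c : Fin l → Fin n => slb_G N W c)).card : ℝ) := by
  induction l with
  | zero =>
    have : (Finset.univ.filter (fun c : Fin 0 → Fin n => slb_G N W c)).card = 1 := by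
      rw [Finset.card_eq_one]
      refine ⟨fun i => i.elim0, ?_⟩
      ext c
      rw [Finset.mem_filter, Finset.mem_singleton]
      constructor
      · intro _; funext i; exact i.elim0
      · intro _; exact ⟨Finset.mem_univ _, fun i => i.elim0, fun i => i.elim0⟩
    rw [this]; simp
  | succ l ih =>
    have hl' : ((W.card + D * l : ℕ) : ℝ) * D ≤ B := by
      refine le_trans ?_ hl
      have : ((W.card + D * l : ℕ) : ℝ) ≤ ((W.card + D * (l + 1) : ℕ) : ℝ) := by
        exact_mod_cast (by nlinarith : W.card + D * l ≤ W.card + D * (l + 1))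
      exact mul_le_mul_of_nonneg_right this (Nat.cast_nonneg D)
    have ih' := ih hl'
    have hsub : ((Finset.univ.filter (fun c : Fin l → Fin n => slb_G N W c)).sigma
        (fun c => Finset.univ.filter (fun x => Disjoint (N x)
          (W ∪ Finset.univ.biUnion (fun i => N (c i)))))).card ≤ (Finset.univ.filter (fun c : Fin (l + 1) → Fin n => slb_G N W c)).card := by
      refine Finset.card_le_card_of_injOn
        (fun p => (Fin.cons p.2 p.1 : Fin (l + 1) → Fin n)) ?_ ?_
      · intro p hp
        have hp' := Finset.mem_coe.1 hp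
        rw [Finset.mem_sigma, Finset.mem_filter, Finset.mem_filter] at hp'
        obtain ⟨⟨_, h1⟩, _, h2⟩ := hp'
        rw [Finset.disjoint_union_right] at h2
        refine Finset.mem_coe.2 (Finset.mem_filter.2 ⟨Finset.mem_univ _, ?_, ?_⟩)
        · intro i
          refine Fin.cases ?_ (fun i => ?_) i
          · simpa using h2.1
          · simpa using h1.1 i
        · have h3 : ∀ i, Disjoint (N p.2) (N (p.1 i)) := fun i =>
            (Finset.disjoint_biUnion_right _ _ _).1 h2.2 i (Finset.mem_univ _)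
          intro i j
          refine Fin.cases ?_ (fun i => ?_) i
          · refine Fin.cases ?_ (fun j => ?_) j
            · intro h; exact absurd rfl h
            · intro _; simpa using h3 j
          · refine Fin.cases ?_ (fun j => ?_) j
            · intro _; simpa using (h3 i).symm
            · intro h
              have : i ≠ j := fun h' => h (by rw [h'])
              simpa using h1.2 i j this
      · intro p _ p' _ h
        have h' : (Fin.cons p.2 p.1 : Fin (l + 1) → Fin n) = Fin.cons p'.2 p'.1 := h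
        rw [Fin.cons_inj] at h'
        obtain ⟨a, b⟩ := p
        obtain ⟨a', b'⟩ := p'
        simp only at h'
        rw [h'.1, h'.2]
    rw [Finset.card_sigma] at hsub
    have hone : ∀ c ∈ Finset.univ.filter (fun c : Fin l → Fin n => slb_G N W c),
        (n : ℝ) - B ≤ ((Finset.univ.filter (fun x => Disjoint (N x)
          (W ∪ Finset.univ.biUnion (fun i => N (c i))))).card : ℝ) := by
      intro c _
      have h1 := Finset.card_filter_add_card_filter_not
        (s := (Finset.univ : Finset (Fin n)))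
        (fun x => Disjoint (N x) (W ∪ Finset.univ.biUnion (fun i => N (c i))))
      rw [Finset.card_univ, Fintype.card_fin] at h1
      have h2 := slb_bad N D hsym (W ∪ Finset.univ.biUnion (fun i => N (c i)))
      have h3 : (W ∪ Finset.univ.biUnion (fun i => N (c i))).card ≤ W.card + D * l := by
        refine (Finset.card_union_le _ _).trans (Nat.add_le_add_left ?_ _)
        refine (Finset.card_biUnion_le_card_mul _ _ D (fun i _ => hN (c i))).trans ?_
        rw [Finset.card_univ, Fintype.card_fin, mul_comm]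
      have h4 : (Finset.univ.filter (fun v => ¬ Disjoint (N v)
          (W ∪ Finset.univ.biUnion (fun i => N (c i))))).card ≤ (W.card + D * l) * D :=
        h2.trans (Nat.mul_le_mul_right _ h3)
      have h5 : ((Finset.univ.filter (fun v => ¬ Disjoint (N v)
          (W ∪ Finset.univ.biUnion (fun i => N (c i))))).card : ℝ)
          ≤ ((W.card + D * l : ℕ) : ℝ) * D := by exact_mod_cast h4
      have h6 : ((Finset.univ.filter (fun x => Disjoint (N x)
          (W ∪ Finset.univ.biUnion (fun i => N (c i))))).card : ℝ)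
          + ((Finset.univ.filter (fun v => ¬ Disjoint (N v)
          (W ∪ Finset.univ.biUnion (fun i => N (c i))))).card : ℝ) = n := by
        exact_mod_cast h1
      linarith
    have hnB : (0 : ℝ) ≤ (n : ℝ) - B := by linarith
    calc ((n : ℝ) - B) ^ (l + 1) = ((n : ℝ) - B) ^ l * ((n : ℝ) - B) := pow_succ _ _
      _ ≤ ((Finset.univ.filter (fun c : Fin l → Fin n => slb_G N W c)).card : ℝ)
          * ((n : ℝ) - B) := mul_le_mul_of_nonneg_right ih' hnB
      _ = ∑ _c ∈ Finset.univ.filter (fun c : Fin l → Fin n => slb_G N W c), ((n : ℝ) - B) := by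
          rw [Finset.sum_const, nsmul_eq_mul]
      _ ≤ ∑ c ∈ Finset.univ.filter (fun c : Fin l → Fin n => slb_G N W c),
          ((Finset.univ.filter (fun x => Disjoint (N x)
            (W ∪ Finset.univ.biUnion (fun i => N (c i))))).card : ℝ) :=
          Finset.sum_le_sum hone
      _ ≤ _ := by exact_mod_cast hsub

/-! ### construction of a position with given good centres -/

lemma slb_bij {n : ℕ} (s t : Finset (Fin n)) (h : s.card = t.card) :
    ∃ f : Fin n → Fin n, (∀ x ∈ s, f x ∈ t) ∧ Set.InjOn f s := by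
  have e : s ≃ t := Finset.equivOfCardEq h
  refine ⟨fun x => if hx : x ∈ s then (e ⟨x, hx⟩).1 else x, fun x hx => ?_, ?_⟩
  · simp only [dif_pos hx]
    exact (e ⟨x, hx⟩).2
  · intro x hx y hy hxy
    have hx' : x ∈ s := hx
    have hy' : y ∈ s := hy
    simp only [dif_pos hx', dif_pos hy'] at hxy
    have := e.injective (Subtype.ext hxy)
    exact congrArg Subtype.val this

lemma slb_ext {n : ℕ} (s : Finset (Fin n)) (f : Fin n → Fin n) (hf : Set.InjOn f s) :
    ∃ τ : Equiv.Perm (Fin n), ∀ v ∈ s, τ v = f v := by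
  obtain ⟨e, he⟩ := Finset.exists_equiv_extend_of_card_eq (α := Fin n) (β := Fin n)
    (t := Finset.univ) (by simp) (s := s) (f := f) (Finset.subset_univ _) hf
  refine ⟨e.trans (Equiv.subtypeUnivEquiv (fun x => Finset.mem_univ x)), fun v hv => ?_⟩
  rw [Equiv.trans_apply]
  exact he v hv

lemma slb_construct {n d : ℕ} (hd : 1 ≤ d) {L : Finset (Fin n)} {S K H : Gr n}
    (hS : StarForest d L S) (hH : H ∈ Reg n d K) (c : {z // z ∈ L} → Fin n)
    (h1 : ∀ i, Disjoint (insert (c i) (slb_nb H (c i))) (slb_V K))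
    (h2 : ∀ i j, i ≠ j → Disjoint (insert (c i) (slb_nb H (c i)))
      (insert (c j) (slb_nb H (c j)))) :
    ∃ g : Equiv.Perm (Fin n), slb_P S K H g ∧ slb_R L g = c := by
  have hdeg : ∀ v, deg H v = d := by
    unfold Reg at hH
    rw [Finset.mem_filter] at hH
    exact hH.2.2
  have hφ : ∀ i : {z // z ∈ L}, ∃ f : Fin n → Fin n,
      (∀ x ∈ slb_nb S i.1, f x ∈ slb_nb H (c i)) ∧ Set.InjOn f (slb_nb S i.1) := by
    intro i
    apply slb_bij
    rw [slb_nb_card, slb_nb_card, hdeg, hS.center i.1 i.2]
  choose φ hφ1 hφ2 using hφ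
  obtain ⟨f, hfc, hfl⟩ : ∃ f : Fin n → Fin n, (∀ i : {z // z ∈ L}, f i.1 = c i) ∧
      ∀ i : {z // z ∈ L}, ∀ x ∈ slb_nb S i.1, f x = φ i x := by
    refine ⟨fun v => if hv : v ∈ L then c ⟨v, hv⟩ else
      if h : ∃ i : {z // z ∈ L}, v ∈ slb_nb S i.1 then φ h.choose v else v, ?_, ?_⟩
    · intro i
      simp only [dif_pos i.2]
    · intro i x hx
      have hxL := slb_nb_notMem hS i.2 hx
      have h : ∃ i : {z // z ∈ L}, x ∈ slb_nb S i.1 := ⟨i, hx⟩
      simp only [dif_neg hxL, dif_pos h]
      have : h.choose = i := Subtype.ext (slb_leaf_unique hS hxL h.choose_spec hx)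
      rw [this]
  have hfm : ∀ i : {z // z ∈ L}, ∀ x, x = i.1 ∨ x ∈ slb_nb S i.1 →
      f x ∈ insert (c i) (slb_nb H (c i)) := by
    intro i x hx
    rcases hx with hx | hx
    · rw [hx, hfc i]; exact Finset.mem_insert_self _ _
    · rw [hfl i x hx]; exact Finset.mem_insert_of_mem (hφ1 i x hx)
  have hVi : ∀ x ∈ slb_V S, ∃ i : {z // z ∈ L}, x = i.1 ∨ x ∈ slb_nb S i.1 := by
    intro x hx
    rw [slb_V_eq hd hS, Finset.mem_union, Finset.mem_biUnion] at hx
    rcases hx with hx | ⟨z, hz, hx⟩
    · exact ⟨⟨x, hx⟩, Or.inl rfl⟩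
    · exact ⟨⟨z, hz⟩, Or.inr hx⟩
  have hinj : Set.InjOn f (slb_V S) := by
    intro x hx y hy hxy
    obtain ⟨i, hi⟩ := hVi x hx
    obtain ⟨j, hj⟩ := hVi y hy
    have hij : i = j := by
      by_contra hne
      exact Finset.disjoint_left.1 (h2 i j hne) (hfm i x hi) (hxy ▸ hfm j y hj)
    subst hij
    have hcn : ∀ w, w ∈ slb_nb H (c i) → w ≠ c i := fun w hw h => slb_nb_ne hw h.symm
    rcases hi with hi | hi
    · rcases hj with hj | hj
      · rw [hi, hj]
      · exfalso
        rw [hi, hfc i, hfl i y hj] at hxy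
        exact hcn _ (hφ1 i y hj) hxy.symm
    · rcases hj with hj | hj
      · exfalso
        rw [hj, hfc i, hfl i x hi] at hxy
        exact hcn _ (hφ1 i x hi) hxy
      · rw [hfl i x hi, hfl i y hj] at hxy
        exact hφ2 i hi hj hxy
  obtain ⟨τ, hτ⟩ := slb_ext (slb_V S) f hinj
  have hLV : ∀ i : {z // z ∈ L}, i.1 ∈ slb_V S := fun i => by
    rw [slb_V_eq hd hS]; exact Finset.mem_union_left _ i.2
  refine ⟨τ, ⟨?_, ?_⟩, ?_⟩
  · intro v
    by_cases hv : deg (relG τ S) v = 0
    · exact Or.inr hv
    · left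
      have h3 : deg S (τ.symm v) ≠ 0 := by
        have := deg_relG τ S (τ.symm v)
        rw [Equiv.apply_symm_apply] at this
        rwa [this] at hv
      have h4 := slb_mem_V.2 h3
      obtain ⟨i, hi⟩ := hVi _ h4
      have h5 := hfm i _ hi
      rw [← hτ _ h4, Equiv.apply_symm_apply] at h5
      by_contra h6
      exact Finset.disjoint_left.1 (h1 i) h5 (slb_mem_V.2 h6)
  · intro e he
    rw [mem_relG] at he
    obtain ⟨z, hz, x, hx, h3⟩ := hS.edge _ he
    have hxz : x ∈ slb_nb S z := slb_mem_nb.2 ⟨_, he, h3⟩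
    have hxV : x ∈ slb_V S := by
      rw [slb_V_eq hd hS]
      exact Finset.mem_union_right _ (Finset.mem_biUnion.2 ⟨z, hz, hxz⟩)
    have h4 : e.1 = s(c ⟨z, hz⟩, φ ⟨z, hz⟩ x) := by
      have h5 : relE τ ((relE τ).symm e) = e := Equiv.apply_symm_apply _ _
      rw [← h5, relE_val, h3, Sym2.map_mk, hτ z (hLV ⟨z, hz⟩), hτ x hxV, hfc ⟨z, hz⟩,
        hfl ⟨z, hz⟩ x hxz]
    obtain ⟨e', he', h6⟩ := slb_mem_nb.1 (hφ1 ⟨z, hz⟩ x hxz)
    have : e = e' := Subtype.ext (h4.trans h6.symm)
    rw [this]
    exact he'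
  · funext i
    show τ i.1 = c i
    rw [hτ _ (hLV i), hfc i]

theorem SLb_lower {n : ℕ} (d : ℕ) (hd : 1 ≤ d) (L : Finset (Fin n)) (S : Gr n)
    (hS : StarForest d L S) (K H : Gr n) (hH : H ∈ Reg n d K)
    (hn : (d + 1) * (2 * K.card + (d + 1) * L.card) ≤ n) :
    ((n : ℝ) - (d + 1) * (2 * K.card + (d + 1) * L.card)) ^ L.card *
        (d.factorial : ℝ) ^ L.card * ((n - (d + 1) * L.card).factorial : ℝ) ≤
      ((Finset.univ.filter (fun g : Equiv.Perm (Fin n) =>
        Apart K (relG g S) ∧ relG g S ⊆ H)).card : ℝ) := by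
  have hdeg : ∀ v, deg H v = d := by
    unfold Reg at hH
    rw [Finset.mem_filter] at hH
    exact hH.2.2
  have hG := slb_greedy (fun v => insert v (slb_nb H v)) (d + 1)
    (fun v => by
      refine (Finset.card_insert_le _ _).trans ?_
      rw [slb_nb_card, hdeg])
    (fun w => by
      have : Finset.univ.filter (fun v => w ∈ insert v (slb_nb H v))
          ⊆ insert w (slb_nb H w) := by
        intro v hv
        rw [Finset.mem_filter, Finset.mem_insert] at hv
        rcases hv.2 with h | h
        · rw [h]; exact Finset.mem_insert_self _ _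
        · exact Finset.mem_insert_of_mem (slb_nb_symm h)
      refine (Finset.card_le_card this).trans ((Finset.card_insert_le _ _).trans ?_)
      rw [slb_nb_card, hdeg])
    (slb_V K) ((d + 1) * (2 * K.card + (d + 1) * L.card))
    (by exact_mod_cast hn) L.card (by
      have h1 := slb_V_card K
      have : ((slb_V K).card + (d + 1) * L.card) * (d + 1)
          ≤ (d + 1) * (2 * K.card + (d + 1) * L.card) := by
        rw [mul_comm]
        exact Nat.mul_le_mul_left _ (Nat.add_le_add_right h1 _)
      exact_mod_cast this)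
  -- transfer to functions on the centres
  have hcard : (Finset.univ.filter (fun c : Fin L.card → Fin n =>
      slb_G (fun v => insert v (slb_nb H v)) (slb_V K) c)).card
      * (slb_St L S).card ≤ (Finset.univ.filter (fun g : Equiv.Perm (Fin n) =>
        slb_P S K H g)).card := by
    rw [slb_count L S K H]
    have e : {z // z ∈ L} ≃ Fin L.card := L.equivFin
    have h3 : ∀ c : Fin L.card → Fin n,
        slb_G (fun v => insert v (slb_nb H v)) (slb_V K) c →
        (slb_St L S).card ≤ (slb_F L S K H (fun z => c (e z))).card := by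
      intro c hc
      obtain ⟨g, hg, hgc⟩ := slb_construct hd hS hH (fun z => c (e z))
        (fun i => hc.1 (e i)) (fun i j hij => hc.2 (e i) (e j) (fun h => hij (e.injective h)))
      rw [← hgc]
      exact slb_fibre_ge hS g hg
    calc (Finset.univ.filter (fun c : Fin L.card → Fin n =>
          slb_G (fun v => insert v (slb_nb H v)) (slb_V K) c)).card * (slb_St L S).card
        = ∑ _c ∈ Finset.univ.filter (fun c : Fin L.card → Fin n =>
          slb_G (fun v => insert v (slb_nb H v)) (slb_V K) c), (slb_St L S).card := by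
          rw [Finset.sum_const, smul_eq_mul]
      _ ≤ ∑ c ∈ Finset.univ.filter (fun c : Fin L.card → Fin n =>
          slb_G (fun v => insert v (slb_nb H v)) (slb_V K) c),
          (slb_F L S K H (fun z => c (e z))).card :=
          Finset.sum_le_sum fun c hc => h3 c (Finset.mem_filter.1 hc).2
      _ ≤ ∑ c : Fin L.card → Fin n, (slb_F L S K H (fun z => c (e z))).card :=
          Finset.sum_le_sum_of_subset (Finset.filter_subset _ _)
      _ = ∑ c : {z // z ∈ L} → Fin n, (slb_F L S K H c).card :=
          (Equiv.arrowCongr e.symm (Equiv.refl (Fin n))).sum_comp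
            (fun c => (slb_F L S K H c).card)
  rw [slb_St_card hd hS] at hcard
  have e0 : (Finset.univ.filter (fun g : Equiv.Perm (Fin n) =>
      Apart K (relG g S) ∧ relG g S ⊆ H))
      = Finset.univ.filter (fun g : Equiv.Perm (Fin n) => slb_P S K H g) := by
    ext g
    rw [Finset.mem_filter, Finset.mem_filter]
    rfl
  rw [e0]
  have hcard' : ((Finset.univ.filter (fun c : Fin L.card → Fin n =>
      slb_G (fun v => insert v (slb_nb H v)) (slb_V K) c)).card : ℝ)
      * ((d.factorial : ℝ) ^ L.card * ((n - (d + 1) * L.card).factorial : ℝ))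
      ≤ ((Finset.univ.filter (fun g : Equiv.Perm (Fin n) => slb_P S K H g)).card : ℝ) := by
    exact_mod_cast hcard
  refine le_trans ?_ hcard'
  rw [mul_assoc]
  exact mul_le_mul_of_nonneg_right hG (by positivity)

/-! ### apartness of a random position -/

lemma slb_av_perm {n : ℕ} (u : Fin n) (f : Fin n → ℝ) :
    av (fun g : Equiv.Perm (Fin n) => f (g u)) = av f := by
  have : Nonempty (Fin n) := ⟨u⟩
  have h1 : ∀ u', av (fun g : Equiv.Perm (Fin n) => f (g u'))
      = av (fun g : Equiv.Perm (Fin n) => f (g u)) := by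
    intro u'
    have := av_equiv (Equiv.mulRight (Equiv.swap u u'))
      (fun g : Equiv.Perm (Fin n) => f (g u))
    rw [← this]
    refine av_congr fun g => ?_
    simp [Equiv.swap_apply_left]
  calc av (fun g : Equiv.Perm (Fin n) => f (g u))
      = av (fun _ : Fin n => av (fun g : Equiv.Perm (Fin n) => f (g u))) := (av_const _).symm
    _ = av (fun u' : Fin n => av (fun g : Equiv.Perm (Fin n) => f (g u'))) :=
        av_congr fun u' => (h1 u').symm
    _ = av (fun g : Equiv.Perm (Fin n) => av (fun u' : Fin n => f (g u'))) := av_comm _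
    _ = av (fun _ : Equiv.Perm (Fin n) => av f) := av_congr fun g => av_equiv g f
    _ = av f := av_const _

theorem SLb_apart {n : ℕ} (d : ℕ) (hn : 1 ≤ n) (L : Finset (Fin n)) (S : Gr n)
    (hS : StarForest d L S) (K : Gr n) :
    pr (fun g : Equiv.Perm (Fin n) => ¬ Apart K (relG g S)) ≤
      ((d : ℝ) + 1) * L.card * (2 * K.card) / n := by
  have hn' : (0 : ℝ) < n := by exact_mod_cast hn
  have h1 : pr (fun g : Equiv.Perm (Fin n) => ¬ Apart K (relG g S))
      ≤ pr (fun g : Equiv.Perm (Fin n) => ∃ u ∈ slb_V S, g u ∈ slb_V K) := by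
    refine pr_mono fun g hg => ?_
    unfold Apart at hg
    push Not at hg
    obtain ⟨v, hv, hv'⟩ := hg
    refine ⟨g.symm v, ?_, ?_⟩
    · rw [slb_mem_V]
      have := deg_relG g S (g.symm v)
      rw [Equiv.apply_symm_apply] at this
      rwa [this] at hv'
    · rw [Equiv.apply_symm_apply, slb_mem_V]
      exact hv
  refine h1.trans ((pr_exists_le (slb_V S)
    (fun u (g : Equiv.Perm (Fin n)) => g u ∈ slb_V K)).trans ?_)
  have h2 : ∀ u ∈ slb_V S, pr (fun g : Equiv.Perm (Fin n) => g u ∈ slb_V K)
      = ((slb_V K).card : ℝ) / n := by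
    intro u _
    have h0 : pr (fun g : Equiv.Perm (Fin n) => g u ∈ slb_V K)
        = av (fun v : Fin n => if v ∈ slb_V K then (1 : ℝ) else 0) := by
      rw [← slb_av_perm u (fun v => if v ∈ slb_V K then (1 : ℝ) else 0)]
      unfold pr
      refine av_congr fun g => ?_
      by_cases h : g u ∈ slb_V K <;> simp [h]
    rw [h0]
    unfold av
    rw [Fintype.card_fin, Finset.sum_ite_mem, Finset.univ_inter, Finset.sum_const, nsmul_eq_mul,
      mul_one]
  rw [Finset.sum_congr rfl h2, Finset.sum_const, nsmul_eq_mul, mul_div_assoc']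
  apply div_le_div_of_nonneg_right _ hn'.le
  have h3 : ((slb_V S).card : ℝ) ≤ ((d : ℝ) + 1) * L.card := by
    exact_mod_cast slb_V_card_le hS
  have h4 : ((slb_V K).card : ℝ) ≤ 2 * K.card := by
    exact_mod_cast slb_V_card K
  exact mul_le_mul h3 h4 (Nat.cast_nonneg _) (by positivity)

end Pool.Agent.HC
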