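import Pool.Agent.Lib.MP_ec42c8_pr.SLa
import Pool.Agent.Lib.MP_ec42c8_pr.SLb

/-!
# SL : planting a random star forest does not change the law of the regular graph

PROOF.  Let `l = card L`; for `H ∈ Reg n d K` let `N(H)` be the number of `g` with
`Apart K (relG g S)` and `relG g S ⊆ H`; `R` the common value of `card (Reg n d (K ∪ relG g S))` for the
`g` with `Apart K (relG g S)` (`SLa`).
The left average is `∑ over H ∈ Reg n d K of Φ H · N(H) / (n! R)`: exchange the sums over `g` and `H`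
(`H ∈ Reg n d (K ∪ relG g S)` iff `H ∈ Reg n d K` and `relG g S ⊆ H`).
Let `f H = card (Reg n d K) N(H) / (n! R)`; then the left average is `avOn (Reg n d K) (f Φ)`, and for
`Φ = 1` it is `p := pr (Apart K (relG g S))` if `R ≠ 0`.  By `SLb` and ` (1 - x) ^ l ≥ 1 - l x` (Bernoulli) all
values `N(H)` are in `[(1 - ε₁) A, A]`, `ε₁ = (d+1) (2 card K + (d+1) l) l / n`; we may assume
`ε₁ ≤ 1/2` (otherwise the right side is at least `1` and the left side is at most `1`); then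
`N(H) > 0`, so `R ≠ 0`.  The values of `f` are in `[(1 - ε₁) a, a]`, their average is `p ≤ 1`, so
`p ≤ a ≤ p / (1 - ε₁) ≤ 1 + 2 ε₁`, and `f ≥ (1 - ε₁) p`, so `|f - 1| ≤ (1 - p) + 2 ε₁`.  With
`SLb_apart` the total is at most
` ((d+1) l 2 card K + 2 (d+1) l (2 card K + (d+1) l)) / n ≤ 4 (d+1)² l (2 card K + l) / n`.
-/

set_option autoImplicit false

namespace Pool.Agent.HC

open Finset
open scoped Classical

lemma sl_arith (R F A t Φs Ns ΦN Ap e q : ℝ) (hF : 0 < F) (hR : 0 < R) (hA : 0 < A)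
    (ht : 0 < t) (he : 0 ≤ e) (he' : e ≤ 1 / 2) (hq : 0 ≤ q) (hΦ0 : 0 ≤ Φs) (hΦ1 : Φs ≤ t)
    (h1 : (1 - e) * A * Φs ≤ ΦN) (h2 : ΦN ≤ A * Φs) (h3 : (1 - e) * A * t ≤ Ns)
    (h4 : Ns ≤ A * t) (h5 : Ap * R = Ns) (h6 : Ap ≤ F) (h7 : (1 - q) * F ≤ Ap) :
    |ΦN / (R * F) - Φs / t| ≤ 2 * e + q := by
  have hRF : 0 < R * F := mul_pos hR hF
  set φ := Φs / t with hφ
  have hφ0 : 0 ≤ φ := div_nonneg hΦ0 ht.le
  have hφ1 : φ ≤ 1 := (div_le_one ht).2 hΦ1
  have hφt : φ * t = Φs := div_mul_cancel₀ _ ht.ne'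
  have hRF1 : Ns ≤ R * F := by
    rw [← h5, mul_comm]; exact mul_le_mul_of_nonneg_left h6 hR.le
  have hRF2 : (1 - q) * (R * F) ≤ Ns := by
    rw [← h5]
    nlinarith [mul_le_mul_of_nonneg_left h7 hR.le]
  have hAt : 0 < A * t := mul_pos hA ht
  rw [abs_le]
  constructor
  · rw [le_sub_iff_add_le, le_div_iff₀ hRF]
    have k1 : -(2 * e + q) + φ ≤ φ * (1 - e) * (1 - q) := by
      have : 0 ≤ φ * (e * q) := by positivity
      nlinarith [mul_nonneg he (sub_nonneg.2 hφ1), mul_nonneg hq (sub_nonneg.2 hφ1)]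
    calc (-(2 * e + q) + φ) * (R * F) ≤ φ * (1 - e) * (1 - q) * (R * F) :=
          mul_le_mul_of_nonneg_right k1 hRF.le
      _ = φ * (1 - e) * ((1 - q) * (R * F)) := by ring
      _ ≤ φ * (1 - e) * (A * t) :=
          mul_le_mul_of_nonneg_left (hRF2.trans h4) (mul_nonneg hφ0 (by linarith))
      _ = (1 - e) * A * (φ * t) := by ring
      _ = (1 - e) * A * Φs := by rw [hφt]
      _ ≤ ΦN := h1
  · rw [sub_le_iff_le_add, div_le_iff₀ hRF]
    have k1 : φ ≤ (2 * e + φ) * (1 - e) := by nlinarith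
    calc ΦN ≤ A * Φs := h2
      _ = A * t * φ := by rw [← hφt]; ring
      _ ≤ A * t * ((2 * e + φ) * (1 - e)) := mul_le_mul_of_nonneg_left k1 hAt.le
      _ = (2 * e + φ) * ((1 - e) * A * t) := by ring
      _ ≤ (2 * e + φ) * (R * F) :=
          mul_le_mul_of_nonneg_left (h3.trans hRF1) (by positivity)
      _ ≤ (2 * e + q + φ) * (R * F) := by
          apply mul_le_mul_of_nonneg_right _ hRF.le
          linarith

lemma sl_Reg {n d : ℕ} (K S' : Gr n) :
    Reg n d (K ∪ S') = (Reg n d K).filter (fun H => S' ⊆ H) := by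
  ext H
  simp only [Reg, Finset.mem_filter, Finset.mem_univ, true_and, Finset.union_subset_iff]
  tauto

lemma sl_double {n d : ℕ} (K S : Gr n) (Φ : Gr n → ℝ) :
    ∑ g ∈ Finset.univ.filter (fun g : Equiv.Perm (Fin n) => Apart K (relG g S)),
      ∑ H ∈ Reg n d (K ∪ relG g S), Φ H
    = ∑ H ∈ Reg n d K, Φ H * ((Finset.univ.filter (fun g : Equiv.Perm (Fin n) =>
        Apart K (relG g S) ∧ relG g S ⊆ H)).card : ℝ) := by
  have h1 : ∀ g ∈ Finset.univ.filter (fun g : Equiv.Perm (Fin n) => Apart K (relG g S)),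
      ∑ H ∈ Reg n d (K ∪ relG g S), Φ H
        = ∑ H ∈ Reg n d K, if relG g S ⊆ H then Φ H else 0 := by
    intro g _
    rw [sl_Reg, Finset.sum_filter]
  rw [Finset.sum_congr rfl h1, Finset.sum_comm]
  refine Finset.sum_congr rfl fun H _ => ?_
  rw [← Finset.sum_filter, Finset.filter_filter, Finset.sum_const, nsmul_eq_mul, mul_comm]

lemma sl_empty {n d : ℕ} {S : Gr n} (hS : StarForest d ∅ S) : S = ∅ := by
  rw [Finset.eq_empty_iff_forall_notMem]
  intro e he
  obtain ⟨z, hz, _⟩ := hS.edge e he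
  simp at hz

theorem SL {n : ℕ} (d : ℕ) (hd : 1 ≤ d) (hn : 1 ≤ n) (L : Finset (Fin n)) (S : Gr n)
    (hS : StarForest d L S) (K : Gr n) (hK : (Reg n d K).Nonempty)
    (Φ : Gr n → ℝ) (hΦ : Unit01 Φ) :
    |av (fun g : Equiv.Perm (Fin n) =>
        if Apart K (relG g S) then avOn (Reg n d (K ∪ relG g S)) Φ else 0) -
      avOn (Reg n d K) Φ| ≤
      4 * ((d : ℝ) + 1) ^ 2 * L.card * (2 * K.card + L.card) / n := by
  have hn' : (0 : ℝ) < n := by exact_mod_cast hn
  set l : ℝ := (L.card : ℝ) with hl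
  set k : ℝ := (K.card : ℝ) with hk
  have hl0 : 0 ≤ l := Nat.cast_nonneg _
  have hk0 : 0 ≤ k := Nat.cast_nonneg _
  have hd0 : (0 : ℝ) ≤ d := Nat.cast_nonneg _
  set ε : ℝ := ((d : ℝ) + 1) ^ 2 * l * (2 * k + l) / n with hε
  have hε0 : 0 ≤ ε := by positivity
  have hgoal : 4 * ((d : ℝ) + 1) ^ 2 * l * (2 * k + l) / n = 4 * ε := by rw [hε]; ring
  rw [hgoal]
  have hu := avOn_unit (s := Reg n d K) hΦ
  have hu' : ∀ g : Equiv.Perm (Fin n), 0 ≤ (if Apart K (relG g S) then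
      avOn (Reg n d (K ∪ relG g S)) Φ else 0) ∧ (if Apart K (relG g S) then
      avOn (Reg n d (K ∪ relG g S)) Φ else 0) ≤ 1 := by
    intro g
    split_ifs
    · exact avOn_unit hΦ
    · exact ⟨le_rfl, zero_le_one⟩
  have hav0 := av_nonneg (fun g => (hu' g).1)
  have hav1 := av_le_const (fun g => (hu' g).2)
  by_cases hbig : 1 / 4 ≤ ε
  · refine le_trans ?_ (by linarith : (1 : ℝ) ≤ 4 * ε)
    rw [abs_le]
    constructor <;> linarith [hu.1, hu.2]
  have hsmall : ε < 1 / 4 := not_le.1 hbig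
  by_cases hL : L = ∅
  · subst hL
    have hSe := sl_empty hS
    subst hSe
    have h1 : ∀ g : Equiv.Perm (Fin n), relG g (∅ : Gr n) = ∅ := fun g => by
      simp [relG]
    have h2 : ∀ g : Equiv.Perm (Fin n), (if Apart K (relG g (∅ : Gr n)) then
        avOn (Reg n d (K ∪ relG g (∅ : Gr n))) Φ else 0) = avOn (Reg n d K) Φ := by
      intro g
      rw [h1, if_pos, Finset.union_empty]
      intro v
      right
      simp [deg]
    rw [av_congr h2, av_const, sub_self, abs_zero]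
    positivity
  have hl1 : 1 ≤ l := by
    rw [hl]
    exact_mod_cast Finset.card_pos.2 (Finset.nonempty_iff_ne_empty.2 hL)
  -- the first error
  set x : ℝ := ((d : ℝ) + 1) * (2 * k + (d + 1) * l) / n with hx
  have hx0 : 0 ≤ x := by positivity
  have he1 : x * l ≤ ε := by
    rw [hx, hε, div_mul_eq_mul_div]
    apply div_le_div_of_nonneg_right _ hn'.le
    have : 2 * k ≤ ((d : ℝ) + 1) * (2 * k) := by nlinarith
    nlinarith [mul_le_mul_of_nonneg_right this (by positivity : 0 ≤ ((d : ℝ) + 1) * l)]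
  have hxl : x ≤ x * l := by nlinarith
  have hx1 : x ≤ 1 / 4 := by linarith
  have hnat : (d + 1) * (2 * K.card + (d + 1) * L.card) ≤ n := by
    have : ((d : ℝ) + 1) * (2 * k + (d + 1) * l) ≤ n := by
      have h1 : x * n = ((d : ℝ) + 1) * (2 * k + (d + 1) * l) := by
        rw [hx]; field_simp
      rw [← h1]; nlinarith
    rw [hk, hl] at this
    exact_mod_cast this
  have hbern : 1 - x * l ≤ (1 - x) ^ L.card := by
    have := one_add_mul_le_pow (a := -x) (by linarith) L.card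
    have e : 1 + (L.card : ℝ) * -x = 1 - x * l := by rw [hl]; ring
    rw [e] at this
    have e2 : 1 + -x = 1 - x := by ring
    rwa [e2] at this
  set A : ℝ := (n : ℝ) ^ L.card * (d.factorial : ℝ) ^ L.card *
    ((n - (d + 1) * L.card).factorial : ℝ) with hA
  have hApos : 0 < A := by
    have h1 : (0 : ℝ) < (d.factorial : ℝ) := by exact_mod_cast Nat.factorial_pos _
    have h2 : (0 : ℝ) < ((n - (d + 1) * L.card).factorial : ℝ) := by
      exact_mod_cast Nat.factorial_pos _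
    rw [hA]; positivity
  let N : Gr n → ℝ := fun H => ((Finset.univ.filter (fun g : Equiv.Perm (Fin n) =>
    Apart K (relG g S) ∧ relG g S ⊆ H)).card : ℝ)
  have hNup : ∀ H ∈ Reg n d K, N H ≤ A := fun H hH => SLb_upper d hd L S hS K H hH
  have hNlow : ∀ H ∈ Reg n d K, (1 - x * l) * A ≤ N H := by
    intro H hH
    refine le_trans ?_ (SLb_lower d hd L S hS K H hH hnat)
    have e : (n : ℝ) - ((d : ℝ) + 1) * (2 * k + (d + 1) * l) = n * (1 - x) := by
      rw [hx]; field_simp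
    rw [e, mul_pow, hA]
    have h2 : (0 : ℝ) ≤ ((n - (d + 1) * L.card).factorial : ℝ) := Nat.cast_nonneg _
    calc (1 - x * l) * ((n : ℝ) ^ L.card * (d.factorial : ℝ) ^ L.card *
          ((n - (d + 1) * L.card).factorial : ℝ))
        ≤ (1 - x) ^ L.card * ((n : ℝ) ^ L.card * (d.factorial : ℝ) ^ L.card *
          ((n - (d + 1) * L.card).factorial : ℝ)) :=
          mul_le_mul_of_nonneg_right hbern (by positivity)
      _ = _ := by ring
  set Ap : Finset (Equiv.Perm (Fin n)) :=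
    Finset.univ.filter (fun g : Equiv.Perm (Fin n) => Apart K (relG g S)) with hAp
  obtain ⟨H₀, hH₀⟩ := hK
  have hN0 : 0 < N H₀ := lt_of_lt_of_le (mul_pos (by linarith) hApos) (hNlow H₀ hH₀)
  obtain ⟨g₀, hg₀, hg₀'⟩ : ∃ g₀ : Equiv.Perm (Fin n), Apart K (relG g₀ S) ∧ relG g₀ S ⊆ H₀ := by
    have h0 : (0 : ℝ) < ((Finset.univ.filter (fun g : Equiv.Perm (Fin n) =>
        Apart K (relG g S) ∧ relG g S ⊆ H₀)).card : ℝ) := hN0
    have : 0 < (Finset.univ.filter (fun g : Equiv.Perm (Fin n) =>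
        Apart K (relG g S) ∧ relG g S ⊆ H₀)).card := by exact_mod_cast h0
    obtain ⟨g₀, h⟩ := Finset.card_pos.1 this
    exact ⟨g₀, (Finset.mem_filter.1 h).2⟩
  set R : ℝ := ((Reg n d (K ∪ relG g₀ S)).card : ℝ) with hR
  have hRpos : 0 < R := by
    rw [hR]
    have : H₀ ∈ Reg n d (K ∪ relG g₀ S) := by
      rw [sl_Reg]; exact Finset.mem_filter.2 ⟨hH₀, hg₀'⟩
    exact_mod_cast Finset.card_pos.2 ⟨H₀, this⟩
  have hRg : ∀ g ∈ Ap, ((Reg n d (K ∪ relG g S)).card : ℝ) = R := by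
    intro g hg
    rw [hR]
    exact_mod_cast SLa d K S g g₀ (Finset.mem_filter.1 hg).2 hg₀
  set F : ℝ := (Fintype.card (Equiv.Perm (Fin n)) : ℝ) with hF
  have hFpos : 0 < F := by
    rw [hF]; exact_mod_cast Fintype.card_pos
  have hLHS : av (fun g : Equiv.Perm (Fin n) =>
      if Apart K (relG g S) then avOn (Reg n d (K ∪ relG g S)) Φ else 0)
      = (∑ H ∈ Reg n d K, Φ H * N H) / (R * F) := by
    have h1 := sl_double (d := d) K S Φ
    unfold av
    rw [← Finset.sum_filter]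
    have h2 : ∀ g ∈ Ap, avOn (Reg n d (K ∪ relG g S)) Φ
        = (∑ H ∈ Reg n d (K ∪ relG g S), Φ H) / R := by
      intro g hg
      unfold avOn
      rw [hRg g hg]
    rw [Finset.sum_congr rfl h2, ← Finset.sum_div, div_div]
    rw [h1]
  have hNs : (Ap.card : ℝ) * R = ∑ H ∈ Reg n d K, N H := by
    have h1 := sl_double (d := d) K S (fun _ => (1 : ℝ))
    simp only [one_mul] at h1
    rw [← h1]
    have h2 : ∀ g ∈ Ap, ∑ _H ∈ Reg n d (K ∪ relG g S), (1 : ℝ) = R := by
      intro g hg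
      rw [Finset.sum_const, nsmul_eq_mul, mul_one, hRg g hg]
    rw [Finset.sum_congr rfl h2, Finset.sum_const, nsmul_eq_mul]
  have ht : (0 : ℝ) < ((Reg n d K).card : ℝ) := by
    exact_mod_cast Finset.card_pos.2 ⟨H₀, hH₀⟩
  set q : ℝ := ((d : ℝ) + 1) * l * (2 * k) / n with hq
  have hq0 : 0 ≤ q := by positivity
  have hqε : q ≤ ε := by
    rw [hq, hε]
    apply div_le_div_of_nonneg_right _ hn'.le
    have h1 : ((d : ℝ) + 1) * l * (2 * k) ≤ ((d : ℝ) + 1) ^ 2 * l * (2 * k) := by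
      have : (0 : ℝ) ≤ ((d : ℝ) + 1) * l * (2 * k) := by positivity
      nlinarith
    have h2 : ((d : ℝ) + 1) ^ 2 * l * (2 * k) ≤ ((d : ℝ) + 1) ^ 2 * l * (2 * k + l) := by
      apply mul_le_mul_of_nonneg_left _ (by positivity)
      linarith
    exact h1.trans h2
  have hApq : (1 - q) * F ≤ (Ap.card : ℝ) := by
    have h1 := SLb_apart d hn L S hS K
    have h2 := pr_not (fun g : Equiv.Perm (Fin n) => Apart K (relG g S))
    rw [h2, pr_eq_card] at h1
    have h3 : ((Ap.card : ℝ)) / F * F = Ap.card := div_mul_cancel₀ _ hFpos.ne'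
    have h4 : 1 - q ≤ (Ap.card : ℝ) / F := by
      have : (1 : ℝ) - (Ap.card : ℝ) / F ≤ q := by
        convert h1
      linarith
    rw [← h3]
    exact mul_le_mul_of_nonneg_right h4 hFpos.le
  have hApF : (Ap.card : ℝ) ≤ F := by
    rw [hF]
    exact_mod_cast Finset.card_le_univ Ap
  rw [hLHS]
  have hfin := sl_arith R F A ((Reg n d K).card : ℝ) (∑ H ∈ Reg n d K, Φ H)
    (∑ H ∈ Reg n d K, N H) (∑ H ∈ Reg n d K, Φ H * N H) (Ap.card : ℝ) (x * l) q hFpos hRpos
    hApos ht (by positivity) (by linarith) hq0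
    (Finset.sum_nonneg fun H _ => (hΦ H).1)
    (by
      calc ∑ H ∈ Reg n d K, Φ H ≤ ∑ _H ∈ Reg n d K, (1 : ℝ) :=
            Finset.sum_le_sum fun H _ => (hΦ H).2
        _ = _ := by rw [Finset.sum_const, nsmul_eq_mul, mul_one])
    (by
      rw [Finset.mul_sum]
      refine Finset.sum_le_sum fun H hH => ?_
      rw [mul_comm]
      exact mul_le_mul_of_nonneg_left (hNlow H hH) (hΦ H).1)
    (by
      rw [Finset.mul_sum]
      refine Finset.sum_le_sum fun H hH => ?_
      rw [mul_comm A]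
      exact mul_le_mul_of_nonneg_left (hNup H hH) (hΦ H).1)
    (by
      calc (1 - x * l) * A * ((Reg n d K).card : ℝ)
          = ∑ _H ∈ Reg n d K, (1 - x * l) * A := by
            rw [Finset.sum_const, nsmul_eq_mul, mul_comm]
        _ ≤ _ := Finset.sum_le_sum fun H hH => hNlow H hH)
    (by
      calc ∑ H ∈ Reg n d K, N H ≤ ∑ _H ∈ Reg n d K, A :=
            Finset.sum_le_sum fun H hH => hNup H hH
        _ = _ := by rw [Finset.sum_const, nsmul_eq_mul, mul_comm])
    hNs hApF hApq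
  refine hfin.trans ?_
  linarith

end Pool.Agent.HC
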