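import Pool.Agent.Lib.MP_ec42c8_pr.O07

/-!
# SLa : symmetry

PROOF.  `V(S) = {v | deg S v ≠ 0}`.  If `g, g'` are such that the images of `V(S)` avoid
`{v | deg K v ≠ 0}`, there is a permutation `τ` of `Fin n` with `τ v = v` whenever `deg K v ≠ 0` and
`τ (g v) = g' v` whenever `deg S v ≠ 0`: the partial map defined by these rules is injective on
`{v | deg K v ≠ 0} ∪ g V(S)` and extends to a permutation of the finite set `Fin n`
(for instance `Equiv.extendSubtype` for the equivalence of the subtype with its image).  Then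
`relG τ K = K`, `relG τ (relG g S) = relG g' S` (an edge is determined by its two ends, which have
nonzero degree), so `H ↦ relG τ H` is a bijection from `Reg n d (K ∪ relG g S)` to
`Reg n d (K ∪ relG g' S)` (`relG_mem_Reg`, `relG_union`).
`Apart K (relG g S)` says: for all `v`, `deg K v = 0` or `deg (relG g S) v = 0`; `deg_relG`.
-/

set_option autoImplicit false

namespace Pool.Agent.HC

open Finset
open scoped Classical

lemma sla_relE {n : ℕ} (K : Gr n) (τ : Equiv.Perm (Fin n))
    (h : ∀ v, deg K v ≠ 0 → τ v = v) (e : Edge n) (he : e ∈ K) : relE τ e = e := by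
  apply Subtype.ext
  rw [relE_val]
  have hv : ∀ v ∈ e.1, τ v = v := fun v hv => h v (by
    unfold deg
    exact Finset.card_ne_zero_of_mem (Finset.mem_filter.2 ⟨he, hv⟩))
  obtain ⟨e, hd⟩ := e
  induction e using Sym2.inductionOn with
  | hf x y =>
    simp only [Sym2.map_mk]
    rw [hv x (by simp), hv y (by simp)]

/-- Relabelling by a permutation that fixes all non-isolated vertices changes nothing. -/
theorem SLa_fix {n : ℕ} (K : Gr n) (τ : Equiv.Perm (Fin n))
    (h : ∀ v, deg K v ≠ 0 → τ v = v) : relG τ K = K := by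
  ext e
  rw [mem_relG]
  constructor
  · intro he
    have h1 := sla_relE K τ h _ he
    rw [Equiv.apply_symm_apply] at h1
    rw [h1]
    exact he
  · intro he
    have h1 := sla_relE K τ h _ he
    have h2 : (relE τ).symm e = e := by
      rw [Equiv.symm_apply_eq]; exact h1.symm
    rw [h2]
    exact he

lemma sla_relG_agree {n : ℕ} (S : Gr n) (g g' : Equiv.Perm (Fin n))
    (h : ∀ v, deg S v ≠ 0 → g v = g' v) : relG g S = relG g' S := by
  have h1 : relG (g'⁻¹ * g) S = S := SLa_fix S _ (fun v hv => by
    rw [Equiv.Perm.mul_apply, h v hv]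
    exact g'.symm_apply_apply v)
  calc relG g S = relG (g' * (g'⁻¹ * g)) S := by rw [mul_inv_cancel_left]
    _ = relG g' (relG (g'⁻¹ * g) S) := relG_mul _ _ _
    _ = relG g' S := by rw [h1]

lemma sla_ext {n : ℕ} (s : Finset (Fin n)) (f : Fin n → Fin n) (hf : Set.InjOn f s) :
    ∃ τ : Equiv.Perm (Fin n), ∀ v ∈ s, τ v = f v := by
  obtain ⟨e, he⟩ := Finset.exists_equiv_extend_of_card_eq (α := Fin n) (β := Fin n)
    (t := Finset.univ) (by simp) (s := s) (f := f) (Finset.subset_univ _) hf
  refine ⟨e.trans (Equiv.subtypeUnivEquiv (fun x => Finset.mem_univ x)), fun v hv => ?_⟩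
  rw [Equiv.trans_apply]
  exact he v hv

theorem SLa {n : ℕ} (d : ℕ) (K S : Gr n) (g g' : Equiv.Perm (Fin n))
    (hg : Apart K (relG g S)) (hg' : Apart K (relG g' S)) :
    (Reg n d (K ∪ relG g S)).card = (Reg n d (K ∪ relG g' S)).card := by
  have hgd : ∀ (g : Equiv.Perm (Fin n)) (w : Fin n), deg (relG g S) w = deg S (g.symm w) := by
    intro g w
    have := deg_relG g S (g.symm w)
    rwa [Equiv.apply_symm_apply] at this
  obtain ⟨τ, hτ⟩ := sla_ext
    (Finset.univ.filter (fun w => deg K w ≠ 0 ∨ deg (relG g S) w ≠ 0))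
    (fun w => if deg K w ≠ 0 then w else g' (g.symm w)) (by
      intro a ha b hb hab
      simp only [Finset.coe_filter, Finset.mem_univ, true_and, Set.mem_ofPred_eq] at ha hb
      simp only at hab
      have key : ∀ a, ¬ deg K a ≠ 0 → (deg K a ≠ 0 ∨ deg (relG g S) a ≠ 0) →
          deg K (g' (g.symm a)) = 0 := by
        intro a h1 h2
        have h3 : deg (relG g S) a ≠ 0 := by tauto
        rw [hgd] at h3
        rcases hg' (g' (g.symm a)) with h4 | h4
        · exact h4
        · rw [hgd, Equiv.symm_apply_apply] at h4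
          exact absurd h4 h3
      by_cases h1 : deg K a ≠ 0
      · by_cases h2 : deg K b ≠ 0
        · rw [if_pos h1, if_pos h2] at hab
          exact hab
        · rw [if_pos h1, if_neg h2] at hab
          rw [hab] at h1
          exact absurd (key b h2 hb) h1
      · by_cases h2 : deg K b ≠ 0
        · rw [if_neg h1, if_pos h2] at hab
          rw [← hab] at h2
          exact absurd (key a h1 ha) h2
        · rw [if_neg h1, if_neg h2] at hab
          exact g.symm.injective (g'.injective hab))
  have h1 : relG τ K = K := SLa_fix K τ (fun v hv => by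
    rw [hτ v (by simp only [Finset.mem_filter, Finset.mem_univ, true_and]; exact Or.inl hv)]
    exact if_pos hv)
  have h2 : relG τ (relG g S) = relG g' S := by
    rw [← relG_mul]
    refine sla_relG_agree S _ _ (fun v hv => ?_)
    have h3 : deg (relG g S) (g v) ≠ 0 := by rw [deg_relG]; exact hv
    have h4 : deg K (g v) = 0 := by
      rcases hg (g v) with h | h
      · exact h
      · exact absurd h h3
    rw [Equiv.Perm.mul_apply, hτ (g v) (by
      simp only [Finset.mem_filter, Finset.mem_univ, true_and]; exact Or.inr h3)]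
    rw [if_neg (by rw [h4]; simp), Equiv.symm_apply_apply]
  have h3 : relG τ (K ∪ relG g S) = K ∪ relG g' S := by rw [relG_union, h1, h2]
  refine Finset.card_bij (fun H _ => relG τ H) ?_ ?_ ?_
  · intro H hH
    rw [← h3, relG_mem_Reg]
    exact hH
  · intro H _ H' _ hHH
    have := congrArg (relG τ⁻¹) hHH
    rw [← relG_mul, ← relG_mul, inv_mul_cancel, relG_one, relG_one] at this
    exact this
  · intro H hH
    refine ⟨relG τ⁻¹ H, ?_, ?_⟩
    · rw [← relG_mem_Reg τ, ← relG_mul, mul_inv_cancel, relG_one, h3]
      exact hH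
    · rw [← relG_mul, mul_inv_cancel, relG_one]

end Pool.Agent.HC
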