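import Pool.Agent.Lib.MP_ec42c8_pr.F01

/-!
# W02 : exponential bounds for occupancy numbers

Everything is `av_prod_fun` (coordinates of a random function are independent), after bounding
indicators: with `s = exp (-θ) ∈ (0, 1]`,
`1{c < q} ≤ exp (θ q) s ^ c` where `c = card {t ∈ T | w t = z} = ∑ over t ∈ T of 1{w t = z}`, so
`s ^ c = ∏ t, (if t ∈ T ∧ w t = z then s else 1)`, and the average over `w t` of
`if w t = z then s else 1` is `1 - (1 - s) / n ≤ exp (-(1 - s) / n)`.
For `W02b`: the factor at `t₁` is at most `1{w t₁ = z₁}` (average `1 / n`), the factor at `t₂` at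
most `1{w t₂ = z₂}` (average `1 / n`), the other times of `T`, at least `card T - 2` many, give
`exp (-(1 - s) / n)` each.
-/

set_option autoImplicit false

namespace Pool.Agent.HC

open Finset
open scoped Classical

lemma w02_inst {Ω : Type*} (i1 i2 : Fintype Ω) (f : Ω → ℝ) : @av Ω i1 f = @av Ω i2 f := by
  rw [Subsingleton.elim i1 i2]

lemma w02_key {n m : ℕ} (φ : Fin m → Fin n → ℝ) :
    av (fun w : Fin m → Fin n => ∏ i, φ i (w i)) = ∏ i, av (φ i) := by
  refine (w02_inst _ _ _).trans (av_prod_fun φ)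

lemma w02_ind {n : ℕ} (Q : Finset (Fin n)) :
    av (fun x : Fin n => if x ∈ Q then (1 : ℝ) else 0) = (Q.card : ℝ) / n := by
  simp [av]

lemma w02_ind1 {n : ℕ} (z : Fin n) :
    av (fun x : Fin n => if x = z then (1 : ℝ) else 0) = 1 / n := by
  simp [av]

lemma w02_av {n : ℕ} (hn : 1 ≤ n) (z : Fin n) (s : ℝ) :
    av (fun x : Fin n => if x = z then s else 1) = 1 - (1 - s) / n := by
  have : Nonempty (Fin n) := ⟨⟨0, hn⟩⟩
  have h1 : av (fun x : Fin n => if x = z then s else 1) =
      av (fun x : Fin n => 1 - (1 - s) * (if x = z then (1 : ℝ) else 0)) := by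
    refine av_congr fun x => ?_
    split_ifs <;> ring
  rw [h1, av_sub (fun _ => (1 : ℝ)) (fun x => (1 - s) * (if x = z then (1 : ℝ) else 0)),
    av_const, av_mul_left, w02_ind1]
  ring

lemma w02_av_le {n : ℕ} (hn : 1 ≤ n) (z : Fin n) (s : ℝ) :
    av (fun x : Fin n => if x = z then s else 1) ≤ Real.exp (-((1 - s) / n)) := by
  rw [w02_av hn]
  have := Real.add_one_le_exp (-((1 - s) / n))
  linarith

/-- the factor at time `t` -/
noncomputable def w02_psi {n m : ℕ} (T : Finset (Fin m)) (z : Fin n) (s : ℝ) (t : Fin m)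
    (x : Fin n) : ℝ := if t ∈ T ∧ x = z then s else 1

lemma w02_psi_av {n m : ℕ} (hn : 1 ≤ n) (T : Finset (Fin m)) (z : Fin n) (s : ℝ) (t : Fin m) :
    av (w02_psi T z s t) ≤ if t ∈ T then Real.exp (-((1 - s) / n)) else 1 := by
  have : Nonempty (Fin n) := ⟨⟨0, hn⟩⟩
  by_cases ht : t ∈ T
  · rw [if_pos ht]
    refine le_trans (le_of_eq ?_) (w02_av_le hn z s)
    refine av_congr fun x => ?_
    simp [w02_psi, ht]
  · rw [if_neg ht]
    refine le_of_eq ?_
    have h1 : av (w02_psi T z s t) = av (fun _ : Fin n => (1 : ℝ)) :=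
      av_congr fun x => by simp [w02_psi, ht]
    rw [h1, av_const]

lemma w02_prod_psi {n m : ℕ} (T : Finset (Fin m)) (z : Fin n) (s : ℝ) (w : Fin m → Fin n) :
    ∏ t, w02_psi T z s t (w t) = s ^ (T.filter (fun t => w t = z)).card := by
  unfold w02_psi
  rw [Finset.prod_ite]
  simp only [Finset.prod_const, one_pow, mul_one]
  congr 2
  ext t
  simp

lemma w02_one_le {n m : ℕ} (T : Finset (Fin m)) (z : Fin n) (q : ℕ) (θ : ℝ) (hθ : 0 ≤ θ)
    (w : Fin m → Fin n) (h : (T.filter (fun t => w t = z)).card < q) :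
    1 ≤ Real.exp (θ * q) * ∏ t, w02_psi T z (Real.exp (-θ)) t (w t) := by
  rw [w02_prod_psi, ← Real.exp_nat_mul, ← Real.exp_add]
  refine Real.one_le_exp ?_
  have h1 : ((T.filter (fun t => w t = z)).card : ℝ) ≤ q := by exact_mod_cast h.le
  nlinarith

lemma w02_psi_nonneg {n m : ℕ} (T : Finset (Fin m)) (z : Fin n) {s : ℝ} (hs : 0 ≤ s) (t : Fin m)
    (x : Fin n) : 0 ≤ w02_psi T z s t x := by
  unfold w02_psi
  split_ifs
  · exact hs
  · exact zero_le_one

lemma w02_psi_le {n m : ℕ} (T : Finset (Fin m)) (z : Fin n) {s : ℝ} (hs : s ≤ 1) (t : Fin m)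
    (x : Fin n) : w02_psi T z s t x ≤ 1 := by
  unfold w02_psi
  split_ifs
  · exact hs
  · exact le_rfl

theorem W02a {n m : ℕ} (hn : 1 ≤ n) (T : Finset (Fin m)) (z : Fin n) (q : ℕ) (θ : ℝ)
    (hθ : 0 ≤ θ) :
    pr (fun w : Fin m → Fin n => (T.filter (fun t => w t = z)).card < q) ≤
      Real.exp (θ * q - (1 - Real.exp (-θ)) * T.card / n) := by
  have hs0 : 0 ≤ Real.exp (-θ) := (Real.exp_pos _).le
  calc pr (fun w : Fin m → Fin n => (T.filter (fun t => w t = z)).card < q)
      ≤ av (fun w : Fin m → Fin n =>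
          Real.exp (θ * q) * ∏ t, w02_psi T z (Real.exp (-θ)) t (w t)) := by
        refine av_mono fun w => ?_
        split_ifs with h
        · exact w02_one_le T z q θ hθ w h
        · exact mul_nonneg (Real.exp_pos _).le
            (Finset.prod_nonneg fun t _ => w02_psi_nonneg T z hs0 t _)
    _ = Real.exp (θ * q) * ∏ t, av (w02_psi T z (Real.exp (-θ)) t) := by
        rw [av_mul_left, w02_key]
    _ ≤ Real.exp (θ * q) *
          ∏ t : Fin m, (if t ∈ T then Real.exp (-((1 - Real.exp (-θ)) / n)) else 1) := by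
        refine mul_le_mul_of_nonneg_left ?_ (Real.exp_pos _).le
        refine Finset.prod_le_prod (fun t _ => av_nonneg fun x => w02_psi_nonneg T z hs0 t x)
          (fun t _ => w02_psi_av hn T z _ t)
    _ = Real.exp (θ * q - (1 - Real.exp (-θ)) * T.card / n) := by
        rw [Finset.prod_ite]
        simp only [Finset.prod_const, one_pow, mul_one, Finset.filter_mem_eq_inter,
          Finset.univ_inter]
        rw [← Real.exp_nat_mul, ← Real.exp_add]
        congr 1
        ring

theorem W02b {n m : ℕ} (hn : 1 ≤ n) (T : Finset (Fin m)) (z₁ z₂ : Fin n) (t₁ t₂ : Fin m)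
    (ht : t₁ ≠ t₂) (q : ℕ) (θ : ℝ) (hθ : 0 ≤ θ) :
    pr (fun w : Fin m → Fin n =>
      w t₁ = z₁ ∧ w t₂ = z₂ ∧ (T.filter (fun t => w t = z₁)).card < q) ≤
      (1 / (n : ℝ)) ^ 2 * Real.exp (θ * q - (1 - Real.exp (-θ)) * ((T.card : ℝ) - 2) / n) := by
  have hs0 : 0 ≤ Real.exp (-θ) := (Real.exp_pos _).le
  have hs1 : Real.exp (-θ) ≤ 1 := by
    rw [Real.exp_le_one_iff]
    linarith
  set s := Real.exp (-θ) with hs
  let φ : Fin m → Fin n → ℝ := fun t x => if t = t₁ then (if x = z₁ then 1 else 0)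
    else if t = t₂ then (if x = z₂ then 1 else 0) else w02_psi T z₁ s t x
  have hφ0 : ∀ t x, 0 ≤ φ t x := by
    intro t x
    simp only [φ]
    split_ifs <;> first | exact zero_le_one | exact le_rfl | exact w02_psi_nonneg T z₁ hs0 t x
  let E : ℝ := Real.exp (-((1 - s) / n))
  have hE0 : 0 < E := Real.exp_pos _
  have hE1 : E ≤ 1 := by
    refine Real.exp_le_one_iff.2 ?_
    have : 0 ≤ (1 - s) / n := div_nonneg (by linarith) (Nat.cast_nonneg _)
    linarith
  let β : Fin m → ℝ := fun t => if t = t₁ then 1 / (n : ℝ) else if t = t₂ then 1 / (n : ℝ) else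
    if t ∈ T then E else 1
  have hβ : ∀ t, av (φ t) ≤ β t := by
    intro t
    by_cases h1 : t = t₁
    · have h2 : av (φ t) = av (fun x : Fin n => if x = z₁ then (1 : ℝ) else 0) :=
        av_congr fun x => by simp [φ, h1]
      rw [h2, w02_ind1]
      simp [β, h1]
    · by_cases h2 : t = t₂
      · have h3 : av (φ t) = av (fun x : Fin n => if x = z₂ then (1 : ℝ) else 0) :=
          av_congr fun x => by simp only [φ]; rw [if_neg h1, if_pos h2]
        rw [h3, w02_ind1]
        simp only [β]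
        rw [if_neg h1, if_pos h2]
      · have h3 : av (φ t) = av (w02_psi T z₁ s t) :=
          av_congr fun x => by simp only [φ]; rw [if_neg h1, if_neg h2]
        rw [h3]
        simp only [β]
        rw [if_neg h1, if_neg h2]
        exact w02_psi_av hn T z₁ s t
  have hprod : ∏ t, β t ≤ (1 / (n : ℝ)) ^ 2 * Real.exp (-((1 - s) * ((T.card : ℝ) - 2) / n)) := by
    have ht2 : t₂ ∈ (Finset.univ : Finset (Fin m)).erase t₁ :=
      Finset.mem_erase.2 ⟨ht.symm, Finset.mem_univ _⟩
    rw [← Finset.mul_prod_erase Finset.univ β (Finset.mem_univ t₁),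
      ← Finset.mul_prod_erase _ β ht2]
    have e1 : β t₁ = 1 / (n : ℝ) := by simp [β]
    have e2 : β t₂ = 1 / (n : ℝ) := by simp [β]
    have e3 : ∏ t ∈ ((Finset.univ : Finset (Fin m)).erase t₁).erase t₂, β t =
        E ^ ((T.erase t₁).erase t₂).card := by
      have e4 : ∏ t ∈ ((Finset.univ : Finset (Fin m)).erase t₁).erase t₂, β t =
          ∏ t ∈ ((Finset.univ : Finset (Fin m)).erase t₁).erase t₂, (if t ∈ T then E else 1) := by
        refine Finset.prod_congr rfl fun t ht' => ?_
        rw [Finset.mem_erase, Finset.mem_erase] at ht'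
        simp only [β]
        rw [if_neg ht'.2.1, if_neg ht'.1]
      rw [e4, Finset.prod_ite]
      simp only [Finset.prod_const, one_pow, mul_one]
      congr 2
      ext t
      simp only [Finset.mem_filter, Finset.mem_erase, Finset.mem_univ, and_true, true_and]
      tauto
    rw [e1, e2, e3]
    have e5 : (T.card : ℝ) - 2 ≤ (((T.erase t₁).erase t₂).card : ℝ) := by
      have h1 := Finset.pred_card_le_card_erase (s := T) (a := t₁)
      have h2 := Finset.pred_card_le_card_erase (s := T.erase t₁) (a := t₂)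
      have h3 : T.card ≤ ((T.erase t₁).erase t₂).card + 2 := by omega
      have h4 : (T.card : ℝ) ≤ (((T.erase t₁).erase t₂).card : ℝ) + 2 := by exact_mod_cast h3
      linarith
    have e6 : E ^ ((T.erase t₁).erase t₂).card ≤
        Real.exp (-((1 - s) * ((T.card : ℝ) - 2) / n)) := by
      rw [← Real.exp_nat_mul]
      refine Real.exp_le_exp.2 ?_
      have h5 : 0 ≤ (1 - s) / n := div_nonneg (by linarith) (Nat.cast_nonneg _)
      have h6 : (1 - s) / n * ((T.card : ℝ) - 2) ≤
          (1 - s) / n * (((T.erase t₁).erase t₂).card : ℝ) := mul_le_mul_of_nonneg_left e5 h5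
      have h7 : (1 - s) * ((T.card : ℝ) - 2) / n = (1 - s) / n * ((T.card : ℝ) - 2) := by ring
      rw [h7]
      linarith
    calc 1 / (n : ℝ) * (1 / (n : ℝ) * E ^ ((T.erase t₁).erase t₂).card) =
        (1 / (n : ℝ)) ^ 2 * E ^ ((T.erase t₁).erase t₂).card := by ring
      _ ≤ _ := mul_le_mul_of_nonneg_left e6 (by positivity)
  calc pr (fun w : Fin m → Fin n =>
      w t₁ = z₁ ∧ w t₂ = z₂ ∧ (T.filter (fun t => w t = z₁)).card < q)
      ≤ av (fun w : Fin m → Fin n => Real.exp (θ * q) * ∏ t, φ t (w t)) := by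
        refine av_mono fun w => ?_
        split_ifs with h
        · refine (w02_one_le T z₁ q θ hθ w h.2.2).trans ?_
          refine mul_le_mul_of_nonneg_left ?_ (Real.exp_pos _).le
          refine Finset.prod_le_prod (fun t _ => w02_psi_nonneg T z₁ hs0 t _) (fun t _ => ?_)
          simp only [φ]
          split_ifs with h1 h2 h3 h4
          · exact w02_psi_le T z₁ hs1 t _
          · exact absurd (h1 ▸ h.1) h2
          · exact w02_psi_le T z₁ hs1 t _
          · exact absurd (h3 ▸ h.2.1) h4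
          · exact le_rfl
        · exact mul_nonneg (Real.exp_pos _).le (Finset.prod_nonneg fun t _ => hφ0 t _)
    _ = Real.exp (θ * q) * ∏ t, av (φ t) := by
        rw [av_mul_left, w02_key]
    _ ≤ Real.exp (θ * q) * ∏ t : Fin m, β t := by
        refine mul_le_mul_of_nonneg_left ?_ (Real.exp_pos _).le
        exact Finset.prod_le_prod (fun t _ => av_nonneg fun x => hφ0 t x) (fun t _ => hβ t)
    _ ≤ Real.exp (θ * q) *
        ((1 / (n : ℝ)) ^ 2 * Real.exp (-((1 - s) * ((T.card : ℝ) - 2) / n))) :=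
        mul_le_mul_of_nonneg_left hprod (Real.exp_pos _).le
    _ = _ := by
        rw [mul_left_comm, ← Real.exp_add]
        congr 2

/-- Prescribed values at distinct times. -/
theorem W02c {n m : ℕ} (hn : 1 ≤ n) (S : Finset (Fin m)) (Q : Fin m → Finset (Fin n)) :
    pr (fun w : Fin m → Fin n => ∀ t ∈ S, w t ∈ Q t) = ∏ t ∈ S, ((Q t).card : ℝ) / n := by
  have : Nonempty (Fin n) := ⟨⟨0, hn⟩⟩
  let φ : Fin m → Fin n → ℝ := fun t x => if t ∈ S then (if x ∈ Q t then 1 else 0) else 1
  have h1 : pr (fun w : Fin m → Fin n => ∀ t ∈ S, w t ∈ Q t) =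
      av (fun w : Fin m → Fin n => ∏ t, φ t (w t)) := by
    refine av_congr fun w => ?_
    split_ifs with h
    · refine (Finset.prod_eq_one fun t _ => ?_).symm
      simp only [φ]
      split_ifs with h2 h3
      · rfl
      · exact absurd (h t h2) h3
      · rfl
    · push Not at h
      obtain ⟨t, htS, htQ⟩ := h
      refine (Finset.prod_eq_zero (Finset.mem_univ t) ?_).symm
      simp [φ, htS, htQ]
  rw [h1, w02_key]
  have h2 : ∀ t, av (φ t) = if t ∈ S then ((Q t).card : ℝ) / n else 1 := by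
    intro t
    split_ifs with h
    · rw [← w02_ind (Q t)]
      refine av_congr fun x => ?_
      simp [φ, h]
    · have h3 : av (φ t) = av (fun _ : Fin n => (1 : ℝ)) := av_congr fun x => by simp [φ, h]
      rw [h3, av_const]
  simp only [h2]
  rw [Finset.prod_ite]
  simp

end Pool.Agent.HC
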