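import Pool.Agent.Lib.MP_ec42c8_pr.F01

/-!
# W03 : counting times

`W03a`: `cnt u` is injective on the times with a given tail `v` (if `t < t'` have the same tail then
`cnt u t < cnt u t'`), so at most `k + 2` times with tail `v` have `cnt u t < k + 2`; sum over `v`.
`W03b`: `tot u v` is at most `k + 1` for `v ∈ Zs k u`.
`W03c`: if `k + 2 ≤ cnt u t` then `tot u (u t) ≥ cnt u t + 1`.
`W03d`: for `v` outside `Zs k u` and `i < k + 2` there is a time `t` with tail `v` and `cnt u t = i`
(the `cnt` of the times with tail `v`, in increasing order, are `0, 1, ..., tot u v - 1`).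
`W03e`: `x ∈ NZ k u w` has a free time `t` with tail `x` and `w t ∈ Zs k u`.
-/

set_option autoImplicit false

namespace Pool.Agent.HC

open Finset
open scoped Classical

lemma w03_cnt_lt {n m : ℕ} (u : Fin m → Fin n) (t t' : Fin m) (h : t < t') (h' : u t = u t') :
    cnt u t < cnt u t' := by
  unfold cnt
  apply Finset.card_lt_card
  rw [Finset.ssubset_iff_of_subset]
  · exact ⟨t, by simp [h, h'], by simp⟩
  · intro x hx
    simp only [Finset.mem_filter, Finset.mem_univ, true_and] at hx ⊢
    exact ⟨hx.1.trans h, hx.2.trans h'⟩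

lemma w03_cnt_inj {n m : ℕ} (u : Fin m → Fin n) (t t' : Fin m) (h' : u t = u t')
    (h : cnt u t = cnt u t') : t = t' := by
  rcases lt_trichotomy t t' with h1 | h1 | h1
  · have := w03_cnt_lt u t t' h1 h'
    omega
  · exact h1
  · have := w03_cnt_lt u t' t h1 h'.symm
    omega

lemma w03_cnt_lt_tot {n m : ℕ} (u : Fin m → Fin n) (t : Fin m) : cnt u t < tot u (u t) := by
  unfold cnt tot
  apply Finset.card_lt_card
  rw [Finset.ssubset_iff_of_subset]
  · exact ⟨t, by simp, by simp⟩
  · intro x hx
    simp only [Finset.mem_filter, Finset.mem_univ, true_and] at hx ⊢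
    exact hx.2

lemma W03a {n m : ℕ} (k : ℕ) (u : Fin m → Fin n) :
    (Finset.univ.filter (fun t => cnt u t < k + 2)).card ≤ (k + 2) * n := by
  have h1 : (Finset.univ.filter (fun t => cnt u t < k + 2)).card ≤
      (Finset.range (k + 2) ×ˢ (Finset.univ : Finset (Fin n))).card := by
    apply Finset.card_le_card_of_injOn (fun t => (cnt u t, u t))
    · intro t ht
      simp only [Finset.coe_filter, Finset.mem_univ, true_and] at ht
      simp only [Finset.coe_product, Set.mem_prod, Finset.mem_coe, Finset.mem_range,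
        Finset.mem_univ, and_true]
      exact ht
    · intro t _ t' _ h
      simp only [Prod.mk.injEq] at h
      exact w03_cnt_inj u t t' h.2 h.1
  simpa using h1

lemma W03b {n m : ℕ} (k : ℕ) (u : Fin m → Fin n) (Q : Finset (Fin n)) (hQ : Q ⊆ Zs k u) :
    (tm u Q).card ≤ (k + 1) * Q.card := by
  have h0 : tm u Q = Q.biUnion (fun v => Finset.univ.filter (fun t => u t = v)) := by
    ext t
    simp [tm]
  rw [h0, mul_comm]
  apply Finset.card_biUnion_le_card_mul
  intro v hv
  have h1 := hQ hv
  unfold Zs tot at h1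
  simp only [Finset.mem_filter, Finset.mem_univ, true_and] at h1
  omega

lemma W03c {n m : ℕ} (k : ℕ) (u : Fin m → Fin n) (t : Fin m) (h : k + 2 ≤ cnt u t) :
    u t ∉ Zs k u := by
  have h1 := w03_cnt_lt_tot u t
  unfold Zs
  simp only [Finset.mem_filter, Finset.mem_univ, true_and]
  omega

lemma W03d {n m : ℕ} (k : ℕ) (u : Fin m → Fin n) (v : Fin n) (hv : v ∉ Zs k u)
    (i : Fin (k + 2)) : ∃ t, u t = v ∧ cnt u t = (i : ℕ) ∧ k + 2 ≤ tot u (u t) := by
  have htot : k + 2 ≤ tot u v := by
    unfold Zs at hv
    simp only [Finset.mem_filter, Finset.mem_univ, true_and] at hv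
    omega
  have himg : (Finset.univ.filter (fun t => u t = v)).image (cnt u) = Finset.range (tot u v) := by
    apply Finset.eq_of_subset_of_card_le
    · intro x hx
      simp only [Finset.mem_image, Finset.mem_filter, Finset.mem_univ, true_and,
        Finset.mem_range] at hx ⊢
      obtain ⟨t, ht, rfl⟩ := hx
      rw [← ht]
      exact w03_cnt_lt_tot u t
    · rw [Finset.card_image_of_injOn, Finset.card_range]
      · exact le_rfl
      · intro t ht t' ht' h
        simp only [Finset.coe_filter, Finset.mem_univ, true_and] at ht ht'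
        exact w03_cnt_inj u t t' (ht.trans ht'.symm) h
  have hi : (i : ℕ) ∈ Finset.range (tot u v) := by
    rw [Finset.mem_range]
    have := i.2
    omega
  rw [← himg] at hi
  simp only [Finset.mem_image, Finset.mem_filter, Finset.mem_univ, true_and] at hi
  obtain ⟨t, ht, h1⟩ := hi
  exact ⟨t, ht, h1, by rw [ht]; exact htot⟩

lemma W03e {n m : ℕ} (k : ℕ) (u w : Fin m → Fin n) :
    (NZ k u w).card ≤ (Finset.univ.filter (fun t => w t ∈ Zs k u)).card := by
  have h1 : NZ k u w ⊆ (Finset.univ.filter (fun t => w t ∈ Zs k u)).image u := by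
    intro x hx
    unfold NZ at hx
    simp only [Finset.mem_filter, Finset.mem_univ, true_and, Finset.mem_image] at hx ⊢
    obtain ⟨t, h2, h3, h4⟩ := hx
    exact ⟨t, h4, h3⟩
  exact (Finset.card_le_card h1).trans Finset.card_image_le

lemma W03f {n m : ℕ} (u : Fin m → Fin n) (t t' : Fin m) (h : t < t') (h' : u t = u t') :
    cnt u t < cnt u t' := by
  exact w03_cnt_lt u t t' h h'

end Pool.Agent.HC
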