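import Pool.Agent.Lib.MP_ec42c8_pr.W02
import Pool.Agent.Lib.MP_ec42c8_pr.W03

/-!
# W04 : first moments for the tails and the free heads

`W04a`: the expected number of `v` with `tot u v < k + 2`; `W02a` with `T = univ`.
`W04b`: for fixed `u`; `z ∈ Ls` iff `z ∈ Zs` and `card {t ∈ T | w t = z} < q`, where `T` is the set of
times with `k + 2 ≤ cnt u t`, which has at least `m - (k + 2) n` elements (`W03a`); `W02a`.
`W04c`: sum of `W02b` over the pairs `t ≠ t'` with the same tail, both in `T`, and `z₁ ≠ z₂` in `Zs`: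
the number of pairs of times with the same tail is `∑ v, tot u v ^ 2`.
`W04d`: `W02c`, over the triples of times; `W04e`: `W02c` with singletons, over the pairs and the
common value; `W04f`: linearity.
`W04g`, `W04h`: `∑ v, tot u v ^ 2` is the number of pairs of times with the same tail: `m` equal
pairs, and the others have equal tails with probability `1 / n`; for triples: `m` with all times
equal, at most `3 m²` with exactly two equal (probability `1 / n`), at most `m³` with all different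
(probability `1 / n²`).
-/

set_option autoImplicit false

namespace Pool.Agent.HC

open Finset
open scoped Classical

lemma w04_tot {n m : ℕ} (u : Fin m → Fin n) (v : Fin n) :
    (tot u v : ℝ) = ∑ t, if u t = v then (1 : ℝ) else 0 := by
  unfold tot
  rw [Finset.card_filter]
  push_cast
  rfl

lemma w04_sq {n m : ℕ} (u : Fin m → Fin n) :
    ∑ v, (tot u v : ℝ) ^ 2 = ∑ t, ∑ t', if u t = u t' then (1 : ℝ) else 0 := by
  have h : ∀ v, (tot u v : ℝ) ^ 2 =
      ∑ t, ∑ t', (if u t = v then (1 : ℝ) else 0) * (if u t' = v then 1 else 0) := by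
    intro v
    rw [w04_tot, sq, Finset.sum_mul_sum]
  simp only [h]
  rw [Finset.sum_comm]
  refine Finset.sum_congr rfl fun t _ => ?_
  rw [Finset.sum_comm]
  refine Finset.sum_congr rfl fun t' _ => ?_
  simp only [ite_mul, one_mul, zero_mul, Finset.sum_ite_eq, Finset.mem_univ, if_true]
  by_cases h : u t = u t'
  · rw [if_pos h, if_pos h.symm]
  · rw [if_neg h, if_neg (fun h' => h h'.symm)]

lemma w04_cube {n m : ℕ} (u : Fin m → Fin n) :
    ∑ v, (tot u v : ℝ) ^ 3 =
      ∑ t, ∑ t', ∑ t'', if u t = u t' ∧ u t = u t'' then (1 : ℝ) else 0 := by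
  have h : ∀ v, (tot u v : ℝ) ^ 3 =
      ∑ t, ∑ t', ∑ t'', (if u t = v then (1 : ℝ) else 0) *
        ((if u t' = v then 1 else 0) * (if u t'' = v then 1 else 0)) := by
    intro v
    have e : (tot u v : ℝ) ^ 3 = (tot u v : ℝ) * ((tot u v : ℝ) * (tot u v : ℝ)) := by ring
    rw [e, w04_tot, Finset.sum_mul_sum, Finset.sum_mul_sum]
    refine Finset.sum_congr rfl fun t _ => ?_
    refine Finset.sum_congr rfl fun t' _ => ?_
    rw [Finset.mul_sum]
  simp only [h]
  rw [Finset.sum_comm]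
  refine Finset.sum_congr rfl fun t _ => ?_
  rw [Finset.sum_comm]
  refine Finset.sum_congr rfl fun t' _ => ?_
  rw [Finset.sum_comm]
  refine Finset.sum_congr rfl fun t'' _ => ?_
  simp only [ite_mul, one_mul, zero_mul, Finset.sum_ite_eq, Finset.mem_univ, if_true]
  by_cases h1 : u t = u t' <;> by_cases h2 : u t = u t''
  · rw [if_pos h1.symm, if_pos h2.symm, if_pos ⟨h1, h2⟩]
  · rw [if_pos h1.symm, if_neg (fun h' => h2 h'.symm), if_neg (fun h' => h2 h'.2)]
  · rw [if_neg (fun h' => h1 h'.symm), if_neg (fun h' => h1 h'.1)]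
  · rw [if_neg (fun h' => h1 h'.symm), if_neg (fun h' => h1 h'.1)]

lemma w04_pairs {n m : ℕ} (u : Fin m → Fin n) :
    ((Finset.univ.filter (fun p : Fin m × Fin m => u p.1 = u p.2)).card : ℝ) =
      ∑ v, (tot u v : ℝ) ^ 2 := by
  rw [w04_sq, Finset.card_filter]
  push_cast
  rw [Fintype.sum_prod_type]

lemma w04_triples {n m : ℕ} (u : Fin m → Fin n) :
    ((Finset.univ.filter (fun p : Fin m × Fin m × Fin m =>
      u p.1 = u p.2.1 ∧ u p.1 = u p.2.2)).card : ℝ) = ∑ v, (tot u v : ℝ) ^ 3 := by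
  rw [w04_cube, Finset.card_filter]
  push_cast
  rw [Fintype.sum_prod_type]
  refine Finset.sum_congr rfl fun t _ => ?_
  rw [Fintype.sum_prod_type]

lemma w04_if {Ω : Type*} [Fintype Ω] (P : Ω → Prop) (inst : ∀ ω, Decidable (P ω)) :
    av (fun ω => @ite ℝ (P ω) (inst ω) 1 0) = pr P := by
  unfold pr
  refine av_congr fun ω => ?_
  by_cases h : P ω
  · simp [h]
  · simp [h]

/-- union bound with equal terms -/
lemma w04_union {Ω ι : Type*} [Fintype Ω] (s : Finset ι) (P : Ω → Prop) (Q : ι → Ω → Prop)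
    (h : ∀ ω, P ω → ∃ i ∈ s, Q i ω) (b : ℝ) (hb : ∀ i ∈ s, pr (Q i) ≤ b) :
    pr P ≤ s.card * b := by
  calc pr P ≤ pr (fun ω => ∃ i ∈ s, Q i ω) := pr_mono h
    _ ≤ ∑ i ∈ s, pr (Q i) := pr_exists_le s Q
    _ ≤ s.card • b := Finset.sum_le_card_nsmul s _ b hb
    _ = s.card * b := by rw [nsmul_eq_mul]

lemma w04_T_card {n m : ℕ} (k : ℕ) (u : Fin m → Fin n) :
    (m : ℝ) - (k + 2) * n ≤
      ((Finset.univ.filter (fun t : Fin m => k + 2 ≤ cnt u t)).card : ℝ) := by
  have h1 := W03a k u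
  have h2 : (Finset.univ.filter (fun t : Fin m => cnt u t < k + 2)).card +
      (Finset.univ.filter (fun t : Fin m => k + 2 ≤ cnt u t)).card = m := by
    have h3 := Finset.card_filter_add_card_filter_not (s := (Finset.univ : Finset (Fin m)))
      (fun t : Fin m => cnt u t < k + 2)
    simp only [not_lt, Finset.card_univ, Fintype.card_fin] at h3
    exact h3
  have h4 : (m : ℝ) = ((Finset.univ.filter (fun t : Fin m => cnt u t < k + 2)).card : ℝ) +
      ((Finset.univ.filter (fun t : Fin m => k + 2 ≤ cnt u t)).card : ℝ) := by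
    exact_mod_cast h2.symm
  have h5 : ((Finset.univ.filter (fun t : Fin m => cnt u t < k + 2)).card : ℝ) ≤
      ((k : ℝ) + 2) * n := by
    have : ((Finset.univ.filter (fun t : Fin m => cnt u t < k + 2)).card : ℝ) ≤
        (((k + 2) * n : ℕ) : ℝ) := by exact_mod_cast h1
    push_cast at this
    exact this
  linarith

lemma w04_s {θ : ℝ} (hθ : 0 ≤ θ) : 0 ≤ 1 - Real.exp (-θ) := by
  have : Real.exp (-θ) ≤ 1 := by
    rw [Real.exp_le_one_iff]
    linarith
  linarith

theorem W04a {n : ℕ} (hn : 1 ≤ n) (k m : ℕ) (θ : ℝ) (hθ : 0 ≤ θ) :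
    av (fun u : Fin m → Fin n => ((Zs k u).card : ℝ)) ≤
      n * Real.exp (θ * (k + 2) - (1 - Real.exp (-θ)) * m / n) := by
  have h1 : ∀ u : Fin m → Fin n, ((Zs k u).card : ℝ) =
      ∑ v : Fin n, if tot u v < k + 2 then (1 : ℝ) else 0 := by
    intro u
    unfold Zs
    rw [Finset.card_filter]
    push_cast
    rfl
  rw [av_congr h1, av_sum]
  have h2 : ∀ v ∈ (Finset.univ : Finset (Fin n)),
      av (fun u : Fin m → Fin n => if tot u v < k + 2 then (1 : ℝ) else 0) ≤
      Real.exp (θ * (k + 2) - (1 - Real.exp (-θ)) * m / n) := by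
    intro v _
    have h3 := W02a hn (Finset.univ : Finset (Fin m)) v (k + 2) θ hθ
    rw [Finset.card_univ, Fintype.card_fin] at h3
    push_cast at h3
    exact (w04_if (fun u : Fin m → Fin n => tot u v < k + 2) _).le.trans h3
  have h4 := Finset.sum_le_card_nsmul Finset.univ _ _ h2
  rw [Finset.card_univ, Fintype.card_fin, nsmul_eq_mul] at h4
  exact h4

theorem W04b {n m : ℕ} (hn : 1 ≤ n) (k q : ℕ) (u : Fin m → Fin n) (θ : ℝ) (hθ : 0 ≤ θ) :
    av (fun w : Fin m → Fin n => ((Ls k q u w).card : ℝ)) ≤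
      (Zs k u).card * Real.exp (θ * q - (1 - Real.exp (-θ)) * ((m : ℝ) - (k + 2) * n) / n) := by
  have h1 : ∀ w : Fin m → Fin n, ((Ls k q u w).card : ℝ) =
      ∑ z ∈ Zs k u, if fr k u w z < q then (1 : ℝ) else 0 := by
    intro w
    unfold Ls
    rw [Finset.card_filter]
    push_cast
    rfl
  rw [av_congr h1, av_sum]
  have h2 : ∀ z ∈ Zs k u,
      av (fun w : Fin m → Fin n => if fr k u w z < q then (1 : ℝ) else 0) ≤
      Real.exp (θ * q - (1 - Real.exp (-θ)) * ((m : ℝ) - (k + 2) * n) / n) := by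
    intro z _
    have h3 := W02a hn (Finset.univ.filter (fun t : Fin m => k + 2 ≤ cnt u t)) z q θ hθ
    have h4 : pr (fun w : Fin m → Fin n =>
        ((Finset.univ.filter (fun t : Fin m => k + 2 ≤ cnt u t)).filter
          (fun t => w t = z)).card < q) =
        av (fun w : Fin m → Fin n => if fr k u w z < q then (1 : ℝ) else 0) := by
      refine Eq.trans ?_ (w04_if (fun w : Fin m → Fin n => fr k u w z < q) _).symm
      refine pr_congr fun w => ?_
      unfold fr
      rw [Finset.filter_filter]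
    rw [h4] at h3
    refine h3.trans (Real.exp_le_exp.2 ?_)
    have h5 := w04_T_card k u
    have h6 : (1 - Real.exp (-θ)) * ((m : ℝ) - (k + 2) * n) / n ≤
        (1 - Real.exp (-θ)) *
          ((Finset.univ.filter (fun t : Fin m => k + 2 ≤ cnt u t)).card : ℝ) / n :=
      div_le_div_of_nonneg_right (mul_le_mul_of_nonneg_left h5 (w04_s hθ)) (Nat.cast_nonneg _)
    linarith
  have h4 := Finset.sum_le_card_nsmul _ _ _ h2
  rw [nsmul_eq_mul] at h4
  exact h4

theorem W04c {n m : ℕ} (hn : 1 ≤ n) (k q : ℕ) (u : Fin m → Fin n) (θ : ℝ) (hθ : 0 ≤ θ) :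
    pr (fun w : Fin m → Fin n => ∃ t t', t ≠ t' ∧ k + 2 ≤ cnt u t ∧ k + 2 ≤ cnt u t' ∧
      u t = u t' ∧ w t ≠ w t' ∧ w t ∈ Ls k q u w ∧ w t' ∈ Zs k u) ≤
      (∑ v, (tot u v : ℝ) ^ 2) * (((Zs k u).card : ℝ) / n) ^ 2 *
        Real.exp (θ * q - (1 - Real.exp (-θ)) * ((m : ℝ) - (k + 2) * n - 2) / n) := by
  set T := Finset.univ.filter (fun t : Fin m => k + 2 ≤ cnt u t) with hT
  set X := Real.exp (θ * q - (1 - Real.exp (-θ)) * ((m : ℝ) - (k + 2) * n - 2) / n) with hX
  have hX0 : 0 < X := Real.exp_pos _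
  have h1 := w04_union
    (s := (Finset.univ.filter (fun p : Fin m × Fin m => p.1 ≠ p.2 ∧ u p.1 = u p.2)) ×ˢ
      (Zs k u ×ˢ Zs k u))
    (P := fun w : Fin m → Fin n => ∃ t t', t ≠ t' ∧ k + 2 ≤ cnt u t ∧ k + 2 ≤ cnt u t' ∧
      u t = u t' ∧ w t ≠ w t' ∧ w t ∈ Ls k q u w ∧ w t' ∈ Zs k u)
    (Q := fun i w => w i.1.1 = i.2.1 ∧ w i.1.2 = i.2.2 ∧
      (T.filter (fun t => w t = i.2.1)).card < q)
    (by
      rintro w ⟨t, t', h1, h2, h3, h4, h5, h6, h7⟩
      refine ⟨((t, t'), (w t, w t')), ?_, rfl, rfl, ?_⟩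
      · simp only [Finset.mem_product, Finset.mem_filter, Finset.mem_univ, true_and]
        unfold Ls at h6
        exact ⟨⟨h1, h4⟩, (Finset.mem_filter.1 h6).1, h7⟩
      · unfold Ls fr at h6
        rw [hT, Finset.filter_filter]
        exact (Finset.mem_filter.1 h6).2)
    ((1 / (n : ℝ)) ^ 2 * X)
    (by
      rintro ⟨⟨t, t'⟩, ⟨z, z'⟩⟩ hi
      simp only [Finset.mem_product, Finset.mem_filter, Finset.mem_univ, true_and] at hi
      have h2 := W02b hn T z z' t t' hi.1.1 q θ hθ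
      refine h2.trans (mul_le_mul_of_nonneg_left ?_ (by positivity))
      refine Real.exp_le_exp.2 ?_
      have h5 := w04_T_card k u
      rw [← hT] at h5
      have h6 : (1 - Real.exp (-θ)) * ((m : ℝ) - (k + 2) * n - 2) / n ≤
          (1 - Real.exp (-θ)) * ((T.card : ℝ) - 2) / n :=
        div_le_div_of_nonneg_right (mul_le_mul_of_nonneg_left (by linarith) (w04_s hθ))
          (Nat.cast_nonneg _)
      linarith)
  refine h1.trans ?_
  rw [Finset.card_product, Finset.card_product]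
  have h2 : ((Finset.univ.filter (fun p : Fin m × Fin m => p.1 ≠ p.2 ∧ u p.1 = u p.2)).card : ℝ) ≤
      ∑ v, (tot u v : ℝ) ^ 2 := by
    rw [← w04_pairs]
    have : (Finset.univ.filter (fun p : Fin m × Fin m => p.1 ≠ p.2 ∧ u p.1 = u p.2)).card ≤
        (Finset.univ.filter (fun p : Fin m × Fin m => u p.1 = u p.2)).card := by
      refine Finset.card_le_card fun p hp => ?_
      simp only [Finset.mem_filter, Finset.mem_univ, true_and] at hp ⊢
      exact hp.2
    exact_mod_cast this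
  push_cast
  calc ((Finset.univ.filter (fun p : Fin m × Fin m => p.1 ≠ p.2 ∧ u p.1 = u p.2)).card : ℝ) *
        (((Zs k u).card : ℝ) * ((Zs k u).card : ℝ)) * ((1 / (n : ℝ)) ^ 2 * X) ≤
      (∑ v, (tot u v : ℝ) ^ 2) *
        (((Zs k u).card : ℝ) * ((Zs k u).card : ℝ)) * ((1 / (n : ℝ)) ^ 2 * X) := by
        refine mul_le_mul_of_nonneg_right ?_ (by positivity)
        exact mul_le_mul_of_nonneg_right h2 (by positivity)
    _ = (∑ v, (tot u v : ℝ) ^ 2) * (((Zs k u).card : ℝ) / n) ^ 2 * X := by ring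

theorem W04d {n m : ℕ} (hn : 1 ≤ n) (k : ℕ) (u : Fin m → Fin n) :
    pr (fun w : Fin m → Fin n => ∃ t₁ t₂ t₃, t₁ ≠ t₂ ∧ t₁ ≠ t₃ ∧ t₂ ≠ t₃ ∧ u t₁ = u t₂ ∧
      u t₁ = u t₃ ∧ w t₁ ∈ Zs k u ∧ w t₂ ∈ Zs k u ∧ w t₃ ∈ Zs k u) ≤
      (∑ v, (tot u v : ℝ) ^ 3) * (((Zs k u).card : ℝ) / n) ^ 3 := by
  have h1 := w04_union
    (s := Finset.univ.filter (fun p : Fin m × Fin m × Fin m =>
      (p.1 ≠ p.2.1 ∧ p.1 ≠ p.2.2 ∧ p.2.1 ≠ p.2.2) ∧ u p.1 = u p.2.1 ∧ u p.1 = u p.2.2))
    (P := fun w : Fin m → Fin n => ∃ t₁ t₂ t₃, t₁ ≠ t₂ ∧ t₁ ≠ t₃ ∧ t₂ ≠ t₃ ∧ u t₁ = u t₂ ∧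
      u t₁ = u t₃ ∧ w t₁ ∈ Zs k u ∧ w t₂ ∈ Zs k u ∧ w t₃ ∈ Zs k u)
    (Q := fun i w => ∀ t ∈ ({i.1, i.2.1, i.2.2} : Finset (Fin m)), w t ∈ Zs k u)
    (by
      rintro w ⟨t₁, t₂, t₃, h1, h2, h3, h4, h5, h6, h7, h8⟩
      refine ⟨(t₁, t₂, t₃), ?_, ?_⟩
      · simp only [Finset.mem_filter, Finset.mem_univ, true_and]
        exact ⟨⟨h1, h2, h3⟩, h4, h5⟩
      · intro t ht
        simp only [Finset.mem_insert, Finset.mem_singleton] at ht
        rcases ht with rfl | rfl | rfl <;> assumption)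
    ((((Zs k u).card : ℝ) / n) ^ 3)
    (by
      rintro ⟨t₁, t₂, t₃⟩ hi
      simp only [Finset.mem_filter, Finset.mem_univ, true_and] at hi
      have h2 := W02c hn ({t₁, t₂, t₃} : Finset (Fin m)) (fun _ => Zs k u)
      refine (le_of_eq h2).trans (le_of_eq ?_)
      rw [Finset.prod_const]
      congr 1
      exact Finset.card_eq_three.2 ⟨t₁, t₂, t₃, hi.1.1, hi.1.2.1, hi.1.2.2, rfl⟩)
  refine h1.trans (mul_le_mul_of_nonneg_right ?_ (by positivity))
  rw [← w04_triples]
  have : (Finset.univ.filter (fun p : Fin m × Fin m × Fin m =>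
      (p.1 ≠ p.2.1 ∧ p.1 ≠ p.2.2 ∧ p.2.1 ≠ p.2.2) ∧ u p.1 = u p.2.1 ∧ u p.1 = u p.2.2)).card ≤
      (Finset.univ.filter (fun p : Fin m × Fin m × Fin m =>
        u p.1 = u p.2.1 ∧ u p.1 = u p.2.2)).card := by
    refine Finset.card_le_card fun p hp => ?_
    simp only [Finset.mem_filter, Finset.mem_univ, true_and] at hp ⊢
    exact hp.2
  exact_mod_cast this

lemma w04_two {n m : ℕ} (hn : 1 ≤ n) (t t' : Fin m) (h : t ≠ t') (z z' : Fin n) :
    pr (fun w : Fin m → Fin n => w t = z ∧ w t' = z') ≤ (1 / (n : ℝ)) ^ 2 := by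
  have h2 := W02c hn ({t, t'} : Finset (Fin m)) (fun s => if s = t then {z} else {z'})
  have h3 : ∏ s ∈ ({t, t'} : Finset (Fin m)),
      (((if s = t then ({z} : Finset (Fin n)) else {z'}).card : ℝ) / n) = (1 / (n : ℝ)) ^ 2 := by
    rw [Finset.prod_pair h, if_pos rfl, if_neg h.symm]
    simp [sq]
  rw [← h3, ← h2]
  refine pr_mono fun w hw s hs => ?_
  simp only [Finset.mem_insert, Finset.mem_singleton] at hs
  rcases hs with rfl | rfl
  · simp [hw.1]
  · rw [if_neg h.symm]
    simp [hw.2]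

lemma w04_eq {n m : ℕ} (hn : 1 ≤ n) (t t' : Fin m) (h : t ≠ t') :
    pr (fun w : Fin m → Fin n => w t = w t') ≤ 1 / (n : ℝ) := by
  have h1 := w04_union (s := (Finset.univ : Finset (Fin n)))
    (P := fun w : Fin m → Fin n => w t = w t') (Q := fun z w => w t = z ∧ w t' = z)
    (fun w hw => ⟨w t, Finset.mem_univ _, rfl, hw.symm⟩) ((1 / (n : ℝ)) ^ 2)
    (fun z _ => w04_two hn t t' h z z)
  refine h1.trans (le_of_eq ?_)
  rw [Finset.card_univ, Fintype.card_fin]
  have : (n : ℝ) ≠ 0 := by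
    have : 0 < n := hn
    positivity
  field_simp

lemma w04_eq3 {n m : ℕ} (hn : 1 ≤ n) (t t' t'' : Fin m) (h : t ≠ t') (h' : t ≠ t'')
    (h'' : t' ≠ t'') :
    pr (fun w : Fin m → Fin n => w t = w t' ∧ w t = w t'') ≤ 1 / (n : ℝ) ^ 2 := by
  have h1 := w04_union (s := (Finset.univ : Finset (Fin n)))
    (P := fun w : Fin m → Fin n => w t = w t' ∧ w t = w t'')
    (Q := fun z w => ∀ s ∈ ({t, t', t''} : Finset (Fin m)), w s ∈ ({z} : Finset (Fin n)))
    (fun w hw => ⟨w t, Finset.mem_univ _, fun s hs => by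
      simp only [Finset.mem_insert, Finset.mem_singleton] at hs ⊢
      rcases hs with rfl | rfl | rfl
      · rfl
      · exact hw.1.symm
      · exact hw.2.symm⟩) ((1 / (n : ℝ)) ^ 3)
    (fun z _ => by
      refine (le_of_eq (W02c hn ({t, t', t''} : Finset (Fin m)) (fun _ => {z}))).trans
        (le_of_eq ?_)
      rw [Finset.prod_const, Finset.card_singleton, Nat.cast_one]
      congr 1
      exact Finset.card_eq_three.2 ⟨t, t', t'', h, h', h'', rfl⟩)
  refine h1.trans (le_of_eq ?_)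
  rw [Finset.card_univ, Fintype.card_fin]
  have : (n : ℝ) ≠ 0 := by
    have : 0 < n := hn
    positivity
  field_simp

theorem W04e {n m : ℕ} (hn : 1 ≤ n) (k : ℕ) (u : Fin m → Fin n) :
    pr (fun w : Fin m → Fin n => ∃ t t', t ≠ t' ∧ u t = u t' ∧ w t = w t' ∧ w t ∈ Zs k u) ≤
      (∑ v, (tot u v : ℝ) ^ 2) * ((Zs k u).card : ℝ) / n ^ 2 := by
  have h1 := w04_union
    (s := (Finset.univ.filter (fun p : Fin m × Fin m => p.1 ≠ p.2 ∧ u p.1 = u p.2)) ×ˢ Zs k u)
    (P := fun w : Fin m → Fin n => ∃ t t', t ≠ t' ∧ u t = u t' ∧ w t = w t' ∧ w t ∈ Zs k u)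
    (Q := fun i w => w i.1.1 = i.2 ∧ w i.1.2 = i.2)
    (by
      rintro w ⟨t, t', h1, h2, h3, h4⟩
      refine ⟨((t, t'), w t), ?_, rfl, h3.symm⟩
      simp only [Finset.mem_product, Finset.mem_filter, Finset.mem_univ, true_and]
      exact ⟨⟨h1, h2⟩, h4⟩)
    ((1 / (n : ℝ)) ^ 2)
    (by
      rintro ⟨⟨t, t'⟩, z⟩ hi
      simp only [Finset.mem_product, Finset.mem_filter, Finset.mem_univ, true_and] at hi
      exact w04_two hn t t' hi.1.1 z z)
  refine h1.trans ?_
  rw [Finset.card_product]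
  have h2 : ((Finset.univ.filter (fun p : Fin m × Fin m => p.1 ≠ p.2 ∧ u p.1 = u p.2)).card : ℝ) ≤
      ∑ v, (tot u v : ℝ) ^ 2 := by
    rw [← w04_pairs]
    have : (Finset.univ.filter (fun p : Fin m × Fin m => p.1 ≠ p.2 ∧ u p.1 = u p.2)).card ≤
        (Finset.univ.filter (fun p : Fin m × Fin m => u p.1 = u p.2)).card := by
      refine Finset.card_le_card fun p hp => ?_
      simp only [Finset.mem_filter, Finset.mem_univ, true_and] at hp ⊢
      exact hp.2
    exact_mod_cast this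
  push_cast
  calc ((Finset.univ.filter (fun p : Fin m × Fin m => p.1 ≠ p.2 ∧ u p.1 = u p.2)).card : ℝ) *
        ((Zs k u).card : ℝ) * (1 / (n : ℝ)) ^ 2 ≤
      (∑ v, (tot u v : ℝ) ^ 2) * ((Zs k u).card : ℝ) * (1 / (n : ℝ)) ^ 2 := by
        refine mul_le_mul_of_nonneg_right ?_ (by positivity)
        exact mul_le_mul_of_nonneg_right h2 (by positivity)
    _ = (∑ v, (tot u v : ℝ) ^ 2) * ((Zs k u).card : ℝ) / n ^ 2 := by ring

theorem W04f {n m : ℕ} (hn : 1 ≤ n) (k : ℕ) (u : Fin m → Fin n) :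
    av (fun w : Fin m → Fin n => ((NZ k u w).card : ℝ)) ≤ m * ((Zs k u).card : ℝ) / n := by
  have h1 : ∀ w : Fin m → Fin n, ((NZ k u w).card : ℝ) ≤
      ∑ t : Fin m, if w t ∈ Zs k u then (1 : ℝ) else 0 := by
    intro w
    have h2 := W03e k u w
    have h3 : ((NZ k u w).card : ℝ) ≤
        ((Finset.univ.filter (fun t => w t ∈ Zs k u)).card : ℝ) := by exact_mod_cast h2
    rw [Finset.card_filter] at h3
    push_cast at h3
    exact h3
  refine (av_mono h1).trans ?_
  rw [av_sum]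
  have h2 : ∀ t ∈ (Finset.univ : Finset (Fin m)),
      av (fun w : Fin m → Fin n => if w t ∈ Zs k u then (1 : ℝ) else 0) ≤
        ((Zs k u).card : ℝ) / n := by
    intro t _
    have h3 := W02c hn ({t} : Finset (Fin m)) (fun _ => Zs k u)
    rw [Finset.prod_singleton] at h3
    rw [← h3]
    refine (w04_if (fun w : Fin m → Fin n => w t ∈ Zs k u) _).le.trans ?_
    refine pr_mono fun w hw s hs => ?_
    rw [Finset.mem_singleton] at hs
    rw [hs]
    exact hw
  have h4 := Finset.sum_le_card_nsmul Finset.univ _ _ h2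
  rw [Finset.card_univ, Fintype.card_fin, nsmul_eq_mul] at h4
  rw [mul_div_assoc]
  exact h4

theorem W04g {n : ℕ} (hn : 1 ≤ n) (m : ℕ) :
    av (fun u : Fin m → Fin n => ∑ v, (tot u v : ℝ) ^ 2) ≤ m + (m : ℝ) ^ 2 / n := by
  rw [av_congr (fun u => w04_sq u), av_sum]
  have h1 : ∀ t : Fin m, av (fun u : Fin m → Fin n =>
      ∑ t', if u t = u t' then (1 : ℝ) else 0) ≤ 1 + m * (1 / (n : ℝ)) := by
    intro t
    rw [av_sum]
    have h2 : ∀ t' : Fin m, av (fun u : Fin m → Fin n => if u t = u t' then (1 : ℝ) else 0) ≤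
        (if t = t' then (1 : ℝ) else 0) + 1 / (n : ℝ) := by
      intro t'
      refine (w04_if (fun u : Fin m → Fin n => u t = u t') _).le.trans ?_
      by_cases h : t = t'
      · rw [if_pos h]
        have := pr_le_one (fun u : Fin m → Fin n => u t = u t')
        have h0 : (0 : ℝ) ≤ 1 / (n : ℝ) := by positivity
        linarith
      · rw [if_neg h, zero_add]
        exact w04_eq hn t t' h
    refine (Finset.sum_le_sum fun t' _ => h2 t').trans (le_of_eq ?_)
    rw [Finset.sum_add_distrib]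
    simp
  refine (Finset.sum_le_sum fun t _ => h1 t).trans (le_of_eq ?_)
  simp only [Finset.sum_const, Finset.card_univ, Fintype.card_fin, nsmul_eq_mul]
  ring

theorem W04h {n : ℕ} (hn : 1 ≤ n) (m : ℕ) :
    av (fun u : Fin m → Fin n => ∑ v, (tot u v : ℝ) ^ 3) ≤
      m + 3 * (m : ℝ) ^ 2 / n + (m : ℝ) ^ 3 / n ^ 2 := by
  rw [av_congr (fun u => w04_cube u), av_sum]
  have h0 : (0 : ℝ) ≤ 1 / (n : ℝ) := by positivity
  have h0' : (0 : ℝ) ≤ 1 / (n : ℝ) ^ 2 := by positivity
  have h1 : ∀ t : Fin m, av (fun u : Fin m → Fin n =>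
      ∑ t', ∑ t'', if u t = u t' ∧ u t = u t'' then (1 : ℝ) else 0) ≤
        1 + 3 * m * (1 / (n : ℝ)) + (m : ℝ) ^ 2 * (1 / (n : ℝ) ^ 2) := by
    intro t
    rw [av_sum]
    have h2 : ∀ t' : Fin m, av (fun u : Fin m → Fin n =>
        ∑ t'', if u t = u t' ∧ u t = u t'' then (1 : ℝ) else 0) ≤
        (if t = t' then (1 : ℝ) else 0) * (1 + m * (1 / (n : ℝ))) +
          (2 * (1 / (n : ℝ)) + m * (1 / (n : ℝ) ^ 2)) := by
      intro t'
      rw [av_sum]
      have h3 : ∀ t'' : Fin m, av (fun u : Fin m → Fin n =>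
          if u t = u t' ∧ u t = u t'' then (1 : ℝ) else 0) ≤
          (if t = t' then (1 : ℝ) else 0) * ((if t = t'' then (1 : ℝ) else 0) + 1 / (n : ℝ)) +
            (((if t = t'' then (1 : ℝ) else 0) + (if t' = t'' then (1 : ℝ) else 0)) *
              (1 / (n : ℝ)) + 1 / (n : ℝ) ^ 2) := by
        intro t''
        have hone := pr_le_one (fun u : Fin m → Fin n => u t = u t' ∧ u t = u t'')
        have heq : av (fun u : Fin m → Fin n =>
          if u t = u t' ∧ u t = u t'' then (1 : ℝ) else 0) =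
          pr (fun u : Fin m → Fin n => u t = u t' ∧ u t = u t'') := w04_if _ _
        rw [heq]
        by_cases h4 : t = t'
        · by_cases h5 : t = t''
          · rw [if_pos h4, if_pos h5, if_pos (h4.symm.trans h5)]
            linarith
          · rw [if_pos h4, if_neg h5, if_neg (fun h => h5 (h4.trans h))]
            have h6 := w04_eq hn t t'' h5
            have h7 : pr (fun u : Fin m → Fin n => u t = u t' ∧ u t = u t'') ≤
                pr (fun w : Fin m → Fin n => w t = w t'') := pr_mono fun w hw => hw.2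
            linarith
        · by_cases h5 : t = t''
          · have h8 : t' ≠ t'' := fun h => h4 (h5.trans h.symm)
            rw [if_neg h4, if_pos h5, if_neg h8]
            have h6 := w04_eq hn t t' h4
            have h7 : pr (fun u : Fin m → Fin n => u t = u t' ∧ u t = u t'') ≤
                pr (fun w : Fin m → Fin n => w t = w t') := pr_mono fun w hw => hw.1
            linarith
          · by_cases h8 : t' = t''
            · rw [if_neg h4, if_neg h5, if_pos h8]
              have h6 := w04_eq hn t t' h4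
              have h7 : pr (fun u : Fin m → Fin n => u t = u t' ∧ u t = u t'') ≤
                  pr (fun w : Fin m → Fin n => w t = w t') := pr_mono fun w hw => hw.1
              linarith
            · rw [if_neg h4, if_neg h5, if_neg h8]
              have h6 := w04_eq3 hn t t' t'' h4 h5 h8
              linarith
      refine (Finset.sum_le_sum fun t'' _ => h3 t'').trans (le_of_eq ?_)
      rw [Finset.sum_add_distrib, ← Finset.mul_sum, Finset.sum_add_distrib,
        Finset.sum_add_distrib, ← Finset.sum_mul, Finset.sum_add_distrib]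
      simp only [Finset.sum_ite_eq, Finset.mem_univ, if_true, Finset.sum_const,
        Finset.card_univ, Fintype.card_fin, nsmul_eq_mul]
      ring
    refine (Finset.sum_le_sum fun t' _ => h2 t').trans (le_of_eq ?_)
    rw [Finset.sum_add_distrib, ← Finset.sum_mul]
    simp only [Finset.sum_ite_eq, Finset.mem_univ, if_true, Finset.sum_const,
      Finset.card_univ, Fintype.card_fin, nsmul_eq_mul]
    ring
  refine (Finset.sum_le_sum fun t _ => h1 t).trans (le_of_eq ?_)
  simp only [Finset.sum_const, Finset.card_univ, Fintype.card_fin, nsmul_eq_mul]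
  ring

end Pool.Agent.HC
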