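import Pool.Agent.Lib.MP_ec42c8_pr.W04

/-!
# W05 : the bad event for the tails and the free heads is unlikely

PROOF.  Let `T(u) = ∑ v, tot u v ^ 2`, `T'(u) = ∑ v, tot u v ^ 3`, `Z = card (Zs k u)`,
`τ = exp (θ q - (1 - exp (-θ)) (m - (k + 2) n - 2) / n)` (which is larger than the exponential in
`W04b`).  Split `YBad` into its six parts; parts 2 to 6 are intersected with `Z ≤ r`:
part 1: Markov (`markov` with `a = r + 1`) and `W04a`;
part 2: for fixed `u` with `Z ≤ r`: Markov and `W04b`: at most `r τ / (l + 1)`;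
part 3: Markov and `W04f`: at most `m r / (n (r' + 1))`;
part 4: `W04c`: at most `T(u) (r / n)² τ`, then average over `u` by `W04g`;
part 5: `W04d`, `W04h`; part 6: `W04e`, `W04g`.
-/

set_option autoImplicit false

namespace Pool.Agent.HC

open Finset
open scoped Classical

/-- Markov for a natural number -/
lemma w05_markov {Ω : Type*} [Fintype Ω] (X : Ω → ℕ) (r : ℕ) :
    pr (fun ω => r < X ω) ≤ av (fun ω => (X ω : ℝ)) / (r + 1) := by
  refine le_trans (pr_mono ?_) (markov (fun ω => (X ω : ℝ)) (fun ω => Nat.cast_nonneg _)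
    (a := (r : ℝ) + 1) (by positivity))
  intro ω h
  show (r : ℝ) + 1 ≤ (X ω : ℝ)
  exact_mod_cast h

lemma w05_fix {n m : ℕ} (hn : 1 ≤ n) (k q r l r' : ℕ) (u : Fin m → Fin n) (θ : ℝ) (hθ : 0 ≤ θ)
    (hr : (Zs k u).card ≤ r) :
    pr (fun w : Fin m → Fin n => YBad k q r l r' u w) ≤
      (r / (l + 1) + (∑ v, (tot u v : ℝ) ^ 2) * ((r : ℝ) / n) ^ 2) *
        Real.exp (θ * q - (1 - Real.exp (-θ)) * ((m : ℝ) - (k + 2) * n - 2) / n) +
      m * r / (n * (r' + 1)) +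
      (∑ v, (tot u v : ℝ) ^ 3) * ((r : ℝ) / n) ^ 3 +
      (∑ v, (tot u v : ℝ) ^ 2) * r / n ^ 2 := by
  set X := Real.exp (θ * q - (1 - Real.exp (-θ)) * ((m : ℝ) - (k + 2) * n - 2) / n) with hX
  have hX0 : 0 < X := Real.exp_pos _
  have hn0 : (0 : ℝ) < n := by exact_mod_cast hn
  have hZ : ((Zs k u).card : ℝ) ≤ r := by exact_mod_cast hr
  have hZ0 : (0 : ℝ) ≤ ((Zs k u).card : ℝ) := Nat.cast_nonneg _
  have hT : (0 : ℝ) ≤ ∑ v, (tot u v : ℝ) ^ 2 := Finset.sum_nonneg fun v _ => by positivity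
  have hT' : (0 : ℝ) ≤ ∑ v, (tot u v : ℝ) ^ 3 := Finset.sum_nonneg fun v _ => by positivity
  have p2 : pr (fun w : Fin m → Fin n => l < (Ls k q u w).card) ≤ r / (l + 1) * X := by
    refine (w05_markov _ _).trans ?_
    have h1 := W04b hn k q u θ hθ
    have h2 : Real.exp (θ * q - (1 - Real.exp (-θ)) * ((m : ℝ) - (k + 2) * n) / n) ≤ X := by
      refine Real.exp_le_exp.2 ?_
      have h3 : (1 - Real.exp (-θ)) * ((m : ℝ) - (k + 2) * n - 2) / n ≤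
          (1 - Real.exp (-θ)) * ((m : ℝ) - (k + 2) * n) / n :=
        div_le_div_of_nonneg_right (mul_le_mul_of_nonneg_left (by linarith) (w04_s hθ)) hn0.le
      linarith
    have h3 : av (fun w : Fin m → Fin n => ((Ls k q u w).card : ℝ)) ≤ r * X :=
      h1.trans (mul_le_mul hZ h2 (Real.exp_pos _).le (Nat.cast_nonneg _))
    calc av (fun w : Fin m → Fin n => ((Ls k q u w).card : ℝ)) / ((l : ℝ) + 1) ≤
        (r * X) / ((l : ℝ) + 1) := div_le_div_of_nonneg_right h3 (by positivity)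
      _ = r / (l + 1) * X := by ring
  have p3 : pr (fun w : Fin m → Fin n => r' < (NZ k u w).card) ≤ m * r / (n * (r' + 1)) := by
    refine (w05_markov _ _).trans ?_
    have h1 := W04f hn k u
    have h3 : av (fun w : Fin m → Fin n => ((NZ k u w).card : ℝ)) ≤ m * r / n :=
      h1.trans (div_le_div_of_nonneg_right (mul_le_mul_of_nonneg_left hZ (Nat.cast_nonneg _))
        hn0.le)
    calc av (fun w : Fin m → Fin n => ((NZ k u w).card : ℝ)) / ((r' : ℝ) + 1) ≤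
        (m * r / n) / ((r' : ℝ) + 1) := div_le_div_of_nonneg_right h3 (by positivity)
      _ = m * r / (n * (r' + 1)) := by rw [div_div]
  have hq1 : ((Zs k u).card : ℝ) / n ≤ r / n := div_le_div_of_nonneg_right hZ hn0.le
  have hq0 : (0 : ℝ) ≤ ((Zs k u).card : ℝ) / n := by positivity
  have p4 := (W04c hn k q u θ hθ).trans
    (mul_le_mul_of_nonneg_right (mul_le_mul_of_nonneg_left (pow_le_pow_left₀ hq0 hq1 2) hT)
      (Real.exp_pos _).le)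
  have p5 := (W04d hn k u).trans (mul_le_mul_of_nonneg_left (pow_le_pow_left₀ hq0 hq1 3) hT')
  have p6 := (W04e hn k u).trans
    (div_le_div_of_nonneg_right (mul_le_mul_of_nonneg_left hZ hT) (by positivity))
  rw [← hX] at p4
  have h0 : pr (fun w : Fin m → Fin n => r < (Zs k u).card) = 0 := by
    have : pr (fun w : Fin m → Fin n => r < (Zs k u).card) =
        pr (fun _ : Fin m → Fin n => False) := pr_congr fun w => by
      simp only [iff_false, not_lt]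
      exact hr
    rw [this, pr_false]
  unfold YBad
  refine (pr_or_le _ _).trans ?_
  rw [h0, zero_add]
  refine (pr_or_le _ _).trans ?_
  have h1 := pr_or_le (fun w : Fin m → Fin n => r' < (NZ k u w).card)
    (fun w : Fin m → Fin n =>
      (∃ t t', t ≠ t' ∧ k + 2 ≤ cnt u t ∧ k + 2 ≤ cnt u t' ∧ u t = u t' ∧ w t ≠ w t' ∧
        w t ∈ Ls k q u w ∧ w t' ∈ Zs k u) ∨
      (∃ t₁ t₂ t₃, t₁ ≠ t₂ ∧ t₁ ≠ t₃ ∧ t₂ ≠ t₃ ∧ u t₁ = u t₂ ∧ u t₁ = u t₃ ∧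
        w t₁ ∈ Zs k u ∧ w t₂ ∈ Zs k u ∧ w t₃ ∈ Zs k u) ∨
      (∃ t t', t ≠ t' ∧ u t = u t' ∧ w t = w t' ∧ w t ∈ Zs k u))
  have h2 := pr_or_le (fun w : Fin m → Fin n =>
      (∃ t t', t ≠ t' ∧ k + 2 ≤ cnt u t ∧ k + 2 ≤ cnt u t' ∧ u t = u t' ∧ w t ≠ w t' ∧
        w t ∈ Ls k q u w ∧ w t' ∈ Zs k u))
    (fun w : Fin m → Fin n =>
      (∃ t₁ t₂ t₃, t₁ ≠ t₂ ∧ t₁ ≠ t₃ ∧ t₂ ≠ t₃ ∧ u t₁ = u t₂ ∧ u t₁ = u t₃ ∧
        w t₁ ∈ Zs k u ∧ w t₂ ∈ Zs k u ∧ w t₃ ∈ Zs k u) ∨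
      (∃ t t', t ≠ t' ∧ u t = u t' ∧ w t = w t' ∧ w t ∈ Zs k u))
  have h3 := pr_or_le (fun w : Fin m → Fin n =>
      (∃ t₁ t₂ t₃, t₁ ≠ t₂ ∧ t₁ ≠ t₃ ∧ t₂ ≠ t₃ ∧ u t₁ = u t₂ ∧ u t₁ = u t₃ ∧
        w t₁ ∈ Zs k u ∧ w t₂ ∈ Zs k u ∧ w t₃ ∈ Zs k u))
    (fun w : Fin m → Fin n =>
      (∃ t t', t ≠ t' ∧ u t = u t' ∧ w t = w t' ∧ w t ∈ Zs k u))
  have e : (r / (l + 1) + (∑ v, (tot u v : ℝ) ^ 2) * ((r : ℝ) / n) ^ 2) * X =
      r / (l + 1) * X + (∑ v, (tot u v : ℝ) ^ 2) * ((r : ℝ) / n) ^ 2 * X := by ring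
  rw [e]
  linarith

theorem W05 {n : ℕ} (hn : 1 ≤ n) (k q r l r' m : ℕ) (θ : ℝ) (hθ : 0 ≤ θ) :
    av (fun u : Fin m → Fin n => pr (fun w : Fin m → Fin n => YBad k q r l r' u w)) ≤
      n * Real.exp (θ * (k + 2) - (1 - Real.exp (-θ)) * m / n) / (r + 1) +
      (r / (l + 1) + (m + (m : ℝ) ^ 2 / n) * ((r : ℝ) / n) ^ 2) *
        Real.exp (θ * q - (1 - Real.exp (-θ)) * ((m : ℝ) - (k + 2) * n - 2) / n) +
      m * r / (n * (r' + 1)) +
      (m + 3 * (m : ℝ) ^ 2 / n + (m : ℝ) ^ 3 / n ^ 2) * ((r : ℝ) / n) ^ 3 +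
      (m + (m : ℝ) ^ 2 / n) * r / n ^ 2 := by
  have : Nonempty (Fin n) := ⟨⟨0, hn⟩⟩
  set X := Real.exp (θ * q - (1 - Real.exp (-θ)) * ((m : ℝ) - (k + 2) * n - 2) / n) with hX
  have hX0 : 0 < X := Real.exp_pos _
  have hn0 : (0 : ℝ) < n := by exact_mod_cast hn
  have h1 : ∀ u : Fin m → Fin n, pr (fun w : Fin m → Fin n => YBad k q r l r' u w) ≤
      (if r < (Zs k u).card then (1 : ℝ) else 0) +
      (((r / (l + 1) * X + m * r / (n * (r' + 1))) +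
        (((r : ℝ) / n) ^ 2 * X + r / n ^ 2) * (∑ v, (tot u v : ℝ) ^ 2)) +
        ((r : ℝ) / n) ^ 3 * (∑ v, (tot u v : ℝ) ^ 3)) := by
    intro u
    have hT : (0 : ℝ) ≤ ∑ v, (tot u v : ℝ) ^ 2 := Finset.sum_nonneg fun v _ => by positivity
    have hT' : (0 : ℝ) ≤ ∑ v, (tot u v : ℝ) ^ 3 := Finset.sum_nonneg fun v _ => by positivity
    by_cases h : r < (Zs k u).card
    · rw [if_pos h]
      have h2 := pr_le_one (fun w : Fin m → Fin n => YBad k q r l r' u w)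
      have h3 : 0 ≤ (((r / (l + 1) * X + m * r / (n * (r' + 1))) +
        (((r : ℝ) / n) ^ 2 * X + r / n ^ 2) * (∑ v, (tot u v : ℝ) ^ 2)) +
        ((r : ℝ) / n) ^ 3 * (∑ v, (tot u v : ℝ) ^ 3)) := by positivity
      linarith
    · rw [if_neg h, zero_add]
      have h2 := w05_fix hn k q r l r' u θ hθ (not_lt.1 h)
      rw [← hX] at h2
      refine h2.trans (le_of_eq ?_)
      ring
  refine (av_mono h1).trans ?_
  rw [av_add, av_add (fun u : Fin m → Fin n => (r / (l + 1) * X + m * r / (n * (r' + 1))) +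
        (((r : ℝ) / n) ^ 2 * X + r / n ^ 2) * (∑ v, (tot u v : ℝ) ^ 2)),
    av_add (fun _ : Fin m → Fin n => (r / (l + 1) * X + m * r / (n * (r' + 1)))), av_const,
    av_mul_left, av_mul_left]
  have e1 : av (fun u : Fin m → Fin n => if r < (Zs k u).card then (1 : ℝ) else 0) ≤
      n * Real.exp (θ * (k + 2) - (1 - Real.exp (-θ)) * m / n) / (r + 1) := by
    refine (w04_if (fun u : Fin m → Fin n => r < (Zs k u).card) _).le.trans ?_
    refine (w05_markov _ _).trans ?_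
    exact div_le_div_of_nonneg_right (W04a hn k m θ hθ) (by positivity)
  have e2 := W04g hn m
  have e3 := W04h hn m
  have e4 : (((r : ℝ) / n) ^ 2 * X + r / n ^ 2) *
      av (fun u : Fin m → Fin n => ∑ v, (tot u v : ℝ) ^ 2) ≤
      (((r : ℝ) / n) ^ 2 * X + r / n ^ 2) * (m + (m : ℝ) ^ 2 / n) :=
    mul_le_mul_of_nonneg_left e2 (by positivity)
  have e5 : ((r : ℝ) / n) ^ 3 * av (fun u : Fin m → Fin n => ∑ v, (tot u v : ℝ) ^ 3) ≤
      ((r : ℝ) / n) ^ 3 * (m + 3 * (m : ℝ) ^ 2 / n + (m : ℝ) ^ 3 / n ^ 2) :=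
    mul_le_mul_of_nonneg_left e3 (by positivity)
  have e6 : (r / (l + 1) + (m + (m : ℝ) ^ 2 / n) * ((r : ℝ) / n) ^ 2) * X =
      r / (l + 1) * X + ((r : ℝ) / n) ^ 2 * X * (m + (m : ℝ) ^ 2 / n) := by ring
  have e7 : (m + (m : ℝ) ^ 2 / n) * r / n ^ 2 = r / n ^ 2 * (m + (m : ℝ) ^ 2 / n) := by ring
  rw [e6, e7]
  rw [add_mul] at e4
  rw [add_mul (((r : ℝ) / n) ^ 2 * X) (r / n ^ 2) (m + (m : ℝ) ^ 2 / n)] at e4
  rw [add_mul]
  linarith

end Pool.Agent.HC
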