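import Pool.Agent.Lib.MP_ec42c8_pr.F01

/-!
# W09 : elementary bounds for the random functions y and h

Union bounds; a coordinate of a uniformly random function is in a given set `Q` with probability
`card Q / n`, two different coordinates are equal with probability `1 / n`, two different
coordinates are both in `Q` with probability ` (card Q / n) ^ 2` (`av_prod_fun`, or `av_restrict`).
In `W09d` average first over `h` for fixed `y`.
-/

set_option autoImplicit false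

namespace Pool.Agent.HC

open Finset
open scoped Classical

lemma w09_inst {Ω : Type*} (i1 i2 : Fintype Ω) (f : Ω → ℝ) : @av Ω i1 f = @av Ω i2 f := by
  have : i1 = i2 := Subsingleton.elim _ _
  subst this
  rfl

lemma w09_pr_restrict {ι α T : Type*} [Fintype ι] [DecidableEq ι] [Fintype T] [DecidableEq T]
    [Fintype α] [Nonempty α] (c : T → ι) (hc : Function.Injective c) (P : (T → α) → Prop) :
    pr (fun x : ι → α => P (fun t => x (c t))) = pr P := by
  have h1 := av_restrict (α := α) c hc (fun x => if P x then (1 : ℝ) else 0)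
  unfold pr
  exact (w09_inst _ _ _).trans (h1.trans (w09_inst _ _ _))

lemma w09_pr_equiv {Ω Ω' : Type*} [Fintype Ω] [Fintype Ω'] (e : Ω ≃ Ω') (P : Ω' → Prop) :
    pr (fun x => P (e x)) = pr P :=
  av_equiv e (fun x => if P x then (1 : ℝ) else 0)

lemma w09_coord {ι α : Type*} [Fintype ι] [DecidableEq ι] [Fintype α] [Nonempty α] (i : ι)
    (Q : Finset α) :
    pr (fun y : ι → α => y i ∈ Q) = (Q.card : ℝ) / Fintype.card α := by
  have h1 := w09_pr_restrict (α := α) (T := Unit) (fun _ => i) (fun _ _ _ => rfl)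
    (fun x : Unit → α => x () ∈ Q)
  have h2 := w09_pr_equiv (Equiv.funUnique Unit α) (fun a : α => a ∈ Q)
  have h3 : pr (fun a : α => a ∈ Q) = (Q.card : ℝ) / Fintype.card α := by
    rw [pr_eq_card]
    congr 2
    congr 1
    ext a
    simp
  rw [← h3]
  exact h1.trans h2

lemma w09_pair {ι α : Type*} [Fintype ι] [DecidableEq ι] [Fintype α] [Nonempty α] (i j : ι)
    (hij : i ≠ j) (R : α → α → Prop) :
    pr (fun y : ι → α => R (y i) (y j)) = pr (fun p : α × α => R p.1 p.2) := by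
  have hinj : Function.Injective (fun t : Fin 2 => if t = 0 then i else j) := by
    intro a b h
    fin_cases a <;> fin_cases b <;> simp_all
  have h1 := w09_pr_restrict (α := α) (T := Fin 2) (fun t => if t = 0 then i else j) hinj
    (fun x : Fin 2 → α => R (x 0) (x 1))
  have h2 := w09_pr_equiv (finTwoArrowEquiv α) (fun p : α × α => R p.1 p.2)
  refine Eq.trans ?_ (h1.trans h2)
  refine pr_congr fun y => ?_
  simp

lemma w09_eq {ι α : Type*} [Fintype ι] [DecidableEq ι] [Fintype α] [Nonempty α] (i j : ι) (hij : i ≠ j) :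
    pr (fun y : ι → α => y i = y j) = 1 / Fintype.card α := by
  rw [w09_pair i j hij (fun a b => a = b), pr_eq_card]
  have h1 : (Finset.univ.filter (fun p : α × α => p.1 = p.2)).card = Fintype.card α := by
    have : (Finset.univ.filter (fun p : α × α => p.1 = p.2)) = Finset.univ.diag := by
      ext p
      simp [Finset.mem_diag]
    rw [this, Finset.diag_card, Finset.card_univ]
  rw [h1, Fintype.card_prod]
  have : (Fintype.card α : ℝ) ≠ 0 := by exact_mod_cast Fintype.card_ne_zero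
  push_cast
  field_simp

lemma w09_both {ι α : Type*} [Fintype ι] [DecidableEq ι] [Fintype α] [Nonempty α] (i j : ι) (hij : i ≠ j)
    (Q : Finset α) :
    pr (fun y : ι → α => y i ∈ Q ∧ y j ∈ Q) = ((Q.card : ℝ) / Fintype.card α) ^ 2 := by
  rw [w09_pair i j hij (fun a b => a ∈ Q ∧ b ∈ Q), pr_eq_card]
  have h2 : ∀ s : Finset (α × α), (∀ p, p ∈ s ↔ p.1 ∈ Q ∧ p.2 ∈ Q) →
      s.card = Q.card * Q.card := by
    intro s hs
    rw [← Finset.card_product]
    congr 1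
    ext p
    rw [hs, Finset.mem_product]
  rw [h2 _ (fun p => by simp), Fintype.card_prod]
  push_cast
  rw [div_pow]
  ring

lemma w09_curry {n k : ℕ} (P : (Fin n × Fin k → Fin n) → Prop) :
    pr (fun h : Fin n → Fin k → Fin n => P (fun p => h p.1 p.2)) = pr P := by
  have h2 := av_equiv (Equiv.curry (Fin n) (Fin k) (Fin n)).symm
    (fun y => if P y then (1 : ℝ) else 0)
  exact h2

theorem W09a {n m : ℕ} (hn : 1 ≤ n) (T : Finset (Fin m)) (Q : Finset (Fin n)) :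
    pr (fun y : Fin m → Fin n => ∃ t ∈ T, y t ∈ Q) ≤ (T.card : ℝ) * Q.card / n := by
  have : Nonempty (Fin n) := ⟨⟨0, hn⟩⟩
  refine (pr_exists_le T (fun t (y : Fin m → Fin n) => y t ∈ Q)).trans ?_
  have h2 : ∀ t ∈ T, pr (fun y : Fin m → Fin n => y t ∈ Q) = (Q.card : ℝ) / n := by
    intro t _
    rw [w09_coord, Fintype.card_fin]
  rw [Finset.sum_congr rfl h2, Finset.sum_const, nsmul_eq_mul]
  exact le_of_eq (by ring)

theorem W09b {n m : ℕ} (hn : 1 ≤ n) (T : Finset (Fin m)) :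
    pr (fun y : Fin m → Fin n => ∃ t ∈ T, ∃ t' ∈ T, t ≠ t' ∧ y t = y t') ≤
      (T.card : ℝ) ^ 2 / n := by
  have : Nonempty (Fin n) := ⟨⟨0, hn⟩⟩
  have h1 : pr (fun y : Fin m → Fin n => ∃ t ∈ T, ∃ t' ∈ T, t ≠ t' ∧ y t = y t') ≤
      pr (fun y : Fin m → Fin n => ∃ p ∈ T ×ˢ T, p.1 ≠ p.2 ∧ y p.1 = y p.2) := by
    refine pr_mono ?_
    rintro y ⟨t, ht, t', ht', h, h'⟩
    exact ⟨(t, t'), Finset.mem_product.2 ⟨ht, ht'⟩, h, h'⟩
  refine h1.trans ((pr_exists_le (T ×ˢ T)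
    (fun p (y : Fin m → Fin n) => p.1 ≠ p.2 ∧ y p.1 = y p.2)).trans ?_)
  have h2 : ∀ p ∈ T ×ˢ T, pr (fun y : Fin m → Fin n => p.1 ≠ p.2 ∧ y p.1 = y p.2) ≤
      1 / (n : ℝ) := by
    intro p _
    by_cases hp : p.1 = p.2
    · have : pr (fun y : Fin m → Fin n => p.1 ≠ p.2 ∧ y p.1 = y p.2) = 0 := by
        rw [← pr_false (Ω := Fin m → Fin n)]
        exact pr_congr fun y => by simp [hp]
      rw [this]
      positivity
    · have h3 := w09_eq (α := Fin n) p.1 p.2 hp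
      rw [Fintype.card_fin] at h3
      refine le_trans ?_ h3.le
      exact pr_mono (fun y hy => hy.2)
  refine (Finset.sum_le_sum h2).trans ?_
  rw [Finset.sum_const, Finset.card_product, nsmul_eq_mul]
  push_cast
  exact le_of_eq (by ring)

theorem W09c {n k : ℕ} (hn : 1 ≤ n) (Q' Q : Finset (Fin n)) :
    pr (fun h : Fin n → Fin (k + 2) → Fin n => ∃ x ∈ Q', ∃ i, h x i ∈ Q) ≤
      (Q'.card : ℝ) * (k + 2) * Q.card / n := by
  have : Nonempty (Fin n) := ⟨⟨0, hn⟩⟩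
  have h1 : pr (fun h : Fin n → Fin (k + 2) → Fin n => ∃ x ∈ Q', ∃ i, h x i ∈ Q) ≤
      pr (fun h : Fin n → Fin (k + 2) → Fin n =>
        ∃ p ∈ Q' ×ˢ (Finset.univ : Finset (Fin (k + 2))), h p.1 p.2 ∈ Q) := by
    refine pr_mono ?_
    rintro h ⟨x, hx, i, hi⟩
    exact ⟨(x, i), Finset.mem_product.2 ⟨hx, Finset.mem_univ _⟩, hi⟩
  refine h1.trans ?_
  rw [w09_curry (fun y => ∃ p ∈ Q' ×ˢ (Finset.univ : Finset (Fin (k + 2))), y p ∈ Q)]
  refine (pr_exists_le _ (fun p (y : Fin n × Fin (k + 2) → Fin n) => y p ∈ Q)).trans ?_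
  have h2 : ∀ p ∈ Q' ×ˢ (Finset.univ : Finset (Fin (k + 2))),
      pr (fun y : Fin n × Fin (k + 2) → Fin n => y p ∈ Q) = (Q.card : ℝ) / n := by
    intro t _
    rw [w09_coord, Fintype.card_fin]
  rw [Finset.sum_congr rfl h2, Finset.sum_const, nsmul_eq_mul, Finset.card_product,
    Finset.card_univ, Fintype.card_fin]
  push_cast
  exact le_of_eq (by ring)

theorem W09d {n m k : ℕ} (hn : 1 ≤ n) (T : Finset (Fin m)) (Q : Finset (Fin n))
    (y : Fin m → Fin n) :
    pr (fun h : Fin n → Fin (k + 2) → Fin n => ∃ t ∈ T, ∃ i, h (y t) i ∈ Q) ≤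
      (T.card : ℝ) * (k + 2) * Q.card / n := by
  have h1 : pr (fun h : Fin n → Fin (k + 2) → Fin n => ∃ t ∈ T, ∃ i, h (y t) i ∈ Q) ≤
      pr (fun h : Fin n → Fin (k + 2) → Fin n => ∃ x ∈ T.image y, ∃ i, h x i ∈ Q) := by
    refine pr_mono ?_
    rintro h ⟨t, ht, i, hi⟩
    exact ⟨y t, Finset.mem_image_of_mem _ ht, i, hi⟩
  refine h1.trans ((W09c hn (T.image y) Q).trans ?_)
  have h2 : ((T.image y).card : ℝ) ≤ T.card := by exact_mod_cast Finset.card_image_le
  have hn' : (0 : ℝ) < n := by exact_mod_cast hn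
  gcongr

theorem W09e {n k : ℕ} (hn : 1 ≤ n) (Q : Finset (Fin n)) :
    pr (fun h : Fin n → Fin (k + 2) → Fin n => ∃ x, ∃ i j, i ≠ j ∧ h x i ∈ Q ∧ h x j ∈ Q) ≤
      ((k : ℝ) + 2) ^ 2 * (Q.card : ℝ) ^ 2 / n := by
  have : Nonempty (Fin n) := ⟨⟨0, hn⟩⟩
  have hn' : (0 : ℝ) < n := by exact_mod_cast hn
  have h1 : pr (fun h : Fin n → Fin (k + 2) → Fin n =>
      ∃ x, ∃ i j, i ≠ j ∧ h x i ∈ Q ∧ h x j ∈ Q) ≤
      pr (fun h : Fin n → Fin (k + 2) → Fin n =>
        ∃ p ∈ (Finset.univ : Finset (Fin n × Fin (k + 2) × Fin (k + 2))),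
          p.2.1 ≠ p.2.2 ∧ h p.1 p.2.1 ∈ Q ∧ h p.1 p.2.2 ∈ Q) := by
    refine pr_mono ?_
    rintro h ⟨x, i, j, hij, hi, hj⟩
    exact ⟨(x, i, j), Finset.mem_univ _, hij, hi, hj⟩
  refine h1.trans ?_
  rw [w09_curry (fun y => ∃ p ∈ (Finset.univ : Finset (Fin n × Fin (k + 2) × Fin (k + 2))),
          p.2.1 ≠ p.2.2 ∧ y (p.1, p.2.1) ∈ Q ∧ y (p.1, p.2.2) ∈ Q)]
  refine (pr_exists_le _ (fun (p : Fin n × Fin (k + 2) × Fin (k + 2))
    (y : Fin n × Fin (k + 2) → Fin n) => p.2.1 ≠ p.2.2 ∧ y (p.1, p.2.1) ∈ Q ∧ y (p.1, p.2.2) ∈ Q)).trans ?_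
  have h2 : ∀ p ∈ (Finset.univ : Finset (Fin n × Fin (k + 2) × Fin (k + 2))),
      pr (fun y : Fin n × Fin (k + 2) → Fin n =>
        p.2.1 ≠ p.2.2 ∧ y (p.1, p.2.1) ∈ Q ∧ y (p.1, p.2.2) ∈ Q) ≤
      ((Q.card : ℝ) / n) ^ 2 := by
    intro p _
    by_cases hp : p.2.1 = p.2.2
    · have : pr (fun y : Fin n × Fin (k + 2) → Fin n =>
          p.2.1 ≠ p.2.2 ∧ y (p.1, p.2.1) ∈ Q ∧ y (p.1, p.2.2) ∈ Q) = 0 := by
        rw [← pr_false (Ω := Fin n × Fin (k + 2) → Fin n)]
        exact pr_congr fun y => by simp [hp]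
      rw [this]
      positivity
    · have hne : (p.1, p.2.1) ≠ (p.1, p.2.2) := by
        intro h
        exact hp (Prod.ext_iff.1 h).2
      have h3 := w09_both (α := Fin n) (p.1, p.2.1) (p.1, p.2.2) hne Q
      rw [Fintype.card_fin] at h3
      refine le_trans ?_ h3.le
      exact pr_mono (fun y hy => hy.2)
  refine (Finset.sum_le_sum h2).trans ?_
  simp only [Finset.sum_const, nsmul_eq_mul, Finset.card_univ, Fintype.card_prod,
    Fintype.card_fin]
  push_cast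
  refine le_of_eq ?_
  field_simp

end Pool.Agent.HC
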