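import Pool.Agent.Lib.MP_ec42c8_pr.F01

/-!
# W10 : the first d neighbours in a random ordering of the edges

`W10a`: among the `y ≠ z` the ranks of the edges `zy` are different; `x ∈ Rz d ρ z` iff fewer than
`d` of the others have smaller rank; so `Rz d ρ z` has at most `d` elements (exactly
`min d (n - 1)`, see `W10d`, a statement about any rank that is injective on the edges at `z`).
`W10b`: for `x, x' ≠ z` the probabilities of `x ∈ Rz` and `x' ∈ Rz` are equal (compose `ρ` with the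
transposition of the edges `zx`, `zx'`: `av_equiv`), and they add up to at most `d` over the
`n - 1` vertices `x ≠ z`; `z ∉ Rz d ρ z`.
`W10c`: let `z ≠ z'`, and `x, x'` different from `z, z'`.  The transposition of the edges `zx`,
`zx'` does not touch the edges at `z'`, so `P(x ∈ Rz z, x ∈ Rz z') = P(x' ∈ Rz z, x ∈ Rz z')`;
summing over `x'` and over `x`: ` (n - 2) ∑ x, P(x ∈ Rz z ∩ Rz z') ≤ d · d`.
-/

set_option autoImplicit false

namespace Pool.Agent.HC

open Finset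
open scoped Classical

/-- number of elements of `N` of smaller value -/
noncomputable def w10_pos {α : Type*} (N : Finset α) (f : α → ℕ) (x : α) : ℕ :=
  (N.filter (fun y => f y < f x)).card

lemma w10_pos_lt {α : Type*} {N : Finset α} {f : α → ℕ} {x : α} (hx : x ∈ N) :
    w10_pos N f x < N.card := by
  apply Finset.card_lt_card
  refine Finset.filter_ssubset.2 ⟨x, hx, lt_irrefl _⟩

lemma w10_pos_mono {α : Type*} {N : Finset α} {f : α → ℕ} {x y : α} (hx : x ∈ N)
    (h : f x < f y) : w10_pos N f x < w10_pos N f y := by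
  apply Finset.card_lt_card
  refine (Finset.ssubset_iff_of_subset ?_).2 ⟨x, ?_, ?_⟩
  · intro z hz
    rw [Finset.mem_filter] at hz ⊢
    exact ⟨hz.1, hz.2.trans h⟩
  · rw [Finset.mem_filter]
    exact ⟨hx, h⟩
  · rw [Finset.mem_filter]
    rintro ⟨-, h0⟩
    exact lt_irrefl _ h0

lemma w10_pos_inj {α : Type*} {N : Finset α} {f : α → ℕ}
    (hf : ∀ x ∈ N, ∀ y ∈ N, f x = f y → x = y) {x y : α} (hx : x ∈ N) (hy : y ∈ N)
    (h : w10_pos N f x = w10_pos N f y) : x = y := by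
  rcases lt_trichotomy (f x) (f y) with h1 | h1 | h1
  · exact absurd h (w10_pos_mono hx h1).ne
  · exact hf x hx y hy h1
  · exact absurd h (w10_pos_mono hy h1).ne'

lemma w10_pos_image {α : Type*} {N : Finset α} {f : α → ℕ}
    (hf : ∀ x ∈ N, ∀ y ∈ N, f x = f y → x = y) : N.image (w10_pos N f) = Finset.range N.card := by
  apply Finset.eq_of_subset_of_card_le
  · intro j hj
    obtain ⟨x, hx, rfl⟩ := Finset.mem_image.1 hj
    exact Finset.mem_range.2 (w10_pos_lt hx)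
  · rw [Finset.card_range, Finset.card_image_of_injOn]
    intro x hx y hy h
    exact w10_pos_inj hf hx hy h

lemma w10_card_le {α : Type*} {N : Finset α} {f : α → ℕ}
    (hf : ∀ x ∈ N, ∀ y ∈ N, f x = f y → x = y) (d : ℕ) :
    (N.filter (fun x => w10_pos N f x < d)).card ≤ d := by
  have h1 : ((N.filter (fun x => w10_pos N f x < d)).image (w10_pos N f)).card =
      (N.filter (fun x => w10_pos N f x < d)).card := by
    apply Finset.card_image_of_injOn
    intro x hx y hy h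
    exact w10_pos_inj hf (Finset.mem_filter.1 hx).1 (Finset.mem_filter.1 hy).1 h
  rw [← h1]
  calc ((N.filter (fun x => w10_pos N f x < d)).image (w10_pos N f)).card
      ≤ (Finset.range d).card := by
        apply Finset.card_le_card
        intro j hj
        obtain ⟨x, hx, rfl⟩ := Finset.mem_image.1 hj
        exact Finset.mem_range.2 (Finset.mem_filter.1 hx).2
    _ = d := Finset.card_range d

lemma w10_card_eq {α : Type*} {N : Finset α} {f : α → ℕ}
    (hf : ∀ x ∈ N, ∀ y ∈ N, f x = f y → x = y) {d : ℕ} (hd : d ≤ N.card) :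
    (N.filter (fun x => w10_pos N f x < d)).card = d := by
  have h1 : ((N.filter (fun x => w10_pos N f x < d)).image (w10_pos N f)).card =
      (N.filter (fun x => w10_pos N f x < d)).card := by
    apply Finset.card_image_of_injOn
    intro x hx y hy h
    exact w10_pos_inj hf (Finset.mem_filter.1 hx).1 (Finset.mem_filter.1 hy).1 h
  rw [← h1]
  have h2 : (N.filter (fun x => w10_pos N f x < d)).image (w10_pos N f) = Finset.range d := by
    ext j
    rw [Finset.mem_image, Finset.mem_range]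
    constructor
    · rintro ⟨x, hx, rfl⟩
      exact (Finset.mem_filter.1 hx).2
    · intro hj
      have h3 : j ∈ N.image (w10_pos N f) := by
        rw [w10_pos_image hf, Finset.mem_range]
        omega
      obtain ⟨x, hx, rfl⟩ := Finset.mem_image.1 h3
      exact ⟨x, Finset.mem_filter.2 ⟨hx, hj⟩, rfl⟩
  rw [h2, Finset.card_range]

/-- the rank of the edge from `z` -/
noncomputable def w10_key {n : ℕ} (r : Edge n → ℕ) (z x : Fin n) : ℕ :=
  if h : z ≠ x then r (mkE z x h) else 0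

/-- the other vertices -/
noncomputable def w10_N {n : ℕ} (z : Fin n) : Finset (Fin n) := Finset.univ.filter (fun y => z ≠ y)

lemma w10_mem_N {n : ℕ} {z x : Fin n} : x ∈ w10_N z ↔ z ≠ x := by
  simp [w10_N]

lemma w10_card_N {n : ℕ} (z : Fin n) : (w10_N z).card = n - 1 := by
  have h : w10_N z = Finset.univ.erase z := by
    ext x
    rw [w10_mem_N, Finset.mem_erase]
    simp [eq_comm]
  rw [h, Finset.card_erase_of_mem (Finset.mem_univ _), Finset.card_univ, Fintype.card_fin]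

lemma w10_St {n : ℕ} (d : ℕ) (r : Edge n → ℕ) (z : Fin n) :
    St d r z = (w10_N z).filter (fun x => w10_pos (w10_N z) (w10_key r z) x < d) := by
  ext x
  unfold St
  rw [Finset.mem_filter, Finset.mem_filter, w10_mem_N]
  have h0 : ∀ hx : z ≠ x, (Finset.univ.filter (fun y => ∃ hy : z ≠ y,
      r (mkE z y hy) < r (mkE z x hx))) =
      (w10_N z).filter (fun y => w10_key r z y < w10_key r z x) := by
    intro hx
    ext y
    rw [Finset.mem_filter, Finset.mem_filter, w10_mem_N]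
    constructor
    · rintro ⟨-, hy, h⟩
      refine ⟨hy, ?_⟩
      unfold w10_key
      rw [dif_pos hy, dif_pos hx]
      exact h
    · rintro ⟨hy, h⟩
      refine ⟨Finset.mem_univ _, hy, ?_⟩
      unfold w10_key at h
      rw [dif_pos hy, dif_pos hx] at h
      exact h
  constructor
  · rintro ⟨-, hx, h⟩
    rw [h0 hx] at h
    exact ⟨hx, h⟩
  · rintro ⟨hx, h⟩
    refine ⟨Finset.mem_univ _, hx, ?_⟩
    rw [h0 hx]
    exact h

lemma w10_mk_inj {n : ℕ} {z x y : Fin n} (hx : z ≠ x) (hy : z ≠ y) (h : mkE z x hx = mkE z y hy) :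
    x = y := by
  have h1 := congrArg Subtype.val h
  simp only [mkE, Sym2.eq_iff] at h1
  rcases h1 with ⟨-, h1⟩ | ⟨h1, -⟩
  · exact h1
  · exact absurd h1 hy

lemma w10_key_inj {n : ℕ} {r : Edge n → ℕ} (hr : Function.Injective r) (z : Fin n) :
    ∀ x ∈ w10_N z, ∀ y ∈ w10_N z, w10_key r z x = w10_key r z y → x = y := by
  intro x hx y hy h
  rw [w10_mem_N] at hx hy
  unfold w10_key at h
  rw [dif_pos hx, dif_pos hy] at h
  exact w10_mk_inj hx hy (hr h)

theorem W10a {n : ℕ} (d : ℕ) (r : Edge n → ℕ) (hr : Function.Injective r) (z : Fin n) :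
    (St d r z).card ≤ d := by
  rw [w10_St]
  exact w10_card_le (w10_key_inj hr z) d

theorem W10d {n : ℕ} (d : ℕ) (r : Edge n → ℕ) (hr : Function.Injective r) (z : Fin n)
    (hn : d + 1 ≤ n) : (St d r z).card = d := by
  rw [w10_St]
  refine w10_card_eq (w10_key_inj hr z) ?_
  rw [w10_card_N]
  omega

/-- the transposition of two edges acts on the edges at `z` as a transposition of vertices -/
lemma w10_swap {n : ℕ} (d : ℕ) (r r' : Edge n → ℕ) (z : Fin n) (σ : Equiv.Perm (Fin n))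
    (hσ : σ z = z) (h : ∀ y, z ≠ y → w10_key r' z y = w10_key r z (σ y)) (x : Fin n) :
    x ∈ St d r' z ↔ σ x ∈ St d r z := by
  have hN : ∀ y, y ∈ w10_N z ↔ σ y ∈ w10_N z := by
    intro y
    rw [w10_mem_N, w10_mem_N]
    constructor
    · intro h1 h2
      exact h1 (σ.injective (by rw [hσ]; exact h2))
    · intro h1 h2
      exact h1 (by rw [← h2, hσ])
  rw [w10_St, w10_St, Finset.mem_filter, Finset.mem_filter, ← hN]
  apply and_congr_right
  intro hx
  have h1 : w10_pos (w10_N z) (w10_key r' z) x = w10_pos (w10_N z) (w10_key r z) (σ x) := by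
    unfold w10_pos
    apply Finset.card_bij (fun y _ => σ y)
    · intro y hy
      rw [Finset.mem_filter] at hy ⊢
      refine ⟨(hN y).1 hy.1, ?_⟩
      rw [← h y (w10_mem_N.1 hy.1), ← h x (w10_mem_N.1 hx)]
      exact hy.2
    · intro y _ y' _ h2
      exact σ.injective h2
    · intro y hy
      rw [Finset.mem_filter] at hy
      have h3 : σ (σ.symm y) = y := σ.apply_symm_apply y
      have h4 : σ.symm y ∈ w10_N z := (hN _).2 (by rw [h3]; exact hy.1)
      refine ⟨σ.symm y, ?_, h3⟩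
      rw [Finset.mem_filter]
      refine ⟨h4, ?_⟩
      rw [h _ (w10_mem_N.1 h4), h x (w10_mem_N.1 hx), h3]
      exact hy.2
  rw [h1]

/-- transposing the ranks of the edges `zx`, `zx'` -/
noncomputable def w10_tr {n : ℕ} (z x x' : Fin n) (hx : z ≠ x) (hx' : z ≠ x') :
    (Edge n ≃ Fin (NE n)) ≃ (Edge n ≃ Fin (NE n)) where
  toFun ρ := (Equiv.swap (mkE z x hx) (mkE z x' hx')).trans ρ
  invFun ρ := (Equiv.swap (mkE z x hx) (mkE z x' hx')).trans ρ
  left_inv ρ := by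
    ext e
    simp
  right_inv ρ := by
    ext e
    simp

lemma w10_tr_z {n : ℕ} (d : ℕ) {z x x' : Fin n} (hx : z ≠ x) (hx' : z ≠ x')
    (ρ : Edge n ≃ Fin (NE n)) : x ∈ Rz d (w10_tr z x x' hx hx' ρ) z ↔ x' ∈ Rz d ρ z := by
  unfold Rz
  have h1 := w10_swap d (fun e => (ρ e : ℕ)) (fun e => ((w10_tr z x x' hx hx' ρ) e : ℕ)) z
    (Equiv.swap x x') (Equiv.swap_apply_of_ne_of_ne hx hx') ?_ x
  · rw [Equiv.swap_apply_left] at h1
    exact h1
  · intro y hy
    by_cases h1 : y = x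
    · subst h1
      rw [Equiv.swap_apply_left]
      unfold w10_key
      rw [dif_pos hx, dif_pos hx']
      show ((ρ (Equiv.swap _ _ _) : Fin (NE n)) : ℕ) = _
      rw [Equiv.swap_apply_left]
    · by_cases h2 : y = x'
      · subst h2
        rw [Equiv.swap_apply_right]
        unfold w10_key
        rw [dif_pos hx, dif_pos hx']
        show ((ρ (Equiv.swap _ _ _) : Fin (NE n)) : ℕ) = _
        rw [Equiv.swap_apply_right]
      · rw [Equiv.swap_apply_of_ne_of_ne h1 h2]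
        unfold w10_key
        rw [dif_pos hy, dif_pos hy]
        show ((ρ (Equiv.swap _ _ _) : Fin (NE n)) : ℕ) = _
        rw [Equiv.swap_apply_of_ne_of_ne]
        · exact fun h => h1 (w10_mk_inj hy hx h)
        · exact fun h => h2 (w10_mk_inj hy hx' h)

lemma w10_tr_z' {n : ℕ} (d : ℕ) {z z' x x' : Fin n} (hx : z ≠ x) (hx' : z ≠ x') (hz : z' ≠ z)
    (h1 : z' ≠ x) (h2 : z' ≠ x') (ρ : Edge n ≃ Fin (NE n)) (y : Fin n) :
    y ∈ Rz d (w10_tr z x x' hx hx' ρ) z' ↔ y ∈ Rz d ρ z' := by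
  unfold Rz
  refine w10_swap d (fun e => (ρ e : ℕ)) (fun e => ((w10_tr z x x' hx hx' ρ) e : ℕ)) z'
    (Equiv.refl _) rfl ?_ y
  intro w hw
  show w10_key _ z' w = w10_key _ z' w
  unfold w10_key
  rw [dif_pos hw, dif_pos hw]
  show ((ρ (Equiv.swap _ _ _) : Fin (NE n)) : ℕ) = _
  rw [Equiv.swap_apply_of_ne_of_ne]
  · intro h
    have h3 := congrArg Subtype.val h
    simp only [mkE, Sym2.eq_iff] at h3
    rcases h3 with ⟨h3, -⟩ | ⟨h3, -⟩
    · exact hz h3
    · exact h1 h3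
  · intro h
    have h3 := congrArg Subtype.val h
    simp only [mkE, Sym2.eq_iff] at h3
    rcases h3 with ⟨h3, -⟩ | ⟨h3, -⟩
    · exact hz h3
    · exact h2 h3

lemma w10_self {n : ℕ} (d : ℕ) (ρ : Edge n ≃ Fin (NE n)) (z : Fin n) : z ∉ Rz d ρ z := by
  unfold Rz
  rw [w10_St, Finset.mem_filter, w10_mem_N]
  rintro ⟨h, -⟩
  exact h rfl

lemma w10_inj {n : ℕ} (ρ : Edge n ≃ Fin (NE n)) : Function.Injective (fun e => (ρ e : ℕ)) :=
  fun _ _ h => ρ.injective (Fin.ext h)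

lemma w10_Rz {n : ℕ} (d : ℕ) (ρ : Edge n ≃ Fin (NE n)) (z : Fin n) : (Rz d ρ z).card ≤ d :=
  W10a d _ (w10_inj ρ) z

instance w10_ne (n : ℕ) : Nonempty (Edge n ≃ Fin (NE n)) := ⟨Fintype.equivFin _⟩

lemma w10_pr_equiv {Ω Ω' : Type*} [Fintype Ω] [Fintype Ω'] (e : Ω ≃ Ω') (P : Ω' → Prop) :
    pr (fun x => P (e x)) = pr P := by
  unfold pr
  exact av_equiv e (fun x => if P x then (1 : ℝ) else 0)

lemma w10_sum_pr {Ω ι : Type*} [Fintype Ω] (s : Finset ι) (P : ι → Ω → Prop) :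
    ∑ i ∈ s, pr (P i) = av (fun ω => ((s.filter (fun i => P i ω)).card : ℝ)) := by
  unfold pr
  rw [← av_sum]
  apply av_congr
  intro ω
  rw [Finset.sum_boole]

theorem W10b {n : ℕ} (hn : 2 ≤ n) (d : ℕ) (z x : Fin n) :
    pr (fun ρ : Edge n ≃ Fin (NE n) => x ∈ Rz d ρ z) ≤ (d : ℝ) / (n - 1) := by
  have hn1 : (0 : ℝ) < (n : ℝ) - 1 := by
    have : (2 : ℝ) ≤ n := by exact_mod_cast hn
    linarith
  by_cases hx : z = x
  · subst hx
    have h1 : pr (fun ρ : Edge n ≃ Fin (NE n) => z ∈ Rz d ρ z) =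
        pr (fun _ : Edge n ≃ Fin (NE n) => False) :=
      pr_congr fun ρ => iff_of_false (w10_self d ρ z) id
    rw [h1, pr_false]
    positivity
  · have h1 : ∀ x' ∈ w10_N z, pr (fun ρ : Edge n ≃ Fin (NE n) => x' ∈ Rz d ρ z) =
        pr (fun ρ : Edge n ≃ Fin (NE n) => x ∈ Rz d ρ z) := by
      intro x' hx'
      rw [w10_mem_N] at hx'
      rw [← w10_pr_equiv (w10_tr z x x' hx hx')
        (fun ρ : Edge n ≃ Fin (NE n) => x ∈ Rz d ρ z)]
      exact pr_congr fun ρ => (w10_tr_z d hx hx' ρ).symm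
    have h3 : ∑ x' ∈ w10_N z, pr (fun ρ : Edge n ≃ Fin (NE n) => x' ∈ Rz d ρ z) ≤ d := by
      rw [w10_sum_pr]
      apply av_le_of_nonneg (Nat.cast_nonneg _)
      intro ρ
      refine le_trans (Nat.cast_le.2 (Finset.card_le_card (t := Rz d ρ z) ?_))
        (Nat.cast_le.2 (w10_Rz d ρ z))
      intro y hy
      simp only [Finset.mem_filter] at hy
      exact hy.2
    rw [Finset.sum_congr rfl h1, Finset.sum_const, w10_card_N, nsmul_eq_mul,
      Nat.cast_sub (by omega), Nat.cast_one] at h3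
    rw [le_div_iff₀ hn1]
    linarith

theorem W10c {n : ℕ} (hn : 3 ≤ n) (d : ℕ) (z z' : Fin n) (hz : z ≠ z') :
    pr (fun ρ : Edge n ≃ Fin (NE n) => ∃ x ∈ Rz d ρ z, x ∈ Rz d ρ z') ≤
      (d : ℝ) ^ 2 / (n - 2) := by
  have hn1 : (0 : ℝ) < (n : ℝ) - 2 := by
    have : (3 : ℝ) ≤ n := by exact_mod_cast hn
    linarith
  obtain ⟨M, hM⟩ : ∃ M : Finset (Fin n), M = (w10_N z).erase z' := ⟨_, rfl⟩
  have hMm : ∀ y, y ∈ M ↔ z' ≠ y ∧ z ≠ y := by
    intro y
    rw [hM, Finset.mem_erase, w10_mem_N]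
    exact and_congr_left fun _ => ne_comm
  have hMc : (M.card : ℝ) = n - 2 := by
    rw [hM, Finset.card_erase_of_mem (w10_mem_N.2 hz), w10_card_N, Nat.sub_sub,
      Nat.cast_sub (by omega)]
    norm_num
  have h1 : pr (fun ρ : Edge n ≃ Fin (NE n) => ∃ x ∈ Rz d ρ z, x ∈ Rz d ρ z') ≤
      ∑ x ∈ M, pr (fun ρ : Edge n ≃ Fin (NE n) => x ∈ Rz d ρ z ∧ x ∈ Rz d ρ z') := by
    refine le_trans (le_of_eq ?_) (pr_exists_le M
      (fun x (ρ : Edge n ≃ Fin (NE n)) => x ∈ Rz d ρ z ∧ x ∈ Rz d ρ z'))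
    apply pr_congr
    intro ρ
    constructor
    · rintro ⟨x, h1, h2⟩
      refine ⟨x, (hMm x).2 ⟨?_, ?_⟩, h1, h2⟩
      · rintro rfl
        exact w10_self d ρ _ h2
      · rintro rfl
        exact w10_self d ρ _ h1
    · rintro ⟨x, -, h1, h2⟩
      exact ⟨x, h1, h2⟩
  have h2 : ∀ x ∈ M, ∀ x' ∈ M,
      pr (fun ρ : Edge n ≃ Fin (NE n) => x' ∈ Rz d ρ z ∧ x ∈ Rz d ρ z') =
      pr (fun ρ : Edge n ≃ Fin (NE n) => x ∈ Rz d ρ z ∧ x ∈ Rz d ρ z') := by
    intro x hx x' hx'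
    rw [hMm] at hx hx'
    rw [← w10_pr_equiv (w10_tr z x x' hx.2 hx'.2)
      (fun ρ : Edge n ≃ Fin (NE n) => x ∈ Rz d ρ z ∧ x ∈ Rz d ρ z')]
    exact pr_congr fun ρ => and_congr (w10_tr_z d hx.2 hx'.2 ρ).symm
      (w10_tr_z' d hx.2 hx'.2 hz.symm hx.1 hx'.1 ρ x).symm
  have h3 : ∑ x ∈ M, ∑ x' ∈ M,
      pr (fun ρ : Edge n ≃ Fin (NE n) => x' ∈ Rz d ρ z ∧ x ∈ Rz d ρ z') ≤ (d : ℝ) ^ 2 := by
    have h4 : ∑ x ∈ M, ∑ x' ∈ M,
        pr (fun ρ : Edge n ≃ Fin (NE n) => x' ∈ Rz d ρ z ∧ x ∈ Rz d ρ z') =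
        ∑ p ∈ M ×ˢ M,
          pr (fun ρ : Edge n ≃ Fin (NE n) => p.2 ∈ Rz d ρ z ∧ p.1 ∈ Rz d ρ z') := by
      rw [Finset.sum_product]
    rw [h4, w10_sum_pr (M ×ˢ M)
      (fun p (ρ : Edge n ≃ Fin (NE n)) => p.2 ∈ Rz d ρ z ∧ p.1 ∈ Rz d ρ z')]
    apply av_le_of_nonneg (by positivity)
    intro ρ
    refine le_trans (Nat.cast_le.2 (Finset.card_le_card (t := (Rz d ρ z') ×ˢ (Rz d ρ z)) ?_)) ?_
    · intro p hp
      simp only [Finset.mem_filter] at hp
      exact Finset.mem_product.2 ⟨hp.2.2, hp.2.1⟩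
    · rw [Finset.card_product, Nat.cast_mul, pow_two]
      exact mul_le_mul (Nat.cast_le.2 (w10_Rz d ρ z')) (Nat.cast_le.2 (w10_Rz d ρ z))
        (Nat.cast_nonneg _) (Nat.cast_nonneg _)
  have h4 : ∑ x ∈ M, ∑ x' ∈ M,
      pr (fun ρ : Edge n ≃ Fin (NE n) => x' ∈ Rz d ρ z ∧ x ∈ Rz d ρ z') =
      ((n : ℝ) - 2) * ∑ x ∈ M, pr (fun ρ : Edge n ≃ Fin (NE n) => x ∈ Rz d ρ z ∧ x ∈ Rz d ρ z') := by
    rw [Finset.mul_sum]
    refine Finset.sum_congr rfl fun x hx => ?_
    rw [Finset.sum_congr rfl (h2 x hx), Finset.sum_const, nsmul_eq_mul, hMc]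
  rw [h4] at h3
  refine h1.trans ?_
  rw [le_div_iff₀ hn1]
  linarith

end Pool.Agent.HC
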