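import Pool.Agent.Lib.MP_ec42c8_pr.W09
import Pool.Agent.Lib.MP_ec42c8_pr.W10

/-!
# W11 : the bad event for the remaining variables is unlikely

PROOF.  Union bound over the twelve parts of `VBad`; write `l, r, r'` for the bounds.
1: `W09a`: (k+1) l r / n.  2: `W09a`: (k+1) r l / n.  3: union over `z ∈ L`, `x ∈ Z`, `W10b`:
l r d / (n-1).  4: `W09a`: (k+1) l r' / n.  5: `W09c`: r' (k+2) l / n.  6: as 3: l r' d / (n-1).
7: `W09b`: (k+1)² l² / n.  8: `W09d`: (k+1) l (k+2) l / n.  9: average over `y` first for fixed `ρ`: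
`y t` must be in the union of the `Rz d ρ z`, which has at most `l d` elements (`W10a`):
(k+1) l · l d / n.  10: `W09e`: (k+2)² l² / n.  11: average over `h` first for fixed `ρ`: `W09c` with
`Q'` the union of the `Rz`: l d (k+2) l / n.  12: `W10c` and the union over the pairs:
l² d² / (n-2).
Since n ≥ 4, `1 / (n-1)` and `1 / (n-2)` are at most `2 / n`, and each part is at most
`2 d² (k+2)² l (r + r' + l) / n`.
-/

set_option autoImplicit false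

namespace Pool.Agent.HC

open Finset
open scoped Classical

/-- average over all the variables -/
noncomputable def w11_AV {n m k : ℕ} (P : (Fin m → Fin n) → (Fin n → Fin (k + 2) → Fin n) →
    (Edge n ≃ Fin (NE n)) → Prop) : ℝ :=
  av (fun y : Fin m → Fin n => av (fun h : Fin n → Fin (k + 2) → Fin n =>
      pr (fun ρ : Edge n ≃ Fin (NE n) => P y h ρ)))

section
variable {n m k : ℕ}

lemma w11_or (P Q : (Fin m → Fin n) → (Fin n → Fin (k + 2) → Fin n) →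
    (Edge n ≃ Fin (NE n)) → Prop) :
    w11_AV (fun y h ρ => P y h ρ ∨ Q y h ρ) ≤ w11_AV P + w11_AV Q := by
  unfold w11_AV
  rw [← av_add]
  refine av_mono fun y => ?_
  rw [← av_add]
  refine av_mono fun h => ?_
  exact pr_or_le _ _

lemma w11_y [Nonempty (Fin n)] (P : (Fin m → Fin n) → Prop) :
    w11_AV (k := k) (fun y _ _ => P y) = pr P := by
  unfold w11_AV pr
  refine av_congr fun y => ?_
  rw [av_const, av_const]

lemma w11_h [Nonempty (Fin n)] (P : (Fin n → Fin (k + 2) → Fin n) → Prop) :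
    w11_AV (m := m) (fun _ h _ => P h) = pr P := by
  unfold w11_AV pr
  rw [av_const]
  refine av_congr fun h => ?_
  rw [av_const]

lemma w11_r [Nonempty (Fin n)] (P : (Edge n ≃ Fin (NE n)) → Prop) :
    w11_AV (m := m) (k := k) (fun _ _ ρ => P ρ) = pr P := by
  unfold w11_AV
  rw [av_const, av_const]

lemma w11_prc (p : Prop) :
    pr (fun _ : Edge n ≃ Fin (NE n) => p) = if p then (1 : ℝ) else 0 := by
  unfold pr
  rw [av_const]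

lemma w11_yh [Nonempty (Fin n)] (P : (Fin m → Fin n) → (Fin n → Fin (k + 2) → Fin n) → Prop)
    {c : ℝ} (hc : ∀ y, pr (fun h => P y h) ≤ c) :
    w11_AV (fun y h _ => P y h) ≤ c := by
  unfold w11_AV
  refine av_le_const fun y => ?_
  refine le_trans (le_of_eq ?_) (hc y)
  exact av_congr fun h => w11_prc (P y h)

lemma w11_yr [Nonempty (Fin n)] (P : (Fin m → Fin n) → (Edge n ≃ Fin (NE n)) → Prop)
    {c : ℝ} (hc : ∀ ρ, pr (fun y => P y ρ) ≤ c) :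
    w11_AV (k := k) (fun y _ ρ => P y ρ) ≤ c := by
  unfold w11_AV
  have h1 : av (fun y : Fin m → Fin n => av (fun _ : Fin n → Fin (k + 2) → Fin n =>
      pr (fun ρ : Edge n ≃ Fin (NE n) => P y ρ))) =
      av (fun y : Fin m → Fin n => pr (fun ρ : Edge n ≃ Fin (NE n) => P y ρ)) := by
    refine av_congr fun y => ?_
    rw [av_const]
  rw [h1]
  unfold pr
  rw [av_comm]
  exact av_le_const fun ρ => hc ρ

lemma w11_hr [Nonempty (Fin n)] (P : (Fin n → Fin (k + 2) → Fin n) → (Edge n ≃ Fin (NE n)) → Prop)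
    {c : ℝ} (hc : ∀ ρ, pr (fun h => P h ρ) ≤ c) :
    w11_AV (m := m) (fun _ h ρ => P h ρ) ≤ c := by
  unfold w11_AV
  rw [av_const]
  unfold pr
  rw [av_comm]
  exact av_le_const fun ρ => hc ρ

end

lemma w11_ar (D K l b s n c a : ℝ) (ha0 : 0 ≤ a) (ha : a ≤ D ^ 2 * (K + 2) ^ 2) (hl : 0 ≤ l)
    (hb0 : 0 ≤ b) (hb : b ≤ s) (hn : 0 < n) (hc : n ≤ 2 * c) :
    a * l * b / c ≤ 2 * D ^ 2 * (K + 2) ^ 2 * l * s / n := by
  have hc0 : 0 < c := by linarith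
  rw [div_le_div_iff₀ hc0 hn]
  have h1 : a * l * b ≤ D ^ 2 * (K + 2) ^ 2 * l * s :=
    mul_le_mul (mul_le_mul_of_nonneg_right ha hl) hb hb0
      (mul_nonneg (ha0.trans ha) hl)
  have h2 : 0 ≤ D ^ 2 * (K + 2) ^ 2 * l * s :=
    mul_nonneg (mul_nonneg (ha0.trans ha) hl) (hb0.trans hb)
  calc a * l * b * n ≤ D ^ 2 * (K + 2) ^ 2 * l * s * (2 * c) :=
        mul_le_mul h1 hc hn.le h2
    _ = 2 * D ^ 2 * (K + 2) ^ 2 * l * s * c := by ring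

lemma w11_star {n : ℕ} (hn : 2 ≤ n) (d : ℕ) (L Z : Finset (Fin n)) :
    pr (fun ρ : Edge n ≃ Fin (NE n) => ∃ z ∈ L, ∃ x ∈ Rz d ρ z, x ∈ Z) ≤
      (d : ℝ) * L.card * Z.card / (n - 1) := by
  have h1 : pr (fun ρ : Edge n ≃ Fin (NE n) => ∃ z ∈ L, ∃ x ∈ Rz d ρ z, x ∈ Z) ≤
      ∑ z ∈ L, pr (fun ρ : Edge n ≃ Fin (NE n) => ∃ x ∈ Rz d ρ z, x ∈ Z) :=
    pr_exists_le L (fun z (ρ : Edge n ≃ Fin (NE n)) => ∃ x ∈ Rz d ρ z, x ∈ Z)
  have h2 : ∀ z ∈ L, pr (fun ρ : Edge n ≃ Fin (NE n) => ∃ x ∈ Rz d ρ z, x ∈ Z) ≤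
      (Z.card : ℝ) * ((d : ℝ) / (n - 1)) := by
    intro z _
    have h3 : pr (fun ρ : Edge n ≃ Fin (NE n) => ∃ x ∈ Rz d ρ z, x ∈ Z) ≤
        ∑ x ∈ Z, pr (fun ρ : Edge n ≃ Fin (NE n) => x ∈ Rz d ρ z) := by
      refine le_trans (pr_mono ?_) (pr_exists_le Z
        (fun x (ρ : Edge n ≃ Fin (NE n)) => x ∈ Rz d ρ z))
      rintro ρ ⟨x, hx, hxZ⟩
      exact ⟨x, hxZ, hx⟩
    refine h3.trans ?_
    refine (Finset.sum_le_sum fun x _ => W10b hn d z x).trans ?_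
    rw [Finset.sum_const, nsmul_eq_mul]
  refine h1.trans ?_
  refine (Finset.sum_le_sum h2).trans ?_
  rw [Finset.sum_const, nsmul_eq_mul]
  apply le_of_eq
  ring

lemma w11_pair {n : ℕ} (hn : 3 ≤ n) (d : ℕ) (L : Finset (Fin n)) :
    pr (fun ρ : Edge n ≃ Fin (NE n) => ∃ z ∈ L, ∃ z' ∈ L, z ≠ z' ∧
      ∃ x ∈ Rz d ρ z, x ∈ Rz d ρ z') ≤ (d : ℝ) ^ 2 * L.card * L.card / (n - 2) := by
  have hn1 : (0 : ℝ) < (n : ℝ) - 2 := by
    have : (3 : ℝ) ≤ n := by exact_mod_cast hn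
    linarith
  have h1 : pr (fun ρ : Edge n ≃ Fin (NE n) => ∃ z ∈ L, ∃ z' ∈ L, z ≠ z' ∧
      ∃ x ∈ Rz d ρ z, x ∈ Rz d ρ z') ≤
      ∑ z ∈ L, pr (fun ρ : Edge n ≃ Fin (NE n) => ∃ z' ∈ L, z ≠ z' ∧
        ∃ x ∈ Rz d ρ z, x ∈ Rz d ρ z') :=
    pr_exists_le L (fun z (ρ : Edge n ≃ Fin (NE n)) => ∃ z' ∈ L, z ≠ z' ∧
      ∃ x ∈ Rz d ρ z, x ∈ Rz d ρ z')
  have h2 : ∀ z ∈ L, pr (fun ρ : Edge n ≃ Fin (NE n) => ∃ z' ∈ L, z ≠ z' ∧
        ∃ x ∈ Rz d ρ z, x ∈ Rz d ρ z') ≤ (L.card : ℝ) * ((d : ℝ) ^ 2 / (n - 2)) := by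
    intro z _
    have h3 : pr (fun ρ : Edge n ≃ Fin (NE n) => ∃ z' ∈ L, z ≠ z' ∧
        ∃ x ∈ Rz d ρ z, x ∈ Rz d ρ z') ≤
        ∑ z' ∈ L, pr (fun ρ : Edge n ≃ Fin (NE n) => z ≠ z' ∧
          ∃ x ∈ Rz d ρ z, x ∈ Rz d ρ z') :=
      pr_exists_le L (fun z' (ρ : Edge n ≃ Fin (NE n)) => z ≠ z' ∧
        ∃ x ∈ Rz d ρ z, x ∈ Rz d ρ z')
    refine h3.trans ?_
    have h4 : ∀ z' ∈ L, pr (fun ρ : Edge n ≃ Fin (NE n) => z ≠ z' ∧
        ∃ x ∈ Rz d ρ z, x ∈ Rz d ρ z') ≤ (d : ℝ) ^ 2 / (n - 2) := by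
      intro z' _
      by_cases hz : z = z'
      · have h5 : pr (fun ρ : Edge n ≃ Fin (NE n) => z ≠ z' ∧
            ∃ x ∈ Rz d ρ z, x ∈ Rz d ρ z') = pr (fun _ : Edge n ≃ Fin (NE n) => False) :=
          pr_congr fun ρ => iff_of_false (fun h => h.1 hz) id
        rw [h5, pr_false]
        positivity
      · exact le_trans (pr_mono fun ρ h => h.2) (W10c hn d z z' hz)
    refine (Finset.sum_le_sum h4).trans ?_
    rw [Finset.sum_const, nsmul_eq_mul]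
  refine h1.trans ?_
  refine (Finset.sum_le_sum h2).trans ?_
  rw [Finset.sum_const, nsmul_eq_mul]
  apply le_of_eq
  ring

lemma w11_bi {n : ℕ} (d : ℕ) (ρ : Edge n ≃ Fin (NE n)) (L : Finset (Fin n)) :
    (L.biUnion (fun z => Rz d ρ z)).card ≤ L.card * d := by
  refine Finset.card_biUnion_le.trans ?_
  refine (Finset.sum_le_sum fun z _ => w10_Rz d ρ z).trans ?_
  rw [Finset.sum_const, smul_eq_mul]

theorem W11 {n : ℕ} (hn : 4 ≤ n) (d k m : ℕ) (hd : 1 ≤ d) (L Z N : Finset (Fin n))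
    (TL TZ : Finset (Fin m)) (l r r' : ℕ) (hL : L.card ≤ l) (hZ : Z.card ≤ r)
    (hN : N.card ≤ r') (hTL : TL.card ≤ (k + 1) * l) (hTZ : TZ.card ≤ (k + 1) * r) :
    av (fun y : Fin m → Fin n => av (fun h : Fin n → Fin (k + 2) → Fin n =>
      pr (fun ρ : Edge n ≃ Fin (NE n) => VBad d L Z N TL TZ y h ρ))) ≤
      24 * (d : ℝ) ^ 2 * ((k : ℝ) + 2) ^ 2 * l * (r + r' + l) / n := by
  have hne : Nonempty (Fin n) := ⟨⟨0, by omega⟩⟩
  have hn1 : 1 ≤ n := by omega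
  have hnR : (4 : ℝ) ≤ n := by exact_mod_cast hn
  have hn0 : (0 : ℝ) < n := by linarith
  have hdR : (1 : ℝ) ≤ d := by exact_mod_cast hd
  have hK0 : (0 : ℝ) ≤ k := Nat.cast_nonneg k
  have hl0 : (0 : ℝ) ≤ l := Nat.cast_nonneg l
  have hr0 : (0 : ℝ) ≤ r := Nat.cast_nonneg r
  have hr0' : (0 : ℝ) ≤ r' := Nat.cast_nonneg r'
  have hLR : (L.card : ℝ) ≤ l := by exact_mod_cast hL
  have hZR : (Z.card : ℝ) ≤ r := by exact_mod_cast hZ
  have hNR : (N.card : ℝ) ≤ r' := by exact_mod_cast hN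
  have hTLR : (TL.card : ℝ) ≤ ((k : ℝ) + 1) * l := by exact_mod_cast hTL
  have hTZR : (TZ.card : ℝ) ≤ ((k : ℝ) + 1) * r := by exact_mod_cast hTZ
  have cL : (0 : ℝ) ≤ L.card := Nat.cast_nonneg _
  have cZ : (0 : ℝ) ≤ Z.card := Nat.cast_nonneg _
  have cN : (0 : ℝ) ≤ N.card := Nat.cast_nonneg _
  have cTL : (0 : ℝ) ≤ TL.card := Nat.cast_nonneg _
  have cTZ : (0 : ℝ) ≤ TZ.card := Nat.cast_nonneg _
  obtain ⟨s, hs⟩ : ∃ s : ℝ, s = (r : ℝ) + r' + l := ⟨_, rfl⟩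
  have hsr : (r : ℝ) ≤ s := by rw [hs]; linarith
  have hsr' : (r' : ℝ) ≤ s := by rw [hs]; linarith
  have hsl : (l : ℝ) ≤ s := by rw [hs]; linarith
  have hd2 : (1 : ℝ) ≤ (d : ℝ) ^ 2 := by nlinarith
  have hdd : (d : ℝ) ≤ (d : ℝ) ^ 2 := by nlinarith
  have hk4 : (4 : ℝ) ≤ ((k : ℝ) + 2) ^ 2 := by nlinarith
  -- the coefficients
  have a1 : (k : ℝ) + 1 ≤ (d : ℝ) ^ 2 * ((k : ℝ) + 2) ^ 2 := by
    have h1 : (k : ℝ) + 1 ≤ 1 * ((k : ℝ) + 2) ^ 2 := by nlinarith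
    exact h1.trans (mul_le_mul_of_nonneg_right hd2 (by positivity))
  have a2 : (k : ℝ) + 2 ≤ (d : ℝ) ^ 2 * ((k : ℝ) + 2) ^ 2 := by
    have h1 : (k : ℝ) + 2 ≤ 1 * ((k : ℝ) + 2) ^ 2 := by nlinarith
    exact h1.trans (mul_le_mul_of_nonneg_right hd2 (by positivity))
  have a3 : (d : ℝ) ≤ (d : ℝ) ^ 2 * ((k : ℝ) + 2) ^ 2 := by
    have h1 : (d : ℝ) ^ 2 * 1 ≤ (d : ℝ) ^ 2 * ((k : ℝ) + 2) ^ 2 :=
      mul_le_mul_of_nonneg_left (by linarith) (by positivity)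
    linarith
  have a4 : (d : ℝ) ^ 2 ≤ (d : ℝ) ^ 2 * ((k : ℝ) + 2) ^ 2 := by
    have h1 : (d : ℝ) ^ 2 * 1 ≤ (d : ℝ) ^ 2 * ((k : ℝ) + 2) ^ 2 :=
      mul_le_mul_of_nonneg_left (by linarith) (by positivity)
    linarith
  have a5 : ((k : ℝ) + 1) ^ 2 ≤ (d : ℝ) ^ 2 * ((k : ℝ) + 2) ^ 2 := by
    have h1 : ((k : ℝ) + 1) ^ 2 ≤ 1 * ((k : ℝ) + 2) ^ 2 := by nlinarith
    exact h1.trans (mul_le_mul_of_nonneg_right hd2 (by positivity))
  have a6 : ((k : ℝ) + 1) * ((k : ℝ) + 2) ≤ (d : ℝ) ^ 2 * ((k : ℝ) + 2) ^ 2 := by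
    have h1 : ((k : ℝ) + 1) * ((k : ℝ) + 2) ≤ 1 * ((k : ℝ) + 2) ^ 2 := by nlinarith
    exact h1.trans (mul_le_mul_of_nonneg_right hd2 (by positivity))
  have a7 : ((k : ℝ) + 1) * d ≤ (d : ℝ) ^ 2 * ((k : ℝ) + 2) ^ 2 := by
    have h1 : (k : ℝ) + 1 ≤ ((k : ℝ) + 2) ^ 2 := by nlinarith
    calc ((k : ℝ) + 1) * d ≤ ((k : ℝ) + 2) ^ 2 * (d : ℝ) ^ 2 :=
          mul_le_mul h1 hdd (by linarith) (by positivity)
      _ = _ := by ring
  have a8 : ((k : ℝ) + 2) ^ 2 ≤ (d : ℝ) ^ 2 * ((k : ℝ) + 2) ^ 2 := by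
    have h1 : 1 * ((k : ℝ) + 2) ^ 2 ≤ (d : ℝ) ^ 2 * ((k : ℝ) + 2) ^ 2 :=
      mul_le_mul_of_nonneg_right hd2 (by positivity)
    linarith
  have a9 : (d : ℝ) * ((k : ℝ) + 2) ≤ (d : ℝ) ^ 2 * ((k : ℝ) + 2) ^ 2 := by
    have h1 : (k : ℝ) + 2 ≤ ((k : ℝ) + 2) ^ 2 := by nlinarith
    exact mul_le_mul hdd h1 (by linarith) (by positivity)
  obtain ⟨B, hB⟩ : ∃ B : ℝ, B = 2 * (d : ℝ) ^ 2 * ((k : ℝ) + 2) ^ 2 * l * s / n := ⟨_, rfl⟩
  have hc0 : (n : ℝ) ≤ 2 * n := by linarith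
  have hc1 : (n : ℝ) ≤ 2 * ((n : ℝ) - 1) := by linarith
  have hc2 : (n : ℝ) ≤ 2 * ((n : ℝ) - 2) := by linarith
  have p0 : (0 : ℝ) ≤ (k : ℝ) + 1 := by linarith
  have p1 : (0 : ℝ) ≤ (k : ℝ) + 2 := by linarith
  have p2 : (0 : ℝ) ≤ (d : ℝ) := by linarith
  -- the twelve parts
  have e1 : w11_AV (k := k) (fun (y : Fin m → Fin n) _ _ => ∃ t ∈ TL, y t ∈ Z) ≤ B := by
    rw [w11_y, hB]
    refine (W09a hn1 TL Z).trans (le_trans ?_ (w11_ar d k l r s n n ((k : ℝ) + 1) p0 a1 hl0 hr0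
      hsr hn0 hc0))
    apply div_le_div_of_nonneg_right _ hn0.le
    exact mul_le_mul hTLR hZR cZ (mul_nonneg p0 hl0)
  have e2 : w11_AV (k := k) (fun (y : Fin m → Fin n) _ _ => ∃ t ∈ TZ, y t ∈ L) ≤ B := by
    rw [w11_y, hB]
    refine (W09a hn1 TZ L).trans (le_trans ?_ (w11_ar d k l r s n n ((k : ℝ) + 1) p0 a1 hl0 hr0
      hsr hn0 hc0))
    apply div_le_div_of_nonneg_right _ hn0.le
    calc (TZ.card : ℝ) * L.card ≤ ((k : ℝ) + 1) * r * l :=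
          mul_le_mul hTZR hLR cL (mul_nonneg p0 hr0)
      _ = ((k : ℝ) + 1) * l * r := by ring
  have e3 : w11_AV (m := m) (k := k)
      (fun _ _ (ρ : Edge n ≃ Fin (NE n)) => ∃ z ∈ L, ∃ x ∈ Rz d ρ z, x ∈ Z) ≤ B := by
    rw [w11_r, hB]
    refine (w11_star (by omega) d L Z).trans (le_trans ?_ (w11_ar d k l r s n (n - 1) d p2 a3 hl0
      hr0 hsr hn0 hc1))
    apply div_le_div_of_nonneg_right _ (by linarith)
    exact mul_le_mul (mul_le_mul_of_nonneg_left hLR p2) hZR cZ (mul_nonneg p2 hl0)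
  have e4 : w11_AV (k := k) (fun (y : Fin m → Fin n) _ _ => ∃ t ∈ TL, y t ∈ N) ≤ B := by
    rw [w11_y, hB]
    refine (W09a hn1 TL N).trans (le_trans ?_ (w11_ar d k l r' s n n ((k : ℝ) + 1) p0 a1 hl0 hr0'
      hsr' hn0 hc0))
    apply div_le_div_of_nonneg_right _ hn0.le
    exact mul_le_mul hTLR hNR cN (mul_nonneg p0 hl0)
  have e5 : w11_AV (m := m)
      (fun _ (h : Fin n → Fin (k + 2) → Fin n) _ => ∃ x ∈ N, ∃ i, h x i ∈ L) ≤ B := by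
    rw [w11_h, hB]
    refine (W09c hn1 N L).trans (le_trans ?_ (w11_ar d k l r' s n n ((k : ℝ) + 2) p1 a2 hl0 hr0'
      hsr' hn0 hc0))
    apply div_le_div_of_nonneg_right _ hn0.le
    calc (N.card : ℝ) * (k + 2) * L.card ≤ (r' : ℝ) * (k + 2) * l :=
          mul_le_mul (mul_le_mul_of_nonneg_right hNR p1) hLR cL (mul_nonneg hr0' p1)
      _ = ((k : ℝ) + 2) * l * r' := by ring
  have e6 : w11_AV (m := m) (k := k)
      (fun _ _ (ρ : Edge n ≃ Fin (NE n)) => ∃ z ∈ L, ∃ x ∈ Rz d ρ z, x ∈ N) ≤ B := by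
    rw [w11_r, hB]
    refine (w11_star (by omega) d L N).trans (le_trans ?_ (w11_ar d k l r' s n (n - 1) d p2 a3 hl0
      hr0' hsr' hn0 hc1))
    apply div_le_div_of_nonneg_right _ (by linarith)
    exact mul_le_mul (mul_le_mul_of_nonneg_left hLR p2) hNR cN (mul_nonneg p2 hl0)
  have e7 : w11_AV (k := k)
      (fun (y : Fin m → Fin n) _ _ => ∃ t ∈ TL, ∃ t' ∈ TL, t ≠ t' ∧ y t = y t') ≤ B := by
    rw [w11_y, hB]
    refine (W09b hn1 TL).trans (le_trans ?_ (w11_ar d k l l s n n (((k : ℝ) + 1) ^ 2)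
      (by positivity) a5 hl0 hl0 hsl hn0 hc0))
    apply div_le_div_of_nonneg_right _ hn0.le
    calc (TL.card : ℝ) ^ 2 ≤ (((k : ℝ) + 1) * l) ^ 2 := pow_le_pow_left₀ cTL hTLR 2
      _ = ((k : ℝ) + 1) ^ 2 * l * l := by ring
  have e8 : w11_AV (fun (y : Fin m → Fin n) (h : Fin n → Fin (k + 2) → Fin n) _ =>
      ∃ t ∈ TL, ∃ i, h (y t) i ∈ L) ≤ B := by
    refine w11_yh (fun (y : Fin m → Fin n) (h : Fin n → Fin (k + 2) → Fin n) =>
      ∃ t ∈ TL, ∃ i, h (y t) i ∈ L) fun y => ?_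
    rw [hB]
    refine (W09d hn1 TL L y).trans (le_trans ?_ (w11_ar d k l l s n n (((k : ℝ) + 1) * (k + 2))
      (mul_nonneg p0 p1) a6 hl0 hl0 hsl hn0 hc0))
    apply div_le_div_of_nonneg_right _ hn0.le
    calc (TL.card : ℝ) * (k + 2) * L.card ≤ ((k : ℝ) + 1) * l * (k + 2) * l :=
          mul_le_mul (mul_le_mul_of_nonneg_right hTLR p1) hLR cL
            (mul_nonneg (mul_nonneg p0 hl0) p1)
      _ = ((k : ℝ) + 1) * (k + 2) * l * l := by ring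
  have e9 : w11_AV (k := k) (fun (y : Fin m → Fin n) _ (ρ : Edge n ≃ Fin (NE n)) =>
      ∃ t ∈ TL, ∃ z ∈ L, y t ∈ Rz d ρ z) ≤ B := by
    refine w11_yr (fun (y : Fin m → Fin n) (ρ : Edge n ≃ Fin (NE n)) =>
      ∃ t ∈ TL, ∃ z ∈ L, y t ∈ Rz d ρ z) fun ρ => ?_
    rw [hB]
    have h1 : pr (fun y : Fin m → Fin n => ∃ t ∈ TL, ∃ z ∈ L, y t ∈ Rz d ρ z) =
        pr (fun y : Fin m → Fin n => ∃ t ∈ TL, y t ∈ L.biUnion (fun z => Rz d ρ z)) := by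
      apply pr_congr
      intro y
      simp only [Finset.mem_biUnion]
    rw [h1]
    refine (W09a hn1 TL _).trans (le_trans ?_ (w11_ar d k l l s n n (((k : ℝ) + 1) * d)
      (mul_nonneg p0 p2) a7 hl0 hl0 hsl hn0 hc0))
    apply div_le_div_of_nonneg_right _ hn0.le
    have h2 : ((L.biUnion (fun z => Rz d ρ z)).card : ℝ) ≤ l * d := by
      have h3 := (w11_bi d ρ L).trans (Nat.mul_le_mul_right d hL)
      exact_mod_cast h3
    calc (TL.card : ℝ) * (L.biUnion (fun z => Rz d ρ z)).card ≤ ((k : ℝ) + 1) * l * (l * d) :=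
          mul_le_mul hTLR h2 (Nat.cast_nonneg _) (mul_nonneg p0 hl0)
      _ = ((k : ℝ) + 1) * d * l * l := by ring
  have e10 : w11_AV (m := m) (fun _ (h : Fin n → Fin (k + 2) → Fin n) _ =>
      ∃ x, ∃ i j, i ≠ j ∧ h x i ∈ L ∧ h x j ∈ L) ≤ B := by
    rw [w11_h, hB]
    refine (W09e hn1 L).trans (le_trans ?_ (w11_ar d k l l s n n (((k : ℝ) + 2) ^ 2)
      (by positivity) a8 hl0 hl0 hsl hn0 hc0))
    apply div_le_div_of_nonneg_right _ hn0.le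
    calc ((k : ℝ) + 2) ^ 2 * (L.card : ℝ) ^ 2 ≤ ((k : ℝ) + 2) ^ 2 * (l : ℝ) ^ 2 :=
          mul_le_mul_of_nonneg_left (pow_le_pow_left₀ cL hLR 2) (by positivity)
      _ = ((k : ℝ) + 2) ^ 2 * l * l := by ring
  have e11 : w11_AV (m := m) (fun _ (h : Fin n → Fin (k + 2) → Fin n)
      (ρ : Edge n ≃ Fin (NE n)) => ∃ z ∈ L, ∃ x ∈ Rz d ρ z, ∃ i, h x i ∈ L) ≤ B := by
    refine w11_hr (fun (h : Fin n → Fin (k + 2) → Fin n) (ρ : Edge n ≃ Fin (NE n)) =>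
      ∃ z ∈ L, ∃ x ∈ Rz d ρ z, ∃ i, h x i ∈ L) fun ρ => ?_
    rw [hB]
    have h1 : pr (fun h : Fin n → Fin (k + 2) → Fin n =>
        ∃ z ∈ L, ∃ x ∈ Rz d ρ z, ∃ i, h x i ∈ L) =
        pr (fun h : Fin n → Fin (k + 2) → Fin n =>
          ∃ x ∈ L.biUnion (fun z => Rz d ρ z), ∃ i, h x i ∈ L) := by
      apply pr_congr
      intro h
      simp only [Finset.mem_biUnion]
      constructor
      · rintro ⟨z, hz, x, hx, hi⟩
        exact ⟨x, ⟨z, hz, hx⟩, hi⟩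
      · rintro ⟨x, ⟨z, hz, hx⟩, hi⟩
        exact ⟨z, hz, x, hx, hi⟩
    rw [h1]
    refine (W09c hn1 _ L).trans (le_trans ?_ (w11_ar d k l l s n n ((d : ℝ) * (k + 2))
      (mul_nonneg p2 p1) a9 hl0 hl0 hsl hn0 hc0))
    apply div_le_div_of_nonneg_right _ hn0.le
    have h2 : ((L.biUnion (fun z => Rz d ρ z)).card : ℝ) ≤ l * d := by
      have h3 := (w11_bi d ρ L).trans (Nat.mul_le_mul_right d hL)
      exact_mod_cast h3
    calc ((L.biUnion (fun z => Rz d ρ z)).card : ℝ) * (k + 2) * L.card ≤ l * d * (k + 2) * l :=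
          mul_le_mul (mul_le_mul_of_nonneg_right h2 p1) hLR cL
            (mul_nonneg (mul_nonneg hl0 p2) p1)
      _ = (d : ℝ) * (k + 2) * l * l := by ring
  have e12 : w11_AV (m := m) (k := k) (fun _ _ (ρ : Edge n ≃ Fin (NE n)) =>
      ∃ z ∈ L, ∃ z' ∈ L, z ≠ z' ∧ ∃ x ∈ Rz d ρ z, x ∈ Rz d ρ z') ≤ B := by
    rw [w11_r, hB]
    refine (w11_pair (by omega) d L).trans (le_trans ?_ (w11_ar d k l l s n (n - 2)
      ((d : ℝ) ^ 2) (by positivity) a4 hl0 hl0 hsl hn0 hc2))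
    apply div_le_div_of_nonneg_right _ (by linarith)
    exact mul_le_mul (mul_le_mul_of_nonneg_left hLR (by positivity)) hLR cL
      (mul_nonneg (by positivity) hl0)
  have hfin : w11_AV (fun (y : Fin m → Fin n) (h : Fin n → Fin (k + 2) → Fin n)
      (ρ : Edge n ≃ Fin (NE n)) => VBad d L Z N TL TZ y h ρ) ≤ 12 * B := by
    unfold VBad
    refine (w11_or _ _).trans ?_
    refine (add_le_add e1 ((w11_or _ _).trans (add_le_add e2 ((w11_or _ _).trans (add_le_add e3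
      ((w11_or _ _).trans (add_le_add e4 ((w11_or _ _).trans (add_le_add e5 ((w11_or _ _).trans
      (add_le_add e6 ((w11_or _ _).trans (add_le_add e7 ((w11_or _ _).trans (add_le_add e8
      ((w11_or _ _).trans (add_le_add e9 ((w11_or _ _).trans (add_le_add e10 ((w11_or _ _).trans
      (add_le_add e11 e12))))))))))))))))))))).trans ?_
    linarith
  refine hfin.trans (le_of_eq ?_)
  rw [hB, hs]
  ring

end Pool.Agent.HC
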