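import Pool.Agent.Lib.MP_ec42c8_pr.O02
import Pool.Agent.Lib.MP_ec42c8_pr.W03

/-!
# W12a : the first neighbours of a vertex with few tails

PROOF.  Let `r = rk (BB u w y h) ρ` and `x ∈ St d r z`, so `z ≠ x`; let `e = mkE z x`.
If `e` does not occur in the window then `r e = m + ρ e`, all edges `zy` with `ρ (zy) < ρ (zx)` have
`r (zy) < r (zx)` (either they occur, rank `< m`, or rank `m + ρ (zy)`), hence fewer than `d` of
them, and `x ∈ Rz d ρ z`: last case.
If `e` occurs at time `t`: either `u t = z` and `hd u w y h t = x`; as `z ∈ Zs k u` we are in the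
third case of `hd` (`tot u z < k + 2`; and `k + 2 ≤ cnt u t` is impossible by `W03c`), so `y t = x`:
first case.  Or `u t = x` and the head at `t` is `z`: the three cases of `hd` give the second,
third and fourth case of the statement (in the first case of `hd`, `x ∉ Zs k u`).
-/

set_option autoImplicit false

namespace Pool.Agent.HC

open Finset
open scoped Classical

theorem W12a {n m k : ℕ} (d : ℕ) (u w y : Fin m → Fin n) (h : Fin n → Fin (k + 2) → Fin n)
    (ρ : Edge n ≃ Fin (NE n)) (z x : Fin n) (hz : z ∈ Zs k u)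
    (hx : x ∈ St d (rk (BB u w y h) ρ) z) :
    (∃ t, u t = z ∧ y t = x) ∨ (x ∉ Zs k u ∧ ∃ i, h x i = z) ∨
      (∃ t, k + 2 ≤ cnt u t ∧ u t = x ∧ w t = z) ∨ (∃ t, u t = x ∧ x ∈ Zs k u ∧ y t = z) ∨
      x ∈ Rz d ρ z := by
  obtain ⟨hne, hcard⟩ := (Finset.mem_filter.1 hx).2
  have hztot : tot u z < k + 2 := (Finset.mem_filter.1 hz).2
  by_cases he : mkE z x hne ∈ bedges (BB u w y h)
  · obtain ⟨t, ht⟩ := (Finset.mem_filter.1 he).2
    have ht' : s(u t, hd u w y h t) = s(z, x) := ht
    rw [Sym2.eq_iff] at ht'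
    rcases ht' with ⟨h1, h2⟩ | ⟨h1, h2⟩
    · unfold hd at h2
      split_ifs at h2 with hA hB
      · rw [h1] at hA
        omega
      · have := W03c k u t hB
        rw [h1] at this
        exact absurd hz this
      · exact Or.inl ⟨t, h1, h2⟩
    · unfold hd at h2
      split_ifs at h2 with hA hB
      · refine Or.inr (Or.inl ⟨?_, ?_⟩)
        · intro hx2
          have h3 : tot u x < k + 2 := (Finset.mem_filter.1 hx2).2
          rw [h1] at hA
          omega
        · rw [h1] at h2
          exact ⟨_, h2⟩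
      · exact Or.inr (Or.inr (Or.inl ⟨t, hB, h1, h2⟩))
      · refine Or.inr (Or.inr (Or.inr (Or.inl ⟨t, h1, ?_, h2⟩)))
        refine Finset.mem_filter.2 ⟨Finset.mem_univ _, ?_⟩
        by_contra hcon
        push Not at hcon hB
        apply hA
        rw [h1]
        exact ⟨hcon, hB⟩
  · refine Or.inr (Or.inr (Or.inr (Or.inr ?_)))
    refine Finset.mem_filter.2 ⟨Finset.mem_univ _, hne, ?_⟩
    refine lt_of_le_of_lt (Finset.card_le_card ?_) hcard
    intro v hv
    obtain ⟨hzv, hlt⟩ := (Finset.mem_filter.1 hv).2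
    refine Finset.mem_filter.2 ⟨Finset.mem_univ _, hzv, ?_⟩
    rw [rk_of_not_mem _ _ _ he]
    have hlt' : (ρ (mkE z v hzv) : ℕ) < (ρ (mkE z x hne) : ℕ) := hlt
    by_cases hv2 : mkE z v hzv ∈ bedges (BB u w y h)
    · have := (rk_lt_iff (BB u w y h) ρ _).2 hv2
      omega
    · rw [rk_of_not_mem _ _ _ hv2]
      omega

end Pool.Agent.HC
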