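import Pool.Agent.Lib.MP_ec42c8_pr.W12a
import Pool.Agent.Lib.MP_ec42c8_pr.W10

/-!
# W12b : outside the bad events the stars are disjoint

Write `L = Ls k q u w`, `Z = Zs k u`, `N = NZ k u w`; `L ⊆ Z`.
FIRST STATEMENT (leaves are outside `Z`).  Let `z ∈ L`, `x ∈ St z`; use `W12a`: case 1: `t ∈ tm u L`,
so `y t ∉ Z` (part 1 of `VBad`); case 2: `x ∉ Z`; case 3: `W03c`; case 4: `t ∈ tm u Z` and `y t = z ∈ L`:
part 2 of `VBad`; case 5: part 3.
SECOND STATEMENT (a leaf `x` of `z ∈ L` is not the tail of a free arrival at another `z' ∈ Z`).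
Such an `x` is in `N` (if `z' ∈ Z`).  `W12a` for `z, x`: case 1: part 4; case 2: part 5; case 3: part 4
of `YBad` (the times `t`, `t'` are different because `w t = z ≠ z' = w t'`); case 4: as before part
2 of `VBad`; case 5: part 6.
THIRD STATEMENT (the leaf sets of `z ≠ z'` in `L` are disjoint): apply `W12a` to both; case 3 for one
of them is the second statement; case 4 is excluded; (1,1): part 7; (1,2): part 8; (1,5): part 9;
(2,2): part 10 (`h x i = z`, `h x j = z'`, so `i ≠ j`); (2,5): part 11; (5,5): part 12.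
FOURTH STATEMENT: `StarForest`.  `deg (SS ..) z` for `z ∈ L` is the number of leaves of `z`
(a leaf is not in `L ⊆ Z` by the first statement, so no other star contains `z`), which is `d`
by `W10d` and `rk_injective`; every edge is `s(z, x)` with `x ∈ St z`, `x ∉ L`; a vertex outside `L`
is a leaf of at most one `z`, so it has degree at most `1`.
-/

set_option autoImplicit false

namespace Pool.Agent.HC

open Finset
open scoped Classical

lemma w12b_Ls_sub {n m : ℕ} (k q : ℕ) (u w : Fin m → Fin n) : Ls k q u w ⊆ Zs k u :=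
  Finset.filter_subset _ _

lemma w12b_tm {n m : ℕ} {u : Fin m → Fin n} {Q : Finset (Fin n)} {t : Fin m} (h : u t ∈ Q) :
    t ∈ tm u Q :=
  Finset.mem_filter.2 ⟨Finset.mem_univ _, h⟩

section
variable {n m k : ℕ} (d q r l r' : ℕ) (u w y : Fin m → Fin n)
  (h : Fin n → Fin (k + 2) → Fin n) (ρ : Edge n ≃ Fin (NE n))

theorem W12b1 (hV : ¬ VBad d (Ls k q u w) (Zs k u) (NZ k u w) (tm u (Ls k q u w))
      (tm u (Zs k u)) y h ρ)
    (z x : Fin n) (hz : z ∈ Ls k q u w) (hx : x ∈ St d (rk (BB u w y h) ρ) z) :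
    x ∉ Zs k u := by
  simp only [VBad, not_or, not_exists, not_and] at hV
  obtain ⟨v1, v2, v3, -⟩ := hV
  have hzZ := w12b_Ls_sub k q u w hz
  rcases W12a d u w y h ρ z x hzZ hx with ⟨t, h1, h2⟩ | ⟨h1, -⟩ | ⟨t, h1, h2, -⟩ |
    ⟨t, h1, h2, h3⟩ | h1
  · have := v1 t (w12b_tm (by rw [h1]; exact hz))
    rwa [h2] at this
  · exact h1
  · have := W03c k u t h1
    rwa [h2] at this
  · exfalso
    apply v2 t (w12b_tm (by rw [h1]; exact h2))
    rw [h3]
    exact hz
  · exact v3 z hz x h1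

theorem W12b2 (hY : ¬ YBad k q r l r' u w)
    (hV : ¬ VBad d (Ls k q u w) (Zs k u) (NZ k u w) (tm u (Ls k q u w))
      (tm u (Zs k u)) y h ρ)
    (z x : Fin n) (hz : z ∈ Ls k q u w) (hx : x ∈ St d (rk (BB u w y h) ρ) z)
    (z' : Fin n) (hz' : z' ∈ Zs k u) (hzz : z ≠ z') (t : Fin m) (ht : k + 2 ≤ cnt u t)
    (hut : u t = x) : w t ≠ z' := by
  intro hwt
  have hxN : x ∈ NZ k u w :=
    Finset.mem_filter.2 ⟨Finset.mem_univ _, t, ht, hut, by rw [hwt]; exact hz'⟩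
  simp only [VBad, not_or, not_exists, not_and] at hV
  obtain ⟨v1, v2, v3, v4, v5, v6, -⟩ := hV
  have hzZ := w12b_Ls_sub k q u w hz
  rcases W12a d u w y h ρ z x hzZ hx with ⟨t1, h1, h2⟩ | ⟨h1, i, h2⟩ | ⟨t1, h1, h2, h3⟩ |
    ⟨t1, h1, h2, h3⟩ | h1
  · apply v4 t1 (w12b_tm (by rw [h1]; exact hz))
    rw [h2]
    exact hxN
  · apply v5 x hxN i
    rw [h2]
    exact hz
  · apply hY
    refine Or.inr (Or.inr (Or.inr (Or.inl ⟨t1, t, ?_, h1, ht, ?_, ?_, ?_, ?_⟩)))
    · rintro rfl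
      exact hzz (h3.symm.trans hwt)
    · rw [h2, hut]
    · rw [h3, hwt]
      exact hzz
    · rw [h3]
      exact hz
    · rw [hwt]
      exact hz'
  · apply v2 t1 (w12b_tm (by rw [h1]; exact h2))
    rw [h3]
    exact hz
  · exact v6 z hz x h1 hxN

theorem W12b3 (hY : ¬ YBad k q r l r' u w)
    (hV : ¬ VBad d (Ls k q u w) (Zs k u) (NZ k u w) (tm u (Ls k q u w))
      (tm u (Zs k u)) y h ρ)
    (z z' x : Fin n) (hz : z ∈ Ls k q u w) (hz' : z' ∈ Ls k q u w) (hzz : z ≠ z')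
    (hx : x ∈ St d (rk (BB u w y h) ρ) z) : x ∉ St d (rk (BB u w y h) ρ) z' := by
  intro hx'
  have hb1 := W12b2 d q r l r' u w y h ρ hY hV z x hz hx z' (w12b_Ls_sub k q u w hz') hzz
  have hb2 := W12b2 d q r l r' u w y h ρ hY hV z' x hz' hx' z (w12b_Ls_sub k q u w hz) hzz.symm
  simp only [VBad, not_or, not_exists, not_and] at hV
  obtain ⟨v1, v2, v3, v4, v5, v6, v7, v8, v9, v10, v11, v12⟩ := hV
  have hzZ := w12b_Ls_sub k q u w hz
  have hzZ' := w12b_Ls_sub k q u w hz'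
  rcases W12a d u w y h ρ z x hzZ hx with ⟨t1, h1, h2⟩ | ⟨h1, i, h2⟩ | ⟨t1, h1, h2, h3⟩ |
    ⟨t1, h1, h2, h3⟩ | h1
  · rcases W12a d u w y h ρ z' x hzZ' hx' with ⟨t2, g1, g2⟩ | ⟨g1, j, g2⟩ | ⟨t2, g1, g2, g3⟩ |
      ⟨t2, g1, g2, g3⟩ | g1
    · refine v7 t1 (w12b_tm (by rw [h1]; exact hz)) t2 (w12b_tm (by rw [g1]; exact hz')) ?_
        (h2.trans g2.symm)
      rintro rfl
      exact hzz (h1.symm.trans g1)
    · apply v8 t1 (w12b_tm (by rw [h1]; exact hz)) j
      rw [h2, g2]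
      exact hz'
    · exact hb1 t2 g1 g2 g3
    · apply v2 t2 (w12b_tm (by rw [g1]; exact g2))
      rw [g3]
      exact hz'
    · apply v9 t1 (w12b_tm (by rw [h1]; exact hz)) z' hz'
      rw [h2]
      exact g1
  · rcases W12a d u w y h ρ z' x hzZ' hx' with ⟨t2, g1, g2⟩ | ⟨g1, j, g2⟩ | ⟨t2, g1, g2, g3⟩ |
      ⟨t2, g1, g2, g3⟩ | g1
    · apply v8 t2 (w12b_tm (by rw [g1]; exact hz')) i
      rw [g2, h2]
      exact hz
    · refine v10 x i j ?_ (by rw [h2]; exact hz) (by rw [g2]; exact hz')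
      rintro rfl
      exact hzz (h2.symm.trans g2)
    · exact hb1 t2 g1 g2 g3
    · apply v2 t2 (w12b_tm (by rw [g1]; exact g2))
      rw [g3]
      exact hz'
    · apply v11 z' hz' x g1 i
      rw [h2]
      exact hz
  · exact hb2 t1 h1 h2 h3
  · apply v2 t1 (w12b_tm (by rw [h1]; exact h2))
    rw [h3]
    exact hz
  · rcases W12a d u w y h ρ z' x hzZ' hx' with ⟨t2, g1, g2⟩ | ⟨g1, j, g2⟩ | ⟨t2, g1, g2, g3⟩ |
      ⟨t2, g1, g2, g3⟩ | g1
    · apply v9 t2 (w12b_tm (by rw [g1]; exact hz')) z hz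
      rw [g2]
      exact h1
    · apply v11 z hz x h1 j
      rw [g2]
      exact hz'
    · exact hb1 t2 g1 g2 g3
    · apply v2 t2 (w12b_tm (by rw [g1]; exact g2))
      rw [g3]
      exact hz'
    · exact v12 z hz z' hz' hzz x h1 g1

theorem W12b4 (hn : d + 1 ≤ n) (hY : ¬ YBad k q r l r' u w)
    (hV : ¬ VBad d (Ls k q u w) (Zs k u) (NZ k u w) (tm u (Ls k q u w))
      (tm u (Zs k u)) y h ρ) :
    StarForest d (Ls k q u w) (SS d (rk (BB u w y h) ρ) (Ls k q u w)) := by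
  set R := rk (BB u w y h) ρ with hR
  set L := Ls k q u w with hL
  have hinj : Function.Injective R := rk_injective _ _
  have hout : ∀ z ∈ L, ∀ x ∈ St d R z, x ∉ Zs k u := fun z hz x hx =>
    W12b1 d q u w y h ρ hV z x hz hx
  have hLZ : L ⊆ Zs k u := w12b_Ls_sub k q u w
  refine ⟨?_, ?_, ?_⟩
  · intro z hz
    refine Eq.trans ?_ (W10d d R hinj z hn)
    unfold deg
    symm
    refine Finset.card_bij (fun x hx => mkE z x (Finset.mem_filter.1 hx).2.1) ?_ ?_ ?_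
    · intro x hx
      refine Finset.mem_filter.2 ⟨Finset.mem_filter.2 ⟨Finset.mem_univ _, z, hz, x, hx, rfl⟩, ?_⟩
      exact Sym2.mem_mk_left _ _
    · intro x hx x' hx' he
      have h1 : s(z, x) = s(z, x') := congrArg Subtype.val he
      rw [Sym2.congr_right] at h1
      exact h1
    · intro e he
      obtain ⟨he1, hze⟩ := Finset.mem_filter.1 he
      obtain ⟨z0, hz0, x0, hx0, he0⟩ := (Finset.mem_filter.1 he1).2
      rw [he0, Sym2.mem_iff] at hze
      rcases hze with rfl | rfl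
      · exact ⟨x0, hx0, Subtype.ext he0.symm⟩
      · exact absurd (hLZ hz) (hout z0 hz0 _ hx0)
  · intro e he
    obtain ⟨z0, hz0, x0, hx0, he0⟩ := (Finset.mem_filter.1 he).2
    exact ⟨z0, hz0, x0, fun hx => hout z0 hz0 x0 hx0 (hLZ hx), he0⟩
  · intro x hx
    unfold deg
    rw [Finset.card_le_one]
    have key : ∀ e ∈ (SS d R L).filter (fun e => x ∈ e.1), ∃ z ∈ L, x ∈ St d R z ∧
        e.1 = s(z, x) := by
      intro e he
      obtain ⟨he1, hxe⟩ := Finset.mem_filter.1 he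
      obtain ⟨z0, hz0, x0, hx0, he0⟩ := (Finset.mem_filter.1 he1).2
      rw [he0, Sym2.mem_iff] at hxe
      rcases hxe with rfl | rfl
      · exact absurd hz0 hx
      · exact ⟨z0, hz0, hx0, he0⟩
    intro e he e' he'
    obtain ⟨z, hz, hxz, h1⟩ := key e he
    obtain ⟨z', hz', hxz', h1'⟩ := key e' he'
    have hzz : z = z' := by
      by_contra hne
      exact W12b3 d q r l r' u w y h ρ hY hV z z' x hz hz' hne hxz hxz'
    subst hzz
    exact Subtype.ext (h1.trans h1'.symm)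

end

end Pool.Agent.HC
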