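import Pool.Agent.Lib.MP_ec42c8_pr.W12b

/-!
# W12c : outside the bad events the window is good

PROOF.  `cardZ`, `cardL`: parts 1, 2 of `YBad`; `star`: `W12b4`; `disj`: `W12b1`; `hits`: part 10 of
`VBad` says that `h v` has at most one value in `L`.
`sdr` (Hall): for `z ∈ Z \ L` let `N(z)` be the set of tails of the free arrivals at `z`,
`{x | ∃ t, k + 2 ≤ cnt u t ∧ u t = x ∧ w t = z}`.  As `z ∉ L`, there are at least `q` free arrivals, and by part 6
of `YBad` different free arrivals have different tails, so `q ≤ card (N(z))`.  By part 5 every `x`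
is in at most two of the sets `N(z)`, `z ∈ Z \ L`.  For a set `s` of pairs ` (z, i)`,
`z ∈ Z \ L`, `i : Fin k`, with `s'` its set of first components: `card s ≤ k card s'`, and
`q card s' ≤ ∑ z ∈ s', card (N(z)) ≤ 2 card (⋃ N(z))`, so `card s ≤ card (⋃ N(z))` since `2 k ≤ q`.
Hall's theorem (`Finset.all_card_le_biUnion_card_iff_exists_injective`) for the index type
`{z // z ∈ Z \ L} × Fin k` gives an injective choice `a z i ∈ N(z)`.  A tail of a free arrival is
not in `Z` (`W03c`), hence not in `L`, and it is not in `Lam` by `W12b2` (a leaf of some `z₀ ∈ L` is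
not the tail of a free arrival at `z ≠ z₀`, `z ∈ Z`).
-/

set_option autoImplicit false

namespace Pool.Agent.HC

open Finset
open scoped Classical

theorem W12c {n m k : ℕ} (d q r l r' : ℕ) (u w y : Fin m → Fin n)
    (h : Fin n → Fin (k + 2) → Fin n) (ρ : Edge n ≃ Fin (NE n)) (hn : d + 1 ≤ n)
    (hq : 2 * k ≤ q) (hY : ¬ YBad k q r l r' u w)
    (hV : ¬ VBad d (Ls k q u w) (Zs k u) (NZ k u w) (tm u (Ls k q u w))
      (tm u (Zs k u)) y h ρ) :
    GoodW d q r l u w y h ρ := by
  have hb1 := W12b1 d q u w y h ρ hV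
  have hb2 := W12b2 d q r l r' u w y h ρ hY hV
  have hb4 := W12b4 d q r l r' u w y h ρ hn hY hV
  obtain ⟨L, hL⟩ : ∃ L, L = Ls k q u w := ⟨_, rfl⟩
  obtain ⟨Z, hZ⟩ : ∃ Z, Z = Zs k u := ⟨_, rfl⟩
  obtain ⟨R, hR⟩ : ∃ R, R = rk (BB u w y h) ρ := ⟨_, rfl⟩
  have hLZ : L ⊆ Z := by rw [hL, hZ]; exact w12b_Ls_sub k q u w
  simp only [YBad, not_or, not_exists, not_and] at hY
  obtain ⟨y1, y2, -, y4, y5, y6⟩ := hY
  simp only [VBad, not_or, not_exists, not_and] at hV
  obtain ⟨v1, v2, v3, v4, v5, v6, v7, v8, v9, v10, v11, v12⟩ := hV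
  refine ⟨not_lt.1 y1, not_lt.1 y2, hb4, ?_, ?_, ?_⟩
  · intro z hz hzΛ
    obtain ⟨z0, hz0, hx⟩ := Finset.mem_biUnion.1 hzΛ
    exact hb1 z0 z hz0 hx hz
  · -- Hall
    rw [← hL, ← hZ, ← hR]
    rw [← hL, ← hR] at hb2
    rw [← hZ] at hb2 y5 y6
    let N : Fin n → Finset (Fin n) := fun z =>
      Finset.univ.filter (fun x => ∃ t, k + 2 ≤ cnt u t ∧ u t = x ∧ w t = z)
    have hNmem : ∀ z x, x ∈ N z ↔ ∃ t, k + 2 ≤ cnt u t ∧ u t = x ∧ w t = z := by
      intro z x
      simp [N]
    have hNq : ∀ z ∈ Z \ L, q ≤ (N z).card := by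
      intro z hz
      obtain ⟨hz1, hz2⟩ := Finset.mem_sdiff.1 hz
      have hfr : q ≤ fr k u w z := by
        by_contra hcon
        push Not at hcon
        apply hz2
        rw [hL]
        exact Finset.mem_filter.2 ⟨by rw [← hZ]; exact hz1, hcon⟩
      refine hfr.trans ?_
      unfold fr
      refine Finset.card_le_card_of_injOn u ?_ ?_
      · intro t ht
        obtain ⟨h1, h2⟩ := (Finset.mem_filter.1 ht).2
        exact (hNmem z (u t)).2 ⟨t, h1, rfl, h2⟩
      · intro t ht t' ht' huu
        obtain ⟨h1, h2⟩ := (Finset.mem_filter.1 ht).2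
        obtain ⟨h3, h4⟩ := (Finset.mem_filter.1 ht').2
        by_contra hne
        exact y6 t t' hne huu (h2.trans h4.symm) (by rw [h2]; exact hz1)
    have htwo : ∀ x, ∀ s : Finset (Fin n), s ⊆ Z →
        (s.filter (fun z => x ∈ N z)).card ≤ 2 := by
      intro x s hs
      by_contra hcon
      push Not at hcon
      obtain ⟨a, b, c, ha, hb, hc, hab, hac, hbc⟩ := Finset.two_lt_card_iff.1 hcon
      obtain ⟨ha1, ha2⟩ := Finset.mem_filter.1 ha
      obtain ⟨hb1', hb2'⟩ := Finset.mem_filter.1 hb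
      obtain ⟨hc1, hc2⟩ := Finset.mem_filter.1 hc
      obtain ⟨t1, -, p1, q1⟩ := (hNmem _ _).1 ha2
      obtain ⟨t2, -, p2, q2⟩ := (hNmem _ _).1 hb2'
      obtain ⟨t3, -, p3, q3⟩ := (hNmem _ _).1 hc2
      refine y5 t1 t2 t3 ?_ ?_ ?_ (p1.trans p2.symm) (p1.trans p3.symm) (by rw [q1]; exact hs ha1)
        (by rw [q2]; exact hs hb1') (by rw [q3]; exact hs hc1)
      · rintro rfl
        exact hab (q1.symm.trans q2)
      · rintro rfl
        exact hac (q1.symm.trans q3)
      · rintro rfl
        exact hbc (q2.symm.trans q3)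
    have hall : ∀ s : Finset ({z // z ∈ Z \ L} × Fin k),
        s.card ≤ (s.biUnion (fun p => N p.1.1)).card := by
      intro s
      let s' : Finset (Fin n) := s.image (fun p => p.1.1)
      have h1 : s.card ≤ k * s'.card := by
        refine Finset.card_le_mul_card_image s k ?_
        intro z _
        have h2 : (s.filter (fun p => p.1.1 = z)).card ≤ (Finset.univ : Finset (Fin k)).card := by
          refine Finset.card_le_card_of_injOn Prod.snd (fun _ _ => Finset.mem_univ _) ?_
          intro p hp p' hp' hpp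
          have h3 := (Finset.mem_filter.1 hp).2
          have h4 := (Finset.mem_filter.1 hp').2
          exact Prod.ext (Subtype.ext (h3.trans h4.symm)) hpp
        simpa using h2
      have hs'Z : s' ⊆ Z \ L := by
        intro z hz
        obtain ⟨p, _, rfl⟩ := Finset.mem_image.1 hz
        exact p.1.2
      have hU : s.biUnion (fun p => N p.1.1) = s'.biUnion N := by
        ext x
        simp only [Finset.mem_biUnion, s', Finset.mem_image]
        constructor
        · rintro ⟨p, hp, hx⟩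
          exact ⟨p.1.1, ⟨p, hp, rfl⟩, hx⟩
        · rintro ⟨z, ⟨p, hp, rfl⟩, hx⟩
          exact ⟨p, hp, hx⟩
      rw [hU]
      have h2 : q * s'.card ≤ ∑ z ∈ s', (N z).card := by
        rw [mul_comm, ← smul_eq_mul]
        exact Finset.card_nsmul_le_sum _ _ _ fun z hz => hNq z (hs'Z hz)
      have h3 : ∑ z ∈ s', (N z).card = ∑ x ∈ s'.biUnion N, (s'.filter (fun z => x ∈ N z)).card := by
        have h4 := Finset.sum_card_bipartiteAbove_eq_sum_card_bipartiteBelow
          (s := s') (t := s'.biUnion N) (fun z x => x ∈ N z)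
        rw [Finset.sum_congr rfl (fun z hz => ?_)] at h4
        · exact h4
        · show (Finset.bipartiteAbove (fun z x => x ∈ N z) (s'.biUnion N) z).card = (N z).card
          congr 1
          ext x
          simp only [Finset.bipartiteAbove, Finset.mem_filter, Finset.mem_biUnion]
          constructor
          · exact fun h => h.2
          · exact fun h => ⟨⟨z, hz, h⟩, h⟩
      have h4 : ∑ x ∈ s'.biUnion N, (s'.filter (fun z => x ∈ N z)).card ≤
          (s'.biUnion N).card * 2 := by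
        rw [← smul_eq_mul]
        exact Finset.sum_le_card_nsmul _ _ _ fun x _ =>
          htwo x s' (hs'Z.trans Finset.sdiff_subset)
      have h5 : 2 * k * s'.card ≤ q * s'.card := Nat.mul_le_mul_right _ hq
      nlinarith
    obtain ⟨f, hf1, hf2⟩ := (Finset.all_card_le_biUnion_card_iff_exists_injective
      (fun p : {z // z ∈ Z \ L} × Fin k => N p.1.1)).1 hall
    refine ⟨fun z i => if hz : z ∈ Z \ L then f (⟨z, hz⟩, i) else z, ?_, ?_, ?_⟩
    · intro z hz i
      simp only [dif_pos hz]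
      obtain ⟨t, h1, h2, h3⟩ := (hNmem _ _).1 (hf2 (⟨z, hz⟩, i))
      have h4 : f (⟨z, hz⟩, i) ∉ Z := by
        rw [← h2, hZ]
        exact W03c k u t h1
      refine ⟨h4, fun h5 => h4 (hLZ h5), fun h5 => ?_⟩
      obtain ⟨z0, hz0, hx⟩ := Finset.mem_biUnion.1 h5
      obtain ⟨hz1, hz2⟩ := Finset.mem_sdiff.1 hz
      refine hb2 z0 _ hz0 hx z hz1 ?_ t h1 h2 h3
      rintro rfl
      exact hz2 hz0
    · intro z hz i
      simp only [dif_pos hz]
      exact (hNmem _ _).1 (hf2 (⟨z, hz⟩, i))
    · intro z hz z' hz' i i' he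
      simp only [dif_pos hz, dif_pos hz'] at he
      have h1 := hf1 he
      simp only [Prod.mk.injEq, Subtype.mk.injEq] at h1
      exact h1
  · intro v
    have h1 : (Finset.univ.filter (fun i => h v i ∈ Ls k q u w)).card ≤ 1 := by
      rw [Finset.card_le_one]
      intro i hi j hj
      by_contra hne
      exact v10 v i j hne (Finset.mem_filter.1 hi).2 (Finset.mem_filter.1 hj).2
    omega

end Pool.Agent.HC
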