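import Pool.Agent.Lib.MP_ec42c8_pr.F01

/-!
# W14 : given which reserved heads are in L, the picks are uniformly random outside L

PROOF.  Call two tables `h, h'` equivalent if `SamePat L h h'`.  The event `hits` and `X` depend only
on the class.  Fix a class with `hits`; it is determined by the set `J ⊆ Fin n × Fin (k + 2)` of the
positions with value in `L` and these values; its elements are the tables with these values on
`J` and arbitrary values outside `L` on the complement.  For each `v` at least `k` of the positions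
` (v, i)` are outside `J`; let `c(v, i)`, `i : Fin k`, be the `i`-th of them in increasing order.
`pick L h v i = h (c(v, i))` for `h` in the class (`pick` takes the first `k` entries outside `L`).
So `pick L` restricted to the class is the restriction of a function on the complement of `J` with
values outside `L` to an injective family of coordinates, and every element of `Tk k L` is attained
equally often: the average over the class of `Φ (pick L h)` is `avOn (Tk k L) Φ` (`av_restrict` with
`α = {x // x ∉ L}`, which is nonempty since `card L < n`).  Sum over the classes.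

Alternative without classes: it is enough to show for each table `h₀` with `hits` that the number
of `h` equivalent to `h₀` with `pick L h = θ` is the same for all `θ ∈ Tk k L`.
-/

set_option autoImplicit false

namespace Pool.Agent.HC

open Finset
open scoped Classical

/-- The two tables agree wherever one of them has a value in `L`. -/
def SamePat {n k : ℕ} (L : Finset (Fin n)) (h h' : Fin n → Fin (k + 2) → Fin n) : Prop :=
  ∀ v i, (h v i ∈ L ∨ h' v i ∈ L) → h v i = h' v i

/-- Position in the list of the entries outside `L`. -/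
noncomputable def w14_rnk {n m : ℕ} (L : Finset (Fin n)) (g : Fin m → Fin n) (j : Fin m) : ℕ :=
  (((List.finRange m).take (j : ℕ)).filter (fun j' => decide (g j' ∉ L))).length

lemma w14_rnk_congr {n m : ℕ} (L : Finset (Fin n)) (g g' : Fin m → Fin n)
    (h : ∀ j, g j ∈ L ↔ g' j ∈ L) (j : Fin m) : w14_rnk L g j = w14_rnk L g' j := by
  have : (fun j' => decide (g j' ∉ L)) = (fun j' => decide (g' j' ∉ L)) := by
    funext j'
    simp [h j']
  unfold w14_rnk
  rw [this]

lemma w14_get {n m : ℕ} (L : Finset (Fin n)) (g : Fin m → Fin n) (j : Fin m) (hj : g j ∉ L) :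
    ((List.finRange m).filter (fun j' => decide (g j' ∉ L)))[w14_rnk L g j]? = some j := by
  have hl : (List.finRange m) = (List.finRange m).take (j : ℕ) ++ j :: (List.finRange m).drop (j + 1) := by
    have hj' : (j : ℕ) < (List.finRange m).length := by simp
    have h1 := List.take_append_drop (j : ℕ) (List.finRange m)
    have h2 : (List.finRange m).drop (j : ℕ) = j :: (List.finRange m).drop (j + 1) := by
      rw [List.drop_eq_getElem_cons hj']
      simp
    rw [h2] at h1
    exact h1.symm
  have h3 : (List.finRange m).filter (fun j' => decide (g j' ∉ L)) =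
      ((List.finRange m).take (j : ℕ)).filter (fun j' => decide (g j' ∉ L)) ++
        j :: ((List.finRange m).drop (j + 1)).filter (fun j' => decide (g j' ∉ L)) := by
    conv_lhs => rw [hl]
    rw [List.filter_append, List.filter_cons_of_pos (by simpa using hj)]
  rw [h3, w14_rnk, List.getElem?_append_right (le_refl _)]
  simp

lemma w14_pick_eq {n k : ℕ} (L : Finset (Fin n)) (h : Fin n → Fin (k + 2) → Fin n) (v : Fin n)
    (i : Fin k) : pick L h v i =
      (((List.finRange (k + 2)).filter (fun j' => decide (h v j' ∉ L))).map (h v)).getD i v := by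
  unfold pick
  rw [List.ofFn_eq_map, List.filter_map]
  rfl

lemma w14_A {n k : ℕ} (L : Finset (Fin n)) (h : Fin n → Fin (k + 2) → Fin n) (v : Fin n)
    (i : Fin k) (j : Fin (k + 2)) (hj : h v j ∉ L) (hi : w14_rnk L (h v) j = i) :
    pick L h v i = h v j := by
  rw [w14_pick_eq, List.getD_eq_getElem?_getD, List.getElem?_map, ← hi, w14_get L (h v) j hj]
  rfl

lemma w14_B {n k : ℕ} (L : Finset (Fin n)) (h : Fin n → Fin (k + 2) → Fin n) (v : Fin n)
    (hv : (Finset.univ.filter (fun i => h v i ∈ L)).card ≤ 2) (i : Fin k) :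
    ∃ j, h v j ∉ L ∧ w14_rnk L (h v) j = i := by
  have hlen : k ≤ ((List.finRange (k + 2)).filter (fun j' => decide (h v j' ∉ L))).length := by
    have h1 : ((List.finRange (k + 2)).filter (fun j' => decide (h v j' ∉ L))).length =
        (Finset.univ.filter (fun i => h v i ∉ L)).card := by
      have hnd : ((List.finRange (k + 2)).filter (fun j' => decide (h v j' ∉ L))).Nodup :=
        (List.nodup_finRange _).filter _
      rw [← List.toFinset_card_of_nodup hnd]
      congr 1
      ext x
      simp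
    have h2 := Finset.card_filter_add_card_filter_not (s := (Finset.univ : Finset (Fin (k + 2))))
      (fun i => h v i ∈ L)
    rw [Finset.card_univ, Fintype.card_fin] at h2
    omega
  have hi : (i : ℕ) < ((List.finRange (k + 2)).filter (fun j' => decide (h v j' ∉ L))).length :=
    lt_of_lt_of_le i.2 hlen
  refine ⟨((List.finRange (k + 2)).filter (fun j' => decide (h v j' ∉ L)))[(i : ℕ)]'hi, ?_, ?_⟩
  · have := List.getElem_mem hi
    rw [List.mem_filter] at this
    simpa using this.2
  · have hp : h v (((List.finRange (k + 2)).filter (fun j' => decide (h v j' ∉ L)))[(i : ℕ)]'hi) ∉ L := by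
      have := List.getElem_mem hi
      rw [List.mem_filter] at this
      simpa using this.2
    have h1 := w14_get L (h v) _ hp
    have h2 : ((List.finRange (k + 2)).filter (fun j' => decide (h v j' ∉ L)))[(i : ℕ)]? =
      some (((List.finRange (k + 2)).filter (fun j' => decide (h v j' ∉ L)))[(i : ℕ)]'hi) :=
      List.getElem?_eq_getElem hi
    have hnd : ((List.finRange (k + 2)).filter (fun j' => decide (h v j' ∉ L))).Nodup :=
      (List.nodup_finRange _).filter _
    exact ((List.getElem?_inj hi hnd).1 (h2.trans h1.symm)).symm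

/-- Replacing the picks. -/
noncomputable def w14_rep {n k : ℕ} (L : Finset (Fin n)) (h : Fin n → Fin (k + 2) → Fin n)
    (θ : Fin n → Fin k → Fin n) : Fin n → Fin (k + 2) → Fin n := fun v j =>
  if H : h v j ∉ L ∧ w14_rnk L (h v) j < k then θ v ⟨w14_rnk L (h v) j, H.2⟩ else h v j

lemma w14_rep_mem {n k : ℕ} (L : Finset (Fin n)) (h : Fin n → Fin (k + 2) → Fin n)
    (θ : Fin n → Fin k → Fin n) (hθ : θ ∈ Tk k L) (v : Fin n) (j : Fin (k + 2)) :
    w14_rep L h θ v j ∈ L ↔ h v j ∈ L := by
  have hθ' : ∀ v i, θ v i ∉ L := by simpa [Tk] using hθ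
  unfold w14_rep
  by_cases H : h v j ∉ L ∧ w14_rnk L (h v) j < k
  · rw [dif_pos H]
    exact ⟨fun h1 => absurd h1 (hθ' _ _), fun h1 => absurd h1 H.1⟩
  · rw [dif_neg H]

lemma w14_rep_same {n k : ℕ} (L : Finset (Fin n)) (h : Fin n → Fin (k + 2) → Fin n)
    (θ : Fin n → Fin k → Fin n) (hθ : θ ∈ Tk k L) : SamePat L h (w14_rep L h θ) := by
  intro v j hj
  have h1 : h v j ∈ L := by
    rcases hj with h1 | h1
    · exact h1
    · exact (w14_rep_mem L h θ hθ v j).1 h1
  unfold w14_rep
  rw [dif_neg (fun H => H.1 h1)]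

lemma w14_rep_hits {n k : ℕ} (L : Finset (Fin n)) (h : Fin n → Fin (k + 2) → Fin n)
    (θ : Fin n → Fin k → Fin n) (hθ : θ ∈ Tk k L)
    (hh : ∀ v, (Finset.univ.filter (fun i => h v i ∈ L)).card ≤ 2) :
    ∀ v, (Finset.univ.filter (fun i => w14_rep L h θ v i ∈ L)).card ≤ 2 := by
  intro v
  simp only [w14_rep_mem L h θ hθ]
  exact hh v

lemma w14_rep_pick {n k : ℕ} (L : Finset (Fin n)) (h : Fin n → Fin (k + 2) → Fin n)
    (θ : Fin n → Fin k → Fin n) (hθ : θ ∈ Tk k L)
    (hh : ∀ v, (Finset.univ.filter (fun i => h v i ∈ L)).card ≤ 2) :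
    pick L (w14_rep L h θ) = θ := by
  funext v i
  obtain ⟨j, hj, hr⟩ := w14_B L h v (hh v) i
  have h1 : w14_rep L h θ v j ∉ L := fun h2 => hj ((w14_rep_mem L h θ hθ v j).1 h2)
  have h2 : w14_rnk L (w14_rep L h θ v) j = i := by
    rw [← hr]
    exact w14_rnk_congr L _ _ (fun j => w14_rep_mem L h θ hθ v j) j
  rw [w14_A L _ v i j h1 h2]
  unfold w14_rep
  rw [dif_pos ⟨hj, by rw [hr]; exact i.2⟩]
  congr 1
  exact Fin.ext hr

lemma w14_rep_rep {n k : ℕ} (L : Finset (Fin n)) (h : Fin n → Fin (k + 2) → Fin n)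
    (θ : Fin n → Fin k → Fin n) (hθ : θ ∈ Tk k L) :
    w14_rep L (w14_rep L h θ) (pick L h) = h := by
  funext v j
  have hr : w14_rnk L (w14_rep L h θ v) j = w14_rnk L (h v) j :=
    w14_rnk_congr L _ _ (fun j => w14_rep_mem L h θ hθ v j) j
  by_cases H : w14_rep L h θ v j ∉ L ∧ w14_rnk L (w14_rep L h θ v) j < k
  · have H' : h v j ∉ L := fun h2 => H.1 ((w14_rep_mem L h θ hθ v j).2 h2)
    have h3 : w14_rep L (w14_rep L h θ) (pick L h) v j =
        pick L h v ⟨w14_rnk L (w14_rep L h θ v) j, H.2⟩ := dif_pos H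
    rw [h3]
    exact w14_A L h v _ j H' hr.symm
  · have h3 : w14_rep L (w14_rep L h θ) (pick L h) v j = w14_rep L h θ v j := dif_neg H
    rw [h3]
    unfold w14_rep
    rw [dif_neg]
    rintro ⟨h4, h5⟩
    exact H ⟨fun h6 => h4 ((w14_rep_mem L h θ hθ v j).1 h6), by rw [hr]; exact h5⟩

theorem W14 {n k : ℕ} (L : Finset (Fin n)) (hL : L.card < n) {β : Type*}
    (X : (Fin n → Fin (k + 2) → Fin n) → β) (hX : ∀ h h', SamePat L h h' → X h = X h')
    (Φ : β → (Fin n → Fin k → Fin n) → ℝ) :
    av (fun h : Fin n → Fin (k + 2) → Fin n =>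
      if (∀ v, (Finset.univ.filter (fun i => h v i ∈ L)).card ≤ 2) then Φ (X h) (pick L h)
      else 0) =
    av (fun h : Fin n → Fin (k + 2) → Fin n =>
      if (∀ v, (Finset.univ.filter (fun i => h v i ∈ L)).card ≤ 2) then avOn (Tk k L) (Φ (X h))
      else 0) := by
  have hpick : ∀ h : Fin n → Fin (k + 2) → Fin n,
      (∀ v, (Finset.univ.filter (fun i => h v i ∈ L)).card ≤ 2) → pick L h ∈ Tk k L := by
    intro h hh
    unfold Tk
    rw [Finset.mem_filter]
    refine ⟨Finset.mem_univ _, fun v i => ?_⟩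
    obtain ⟨j, hj, hr⟩ := w14_B L h v (hh v) i
    rw [w14_A L h v i j hj hr]
    exact hj
  have hT : (Tk k L).Nonempty := by
    obtain ⟨x, hx⟩ : ∃ x : Fin n, x ∉ L := by
      by_contra hcon
      push Not at hcon
      have : L = Finset.univ := Finset.eq_univ_iff_forall.2 hcon
      rw [this, Finset.card_univ, Fintype.card_fin] at hL
      exact lt_irrefl _ hL
    exact ⟨fun _ _ => x, by simp [Tk, hx]⟩
  have hT0 : ((Tk k L).card : ℝ) ≠ 0 := by exact_mod_cast hT.card_pos.ne'
  let S : Finset (Fin n → Fin (k + 2) → Fin n) :=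
    Finset.univ.filter (fun h => ∀ v, (Finset.univ.filter (fun i => h v i ∈ L)).card ≤ 2)
  have hS : ∀ h, h ∈ S ↔ ∀ v, (Finset.univ.filter (fun i => h v i ∈ L)).card ≤ 2 := by
    intro h
    simp [S]
  have key : ∑ p ∈ S ×ˢ Tk k L, Φ (X p.1) (pick L p.1) = ∑ p ∈ S ×ˢ Tk k L, Φ (X p.1) p.2 := by
    refine Finset.sum_bij' (fun p _ => (w14_rep L p.1 p.2, pick L p.1))
      (fun p _ => (w14_rep L p.1 p.2, pick L p.1)) ?_ ?_ ?_ ?_ ?_
    · rintro ⟨h, θ⟩ hp
      rw [Finset.mem_product] at hp ⊢
      exact ⟨(hS _).2 (w14_rep_hits L h θ hp.2 ((hS _).1 hp.1)), hpick h ((hS _).1 hp.1)⟩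
    · rintro ⟨h, θ⟩ hp
      rw [Finset.mem_product] at hp ⊢
      exact ⟨(hS _).2 (w14_rep_hits L h θ hp.2 ((hS _).1 hp.1)), hpick h ((hS _).1 hp.1)⟩
    · rintro ⟨h, θ⟩ hp
      rw [Finset.mem_product] at hp
      exact Prod.ext (w14_rep_rep L h θ hp.2) (w14_rep_pick L h θ hp.2 ((hS _).1 hp.1))
    · rintro ⟨h, θ⟩ hp
      rw [Finset.mem_product] at hp
      exact Prod.ext (w14_rep_rep L h θ hp.2) (w14_rep_pick L h θ hp.2 ((hS _).1 hp.1))
    · rintro ⟨h, θ⟩ hp
      rw [Finset.mem_product] at hp
      show Φ (X h) (pick L h) = Φ (X (w14_rep L h θ)) (pick L h)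
      rw [hX h _ (w14_rep_same L h θ hp.2)]
  rw [Finset.sum_product, Finset.sum_product] at key
  simp only [Finset.sum_const, nsmul_eq_mul] at key
  rw [← Finset.mul_sum] at key
  unfold av
  congr 1
  rw [← Finset.sum_filter, ← Finset.sum_filter]
  have h1 : ∀ h : Fin n → Fin (k + 2) → Fin n, avOn (Tk k L) (Φ (X h)) =
      (∑ θ ∈ Tk k L, Φ (X h) θ) / ((Tk k L).card : ℝ) := fun h => rfl
  simp only [h1]
  rw [← Finset.sum_div, eq_div_iff hT0, mul_comm]
  exact key

/-- The picks are reserved heads outside `L`. -/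
theorem W14b {n k : ℕ} (L : Finset (Fin n)) (h : Fin n → Fin (k + 2) → Fin n) (v : Fin n)
    (hv : (Finset.univ.filter (fun i => h v i ∈ L)).card ≤ 2) (i : Fin k) :
    pick L h v i ∉ L ∧ ∃ j, pick L h v i = h v j := by
  obtain ⟨j, hj, hr⟩ := w14_B L h v hv i
  rw [w14_A L h v i j hj hr]
  exact ⟨hj, j, rfl⟩

end Pool.Agent.HC
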