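import Pool.Agent.Lib.MP_ec42c8_pr.O07

/-!
# W15 : two random relabellings of an assignment

Let `G` be the set of the permutations of `Fin n` that fix every element of `M` (`M = L ∪ Λ`), `Z`
disjoint from `M`, `a` injective on `Z × Fin k` with values outside `Z ∪ M`.  For `g ∈ G` let
`i(g) = card (Z ∩ g Z)` and call `g` compatible if `g (a (g⁻¹ z) j) = a z j` for all
`z ∈ Z ∩ g Z`, `j`.
CLAIM: for `b ≥ 1`, with `w' = n - card M` and ` (k + 1) card Z < w'`,
the average over `g ∈ G` of `b ^ (i(g)) · 1{g compatible}` is at most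
` (1 + (b / (w' - (k+1) card Z) ^ k - 1)⁺ · card Z / w') ^ card Z`.
PROOF.  (a) Given the restriction of `g` to `Z` (so `i = i(g)` and the pairs ` (g⁻¹ z, z)` are
known), the restriction of `g` to the complement of `Z ∪ M` is a uniformly random bijection onto
the complement of `gZ ∪ M`.  Compatibility prescribes its values at the `k i` different points
`a (g⁻¹ z) j`; this has probability at most `∏ over j < k i of 1 / (w' - card Z - j) ≤
(w' - (k+1) card Z) ^ (-k i)`.  So the average is at most the average of `c ^ (i(g))` with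
`c = b / (w' - (k+1) card Z) ^ k`.
(b) If `c ≤ 1` the bound is `1`.  Otherwise `c ^ i = ∑ over A ⊆ Z ∩ gZ of (c - 1) ^ card A`, and for
`A ⊆ Z` the probability of `A ⊆ g Z` is ` (card Z)_a / (w')_a ≤ (card Z / w') ^ a`, `a = card A`
(falling factorials).  Sum over the subsets `A` of `Z`: ` (1 + (c-1) card Z / w') ^ card Z`.
-/

set_option autoImplicit false

namespace Pool.Agent.HC

open Finset
open scoped Classical

/-- The permutations that fix every element of `M`. -/
noncomputable def Fix {n : ℕ} (M : Finset (Fin n)) : Finset (Equiv.Perm (Fin n)) :=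
  Finset.univ.filter (fun g => ∀ v ∈ M, g v = v)

/-- the permutations that agree with `g1` on `T` -/
lemma w15_agree {n : ℕ} (T : Finset (Fin n)) (g1 : Equiv.Perm (Fin n)) :
    (Finset.univ.filter (fun g : Equiv.Perm (Fin n) => ∀ x ∈ T, g x = g1 x)).card =
      (n - T.card).factorial := by
  have h1 : (Finset.univ.filter (fun g : Equiv.Perm (Fin n) => ∀ x ∈ T, g x = g1 x)).card =
      (Finset.univ.filter (fun g : Equiv.Perm (Fin n) => ∀ x, ¬ (x ∉ T) → g x = x)).card := by
    refine Finset.card_bij (fun g _ => g1⁻¹ * g) ?_ ?_ ?_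
    · intro g hg
      rw [Finset.mem_filter] at hg ⊢
      refine ⟨Finset.mem_univ _, fun x hx => ?_⟩
      rw [not_not] at hx
      rw [Equiv.Perm.mul_apply, hg.2 x hx]
      exact g1.symm_apply_apply x
    · intro g _ g' _ h
      exact mul_left_cancel h
    · intro g hg
      rw [Finset.mem_filter] at hg
      refine ⟨g1 * g, ?_, by group⟩
      rw [Finset.mem_filter]
      refine ⟨Finset.mem_univ _, fun x hx => ?_⟩
      rw [Equiv.Perm.mul_apply, hg.2 x (not_not.2 hx)]
  rw [h1, ← Fintype.card_subtype,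
    ← Fintype.card_congr (Equiv.Perm.subtypeEquivSubtypePerm (fun x : Fin n => x ∉ T)),
    Fintype.card_perm]
  congr 1
  rw [Fintype.card_subtype_compl, Fintype.card_fin, Fintype.card_coe]

lemma w15_card_Fix {n : ℕ} (M : Finset (Fin n)) : (Fix M).card = (n - M.card).factorial := by
  rw [← w15_agree M 1]
  rfl

lemma w15_desc {z w a : ℕ} (h : z ≤ w) : z.descFactorial a * w ^ a ≤ z ^ a * w.descFactorial a := by
  induction a with
  | zero => simp
  | succ a ih =>
    rw [Nat.descFactorial_succ, Nat.descFactorial_succ, pow_succ, pow_succ]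
    have h1 : (z - a) * w ≤ z * (w - a) := by
      rcases Nat.lt_or_ge z a with h2 | h2
      · rw [Nat.sub_eq_zero_of_le h2.le, zero_mul]
        exact Nat.zero_le _
      · obtain ⟨x, rfl⟩ := Nat.exists_eq_add_of_le h2
        obtain ⟨y, rfl⟩ := Nat.exists_eq_add_of_le (h2.trans h)
        rw [Nat.add_sub_cancel_left, Nat.add_sub_cancel_left]
        have : x ≤ y := by omega
        nlinarith
    calc (z - a) * z.descFactorial a * (w ^ a * w)
        = ((z - a) * w) * (z.descFactorial a * w ^ a) := by ring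
      _ ≤ (z * (w - a)) * (z ^ a * w.descFactorial a) := Nat.mul_le_mul h1 ih
      _ = z ^ a * z * ((w - a) * w.descFactorial a) := by ring

/-- the restriction of a permutation to `Z` -/
noncomputable def w15R {n : ℕ} (Z : Finset (Fin n)) (g : Equiv.Perm (Fin n)) : Fin n → Fin n :=
  fun x => if x ∈ Z then g x else x

lemma w15_card_inter {n : ℕ} (Z : Finset (Fin n)) (g : Equiv.Perm (Fin n)) :
    (Z ∩ relV g Z).card = (Z.filter (fun x => w15R Z g x ∈ Z)).card := by
  symm
  refine Finset.card_bij (fun x _ => g x) ?_ ?_ ?_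
  · intro x hx
    rw [Finset.mem_filter, w15R] at hx
    obtain ⟨hx1, hx2⟩ := hx
    rw [if_pos hx1] at hx2
    rw [Finset.mem_inter, mem_relV]
    exact ⟨hx2, by rw [Equiv.symm_apply_apply]; exact hx1⟩
  · intro x _ y _ h
    exact g.injective h
  · intro y hy
    rw [Finset.mem_inter, mem_relV] at hy
    refine ⟨g.symm y, ?_, by rw [Equiv.apply_symm_apply]⟩
    rw [Finset.mem_filter, w15R, if_pos hy.2, Equiv.apply_symm_apply]
    exact ⟨hy.2, hy.1⟩

lemma w15_class {n k : ℕ} (M Z : Finset (Fin n)) (a : Fin n → Fin k → Fin n)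
    (hZM : Disjoint Z M) (ha : ∀ z ∈ Z, ∀ i, a z i ∉ Z ∧ a z i ∉ M)
    (hinj : ∀ z ∈ Z, ∀ z' ∈ Z, ∀ i i', a z i = a z' i' → z = z' ∧ i = i')
    (hw : (k + 1) * Z.card + M.card < n) (g0 : Equiv.Perm (Fin n)) (hg0 : g0 ∈ Fix M) :
    ((Fix M).filter (fun g => w15R Z g = w15R Z g0 ∧
      ∀ z ∈ Z, g.symm z ∈ Z → ∀ j, g (a (g.symm z) j) = a z j)).card *
        (n - M.card - (k + 1) * Z.card) ^ (k * (Z ∩ relV g0 Z).card) ≤
      ((Fix M).filter (fun g => w15R Z g = w15R Z g0)).card := by
  have hcl : ((Fix M).filter (fun g => w15R Z g = w15R Z g0)).card =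
      (n - (M.card + Z.card)).factorial := by
    have h1 : (Fix M).filter (fun g => w15R Z g = w15R Z g0) =
        Finset.univ.filter (fun g : Equiv.Perm (Fin n) => ∀ x ∈ M ∪ Z, g x = g0 x) := by
      ext g
      rw [Fix, Finset.filter_filter, Finset.mem_filter, Finset.mem_filter]
      refine and_congr_right fun _ => ?_
      rw [Fix, Finset.mem_filter] at hg0
      constructor
      · rintro ⟨h2, h3⟩ x hx
        rcases Finset.mem_union.1 hx with hx | hx
        · rw [h2 x hx, hg0.2 x hx]
        · have h4 := congrFun h3 x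
          rw [w15R, w15R, if_pos hx, if_pos hx] at h4
          exact h4
      · intro h2
        refine ⟨fun x hx => ?_, ?_⟩
        · rw [h2 x (Finset.mem_union_left _ hx), hg0.2 x hx]
        · funext x
          rw [w15R, w15R]
          split_ifs with hx
          · exact h2 x (Finset.mem_union_right _ hx)
          · rfl
    rw [h1, w15_agree, Finset.card_union_of_disjoint hZM.symm]
  rw [hcl]
  rcases Finset.eq_empty_or_nonempty ((Fix M).filter (fun g => w15R Z g = w15R Z g0 ∧
      ∀ z ∈ Z, g.symm z ∈ Z → ∀ j, g (a (g.symm z) j) = a z j)) with he | ⟨g1, hg1⟩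
  · rw [he]
    simp
  · rw [Finset.mem_filter] at hg1
    obtain ⟨hg1M, hg1R, hg1c⟩ := hg1
    set Z' := Z.filter (fun x => w15R Z g0 x ∈ Z) with hZ'
    have hi : (Z ∩ relV g0 Z).card = Z'.card := w15_card_inter Z g0
    set A := (Z' ×ˢ (Finset.univ : Finset (Fin k))).image (fun x => a x.1 x.2) with hA
    have hAc : A.card = k * Z'.card := by
      rw [hA, Finset.card_image_of_injOn, Finset.card_product, Finset.card_univ, Fintype.card_fin,
        mul_comm]
      intro x hx y hy hxy
      rw [Finset.mem_coe, Finset.mem_product, hZ', Finset.mem_filter] at hx hy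
      obtain ⟨h1, h2⟩ := hinj x.1 hx.1.1 y.1 hy.1.1 x.2 y.2 hxy
      exact Prod.ext h1 h2
    have hAd : Disjoint (M ∪ Z) A := by
      rw [Finset.disjoint_left]
      intro x hx hxA
      rw [hA, Finset.mem_image] at hxA
      obtain ⟨y, hy, rfl⟩ := hxA
      rw [Finset.mem_product, hZ', Finset.mem_filter] at hy
      have h1 := ha y.1 hy.1.1 y.2
      rcases Finset.mem_union.1 hx with h | h
      · exact h1.2 h
      · exact h1.1 h
    have hsub : (Fix M).filter (fun g => w15R Z g = w15R Z g0 ∧
        ∀ z ∈ Z, g.symm z ∈ Z → ∀ j, g (a (g.symm z) j) = a z j) ⊆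
        Finset.univ.filter (fun g : Equiv.Perm (Fin n) => ∀ x ∈ (M ∪ Z) ∪ A, g x = g1 x) := by
      intro g hg
      rw [Finset.mem_filter] at hg
      obtain ⟨hgM, hgR, hgc⟩ := hg
      rw [Fix, Finset.mem_filter] at hgM hg1M
      rw [Finset.mem_filter]
      refine ⟨Finset.mem_univ _, fun x hx => ?_⟩
      have hZeq : ∀ x ∈ Z, g x = g1 x := by
        intro x hx
        have h4 := congrFun (hgR.trans hg1R.symm) x
        rw [w15R, w15R, if_pos hx, if_pos hx] at h4
        exact h4
      rcases Finset.mem_union.1 hx with hx | hx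
      · rcases Finset.mem_union.1 hx with hx | hx
        · rw [hgM.2 x hx, hg1M.2 x hx]
        · exact hZeq x hx
      · rw [hA, Finset.mem_image] at hx
        obtain ⟨⟨y, j⟩, hy, rfl⟩ := hx
        rw [Finset.mem_product, hZ', Finset.mem_filter] at hy
        obtain ⟨⟨hyZ, hyR⟩, -⟩ := hy
        have hyR' : g y ∈ Z := by
          have h5 := congrFun hgR y
          rw [w15R, if_pos hyZ] at h5
          rw [h5]
          exact hyR
        have h6 := hgc (g y) hyR' (by rw [Equiv.symm_apply_apply]; exact hyZ) j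
        have h7 := hg1c (g1 y) (by rw [← hZeq y hyZ]; exact hyR')
          (by rw [Equiv.symm_apply_apply]; exact hyZ) j
        rw [Equiv.symm_apply_apply] at h6 h7
        change g (a y j) = g1 (a y j)
        rw [h6, h7, hZeq y hyZ]
    have hc := Finset.card_le_card hsub
    rw [w15_agree, Finset.card_union_of_disjoint hAd, Finset.card_union_of_disjoint hZM.symm,
      hAc] at hc
    rw [hi]
    have hZ'le : Z'.card ≤ Z.card := Finset.card_filter_le _ _
    have hkZ : k * Z'.card ≤ k * Z.card := Nat.mul_le_mul_left k hZ'le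
    have hkk : (k + 1) * Z.card = k * Z.card + Z.card := by ring
    set N := n - (M.card + Z.card) with hN
    set m := k * Z'.card with hm
    have hmN : m ≤ N := by omega
    have h8 : n - (M.card + Z.card + m) = N - m := by omega
    rw [h8] at hc
    have h9 : n - M.card - (k + 1) * Z.card ≤ N + 1 - m := by omega
    calc _ ≤ (N - m).factorial * (N + 1 - m) ^ m :=
          Nat.mul_le_mul hc (Nat.pow_le_pow_left h9 m)
      _ ≤ (N - m).factorial * N.descFactorial m :=
          Nat.mul_le_mul_left _ (Nat.pow_sub_le_descFactorial N m)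
      _ = N.factorial := Nat.factorial_mul_descFactorial hmN

theorem W15a {n k : ℕ} (M Z : Finset (Fin n)) (a : Fin n → Fin k → Fin n)
    (hZM : Disjoint Z M) (ha : ∀ z ∈ Z, ∀ i, a z i ∉ Z ∧ a z i ∉ M)
    (hinj : ∀ z ∈ Z, ∀ z' ∈ Z, ∀ i i', a z i = a z' i' → z = z' ∧ i = i')
    (hw : (k + 1) * Z.card + M.card < n) (b : ℝ) (hb : 0 ≤ b) :
    avOn (Fix M) (fun g => if (∀ z ∈ Z, g.symm z ∈ Z → ∀ j, g (a (g.symm z) j) = a z j)
        then b ^ ((Z ∩ relV g Z).card) else 0) ≤
      avOn (Fix M) (fun g =>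
        (b / ((n : ℝ) - M.card - (k + 1) * Z.card) ^ k) ^ ((Z ∩ relV g Z).card)) := by
  refine div_le_div_of_nonneg_right ?_ (Nat.cast_nonneg _)
  have hD : ((n - M.card - (k + 1) * Z.card : ℕ) : ℝ) = (n : ℝ) - M.card - (k + 1) * Z.card := by
    rw [Nat.cast_sub (by omega), Nat.cast_sub (by omega)]
    push_cast
    ring
  have hD0 : 0 < ((n - M.card - (k + 1) * Z.card : ℕ) : ℝ) := by
    have : 0 < n - M.card - (k + 1) * Z.card := by omega
    exact_mod_cast this
  rw [← hD]
  set D := ((n - M.card - (k + 1) * Z.card : ℕ) : ℝ) with hDdef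
  rw [← Finset.sum_fiberwise_of_maps_to (s := Fix M) (t := (Fix M).image (w15R Z))
    (g := w15R Z) (fun g hg => Finset.mem_image_of_mem _ hg)]
  rw [← Finset.sum_fiberwise_of_maps_to (s := Fix M) (t := (Fix M).image (w15R Z))
    (g := w15R Z) (f := fun g => (b / D ^ k) ^ ((Z ∩ relV g Z).card))
    (fun g hg => Finset.mem_image_of_mem _ hg)]
  refine Finset.sum_le_sum fun ψ hψ => ?_
  obtain ⟨g0, hg0, rfl⟩ := Finset.mem_image.1 hψ
  have hcard : ∀ g, w15R Z g = w15R Z g0 → (Z ∩ relV g Z).card = (Z ∩ relV g0 Z).card := by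
    intro g hg
    rw [w15_card_inter, w15_card_inter, hg]
  set i := (Z ∩ relV g0 Z).card with hi
  have h1 : ∑ g ∈ (Fix M).filter (fun g => w15R Z g = w15R Z g0),
      (if (∀ z ∈ Z, g.symm z ∈ Z → ∀ j, g (a (g.symm z) j) = a z j)
        then b ^ ((Z ∩ relV g Z).card) else 0) =
      (((Fix M).filter (fun g => w15R Z g = w15R Z g0 ∧
      ∀ z ∈ Z, g.symm z ∈ Z → ∀ j, g (a (g.symm z) j) = a z j)).card : ℝ) * b ^ i := by
    rw [← Finset.sum_filter, Finset.filter_filter, Finset.sum_congr rfl (g := fun _ => b ^ i),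
      Finset.sum_const, nsmul_eq_mul]
    intro g hg
    rw [Finset.mem_filter] at hg
    rw [hcard g hg.2.1]
  have h2 : ∑ g ∈ (Fix M).filter (fun g => w15R Z g = w15R Z g0),
      (b / D ^ k) ^ ((Z ∩ relV g Z).card) =
      (((Fix M).filter (fun g => w15R Z g = w15R Z g0)).card : ℝ) * (b / D ^ k) ^ i := by
    rw [Finset.sum_congr rfl (g := fun _ => (b / D ^ k) ^ i), Finset.sum_const, nsmul_eq_mul]
    intro g hg
    rw [Finset.mem_filter] at hg
    rw [hcard g hg.2]
  rw [h1, h2]
  have h3 := w15_class M Z a hZM ha hinj hw g0 hg0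
  have h4 : ((((Fix M).filter (fun g => w15R Z g = w15R Z g0 ∧
      ∀ z ∈ Z, g.symm z ∈ Z → ∀ j, g (a (g.symm z) j) = a z j)).card : ℕ) : ℝ) *
        D ^ (k * i) ≤ (((Fix M).filter (fun g => w15R Z g = w15R Z g0)).card : ℝ) := by
    rw [hDdef, ← Nat.cast_pow, ← Nat.cast_mul]
    exact_mod_cast h3
  rw [div_pow, ← pow_mul, mul_div_assoc', le_div_iff₀ (by positivity)]
  have h5 : 0 ≤ b ^ i := pow_nonneg hb i
  nlinarith [mul_le_mul_of_nonneg_right h4 h5]

lemma w15_cover {n : ℕ} (M Z A : Finset (Fin n)) (hZM : Disjoint Z M) (hA : A ⊆ Z) :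
    ((Fix M).filter (fun g => A ⊆ relV g Z)).card ≤
      Z.card.descFactorial A.card * (n - M.card - A.card).factorial := by
  -- the restriction of the inverse to `A`
  let r : Equiv.Perm (Fin n) → (A → Fin n) := fun g x => g.symm x
  have hmap : ∀ g ∈ (Fix M).filter (fun g => A ⊆ relV g Z),
      r g ∈ Finset.univ.filter (fun φ : A → Fin n => Function.Injective φ ∧ ∀ x, φ x ∈ Z) := by
    intro g hg
    rw [Finset.mem_filter] at hg
    rw [Finset.mem_filter]
    refine ⟨Finset.mem_univ _, ?_, ?_⟩
    · intro x y hxy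
      exact Subtype.ext (g.symm.injective hxy)
    · intro x
      have h1 := hg.2 x.2
      rwa [mem_relV] at h1
  have hcard : (Finset.univ.filter
      (fun φ : A → Fin n => Function.Injective φ ∧ ∀ x, φ x ∈ Z)).card ≤
      Z.card.descFactorial A.card := by
    have h1 : Fintype.card (A ↪ Z) = Z.card.descFactorial A.card := by
      rw [Fintype.card_embedding_eq, Fintype.card_coe, Fintype.card_coe]
    rw [← h1, ← Finset.card_univ]
    refine Finset.card_le_card_of_surjOn (fun (e : A ↪ Z) => fun x => (e x : Fin n)) ?_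
    intro φ hφ
    rw [Finset.mem_coe, Finset.mem_filter] at hφ
    refine ⟨⟨fun x => ⟨φ x, hφ.2.2 x⟩, ?_⟩, by simp, ?_⟩
    · intro x y hxy
      exact hφ.2.1 (congrArg Subtype.val hxy)
    · rfl
  rw [Finset.card_eq_sum_card_fiberwise hmap]
  refine (Finset.sum_le_card_nsmul _ _ ((n - M.card - A.card).factorial) ?_).trans ?_
  · intro φ _
    rcases Finset.eq_empty_or_nonempty
      (((Fix M).filter (fun g => A ⊆ relV g Z)).filter (fun g => r g = φ)) with he | ⟨g1, hg1⟩
    · rw [he]
      simp
    · have hsub : (((Fix M).filter (fun g => A ⊆ relV g Z)).filter (fun g => r g = φ)).card ≤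
          (Finset.univ.filter (fun g : Equiv.Perm (Fin n) =>
            ∀ x ∈ M ∪ A, g x = g1.symm x)).card := by
        refine Finset.card_le_card_of_injOn (fun g => g.symm) ?_ ?_
        · intro g hg
          rw [Finset.mem_coe, Finset.mem_filter, Finset.mem_filter] at hg
          rw [Finset.mem_filter, Finset.mem_filter] at hg1
          rw [Finset.mem_coe, Finset.mem_filter]
          refine ⟨Finset.mem_univ _, fun x hx => ?_⟩
          rcases Finset.mem_union.1 hx with hx | hx
          · have h1 := hg.1.1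
            have h2 := hg1.1.1
            rw [Fix, Finset.mem_filter] at h1 h2
            have h3 : g.symm x = x := by
              rw [Equiv.symm_apply_eq, h1.2 x hx]
            have h4 : g1.symm x = x := by
              rw [Equiv.symm_apply_eq, h2.2 x hx]
            rw [h3, h4]
          · have h1 := congrFun (hg.2.trans hg1.2.symm) ⟨x, hx⟩
            exact h1
        · intro g _ g' _ h
          have := congrArg Equiv.symm h
          simpa using this
      refine hsub.trans ?_
      rw [w15_agree, Finset.card_union_of_disjoint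
        (Finset.disjoint_of_subset_right hA hZM.symm), Nat.sub_sub]
  · rw [smul_eq_mul]
    exact Nat.mul_le_mul_right _ hcard

theorem W15b {n : ℕ} (M Z : Finset (Fin n)) (hZM : Disjoint Z M) (hw : M.card < n) (c : ℝ)
    (hc : 1 ≤ c) :
    avOn (Fix M) (fun g => c ^ ((Z ∩ relV g Z).card)) ≤
      (1 + (c - 1) * Z.card / ((n : ℝ) - M.card)) ^ Z.card := by
  have hw' : ((n - M.card : ℕ) : ℝ) = (n : ℝ) - M.card := by rw [Nat.cast_sub hw.le]
  have hw0 : 0 < ((n - M.card : ℕ) : ℝ) := by
    have : 0 < n - M.card := by omega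
    exact_mod_cast this
  rw [← hw']
  set w := n - M.card with hwdef
  have hZw : Z.card ≤ w := by
    have h1 := Finset.card_le_univ (Z ∪ M)
    rw [Finset.card_union_of_disjoint hZM, Fintype.card_fin] at h1
    omega
  rw [avOn, div_le_iff₀ (by rw [w15_card_Fix]; exact_mod_cast Nat.factorial_pos _)]
  have e1 : ∀ g : Equiv.Perm (Fin n), c ^ ((Z ∩ relV g Z).card) =
      ∑ A ∈ Z.powerset, if A ⊆ relV g Z then (c - 1) ^ A.card else 0 := by
    intro g
    have h1 := Finset.sum_pow_mul_eq_add_pow (c - 1) 1 (Z ∩ relV g Z)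
    rw [sub_add_cancel] at h1
    rw [← h1, ← Finset.sum_filter]
    have h2 : Z.powerset.filter (fun A => A ⊆ relV g Z) = (Z ∩ relV g Z).powerset := by
      ext A
      rw [Finset.mem_filter, Finset.mem_powerset, Finset.mem_powerset, Finset.subset_inter_iff]
    rw [h2]
    refine Finset.sum_congr rfl fun A _ => ?_
    rw [one_pow, mul_one]
  rw [Finset.sum_congr rfl fun g _ => e1 g, Finset.sum_comm]
  have e2 : ∀ A ∈ Z.powerset, ∑ g ∈ Fix M, (if A ⊆ relV g Z then (c - 1) ^ A.card else 0) ≤
      ((c - 1) * Z.card / (w : ℝ)) ^ A.card * ((Fix M).card : ℝ) := by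
    intro A hA
    rw [Finset.mem_powerset] at hA
    rw [← Finset.sum_filter, Finset.sum_const, nsmul_eq_mul]
    have h1 := w15_cover M Z A hZM hA
    rw [← hwdef] at h1
    have hAw : A.card ≤ w := (Finset.card_le_card hA).trans hZw
    have h2 : ((Fix M).filter (fun g => A ⊆ relV g Z)).card * w ^ A.card ≤
        Z.card ^ A.card * (Fix M).card := by
      rw [w15_card_Fix, ← hwdef]
      calc _ ≤ (Z.card.descFactorial A.card * (w - A.card).factorial) * w ^ A.card :=
            Nat.mul_le_mul_right _ h1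
        _ = (Z.card.descFactorial A.card * w ^ A.card) * (w - A.card).factorial := by ring
        _ ≤ (Z.card ^ A.card * w.descFactorial A.card) * (w - A.card).factorial :=
            Nat.mul_le_mul_right _ (w15_desc hZw)
        _ = Z.card ^ A.card * ((w - A.card).factorial * w.descFactorial A.card) := by ring
        _ = Z.card ^ A.card * w.factorial := by rw [Nat.factorial_mul_descFactorial hAw]
    have h3 : ((((Fix M).filter (fun g => A ⊆ relV g Z)).card : ℕ) : ℝ) * (w : ℝ) ^ A.card ≤
        (Z.card : ℝ) ^ A.card * ((Fix M).card : ℝ) := by exact_mod_cast h2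
    have h4 : 0 ≤ (c - 1) ^ A.card := pow_nonneg (by linarith) _
    rw [div_pow, mul_pow, div_mul_eq_mul_div, le_div_iff₀ (by positivity)]
    nlinarith [mul_le_mul_of_nonneg_left h3 h4]
  refine (Finset.sum_le_sum e2).trans (le_of_eq ?_)
  rw [← Finset.sum_mul]
  congr 1
  have h1 := Finset.sum_pow_mul_eq_add_pow ((c - 1) * Z.card / (w : ℝ)) 1 Z
  rw [add_comm 1, ← h1]
  refine Finset.sum_congr rfl fun A _ => ?_
  rw [one_pow, mul_one]

end Pool.Agent.HC
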