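import Pool.Agent.Lib.MP_ec42c8_pr.W15

/-!
# W16 : the hidden set cannot be detected (second moment)

Let `M = L ∪ Λ`, `W = n - card L`, `r = card Z`.  A uniformly random table `θ ∈ Tk k L` is overwritten
on `g Z` by `g · a`, `g ∈ Fix M` uniformly random.  The law of the result has density
`f θ = avOn (Fix M) (fun g => 1{θ = relT g a on relV g Z} · W ^ (k r))` with respect to the uniform
distribution on `Tk k L` (for each `g`: the values of `relT g a` on `relV g Z` are outside `L`, and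
`θ` on the other rows is uniform), that is
`avOn (Fix M) (fun g => avOn (Tk k L) (fun θ => Φ (ovw (relV g Z) (relT g a) θ))) =
 avOn (Tk k L) (fun θ => f θ * Φ θ)` for all `Φ`.  So `avOn f = 1`, and by Cauchy-Schwarz
`|LHS - avOn Φ| = |avOn ((f - 1) Φ)| ≤ (avOn (f ²) - 1) ^ (1/2)`.
`avOn f² = average over g, g' of W ^ (2 k r) · P(θ = g a on gZ and θ = g' a on g'Z)`, the probability
is `0` unless `g a = g' a` on `gZ ∩ g'Z`, and then it is `W ^ (-k (2 r - i))`, `i = card (gZ ∩ g'Z)`.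
Replacing ` (g, g')` by ` (g g', g')`... i.e. by invariance (`Fix M` is a group; `g'⁻¹ g ∈ Fix M`;
`card` and compatibility are invariant under relabelling by `g'⁻¹`) the average is that of
` (W ^ k) ^ i(g) · 1{g compatible}` over `g ∈ Fix M`: this is `W15a` with `b = W ^ k`.
With `W15b`, `c = (W / (n - card M - (k+1) r)) ^ k` (if `b = W ^ k` then `c ≥ 1`):
`W / (n - card M - (k+1) r) ≤ 1 + (card Λ + (k+1) r) / (n/2) ≤ exp (2 (card Λ + (k+1) r) / n)`,
`c - 1 ≤ exp (2 k s / n) - 1 ≤ 4 k s / n` where `s = card Λ + (k+1) r` (as `2 k s / n ≤ 1`; use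
`exp x - 1 ≤ 2 x` on `[0,1]`), ` (c - 1) r / (n - card M) ≤ 8 k s r / n²`,
`avOn f² ≤ exp (8 k s r² / n²) ≤ 1 + 16 k s r² / n²` (as `8 k s r² / n² ≤ 1`).
-/

set_option autoImplicit false

namespace Pool.Agent.HC

open Finset
open scoped Classical

/-- number of tables with prescribed rows -/
lemma w16_count {n k : ℕ} (L S : Finset (Fin n)) (β : Fin n → Fin k → Fin n)
    (hβ : ∀ v ∈ S, ∀ j, β v j ∉ L) :
    ((Tk k L).filter (fun θ => ∀ v ∈ S, θ v = β v)).card =
      ((n - L.card) ^ k) ^ (n - S.card) := by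
  have h1 : (Tk k L).filter (fun θ => ∀ v ∈ S, θ v = β v) =
      Fintype.piFinset (fun v => if v ∈ S then ({β v} : Finset (Fin k → Fin n))
        else Fintype.piFinset (fun _ => Lᶜ)) := by
    ext θ
    rw [Finset.mem_filter, Tk, Finset.mem_filter, Fintype.mem_piFinset]
    constructor
    · rintro ⟨⟨-, h2⟩, h3⟩ v
      split_ifs with hv
      · rw [Finset.mem_singleton, h3 v hv]
      · rw [Fintype.mem_piFinset]
        intro i
        rw [Finset.mem_compl]
        exact h2 v i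
    · intro h2
      refine ⟨⟨Finset.mem_univ _, fun v i => ?_⟩, fun v hv => ?_⟩
      · have h3 := h2 v
        split_ifs at h3 with hv
        · rw [Finset.mem_singleton] at h3
          rw [h3]
          exact hβ v hv i
        · rw [Fintype.mem_piFinset] at h3
          have := h3 i
          rwa [Finset.mem_compl] at this
      · have h3 := h2 v
        rw [if_pos hv, Finset.mem_singleton] at h3
        exact h3
  have hcard : ∀ v : Fin n, (if v ∈ S then ({β v} : Finset (Fin k → Fin n))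
        else Fintype.piFinset (fun _ => Lᶜ)).card = if v ∈ S then 1 else (n - L.card) ^ k := by
    intro v
    split_ifs
    · rfl
    · rw [Fintype.card_piFinset, Finset.prod_const, Finset.card_compl, Finset.card_univ,
        Fintype.card_fin, Fintype.card_fin]
  rw [h1, Fintype.card_piFinset, Finset.prod_congr rfl fun v _ => hcard v, Finset.prod_ite,
    Finset.prod_const_one, one_mul, Finset.prod_const]
  congr 1
  have h2 : (Finset.univ.filter fun v : Fin n => v ∉ S) = Sᶜ := by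
    ext v
    simp
  rw [h2, Finset.card_compl, Fintype.card_fin]

lemma w16_card_Tk {n k : ℕ} (L : Finset (Fin n)) :
    (Tk k L).card = ((n - L.card) ^ k) ^ n := by
  have h1 := w16_count L ∅ (fun v _ => v) (k := k) (by simp)
  simpa using h1

/-- sums over overwritten tables -/
lemma w16_sum_ovw {n k : ℕ} (L S : Finset (Fin n)) (β : Fin n → Fin k → Fin n)
    (hβ : ∀ v ∈ S, ∀ j, β v j ∉ L) (Φ : (Fin n → Fin k → Fin n) → ℝ) :
    ∑ θ ∈ Tk k L, Φ (ovw S β θ) =
      ∑ θ ∈ Tk k L, (if (∀ v ∈ S, θ v = β v) then (((n - L.card : ℕ) : ℝ) ^ k) ^ S.card else 0) *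
        Φ θ := by
  have hmap : ∀ θ ∈ Tk k L, ovw S β θ ∈ (Tk k L).filter (fun θ => ∀ v ∈ S, θ v = β v) := by
    intro θ hθ
    rw [Tk, Finset.mem_filter] at hθ
    rw [Finset.mem_filter, Tk, Finset.mem_filter]
    refine ⟨⟨Finset.mem_univ _, fun v i => ?_⟩, fun v hv => ?_⟩
    · rw [ovw]
      split_ifs with hv
      · exact hβ v hv i
      · exact hθ.2 v i
    · funext i
      rw [ovw, if_pos hv]
  rw [← Finset.sum_fiberwise_of_maps_to hmap]
  have hfib : ∀ θ' ∈ (Tk k L).filter (fun θ => ∀ v ∈ S, θ v = β v),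
      ∑ θ ∈ (Tk k L).filter (fun θ => ovw S β θ = θ'), Φ (ovw S β θ) =
      (((n - L.card : ℕ) : ℝ) ^ k) ^ S.card * Φ θ' := by
    intro θ' hθ'
    rw [Finset.sum_congr rfl (g := fun _ => Φ θ') (fun θ hθ => by
      rw [Finset.mem_filter] at hθ
      rw [hθ.2]), Finset.sum_const, nsmul_eq_mul]
    congr 1
    rw [Finset.mem_filter, Tk, Finset.mem_filter] at hθ'
    have h1 : (Tk k L).filter (fun θ => ovw S β θ = θ') =
        (Tk k L).filter (fun θ => ∀ v ∈ Sᶜ, θ v = θ' v) := by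
      refine Finset.filter_congr fun θ _ => ?_
      constructor
      · intro h v hv
        rw [Finset.mem_compl] at hv
        funext i
        rw [← h, ovw, if_neg hv]
      · intro h
        funext v i
        rw [ovw]
        split_ifs with hv
        · rw [hθ'.2 v hv]
        · rw [h v (Finset.mem_compl.2 hv)]
    rw [h1, w16_count L Sᶜ θ' (fun v _ j => hθ'.1.2 v j), Finset.card_compl, Fintype.card_fin]
    have h2 : n - (n - S.card) = S.card := by
      have := Finset.card_le_univ S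
      rw [Fintype.card_fin] at this
      omega
    rw [h2]
    push_cast
    rfl
  rw [Finset.sum_congr rfl hfib, Finset.sum_filter]
  refine Finset.sum_congr rfl fun θ _ => ?_
  split_ifs
  · rfl
  · rw [zero_mul]

/-- two sets of prescribed rows -/
lemma w16_two {n k : ℕ} (L S S' : Finset (Fin n)) (β β' : Fin n → Fin k → Fin n)
    (hβ : ∀ v ∈ S, ∀ j, β v j ∉ L) (hβ' : ∀ v ∈ S', ∀ j, β' v j ∉ L) (hL : L.card < n)
    (hSS' : S.card = S'.card) :
    avOn (Tk k L) (fun θ =>
      (if (∀ v ∈ S, θ v = β v) then (((n - L.card : ℕ) : ℝ) ^ k) ^ S.card else 0) *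
      (if (∀ v ∈ S', θ v = β' v) then (((n - L.card : ℕ) : ℝ) ^ k) ^ S'.card else 0)) =
    if (∀ v ∈ S, v ∈ S' → β v = β' v) then (((n - L.card : ℕ) : ℝ) ^ k) ^ (S ∩ S').card
      else 0 := by
  have hW : (((n - L.card : ℕ) : ℝ) ^ k) ≠ 0 := by
    apply pow_ne_zero
    have : n - L.card ≠ 0 := by omega
    exact_mod_cast this
  set w := (((n - L.card : ℕ) : ℝ) ^ k) with hw
  have hT0 : ((Tk k L).card : ℝ) = w ^ n := by
    rw [w16_card_Tk, hw]
    push_cast
    rfl
  have e1 : ∀ θ : Fin n → Fin k → Fin n,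
      (if (∀ v ∈ S, θ v = β v) then w ^ S.card else 0) *
      (if (∀ v ∈ S', θ v = β' v) then w ^ S'.card else 0) =
      if ((∀ v ∈ S, θ v = β v) ∧ ∀ v ∈ S', θ v = β' v) then w ^ (S.card + S'.card) else 0 := by
    intro θ
    by_cases h1 : ∀ v ∈ S, θ v = β v
    · by_cases h2 : ∀ v ∈ S', θ v = β' v
      · rw [if_pos h1, if_pos h2, if_pos ⟨h1, h2⟩, pow_add]
      · rw [if_neg h2, mul_zero, if_neg
          (fun h : (∀ v ∈ S, θ v = β v) ∧ ∀ v ∈ S', θ v = β' v => h2 h.2)]
    · rw [if_neg h1, zero_mul, if_neg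
        (fun h : (∀ v ∈ S, θ v = β v) ∧ ∀ v ∈ S', θ v = β' v => h1 h.1)]
  rw [avOn, Finset.sum_congr rfl fun θ _ => e1 θ, ← Finset.sum_filter, Finset.sum_const,
    nsmul_eq_mul]
  split_ifs with hcomp
  · let γ : Fin n → Fin k → Fin n := fun v => if v ∈ S then β v else β' v
    have h3 : (Tk k L).filter (fun θ => (∀ v ∈ S, θ v = β v) ∧ ∀ v ∈ S', θ v = β' v) =
        (Tk k L).filter (fun θ => ∀ v ∈ S ∪ S', θ v = γ v) := by
      refine Finset.filter_congr fun θ _ => ?_
      constructor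
      · rintro ⟨h4, h5⟩ v hv
        by_cases hvS : v ∈ S
        · simp only [γ, if_pos hvS]
          exact h4 v hvS
        · simp only [γ, if_neg hvS]
          exact h5 v ((Finset.mem_union.1 hv).resolve_left hvS)
      · intro h4
        refine ⟨fun v hv => ?_, fun v hv => ?_⟩
        · have h5 := h4 v (Finset.mem_union_left _ hv)
          simp only [γ, if_pos hv] at h5
          exact h5
        · have h5 := h4 v (Finset.mem_union_right _ hv)
          by_cases hvS : v ∈ S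
          · simp only [γ, if_pos hvS] at h5
            rw [h5, hcomp v hvS hv]
          · simp only [γ, if_neg hvS] at h5
            exact h5
    rw [h3, w16_count L (S ∪ S') γ (fun v hv j => by
      by_cases hvS : v ∈ S
      · simp only [γ, if_pos hvS]
        exact hβ v hvS j
      · simp only [γ, if_neg hvS]
        exact hβ' v ((Finset.mem_union.1 hv).resolve_left hvS) j), hT0]
    have h6 : (((((n - L.card) ^ k) ^ (n - (S ∪ S').card) : ℕ)) : ℝ) =
        w ^ (n - (S ∪ S').card) := by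
      rw [hw]
      push_cast
      rfl
    rw [h6, div_eq_iff (pow_ne_zero _ hW), ← pow_add, ← pow_add]
    congr 1
    have h7 := Finset.card_union_add_card_inter S S'
    have h8 := Finset.card_le_univ (S ∪ S')
    rw [Fintype.card_fin] at h8
    omega
  · have h3 : (Tk k L).filter (fun θ => (∀ v ∈ S, θ v = β v) ∧ ∀ v ∈ S', θ v = β' v) = ∅ := by
      rw [Finset.filter_eq_empty_iff]
      rintro θ _ ⟨h4, h5⟩
      apply hcomp
      intro v hv hv'
      rw [← h4 v hv, ← h5 v hv']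
    rw [h3]
    simp

lemma w16_Fix_mul {n : ℕ} (M : Finset (Fin n)) (g' : Equiv.Perm (Fin n)) (hg' : g' ∈ Fix M)
    (F : Equiv.Perm (Fin n) → ℝ) : avOn (Fix M) (fun g => F (g'⁻¹ * g)) = avOn (Fix M) F := by
  rw [Fix, Finset.mem_filter] at hg'
  rw [avOn, avOn]
  congr 1
  refine Finset.sum_bij (fun g _ => g'⁻¹ * g) ?_ ?_ ?_ ?_
  · intro g hg
    rw [Fix, Finset.mem_filter] at hg ⊢
    refine ⟨Finset.mem_univ _, fun v hv => ?_⟩
    rw [Equiv.Perm.mul_apply, hg.2 v hv]
    change g'.symm v = v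
    rw [Equiv.symm_apply_eq, hg'.2 v hv]
  · intro g _ g₂ _ h
    exact mul_left_cancel h
  · intro g hg
    rw [Fix, Finset.mem_filter] at hg
    refine ⟨g' * g, ?_, by group⟩
    rw [Fix, Finset.mem_filter]
    refine ⟨Finset.mem_univ _, fun v hv => ?_⟩
    rw [Equiv.Perm.mul_apply, hg.2 v hv, hg'.2 v hv]
  · intro g _
    rfl

/-- Cauchy-Schwarz -/
lemma w16_cs {α : Type*} (s : Finset α) (u : α → ℝ) :
    avOn s (fun a => |u a|) ≤ Real.sqrt (avOn s (fun a => u a ^ 2)) := by
  apply Real.le_sqrt_of_sq_le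
  rcases s.eq_empty_or_nonempty with rfl | hs
  · simp [avOn]
  · have hc : 0 < (s.card : ℝ) := by exact_mod_cast hs.card_pos
    rw [avOn, avOn, div_pow, div_le_div_iff₀ (by positivity) hc]
    have h1 := sq_sum_le_card_mul_sum_sq (s := s) (f := fun a => |u a|)
    have h2 : ∑ a ∈ s, |u a| ^ 2 = ∑ a ∈ s, u a ^ 2 :=
      Finset.sum_congr rfl fun a _ => sq_abs (u a)
    rw [h2] at h1
    nlinarith

lemma w16_exp {x : ℝ} (h0 : 0 ≤ x) (h1 : x ≤ 1) : Real.exp x ≤ 1 + 2 * x := by
  have h2 := Real.abs_exp_sub_one_sub_id_le (x := x) (by rw [abs_of_nonneg h0]; exact h1)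
  have h3 := (abs_le.1 h2).2
  nlinarith

/-- the numerical estimate -/
lemma w16_num {n k r l lam W D w z : ℕ} (hn : 0 < n) (hz : z ≤ r)
    (h1 : 2 * (l + lam + (k + 1) * r) ≤ n) (h2 : 2 * k * (lam + (k + 1) * r) ≤ n)
    (h3 : 8 * k * (lam + (k + 1) * r) * r ^ 2 ≤ n ^ 2) (hD : n ≤ 2 * D) (hw : n ≤ 2 * w)
    (hWD : W ≤ D + (lam + (k + 1) * r)) (hDW : D ≤ W) :
    (1 + (((W : ℝ) ^ k / (D : ℝ) ^ k) - 1) * z / w) ^ z ≤
      1 + 16 * k * ((lam : ℝ) + (k + 1) * r) * r ^ 2 / n ^ 2 := by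
  have hn' : (0 : ℝ) < n := by exact_mod_cast hn
  have hD' : (n : ℝ) ≤ 2 * D := by exact_mod_cast hD
  have hw' : (n : ℝ) ≤ 2 * w := by exact_mod_cast hw
  have hD0 : (0 : ℝ) < D := by linarith
  have hw0 : (0 : ℝ) < w := by linarith
  have hWD' : (W : ℝ) ≤ D + (lam + (k + 1) * r) := by exact_mod_cast hWD
  have hDW' : (D : ℝ) ≤ W := by exact_mod_cast hDW
  have hz' : (z : ℝ) ≤ r := by exact_mod_cast hz
  have hz0 : (0 : ℝ) ≤ z := Nat.cast_nonneg z
  have hk0 : (0 : ℝ) ≤ k := Nat.cast_nonneg k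
  have hr0 : (0 : ℝ) ≤ r := Nat.cast_nonneg r
  have hl0 : (0 : ℝ) ≤ lam := Nat.cast_nonneg lam
  set s : ℝ := (lam : ℝ) + (k + 1) * r with hs
  have hs0 : 0 ≤ s := by positivity
  have h2' : 2 * k * s ≤ n := by
    rw [hs]
    exact_mod_cast h2
  have h3' : 8 * k * s * (r : ℝ) ^ 2 ≤ (n : ℝ) ^ 2 := by
    rw [hs]
    exact_mod_cast h3
  have hx0 : 0 ≤ 2 * k * s / n := by positivity
  have hx1 : 2 * k * s / n ≤ 1 := by
    rw [div_le_one hn']
    exact h2'
  have hc1 : (W : ℝ) / D ≤ 1 + 2 * s / n := by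
    rw [div_le_iff₀ hD0]
    have h4 : s ≤ 2 * s / n * D := by
      rw [div_mul_eq_mul_div, le_div_iff₀ hn']
      nlinarith
    nlinarith
  have hc2 : (W : ℝ) ^ k / (D : ℝ) ^ k ≤ 1 + 4 * k * s / n := by
    rw [← div_pow]
    have h5 : 0 ≤ (W : ℝ) / D := by positivity
    calc ((W : ℝ) / D) ^ k ≤ (1 + 2 * s / n) ^ k := pow_le_pow_left₀ h5 hc1 k
      _ ≤ (Real.exp (2 * s / n)) ^ k := by
          apply pow_le_pow_left₀ (by positivity)
          rw [add_comm]
          exact Real.add_one_le_exp _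
      _ = Real.exp (2 * k * s / n) := by
          rw [← Real.exp_nat_mul]
          congr 1
          ring
      _ ≤ 1 + 2 * (2 * k * s / n) := w16_exp hx0 hx1
      _ = 1 + 4 * k * s / n := by ring
  have hc0 : 1 ≤ (W : ℝ) ^ k / (D : ℝ) ^ k := by
    rw [one_le_div (by positivity)]
    exact pow_le_pow_left₀ hD0.le hDW' k
  have hy : ((W : ℝ) ^ k / (D : ℝ) ^ k - 1) * z / w ≤ 8 * k * s * r / n ^ 2 := by
    rw [div_le_div_iff₀ hw0 (by positivity)]
    have h6 : ((W : ℝ) ^ k / (D : ℝ) ^ k - 1) * z ≤ 4 * k * s / n * r := by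
      apply mul_le_mul (by linarith) hz' hz0 (by positivity)
    have h7 : ((W : ℝ) ^ k / (D : ℝ) ^ k - 1) * z * n ≤ 4 * k * s * r := by
      calc _ ≤ 4 * k * s / n * r * n := mul_le_mul_of_nonneg_right h6 hn'.le
        _ = 4 * k * s * r := by field_simp
    have h8 : 0 ≤ 4 * k * s * r := by positivity
    calc ((W : ℝ) ^ k / (D : ℝ) ^ k - 1) * z * n ^ 2
        = (((W : ℝ) ^ k / (D : ℝ) ^ k - 1) * z * n) * n := by ring
      _ ≤ 4 * k * s * r * n := mul_le_mul_of_nonneg_right h7 hn'.le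
      _ ≤ 4 * k * s * r * (2 * w) := mul_le_mul_of_nonneg_left hw' h8
      _ = 8 * k * s * r * w := by ring
  have hy0 : 0 ≤ ((W : ℝ) ^ k / (D : ℝ) ^ k - 1) * z / w := by
    apply div_nonneg (mul_nonneg (by linarith) hz0) hw0.le
  have hv0 : 0 ≤ 8 * k * s * r ^ 2 / n ^ 2 := by positivity
  have hv1 : 8 * k * s * r ^ 2 / (n : ℝ) ^ 2 ≤ 1 := by
    rw [div_le_one (by positivity)]
    exact h3'
  calc (1 + (((W : ℝ) ^ k / (D : ℝ) ^ k) - 1) * z / w) ^ z
      ≤ (Real.exp ((((W : ℝ) ^ k / (D : ℝ) ^ k) - 1) * z / w)) ^ z := by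
        apply pow_le_pow_left₀ (by linarith)
        rw [add_comm]
        exact Real.add_one_le_exp _
    _ = Real.exp (z * ((((W : ℝ) ^ k / (D : ℝ) ^ k) - 1) * z / w)) := by
        rw [← Real.exp_nat_mul]
    _ ≤ Real.exp (8 * k * s * r ^ 2 / n ^ 2) := by
        apply Real.exp_le_exp.2
        calc (z : ℝ) * ((((W : ℝ) ^ k / (D : ℝ) ^ k) - 1) * z / w)
            ≤ r * (8 * k * s * r / n ^ 2) := mul_le_mul hz' hy hy0 hr0
          _ = 8 * k * s * r ^ 2 / n ^ 2 := by ring
    _ ≤ 1 + 2 * (8 * k * s * r ^ 2 / n ^ 2) := w16_exp hv0 hv1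
    _ = _ := by ring

theorem W16 {n k : ℕ} (L Λ Z : Finset (Fin n)) (a : Fin n → Fin k → Fin n)
    (hZM : Disjoint Z (L ∪ Λ)) (ha : ∀ z ∈ Z, ∀ i, a z i ∉ Z ∧ a z i ∉ L ∪ Λ)
    (hinj : ∀ z ∈ Z, ∀ z' ∈ Z, ∀ i i', a z i = a z' i' → z = z' ∧ i = i')
    (r l lam : ℕ) (hr : Z.card ≤ r) (hl : L.card ≤ l) (hlam : Λ.card ≤ lam)
    (h1 : 2 * (l + lam + (k + 1) * r) ≤ n) (h2 : 2 * k * (lam + (k + 1) * r) ≤ n)
    (h3 : 8 * k * (lam + (k + 1) * r) * r ^ 2 ≤ n ^ 2)
    (Φ : (Fin n → Fin k → Fin n) → ℝ) (hΦ : Unit01 Φ) :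
    |avOn (Fix (L ∪ Λ)) (fun g => avOn (Tk k L) (fun θ => Φ (ovw (relV g Z) (relT g a) θ))) -
      avOn (Tk k L) Φ| ≤
      Real.sqrt (16 * k * ((lam : ℝ) + (k + 1) * r) * r ^ 2 / n ^ 2) := by
  rcases Nat.eq_zero_or_pos n with hn0 | hn
  · subst hn0
    have hFne : (Fix (L ∪ Λ)).Nonempty :=
      ⟨1, by rw [Fix, Finset.mem_filter]; exact ⟨Finset.mem_univ _, fun _ _ => rfl⟩⟩
    have e : ∀ g : Equiv.Perm (Fin 0), ∀ θ : Fin 0 → Fin k → Fin 0,
        ovw (relV g Z) (relT g a) θ = θ := fun g θ => Subsingleton.elim _ _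
    simp only [e]
    rw [avOn_const hFne, sub_self, abs_zero]
    exact Real.sqrt_nonneg _
  set M := L ∪ Λ with hM
  have hkr : (k + 1) * Z.card ≤ (k + 1) * r := Nat.mul_le_mul_left _ hr
  have hMc : M.card ≤ L.card + Λ.card := Finset.card_union_le _ _
  have hLM : L.card ≤ M.card := Finset.card_le_card Finset.subset_union_left
  have hw : (k + 1) * Z.card + M.card < n := by omega
  have hLn : L.card < n := by omega
  -- the densities
  set W : ℝ := ((n - L.card : ℕ) : ℝ) ^ k with hW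
  let F : Equiv.Perm (Fin n) → (Fin n → Fin k → Fin n) → ℝ := fun g θ =>
    if (∀ v ∈ relV g Z, θ v = relT g a v) then W ^ (relV g Z).card else 0
  have hFixL : ∀ g ∈ Fix M, ∀ v ∈ relV g Z, ∀ j, relT g a v j ∉ L := by
    intro g hg v hv j hmem
    rw [Fix, Finset.mem_filter] at hg
    rw [mem_relV] at hv
    have h4 := (ha _ hv j).2
    apply h4
    have h5 : g (a (g.symm v) j) ∈ M := Finset.mem_union_left _ hmem
    have h6 := hg.2 _ h5
    have h7 : a (g.symm v) j = g (a (g.symm v) j) := g.injective h6.symm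
    rw [h7]
    exact h5
  have hF1 : ∀ g ∈ Fix M, ∀ Ψ : (Fin n → Fin k → Fin n) → ℝ,
      avOn (Tk k L) (fun θ => Ψ (ovw (relV g Z) (relT g a) θ)) =
        avOn (Tk k L) (fun θ => F g θ * Ψ θ) := by
    intro g hg Ψ
    rw [avOn, avOn, w16_sum_ovw L (relV g Z) (relT g a) (hFixL g hg) Ψ]
  have hTne : (Tk k L).Nonempty := by
    rw [← Finset.card_pos, w16_card_Tk]
    have : 0 < n - L.card := by omega
    positivity
  have hFne : (Fix M).Nonempty :=
    ⟨1, by rw [Fix, Finset.mem_filter]; exact ⟨Finset.mem_univ _, fun _ _ => rfl⟩⟩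
  have hF2 : ∀ g ∈ Fix M, avOn (Tk k L) (F g) = 1 := by
    intro g hg
    have h4 := hF1 g hg (fun _ => 1)
    simp only [mul_one] at h4
    rw [← h4, avOn_const hTne]
  have hcomm : ∀ G : Equiv.Perm (Fin n) → (Fin n → Fin k → Fin n) → ℝ,
      avOn (Fix M) (fun g => avOn (Tk k L) (G g)) =
        avOn (Tk k L) (fun θ => avOn (Fix M) (fun g => G g θ)) := by
    intro G
    simp only [avOn]
    rw [← Finset.sum_div, ← Finset.sum_div, Finset.sum_comm, div_div, div_div, mul_comm]
  let f : (Fin n → Fin k → Fin n) → ℝ := fun θ => avOn (Fix M) (fun g => F g θ)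
  have hLHS : avOn (Fix M) (fun g => avOn (Tk k L)
      (fun θ => Φ (ovw (relV g Z) (relT g a) θ))) = avOn (Tk k L) (fun θ => f θ * Φ θ) := by
    rw [avOn_congr (fun g hg => hF1 g hg Φ), hcomm]
    refine avOn_congr fun θ _ => ?_
    simp only [f, avOn]
    rw [← Finset.sum_mul, div_mul_eq_mul_div]
  have hf1 : avOn (Tk k L) f = 1 := by
    have h4 := hcomm F
    rw [avOn_congr (fun g hg => hF2 g hg), avOn_const hFne] at h4
    exact h4.symm
  have hf2 : avOn (Tk k L) (fun θ => f θ ^ 2) ≤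
      1 + 16 * k * ((lam : ℝ) + (k + 1) * r) * r ^ 2 / n ^ 2 := by
    have h4 : avOn (Tk k L) (fun θ => f θ ^ 2) =
        avOn (Fix M) (fun g' => avOn (Fix M) (fun g => avOn (Tk k L)
          (fun θ => F g θ * F g' θ))) := by
      have h5 : ∀ θ, f θ ^ 2 = avOn (Fix M) (fun g' => avOn (Fix M) (fun g => F g θ * F g' θ)) := by
        intro θ
        simp only [f, avOn]
        rw [← Finset.sum_div]
        simp only [← Finset.sum_mul]
        rw [← Finset.mul_sum, div_div, sq, div_mul_div_comm]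
      rw [avOn_congr (fun θ _ => h5 θ), ← hcomm]
      refine avOn_congr fun g' _ => ?_
      rw [← hcomm]
    rw [h4]
    have h6 : ∀ g' ∈ Fix M, avOn (Fix M) (fun g => avOn (Tk k L)
          (fun θ => F g θ * F g' θ)) =
        avOn (Fix M) (fun h => if (∀ z ∈ Z, h.symm z ∈ Z → ∀ j, h (a (h.symm z) j) = a z j)
          then W ^ ((Z ∩ relV h Z).card) else 0) := by
      intro g' hg'
      refine Eq.trans ?_ (w16_Fix_mul M g' hg' _)
      refine avOn_congr fun g hg => ?_
      have h7 := w16_two L (relV g Z) (relV g' Z) (relT g a) (relT g' a) (hFixL g hg)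
        (hFixL g' hg') hLn (by rw [card_relV, card_relV])
      refine h7.trans ?_
      have h8 : (∀ v ∈ relV g Z, v ∈ relV g' Z → relT g a v = relT g' a v) ↔
          (∀ z ∈ Z, (g'⁻¹ * g).symm z ∈ Z → ∀ j, (g'⁻¹ * g) (a ((g'⁻¹ * g).symm z) j) = a z j) := by
        have hsy : ∀ z, (g'⁻¹ * g).symm z = g.symm (g' z) := fun z => rfl
        have hap : ∀ z, (g'⁻¹ * g) z = g'.symm (g z) := fun z => rfl
        constructor
        · intro h9 z hz hz' j
          rw [hsy] at hz' ⊢
          rw [hap, Equiv.symm_apply_eq]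
          have h10 := h9 (g' z) (by rw [mem_relV]; exact hz')
            (by rw [mem_relV, Equiv.symm_apply_apply]; exact hz)
          have h11 := congrFun h10 j
          simp only [relT, Equiv.symm_apply_apply] at h11
          exact h11
        · intro h9 v hv hv'
          rw [mem_relV] at hv hv'
          funext j
          have h10 := h9 (g'.symm v) hv' (by rw [hsy, Equiv.apply_symm_apply]; exact hv) j
          rw [hsy, Equiv.apply_symm_apply, hap, Equiv.symm_apply_eq] at h10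
          exact h10
      have h9 : (relV g Z ∩ relV g' Z).card = (Z ∩ relV (g'⁻¹ * g) Z).card := by
        have h10 : relV g Z ∩ relV g' Z = relV g' (Z ∩ relV (g'⁻¹ * g) Z) := by
          ext v
          rw [Finset.mem_inter, mem_relV, mem_relV, mem_relV, Finset.mem_inter, mem_relV]
          have h11 : (g'⁻¹ * g).symm (g'.symm v) = g.symm v := by
            change g.symm (g' (g'.symm v)) = _
            rw [Equiv.apply_symm_apply]
          rw [h11]
          exact and_comm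
        rw [h10, card_relV]
      rw [h9]
      by_cases hcp : ∀ v ∈ relV g Z, v ∈ relV g' Z → relT g a v = relT g' a v
      · rw [if_pos hcp, if_pos (h8.1 hcp)]
      · rw [if_neg hcp, if_neg (fun h => hcp (h8.2 h))]
    rw [avOn_congr h6, avOn_const hFne]
    have hD : ((n - M.card - (k + 1) * Z.card : ℕ) : ℝ) =
        (n : ℝ) - M.card - (k + 1) * Z.card := by
      rw [Nat.cast_sub (by omega), Nat.cast_sub (by omega)]
      push_cast
      ring
    have hWn : 0 ≤ W := by positivity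
    have h7 := W15a M Z a hZM ha hinj hw W hWn
    rw [← hD] at h7
    have hDpos : 0 < n - M.card - (k + 1) * Z.card := by omega
    have hDW : n - M.card - (k + 1) * Z.card ≤ n - L.card := by omega
    have hc : 1 ≤ W / ((n - M.card - (k + 1) * Z.card : ℕ) : ℝ) ^ k := by
      rw [one_le_div (by positivity), hW]
      exact pow_le_pow_left₀ (Nat.cast_nonneg _) (by exact_mod_cast hDW) k
    have h8 := W15b M Z hZM (by omega) _ hc
    refine h7.trans (h8.trans ?_)
    have h9 := w16_num (n := n) (k := k) (r := r) (l := l) (lam := lam) (W := n - L.card)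
      (D := n - M.card - (k + 1) * Z.card) (w := n - M.card) (z := Z.card) hn hr h1 h2 h3
      (by omega) (by omega) (by omega) hDW
    have hwc : ((n - M.card : ℕ) : ℝ) = (n : ℝ) - M.card := by
      rw [Nat.cast_sub (by omega)]
    rw [hwc] at h9
    exact h9
  rw [hLHS, ← avOn_sub]
  have h4 : ∀ θ, f θ * Φ θ - Φ θ = (f θ - 1) * Φ θ := fun θ => by ring
  rw [avOn_congr (fun θ _ => h4 θ)]
  calc |avOn (Tk k L) (fun θ => (f θ - 1) * Φ θ)|
      ≤ avOn (Tk k L) (fun θ => |(f θ - 1) * Φ θ|) := abs_avOn_le _ _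
    _ ≤ avOn (Tk k L) (fun θ => |f θ - 1|) := by
        refine avOn_mono fun θ _ => ?_
        rw [abs_mul, abs_of_nonneg (hΦ θ).1]
        exact mul_le_of_le_one_right (abs_nonneg _) (hΦ θ).2
    _ ≤ Real.sqrt (avOn (Tk k L) (fun θ => (f θ - 1) ^ 2)) := w16_cs _ _
    _ ≤ _ := by
        apply Real.sqrt_le_sqrt
        have h5 : avOn (Tk k L) (fun θ => (f θ - 1) ^ 2) =
            avOn (Tk k L) (fun θ => f θ ^ 2) - 1 := by
          have h6 : ∀ θ, (f θ - 1) ^ 2 = (f θ ^ 2 - 2 * f θ) + 1 := fun θ => by ring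
          rw [avOn_congr (fun θ _ => h6 θ), avOn_add, avOn_sub, avOn_mul_left, hf1,
            avOn_const hTne]
          ring
        rw [h5]
        linarith

end Pool.Agent.HC
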