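import Pool.Agent.Lib.MP_ec42c8_pr.W03
import Pool.Agent.Lib.MP_ec42c8_pr.W14
import Pool.Agent.Lib.MP_ec42c8_pr.O02

/-!
# W17 : the stars depend on the reserved heads only through their pattern

PROOF.  Let `z ∈ L ⊆ Zs k u` and `SamePat L h h'`.  For every `x ≠ z` and every time `t`, the pair at
time `t` of `BB u w y h` is `{z, x}` iff that of `BB u w y h'` is: the tails agree; the heads
agree unless we are in the first case of `hd`, where the tail is outside `Zs k u`, hence not `z`;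
then the pair is `{z, x}` iff `u t = x` and the head, `h (u t) _` resp. `h' (u t) _`, is `z ∈ L`,
and these are equivalent by `SamePat`.  So `rk (BB u w y h) ρ` and `rk (BB u w y h') ρ` agree on the
edges at `z`, and `St d _ z` depends only on these ranks.
-/

set_option autoImplicit false

namespace Pool.Agent.HC

open Finset
open scoped Classical

lemma w17_hit {n m k : ℕ} (u w y : Fin m → Fin n) (h h' : Fin n → Fin (k + 2) → Fin n)
    (L : Finset (Fin n)) (hL : L ⊆ Zs k u) (hh : SamePat L h h')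
    (z : Fin n) (hz : z ∈ L) (x : Fin n) (t : Fin m)
    (hs : s((BB u w y h t).1, (BB u w y h t).2) = s(z, x)) :
    s((BB u w y h' t).1, (BB u w y h' t).2) = s(z, x) := by
  have hzt : tot u z < k + 2 := by
    have := hL hz
    simpa [Zs] using this
  unfold BB hd at hs ⊢
  simp only at hs ⊢
  by_cases H : k + 2 ≤ tot u (u t) ∧ cnt u t < k + 2
  · rw [dif_pos H] at hs ⊢
    have hne : u t ≠ z := by
      intro h1
      rw [h1] at H
      exact absurd H.1 (not_le.2 hzt)
    rw [Sym2.eq_iff] at hs ⊢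
    rcases hs with ⟨h1, _⟩ | ⟨h1, h2⟩
    · exact absurd h1 hne
    · right
      refine ⟨h1, ?_⟩
      have h3 := hh (u t) ⟨cnt u t, H.2⟩ (Or.inl (by rw [h2]; exact hz))
      rw [← h3]
      exact h2
  · rw [dif_neg H] at hs ⊢
    exact hs

lemma w17_symm {n k : ℕ} {L : Finset (Fin n)} {h h' : Fin n → Fin (k + 2) → Fin n}
    (hh : SamePat L h h') : SamePat L h' h := fun v i hv => (hh v i hv.symm).symm

lemma w17_rk {n m k : ℕ} (u w y : Fin m → Fin n) (h h' : Fin n → Fin (k + 2) → Fin n)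
    (ρ : Edge n ≃ Fin (NE n)) (L : Finset (Fin n)) (hL : L ⊆ Zs k u) (hh : SamePat L h h')
    (z : Fin n) (hz : z ∈ L) (x : Fin n) (hx : z ≠ x) :
    rk (BB u w y h) ρ (mkE z x hx) = rk (BB u w y h') ρ (mkE z x hx) := by
  have hT : hitT (BB u w y h) (mkE z x hx) = hitT (BB u w y h') (mkE z x hx) := by
    ext t
    constructor
    · rintro ⟨ht, hs⟩
      exact ⟨ht, w17_hit u w y h h' L hL hh z hz x ⟨t, ht⟩ hs⟩
    · rintro ⟨ht, hs⟩
      exact ⟨ht, w17_hit u w y h' h L hL (w17_symm hh) z hz x ⟨t, ht⟩ hs⟩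
  unfold rk
  rw [hT]

theorem W17 {n m k : ℕ} (d : ℕ) (u w y : Fin m → Fin n) (h h' : Fin n → Fin (k + 2) → Fin n)
    (ρ : Edge n ≃ Fin (NE n)) (L : Finset (Fin n)) (hL : L ⊆ Zs k u) (hh : SamePat L h h')
    (z : Fin n) (hz : z ∈ L) :
    St d (rk (BB u w y h) ρ) z = St d (rk (BB u w y h') ρ) z := by
  have hr := w17_rk u w y h h' ρ L hL hh z hz
  unfold St
  simp only [hr]

theorem W17b {n m k : ℕ} (d : ℕ) (u w y : Fin m → Fin n) (h h' : Fin n → Fin (k + 2) → Fin n)
    (ρ : Edge n ≃ Fin (NE n)) (L : Finset (Fin n)) (hL : L ⊆ Zs k u) (hh : SamePat L h h') :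
    SS d (rk (BB u w y h) ρ) L = SS d (rk (BB u w y h') ρ) L ∧
      Lam d (rk (BB u w y h) ρ) L = Lam d (rk (BB u w y h') ρ) L := by
  have hS : ∀ z ∈ L, St d (rk (BB u w y h) ρ) z = St d (rk (BB u w y h') ρ) z :=
    fun z hz => W17 d u w y h h' ρ L hL hh z hz
  constructor
  · ext e
    simp only [SS, Finset.mem_filter, Finset.mem_univ, true_and]
    constructor
    · rintro ⟨z, hz, x, hx, he⟩
      exact ⟨z, hz, x, by rw [← hS z hz]; exact hx, he⟩
    · rintro ⟨z, hz, x, hx, he⟩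
      exact ⟨z, hz, x, by rw [hS z hz]; exact hx, he⟩
  · unfold Lam
    exact Finset.biUnion_congr rfl hS

end Pool.Agent.HC
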