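import Pool.Agent.Lib.MP_ec42c8_pr.F01

/-!
# W20 : a vertex that is not touched

PROOF.  A vertex `v` with ` (B t).1 ≠ v` and ` (B t).2 ≠ v` for all `t` has degree `0` in `bedges B`.  Let
`X` be the number of such vertices, `p = (1 - 1/n) ^ (2 M)`.  By `av_prod_fun` (an array is a
function; the probability that one entry avoids `v` is ` (1 - 1/n)²`, that it avoids two vertices is
` (1 - 2/n)² ≤ (1 - 1/n) ^ 4`): `av X = n p`, `av X² ≤ n p + (n p)²`.  Since ` (X - n p)² ≥ (n p)²` when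
`X = 0`, the probability of `X = 0` is at most ` (av X² - (n p)²) / (n p)² ≤ 1 / (n p)`.

`W20b`: `2 M = 2 (aW γ n + mW η n) ≤ (1 - η) n log n + 2 n ^ (1-γ) + 2`, and
` (1 - 1/n) ^ (2 M) ≥ exp (- 2 M (1/n + 1/n²)) ≥ n ^ (-(1 - η/2))` for large `n`
(`log (1 - x) ≥ - x - x²` for `0 ≤ x ≤ 1/2`), so `1 / (n p) ≤ n ^ (-η/2) → 0`.
-/

set_option autoImplicit false

namespace Pool.Agent.HC

open Finset
open scoped Classical

lemma w20_av0 {n : ℕ} (hn : 0 < n) (S : Finset (Fin n)) :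
    av (fun a : Fin n => if a ∉ S then (1 : ℝ) else 0) = 1 - (S.card : ℝ) / n := by
  have hn' : (n : ℝ) ≠ 0 := by exact_mod_cast hn.ne'
  have h1 : (∑ a : Fin n, (if a ∉ S then (1 : ℝ) else 0)) = (n : ℝ) - S.card := by
    have h2 : ∀ a : Fin n, (if a ∉ S then (1 : ℝ) else 0) = 1 - (if a ∈ S then (1 : ℝ) else 0) := by
      intro a
      by_cases h : a ∈ S <;> simp [h]
    rw [Finset.sum_congr rfl (fun a _ => h2 a), Finset.sum_sub_distrib]
    simp
  rw [av, h1, Fintype.card_fin]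
  field_simp

lemma w20_av1 {n : ℕ} (hn : 0 < n) (S : Finset (Fin n)) :
    av (fun b : Fin n × Fin n => if b.1 ∉ S ∧ b.2 ∉ S then (1 : ℝ) else 0) =
      (1 - (S.card : ℝ) / n) ^ 2 := by
  have h1 : ∀ b : Fin n × Fin n, (if b.1 ∉ S ∧ b.2 ∉ S then (1 : ℝ) else 0) =
      (if b.1 ∉ S then (1 : ℝ) else 0) * (if b.2 ∉ S then (1 : ℝ) else 0) := by
    intro b
    by_cases h : b.1 ∈ S <;> by_cases h' : b.2 ∈ S <;> simp [h, h']
  rw [av_congr h1]
  refine (av_prod _).trans ?_
  have h2 : ∀ a : Fin n, av (fun b : Fin n => (if a ∉ S then (1 : ℝ) else 0) *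
      (if b ∉ S then (1 : ℝ) else 0)) =
      (if a ∉ S then (1 : ℝ) else 0) * (1 - (S.card : ℝ) / n) := by
    intro a
    rw [← w20_av0 hn S]
    exact av_mul_left _ _
  refine (av_congr h2).trans ?_
  rw [av_mul_right, w20_av0 hn S]
  ring

/-- avoiding `S` -/
def w20Av {n M : ℕ} (S : Finset (Fin n)) (B : Fin M → Fin n × Fin n) : Prop :=
  ∀ t, (B t).1 ∉ S ∧ (B t).2 ∉ S

lemma w20_inst {Ω : Type*} (i j : Fintype Ω) (f : Ω → ℝ) : @av Ω i f = @av Ω j f := by
  rw [Subsingleton.elim i j]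

lemma w20_pr {n : ℕ} (hn : 0 < n) (M : ℕ) (S : Finset (Fin n)) :
    pr (fun B : Fin M → Fin n × Fin n => w20Av S B) = ((1 - (S.card : ℝ) / n) ^ 2) ^ M := by
  have h1 : ∀ B : Fin M → Fin n × Fin n, (if w20Av S B then (1 : ℝ) else 0) =
      ∏ t, (if (B t).1 ∉ S ∧ (B t).2 ∉ S then (1 : ℝ) else 0) := by
    intro B
    by_cases h : w20Av S B
    · rw [if_pos h]
      exact (Finset.prod_eq_one (fun t _ => if_pos (h t))).symm
    · rw [if_neg h]
      have h' : ∃ t, ¬ ((B t).1 ∉ S ∧ (B t).2 ∉ S) := not_forall.1 h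
      obtain ⟨t, ht⟩ := h'
      exact (Finset.prod_eq_zero (Finset.mem_univ t) (if_neg ht)).symm
  rw [pr, av_congr h1]
  have h2 := av_prod_fun (fun (_ : Fin M) (b : Fin n × Fin n) =>
    if b.1 ∉ S ∧ b.2 ∉ S then (1 : ℝ) else 0)
  have h3 : av (fun B : Fin M → Fin n × Fin n =>
      ∏ t, (if (B t).1 ∉ S ∧ (B t).2 ∉ S then (1 : ℝ) else 0)) =
      ∏ _t : Fin M, av (fun b : Fin n × Fin n =>
        if b.1 ∉ S ∧ b.2 ∉ S then (1 : ℝ) else 0) := by
    exact (w20_inst _ _ _).trans h2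
  rw [h3, Finset.prod_const, Finset.card_univ, Fintype.card_fin, w20_av1 hn]

lemma w20_deg {n M : ℕ} (B : Fin M → Fin n × Fin n) (v : Fin n) (h : w20Av {v} B) :
    deg (bedges B) v = 0 := by
  rw [deg, Finset.card_eq_zero, Finset.filter_eq_empty_iff]
  intro e he hv
  rw [bedges, Finset.mem_filter] at he
  obtain ⟨t, ht⟩ := he.2
  rw [← ht, Sym2.mem_iff] at hv
  have h1 := h t
  rw [Finset.mem_singleton, Finset.mem_singleton] at h1
  rcases hv with hv | hv
  · exact h1.1 hv.symm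
  · exact h1.2 hv.symm

theorem W20 {n : ℕ} (hn : 2 ≤ n) (M : ℕ) :
    pr (fun B : Fin M → Fin n × Fin n => ∀ v, deg (bedges B) v ≠ 0) ≤
      1 / ((n : ℝ) * (1 - 1 / (n : ℝ)) ^ (2 * M)) := by
  have hn0 : 0 < n := by omega
  have hnR : (2 : ℝ) ≤ n := by exact_mod_cast hn
  have hnpos : (0 : ℝ) < n := by linarith
  set q : ℝ := 1 - 1 / (n : ℝ) with hq
  have hq0 : 0 < q := by
    have : 1 / (n : ℝ) ≤ 1 / 2 := one_div_le_one_div_of_le (by norm_num) hnR
    linarith
  set p : ℝ := q ^ (2 * M) with hp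
  have hp0 : 0 < p := pow_pos hq0 _
  have hnp : 0 < (n : ℝ) * p := mul_pos hnpos hp0
  set X : (Fin M → Fin n × Fin n) → ℝ := fun B =>
    ∑ v : Fin n, (if w20Av {v} B then (1 : ℝ) else 0) with hX
  have h1 : av X = n * p := by
    rw [hX, av_sum]
    have h2 : ∀ v : Fin n, av (fun B : Fin M → Fin n × Fin n =>
        if w20Av {v} B then (1 : ℝ) else 0) = p := by
      intro v
      have h3 := w20_pr hn0 M {v}
      rw [pr] at h3
      rw [h3, Finset.card_singleton, Nat.cast_one, ← pow_mul]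
    rw [Finset.sum_congr rfl (fun v _ => h2 v)]
    simp
  have h2 : av (fun B => X B ^ 2) ≤ n * p + (n * p) ^ 2 := by
    have h3 : ∀ B, X B ^ 2 = ∑ v : Fin n, ∑ v' : Fin n,
        (if w20Av {v, v'} B then (1 : ℝ) else 0) := by
      intro B
      rw [hX, sq, Finset.sum_mul_sum]
      refine Finset.sum_congr rfl (fun v _ => Finset.sum_congr rfl (fun v' _ => ?_))
      have h4 : w20Av {v, v'} B ↔ w20Av {v} B ∧ w20Av {v'} B := by
        constructor
        · intro h
          refine ⟨fun t => ?_, fun t => ?_⟩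
          · have := h t
            simp only [Finset.mem_insert, Finset.mem_singleton, not_or] at this ⊢
            exact ⟨this.1.1, this.2.1⟩
          · have := h t
            simp only [Finset.mem_insert, Finset.mem_singleton, not_or] at this ⊢
            exact ⟨this.1.2, this.2.2⟩
        · rintro ⟨h, h'⟩ t
          have h5 := h t
          have h6 := h' t
          simp only [Finset.mem_insert, Finset.mem_singleton, not_or] at h5 h6 ⊢
          exact ⟨⟨h5.1, h6.1⟩, ⟨h5.2, h6.2⟩⟩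
      by_cases h5 : w20Av {v} B <;> by_cases h6 : w20Av {v'} B <;> simp [h4, h5, h6]
    rw [av_congr h3, av_sum]
    have h4 : ∀ v v' : Fin n, av (fun B : Fin M → Fin n × Fin n =>
        if w20Av {v, v'} B then (1 : ℝ) else 0) ≤ (if v = v' then p else 0) + p ^ 2 := by
      intro v v'
      have h5 := w20_pr hn0 M {v, v'}
      rw [pr] at h5
      rw [h5]
      by_cases hv : v = v'
      · subst hv
        rw [Finset.pair_eq_singleton, Finset.card_singleton, Nat.cast_one, ← pow_mul, if_pos rfl]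
        have : 0 ≤ p ^ 2 := sq_nonneg p
        linarith
      · rw [Finset.card_pair hv, if_neg hv, zero_add]
        have h6 : ((1 - ((2 : ℕ) : ℝ) / n) ^ 2) ≤ (q ^ 2) ^ 2 := by
          have h7 : 0 ≤ 1 - ((2 : ℕ) : ℝ) / n := by
            have : ((2 : ℕ) : ℝ) / n ≤ 1 := by
              rw [div_le_one hnpos]
              exact_mod_cast hn
            linarith
          have h8 : 1 - ((2 : ℕ) : ℝ) / n ≤ q ^ 2 := by
            rw [hq]
            have : (0 : ℝ) ≤ (1 / (n : ℝ)) ^ 2 := sq_nonneg _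
            push_cast
            have h9 : (2 : ℝ) / n = 2 * (1 / (n : ℝ)) := by ring
            rw [h9]
            nlinarith
          exact pow_le_pow_left₀ h7 h8 2
        calc ((1 - ((2 : ℕ) : ℝ) / n) ^ 2) ^ M ≤ ((q ^ 2) ^ 2) ^ M :=
              pow_le_pow_left₀ (sq_nonneg _) h6 M
          _ = p ^ 2 := by
            rw [hp, ← pow_mul, ← pow_mul, ← pow_mul]
            congr 1
            ring
    calc ∑ v : Fin n, av (fun B : Fin M → Fin n × Fin n => ∑ v' : Fin n,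
          (if w20Av {v, v'} B then (1 : ℝ) else 0))
        = ∑ v : Fin n, ∑ v' : Fin n, av (fun B : Fin M → Fin n × Fin n =>
          (if w20Av {v, v'} B then (1 : ℝ) else 0)) :=
          Finset.sum_congr rfl (fun v _ => av_sum _ _)
      _ ≤ ∑ v : Fin n, ∑ v' : Fin n, ((if v = v' then p else 0) + p ^ 2) :=
          Finset.sum_le_sum (fun v _ => Finset.sum_le_sum (fun v' _ => h4 v v'))
      _ = n * p + (n * p) ^ 2 := by
          simp only [Finset.sum_add_distrib, Finset.sum_ite_eq, Finset.mem_univ, if_true,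
            Finset.sum_const, Finset.card_univ, Fintype.card_fin, nsmul_eq_mul]
          ring
  have h3 : pr (fun B : Fin M → Fin n × Fin n => ∀ v, deg (bedges B) v ≠ 0) ≤
      av (fun B => (X B ^ 2 - 2 * (n * p) * X B + (n * p) ^ 2) / (n * p) ^ 2) := by
    rw [pr]
    refine av_mono fun B => ?_
    have hsq : (X B ^ 2 - 2 * (n * p) * X B + (n * p) ^ 2) = (X B - n * p) ^ 2 := by ring
    split_ifs with h
    · have hX0 : X B = 0 := by
        rw [hX]
        refine Finset.sum_eq_zero (fun v _ => ?_)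
        rw [if_neg]
        intro hv
        exact h v (w20_deg B v hv)
      rw [hX0]
      have : (0 : ℝ) ^ 2 - 2 * (n * p) * 0 + (n * p) ^ 2 = (n * p) ^ 2 := by ring
      rw [this, div_self (pow_ne_zero 2 hnp.ne')]
    · rw [hsq]
      positivity
  have : Nonempty (Fin M → Fin n × Fin n) := ⟨fun _ => (⟨0, hn0⟩, ⟨0, hn0⟩)⟩
  refine h3.trans ?_
  rw [av_div, av_add, av_sub, av_mul_left, av_const, h1]
  rw [div_le_div_iff₀ (by positivity) hnp]
  nlinarith

theorem W20b (γ η ε : ℝ) (hγ : 0 < γ) (hη : 0 < η) (hη' : η ≤ 1 / 100) (hε : 0 < ε) :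
    ∃ n₀ : ℕ, ∀ n ≥ n₀,
      pr (fun B : Fin (aW γ n + mW η n) → Fin n × Fin n => ∀ v, deg (bedges B) v ≠ 0) ≤ ε := by
  obtain ⟨n₁, hn₁⟩ := exists_nat_ge (Real.exp ((10 - Real.log ε) / η))
  refine ⟨max 2 n₁, fun n hn => ?_⟩
  have hn2 : 2 ≤ n := le_trans (le_max_left _ _) hn
  have hnn : n₁ ≤ n := le_trans (le_max_right _ _) hn
  refine (W20 hn2 _).trans ?_
  have hnR : (2 : ℝ) ≤ n := by exact_mod_cast hn2
  have hnpos : (0 : ℝ) < n := by linarith
  have hn1 : (0 : ℝ) < n - 1 := by linarith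
  have hlog : (10 - Real.log ε) / η ≤ Real.log n := by
    rw [Real.le_log_iff_exp_le hnpos]
    exact hn₁.trans (by exact_mod_cast hnn)
  have hlog0 : 0 ≤ Real.log n := Real.log_nonneg (by linarith)
  have hlogn : Real.log n ≤ n := by
    have := Real.log_le_sub_one_of_pos hnpos
    linarith
  have h10 : 10 - Real.log ε ≤ η * Real.log n := by
    rw [div_le_iff₀ hη] at hlog
    linarith
  set M : ℕ := aW γ n + mW η n with hM
  have ha : (aW γ n : ℝ) ≤ n + 1 := by
    rw [aW]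
    have h1 := Nat.ceil_lt_add_one (Real.rpow_nonneg hnpos.le (1 - γ))
    have h2 : (n : ℝ) ^ (1 - γ) ≤ (n : ℝ) ^ (1 : ℝ) :=
      Real.rpow_le_rpow_of_exponent_le (by linarith) (by linarith)
    rw [Real.rpow_one] at h2
    linarith
  have hm : (mW η n : ℝ) ≤ (1 - η) / 2 * n * Real.log n := by
    rw [mW]
    apply Nat.floor_le
    have : 0 ≤ 1 - η := by linarith
    positivity
  have hM2 : 2 * (M : ℝ) ≤ 4 * n + (1 - η) * n * Real.log n := by
    rw [hM]
    push_cast
    linarith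
  have hq0 : 0 < 1 - 1 / (n : ℝ) := by
    have : 1 / (n : ℝ) ≤ 1 / 2 := one_div_le_one_div_of_le (by norm_num) hnR
    linarith
  have hlq : -(1 / ((n : ℝ) - 1)) ≤ Real.log (1 - 1 / (n : ℝ)) := by
    have h1 := Real.one_sub_inv_le_log_of_pos hq0
    have h2 : 1 - (1 - 1 / (n : ℝ))⁻¹ = -(1 / ((n : ℝ) - 1)) := by
      have : (1 : ℝ) - 1 / n = (n - 1) / n := by field_simp
      rw [this, inv_div]
      field_simp
      ring
    rwa [h2] at h1
  have hkey : -Real.log ε ≤ Real.log n + 2 * M * Real.log (1 - 1 / (n : ℝ)) := by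
    have h1 : 2 * (M : ℝ) * Real.log (1 - 1 / (n : ℝ)) ≥ -(2 * (M : ℝ) / ((n : ℝ) - 1)) := by
      have h2 : 2 * (M : ℝ) * (-(1 / ((n : ℝ) - 1))) ≤ 2 * M * Real.log (1 - 1 / (n : ℝ)) :=
        mul_le_mul_of_nonneg_left hlq (by positivity)
      have h3 : 2 * (M : ℝ) * (-(1 / ((n : ℝ) - 1))) = -(2 * (M : ℝ) / ((n : ℝ) - 1)) := by ring
      linarith
    have h4 : 2 * (M : ℝ) / ((n : ℝ) - 1) ≤ (1 - η) * Real.log n + 10 := by
      rw [div_le_iff₀ hn1]
      have h5 : 0 ≤ η * Real.log n := by positivity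
      nlinarith
    linarith
  have hpos : 0 < (n : ℝ) * (1 - 1 / (n : ℝ)) ^ (2 * M) := mul_pos hnpos (pow_pos hq0 _)
  rw [div_le_iff₀ hpos, ← Real.log_le_log_iff one_pos (mul_pos hε hpos), Real.log_one,
    Real.log_mul hε.ne' hpos.ne', Real.log_mul hnpos.ne' (pow_pos hq0 _).ne', Real.log_pow]
  push_cast
  linarith

end Pool.Agent.HC
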