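import Pool.Agent.Lib.MP_ec42c8_pr.W05
import Pool.Agent.Lib.MP_ec42c8_pr.W11
import Pool.Agent.Lib.MP_ec42c8_pr.W12c

/-!
# WT1 : the window is good with high probability

PROOF.  Let `m = mW η n`, `q = qW η n`, `r = rW η n`, `l = lW η n`, `r' = ⌊n ^ (1/2 + 3 η)⌋`,
`θ = log (1 / η)`, so `exp (-θ) = η`.  For large `n`: `2 k ≤ q`, `d + 1 ≤ n`, `4 ≤ n`.  By `W12c`
the complement of `GoodW` is contained in `YBad ∪ VBad`.  `W05` bounds the first, `W11` the second
(for fixed `u, w` outside `YBad`; `W03b` for the cardinalities of `tm`).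
ESTIMATES.  `log (1/η) ≤ 1/η`, so `θ q ≤ θ + η log n`.
Further `m / n ≥ (1-η)/2 · log n - 1`, `m ≤ n log n`.
Hence all terms are at most `C (log n)³ n ^ (-η²/2)`.
-/

set_option autoImplicit false

namespace Pool.Agent.HC

open Finset
open scoped Classical

/-- analytic part: all error terms -/
lemma wt1_est (η : ℝ) (hη : 0 < η) (hη' : η ≤ 1 / 100) (θ D kk : ℝ) (hθ : 0 ≤ θ)
    (hθη : θ * η ^ 2 ≤ η) (hD : 0 ≤ D) (hk : 0 ≤ kk)
    (X Lg m r l r' q : ℝ) (hX : X = Real.exp Lg) (hLg : 1 ≤ Lg)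
    (hm0 : 0 ≤ m) (hm1 : m ≤ X * Lg) (hm2 : (1 - η) / 2 * X * Lg - 1 ≤ m)
    (hr0 : 0 ≤ r) (hr1 : r ≤ Real.exp ((1 / 2 + 2 * η) * Lg))
    (hr2 : Real.exp ((1 / 2 + 2 * η) * Lg) ≤ r + 1)
    (hl0 : 0 ≤ l) (hl1 : l ≤ Real.exp (4 * η * Lg)) (hl2 : Real.exp (4 * η * Lg) ≤ l + 1)
    (hr'0 : 0 ≤ r') (hr'1 : r' ≤ Real.exp ((1 / 2 + 3 * η) * Lg))
    (hr'2 : Real.exp ((1 / 2 + 3 * η) * Lg) ≤ r' + 1)
    (hq1 : q ≤ η ^ 2 * Lg + 1) :
    (X * Real.exp (θ * kk - (1 - η) * m / X) / (r + 1) +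
      (r / (l + 1) + (m + m ^ 2 / X) * (r / X) ^ 2) *
        Real.exp (θ * q - (1 - η) * (m - kk * X - 2) / X) +
      m * r / (X * (r' + 1)) +
      (m + 3 * m ^ 2 / X + m ^ 3 / X ^ 2) * (r / X) ^ 3 +
      (m + m ^ 2 / X) * r / X ^ 2) + D * l * (r + r' + l) / X ≤
    (Real.exp (θ * kk + 1) + 3 * Real.exp (θ + kk + 3) + 8 + 3 * D) *
      (Lg ^ 3 * Real.exp (-(η ^ 2 / 2) * Lg)) := by
  have hX0 : 0 < X := hX ▸ Real.exp_pos _
  have hLg0 : 0 < Lg := by linarith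
  have hX1 : 1 ≤ X := by rw [hX]; exact Real.one_le_exp hLg0.le
  set s : ℝ := η ^ 2 / 2 with hs
  have hη2 : η ^ 2 ≤ η / 100 := by nlinarith
  have hs0 : 0 < s := by positivity
  have hL2 : 1 ≤ Lg ^ 2 := one_le_pow₀ hLg
  have hL3 : 1 ≤ Lg ^ 3 := one_le_pow₀ hLg
  have hL23 : Lg ^ 2 ≤ Lg ^ 3 := pow_le_pow_right₀ hLg (by norm_num)
  have hL13 : Lg ≤ Lg ^ 3 := by
    calc Lg = Lg ^ 1 := (pow_one _).symm
      _ ≤ Lg ^ 3 := pow_le_pow_right₀ hLg (by norm_num)
  have hE : 0 < Real.exp (-s * Lg) := Real.exp_pos _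
  -- the exponent of m
  have hmX : (1 - η) ^ 2 / 2 * Lg - 1 ≤ (1 - η) * m / X := by
    rw [le_div_iff₀ hX0]
    have h1 : (1 - η) * ((1 - η) / 2 * X * Lg - 1) ≤ (1 - η) * m :=
      mul_le_mul_of_nonneg_left hm2 (by linarith)
    nlinarith
  -- m + m^2/X
  have hm2X : m + m ^ 2 / X ≤ 2 * X * Lg ^ 2 := by
    have h1 : m ^ 2 / X ≤ X * Lg ^ 2 := by
      rw [div_le_iff₀ hX0]
      calc m ^ 2 ≤ (X * Lg) ^ 2 := pow_le_pow_left₀ hm0 hm1 2
        _ = X * Lg ^ 2 * X := by ring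
    have h2 : X * Lg ≤ X * Lg ^ 2 := by
      apply mul_le_mul_of_nonneg_left _ hX0.le
      nlinarith
    linarith
  have hm3X : m + 3 * m ^ 2 / X + m ^ 3 / X ^ 2 ≤ 5 * X * Lg ^ 3 := by
    have h1 : m ^ 2 / X ≤ X * Lg ^ 2 := by
      rw [div_le_iff₀ hX0]
      calc m ^ 2 ≤ (X * Lg) ^ 2 := pow_le_pow_left₀ hm0 hm1 2
        _ = X * Lg ^ 2 * X := by ring
    have h1' : 3 * m ^ 2 / X = 3 * (m ^ 2 / X) := by ring
    have h2 : m ^ 3 / X ^ 2 ≤ X * Lg ^ 3 := by
      rw [div_le_iff₀ (by positivity)]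
      calc m ^ 3 ≤ (X * Lg) ^ 3 := pow_le_pow_left₀ hm0 hm1 3
        _ = X * Lg ^ 3 * X ^ 2 := by ring
    have h3 : X * Lg ≤ X * Lg ^ 3 := mul_le_mul_of_nonneg_left hL13 hX0.le
    have h4 : X * Lg ^ 2 ≤ X * Lg ^ 3 := mul_le_mul_of_nonneg_left hL23 hX0.le
    rw [h1']
    linarith
  have hrX : r / X ≤ Real.exp ((-(1 / 2) + 2 * η) * Lg) := by
    rw [div_le_iff₀ hX0]
    refine hr1.trans (le_of_eq ?_)
    rw [hX, ← Real.exp_add]
    congr 1; ring
  have hrX0 : 0 ≤ r / X := div_nonneg hr0 hX0.le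
  -- tau
  have hτ : Real.exp (θ * q - (1 - η) * (m - kk * X - 2) / X) ≤
      Real.exp (θ + kk + 3) * Real.exp ((η - (1 - η) ^ 2 / 2) * Lg) := by
    rw [← Real.exp_add]
    apply Real.exp_le_exp.2
    have h1 : θ * q ≤ η * Lg + θ := by
      calc θ * q ≤ θ * (η ^ 2 * Lg + 1) := mul_le_mul_of_nonneg_left hq1 hθ
        _ = θ * η ^ 2 * Lg + θ := by ring
        _ ≤ η * Lg + θ := by
          have := mul_le_mul_of_nonneg_right hθη hLg0.le
          linarith
    have h2 : (1 - η) * (m - kk * X - 2) / X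
        = (1 - η) * m / X - (1 - η) * kk - 2 * (1 - η) / X := by
      field_simp
    have h3 : 2 * (1 - η) / X ≤ 2 := by
      rw [div_le_iff₀ hX0]; nlinarith
    have h4 : (1 - η) * kk ≤ kk := by nlinarith
    rw [h2]
    linarith
  -- T1
  have T1 : X * Real.exp (θ * kk - (1 - η) * m / X) / (r + 1) ≤
      Real.exp (θ * kk + 1) * (Lg ^ 3 * Real.exp (-s * Lg)) := by
    have h1 : Real.exp (θ * kk - (1 - η) * m / X)
        ≤ Real.exp (θ * kk + 1 - (1 - η) ^ 2 / 2 * Lg) :=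
      Real.exp_le_exp.2 (by linarith)
    rw [div_le_iff₀ (by linarith)]
    calc X * Real.exp (θ * kk - (1 - η) * m / X)
        ≤ X * Real.exp (θ * kk + 1 - (1 - η) ^ 2 / 2 * Lg) :=
          mul_le_mul_of_nonneg_left h1 hX0.le
      _ = Real.exp (Lg + (θ * kk + 1 - (1 - η) ^ 2 / 2 * Lg)) := by rw [hX, ← Real.exp_add]
      _ ≤ Real.exp (θ * kk + 1 + -s * Lg + (1 / 2 + 2 * η) * Lg) := by
          apply Real.exp_le_exp.2
          rw [hs]
          nlinarith [mul_pos hη hLg0, mul_pos (mul_pos hη hη) hLg0]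
      _ = Real.exp (θ * kk + 1) * (1 * Real.exp (-s * Lg)) * Real.exp ((1 / 2 + 2 * η) * Lg) := by
          rw [Real.exp_add, Real.exp_add]; ring
      _ ≤ Real.exp (θ * kk + 1) * (Lg ^ 3 * Real.exp (-s * Lg)) * (r + 1) := by
          apply mul_le_mul _ hr2 (Real.exp_pos _).le (by positivity)
          apply mul_le_mul_of_nonneg_left _ (Real.exp_pos _).le
          exact mul_le_mul_of_nonneg_right hL3 hE.le
  -- T2a
  have T2a : r / (l + 1) * Real.exp (θ * q - (1 - η) * (m - kk * X - 2) / X) ≤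
      Real.exp (θ + kk + 3) * (Lg ^ 3 * Real.exp (-s * Lg)) := by
    have h1 : r / (l + 1) ≤ Real.exp ((1 / 2 - 2 * η) * Lg) := by
      rw [div_le_iff₀ (by linarith)]
      calc r ≤ Real.exp ((1 / 2 + 2 * η) * Lg) := hr1
        _ = Real.exp ((1 / 2 - 2 * η) * Lg) * Real.exp (4 * η * Lg) := by
            rw [← Real.exp_add]; congr 1; ring
        _ ≤ _ := mul_le_mul_of_nonneg_left hl2 (Real.exp_pos _).le
    calc r / (l + 1) * Real.exp (θ * q - (1 - η) * (m - kk * X - 2) / X)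
        ≤ Real.exp ((1 / 2 - 2 * η) * Lg) *
          (Real.exp (θ + kk + 3) * Real.exp ((η - (1 - η) ^ 2 / 2) * Lg)) :=
          mul_le_mul h1 hτ (Real.exp_pos _).le (Real.exp_pos _).le
      _ = Real.exp (θ + kk + 3) * (1 * Real.exp (-s * Lg)) := by
          rw [mul_left_comm, ← Real.exp_add, one_mul]
          congr 2
          rw [hs]; ring
      _ ≤ _ := by
          apply mul_le_mul_of_nonneg_left _ (Real.exp_pos _).le
          exact mul_le_mul_of_nonneg_right hL3 hE.le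
  -- T2b
  have T2b : (m + m ^ 2 / X) * (r / X) ^ 2 *
      Real.exp (θ * q - (1 - η) * (m - kk * X - 2) / X) ≤
      2 * Real.exp (θ + kk + 3) * (Lg ^ 3 * Real.exp (-s * Lg)) := by
    have h1 : (r / X) ^ 2 ≤ Real.exp ((-1 + 4 * η) * Lg) := by
      calc (r / X) ^ 2 ≤ Real.exp ((-(1 / 2) + 2 * η) * Lg) ^ 2 := pow_le_pow_left₀ hrX0 hrX 2
        _ = _ := by rw [← Real.exp_nat_mul]; congr 1; push_cast; ring
    have h2 : (m + m ^ 2 / X) * (r / X) ^ 2
        ≤ 2 * X * Lg ^ 2 * Real.exp ((-1 + 4 * η) * Lg) :=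
      mul_le_mul hm2X h1 (by positivity) (by positivity)
    calc (m + m ^ 2 / X) * (r / X) ^ 2 * Real.exp (θ * q - (1 - η) * (m - kk * X - 2) / X)
        ≤ (2 * X * Lg ^ 2 * Real.exp ((-1 + 4 * η) * Lg)) *
          (Real.exp (θ + kk + 3) * Real.exp ((η - (1 - η) ^ 2 / 2) * Lg)) :=
          mul_le_mul h2 hτ (Real.exp_pos _).le (by positivity)
      _ = 2 * Real.exp (θ + kk + 3) * (Lg ^ 2 *
          Real.exp (Lg + (-1 + 4 * η) * Lg + (η - (1 - η) ^ 2 / 2) * Lg)) := by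
          have e1 : Real.exp (Lg + (-1 + 4 * η) * Lg + (η - (1 - η) ^ 2 / 2) * Lg)
              = Real.exp Lg * Real.exp ((-1 + 4 * η) * Lg) *
                Real.exp ((η - (1 - η) ^ 2 / 2) * Lg) := by
            rw [Real.exp_add, Real.exp_add]
          rw [e1, hX]; ring
      _ ≤ 2 * Real.exp (θ + kk + 3) * (Lg ^ 3 * Real.exp (-s * Lg)) := by
          apply mul_le_mul_of_nonneg_left _ (by positivity)
          apply mul_le_mul hL23 _ (Real.exp_pos _).le (by positivity)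
          apply Real.exp_le_exp.2
          rw [hs]
          nlinarith [mul_pos hη hLg0, mul_pos (mul_pos hη hη) hLg0]
  -- T3
  have T3 : m * r / (X * (r' + 1)) ≤ 1 * (Lg ^ 3 * Real.exp (-s * Lg)) := by
    rw [div_le_iff₀ (by positivity)]
    calc m * r ≤ (X * Lg) * Real.exp ((1 / 2 + 2 * η) * Lg) :=
          mul_le_mul hm1 hr1 hr0 (by positivity)
      _ ≤ (X * Lg ^ 3) * (Real.exp (-s * Lg) * Real.exp ((1 / 2 + 3 * η) * Lg)) := by
          apply mul_le_mul (mul_le_mul_of_nonneg_left hL13 hX0.le) _ (Real.exp_pos _).le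
            (by positivity)
          rw [← Real.exp_add]
          apply Real.exp_le_exp.2
          rw [hs]
          nlinarith [mul_pos hη hLg0, mul_pos (mul_pos hη hη) hLg0]
      _ ≤ (X * Lg ^ 3) * (Real.exp (-s * Lg) * (r' + 1)) := by
          apply mul_le_mul_of_nonneg_left _ (by positivity)
          exact mul_le_mul_of_nonneg_left hr'2 hE.le
      _ = 1 * (Lg ^ 3 * Real.exp (-s * Lg)) * (X * (r' + 1)) := by ring
  -- T4
  have T4 : (m + 3 * m ^ 2 / X + m ^ 3 / X ^ 2) * (r / X) ^ 3 ≤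
      5 * (Lg ^ 3 * Real.exp (-s * Lg)) := by
    have h1 : (r / X) ^ 3 ≤ Real.exp ((-(3 / 2) + 6 * η) * Lg) := by
      calc (r / X) ^ 3 ≤ Real.exp ((-(1 / 2) + 2 * η) * Lg) ^ 3 := pow_le_pow_left₀ hrX0 hrX 3
        _ = _ := by rw [← Real.exp_nat_mul]; congr 1; push_cast; ring
    calc (m + 3 * m ^ 2 / X + m ^ 3 / X ^ 2) * (r / X) ^ 3
        ≤ (5 * X * Lg ^ 3) * Real.exp ((-(3 / 2) + 6 * η) * Lg) :=
          mul_le_mul hm3X h1 (by positivity) (by positivity)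
      _ = 5 * (Lg ^ 3 * Real.exp (Lg + (-(3 / 2) + 6 * η) * Lg)) := by
          rw [Real.exp_add, hX]; ring
      _ ≤ _ := by
          apply mul_le_mul_of_nonneg_left _ (by norm_num)
          apply mul_le_mul_of_nonneg_left _ (by positivity)
          apply Real.exp_le_exp.2
          rw [hs]
          nlinarith [mul_pos hη hLg0, mul_pos (mul_pos hη hη) hLg0]
  -- T5
  have T5 : (m + m ^ 2 / X) * r / X ^ 2 ≤ 2 * (Lg ^ 3 * Real.exp (-s * Lg)) := by
    rw [div_le_iff₀ (by positivity)]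
    calc (m + m ^ 2 / X) * r ≤ (2 * X * Lg ^ 2) * Real.exp ((1 / 2 + 2 * η) * Lg) :=
          mul_le_mul hm2X hr1 hr0 (by positivity)
      _ ≤ (2 * X * Lg ^ 3) * (Real.exp (-s * Lg) * Real.exp Lg) := by
          apply mul_le_mul (mul_le_mul_of_nonneg_left hL23 (by positivity)) _
            (Real.exp_pos _).le (by positivity)
          rw [← Real.exp_add]
          apply Real.exp_le_exp.2
          rw [hs]
          nlinarith [mul_pos hη hLg0, mul_pos (mul_pos hη hη) hLg0]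
      _ = 2 * (Lg ^ 3 * Real.exp (-s * Lg)) * X ^ 2 := by rw [← hX]; ring
  -- T6
  have T6 : D * l * (r + r' + l) / X ≤ 3 * D * (Lg ^ 3 * Real.exp (-s * Lg)) := by
    have h1 : r + r' + l ≤ 3 * Real.exp ((1 / 2 + 3 * η) * Lg) := by
      have e1 : Real.exp ((1 / 2 + 2 * η) * Lg) ≤ Real.exp ((1 / 2 + 3 * η) * Lg) :=
        Real.exp_le_exp.2 (by nlinarith)
      have e2 : Real.exp (4 * η * Lg) ≤ Real.exp ((1 / 2 + 3 * η) * Lg) :=
        Real.exp_le_exp.2 (by nlinarith)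
      linarith
    rw [div_le_iff₀ hX0]
    calc D * l * (r + r' + l)
        ≤ D * Real.exp (4 * η * Lg) * (3 * Real.exp ((1 / 2 + 3 * η) * Lg)) :=
          mul_le_mul (mul_le_mul_of_nonneg_left hl1 hD) h1 (by positivity) (by positivity)
      _ = 3 * D * (1 * Real.exp (4 * η * Lg + (1 / 2 + 3 * η) * Lg)) := by
          rw [Real.exp_add]; ring
      _ ≤ 3 * D * (Lg ^ 3 * Real.exp (-s * Lg + Lg)) := by
          apply mul_le_mul_of_nonneg_left _ (by positivity)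
          apply mul_le_mul hL3 _ (Real.exp_pos _).le (by positivity)
          apply Real.exp_le_exp.2
          rw [hs]
          nlinarith [mul_pos hη hLg0, mul_pos (mul_pos hη hη) hLg0]
      _ = 3 * D * (Lg ^ 3 * Real.exp (-s * Lg)) * X := by rw [Real.exp_add, ← hX]; ring
  have e : (r / (l + 1) + (m + m ^ 2 / X) * (r / X) ^ 2) *
        Real.exp (θ * q - (1 - η) * (m - kk * X - 2) / X)
      = r / (l + 1) * Real.exp (θ * q - (1 - η) * (m - kk * X - 2) / X)
        + (m + m ^ 2 / X) * (r / X) ^ 2 *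
          Real.exp (θ * q - (1 - η) * (m - kk * X - 2) / X) := by ring
  rw [e]
  have hfin : (Real.exp (θ * kk + 1) + 3 * Real.exp (θ + kk + 3) + 8 + 3 * D) *
      (Lg ^ 3 * Real.exp (-s * Lg))
      = Real.exp (θ * kk + 1) * (Lg ^ 3 * Real.exp (-s * Lg))
        + Real.exp (θ + kk + 3) * (Lg ^ 3 * Real.exp (-s * Lg))
        + 2 * Real.exp (θ + kk + 3) * (Lg ^ 3 * Real.exp (-s * Lg))
        + 1 * (Lg ^ 3 * Real.exp (-s * Lg)) + 5 * (Lg ^ 3 * Real.exp (-s * Lg))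
        + 2 * (Lg ^ 3 * Real.exp (-s * Lg)) + 3 * D * (Lg ^ 3 * Real.exp (-s * Lg)) := by ring
  rw [hfin]
  linarith

/-- combinatorial part -/
lemma wt1_comb {n : ℕ} (hn : 4 ≤ n) (d k : ℕ) (hd : 1 ≤ d) (hdn : d + 1 ≤ n) (m q r l r' : ℕ)
    (hq : 2 * k ≤ q) :
    pr (fun ω : WΩ n k m => ¬ GoodW d q r l ω.1 ω.2.1 ω.2.2.1 ω.2.2.2.1 ω.2.2.2.2) ≤
      av (fun u : Fin m → Fin n => pr (fun w : Fin m → Fin n => YBad k q r l r' u w)) +
      24 * (d : ℝ) ^ 2 * ((k : ℝ) + 2) ^ 2 * l * (r + r' + l) / n := by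
  have hn1 : 1 ≤ n := by omega
  have hne : Nonempty (Fin n) := ⟨⟨0, by omega⟩⟩
  set V : ℝ := 24 * (d : ℝ) ^ 2 * ((k : ℝ) + 2) ^ 2 * l * (r + r' + l) / n with hV
  have hV0 : 0 ≤ V := by positivity
  have hsplit : pr (fun ω : WΩ n k m =>
      ¬ GoodW d q r l ω.1 ω.2.1 ω.2.2.1 ω.2.2.2.1 ω.2.2.2.2)
      = av (fun u : Fin m → Fin n => av (fun w : Fin m → Fin n =>
        av (fun y : Fin m → Fin n => av (fun h : Fin n → Fin (k + 2) → Fin n =>
          pr (fun ρ : Edge n ≃ Fin (NE n) => ¬ GoodW d q r l u w y h ρ))))) := by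
    unfold pr
    rw [av_prod]
    refine av_congr fun u => ?_
    rw [av_prod]
    refine av_congr fun w => ?_
    rw [av_prod]
    refine av_congr fun y => ?_
    rw [av_prod]
  rw [hsplit]
  have hone : ∀ u w : Fin m → Fin n, av (fun y : Fin m → Fin n =>
      av (fun h : Fin n → Fin (k + 2) → Fin n =>
        pr (fun ρ : Edge n ≃ Fin (NE n) => ¬ GoodW d q r l u w y h ρ))) ≤
      (if YBad k q r l r' u w then (1 : ℝ) else 0) + V := by
    intro u w
    by_cases hY : YBad k q r l r' u w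
    · rw [if_pos hY]
      have : av (fun y : Fin m → Fin n => av (fun h : Fin n → Fin (k + 2) → Fin n =>
          pr (fun ρ : Edge n ≃ Fin (NE n) => ¬ GoodW d q r l u w y h ρ))) ≤ 1 :=
        av_le_of_nonneg zero_le_one fun y => av_le_of_nonneg zero_le_one fun h => pr_le_one _
      linarith
    · rw [if_neg hY, zero_add]
      have hY' := hY
      unfold YBad at hY'
      push Not at hY'
      obtain ⟨hZ, hL, hN, _⟩ := hY'
      have hLZ : Ls k q u w ⊆ Zs k u := Finset.filter_subset _ _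
      refine le_trans ?_ (W11 hn d k m hd (Ls k q u w) (Zs k u) (NZ k u w)
        (tm u (Ls k q u w)) (tm u (Zs k u)) l r r' hL hZ hN
        ((W03b k u _ hLZ).trans (Nat.mul_le_mul_left _ hL))
        ((W03b k u _ (Finset.Subset.refl _)).trans (Nat.mul_le_mul_left _ hZ)))
      refine av_mono fun y => av_mono fun h => pr_mono fun ρ hG => ?_
      by_contra hVB
      exact hG (W12c d q r l r' u w y h ρ hdn hq hY hVB)
  calc av (fun u : Fin m → Fin n => av (fun w : Fin m → Fin n =>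
        av (fun y : Fin m → Fin n => av (fun h : Fin n → Fin (k + 2) → Fin n =>
          pr (fun ρ : Edge n ≃ Fin (NE n) => ¬ GoodW d q r l u w y h ρ)))))
      ≤ av (fun u : Fin m → Fin n => av (fun w : Fin m → Fin n =>
        (if YBad k q r l r' u w then (1 : ℝ) else 0) + V)) :=
        av_mono fun u => av_mono fun w => hone u w
    _ = av (fun u : Fin m → Fin n => pr (fun w : Fin m → Fin n => YBad k q r l r' u w) + V) := by
        refine av_congr fun u => ?_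
        rw [av_add, av_const]
        rfl
    _ = _ := by rw [av_add, av_const]

theorem WT1 (d k : ℕ) (hd : 1 ≤ d) (η : ℝ) (hη : 0 < η) (hη' : η ≤ 1 / 100) (ε : ℝ)
    (hε : 0 < ε) : ∃ n₀ : ℕ, ∀ n ≥ n₀,
      pr (fun ω : WΩ n k (mW η n) =>
        ¬ GoodW d (qW η n) (rW η n) (lW η n) ω.1 ω.2.1 ω.2.2.1 ω.2.2.2.1 ω.2.2.2.2) ≤ ε := by
  set θ : ℝ := -Real.log η with hθdef
  have hθ : 0 ≤ θ := by
    rw [hθdef]
    have := Real.log_nonpos hη.le (by linarith)
    linarith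
  have hexp : Real.exp (-θ) = η := by
    rw [hθdef, neg_neg, Real.exp_log hη]
  have hθη : θ * η ^ 2 ≤ η := by
    have h1 : θ ≤ 1 / η := by
      have h2 := Real.log_le_sub_one_of_pos (x := η⁻¹) (by positivity)
      rw [Real.log_inv] at h2
      rw [hθdef, one_div]
      linarith
    calc θ * η ^ 2 ≤ 1 / η * η ^ 2 := mul_le_mul_of_nonneg_right h1 (by positivity)
      _ = η := by field_simp
  set D : ℝ := 24 * (d : ℝ) ^ 2 * ((k : ℝ) + 2) ^ 2 with hD
  set C : ℝ := Real.exp (θ * ((k : ℝ) + 2) + 1) + 3 * Real.exp (θ + ((k : ℝ) + 2) + 3) + 8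
    + 3 * D with hC
  have hC0 : 0 < C := by positivity
  set s : ℝ := η ^ 2 / 2 with hs
  have hs0 : 0 < s := by positivity
  -- limit of the bound
  have hlog : Filter.Tendsto (fun n : ℕ => Real.log (n : ℝ)) Filter.atTop Filter.atTop :=
    Real.tendsto_log_atTop.comp tendsto_natCast_atTop_atTop
  have hlim : Filter.Tendsto (fun n : ℕ =>
      C * (Real.log (n : ℝ) ^ 3 * Real.exp (-s * Real.log (n : ℝ)))) Filter.atTop (nhds 0) := by
    have h1 := Real.tendsto_pow_mul_exp_neg_atTop_nhds_zero 3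
    have h2 : Filter.Tendsto (fun n : ℕ => s * Real.log (n : ℝ)) Filter.atTop Filter.atTop :=
      hlog.const_mul_atTop hs0
    have h3 := (h1.comp h2).const_mul (C / s ^ 3)
    rw [mul_zero] at h3
    refine h3.congr fun n => ?_
    simp only [Function.comp]
    rw [mul_pow, neg_mul]
    field_simp
  have hev := hlim.eventually_le_const hε
  have hev2 := hlog.eventually_ge_atTop 1
  have hev3 := hlog.eventually_ge_atTop (2 * k / η ^ 2)
  obtain ⟨n₀, hn₀⟩ := Filter.eventually_atTop.1 (hev.and (hev2.and hev3))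
  refine ⟨max n₀ (max 4 (d + 1)), fun n hn => ?_⟩
  have hnn : n₀ ≤ n := le_trans (le_max_left _ _) hn
  have hn4 : 4 ≤ n := le_trans (le_trans (le_max_left _ _) (le_max_right _ _)) hn
  have hnd : d + 1 ≤ n := le_trans (le_trans (le_max_right _ _) (le_max_right _ _)) hn
  obtain ⟨e1, e2, e3⟩ := hn₀ n hnn
  have hnpos : (0 : ℝ) < n := by exact_mod_cast (by omega : 0 < n)
  set Lg : ℝ := Real.log (n : ℝ) with hLg
  have hX : (n : ℝ) = Real.exp Lg := (Real.exp_log hnpos).symm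
  have hpow : ∀ a : ℝ, (n : ℝ) ^ a = Real.exp (a * Lg) := fun a => by
    rw [Real.rpow_def_of_pos hnpos, mul_comm]
  have hq2k : 2 * k ≤ qW η n := by
    unfold qW
    have h1 : (2 * k : ℝ) ≤ η ^ 2 * Lg := by
      rw [div_le_iff₀ (by positivity)] at e3
      linarith
    have h2 := Nat.le_ceil (η ^ 2 * Lg)
    have h3 : ((2 * k : ℕ) : ℝ) ≤ (⌈η ^ 2 * Lg⌉₊ : ℝ) := by push_cast; linarith
    exact_mod_cast h3
  set r' : ℕ := ⌊(n : ℝ) ^ (1 / 2 + 3 * η)⌋₊ with hr'
  have hcomb := wt1_comb hn4 d k hd hnd (mW η n) (qW η n) (rW η n) (lW η n) r' hq2k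
  have hW05 := W05 (by omega : 1 ≤ n) k (qW η n) (rW η n) (lW η n) r' (mW η n) θ hθ
  rw [hexp] at hW05
  refine hcomb.trans ((add_le_add hW05 le_rfl).trans ?_)
  refine le_trans ?_ e1
  have hm0 : (0 : ℝ) ≤ (1 - η) / 2 * n * Lg := by
    have : 0 ≤ 1 - η := by linarith
    positivity
  have key := wt1_est η hη hη' θ D ((k : ℝ) + 2) hθ hθη (by positivity) (by positivity)
    (n : ℝ) Lg (mW η n) (rW η n) (lW η n) r' (qW η n) hX e2 (Nat.cast_nonneg _)
    (by
      have h1 : (mW η n : ℝ) ≤ (1 - η) / 2 * n * Lg := Nat.floor_le hm0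
      refine h1.trans ?_
      have : (0 : ℝ) ≤ n * Lg := by positivity
      nlinarith)
    (by
      have h1 : (1 - η) / 2 * n * Lg < (mW η n : ℝ) + 1 := Nat.lt_floor_add_one _
      linarith)
    (Nat.cast_nonneg _)
    (by
      rw [← hpow]; exact Nat.floor_le (by positivity))
    (by
      rw [← hpow]; exact (Nat.lt_floor_add_one _).le)
    (Nat.cast_nonneg _)
    (by
      rw [← hpow]; exact Nat.floor_le (by positivity))
    (by
      rw [← hpow]; exact (Nat.lt_floor_add_one _).le)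
    (Nat.cast_nonneg _)
    (by
      rw [← hpow]; exact Nat.floor_le (by positivity))
    (by
      rw [← hpow]; exact (Nat.lt_floor_add_one _).le)
    (by
      exact (Nat.ceil_lt_add_one (by positivity)).le)
  refine le_trans (le_of_eq ?_) key
  rw [hD]

end Pool.Agent.HC
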