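import Pool.Agent.Lib.MP_ec42c8_pr.W10
import Pool.Agent.Lib.MP_ec42c8_pr.W16
import Pool.Agent.Lib.MP_ec42c8_pr.W17
import Pool.Agent.Lib.MP_ec42c8_pr.SLa

/-!
# WT2 : the table of picks of the window is almost uniformly random, given the stars

PROOF.  Fix `u, w, y, ρ`; let `L = Ls k q u w`, `Z = Zs k u \ L`, and for a table `h` let
`S(h)`, `Λ(h)` be the stars and their leaves, which depend only on the pattern (`W17b`), and
`a(h) = sdr ..`.  `GoodW` is `hits` and a condition depending only on the pattern (`L`, `Z` do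
not depend on `h`); so `X h := (S(h), Λ(h), truth value of that condition)` satisfies the
hypothesis of `W14`.  Apply `W14` (exchange the averages over `h` and `g`): the first average in
the statement is the average over `ω` with `GoodW` of
`av over g of avOn (Tk k L) (fun θ => Φ (relV g L) (relG g S) (relT g (ovw Z a θ)))`.
(If `k = 0` this is trivial; `L.card < n` follows from `h1` unless `n = 0`; treat `n = 0`
separately: then everything is an average over one point and both sides are equal.)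
Now fix `ω` with `GoodW`, `M = L ∪ Λ`, and replace `g` by `g g₂` with `g₂ ∈ Fix M` (for every `g₂`
the average over `g` of `F (g g₂)` is the average of `F g`; then average over `g₂ ∈ Fix M`, which is
nonempty).  `relV g₂ L = L`, `relG g₂ S = S` (all vertices of edges of `S` are in `M`),
`relT (g g₂) (ovw Z a θ) = relT g (ovw (relV g₂ Z) (relT g₂ a) (relT g₂ θ))`, and `relT g₂`
permutes `Tk k L`.  So for fixed `g` we have the average over `g₂ ∈ Fix M` and `θ ∈ Tk k L` of
`Φ' (ovw (relV g₂ Z) (relT g₂ a) θ)` with `Φ' θ = Φ (relV g L) (relG g S) (relT g θ)`, which by `W16`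
differs from `avOn (Tk k L) Φ' = avOn (Tk k (relV g L)) (Φ (relV g L) (relG g S))`
(`avOn_Tk_relV`) by at most the square root.  (Hypotheses of `W16`: `GoodW.disj`, `GoodW.sdr` and
`Exists.choose_spec`, the cardinality of `Λ` is at most `d * l` by `W10a`.)
-/

set_option autoImplicit false

namespace Pool.Agent.HC

open Finset
open scoped Classical

lemma wt2_av_avOn {Ω α : Type*} [Fintype Ω] (s : Finset α) (F : Ω → α → ℝ) :
    av (fun g => avOn s (F g)) = avOn s (fun x => av (fun g => F g x)) := by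
  simp only [av, avOn]
  rw [← Finset.sum_div, ← Finset.sum_div, Finset.sum_comm, div_div, div_div, mul_comm]

/-- the part of the good event that does not involve `hits` -/
def wt2_Cond {n m k : ℕ} (d r l : ℕ) (u w : Fin m → Fin n) (L : Finset (Fin n))
    (X : Gr n × Finset (Fin n)) : Prop :=
  (Zs k u).card ≤ r ∧ L.card ≤ l ∧ StarForest d L X.1 ∧ (∀ z ∈ Zs k u, z ∉ X.2) ∧
    ∃ a : Fin n → Fin k → Fin n, IsSDR u w (Zs k u) L X.2 a

lemma wt2_good_iff {n m k : ℕ} (d q r l : ℕ) (u w y : Fin m → Fin n)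
    (h : Fin n → Fin (k + 2) → Fin n) (ρ : Edge n ≃ Fin (NE n)) :
    GoodW d q r l u w y h ρ ↔
      wt2_Cond (k := k) d r l u w (Ls k q u w) (SS d (rk (BB u w y h) ρ) (Ls k q u w),
        Lam d (rk (BB u w y h) ρ) (Ls k q u w)) ∧
      ∀ v, (Finset.univ.filter (fun i => h v i ∈ Ls k q u w)).card ≤ 2 := by
  constructor
  · intro G
    exact ⟨⟨G.cardZ, G.cardL, G.star, G.disj, G.sdr⟩, G.hits⟩
  · rintro ⟨⟨h1, h2, h3, h4, h5⟩, h6⟩
    exact ⟨h1, h2, h3, h4, h5, h6⟩

lemma wt2_tk_zero {k : ℕ} (L : Finset (Fin 0)) (Ψ : (Fin 0 → Fin k → Fin 0) → ℝ)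
    (θ₀ : Fin 0 → Fin k → Fin 0) : avOn (Tk k L) Ψ = Ψ θ₀ := by
  have h1 : Tk k L = {θ₀} := by
    ext θ
    rw [Finset.mem_singleton]
    constructor
    · intro _; funext v; exact v.elim0
    · intro _; unfold Tk; rw [Finset.mem_filter]; exact ⟨Finset.mem_univ _, fun v => v.elim0⟩
  rw [h1]
  simp [avOn]

/-- the average over the reserved heads (`W14`) -/
lemma wt2_first {n m k : ℕ} (d q r l : ℕ) (u w y : Fin m → Fin n) (ρ : Edge n ≃ Fin (NE n))
    (h1 : 2 * (l + d * l + (k + 1) * r) ≤ n)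
    (Φ : Finset (Fin n) → Gr n → (Fin n → Fin k → Fin n) → ℝ) :
    av (fun h : Fin n → Fin (k + 2) → Fin n => if GoodW d q r l u w y h ρ then
        av (fun g : Equiv.Perm (Fin n) => Φ (relV g (Ls k q u w))
          (relG g (SS d (rk (BB u w y h) ρ) (Ls k q u w)))
          (relT g (TT d q u w y h ρ))) else 0) =
    av (fun h : Fin n → Fin (k + 2) → Fin n => if GoodW d q r l u w y h ρ then
        av (fun g : Equiv.Perm (Fin n) => avOn (Tk k (Ls k q u w)) (fun θ =>
          Φ (relV g (Ls k q u w)) (relG g (SS d (rk (BB u w y h) ρ) (Ls k q u w)))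
          (relT g (ovw (Zs k u \ Ls k q u w)
            (sdr u w (Zs k u) (Ls k q u w) (Lam d (rk (BB u w y h) ρ) (Ls k q u w))) θ))))
        else 0) := by
  rcases Nat.eq_zero_or_pos n with hn | hn
  · subst hn
    refine av_congr fun h => ?_
    split_ifs
    · refine av_congr fun g => ?_
      rw [wt2_tk_zero _ _ (pick (Ls k q u w) h)]
      rfl
    · rfl
  by_cases hL : (Ls k q u w).card < n
  · set L := Ls k q u w with hLdef
    have hLZ : L ⊆ Zs k u := Finset.filter_subset _ _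
    let X : (Fin n → Fin (k + 2) → Fin n) → Gr n × Finset (Fin n) := fun h =>
      (SS d (rk (BB u w y h) ρ) L, Lam d (rk (BB u w y h) ρ) L)
    let Ψ : Gr n × Finset (Fin n) → (Fin n → Fin k → Fin n) → ℝ := fun x θ =>
      if wt2_Cond (k := k) d r l u w L x then
        av (fun g : Equiv.Perm (Fin n) => Φ (relV g L) (relG g x.1)
          (relT g (ovw (Zs k u \ L) (sdr u w (Zs k u) L x.2) θ))) else 0
    have hX : ∀ h h', SamePat L h h' → X h = X h' := by
      intro h h' hh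
      have := W17b d u w y h h' ρ L hLZ hh
      exact Prod.ext this.1 this.2
    have h14 := W14 L hL X hX Ψ
    have e1 : ∀ h : Fin n → Fin (k + 2) → Fin n,
        (if GoodW d q r l u w y h ρ then
          av (fun g : Equiv.Perm (Fin n) => Φ (relV g L)
            (relG g (SS d (rk (BB u w y h) ρ) L)) (relT g (TT d q u w y h ρ))) else 0)
        = (if (∀ v, (Finset.univ.filter (fun i => h v i ∈ L)).card ≤ 2) then
            Ψ (X h) (pick L h) else 0) := by
      intro h
      by_cases hh : ∀ v, (Finset.univ.filter (fun i => h v i ∈ L)).card ≤ 2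
      · rw [if_pos hh]
        by_cases hc : wt2_Cond (k := k) d r l u w L (X h)
        · rw [if_pos ((wt2_good_iff d q r l u w y h ρ).2 ⟨hc, hh⟩)]
          show _ = (if wt2_Cond (k := k) d r l u w L (X h) then _ else _)
          rw [if_pos hc]
          rfl
        · rw [if_neg (fun hG => hc ((wt2_good_iff d q r l u w y h ρ).1 hG).1)]
          show _ = (if wt2_Cond (k := k) d r l u w L (X h) then _ else _)
          rw [if_neg hc]
      · rw [if_neg hh, if_neg (fun hG => hh ((wt2_good_iff d q r l u w y h ρ).1 hG).2)]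
    have e2 : ∀ h : Fin n → Fin (k + 2) → Fin n,
        (if GoodW d q r l u w y h ρ then
          av (fun g : Equiv.Perm (Fin n) => avOn (Tk k L) (fun θ =>
            Φ (relV g L) (relG g (SS d (rk (BB u w y h) ρ) L))
            (relT g (ovw (Zs k u \ L)
              (sdr u w (Zs k u) L (Lam d (rk (BB u w y h) ρ) L)) θ)))) else 0)
        = (if (∀ v, (Finset.univ.filter (fun i => h v i ∈ L)).card ≤ 2) then
            avOn (Tk k L) (Ψ (X h)) else 0) := by
      intro h
      by_cases hh : ∀ v, (Finset.univ.filter (fun i => h v i ∈ L)).card ≤ 2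
      · rw [if_pos hh]
        by_cases hc : wt2_Cond (k := k) d r l u w L (X h)
        · rw [if_pos ((wt2_good_iff d q r l u w y h ρ).2 ⟨hc, hh⟩)]
          rw [wt2_av_avOn]
          refine avOn_congr fun θ _ => ?_
          show _ = (if wt2_Cond (k := k) d r l u w L (X h) then _ else _)
          rw [if_pos hc]
        · rw [if_neg (fun hG => hc ((wt2_good_iff d q r l u w y h ρ).1 hG).1)]
          have : ∀ θ ∈ Tk k L, Ψ (X h) θ = 0 := fun θ _ => if_neg hc
          rw [avOn_congr this]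
          simp [avOn]
      · rw [if_neg hh, if_neg (fun hG => hh ((wt2_good_iff d q r l u w y h ρ).1 hG).2)]
    rw [av_congr e1, av_congr e2]
    exact h14
  · have hl : l < n := by omega
    have hno : ∀ h : Fin n → Fin (k + 2) → Fin n, ¬ GoodW d q r l u w y h ρ := by
      intro h G
      have := G.cardL
      omega
    refine av_congr fun h => ?_
    rw [if_neg (hno h), if_neg (hno h)]

/-- the averages over relabellings fixing the stars (`W16`) -/
lemma wt2_second {n m k : ℕ} (d q r l : ℕ) (u w y : Fin m → Fin n)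
    (h : Fin n → Fin (k + 2) → Fin n) (ρ : Edge n ≃ Fin (NE n))
    (h1 : 2 * (l + d * l + (k + 1) * r) ≤ n) (h2 : 2 * k * (d * l + (k + 1) * r) ≤ n)
    (h3 : 8 * k * (d * l + (k + 1) * r) * r ^ 2 ≤ n ^ 2)
    (Φ : Finset (Fin n) → Gr n → (Fin n → Fin k → Fin n) → ℝ) (hΦ : ∀ L S, Unit01 (Φ L S))
    (hG : GoodW d q r l u w y h ρ) :
    |av (fun g : Equiv.Perm (Fin n) => avOn (Tk k (Ls k q u w)) (fun θ =>
          Φ (relV g (Ls k q u w)) (relG g (SS d (rk (BB u w y h) ρ) (Ls k q u w)))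
          (relT g (ovw (Zs k u \ Ls k q u w)
            (sdr u w (Zs k u) (Ls k q u w) (Lam d (rk (BB u w y h) ρ) (Ls k q u w))) θ)))) -
      av (fun g : Equiv.Perm (Fin n) => avOn (Tk k (relV g (Ls k q u w)))
          (Φ (relV g (Ls k q u w)) (relG g (SS d (rk (BB u w y h) ρ) (Ls k q u w)))))| ≤
      Real.sqrt (16 * k * (d * l + (k + 1) * r) * r ^ 2 / n ^ 2) := by
  set L := Ls k q u w with hL
  set S := SS d (rk (BB u w y h) ρ) L with hS
  set Λ := Lam d (rk (BB u w y h) ρ) L with hΛ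
  set a := sdr (k := k) u w (Zs k u) L Λ with ha
  have hsdr : IsSDR u w (Zs k u) L Λ a := by
    have h5 : ∃ a : Fin n → Fin k → Fin n, IsSDR u w (Zs k u) L Λ a := hG.sdr
    rw [ha]
    unfold sdr
    rw [dif_pos h5]
    exact h5.choose_spec
  let H : Equiv.Perm (Fin n) → ℝ := fun g => avOn (Tk k L) (fun θ =>
    Φ (relV g L) (relG g S) (relT g (ovw (Zs k u \ L) a θ)))
  have hVM : ∀ g₂ ∈ Fix (L ∪ Λ), ∀ v ∈ L ∪ Λ, g₂ v = v := fun g₂ hg => by
    unfold Fix at hg
    exact (Finset.mem_filter.1 hg).2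
  have hL2 : ∀ g₂ ∈ Fix (L ∪ Λ), relV g₂ L = L := by
    intro g₂ hg
    ext v
    rw [mem_relV]
    constructor
    · intro hv
      have h4 := hVM g₂ hg _ (Finset.mem_union_left _ hv)
      rw [Equiv.apply_symm_apply] at h4
      rw [h4]; exact hv
    · intro hv
      have h4 := hVM g₂ hg _ (Finset.mem_union_left _ hv)
      have h5 : g₂.symm v = v := by rw [Equiv.symm_apply_eq]; exact h4.symm
      rw [h5]; exact hv
  have hS2 : ∀ g₂ ∈ Fix (L ∪ Λ), relG g₂ S = S := by
    intro g₂ hg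
    refine SLa_fix S g₂ (fun v hv => hVM g₂ hg v ?_)
    unfold deg at hv
    obtain ⟨e, he⟩ := Finset.card_ne_zero.1 hv
    rw [Finset.mem_filter] at he
    obtain ⟨he, hve⟩ := he
    rw [hS] at he
    unfold SS at he
    rw [Finset.mem_filter] at he
    obtain ⟨_, z, hz, x, hx, hzx⟩ := he
    rw [hzx, Sym2.mem_iff] at hve
    rcases hve with hve | hve
    · rw [hve]; exact Finset.mem_union_left _ hz
    · rw [hve]
      refine Finset.mem_union_right _ ?_
      rw [hΛ]
      unfold Lam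
      exact Finset.mem_biUnion.2 ⟨z, hz, hx⟩
  have hFne : (Fix (L ∪ Λ)).Nonempty := by
    refine ⟨1, ?_⟩
    unfold Fix
    rw [Finset.mem_filter]
    exact ⟨Finset.mem_univ _, fun v _ => rfl⟩
  -- average over the relabellings that fix the stars
  have hH : av H = av (fun g => avOn (Fix (L ∪ Λ)) (fun g₂ => H (g * g₂))) := by
    have h4 : ∀ g₂ ∈ Fix (L ∪ Λ), av (fun g => H (g * g₂)) = av H := fun g₂ _ =>
      av_equiv (Equiv.mulRight g₂) H
    have h5 : av (fun g => avOn (Fix (L ∪ Λ)) (fun g₂ => H (g * g₂)))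
        = avOn (Fix (L ∪ Λ)) (fun g₂ => av (fun g => H (g * g₂))) :=
      wt2_av_avOn (Fix (L ∪ Λ)) (fun g g₂ => H (g * g₂))
    rw [h5, avOn_congr h4, avOn_const hFne]
  have hHg : ∀ g : Equiv.Perm (Fin n), ∀ g₂ ∈ Fix (L ∪ Λ), H (g * g₂)
      = avOn (Tk k L) (fun θ => Φ (relV g L) (relG g S)
        (relT g (ovw (relV g₂ (Zs k u \ L)) (relT g₂ a) θ))) := by
    intro g g₂ hg
    show avOn (Tk k L) (fun θ =>
      Φ (relV (g * g₂) L) (relG (g * g₂) S) (relT (g * g₂) (ovw (Zs k u \ L) a θ))) = _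
    have h4 : ∀ θ ∈ Tk k L, Φ (relV (g * g₂) L) (relG (g * g₂) S)
        (relT (g * g₂) (ovw (Zs k u \ L) a θ))
        = (fun θ => Φ (relV g L) (relG g S)
          (relT g (ovw (relV g₂ (Zs k u \ L)) (relT g₂ a) θ))) (relT g₂ θ) := by
      intro θ _
      simp only
      rw [relV_mul, relG_mul, relT_mul, hL2 g₂ hg, hS2 g₂ hg, ovw_rel]
    have h5 := avOn_Tk_relV g₂ L (fun θ => Φ (relV g L) (relG g S)
          (relT g (ovw (relV g₂ (Zs k u \ L)) (relT g₂ a) θ)))
    rw [hL2 g₂ hg] at h5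
    rw [avOn_congr h4]
    exact h5.symm
  have hR : ∀ g : Equiv.Perm (Fin n), avOn (Tk k (relV g L)) (Φ (relV g L) (relG g S))
      = avOn (Tk k L) (fun θ => Φ (relV g L) (relG g S) (relT g θ)) := fun g =>
    avOn_Tk_relV g L _
  have hgoal : av H - av (fun g : Equiv.Perm (Fin n) =>
      avOn (Tk k (relV g L)) (Φ (relV g L) (relG g S)))
      = av (fun g : Equiv.Perm (Fin n) => avOn (Fix (L ∪ Λ)) (fun g₂ => avOn (Tk k L) (fun θ =>
          Φ (relV g L) (relG g S) (relT g (ovw (relV g₂ (Zs k u \ L)) (relT g₂ a) θ))))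
        - avOn (Tk k L) (fun θ => Φ (relV g L) (relG g S) (relT g θ))) := by
    rw [av_sub, hH]
    congr 1
    · refine av_congr fun g => avOn_congr fun g₂ hg => hHg g g₂ hg
    · refine av_congr fun g => hR g
  show |av H - _| ≤ _
  rw [hgoal]
  refine abs_av_le_of (Real.sqrt_nonneg _) fun g => ?_
  have hdisj : Disjoint (Zs k u \ L) (L ∪ Λ) := by
    rw [Finset.disjoint_left]
    intro v hv hv'
    rw [Finset.mem_sdiff] at hv
    rcases Finset.mem_union.1 hv' with h4 | h4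
    · exact hv.2 h4
    · exact hG.disj v hv.1 h4
  have hlam : Λ.card ≤ d * l := by
    rw [hΛ]
    unfold Lam
    refine (Finset.card_biUnion_le_card_mul L _ d (fun z _ => ?_)).trans ?_
    · exact W10a d _ (rk_injective _ _) z
    · rw [mul_comm]; exact Nat.mul_le_mul_left _ hG.cardL
  have h16 := W16 L Λ (Zs k u \ L) a hdisj
    (fun z hz i => by
      obtain ⟨o1, o2, o3⟩ := hsdr.out z hz i
      refine ⟨fun h4 => o1 (Finset.mem_sdiff.1 h4).1, fun h4 => ?_⟩
      rcases Finset.mem_union.1 h4 with h5 | h5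
      · exact o2 h5
      · exact o3 h5)
    hsdr.inj r l (d * l) ((Finset.card_le_card Finset.sdiff_subset).trans hG.cardZ) hG.cardL hlam
    h1 h2 h3 (fun θ => Φ (relV g L) (relG g S) (relT g θ)) (fun θ => hΦ _ _ _)
  push_cast at h16
  exact h16

theorem WT2 {n : ℕ} (k m d q r l : ℕ)
    (h1 : 2 * (l + d * l + (k + 1) * r) ≤ n) (h2 : 2 * k * (d * l + (k + 1) * r) ≤ n)
    (h3 : 8 * k * (d * l + (k + 1) * r) * r ^ 2 ≤ n ^ 2)
    (Φ : Finset (Fin n) → Gr n → (Fin n → Fin k → Fin n) → ℝ) (hΦ : ∀ L S, Unit01 (Φ L S)) :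
    |av (fun ω : WΩ n k m => if GoodW d q r l ω.1 ω.2.1 ω.2.2.1 ω.2.2.2.1 ω.2.2.2.2 then
        av (fun g : Equiv.Perm (Fin n) => Φ (relV g (Ls k q ω.1 ω.2.1))
          (relG g (SS d (rk (BB ω.1 ω.2.1 ω.2.2.1 ω.2.2.2.1) ω.2.2.2.2) (Ls k q ω.1 ω.2.1)))
          (relT g (TT d q ω.1 ω.2.1 ω.2.2.1 ω.2.2.2.1 ω.2.2.2.2))) else 0) -
      av (fun ω : WΩ n k m => if GoodW d q r l ω.1 ω.2.1 ω.2.2.1 ω.2.2.2.1 ω.2.2.2.2 then
        av (fun g : Equiv.Perm (Fin n) => avOn (Tk k (relV g (Ls k q ω.1 ω.2.1)))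
          (Φ (relV g (Ls k q ω.1 ω.2.1))
            (relG g (SS d (rk (BB ω.1 ω.2.1 ω.2.2.1 ω.2.2.2.1) ω.2.2.2.2)
              (Ls k q ω.1 ω.2.1))))) else 0)| ≤
      Real.sqrt (16 * k * (d * l + (k + 1) * r) * r ^ 2 / n ^ 2) := by
  have hnest : ∀ f : WΩ n k m → ℝ, av f = av (fun u : Fin m → Fin n =>
      av (fun w : Fin m → Fin n => av (fun y : Fin m → Fin n =>
        av (fun ρ : Edge n ≃ Fin (NE n) => av (fun h : Fin n → Fin (k + 2) → Fin n =>
          f (u, w, y, h, ρ)))))) := by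
    intro f
    rw [av_prod]
    refine av_congr fun u => ?_
    rw [av_prod]
    refine av_congr fun w => ?_
    rw [av_prod]
    refine av_congr fun y => ?_
    rw [av_prod, av_comm]
  have hfirst : av (fun ω : WΩ n k m => if GoodW d q r l ω.1 ω.2.1 ω.2.2.1 ω.2.2.2.1 ω.2.2.2.2 then
        av (fun g : Equiv.Perm (Fin n) => Φ (relV g (Ls k q ω.1 ω.2.1))
          (relG g (SS d (rk (BB ω.1 ω.2.1 ω.2.2.1 ω.2.2.2.1) ω.2.2.2.2) (Ls k q ω.1 ω.2.1)))
          (relT g (TT d q ω.1 ω.2.1 ω.2.2.1 ω.2.2.2.1 ω.2.2.2.2))) else 0)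
      = av (fun ω : WΩ n k m => if GoodW d q r l ω.1 ω.2.1 ω.2.2.1 ω.2.2.2.1 ω.2.2.2.2 then
        av (fun g : Equiv.Perm (Fin n) => avOn (Tk k (Ls k q ω.1 ω.2.1)) (fun θ =>
          Φ (relV g (Ls k q ω.1 ω.2.1))
            (relG g (SS d (rk (BB ω.1 ω.2.1 ω.2.2.1 ω.2.2.2.1) ω.2.2.2.2) (Ls k q ω.1 ω.2.1)))
          (relT g (ovw (Zs k ω.1 \ Ls k q ω.1 ω.2.1)
            (sdr ω.1 ω.2.1 (Zs k ω.1) (Ls k q ω.1 ω.2.1)
              (Lam d (rk (BB ω.1 ω.2.1 ω.2.2.1 ω.2.2.2.1) ω.2.2.2.2) (Ls k q ω.1 ω.2.1))) θ))))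
        else 0) := by
    rw [hnest, hnest]
    refine av_congr fun u => av_congr fun w => av_congr fun y => av_congr fun ρ => ?_
    exact wt2_first d q r l u w y ρ h1 Φ
  rw [hfirst, ← av_sub]
  refine abs_av_le_of (Real.sqrt_nonneg _) fun ω => ?_
  by_cases hG : GoodW d q r l ω.1 ω.2.1 ω.2.2.1 ω.2.2.2.1 ω.2.2.2.2
  · rw [if_pos hG, if_pos hG]
    exact wt2_second d q r l ω.1 ω.2.1 ω.2.2.1 ω.2.2.2.1 ω.2.2.2.2 h1 h2 h3 Φ hΦ hG
  · rw [if_neg hG, if_neg hG, sub_self, abs_zero]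
    exact Real.sqrt_nonneg _

end Pool.Agent.HC
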