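import Pool.Agent.Lib.MP_ec42c8_pr.W03
import Pool.Agent.Lib.MP_ec42c8_pr.W14

/-!
# WT5 : the picks are edges of the window

PROOF.  Let `e = s(v, TT v i) ∈ pk L TT`, `v ∉ L`.
If `v ∈ Zs k u` (so `v ∈ Zs k u \ L`): `TT v i = a v i` where `a = sdr ..` is an `IsSDR` (`GoodW.sdr`,
`Exists.choose_spec`), so there is a time `t` with `k + 2 ≤ cnt u t`, `u t = a v i`, `w t = v`; then
`hd u w y h t = w t = v` (second case: the first case requires `cnt u t < k + 2`).
If `v ∉ Zs k u`: `TT v i = pick L h v i = h v j` for some `j` (`W14b`, `GoodW.hits`), and by `W03d` there is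
a time `t` with `u t = v`, `cnt u t = j`, `k + 2 ≤ tot u (u t)`, so `hd u w y h t = h v j`.
-/

set_option autoImplicit false

namespace Pool.Agent.HC

open Finset
open scoped Classical

theorem WT5 {n m k : ℕ} (d q r l : ℕ) (u w y : Fin m → Fin n)
    (h : Fin n → Fin (k + 2) → Fin n) (ρ : Edge n ≃ Fin (NE n))
    (hG : GoodW d q r l u w y h ρ) :
    pk (Ls k q u w) (TT d q u w y h ρ) ⊆ bedges (BB u w y h) := by
  intro e he
  unfold pk at he
  rw [Finset.mem_filter] at he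
  obtain ⟨-, v, hvL, i, hei⟩ := he
  unfold bedges
  rw [Finset.mem_filter]
  refine ⟨Finset.mem_univ _, ?_⟩
  by_cases hvZ : v ∈ Zs k u
  · have hv : v ∈ Zs k u \ Ls k q u w := Finset.mem_sdiff.2 ⟨hvZ, hvL⟩
    have hs : IsSDR u w (Zs k u) (Ls k q u w) (Lam d (rk (BB u w y h) ρ) (Ls k q u w))
        (sdr (k := k) u w (Zs k u) (Ls k q u w)
          (Lam d (rk (BB u w y h) ρ) (Ls k q u w))) := by
      unfold Pool.Agent.HC.sdr
      rw [dif_pos hG.sdr]
      exact hG.sdr.choose_spec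
    have hT : TT d q u w y h ρ v i =
        sdr u w (Zs k u) (Ls k q u w) (Lam d (rk (BB u w y h) ρ) (Ls k q u w)) v i := by
      unfold TT ovw
      rw [if_pos hv]
    obtain ⟨t, ht1, ht2, ht3⟩ := hs.arr v hv i
    refine ⟨t, ?_⟩
    have hh : hd u w y h t = v := by
      unfold hd
      rw [dif_neg (fun H => absurd H.2 (not_lt.2 ht1)), if_pos ht1, ht3]
    show s(u t, hd u w y h t) = e.1
    rw [hh, ht2, hei, hT]
    exact Sym2.eq_swap
  · have hv : v ∉ Zs k u \ Ls k q u w := fun hc => hvZ (Finset.mem_sdiff.1 hc).1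
    have hT : TT d q u w y h ρ v i = pick (Ls k q u w) h v i := by
      unfold TT ovw
      rw [if_neg hv]
    obtain ⟨-, j, hj⟩ := W14b (Ls k q u w) h v (hG.hits v) i
    obtain ⟨t, ht1, ht2, ht3⟩ := W03d k u v hvZ j
    refine ⟨t, ?_⟩
    have hc : cnt u t < k + 2 := by rw [ht2]; exact j.2
    have hh : hd u w y h t = h v j := by
      unfold hd
      rw [dif_pos ⟨ht3, hc⟩]
      have hj2 : (⟨cnt u t, hc⟩ : Fin (k + 2)) = j := Fin.ext ht2
      show h (u t) ⟨cnt u t, hc⟩ = h v j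
      rw [hj2, ht1]
    show s(u t, hd u w y h t) = e.1
    rw [hh, ht1, hei, hT, hj]

end Pool.Agent.HC
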