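import Pool.Agent.Lib.MP_ec42c8_pr.ZDefs

/-!
# Z01 : elementary estimates for the assembly

`Z01`: union bound; `g z` is uniformly distributed on `Fin n` (`P(g z = v) = 1 / n`: compose with a
transposition).
`Z02`: for large `n`: `l ≤ n ^ (4η)`, `r ≤ n ^ (1/2 + 2η)`, `a ≤ n ^ (1-γ) + 1`, with `γ = 1/(d+2) ≤ 1/3`,
`η = γ / 100`; all the quantities are smaller than the right sides by a power of `n`.
-/

set_option autoImplicit false

namespace Pool.Agent.HC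

open Finset
open scoped Classical

lemma z01_swap {n : ℕ} (z v v' : Fin n) :
    pr (fun g : Equiv.Perm (Fin n) => g z = v) = pr (fun g : Equiv.Perm (Fin n) => g z = v') := by
  have h : pr (fun g : Equiv.Perm (Fin n) => (Equiv.mulLeft (Equiv.swap v v') g) z = v') =
      pr (fun g : Equiv.Perm (Fin n) => g z = v') := by
    rw [pr_eq_card, pr_eq_card]
    congr 2
    refine Finset.card_bij (fun g _ => Equiv.mulLeft (Equiv.swap v v') g) ?_ ?_ ?_
    · intro g hg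
      simpa using hg
    · intro g _ g' _ hgg
      exact (Equiv.mulLeft (Equiv.swap v v')).injective hgg
    · intro g hg
      refine ⟨(Equiv.mulLeft (Equiv.swap v v')).symm g, ?_, ?_⟩
      · simpa using hg
      · exact (Equiv.mulLeft (Equiv.swap v v')).apply_symm_apply g
  rw [← h]
  refine pr_congr fun g => ?_
  rw [Equiv.coe_mulLeft, Equiv.Perm.mul_apply, Equiv.swap_apply_eq_iff, Equiv.swap_apply_right]

lemma z01_unif {n : ℕ} (hn : 1 ≤ n) (z v : Fin n) :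
    pr (fun g : Equiv.Perm (Fin n) => g z = v) = 1 / (n : ℝ) := by
  have h1 : ∑ v' : Fin n, pr (fun g : Equiv.Perm (Fin n) => g z = v') = 1 := by
    have h2 : av (fun g : Equiv.Perm (Fin n) => ∑ v' : Fin n,
        (if g z = v' then (1 : ℝ) else 0)) = ∑ v' : Fin n,
          pr (fun g : Equiv.Perm (Fin n) => g z = v') := by
      rw [av_sum]
      refine Finset.sum_congr rfl fun v' _ => ?_
      unfold pr
      refine av_congr fun g => ?_
      congr
    rw [← h2]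
    refine (av_congr fun g => ?_).trans (av_const 1)
    simp
  rw [Finset.sum_congr rfl (fun v' _ => z01_swap z v' v)] at h1
  simp only [Finset.sum_const, Finset.card_univ, Fintype.card_fin, nsmul_eq_mul] at h1
  have hn0 : (n : ℝ) ≠ 0 := by
    have : (0 : ℕ) < n := hn
    exact_mod_cast this.ne'
  field_simp
  linarith

theorem Z01 {n : ℕ} (hn : 1 ≤ n) (L Q : Finset (Fin n)) :
    pr (fun g : Equiv.Perm (Fin n) => ∃ z ∈ L, g z ∈ Q) ≤ (L.card : ℝ) * Q.card / n := by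
  have h1 : ∀ z : Fin n, pr (fun g : Equiv.Perm (Fin n) => g z ∈ Q) ≤ (Q.card : ℝ) / n := by
    intro z
    have h2 : pr (fun g : Equiv.Perm (Fin n) => g z ∈ Q) ≤
        pr (fun g : Equiv.Perm (Fin n) => ∃ v ∈ Q, g z = v) :=
      pr_mono fun g hg => ⟨g z, hg, rfl⟩
    refine h2.trans ((pr_exists_le Q (fun v (g : Equiv.Perm (Fin n)) => g z = v)).trans ?_)
    rw [Finset.sum_congr rfl (fun v _ => z01_unif hn z v)]
    rw [Finset.sum_const, nsmul_eq_mul]
    exact le_of_eq (by ring)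
  refine (pr_exists_le L (fun z (g : Equiv.Perm (Fin n)) => g z ∈ Q)).trans ?_
  refine (Finset.sum_le_sum (fun z _ => h1 z)).trans ?_
  rw [Finset.sum_const, nsmul_eq_mul]
  exact le_of_eq (by ring)

/-- The real inequalities behind `Z02`. -/
lemma z01_core (D K ε l r a s M : ℝ) (hD : 1 ≤ D) (hK : 0 ≤ K) (hε : 0 < ε)
    (hl0 : 0 ≤ l) (hr0 : 0 ≤ r) (ha0 : 0 ≤ a) (hM : 1 ≤ M) (hs : M ^ 150 ≤ s)
    (hl : l ≤ M ^ 4) (hr : r ≤ s * M ^ 2) (ha : a ≤ s ^ 2 / M ^ 100 + 1)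
    (hM1 : 2 * (D + K + 2) ≤ M) (hM2 : 2 * K * (D + K + 1) ≤ M) (hM3 : 8 * K * (D + K + 1) ≤ M)
    (hM4 : 16 * K * (D + K + 1) ≤ ε ^ 2 * M) (hM5 : 20 * (D + 1) ^ 2 ≤ ε * M) (hM6 : 4 ≤ ε * M) :
    2 * (l + D * l + (K + 1) * r) ≤ s ^ 2 ∧
    2 * K * (D * l + (K + 1) * r) ≤ s ^ 2 ∧
    8 * K * (D * l + (K + 1) * r) * r ^ 2 ≤ (s ^ 2) ^ 2 ∧
    Real.sqrt (16 * K * (D * l + (K + 1) * r) * r ^ 2 / (s ^ 2) ^ 2) ≤ ε ∧
    4 * (D + 1) ^ 2 * l * (2 * a + l) / s ^ 2 ≤ ε ∧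
    l * (2 * a) / s ^ 2 ≤ ε ∧
    a + D * l ≤ s ^ 2 / M ^ 50 := by
  have hM0 : 0 < M := by linarith
  have hMp : ∀ i j : ℕ, i ≤ j → M ^ i ≤ M ^ j := fun i j hij => pow_le_pow_right₀ hM hij
  have hs1 : 1 ≤ s := le_trans (one_le_pow₀ hM) hs
  have hs0 : 0 < s := by linarith
  have hs7 : M ^ 7 ≤ s := (hMp 7 150 (by norm_num)).trans hs
  have hs3 : M ^ 3 ≤ s := (hMp 3 150 (by norm_num)).trans hs
  have hMM2 : 0 < M ^ 2 := by positivity
  have hl' : l ≤ s * M ^ 2 := by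
    have h1 : M ^ 4 ≤ M ^ 7 * M ^ 2 := by
      rw [← pow_add]; exact hMp 4 9 (by norm_num)
    exact hl.trans (h1.trans (mul_le_mul_of_nonneg_right hs7 hMM2.le))
  -- the common bound
  have hc : D * l + (K + 1) * r ≤ (D + K + 1) * (s * M ^ 2) := by
    have h1 : D * l ≤ D * (s * M ^ 2) := mul_le_mul_of_nonneg_left hl' (by linarith)
    have h2 : (K + 1) * r ≤ (K + 1) * (s * M ^ 2) := mul_le_mul_of_nonneg_left hr (by linarith)
    linarith
  have hc0 : 0 ≤ D * l + (K + 1) * r := by positivity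
  have hr2 : r ^ 2 ≤ s ^ 2 * M ^ 4 := by
    calc r ^ 2 ≤ (s * M ^ 2) ^ 2 := pow_le_pow_left₀ hr0 hr 2
      _ = s ^ 2 * M ^ 4 := by ring
  have hcr : (D * l + (K + 1) * r) * r ^ 2 ≤ (D + K + 1) * (s ^ 3 * M ^ 6) := by
    calc (D * l + (K + 1) * r) * r ^ 2 ≤ ((D + K + 1) * (s * M ^ 2)) * (s ^ 2 * M ^ 4) :=
          mul_le_mul hc hr2 (by positivity) (by positivity)
      _ = _ := by ring
  -- bound for a
  have hsM : M ^ 100 ≤ s ^ 2 := by
    calc M ^ 100 ≤ M ^ 150 := hMp _ _ (by norm_num)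
      _ ≤ s := hs
      _ ≤ s ^ 2 := by nlinarith
  have hsM104 : M ^ 104 ≤ s ^ 2 := by
    calc M ^ 104 ≤ M ^ 150 := hMp _ _ (by norm_num)
      _ ≤ s := hs
      _ ≤ s ^ 2 := by nlinarith
  have hM100 : 0 < M ^ 100 := by positivity
  have h1a : 1 ≤ s ^ 2 / M ^ 100 := by rw [le_div_iff₀ hM100, one_mul]; exact hsM
  have hl4 : M ^ 4 ≤ s ^ 2 / M ^ 100 := by
    rw [le_div_iff₀ hM100, ← pow_add]; exact hsM104
  have ha2 : a ≤ 2 * (s ^ 2 / M ^ 100) := by linarith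
  have hs2 : 0 < s ^ 2 := by positivity
  refine ⟨?_, ?_, ?_, ?_, ?_, ?_, ?_⟩
  · have h1 : 2 * (l + D * l + (K + 1) * r) ≤ 2 * ((D + K + 2) * (s * M ^ 2)) := by linarith
    refine h1.trans ?_
    calc 2 * ((D + K + 2) * (s * M ^ 2)) = (2 * (D + K + 2)) * (s * M ^ 2) := by ring
      _ ≤ M * (s * M ^ 2) := mul_le_mul_of_nonneg_right hM1 (by positivity)
      _ = M ^ 3 * s := by ring
      _ ≤ s * s := mul_le_mul_of_nonneg_right hs3 hs0.le
      _ = s ^ 2 := by ring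
  · calc 2 * K * (D * l + (K + 1) * r) ≤ 2 * K * ((D + K + 1) * (s * M ^ 2)) :=
          mul_le_mul_of_nonneg_left hc (by positivity)
      _ = (2 * K * (D + K + 1)) * (s * M ^ 2) := by ring
      _ ≤ M * (s * M ^ 2) := mul_le_mul_of_nonneg_right hM2 (by positivity)
      _ = M ^ 3 * s := by ring
      _ ≤ s * s := mul_le_mul_of_nonneg_right hs3 hs0.le
      _ = s ^ 2 := by ring
  · calc 8 * K * (D * l + (K + 1) * r) * r ^ 2 = 8 * K * ((D * l + (K + 1) * r) * r ^ 2) := by ring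
      _ ≤ 8 * K * ((D + K + 1) * (s ^ 3 * M ^ 6)) := mul_le_mul_of_nonneg_left hcr (by positivity)
      _ = (8 * K * (D + K + 1)) * (s ^ 3 * M ^ 6) := by ring
      _ ≤ M * (s ^ 3 * M ^ 6) := mul_le_mul_of_nonneg_right hM3 (by positivity)
      _ = M ^ 7 * s ^ 3 := by ring
      _ ≤ s * s ^ 3 := mul_le_mul_of_nonneg_right hs7 (by positivity)
      _ = (s ^ 2) ^ 2 := by ring
  · rw [Real.sqrt_le_left hε.le, div_le_iff₀ (by positivity)]
    calc 16 * K * (D * l + (K + 1) * r) * r ^ 2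
        = 16 * K * ((D * l + (K + 1) * r) * r ^ 2) := by ring
      _ ≤ 16 * K * ((D + K + 1) * (s ^ 3 * M ^ 6)) := mul_le_mul_of_nonneg_left hcr (by positivity)
      _ = (16 * K * (D + K + 1)) * (s ^ 3 * M ^ 6) := by ring
      _ ≤ (ε ^ 2 * M) * (s ^ 3 * M ^ 6) := mul_le_mul_of_nonneg_right hM4 (by positivity)
      _ = ε ^ 2 * (M ^ 7 * s ^ 3) := by ring
      _ ≤ ε ^ 2 * (s * s ^ 3) := mul_le_mul_of_nonneg_left
          (mul_le_mul_of_nonneg_right hs7 (by positivity)) (by positivity)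
      _ = ε ^ 2 * (s ^ 2) ^ 2 := by ring
  · rw [div_le_iff₀ hs2]
    have h1 : 2 * a + l ≤ 5 * (s ^ 2 / M ^ 100) := by linarith
    calc 4 * (D + 1) ^ 2 * l * (2 * a + l)
        ≤ 4 * (D + 1) ^ 2 * M ^ 4 * (5 * (s ^ 2 / M ^ 100)) := by
          refine mul_le_mul ?_ h1 (by positivity) (by positivity)
          exact mul_le_mul_of_nonneg_left hl (by positivity)
      _ = (20 * (D + 1) ^ 2) * (M ^ 4 * (s ^ 2 / M ^ 100)) := by ring
      _ ≤ (ε * M) * (M ^ 4 * (s ^ 2 / M ^ 100)) := mul_le_mul_of_nonneg_right hM5 (by positivity)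
      _ = ε * (s ^ 2 * (M ^ 5 / M ^ 100)) := by ring
      _ ≤ ε * (s ^ 2 * 1) := by
          refine mul_le_mul_of_nonneg_left (mul_le_mul_of_nonneg_left ?_ hs2.le) hε.le
          rw [div_le_one hM100]
          exact hMp _ _ (by norm_num)
      _ = ε * s ^ 2 := by ring
  · rw [div_le_iff₀ hs2]
    calc l * (2 * a) ≤ M ^ 4 * (2 * (2 * (s ^ 2 / M ^ 100))) :=
          mul_le_mul hl (by linarith) (by positivity) (by positivity)
      _ = 4 * (M ^ 4 * (s ^ 2 / M ^ 100)) := by ring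
      _ ≤ (ε * M) * (M ^ 4 * (s ^ 2 / M ^ 100)) := mul_le_mul_of_nonneg_right hM6 (by positivity)
      _ = ε * (s ^ 2 * (M ^ 5 / M ^ 100)) := by ring
      _ ≤ ε * (s ^ 2 * 1) := by
          refine mul_le_mul_of_nonneg_left (mul_le_mul_of_nonneg_left ?_ hs2.le) hε.le
          rw [div_le_one hM100]
          exact hMp _ _ (by norm_num)
      _ = ε * s ^ 2 := by ring
  · have h1 : a + D * l ≤ (D + 2) * (s ^ 2 / M ^ 100) := by
      have h2 : D * l ≤ D * (s ^ 2 / M ^ 100) :=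
        mul_le_mul_of_nonneg_left (hl.trans hl4) (by linarith)
      linarith
    refine h1.trans ?_
    have h3 : D + 2 ≤ M ^ 50 := by
      have h4 : M ^ 1 ≤ M ^ 50 := hMp _ _ (by norm_num)
      rw [pow_one] at h4
      linarith
    calc (D + 2) * (s ^ 2 / M ^ 100) ≤ M ^ 50 * (s ^ 2 / M ^ 100) :=
          mul_le_mul_of_nonneg_right h3 (by positivity)
      _ = s ^ 2 / M ^ 50 := by
          have : M ^ 100 = M ^ 50 * M ^ 50 := by rw [← pow_add]
          rw [this]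
          field_simp

theorem Z02 (d k : ℕ) (hd : 1 ≤ d) (ε : ℝ) (hε : 0 < ε) : ∃ n₀ : ℕ, ∀ n ≥ n₀,
    d + 2 ≤ n ∧
    2 * (lW (eta d) n + d * lW (eta d) n + (k + 1) * rW (eta d) n) ≤ n ∧
    2 * k * (d * lW (eta d) n + (k + 1) * rW (eta d) n) ≤ n ∧
    8 * k * (d * lW (eta d) n + (k + 1) * rW (eta d) n) * rW (eta d) n ^ 2 ≤ n ^ 2 ∧
    Real.sqrt (16 * k * (d * lW (eta d) n + (k + 1) * rW (eta d) n) * rW (eta d) n ^ 2 / n ^ 2) ≤ ε ∧
    4 * ((d : ℝ) + 1) ^ 2 * lW (eta d) n * (2 * aW (gam d) n + lW (eta d) n) / n ≤ ε ∧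
    (lW (eta d) n : ℝ) * (2 * aW (gam d) n) / n ≤ ε ∧
    (aW (gam d) n : ℝ) + d * lW (eta d) n ≤ (n : ℝ) ^ (1 - gam d / 2) := by
  have hd1 : (1 : ℝ) ≤ (d : ℝ) := by exact_mod_cast hd
  have hη : 0 < eta d := by unfold eta; positivity
  have hη3 : 300 * eta d ≤ 1 := by
    unfold eta
    rw [mul_one_div, div_le_one (by positivity)]
    linarith
  have hγ : gam d = 100 * eta d := by
    unfold gam eta
    field_simp
  have htend : Filter.Tendsto (fun n : ℕ => (n : ℝ) ^ (eta d)) Filter.atTop Filter.atTop :=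
    (tendsto_rpow_atTop hη).comp tendsto_natCast_atTop_atTop
  obtain ⟨n₁, hn₁⟩ := (Filter.tendsto_atTop.1 htend
    (1 + 2 * ((d : ℝ) + k + 2) + 8 * k * (d + k + 1) + 16 * k * (d + k + 1) / ε ^ 2
      + 20 * ((d : ℝ) + 1) ^ 2 / ε + 4 / ε)).exists_forall_of_atTop
  refine ⟨max n₁ (d + 2), fun n hn => ?_⟩
  have hn1 : n₁ ≤ n := (le_max_left _ _).trans hn
  have hn2 : d + 2 ≤ n := (le_max_right _ _).trans hn
  refine ⟨hn2, ?_⟩
  have hn0 : (0 : ℝ) < n := by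
    have : 0 < n := by omega
    exact_mod_cast this
  have hn1' : (1 : ℝ) ≤ n := by
    have : 1 ≤ n := by omega
    exact_mod_cast this
  set M : ℝ := (n : ℝ) ^ (eta d) with hM
  set s : ℝ := (n : ℝ) ^ ((1 : ℝ) / 2) with hs
  have hMb := hn₁ n hn1
  have hs2 : s ^ 2 = n := by
    rw [hs, ← Real.rpow_natCast, ← Real.rpow_mul hn0.le]
    norm_num
  have hMpow : ∀ j : ℕ, M ^ j = (n : ℝ) ^ ((j : ℝ) * eta d) := by
    intro j
    rw [hM, ← Real.rpow_natCast, ← Real.rpow_mul hn0.le, mul_comm]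
  have hk0 : (0 : ℝ) ≤ k := Nat.cast_nonneg _
  have p1 : 0 ≤ 16 * (k : ℝ) * (d + k + 1) / ε ^ 2 := by positivity
  have p2 : 0 ≤ 20 * ((d : ℝ) + 1) ^ 2 / ε := by positivity
  have p3 : 0 ≤ 4 / ε := by positivity
  have p4 : 0 ≤ 8 * (k : ℝ) * (d + k + 1) := by positivity
  have p5 : 0 ≤ 2 * ((d : ℝ) + k + 2) := by positivity
  have hM1 : 1 ≤ M := by linarith
  have core := z01_core (d : ℝ) (k : ℝ) ε (lW (eta d) n) (rW (eta d) n) (aW (gam d) n) s M hd1
    hk0 hε (Nat.cast_nonneg _) (Nat.cast_nonneg _) (Nat.cast_nonneg _) hM1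
    (by
      rw [hMpow 150, hs]
      refine Real.rpow_le_rpow_of_exponent_le hn1' ?_
      push_cast
      linarith)
    (by
      rw [hMpow 4, lW]
      push_cast
      exact Nat.floor_le (by positivity))
    (by
      rw [hMpow 2, hs, ← Real.rpow_add hn0, rW]
      push_cast
      exact Nat.floor_le (by positivity))
    (by
      rw [hMpow 100, hs2, aW]
      have h1 : (n : ℝ) / (n : ℝ) ^ (((100 : ℕ) : ℝ) * eta d) = (n : ℝ) ^ (1 - gam d) := by
        rw [Real.rpow_sub hn0, Real.rpow_one, hγ]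
        norm_num
      rw [h1]
      exact (Nat.ceil_lt_add_one (by positivity)).le)
    (by linarith)
    (by nlinarith)
    (by linarith)
    (by
      have h1 : 16 * (k : ℝ) * (d + k + 1) / ε ^ 2 ≤ M := by linarith
      rw [div_le_iff₀ (by positivity)] at h1
      linarith)
    (by
      have h1 : 20 * ((d : ℝ) + 1) ^ 2 / ε ≤ M := by linarith
      rw [div_le_iff₀ hε] at h1
      linarith)
    (by
      have h1 : 4 / ε ≤ M := by linarith
      rw [div_le_iff₀ hε] at h1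
      linarith)
  rw [hs2] at core
  obtain ⟨c1, c2, c3, c4, c5, c6, c7⟩ := core
  refine ⟨?_, ?_, ?_, c4, c5, c6, ?_⟩
  · exact_mod_cast c1
  · exact_mod_cast c2
  · exact_mod_cast c3
  · refine c7.trans (le_of_eq ?_)
    rw [hMpow 50, Real.rpow_sub hn0, Real.rpow_one, hγ]
    congr 2
    push_cast
    ring

end Pool.Agent.HC
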