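import Pool.Agent.Lib.MP_ec42c8_pr.Z01
import Pool.Agent.Lib.MP_ec42c8_pr.O04
import Pool.Agent.Lib.MP_ec42c8_pr.WT1
import Pool.Agent.Lib.MP_ec42c8_pr.WT2
import Pool.Agent.Lib.MP_ec42c8_pr.SL
import Pool.Agent.Lib.MP_ec42c8_pr.K03
import Pool.Agent.Lib.MP_ec42c8_pr.KL

/-!
# Z03 : the marginals of the joint law

Write `a, l, r, q, m, γ, η` for the parameters.
`Z03z`: if `Cond d a l K L S` and `a + d l ≤ n ^ (1 - γ/2)` then `F = K ∪ S` has degrees at most `d`, degree
`d` on `L`, and `card F ≤ a + d l` (`deg F v ≤ deg K v + deg S v`, one of them is `0`; `deg S v ≤ d` by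
`StarForest`; the edges of `S` are covered by the `d` edges at each of the at most `l` centres), so
under `CLp` the kernel `kap d k ε F L` satisfies `IsKap` (`Exists.choose_spec`).
`Z03a` (first marginal): `∑ H` of the inner function is `1{sig = σ}` (`kap` and the other cases have
sum `1`); exchange `av g` to the outside and use `O04` with the indicator of `σ`.
`Z03b` (second marginal).  `∑ σ, ∑ H, jw σ H Φ H = av_A av_ω av_g [if GW then ∑ H, kh .. H Φ H else Φ ∅]`.
(1) The part `not GW` is at most `pr (not GW) ≤ ε` (`WT1`).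
(2) For fixed `A` let `Φ_A L S θ := ∑ H, kh d k a l ε (KA d A) L S θ H * Φ H`, with values in `[0,1]`; `WT2` replaces
`av_ω 1{GW} av_g Φ_A (gL) (gS) (g TW)` by `av_ω 1{GW} av_g avOn (Tk k gL) (Φ_A (gL) (gS))`, error at most `ε`
(`Z02`).  If `Cond` holds then `avOn (Tk k L) (Φ_A L S) = avOn (Reg n d (K ∪ S)) Φ` by the marginal property of
`kap`; otherwise it is `Φ ∅`.
(3) Let `card (KA d A) ≤ a` and `GW ω`; then `Cond` is `Apart (KA d A) (relG g (SW ω))` (`deg_KK_le`,
`GoodW.star`, `GoodW.cardL`, `starForest_rel`, `card_relV`), and by `SL` (`Reg n d (KA d A)` is nonempty by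
`CLp` with `L = ∅`) `av_g 1{Apart} avOn (Reg n d (K ∪ gS)) Φ` is within `ε` of `avOn (Reg n d (KA d A)) Φ`; by `SL` for
`Φ = 1` the probability of `not Apart` is at most `ε`.
(4) So far: within `6 ε` of `av_A [1{card (KA d A) ≤ a} avOn (Reg n d (KA d A)) Φ]` (the parts `card > a` are
controlled by `K03`, `K03b`: at most `2 ε`).
(5) `K03b` (applied to `K ↦ avOn (Reg n d K) Φ`) and `KL`: within `2 ε + 2 ε` of `avOn (Reg n d ∅) Φ`.
The total is at most `12 ε`.
-/

set_option autoImplicit false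

namespace Pool.Agent.HC

open Finset
open scoped Classical

lemma z03_deg_union_le {n : ℕ} (K S : Gr n) (v : Fin n) :
    deg (K ∪ S) v ≤ deg K v + deg S v := by
  unfold deg
  rw [Finset.filter_union]
  exact Finset.card_union_le _ _

lemma z03_deg_union_right {n : ℕ} (K S : Gr n) (v : Fin n) (h : deg K v = 0) :
    deg (K ∪ S) v = deg S v := by
  unfold deg at *
  rw [Finset.filter_union, Finset.card_eq_zero.1 h, Finset.empty_union]

lemma z03_card_star {n : ℕ} (d : ℕ) (L : Finset (Fin n)) (S : Gr n) (hS : StarForest d L S) :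
    S.card ≤ d * L.card := by
  have h1 : S ⊆ L.biUnion (fun z => S.filter (fun e => z ∈ e.1)) := by
    intro e he
    obtain ⟨z, hz, x, _, hx⟩ := hS.edge e he
    refine Finset.mem_biUnion.2 ⟨z, hz, Finset.mem_filter.2 ⟨he, ?_⟩⟩
    rw [hx]
    simp
  calc S.card ≤ _ := Finset.card_le_card h1
    _ ≤ ∑ z ∈ L, (S.filter (fun e => z ∈ e.1)).card := Finset.card_biUnion_le
    _ = ∑ z ∈ L, d := Finset.sum_congr rfl (fun z hz => hS.center z hz)
    _ = d * L.card := by simp [mul_comm]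

theorem Z03z {n : ℕ} (d k a l : ℕ) (hd : 1 ≤ d) (γ ε : ℝ) (K S : Gr n) (L : Finset (Fin n))
    (hC : Cond d a l K L S) (h : (a : ℝ) + d * l ≤ (n : ℝ) ^ (1 - γ)) (hCL : CLp d k γ ε n) :
    IsKap d k ε (K ∪ S) L (kap d k ε (K ∪ S) L) := by
  obtain ⟨h1, h2, h3, h4, h5⟩ := hC
  have hdS : ∀ v, deg S v ≤ d := fun v => by
    by_cases hv : v ∈ L
    · exact (h4.center v hv).le
    · exact (h4.leaf v hv).trans hd
  have hdeg : ∀ v, deg (K ∪ S) v ≤ d := fun v => by
    rcases h3 v with h0 | h0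
    · rw [z03_deg_union_right _ _ _ h0]
      exact hdS v
    · have := z03_deg_union_le K S v
      have := h2 v
      omega
  have hL : ∀ v ∈ L, deg (K ∪ S) v = d := fun v hv => by
    have hs := h4.center v hv
    rcases h3 v with h0 | h0
    · rw [z03_deg_union_right _ _ _ h0]
      exact hs
    · omega
  have hcard : ((K ∪ S).card : ℝ) ≤ (n : ℝ) ^ (1 - γ) := by
    refine le_trans ?_ h
    have c1 : (K ∪ S).card ≤ K.card + S.card := Finset.card_union_le _ _
    have c2 := z03_card_star d L S h4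
    have c3 : d * L.card ≤ d * l := Nat.mul_le_mul_left _ h5
    have c4 : (K ∪ S).card ≤ a + d * l := by omega
    exact_mod_cast c4
  obtain ⟨_, hex⟩ := hCL (K ∪ S) L hdeg hL hcard
  unfold kap
  rw [dif_pos hex]
  exact hex.choose_spec

/-- the law of the regular graph for given randomness -/
noncomputable def z03_J (d k : ℕ) (ε : ℝ) (n : ℕ) (A : Fin (aW (gam d) n) → Fin n × Fin n)
    (ω : WΩ n k (mW (eta d) n)) (g : Equiv.Perm (Fin n)) (H : Gr n) : ℝ :=
  if GW d (qW (eta d) n) (rW (eta d) n) (lW (eta d) n) ω then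
    kh d k (aW (gam d) n) (lW (eta d) n) ε (KA d A) (relV g (Ls k (qW (eta d) n) ω.1 ω.2.1))
      (relG g (SW d (qW (eta d) n) ω)) (relT g (TW d (qW (eta d) n) ω)) H
  else if H = ∅ then 1 else 0

lemma z03_jw (d k : ℕ) (ε : ℝ) (n : ℕ) (σ : Ord n) (H : Gr n) :
    jw d k ε n σ H = av (fun A : Fin (aW (gam d) n) → Fin n × Fin n =>
      av (fun ω : WΩ n k (mW (eta d) n) => av (fun g : Equiv.Perm (Fin n) =>
        if sig A ω g = σ then z03_J d k ε n A ω g H else 0))) := rfl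

lemma z03_delta {n : ℕ} : ∑ H : Gr n, (if H = ∅ then (1 : ℝ) else 0) = 1 := by
  rw [Finset.sum_ite_eq']
  simp

lemma z03_kh {n : ℕ} (d k a l : ℕ) (hd : 1 ≤ d) (γ ε : ℝ)
    (h : (a : ℝ) + d * l ≤ (n : ℝ) ^ (1 - γ)) (hCL : CLp d k γ ε n)
    (K S : Gr n) (L : Finset (Fin n)) (θ : Fin n → Fin k → Fin n) :
    (∀ H, 0 ≤ kh d k a l ε K L S θ H) ∧ ∑ H, kh d k a l ε K L S θ H = 1 := by
  by_cases hC : Cond d a l K L S
  · have hk := Z03z d k a l hd γ ε K S L hC h hCL
    constructor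
    · intro H
      unfold kh
      rw [if_pos hC]
      exact hk.1 θ H
    · have : ∀ H, kh d k a l ε K L S θ H = kap d k ε (K ∪ S) L θ H := fun H => by
        unfold kh
        rw [if_pos hC]
      rw [Finset.sum_congr rfl fun H _ => this H]
      exact hk.2.1 θ
  · have : ∀ H, kh d k a l ε K L S θ H = if H = ∅ then 1 else 0 := fun H => by
      unfold kh
      rw [if_neg hC]
    constructor
    · intro H
      rw [this]
      split_ifs <;> norm_num
    · rw [Finset.sum_congr rfl fun H _ => this H]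
      exact z03_delta

lemma z03_J_law (d k : ℕ) (hd : 1 ≤ d) (ε : ℝ) (n : ℕ)
    (h : (aW (gam d) n : ℝ) + d * lW (eta d) n ≤ (n : ℝ) ^ (1 - gam d / 2))
    (hCL : CLp d k (gam d / 2) ε n) (A : Fin (aW (gam d) n) → Fin n × Fin n)
    (ω : WΩ n k (mW (eta d) n)) (g : Equiv.Perm (Fin n)) :
    (∀ H, 0 ≤ z03_J d k ε n A ω g H) ∧ ∑ H, z03_J d k ε n A ω g H = 1 := by
  by_cases hG : GW d (qW (eta d) n) (rW (eta d) n) (lW (eta d) n) ω
  · have h1 := z03_kh d k (aW (gam d) n) (lW (eta d) n) hd (gam d / 2) ε h hCL (KA d A)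
      (relG g (SW d (qW (eta d) n) ω)) (relV g (Ls k (qW (eta d) n) ω.1 ω.2.1))
      (relT g (TW d (qW (eta d) n) ω))
    have h2 : ∀ H, z03_J d k ε n A ω g H = kh d k (aW (gam d) n) (lW (eta d) n) ε (KA d A)
        (relV g (Ls k (qW (eta d) n) ω.1 ω.2.1))
        (relG g (SW d (qW (eta d) n) ω)) (relT g (TW d (qW (eta d) n) ω)) H := fun H => by
      unfold z03_J
      rw [if_pos hG]
    constructor
    · intro H
      rw [h2]
      exact h1.1 H
    · rw [Finset.sum_congr rfl fun H _ => h2 H]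
      exact h1.2
  · have h2 : ∀ H, z03_J d k ε n A ω g H = if H = ∅ then 1 else 0 := fun H => by
      unfold z03_J
      rw [if_neg hG]
    constructor
    · intro H
      rw [h2]
      split_ifs <;> norm_num
    · rw [Finset.sum_congr rfl fun H _ => h2 H]
      exact z03_delta

/-- integration against the joint law -/
lemma z03_mix (d k : ℕ) (ε : ℝ) (n : ℕ) (Ψ : Ord n → Gr n → ℝ) :
    ∑ σ : Ord n, ∑ H, jw d k ε n σ H * Ψ σ H =
      av (fun A : Fin (aW (gam d) n) → Fin n × Fin n =>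
        av (fun ω : WΩ n k (mW (eta d) n) => av (fun g : Equiv.Perm (Fin n) =>
          ∑ H, z03_J d k ε n A ω g H * Ψ (sig A ω g) H))) := by
  have e1 : ∀ (σ : Ord n) (H : Gr n), jw d k ε n σ H * Ψ σ H =
      av (fun A : Fin (aW (gam d) n) → Fin n × Fin n =>
        av (fun ω : WΩ n k (mW (eta d) n) => av (fun g : Equiv.Perm (Fin n) =>
          if sig A ω g = σ then z03_J d k ε n A ω g H * Ψ σ H else 0))) := by
    intro σ H
    rw [z03_jw, ← av_mul_right]
    refine av_congr fun A => ?_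
    rw [← av_mul_right]
    refine av_congr fun ω => ?_
    rw [← av_mul_right]
    refine av_congr fun g => ?_
    rw [ite_mul, zero_mul]
  simp only [e1]
  simp only [← av_sum]
  refine av_congr fun A => av_congr fun ω => av_congr fun g => ?_
  rw [Finset.sum_comm]
  refine Finset.sum_congr rfl fun H _ => ?_
  rw [Finset.sum_ite_eq]
  simp

theorem Z03a (d k : ℕ) (hd : 1 ≤ d) (ε : ℝ) (hε : 0 < ε) : ∃ n₀ : ℕ, ∀ n ≥ n₀, Even (d * n) →
    CLp d k (gam d / 2) ε n →
      (∀ σ H, 0 ≤ jw d k ε n σ H) ∧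
      ∀ σ : Ord n, ∑ H, jw d k ε n σ H = 1 / (Fintype.card (Ord n) : ℝ) := by
  obtain ⟨n₀, h0⟩ := Z02 d k hd ε hε
  refine ⟨n₀, fun n hn _ hCL => ?_⟩
  obtain ⟨hn2, _, _, _, _, _, _, hsz⟩ := h0 n hn
  have hJ := z03_J_law d k hd ε n hsz hCL
  constructor
  · intro σ H
    rw [z03_jw]
    refine av_nonneg fun A => av_nonneg fun ω => av_nonneg fun g => ?_
    split_ifs
    · exact (hJ A ω g).1 H
    · exact le_rfl
  · intro σ
    have e1 : ∑ H, jw d k ε n σ H = av (fun A : Fin (aW (gam d) n) → Fin n × Fin n =>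
        av (fun ω : WΩ n k (mW (eta d) n) => av (fun g : Equiv.Perm (Fin n) =>
          if sig A ω g = σ then (1 : ℝ) else 0))) := by
      simp only [z03_jw]
      simp only [← av_sum]
      refine av_congr fun A => av_congr fun ω => av_congr fun g => ?_
      by_cases hs : sig A ω g = σ
      · simp only [hs, if_true]
        exact (hJ A ω g).2
      · simp only [hs, if_false, Finset.sum_const_zero]
    have e2 : av (fun A : Fin (aW (gam d) n) → Fin n × Fin n =>
        av (fun ω : WΩ n k (mW (eta d) n) => av (fun g : Equiv.Perm (Fin n) =>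
          if sig A ω g = σ then (1 : ℝ) else 0))) =
        av (fun g : Equiv.Perm (Fin n) => av (fun A : Fin (aW (gam d) n) → Fin n × Fin n =>
          av (fun ω : WΩ n k (mW (eta d) n) => if sig A ω g = σ then (1 : ℝ) else 0))) := by
      rw [← av_comm (fun (A : Fin (aW (gam d) n) → Fin n × Fin n) (g : Equiv.Perm (Fin n)) =>
        av (fun ω : WΩ n k (mW (eta d) n) => if sig A ω g = σ then (1 : ℝ) else 0))]
      refine av_congr fun A => ?_
      exact av_comm _
    rw [e1, e2]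
    have e3 : ∀ g : Equiv.Perm (Fin n), av (fun A : Fin (aW (gam d) n) → Fin n × Fin n =>
          av (fun ω : WΩ n k (mW (eta d) n) => if sig A ω g = σ then (1 : ℝ) else 0)) =
        1 / (Fintype.card (Ord n) : ℝ) := by
      intro g
      have := O04 (n := n) (by omega) (aW (gam d) n) k (mW (eta d) n) g
        (fun σ' => if σ' = σ then (1 : ℝ) else 0)
      refine this.trans ?_
      simp [av]
    rw [av_congr e3, av_const]

/-- the integral of `Φ` for given initial array -/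
noncomputable def z03_P {n : ℕ} (d k a l : ℕ) (ε : ℝ) (Φ : Gr n → ℝ) (K : Gr n)
    (L : Finset (Fin n)) (S : Gr n) (θ : Fin n → Fin k → Fin n) : ℝ :=
  ∑ H, kh d k a l ε K L S θ H * Φ H

lemma z03_P_unit {n : ℕ} (d k a l : ℕ) (hd : 1 ≤ d) (γ ε : ℝ)
    (h : (a : ℝ) + d * l ≤ (n : ℝ) ^ (1 - γ)) (hCL : CLp d k γ ε n) (Φ : Gr n → ℝ)
    (hΦ : Unit01 Φ) (K : Gr n) (L : Finset (Fin n)) (S : Gr n) :
    Unit01 (z03_P d k a l ε Φ K L S) := by
  intro θ
  obtain ⟨h1, h2⟩ := z03_kh d k a l hd γ ε h hCL K S L θ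
  unfold z03_P
  constructor
  · exact Finset.sum_nonneg fun H _ => mul_nonneg (h1 H) (hΦ H).1
  · rw [← h2]
    exact Finset.sum_le_sum fun H _ => mul_le_of_le_one_right (h1 H) (hΦ H).2

lemma z03_P_avOn {n : ℕ} (d k a l : ℕ) (hd : 1 ≤ d) (γ ε : ℝ)
    (h : (a : ℝ) + d * l ≤ (n : ℝ) ^ (1 - γ)) (hCL : CLp d k γ ε n) (Φ : Gr n → ℝ)
    (K : Gr n) (L : Finset (Fin n)) (S : Gr n) (hC : Cond d a l K L S) :
    avOn (Tk k L) (z03_P d k a l ε Φ K L S) = avOn (Reg n d (K ∪ S)) Φ := by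
  have hk := Z03z d k a l hd γ ε K S L hC h hCL
  have e1 : avOn (Tk k L) (z03_P d k a l ε Φ K L S) =
      ∑ H, avOn (Tk k L) (fun θ => kap d k ε (K ∪ S) L θ H) * Φ H := by
    simp only [avOn]
    rw [Finset.sum_div]
    simp only [div_mul_eq_mul_div, Finset.sum_mul, ← Finset.sum_div]
    rw [Finset.sum_comm]
    congr 1
    refine Finset.sum_congr rfl fun θ _ => ?_
    unfold z03_P
    refine Finset.sum_congr rfl fun H _ => ?_
    unfold kh
    rw [if_pos hC]
  rw [e1]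
  simp only [hk.2.2.1, ite_mul, zero_mul]
  rw [← Finset.sum_filter]
  simp only [Finset.filter_mem_eq_inter, Finset.univ_inter]
  simp only [avOn, one_div, inv_mul_eq_div, Finset.sum_div]

lemma z03_pr {Ω : Type*} [Fintype Ω] (P : Ω → Prop) [inst : ∀ ω, Decidable (P ω)] :
    pr P = av (fun ω => if P ω then (1 : ℝ) else 0) := by
  unfold pr
  refine av_congr fun ω => ?_
  by_cases h : P ω <;> simp [h]

lemma z03_abs_sub_le_one {x y : ℝ} (hx : 0 ≤ x ∧ x ≤ 1) (hy : 0 ≤ y ∧ y ≤ 1) : |x - y| ≤ 1 := by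
  rw [abs_le]
  constructor <;> linarith [hx.1, hx.2, hy.1, hy.2]

lemma z03_av_unit {Ω : Type*} [Fintype Ω] {f : Ω → ℝ} (h : ∀ ω, 0 ≤ f ω ∧ f ω ≤ 1) :
    0 ≤ av f ∧ av f ≤ 1 :=
  ⟨av_nonneg fun ω => (h ω).1, av_le_of_nonneg zero_le_one fun ω => (h ω).2⟩

/-- planting the stars of a good window, for a planted graph of the right size -/
lemma z03_plant {n : ℕ} (d k a l : ℕ) (hd : 1 ≤ d) (hn : 1 ≤ n) (γ ε : ℝ)
    (h : (a : ℝ) + d * l ≤ (n : ℝ) ^ (1 - γ)) (hCL : CLp d k γ ε n)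
    (h4 : 4 * ((d : ℝ) + 1) ^ 2 * l * (2 * a + l) / n ≤ ε)
    (Φ : Gr n → ℝ) (hΦ : Unit01 Φ) (K : Gr n) (hK : ∀ v, deg K v ≤ d) (hKa : K.card ≤ a)
    (L : Finset (Fin n)) (hL : L.card ≤ l) (S : Gr n) (hS : StarForest d L S) :
    pr (fun g : Equiv.Perm (Fin n) => ¬ Apart K (relG g S)) ≤ ε ∧
    |av (fun g : Equiv.Perm (Fin n) =>
        avOn (Tk k (relV g L)) (z03_P d k a l ε Φ K (relV g L) (relG g S))) -
      avOn (Reg n d K) Φ| ≤ 2 * ε := by
  have hn0 : (0 : ℝ) < n := by exact_mod_cast hn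
  have hKr : (K.card : ℝ) ≤ a := by exact_mod_cast hKa
  have hLr : (L.card : ℝ) ≤ l := by exact_mod_cast hL
  have hd0 : (0 : ℝ) ≤ d := Nat.cast_nonneg d
  have hne : (Reg n d K).Nonempty := by
    refine (hCL K ∅ hK (fun v hv => absurd hv (Finset.notMem_empty v)) ?_).1
    refine le_trans hKr (le_trans ?_ h)
    have : (0 : ℝ) ≤ d * l := by positivity
    linarith
  have hbase := SL d hd hn L S hS K hne
  have hmono : 4 * ((d : ℝ) + 1) ^ 2 * L.card * (2 * K.card + L.card) / n ≤ ε := by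
    refine le_trans ?_ h4
    gcongr
  have hA : pr (fun g : Equiv.Perm (Fin n) => ¬ Apart K (relG g S)) ≤ ε := by
    refine (SLb_apart d hn L S hS K).trans (le_trans ?_ hmono)
    gcongr ?_ / _
    have e1 : ((d : ℝ) + 1) * L.card * (2 * K.card) ≤
        (((d : ℝ) + 1) * L.card * (2 * K.card + L.card)) := by
      have : (0 : ℝ) ≤ ((d : ℝ) + 1) * L.card := by positivity
      have h' : (2 * K.card : ℝ) ≤ 2 * K.card + L.card := by
        have : (0 : ℝ) ≤ L.card := Nat.cast_nonneg _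
        linarith
      exact mul_le_mul_of_nonneg_left h' this
    refine e1.trans ?_
    have e2 : ((d : ℝ) + 1) ≤ 4 * ((d : ℝ) + 1) ^ 2 := by nlinarith
    have e3 : (0 : ℝ) ≤ L.card * (2 * K.card + L.card) := by positivity
    calc ((d : ℝ) + 1) * L.card * (2 * K.card + L.card)
        = ((d : ℝ) + 1) * (L.card * (2 * K.card + L.card)) := by ring
      _ ≤ 4 * ((d : ℝ) + 1) ^ 2 * (L.card * (2 * K.card + L.card)) :=
          mul_le_mul_of_nonneg_right e2 e3
      _ = _ := by ring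
  refine ⟨hA, ?_⟩
  have hP := fun (g : Equiv.Perm (Fin n)) =>
    z03_P_unit d k a l hd γ ε h hCL Φ hΦ K (relV g L) (relG g S)
  have h1 : |av (fun g : Equiv.Perm (Fin n) =>
        avOn (Tk k (relV g L)) (z03_P d k a l ε Φ K (relV g L) (relG g S))) -
      av (fun g : Equiv.Perm (Fin n) =>
        if Apart K (relG g S) then avOn (Reg n d (K ∪ relG g S)) Φ else 0)| ≤ ε := by
    refine (abs_av_sub_le _ _ (fun g => avOn_unit (hP g)) (fun g => ?_)
      (fun g => ¬ Apart K (relG g S)) (fun g hg => ?_)).trans hA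
    · split_ifs
      · exact avOn_unit hΦ
      · exact ⟨le_rfl, zero_le_one⟩
    · have hg' : Apart K (relG g S) := not_not.1 hg
      rw [if_pos hg']
      refine z03_P_avOn d k a l hd γ ε h hCL Φ K (relV g L) (relG g S) ⟨hKa, hK, hg', ?_, ?_⟩
      · exact (starForest_rel g d L S).2 hS
      · rw [card_relV]
        exact hL
  have h2 := (hbase Φ hΦ).trans hmono
  calc _ ≤ |av (fun g : Equiv.Perm (Fin n) =>
        avOn (Tk k (relV g L)) (z03_P d k a l ε Φ K (relV g L) (relG g S))) -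
      av (fun g : Equiv.Perm (Fin n) =>
        if Apart K (relG g S) then avOn (Reg n d (K ∪ relG g S)) Φ else 0)| +
        |av (fun g : Equiv.Perm (Fin n) =>
        if Apart K (relG g S) then avOn (Reg n d (K ∪ relG g S)) Φ else 0) -
      avOn (Reg n d K) Φ| := abs_sub_le _ _ _
    _ ≤ 2 * ε := by linarith

lemma z03_gam (d : ℕ) : 0 < gam d ∧ gam d * ((d : ℝ) + 1) < 1 := by
  unfold gam
  have h : (0 : ℝ) < (d : ℝ) + 2 := by positivity
  refine ⟨by positivity, ?_⟩
  rw [one_div, inv_mul_lt_iff₀ h]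
  linarith

lemma z03_eta (d : ℕ) : 0 < eta d ∧ eta d ≤ 1 / 100 := by
  unfold eta
  have h0 : (0 : ℝ) ≤ d := Nat.cast_nonneg d
  refine ⟨by positivity, ?_⟩
  refine one_div_le_one_div_of_le (by norm_num) ?_
  nlinarith

/-- the planted graph is small -/
lemma z03_small (d : ℕ) (hd : 1 ≤ d) (ε : ℝ) (hε : 0 < ε) : ∃ n₀ : ℕ, ∀ n ≥ n₀,
    pr (fun A : Fin (aW (gam d) n) → Fin n × Fin n => aW (gam d) n < (KA d A).card) ≤ 2 * ε := by
  obtain ⟨n₁, h1⟩ := K03 d hd (gam d) ε (z03_gam d).1 (z03_gam d).2 hε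
  obtain ⟨n₂, h2⟩ := K03b d hd (gam d) ε (z03_gam d).1 (z03_gam d).2 hε
  refine ⟨max n₁ n₂, fun n hn => ?_⟩
  have a1 := h1 n ((le_max_left _ _).trans hn)
  have a2 := h2 n ((le_max_right _ _).trans hn) (Fintype.equivFin (Edge n))
    (fun K => if aW (gam d) n < K.card then (1 : ℝ) else 0) (fun K => by
      dsimp only
      split_ifs <;> norm_num)
  have a3 := (abs_le.1 a2).2
  have a4 : pr (fun A : Fin (aW (gam d) n) → Fin n × Fin n => aW (gam d) n < (KA d A).card) =
      av (fun A : Fin (aW (gam d) n) → Fin n × Fin n =>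
        if aW (gam d) n < (KK d (ordOf (rk A (Fintype.equivFin (Edge n))))).card
        then (1 : ℝ) else 0) :=
    z03_pr (fun A : Fin (aW (gam d) n) → Fin n × Fin n => aW (gam d) n < (KA d A).card)
  have a5 : pr (fun σ : Ord n => aW (gam d) n < (KK d σ).card) =
      av (fun σ : Ord n => if aW (gam d) n < (KK d σ).card then (1 : ℝ) else 0) := z03_pr _
  rw [a4]
  rw [a5] at a1
  linarith

lemma z03_ne {n k m : ℕ} [Nonempty (Fin n)] : Nonempty (WΩ n k m) :=
  ⟨(fun _ => Classical.arbitrary _, fun _ => Classical.arbitrary _,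
    fun _ => Classical.arbitrary _, fun _ _ => Classical.arbitrary _, Fintype.equivFin _)⟩

theorem Z03b (d k : ℕ) (hd : 1 ≤ d) (ε : ℝ) (hε : 0 < ε) : ∃ n₀ : ℕ, ∀ n ≥ n₀, Even (d * n) →
    CLp d k (gam d / 2) ε n → ∀ Φ : Gr n → ℝ, Unit01 Φ →
      |∑ σ : Ord n, ∑ H, jw d k ε n σ H * Φ H - avOn (Reg n d ∅) Φ| ≤ 12 * ε := by
  obtain ⟨n₀, h0⟩ := Z02 d k hd ε hε
  obtain ⟨n₁, h1⟩ := WT1 d k hd (eta d) (z03_eta d).1 (z03_eta d).2 ε hε
  obtain ⟨n₂, h2⟩ := z03_small d hd ε hε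
  obtain ⟨n₃, h3⟩ := K03b d hd (gam d) ε (z03_gam d).1 (z03_gam d).2 hε
  obtain ⟨n₄, h4⟩ := KL d hd ε hε
  refine ⟨max n₀ (max n₁ (max n₂ (max n₃ n₄))), fun n hn hev hCL Φ hΦ => ?_⟩
  have hb0 : n₀ ≤ n := (le_max_left _ _).trans hn
  have hb0' := (le_max_right _ _).trans hn
  have hb1 : n₁ ≤ n := (le_max_left _ _).trans hb0'
  have hb1' := (le_max_right _ _).trans hb0'
  have hb2 : n₂ ≤ n := (le_max_left _ _).trans hb1'
  have hb2' := (le_max_right _ _).trans hb1'
  have hb3 : n₃ ≤ n := (le_max_left _ _).trans hb2'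
  have hb4 : n₄ ≤ n := (le_max_right _ _).trans hb2'
  obtain ⟨hn2, c1, c2, c3, c4, c5, _, hsz⟩ := h0 n hb0
  have hn1 : 1 ≤ n := by omega
  have hFne : Nonempty (Fin n) := ⟨⟨0, hn1⟩⟩
  have hWne : Nonempty (WΩ n k (mW (eta d) n)) := z03_ne
  have e1 := h1 n hb1
  have e2 := h2 n hb2
  have e3 := h3 n hb3 (Fintype.equivFin (Edge n)) (fun K => avOn (Reg n d K) Φ)
    (fun K => avOn_unit hΦ)
  have e4 := h4 n hb4 hev Φ hΦ
  have hmix := z03_mix d k ε n (fun _ H => Φ H)
  rw [hmix]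
  have hJ := z03_J_law d k hd ε n hsz hCL
  have hPu := fun (K : Gr n) (L : Finset (Fin n)) (S : Gr n) =>
    z03_P_unit d k (aW (gam d) n) (lW (eta d) n) hd (gam d / 2) ε hsz hCL Φ hΦ K L S
  -- step 1
  have s1 : ∀ A : Fin (aW (gam d) n) → Fin n × Fin n,
      |av (fun ω : WΩ n k (mW (eta d) n) => av (fun g : Equiv.Perm (Fin n) =>
          ∑ H, z03_J d k ε n A ω g H * Φ H)) -
        av (fun ω : WΩ n k (mW (eta d) n) =>
          if GoodW d (qW (eta d) n) (rW (eta d) n) (lW (eta d) n) ω.1 ω.2.1 ω.2.2.1 ω.2.2.2.1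
            ω.2.2.2.2 then
          av (fun g : Equiv.Perm (Fin n) => z03_P d k (aW (gam d) n) (lW (eta d) n) ε Φ (KA d A)
            (relV g (Ls k (qW (eta d) n) ω.1 ω.2.1))
            (relG g (SS d (rk (BB ω.1 ω.2.1 ω.2.2.1 ω.2.2.2.1) ω.2.2.2.2)
              (Ls k (qW (eta d) n) ω.1 ω.2.1)))
            (relT g (TT d (qW (eta d) n) ω.1 ω.2.1 ω.2.2.1 ω.2.2.2.1 ω.2.2.2.2))) else 0)| ≤ ε := by
    intro A
    refine (abs_av_sub_le _ _ (fun ω => z03_av_unit fun g => ?_) (fun ω => ?_) _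
      (fun ω hω => ?_)).trans e1
    · constructor
      · exact Finset.sum_nonneg fun H _ => mul_nonneg ((hJ A ω g).1 H) (hΦ H).1
      · rw [← (hJ A ω g).2]
        exact Finset.sum_le_sum fun H _ => mul_le_of_le_one_right ((hJ A ω g).1 H) (hΦ H).2
    · split_ifs
      · exact z03_av_unit fun g => hPu _ _ _ _
      · exact ⟨le_rfl, zero_le_one⟩
    · have hω' := not_not.1 hω
      rw [if_pos hω']
      refine av_congr fun g => ?_
      unfold z03_P
      refine Finset.sum_congr rfl fun H _ => ?_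
      unfold z03_J
      rw [if_pos (show GW d (qW (eta d) n) (rW (eta d) n) (lW (eta d) n) ω from hω')]
      rfl
  -- step 2
  have s2 : ∀ A : Fin (aW (gam d) n) → Fin n × Fin n, _ := fun A =>
    (WT2 k (mW (eta d) n) d (qW (eta d) n) (rW (eta d) n) (lW (eta d) n) c1 c2 c3
      (z03_P d k (aW (gam d) n) (lW (eta d) n) ε Φ (KA d A)) (fun L S => hPu _ L S)).trans c4
  -- step 3
  have s3 : ∀ A : Fin (aW (gam d) n) → Fin n × Fin n, (KA d A).card ≤ aW (gam d) n →
      |av (fun ω : WΩ n k (mW (eta d) n) =>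
          if GoodW d (qW (eta d) n) (rW (eta d) n) (lW (eta d) n) ω.1 ω.2.1 ω.2.2.1 ω.2.2.2.1
            ω.2.2.2.2 then
          av (fun g : Equiv.Perm (Fin n) => avOn (Tk k (relV g (Ls k (qW (eta d) n) ω.1 ω.2.1)))
            (z03_P d k (aW (gam d) n) (lW (eta d) n) ε Φ (KA d A)
            (relV g (Ls k (qW (eta d) n) ω.1 ω.2.1))
            (relG g (SS d (rk (BB ω.1 ω.2.1 ω.2.2.1 ω.2.2.2.1) ω.2.2.2.2)
              (Ls k (qW (eta d) n) ω.1 ω.2.1))))) else 0) -
        avOn (Reg n d (KA d A)) Φ| ≤ 3 * ε := by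
    intro A hA
    have hc : avOn (Reg n d (KA d A)) Φ =
        av (fun _ : WΩ n k (mW (eta d) n) => avOn (Reg n d (KA d A)) Φ) := (av_const _).symm
    rw [hc, ← av_sub]
    refine (abs_av_le _).trans ?_
    have hb : av (fun ω : WΩ n k (mW (eta d) n) => 2 * ε +
        (if ¬ GoodW d (qW (eta d) n) (rW (eta d) n) (lW (eta d) n) ω.1 ω.2.1 ω.2.2.1 ω.2.2.2.1
          ω.2.2.2.2 then (1 : ℝ) else 0)) ≤ 3 * ε := by
      rw [av_add, av_const]
      have : pr (fun ω : WΩ n k (mW (eta d) n) => ¬ GoodW d (qW (eta d) n) (rW (eta d) n)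
        (lW (eta d) n) ω.1 ω.2.1 ω.2.2.1 ω.2.2.2.1 ω.2.2.2.2) =
        av (fun ω : WΩ n k (mW (eta d) n) =>
        (if ¬ GoodW d (qW (eta d) n) (rW (eta d) n) (lW (eta d) n) ω.1 ω.2.1 ω.2.2.1 ω.2.2.2.1
          ω.2.2.2.2 then (1 : ℝ) else 0)) := z03_pr _
      rw [← this]
      linarith
    refine le_trans (av_mono fun ω => ?_) hb
    by_cases hG : GoodW d (qW (eta d) n) (rW (eta d) n) (lW (eta d) n) ω.1 ω.2.1 ω.2.2.1 ω.2.2.2.1
          ω.2.2.2.2
    · simp only [hG, if_true, not_true_eq_false, if_false, add_zero]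
      exact (z03_plant d k (aW (gam d) n) (lW (eta d) n) hd hn1 (gam d / 2) ε hsz hCL c5 Φ hΦ
        (KA d A) (fun v => deg_KK_le d _ v) hA _ hG.cardL _ hG.star).2
    · simp only [hG, if_false, not_false_eq_true, if_true]
      have := z03_abs_sub_le_one (x := 0) (y := avOn (Reg n d (KA d A)) Φ)
        ⟨le_rfl, zero_le_one⟩ (avOn_unit hΦ)
      linarith
  -- all steps for one array
  have s4 : ∀ A : Fin (aW (gam d) n) → Fin n × Fin n,
      |av (fun ω : WΩ n k (mW (eta d) n) => av (fun g : Equiv.Perm (Fin n) =>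
          ∑ H, z03_J d k ε n A ω g H * Φ H)) - avOn (Reg n d (KA d A)) Φ| ≤
        5 * ε + if aW (gam d) n < (KA d A).card then (1 : ℝ) else 0 := by
    intro A
    by_cases hA : aW (gam d) n < (KA d A).card
    · rw [if_pos hA]
      have hu : 0 ≤ av (fun ω : WΩ n k (mW (eta d) n) => av (fun g : Equiv.Perm (Fin n) =>
          ∑ H, z03_J d k ε n A ω g H * Φ H)) ∧ av (fun ω : WΩ n k (mW (eta d) n) =>
          av (fun g : Equiv.Perm (Fin n) => ∑ H, z03_J d k ε n A ω g H * Φ H)) ≤ 1 :=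
        z03_av_unit fun ω => z03_av_unit fun g =>
          ⟨Finset.sum_nonneg fun H _ => mul_nonneg ((hJ A ω g).1 H) (hΦ H).1, by
            rw [← (hJ A ω g).2]
            exact Finset.sum_le_sum fun H _ =>
              mul_le_of_le_one_right ((hJ A ω g).1 H) (hΦ H).2⟩
      have := z03_abs_sub_le_one hu (avOn_unit (s := Reg n d (KA d A)) hΦ)
      linarith
    · rw [if_neg hA, add_zero]
      have t1 := s1 A
      have t2 := s2 A
      have t3 := s3 A (not_lt.1 hA)
      have u1 := abs_le.1 t1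
      have u2 := abs_le.1 t2
      have u3 := abs_le.1 t3
      rw [abs_le]
      constructor <;> linarith [u1.1, u1.2, u2.1, u2.2, u3.1, u3.2]
  have s5 : |av (fun A : Fin (aW (gam d) n) → Fin n × Fin n =>
        av (fun ω : WΩ n k (mW (eta d) n) => av (fun g : Equiv.Perm (Fin n) =>
          ∑ H, z03_J d k ε n A ω g H * Φ H))) -
      av (fun A : Fin (aW (gam d) n) → Fin n × Fin n => avOn (Reg n d (KA d A)) Φ)| ≤ 7 * ε := by
    rw [← av_sub]
    refine (abs_av_le _).trans ?_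
    refine (av_mono s4).trans ?_
    rw [av_add, av_const]
    have : pr (fun A : Fin (aW (gam d) n) → Fin n × Fin n => aW (gam d) n < (KA d A).card) =
      av (fun A : Fin (aW (gam d) n) → Fin n × Fin n =>
        if aW (gam d) n < (KA d A).card then (1 : ℝ) else 0) := z03_pr _
    rw [← this]
    linarith
  have e3' : |av (fun A : Fin (aW (gam d) n) → Fin n × Fin n => avOn (Reg n d (KA d A)) Φ) -
      av (fun σ : Ord n => avOn (Reg n d (KK d σ)) Φ)| ≤ ε := e3
  have u1 := abs_le.1 s5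
  have u2 := abs_le.1 e3'
  have u3 := abs_le.1 e4
  rw [abs_le]
  constructor <;> linarith [u1.1, u1.2, u2.1, u2.2, u3.1, u3.2]

end Pool.Agent.HC
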