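import Pool.Agent.Lib.MP_ec42c8_pr.Z03
import Pool.Agent.Lib.MP_ec42c8_pr.O06
import Pool.Agent.Lib.MP_ec42c8_pr.WT5
import Pool.Agent.Lib.MP_ec42c8_pr.W20

/-!
# Z04 : the bad event has small probability

PROOF.  `∑ σ, ∑ H, [not Fits] jw = av_A av_ω av_g ∑ H, [not Fits d (sig A ω g) H] (..)`.  Suppose that
(1) `GW ω`; (2) `Cond d a l (KA d A) (gL) (gS)`; (3) some degree of `bedges A` is larger than `d`;
(4) no edge of `bedges A` contains an element of `gL = relV g L`; (5) some vertex has degree `0` in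
`bedges (app A (relB g BB))`, hence (`bedges_app`) in `bedges A` and in `bedges (relB g BB)`; and
(6) `F ⊆ H ⊆ F ∪ pk (gL) (g TW)`, `F = KA d A ∪ gS`.
Then `Fits d (sig A ω g) H` by `O06` with `B = relB g BB`, `ρ = (relE g).symm.trans ρ_ω`, `L = gL`:
`KK d (sig ..) = KA d A` by `O05`; `SS d (rk B ρ) gL = gS` by `SS_rel`; `pk (gL) (g TW) = relG g (pk L TW) ⊆
relG g (bedges BB) = bedges (relB g BB)` by `pk_rel`, `WT5`, `relG_subset_iff`, `bedges_relB`.
PROBABILITIES.  not (1): `WT1`, `≤ ε`.  (1) and not (2): as in `Z03b`, step (3): `≤ 3 ε`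
(`K03`, `K03b` for `card (KA d A) > a`, `SL` with `Φ = 1`).  not (3): `K02`, `≤ ε`.  not (4): `Z01` with
`Q` the set of the at most `2 a` vertices of nonzero degree in `bedges A`, if `card L ≤ l`: `≤ ε` (`Z02`).
not (5): `O04b` and `W20b`, `≤ ε`.  (1), (2), not (6): by `WT2` applied to
`Φ_A L S θ = if Cond then ∑ H, [not (F ⊆ H ⊆ F ∪ pk L θ)] kap .. θ H else 0` (values in `[0,1]`) and `IsKap`
(`Z03z`): `≤ 2 ε`.
-/

set_option autoImplicit false

namespace Pool.Agent.HC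

open Finset
open scoped Classical

/-- the part of the law of the regular graph that is not between `K ∪ S` and the picks -/
noncomputable def z04_B {n : ℕ} (d k a l : ℕ) (ε : ℝ) (K : Gr n)
    (L : Finset (Fin n)) (S : Gr n) (θ : Fin n → Fin k → Fin n) : ℝ :=
  if Cond d a l K L S then
    ∑ H, (if K ∪ S ⊆ H ∧ H ⊆ K ∪ S ∪ pk L θ then 0 else kap d k ε (K ∪ S) L θ H) else 0

lemma z04_B_unit {n : ℕ} (d k a l : ℕ) (hd : 1 ≤ d) (γ ε : ℝ)
    (h : (a : ℝ) + d * l ≤ (n : ℝ) ^ (1 - γ)) (hCL : CLp d k γ ε n)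
    (K : Gr n) (L : Finset (Fin n)) (S : Gr n) : Unit01 (z04_B d k a l ε K L S) := by
  intro θ
  unfold z04_B
  split_ifs with hC
  · have hk := Z03z d k a l hd γ ε K S L hC h hCL
    constructor
    · exact Finset.sum_nonneg fun H _ => by
        split_ifs
        · exact le_rfl
        · exact hk.1 θ H
    · rw [← hk.2.1 θ]
      exact Finset.sum_le_sum fun H _ => by
        split_ifs
        · exact hk.1 θ H
        · exact le_rfl
  · exact ⟨le_rfl, zero_le_one⟩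

lemma z04_B_avOn {n : ℕ} (d k a l : ℕ) (hd : 1 ≤ d) (γ ε : ℝ) (hε : 0 ≤ ε)
    (h : (a : ℝ) + d * l ≤ (n : ℝ) ^ (1 - γ)) (hCL : CLp d k γ ε n)
    (K : Gr n) (L : Finset (Fin n)) (S : Gr n) :
    avOn (Tk k L) (z04_B d k a l ε K L S) ≤ ε := by
  by_cases hC : Cond d a l K L S
  · have hk := Z03z d k a l hd γ ε K S L hC h hCL
    refine le_trans (le_of_eq (avOn_congr fun θ _ => ?_)) hk.2.2.2
    unfold z04_B
    rw [if_pos hC]
  · refine avOn_le_of_nonneg hε fun θ _ => ?_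
    unfold z04_B
    rw [if_neg hC]
    exact hε

/-- the vertices covered by the initial array -/
noncomputable def z04_Q {n a : ℕ} (A : Fin a → Fin n × Fin n) : Finset (Fin n) :=
  Finset.univ.filter (fun v => deg (bedges A) v ≠ 0)

lemma z04_card_Q {n a : ℕ} (A : Fin a → Fin n × Fin n) : (z04_Q A).card ≤ 2 * a := by
  have h1 : (z04_Q A).card ≤ ∑ v, deg (bedges A) v := by
    rw [Finset.card_eq_sum_ones, z04_Q, Finset.sum_filter]
    exact Finset.sum_le_sum fun v _ => by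
      split_ifs with h
      · exact Nat.one_le_iff_ne_zero.2 h
      · exact Nat.zero_le _
  rw [P03f] at h1
  have := card_bedges_le A
  omega

lemma z04_mem_deg {n : ℕ} (H : Gr n) (e : Edge n) (v : Fin n) (he : e ∈ H) (hv : v ∈ e.1) :
    deg H v ≠ 0 := by
  unfold deg
  rw [Finset.card_ne_zero]
  exact ⟨e, Finset.mem_filter.2 ⟨he, hv⟩⟩

/-- the containment -/
lemma z04_fits {n k : ℕ} (d : ℕ) (hd : 1 ≤ d) (A : Fin (aW (gam d) n) → Fin n × Fin n)
    (ω : WΩ n k (mW (eta d) n)) (g : Equiv.Perm (Fin n)) (H : Gr n)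
    (hG : GW d (qW (eta d) n) (rW (eta d) n) (lW (eta d) n) ω)
    (h1 : ¬ ∀ v, deg (bedges A) v ≤ d)
    (h2 : ¬ ∀ v, deg (bedges (app A (relB g (BB ω.1 ω.2.1 ω.2.2.1 ω.2.2.2.1)))) v ≠ 0)
    (h3 : ¬ ∃ z ∈ Ls k (qW (eta d) n) ω.1 ω.2.1, g z ∈ z04_Q A)
    (hH1 : KA d A ∪ relG g (SW d (qW (eta d) n) ω) ⊆ H)
    (hH2 : H ⊆ KA d A ∪ relG g (SW d (qW (eta d) n) ω) ∪
      pk (relV g (Ls k (qW (eta d) n) ω.1 ω.2.1)) (relT g (TW d (qW (eta d) n) ω))) :
    Fits d (sig A ω g) H := by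
  have h1' : ∃ v, d < deg (bedges A) v := by
    by_contra hc
    apply h1
    intro v
    by_contra hv
    exact hc ⟨v, not_le.1 hv⟩
  have hO5 := fun B ρ => (O05 (m := mW (eta d) n) d A B ρ (Fintype.equivFin (Edge n)) h1').1
  have hKK : KK d (ordOf (rk (app A (relB g (BB ω.1 ω.2.1 ω.2.2.1 ω.2.2.2.1)))
      ((relE g).symm.trans ω.2.2.2.2))) = KA d A := hO5 _ _
  have hSS : SS d (rk (relB g (BB ω.1 ω.2.1 ω.2.2.1 ω.2.2.2.1)) ((relE g).symm.trans ω.2.2.2.2))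
      (relV g (Ls k (qW (eta d) n) ω.1 ω.2.1)) = relG g (SW d (qW (eta d) n) ω) :=
    SS_rel g d _ _ _
  refine O06 d hd A (relB g (BB ω.1 ω.2.1 ω.2.2.1 ω.2.2.2.1)) ((relE g).symm.trans ω.2.2.2.2)
    (relV g (Ls k (qW (eta d) n) ω.1 ω.2.1)) H h1' ?_ ?_ ?_ ?_
  · by_contra hc
    apply h2
    intro v hv
    apply hc
    rw [bedges_app] at hv
    refine ⟨v, ?_, ?_⟩
    · have := deg_mono (H := bedges A) (Finset.subset_union_left
        (s₂ := bedges (relB g (BB ω.1 ω.2.1 ω.2.2.1 ω.2.2.2.1)))) v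
      omega
    · have := deg_mono (H := bedges (relB g (BB ω.1 ω.2.1 ω.2.2.1 ω.2.2.2.1)))
        (Finset.subset_union_right (s₁ := bedges A)) v
      omega
  · intro e he z hz hze
    apply h3
    rw [mem_relV] at hz
    refine ⟨g.symm z, hz, ?_⟩
    rw [Equiv.apply_symm_apply]
    exact Finset.mem_filter.2 ⟨Finset.mem_univ _, z04_mem_deg _ e z he hze⟩
  · rw [hKK]
    exact Finset.union_subset_left hH1
  · rw [hKK, hSS]
    refine hH2.trans (Finset.union_subset_union le_rfl ?_)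
    rw [bedges_relB]
    have : pk (relV g (Ls k (qW (eta d) n) ω.1 ω.2.1)) (relT g (TW d (qW (eta d) n) ω)) =
        relG g (pk (Ls k (qW (eta d) n) ω.1 ω.2.1) (TW d (qW (eta d) n) ω)) := pk_rel g _ _
    rw [this, relG_subset_iff]
    exact WT5 d (qW (eta d) n) (rW (eta d) n) (lW (eta d) n) _ _ _ _ _ hG

/-- indicator -/
noncomputable def z04_i (P : Prop) : ℝ := if P then 1 else 0

lemma z04_i0 (P : Prop) : 0 ≤ z04_i P := by
  unfold z04_i
  split_ifs <;> norm_num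

lemma z04_i1 (P : Prop) : z04_i P ≤ 1 := by
  unfold z04_i
  split_ifs <;> norm_num

lemma z04_ip {P : Prop} (h : P) : z04_i P = 1 := by
  unfold z04_i
  rw [if_pos h]

lemma z04_in {P : Prop} (h : ¬ P) : z04_i P = 0 := by
  unfold z04_i
  rw [if_neg h]

lemma z04_iu (P : Prop) : 0 ≤ z04_i P ∧ z04_i P ≤ 1 := ⟨z04_i0 P, z04_i1 P⟩

lemma z04_pr {Ω : Type*} [Fintype Ω] (P : Ω → Prop) : pr P = av (fun ω => z04_i (P ω)) := rfl

lemma z04_case {x a b c d e f : ℝ} (hx : x ≤ 1) (ha : 0 ≤ a) (hb : 0 ≤ b) (hc : 0 ≤ c)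
    (hd : 0 ≤ d) (he : 0 ≤ e) (hf : 0 ≤ f)
    (h : a = 1 ∨ b = 1 ∨ c = 1 ∨ d = 1 ∨ e = 1 ∨ x ≤ f) : x ≤ a + b + c + d + e + f := by
  rcases h with h | h | h | h | h | h <;> linarith

/-- the sixth part -/
noncomputable def z04_F (d k : ℕ) (ε : ℝ) (n : ℕ) (A : Fin (aW (gam d) n) → Fin n × Fin n)
    (ω : WΩ n k (mW (eta d) n)) (g : Equiv.Perm (Fin n)) : ℝ :=
  if GW d (qW (eta d) n) (rW (eta d) n) (lW (eta d) n) ω then
    z04_B d k (aW (gam d) n) (lW (eta d) n) ε (KA d A)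
      (relV g (Ls k (qW (eta d) n) ω.1 ω.2.1)) (relG g (SW d (qW (eta d) n) ω))
      (relT g (TW d (qW (eta d) n) ω)) else 0

/-- the second event -/
def z04_E2 (d k : ℕ) (n : ℕ) (A : Fin (aW (gam d) n) → Fin n × Fin n)
    (ω : WΩ n k (mW (eta d) n)) (g : Equiv.Perm (Fin n)) : Prop :=
  GW d (qW (eta d) n) (rW (eta d) n) (lW (eta d) n) ω ∧
    ¬ Cond d (aW (gam d) n) (lW (eta d) n) (KA d A) (relV g (Ls k (qW (eta d) n) ω.1 ω.2.1))
      (relG g (SW d (qW (eta d) n) ω))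

/-- the fourth event -/
def z04_E4 (d k : ℕ) (n : ℕ) (A : Fin (aW (gam d) n) → Fin n × Fin n)
    (ω : WΩ n k (mW (eta d) n)) (g : Equiv.Perm (Fin n)) : Prop :=
  GW d (qW (eta d) n) (rW (eta d) n) (lW (eta d) n) ω ∧
    ∃ z ∈ Ls k (qW (eta d) n) ω.1 ω.2.1, g z ∈ z04_Q A

/-- the fifth event -/
def z04_E5 (d k : ℕ) (n : ℕ) (A : Fin (aW (gam d) n) → Fin n × Fin n)
    (ω : WΩ n k (mW (eta d) n)) (g : Equiv.Perm (Fin n)) : Prop :=
  ∀ v, deg (bedges (app A (relB g (BB ω.1 ω.2.1 ω.2.2.1 ω.2.2.2.1)))) v ≠ 0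

/-- the pointwise bound -/
lemma z04_point (d k : ℕ) (hd : 1 ≤ d) (ε : ℝ) (n : ℕ)
    (h : (aW (gam d) n : ℝ) + d * lW (eta d) n ≤ (n : ℝ) ^ (1 - gam d / 2))
    (hCL : CLp d k (gam d / 2) ε n) (A : Fin (aW (gam d) n) → Fin n × Fin n)
    (ω : WΩ n k (mW (eta d) n)) (g : Equiv.Perm (Fin n)) :
    ∑ H, z03_J d k ε n A ω g H * z04_i (¬ Fits d (sig A ω g) H) ≤
      z04_i (¬ GW d (qW (eta d) n) (rW (eta d) n) (lW (eta d) n) ω) +
      z04_i (z04_E2 d k n A ω g) +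
      z04_i (∀ v, deg (bedges A) v ≤ d) +
      z04_i (z04_E4 d k n A ω g) +
      z04_i (z04_E5 d k n A ω g) +
      z04_F d k ε n A ω g := by
  obtain ⟨hJ0, hJ1⟩ := z03_J_law d k hd ε n h hCL A ω g
  have hle : ∑ H, z03_J d k ε n A ω g H * z04_i (¬ Fits d (sig A ω g) H) ≤ 1 :=
    calc _ ≤ ∑ H, z03_J d k ε n A ω g H :=
          Finset.sum_le_sum fun H _ => mul_le_of_le_one_right (hJ0 H) (z04_i1 _)
      _ = 1 := hJ1
  have n6 : 0 ≤ z04_F d k ε n A ω g := by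
    unfold z04_F
    split_ifs
    · exact (z04_B_unit d k _ _ hd (gam d / 2) ε h hCL _ _ _ _).1
    · exact le_rfl
  refine z04_case hle (z04_i0 _) (z04_i0 _) (z04_i0 _) (z04_i0 _) (z04_i0 _) n6 ?_
  by_cases hG : GW d (qW (eta d) n) (rW (eta d) n) (lW (eta d) n) ω
  swap
  · exact Or.inl (z04_ip hG)
  by_cases hC : Cond d (aW (gam d) n) (lW (eta d) n) (KA d A)
      (relV g (Ls k (qW (eta d) n) ω.1 ω.2.1)) (relG g (SW d (qW (eta d) n) ω))
  swap
  · exact Or.inr (Or.inl (z04_ip ⟨hG, hC⟩))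
  by_cases h3 : ∀ v, deg (bedges A) v ≤ d
  · exact Or.inr (Or.inr (Or.inl (z04_ip h3)))
  by_cases h4 : ∃ z ∈ Ls k (qW (eta d) n) ω.1 ω.2.1, g z ∈ z04_Q A
  · exact Or.inr (Or.inr (Or.inr (Or.inl (z04_ip ⟨hG, h4⟩))))
  by_cases h5 : z04_E5 d k n A ω g
  · exact Or.inr (Or.inr (Or.inr (Or.inr (Or.inl (z04_ip h5)))))
  refine Or.inr (Or.inr (Or.inr (Or.inr (Or.inr ?_))))
  have hk := Z03z d k (aW (gam d) n) (lW (eta d) n) hd (gam d / 2) ε (KA d A)
    (relG g (SW d (qW (eta d) n) ω)) (relV g (Ls k (qW (eta d) n) ω.1 ω.2.1)) hC h hCL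
  unfold z04_F
  rw [if_pos hG]
  unfold z04_B
  rw [if_pos hC]
  refine Finset.sum_le_sum fun H _ => ?_
  have hJH : z03_J d k ε n A ω g H = kap d k ε (KA d A ∪ relG g (SW d (qW (eta d) n) ω))
      (relV g (Ls k (qW (eta d) n) ω.1 ω.2.1)) (relT g (TW d (qW (eta d) n) ω)) H := by
    unfold z03_J kh
    rw [if_pos hG, if_pos hC]
  rw [hJH]
  by_cases hH : KA d A ∪ relG g (SW d (qW (eta d) n) ω) ⊆ H ∧
      H ⊆ KA d A ∪ relG g (SW d (qW (eta d) n) ω) ∪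
        pk (relV g (Ls k (qW (eta d) n) ω.1 ω.2.1)) (relT g (TW d (qW (eta d) n) ω))
  · have hf := z04_fits d hd A ω g H hG h3 h5 h4 hH.1 hH.2
    rw [z04_in (not_not.2 hf), mul_zero, if_pos hH]
  · rw [if_neg hH]
    exact mul_le_of_le_one_right (hk.1 _ H) (z04_i1 _)

lemma z04_t2 (d k : ℕ) (hd : 1 ≤ d) (ε : ℝ) (hε : 0 < ε) (n : ℕ) (hn1 : 1 ≤ n)
    (c5 : 4 * ((d : ℝ) + 1) ^ 2 * lW (eta d) n * (2 * aW (gam d) n + lW (eta d) n) / n ≤ ε)
    (hsz : (aW (gam d) n : ℝ) + d * lW (eta d) n ≤ (n : ℝ) ^ (1 - gam d / 2))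
    (hCL : CLp d k (gam d / 2) ε n)
    (e2 : pr (fun A : Fin (aW (gam d) n) → Fin n × Fin n => aW (gam d) n < (KA d A).card) ≤
      2 * ε) :
    av (fun A : Fin (aW (gam d) n) → Fin n × Fin n =>
      av (fun ω : WΩ n k (mW (eta d) n) => av (fun g : Equiv.Perm (Fin n) =>
        z04_i (z04_E2 d k n A ω g)))) ≤ 3 * ε := by
  have hFne : Nonempty (Fin n) := ⟨⟨0, hn1⟩⟩
  have hA : ∀ A : Fin (aW (gam d) n) → Fin n × Fin n,
      av (fun ω : WΩ n k (mW (eta d) n) => av (fun g : Equiv.Perm (Fin n) =>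
        z04_i (z04_E2 d k n A ω g))) ≤ ε + z04_i (aW (gam d) n < (KA d A).card) := by
    intro A
    by_cases hc : aW (gam d) n < (KA d A).card
    · rw [z04_ip hc]
      have : av (fun ω : WΩ n k (mW (eta d) n) => av (fun g : Equiv.Perm (Fin n) =>
        z04_i (z04_E2 d k n A ω g))) ≤ 1 :=
        (z03_av_unit fun ω => z03_av_unit fun g => z04_iu _).2
      linarith
    · rw [z04_in hc, add_zero]
      refine av_le_of_nonneg hε.le fun ω => ?_
      by_cases hG : GW d (qW (eta d) n) (rW (eta d) n) (lW (eta d) n) ω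
      · have hpl := (z03_plant d k (aW (gam d) n) (lW (eta d) n) hd hn1 (gam d / 2) ε hsz hCL
          c5 (fun _ => 1) (fun _ => ⟨zero_le_one, le_rfl⟩) (KA d A) (fun v => deg_KK_le d _ v)
          (not_lt.1 hc) (Ls k (qW (eta d) n) ω.1 ω.2.1) hG.cardL (SW d (qW (eta d) n) ω)
          hG.star).1
        refine le_trans ?_ hpl
        rw [z04_pr]
        refine av_mono fun g => ?_
        by_cases hap : Apart (KA d A) (relG g (SW d (qW (eta d) n) ω))
        · have hCo : Cond d (aW (gam d) n) (lW (eta d) n) (KA d A)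
              (relV g (Ls k (qW (eta d) n) ω.1 ω.2.1)) (relG g (SW d (qW (eta d) n) ω)) := by
            refine ⟨not_lt.1 hc, fun v => deg_KK_le d _ v, hap,
              (starForest_rel g d _ _).2 hG.star, ?_⟩
            rw [card_relV]
            exact hG.cardL
          have hnE : ¬ z04_E2 d k n A ω g := fun hh => hh.2 hCo
          rw [z04_in hnE]
          exact z04_i0 _
        · rw [z04_ip (show ¬ Apart (KA d A) (relG g (SW d (qW (eta d) n) ω)) from hap)]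
          exact z04_i1 _
      · refine av_le_of_nonneg hε.le fun g => ?_
        have hnE : ¬ z04_E2 d k n A ω g := fun hh => hG hh.1
        rw [z04_in hnE]
        exact hε.le
  refine (av_mono hA).trans ?_
  rw [av_add, av_const, ← z04_pr]
  linarith

lemma z04_t4 (d k : ℕ) (ε : ℝ) (hε : 0 < ε) (n : ℕ) (hn1 : 1 ≤ n)
    (c6 : (lW (eta d) n : ℝ) * (2 * aW (gam d) n) / n ≤ ε) :
    av (fun A : Fin (aW (gam d) n) → Fin n × Fin n =>
      av (fun ω : WΩ n k (mW (eta d) n) => av (fun g : Equiv.Perm (Fin n) =>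
        z04_i (z04_E4 d k n A ω g)))) ≤ ε := by
  have hn0 : (0 : ℝ) < n := by exact_mod_cast hn1
  refine av_le_of_nonneg hε.le fun A => av_le_of_nonneg hε.le fun ω => ?_
  by_cases hG : GW d (qW (eta d) n) (rW (eta d) n) (lW (eta d) n) ω
  · have hz := Z01 hn1 (Ls k (qW (eta d) n) ω.1 ω.2.1) (z04_Q A)
    have hLr : ((Ls k (qW (eta d) n) ω.1 ω.2.1).card : ℝ) ≤ lW (eta d) n := by
      exact_mod_cast hG.cardL
    have hQr : ((z04_Q A).card : ℝ) ≤ 2 * aW (gam d) n := by exact_mod_cast z04_card_Q A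
    have hz2 : ((Ls k (qW (eta d) n) ω.1 ω.2.1).card : ℝ) * (z04_Q A).card / n ≤ ε := by
      refine le_trans ?_ c6
      gcongr
    refine le_trans ?_ (hz.trans hz2)
    rw [z04_pr]
    refine av_mono fun g => ?_
    by_cases hq : ∃ z ∈ Ls k (qW (eta d) n) ω.1 ω.2.1, g z ∈ z04_Q A
    · rw [z04_ip hq]
      exact z04_i1 _
    · have hnE : ¬ z04_E4 d k n A ω g := fun hh => hq hh.2
      rw [z04_in hnE]
      exact z04_i0 _
  · refine av_le_of_nonneg hε.le fun g => ?_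
    have hnE : ¬ z04_E4 d k n A ω g := fun hh => hG hh.1
    rw [z04_in hnE]
    exact hε.le

lemma z04_t5 (d k : ℕ) (ε : ℝ) (hε : 0 < ε) (n : ℕ) (hn1 : 1 ≤ n)
    (e4 : pr (fun B : Fin (aW (gam d) n + mW (eta d) n) → Fin n × Fin n =>
      ∀ v, deg (bedges B) v ≠ 0) ≤ ε) :
    av (fun A : Fin (aW (gam d) n) → Fin n × Fin n =>
      av (fun ω : WΩ n k (mW (eta d) n) => av (fun g : Equiv.Perm (Fin n) =>
        z04_i (z04_E5 d k n A ω g)))) ≤ ε := by
  have ex : av (fun A : Fin (aW (gam d) n) → Fin n × Fin n =>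
      av (fun ω : WΩ n k (mW (eta d) n) => av (fun g : Equiv.Perm (Fin n) =>
        z04_i (z04_E5 d k n A ω g)))) =
      av (fun g : Equiv.Perm (Fin n) => av (fun A : Fin (aW (gam d) n) → Fin n × Fin n =>
        av (fun ω : WΩ n k (mW (eta d) n) => z04_i (z04_E5 d k n A ω g)))) := by
    rw [← av_comm (fun (A : Fin (aW (gam d) n) → Fin n × Fin n) (g : Equiv.Perm (Fin n)) =>
      av (fun ω : WΩ n k (mW (eta d) n) => z04_i (z04_E5 d k n A ω g)))]
    refine av_congr fun A => ?_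
    exact av_comm _
  rw [ex]
  refine av_le_of_nonneg hε.le fun g => ?_
  have := O04b (n := n) hn1 (aW (gam d) n) k (mW (eta d) n) g
    (fun C => z04_i (∀ v, deg (bedges C) v ≠ 0))
  exact (le_of_eq this).trans e4

lemma z04_t6 (d k : ℕ) (hd : 1 ≤ d) (ε : ℝ) (hε : 0 < ε) (n : ℕ)
    (c1 : 2 * (lW (eta d) n + d * lW (eta d) n + (k + 1) * rW (eta d) n) ≤ n)
    (c2 : 2 * k * (d * lW (eta d) n + (k + 1) * rW (eta d) n) ≤ n)
    (c3 : 8 * k * (d * lW (eta d) n + (k + 1) * rW (eta d) n) * rW (eta d) n ^ 2 ≤ n ^ 2)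
    (c4 : Real.sqrt (16 * k * (d * lW (eta d) n + (k + 1) * rW (eta d) n) *
      rW (eta d) n ^ 2 / n ^ 2) ≤ ε)
    (hsz : (aW (gam d) n : ℝ) + d * lW (eta d) n ≤ (n : ℝ) ^ (1 - gam d / 2))
    (hCL : CLp d k (gam d / 2) ε n) :
    av (fun A : Fin (aW (gam d) n) → Fin n × Fin n =>
      av (fun ω : WΩ n k (mW (eta d) n) => av (fun g : Equiv.Perm (Fin n) =>
        z04_F d k ε n A ω g))) ≤ 2 * ε := by
  refine av_le_of_nonneg (by linarith) fun A => ?_
  have hWT := (WT2 k (mW (eta d) n) d (qW (eta d) n) (rW (eta d) n) (lW (eta d) n) c1 c2 c3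
    (z04_B d k (aW (gam d) n) (lW (eta d) n) ε (KA d A))
    (fun L S => z04_B_unit d k _ _ hd (gam d / 2) ε hsz hCL _ L S)).trans c4
  have u := (abs_le.1 hWT).2
  have hfirst : av (fun ω : WΩ n k (mW (eta d) n) => av (fun g : Equiv.Perm (Fin n) =>
        z04_F d k ε n A ω g)) =
      av (fun ω : WΩ n k (mW (eta d) n) =>
        if GoodW d (qW (eta d) n) (rW (eta d) n) (lW (eta d) n) ω.1 ω.2.1 ω.2.2.1 ω.2.2.2.1
          ω.2.2.2.2 then
        av (fun g : Equiv.Perm (Fin n) => z04_B d k (aW (gam d) n) (lW (eta d) n) ε (KA d A)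
          (relV g (Ls k (qW (eta d) n) ω.1 ω.2.1))
          (relG g (SS d (rk (BB ω.1 ω.2.1 ω.2.2.1 ω.2.2.2.1) ω.2.2.2.2)
            (Ls k (qW (eta d) n) ω.1 ω.2.1)))
          (relT g (TT d (qW (eta d) n) ω.1 ω.2.1 ω.2.2.1 ω.2.2.2.1 ω.2.2.2.2))) else 0) := by
    refine av_congr fun ω => ?_
    by_cases hG : GW d (qW (eta d) n) (rW (eta d) n) (lW (eta d) n) ω
    · have hG' : GoodW d (qW (eta d) n) (rW (eta d) n) (lW (eta d) n) ω.1 ω.2.1 ω.2.2.1
        ω.2.2.2.1 ω.2.2.2.2 := hG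
      rw [if_pos hG']
      refine av_congr fun g => ?_
      unfold z04_F
      rw [if_pos hG]
      rfl
    · have hG' : ¬ GoodW d (qW (eta d) n) (rW (eta d) n) (lW (eta d) n) ω.1 ω.2.1 ω.2.2.1
        ω.2.2.2.1 ω.2.2.2.2 := hG
      rw [if_neg hG']
      have : ∀ g, z04_F d k ε n A ω g = 0 := fun g => by
        unfold z04_F
        rw [if_neg hG]
      rw [av_congr this, av_const]
  have hsecond : av (fun ω : WΩ n k (mW (eta d) n) =>
        if GoodW d (qW (eta d) n) (rW (eta d) n) (lW (eta d) n) ω.1 ω.2.1 ω.2.2.1 ω.2.2.2.1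
          ω.2.2.2.2 then
        av (fun g : Equiv.Perm (Fin n) => avOn (Tk k (relV g (Ls k (qW (eta d) n) ω.1 ω.2.1)))
          (z04_B d k (aW (gam d) n) (lW (eta d) n) ε (KA d A)
          (relV g (Ls k (qW (eta d) n) ω.1 ω.2.1))
          (relG g (SS d (rk (BB ω.1 ω.2.1 ω.2.2.1 ω.2.2.2.1) ω.2.2.2.2)
            (Ls k (qW (eta d) n) ω.1 ω.2.1))))) else 0) ≤ ε := by
    refine av_le_of_nonneg hε.le fun ω => ?_
    split_ifs
    · refine av_le_of_nonneg hε.le fun g => ?_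
      exact z04_B_avOn d k _ _ hd (gam d / 2) ε hε.le hsz hCL _ _ _
    · exact hε.le
  rw [hfirst]
  linarith

theorem Z04 (d k : ℕ) (hd : 1 ≤ d) (ε : ℝ) (hε : 0 < ε) : ∃ n₀ : ℕ, ∀ n ≥ n₀, Even (d * n) →
    CLp d k (gam d / 2) ε n →
      ∑ σ : Ord n, ∑ H, (if ¬ Fits d σ H then jw d k ε n σ H else 0) ≤ 12 * ε := by
  obtain ⟨n₀, h0⟩ := Z02 d k hd ε hε
  obtain ⟨n₁, h1⟩ := WT1 d k hd (eta d) (z03_eta d).1 (z03_eta d).2 ε hε
  obtain ⟨n₂, h2⟩ := z03_small d hd ε hε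
  obtain ⟨n₃, h3⟩ := K02 d hd (gam d) ε (z03_gam d).1 (z03_gam d).2 hε
  obtain ⟨n₄, h4⟩ := W20b (gam d) (eta d) ε (z03_gam d).1 (z03_eta d).1 (z03_eta d).2 hε
  refine ⟨max n₀ (max n₁ (max n₂ (max n₃ n₄))), fun n hn hev hCL => ?_⟩
  have hb0 : n₀ ≤ n := (le_max_left _ _).trans hn
  have hb0' := (le_max_right _ _).trans hn
  have hb1 : n₁ ≤ n := (le_max_left _ _).trans hb0'
  have hb1' := (le_max_right _ _).trans hb0'
  have hb2 : n₂ ≤ n := (le_max_left _ _).trans hb1'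
  have hb2' := (le_max_right _ _).trans hb1'
  have hb3 : n₃ ≤ n := (le_max_left _ _).trans hb2'
  have hb4 : n₄ ≤ n := (le_max_right _ _).trans hb2'
  obtain ⟨hn2, c1, c2, c3, c4, c5, c6, hsz⟩ := h0 n hb0
  have hn1 : 1 ≤ n := by omega
  have hFne : Nonempty (Fin n) := ⟨⟨0, hn1⟩⟩
  have hWne : Nonempty (WΩ n k (mW (eta d) n)) := z03_ne
  have e1 := h1 n hb1
  have e2 := h2 n hb2
  have e3 := h3 n hb3
  have e4 := h4 n hb4
  have hconv : ∑ σ : Ord n, ∑ H, (if ¬ Fits d σ H then jw d k ε n σ H else 0) =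
      ∑ σ : Ord n, ∑ H, jw d k ε n σ H * z04_i (¬ Fits d σ H) := by
    refine Finset.sum_congr rfl fun σ _ => Finset.sum_congr rfl fun H _ => ?_
    by_cases hf : ¬ Fits d σ H
    · rw [z04_ip hf, if_pos hf, mul_one]
    · rw [z04_in hf, if_neg hf, mul_zero]
  rw [hconv, z03_mix d k ε n (fun σ H => z04_i (¬ Fits d σ H))]
  refine (av_mono fun A => av_mono fun ω => av_mono fun g =>
    z04_point d k hd ε n hsz hCL A ω g).trans ?_
  simp only [av_add]
  have t1 : av (fun A : Fin (aW (gam d) n) → Fin n × Fin n =>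
      av (fun ω : WΩ n k (mW (eta d) n) => av (fun g : Equiv.Perm (Fin n) =>
        z04_i (¬ GW d (qW (eta d) n) (rW (eta d) n) (lW (eta d) n) ω)))) ≤ ε := by
    simp only [av_const]
    exact e1
  have t3 : av (fun A : Fin (aW (gam d) n) → Fin n × Fin n =>
      av (fun ω : WΩ n k (mW (eta d) n) => av (fun g : Equiv.Perm (Fin n) =>
        z04_i (∀ v, deg (bedges A) v ≤ d)))) ≤ ε := by
    simp only [av_const]
    exact e3
  have t2 := z04_t2 d k hd ε hε n hn1 c5 hsz hCL e2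
  have t4 := z04_t4 d k ε hε n hn1 c6
  have t5 := z04_t5 d k ε hε n hn1 e4
  have t6 := z04_t6 d k hd ε hε n c1 c2 c3 c4 hsz hCL
  linarith

end Pool.Agent.HC
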