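import Pool.Agent.Lib.MP_ec42c8_pr.F02
import Pool.Agent.Lib.MP_ec42c8_pr.Z04
import Pool.Agent.Lib.MP_ec42c8_pr.CL

/-!
# Z05 : the coupling for fixed d

PROOF.  Apply `CL` with `gam d / 2` and `ε / 24`, which gives `k` and `CLp d k (gam d / 2) (ε/24) n` for all
large `n` with `d n` even; then `Z03a`, `Z03b`, `Z04` and `F02` with `α = Ord n`, `β = Gr n`,
`u H = if H ∈ Reg n d ∅ then 1 / card (Reg n d ∅) else 0` (sum `1` because `Reg n d ∅` is nonempty, `CL` with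
`F = ∅`, `L = ∅`; `∑ u Φ = avOn (Reg n d ∅) Φ`), `q = jw`, `Bad σ H = ¬ Fits d σ H`.
-/

set_option autoImplicit false

namespace Pool.Agent.HC

open Finset
open scoped Classical

/-- A coupling of the process with the uniform regular graph that fails with probability at most
`ε`. -/
def Coup (d n : ℕ) (ε : ℝ) : Prop :=
  (Reg n d ∅).Nonempty ∧ ∃ w : Ord n → Gr n → ℝ, (∀ σ H, 0 ≤ w σ H) ∧
    (∀ σ, ∑ H, w σ H = 1 / (Fintype.card (Ord n) : ℝ)) ∧
    (∀ H, ∑ σ, w σ H = if H ∈ Reg n d ∅ then 1 / ((Reg n d ∅).card : ℝ) else 0) ∧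
    ∑ σ, ∑ H, (if Fits d σ H then 0 else w σ H) ≤ ε

theorem Z05 (d : ℕ) (hd : 1 ≤ d) (ε : ℝ) (hε : 0 < ε) : ∃ n₀ : ℕ, ∀ n ≥ n₀, Even (d * n) →
    Coup d n ε := by
  have hγ : 0 < gam d / 2 := by
    unfold gam
    positivity
  have hε' : 0 < ε / 24 := by positivity
  obtain ⟨k, n₁, h₁⟩ := CL d hd (gam d / 2) (ε / 24) hγ hε'
  obtain ⟨n₂, h₂⟩ := Z03a d k hd (ε / 24) hε'
  obtain ⟨n₃, h₃⟩ := Z03b d k hd (ε / 24) hε'
  obtain ⟨n₄, h₄⟩ := Z04 d k hd (ε / 24) hε'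
  refine ⟨max (max n₁ n₂) (max n₃ (max n₄ 1)), fun n hn hdn => ?_⟩
  have hn1 : n₁ ≤ n := le_trans (le_trans (le_max_left _ _) (le_max_left _ _)) hn
  have hn2 : n₂ ≤ n := le_trans (le_trans (le_max_right _ _) (le_max_left _ _)) hn
  have hn3 : n₃ ≤ n := le_trans (le_trans (le_max_left _ _) (le_max_right _ _)) hn
  have hn4 : n₄ ≤ n :=
    le_trans (le_trans (le_trans (le_max_left _ _) (le_max_right _ _)) (le_max_right _ _)) hn
  have hn5 : 1 ≤ n :=
    le_trans (le_trans (le_trans (le_max_right _ _) (le_max_right _ _)) (le_max_right _ _)) hn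
  have hCL : CLp d k (gam d / 2) (ε / 24) n := by
    intro F L h1 h2 h3
    obtain ⟨h4, κ, h5⟩ := h₁ n hn1 hdn F L h1 h2 h3
    exact ⟨h4, κ, h5⟩
  have hne : (Reg n d ∅).Nonempty := by
    refine (hCL ∅ ∅ (fun v => by simp [deg]) (fun v hv => by simp at hv) ?_).1
    simp only [Finset.card_empty, Nat.cast_zero]
    positivity
  have hcard : ((Reg n d ∅).card : ℝ) ≠ 0 := by
    exact_mod_cast hne.card_pos.ne'
  obtain ⟨hq0, hq1⟩ := h₂ n hn2 hdn hCL
  have hu : ∀ Φ : Gr n → ℝ, ∑ H, (if H ∈ Reg n d ∅ then 1 / ((Reg n d ∅).card : ℝ) else 0) * Φ H =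
      avOn (Reg n d ∅) Φ := by
    intro Φ
    simp only [ite_mul, zero_mul]
    rw [← Finset.sum_filter]
    simp only [Finset.filter_mem_eq_inter, Finset.univ_inter]
    rw [avOn, Finset.sum_div]
    exact Finset.sum_congr rfl fun H _ => by ring
  have : Nonempty (Ord n) := ⟨(Fintype.equivFin (Edge n)).symm⟩
  obtain ⟨w, hw0, hw1, hw2, hw3⟩ := F02 (jw d k (ε / 24) n) hq0 hq1
    (fun H => if H ∈ Reg n d ∅ then 1 / ((Reg n d ∅).card : ℝ) else 0)
    (fun H => by split_ifs <;> positivity)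
    (by
      have := hu (fun _ => 1)
      simp only [mul_one] at this
      rw [this, avOn_const hne])
    (12 * (ε / 24))
    (fun Φ hΦ => by
      rw [hu Φ]
      exact h₃ n hn3 hdn hCL Φ hΦ)
    (fun σ H => ¬ Fits d σ H) (12 * (ε / 24)) (by convert! h₄ n hn4 hdn hCL)
  refine ⟨hne, w, hw0, hw1, hw2, ?_⟩
  have : ∑ σ, ∑ H, (if Fits d σ H then 0 else w σ H) =
      ∑ σ, ∑ H, (if ¬ Fits d σ H then w σ H else 0) := by
    refine Finset.sum_congr rfl fun σ _ => Finset.sum_congr rfl fun H _ => ?_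
    by_cases h : Fits d σ H <;> simp [h]
  rw [this]
  refine le_trans (le_of_eq ?_) (hw3.trans (le_of_eq (by ring)))
  refine Finset.sum_congr rfl fun σ _ => Finset.sum_congr rfl fun H _ => ?_
  by_cases h : Fits d σ H <;> simp [h]

end Pool.Agent.HC
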