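import Pool.Agent.Lib.MP_ec42c8_pr.Z05

/-!
# Z06 : complements and all small degrees at once

`Z06a`: let `w` be a coupling for `d`; put `w' σ H = w (Fin.revPerm.trans σ) Hᶜ` (reverse the ordering and
complement the graph).  `deg Hᶜ v = n - 1 - deg H v` (there are `n - 1` pairs at `v`), so `H ↦ Hᶜ` is a
bijection from `Reg n d ∅` to `Reg n (n-1-d) ∅`.  For `σ' = Fin.revPerm.trans σ`:
`proc σ' i = (proc σ (NE n - i))ᶜ` for `i ≤ NE n` (for larger `i` use `i = NE n`).
If the degrees of `proc σ' i` are at most `n-1-d` then those of `proc σ (NE n - i)` are at least `d`, so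
`Fits d σ H` gives `H ⊆ proc σ (NE n - i)`, i.e. `proc σ' i ⊆ Hᶜ`; similarly for the other implication.
`Z06b`: `Reg n 0 ∅ = {∅}`; `w σ H = 1 / card` if `H = ∅`, else `0`.
`Z06c` (diagonal argument).  For `j ≥ 1` let `N j` be such that `Coup d n (1/j)` for all `1 ≤ d ≤ j`, `n ≥ N j`
with `d n` even (`Z05`).  Let `D n` be the largest `j ≤ n` with `N i ≤ n` for all `1 ≤ i ≤ j` (`0` if there is
none).  `Coup` is monotone in `ε`.
-/

set_option autoImplicit false

namespace Pool.Agent.HC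

open Finset
open scoped Classical

lemma z06_card_at {n : ℕ} (v : Fin n) :
    (univ.filter (fun e : Edge n => v ∈ e.1)).card = n - 1 := by
  have h1 : (univ.filter (fun w : Fin n => v ≠ w)).card = n - 1 := by
    have h2 : (univ.filter (fun w : Fin n => v ≠ w)) = univ.erase v := by
      ext w
      simp [eq_comm]
    rw [h2, Finset.card_erase_of_mem (Finset.mem_univ v), Finset.card_univ, Fintype.card_fin]
  rw [← h1]
  symm
  refine Finset.card_bij (fun w hw => mkE v w (Finset.mem_filter.1 hw).2) ?_ ?_ ?_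
  · intro w hw
    rw [Finset.mem_filter]
    exact ⟨Finset.mem_univ _, Sym2.mem_mk_left v w⟩
  · intro w hw w' hw' h
    have h2 : s(v, w) = s(v, w') := congrArg Subtype.val h
    exact Sym2.congr_right.1 h2
  · intro e he
    obtain ⟨w, hw⟩ := Sym2.mem_iff_exists.1 (Finset.mem_filter.1 he).2
    have hne : v ≠ w := by
      intro h
      apply e.2
      rw [hw, h]
      exact Sym2.mk_isDiag_iff.2 rfl
    refine ⟨w, ?_, ?_⟩
    · rw [Finset.mem_filter]
      exact ⟨Finset.mem_univ _, hne⟩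
    · apply Subtype.ext
      exact hw.symm

lemma z06_deg_compl {n : ℕ} (H : Gr n) (v : Fin n) : deg H v + deg Hᶜ v = n - 1 := by
  rw [← z06_card_at v]
  unfold deg
  rw [← Finset.card_union_of_disjoint]
  · congr 1
    ext e
    simp only [Finset.mem_union, Finset.mem_filter, Finset.mem_compl, Finset.mem_univ, true_and]
    tauto
  · exact Finset.disjoint_filter_filter disjoint_compl_right

lemma z06_proc_rev {n : ℕ} (σ : Ord n) (i : ℕ) :
    proc (Fin.revPerm.trans σ : Ord n) (NE n - i) = (proc σ i)ᶜ := by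
  ext e
  rw [Finset.mem_compl]
  unfold proc
  rw [Finset.mem_filter, Finset.mem_filter]
  have h1 : ((Fin.revPerm.trans σ : Ord n).symm e : ℕ) = NE n - ((σ.symm e : ℕ) + 1) := by
    simp [Fin.val_rev]
  rw [h1]
  have h2 : (σ.symm e : ℕ) < NE n := (σ.symm e).2
  simp only [Finset.mem_univ, true_and]
  omega

lemma z06_fits {n d : ℕ} (hd : d + 1 ≤ n) (σ : Ord n) (H : Gr n)
    (h : Fits d (Fin.revPerm.trans σ : Ord n) Hᶜ) : Fits (n - 1 - d) σ H := by
  intro i
  obtain ⟨h1, h2⟩ := h (NE n - i)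
  rw [z06_proc_rev] at h1 h2
  constructor
  · intro h3
    have h4 : Hᶜ ⊆ (proc σ i)ᶜ := by
      apply h2
      intro v
      have := z06_deg_compl (proc σ i) v
      have := h3 v
      omega
    exact Finset.compl_subset_compl.1 h4
  · intro h3
    have h4 : (proc σ i)ᶜ ⊆ Hᶜ := by
      apply h1
      intro v
      have := z06_deg_compl (proc σ i) v
      have := h3 v
      omega
    exact Finset.compl_subset_compl.1 h4

lemma z06_mem_reg {n d : ℕ} (hd : d + 1 ≤ n) (H : Gr n) :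
    Hᶜ ∈ Reg n d ∅ ↔ H ∈ Reg n (n - 1 - d) ∅ := by
  unfold Reg
  simp only [Finset.mem_filter, Finset.mem_univ, true_and, Finset.empty_subset]
  constructor
  · intro h v
    have h1 := z06_deg_compl H v
    have h2 := h v
    omega
  · intro h v
    have h1 := z06_deg_compl H v
    have h2 := h v
    omega

/-- Complementation. -/
noncomputable def z06_compl (n : ℕ) : Gr n ≃ Gr n where
  toFun H := Hᶜ
  invFun H := Hᶜ
  left_inv H := compl_compl H
  right_inv H := compl_compl H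

/-- Reversal. -/
noncomputable def z06_rev (n : ℕ) : Ord n ≃ Ord n where
  toFun σ := Fin.revPerm.trans σ
  invFun σ := Fin.revPerm.trans σ
  left_inv σ := by
    ext i
    simp
  right_inv σ := by
    ext i
    simp

theorem Z06a (d n : ℕ) (ε : ℝ) (hd : d + 1 ≤ n) (h : Coup d n ε) : Coup (n - 1 - d) n ε := by
  obtain ⟨hne, w, h1, h2, h3, h4⟩ := h
  have hcard : (Reg n (n - 1 - d) ∅).card = (Reg n d ∅).card := by
    refine Finset.card_bij (fun H _ => Hᶜ) ?_ ?_ ?_
    · intro H hH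
      exact (z06_mem_reg hd H).2 hH
    · intro H _ H' _ h
      exact compl_injective h
    · intro H hH
      refine ⟨Hᶜ, ?_, compl_compl H⟩
      apply (z06_mem_reg hd Hᶜ).1
      rw [compl_compl]
      exact hH
  refine ⟨?_, fun σ H => w (z06_rev n σ) (z06_compl n H), ?_, ?_, ?_, ?_⟩
  · rw [← Finset.card_pos, hcard, Finset.card_pos]
    exact hne
  · intro σ H
    exact h1 _ _
  · intro σ
    rw [Equiv.sum_comp (z06_compl n) (fun H => w (z06_rev n σ) H)]
    exact h2 _
  · intro H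
    rw [Equiv.sum_comp (z06_rev n) (fun σ => w σ (z06_compl n H)), h3, hcard]
    have h5 : z06_compl n H = Hᶜ := rfl
    rw [h5]
    by_cases h6 : H ∈ Reg n (n - 1 - d) ∅
    · rw [if_pos h6, if_pos ((z06_mem_reg hd H).2 h6)]
    · rw [if_neg h6, if_neg (fun h => h6 ((z06_mem_reg hd H).1 h))]
  · refine le_trans ?_ h4
    have h5 : ∑ σ, ∑ H, (if Fits d σ H then 0 else w σ H) =
        ∑ σ, ∑ H, (if Fits d (z06_rev n σ) (z06_compl n H) then 0
          else w (z06_rev n σ) (z06_compl n H)) := by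
      rw [← Equiv.sum_comp (z06_rev n) (fun σ => ∑ H, (if Fits d σ H then 0 else w σ H))]
      refine Finset.sum_congr rfl fun σ _ => ?_
      rw [← Equiv.sum_comp (z06_compl n)
        (fun H => (if Fits d (z06_rev n σ) H then 0 else w (z06_rev n σ) H))]
    rw [h5]
    refine Finset.sum_le_sum fun σ _ => Finset.sum_le_sum fun H _ => ?_
    by_cases h6 : Fits d (z06_rev n σ) (z06_compl n H)
    · rw [if_pos h6, if_pos (z06_fits hd σ H h6)]
    · rw [if_neg h6]
      split_ifs
      · exact h1 _ _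
      · exact le_refl _

lemma z06_eq_empty {n : ℕ} (H : Gr n) (h : ∀ v, deg H v = 0) : H = ∅ := by
  rw [Finset.eq_empty_iff_forall_notMem]
  intro e he
  obtain ⟨x, y, hxy⟩ : ∃ x y, e.1 = s(x, y) := by
    obtain ⟨e', he'⟩ := e
    induction e' using Sym2.inductionOn with
    | hf x y => exact ⟨x, y, rfl⟩
  have h1 := h x
  unfold deg at h1
  rw [Finset.card_eq_zero, Finset.eq_empty_iff_forall_notMem] at h1
  apply h1 e
  rw [Finset.mem_filter]
  refine ⟨he, ?_⟩
  rw [hxy]
  exact Sym2.mem_mk_left x y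

lemma z06_deg_empty {n : ℕ} (v : Fin n) : deg (∅ : Gr n) v = 0 := by
  simp [deg]

lemma z06_reg_zero (n : ℕ) : Reg n 0 ∅ = {∅} := by
  ext H
  unfold Reg
  simp only [Finset.mem_filter, Finset.mem_univ, true_and, Finset.empty_subset,
    Finset.mem_singleton]
  constructor
  · intro h
    exact z06_eq_empty H h
  · intro h v
    rw [h]
    exact z06_deg_empty v

theorem Z06b (n : ℕ) : Coup 0 n 0 := by
  have hord : (Fintype.card (Ord n) : ℝ) ≠ 0 := by
    have : Nonempty (Ord n) := ⟨(Fintype.equivFin (Edge n)).symm⟩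
    exact_mod_cast Fintype.card_ne_zero
  refine ⟨?_, fun σ H => if H = ∅ then 1 / (Fintype.card (Ord n) : ℝ) else 0, ?_, ?_, ?_, ?_⟩
  · rw [z06_reg_zero]
    exact Finset.singleton_nonempty _
  · intro σ H
    show (0 : ℝ) ≤ if H = ∅ then 1 / (Fintype.card (Ord n) : ℝ) else 0
    split_ifs
    · positivity
    · exact le_refl _
  · intro σ
    simp
  · intro H
    show ∑ σ : Ord n, (if H = ∅ then 1 / (Fintype.card (Ord n) : ℝ) else 0) = _
    rw [Finset.sum_const, Finset.card_univ, nsmul_eq_mul, z06_reg_zero, Finset.card_singleton]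
    by_cases h : H = ∅
    · rw [if_pos h, if_pos (Finset.mem_singleton.2 h)]
      push_cast
      field_simp
    · rw [if_neg h, if_neg (fun h' => h (Finset.mem_singleton.1 h')), mul_zero]
  · refine le_of_eq (Finset.sum_eq_zero fun σ _ => Finset.sum_eq_zero fun H _ => ?_)
    by_cases h1 : Fits 0 σ H
    · rw [if_pos h1]
    · rw [if_neg h1]
      show (if H = ∅ then 1 / (Fintype.card (Ord n) : ℝ) else 0) = 0
      rw [if_neg]
      intro h2
      apply h1
      intro i
      rw [h2]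
      refine ⟨fun h => ?_, fun _ => Finset.empty_subset _⟩
      rw [z06_eq_empty (proc σ i) (fun v => Nat.le_zero.1 (h v))]

theorem Coup.mono {d n : ℕ} {ε ε' : ℝ} (h : Coup d n ε) (hε : ε ≤ ε') : Coup d n ε' := by
  obtain ⟨hne, w, h1, h2, h3, h4⟩ := h
  exact ⟨hne, w, h1, h2, h3, h4.trans hε⟩

lemma z06_greatest (Q : ℕ → Prop) (h0 : Q 0) (n : ℕ) : ∃ D, Q D ∧ ∀ j ≤ n, Q j → j ≤ D := by
  refine ⟨Nat.findGreatest Q n, ?_, ?_⟩
  · exact Nat.findGreatest_spec (P := Q) (Nat.zero_le n) h0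
  · intro j hj hQ
    exact Nat.le_findGreatest hj hQ

theorem Z06c : ∃ D : ℕ → ℕ, Filter.Tendsto D Filter.atTop Filter.atTop ∧
    ∀ ε : ℝ, 0 < ε → ∃ n₀ : ℕ, ∀ n ≥ n₀, ∀ d, 1 ≤ d → d ≤ D n → Even (d * n) → Coup d n ε := by
  have hN : ∀ j : ℕ, ∃ N : ℕ, 1 ≤ j → ∀ n ≥ N, ∀ d, 1 ≤ d → d ≤ j → Even (d * n) →
      Coup d n (1 / (j : ℝ)) := by
    intro j
    by_cases hj : 1 ≤ j
    · have hpos : (0 : ℝ) < 1 / (j : ℝ) := by
        have : (0 : ℝ) < j := by exact_mod_cast hj
        positivity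
      have h1 : ∀ d : ℕ, ∃ n₀ : ℕ, 1 ≤ d → ∀ n ≥ n₀, Even (d * n) → Coup d n (1 / (j : ℝ)) := by
        intro d
        by_cases hd : 1 ≤ d
        · obtain ⟨n₀, h⟩ := Z05 d hd (1 / (j : ℝ)) hpos
          exact ⟨n₀, fun _ => h⟩
        · exact ⟨0, fun h => absurd h hd⟩
      choose f hf using h1
      refine ⟨(Finset.range (j + 1)).sup f, fun _ n hn d hd1 hd2 hev => ?_⟩
      refine hf d hd1 n (le_trans ?_ hn) hev
      exact Finset.le_sup (f := f) (Finset.mem_range.2 (by omega))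
    · exact ⟨0, fun h => absurd h hj⟩
  choose N hN using hN
  have hD : ∀ n, ∃ D, (∀ i, 1 ≤ i → i ≤ D → N i ≤ n) ∧
      ∀ j ≤ n, (∀ i, 1 ≤ i → i ≤ j → N i ≤ n) → j ≤ D := by
    intro n
    exact z06_greatest (fun j => ∀ i, 1 ≤ i → i ≤ j → N i ≤ n) (fun i h1 h2 => by omega) n
  choose D hspec hgr using hD
  have hbig : ∀ j, ∃ n₀, ∀ n ≥ n₀, j ≤ D n := by
    intro j
    refine ⟨max j ((Finset.range (j + 1)).sup N), fun n hn => ?_⟩
    refine hgr n j (le_trans (le_max_left _ _) hn) ?_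
    intro i _ h2
    refine le_trans ?_ (le_trans (le_max_right _ _) hn)
    exact Finset.le_sup (f := N) (Finset.mem_range.2 (by omega))
  refine ⟨D, ?_, ?_⟩
  · rw [Filter.tendsto_atTop]
    intro j
    obtain ⟨n₀, h⟩ := hbig j
    exact Filter.eventually_atTop.2 ⟨n₀, h⟩
  · intro ε hε
    obtain ⟨j₀, hj₀⟩ := exists_nat_one_div_lt hε
    obtain ⟨n₀, h⟩ := hbig (j₀ + 1)
    refine ⟨n₀, fun n hn d hd1 hd2 hev => ?_⟩
    have h1 := h n hn
    have h2 : N (D n) ≤ n := hspec n (D n) (by omega) le_rfl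
    have h3 := hN (D n) (by omega) n h2 d hd1 hd2 hev
    refine h3.mono ?_
    refine le_trans ?_ hj₀.le
    have h4 : (0 : ℝ) < (j₀ : ℝ) + 1 := by positivity
    refine one_div_le_one_div_of_le h4 ?_
    exact_mod_cast h1

/-- All degrees `d ≤ D n` or `d ≥ n - 1 - D n`. -/
theorem Z06 : ∃ D : ℕ → ℕ, Filter.Tendsto D Filter.atTop Filter.atTop ∧
    ∀ ε : ℝ, 0 < ε → ∃ n₀ : ℕ, ∀ n ≥ n₀, ∀ d, d + 1 ≤ n → Even (d * n) →
      (d ≤ D n ∨ n ≤ d + 1 + D n) → Coup d n ε := by
  obtain ⟨D, hD, hmain⟩ := Z06c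
  refine ⟨D, hD, fun ε hε => ?_⟩
  obtain ⟨n₀, hn₀⟩ := hmain ε hε
  have hsmall : ∀ n ≥ n₀, ∀ d, d ≤ D n → Even (d * n) → Coup d n ε := by
    intro n hn d hd hev
    by_cases h0 : d = 0
    · rw [h0]
      exact (Z06b n).mono hε.le
    · exact hn₀ n hn d (by omega) hd hev
  refine ⟨n₀, fun n hn d hd hev hor => ?_⟩
  rcases hor with h | h
  · exact hsmall n hn d h hev
  · have h1 : n - 1 - (n - 1 - d) = d := by omega
    have hev' : Even ((n - 1 - d) * n) := by
      have h2 : (n - 1 - d) * n + d * n = (n - 1) * n := by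
        rw [← Nat.add_mul]
        congr 1
        omega
      have h3 : Even ((n - 1) * n) := by
        have h4 : n - 1 + 1 = n := by omega
        have h5 := Nat.even_mul_succ_self (n - 1)
        rw [h4] at h5
        exact h5
      rw [← h2, Nat.even_add] at h3
      exact h3.2 hev
    have h6 := Z06a (n - 1 - d) n ε (by omega) (hsmall n hn (n - 1 - d) (by omega) hev')
    rw [h1] at h6
    exact h6

end Pool.Agent.HC
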