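import Pool.Agent.Lib.MP_ec42c8_pr.Z06

/-!
# Z07 : translation to `SimpleGraph`
-/

set_option autoImplicit false

namespace Pool.Agent.HC

open Finset
open scoped Classical

/-- The simple graph of a set of edges. -/
def toG {n : ℕ} (H : Gr n) : SimpleGraph (Fin n) :=
  SimpleGraph.fromEdgeSet {e | ∃ h : ¬ e.IsDiag, (⟨e, h⟩ : Edge n) ∈ H}

lemma z07_adj {n : ℕ} (H : Gr n) (x y : Fin n) :
    (toG H).Adj x y ↔ ∃ h : x ≠ y, mkE x y h ∈ H := by
  simp only [toG, SimpleGraph.fromEdgeSet_adj, Set.mem_ofPred_eq, mkE]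
  constructor
  · rintro ⟨⟨h, hH⟩, hne⟩
    exact ⟨hne, hH⟩
  · rintro ⟨hne, hH⟩
    exact ⟨⟨by rw [Sym2.mk_isDiag_iff]; exact hne, hH⟩, hne⟩

/-- Graphs as sets of edges and as simple graphs. -/
noncomputable def eG (n : ℕ) : Gr n ≃ SimpleGraph (Fin n) where
  toFun := toG
  invFun G := Finset.univ.filter (fun e : Edge n => e.1 ∈ G.edgeSet)
  left_inv H := by
    ext ⟨e, he⟩
    induction e using Sym2.inductionOn with
    | hf x y =>
      simp only [Finset.mem_filter, Finset.mem_univ, true_and, SimpleGraph.mem_edgeSet, z07_adj]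
      constructor
      · rintro ⟨h, hH⟩
        exact hH
      · intro hH
        exact ⟨by simpa using he, hH⟩
  right_inv G := by
    ext x y
    rw [z07_adj]
    simp only [Finset.mem_filter, Finset.mem_univ, true_and, mkE, SimpleGraph.mem_edgeSet]
    constructor
    · rintro ⟨_, h⟩
      exact h
    · intro h
      exact ⟨h.ne, h⟩

lemma z07_le {n : ℕ} (H H' : Gr n) : toG H ≤ toG H' ↔ H ⊆ H' := by
  constructor
  · intro h ⟨e, he⟩ heH
    induction e using Sym2.inductionOn with
    | hf x y =>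
      have hne : x ≠ y := by simpa using he
      have h1 : (toG H).Adj x y := (z07_adj H x y).2 ⟨hne, heH⟩
      obtain ⟨_, h2⟩ := (z07_adj H' x y).1 (h h1)
      exact h2
  · intro h x y hxy
    obtain ⟨hne, h1⟩ := (z07_adj H x y).1 hxy
    exact (z07_adj H' x y).2 ⟨hne, h h1⟩

lemma z07_degree {n : ℕ} (H : Gr n) (v : Fin n) [Fintype ((toG H).neighborSet v)] :
    (toG H).degree v = deg H v := by
  rw [← SimpleGraph.card_neighborFinset_eq_degree, deg]
  refine Finset.card_bij' (fun x hx => mkE v x (by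
      rw [SimpleGraph.mem_neighborFinset, z07_adj] at hx; exact hx.1))
    (fun e he => Sym2.Mem.other (a := v) (z := e.1) (by
      rw [Finset.mem_filter] at he; exact he.2)) ?_ ?_ ?_ ?_
  · intro x hx
    rw [SimpleGraph.mem_neighborFinset, z07_adj] at hx
    rw [Finset.mem_filter]
    exact ⟨hx.2, by simp [mkE]⟩
  · intro e he
    rw [Finset.mem_filter] at he
    rw [SimpleGraph.mem_neighborFinset, z07_adj]
    have h1 := Sym2.other_spec he.2
    have hne : v ≠ Sym2.Mem.other he.2 := by
      intro h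
      have h2 := e.2
      rw [← h1, Sym2.mk_isDiag_iff] at h2
      exact h2 h
    refine ⟨hne, ?_⟩
    have : mkE v (Sym2.Mem.other he.2) hne = e := Subtype.ext h1
    rw [this]
    exact he.1
  · intro x hx
    have h1 : v ∈ (s(v, x) : Sym2 (Fin n)) := by simp
    have h2 := Sym2.other_spec h1
    exact (Sym2.congr_right.1 h2)
  · intro e he
    rw [Finset.mem_filter] at he
    exact Subtype.ext (Sym2.other_spec he.2)

end Pool.Agent.HC
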