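import Pool.Agent.Lib.MP_ec42c8_pr.F01

/-!
# ZDefs : definitions for the assembly
-/

set_option autoImplicit false

namespace Pool.Agent.HC

open Finset
open scoped Classical

/-- The exponent of the initial array. -/
noncomputable def gam (d : ℕ) : ℝ := 1 / ((d : ℝ) + 2)

/-- The small exponent of the window. -/
noncomputable def eta (d : ℕ) : ℝ := 1 / (100 * ((d : ℝ) + 2))

/-- The ordering built from the initial array, the window and the relabelling. -/
noncomputable def sig {n a k m : ℕ} (A : Fin a → Fin n × Fin n) (ω : WΩ n k m)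
    (g : Equiv.Perm (Fin n)) : Ord n :=
  ordOf (rk (app A (relB g (BB ω.1 ω.2.1 ω.2.2.1 ω.2.2.2.1))) ((relE g).symm.trans ω.2.2.2.2))

/-- The planted graph, computed from the initial array. -/
noncomputable def KA {n a : ℕ} (d : ℕ) (A : Fin a → Fin n × Fin n) : Gr n :=
  KK d (ordOf (rk A (Fintype.equivFin (Edge n))))

/-- The stars of the window. -/
noncomputable def SW {n k m : ℕ} (d q : ℕ) (ω : WΩ n k m) : Gr n :=
  SS d (rk (BB ω.1 ω.2.1 ω.2.2.1 ω.2.2.2.1) ω.2.2.2.2) (Ls k q ω.1 ω.2.1)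

/-- The table of picks of the window. -/
noncomputable def TW {n k m : ℕ} (d q : ℕ) (ω : WΩ n k m) : Fin n → Fin k → Fin n :=
  TT d q ω.1 ω.2.1 ω.2.2.1 ω.2.2.2.1 ω.2.2.2.2

/-- The window is good. -/
def GW {n k m : ℕ} (d q r l : ℕ) (ω : WΩ n k m) : Prop :=
  GoodW d q r l ω.1 ω.2.1 ω.2.2.1 ω.2.2.2.1 ω.2.2.2.2

/-- The planted graph and the stars fit together. -/
def Cond {n : ℕ} (d a l : ℕ) (K : Gr n) (L : Finset (Fin n)) (S : Gr n) : Prop :=
  K.card ≤ a ∧ (∀ v, deg K v ≤ d) ∧ Apart K S ∧ StarForest d L S ∧ L.card ≤ l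

/-- `κ` completes `F` inside the picks. -/
def IsKap {n : ℕ} (d k : ℕ) (ε : ℝ) (F : Gr n) (L : Finset (Fin n))
    (κ : (Fin n → Fin k → Fin n) → Gr n → ℝ) : Prop :=
  (∀ θ H, 0 ≤ κ θ H) ∧ (∀ θ, ∑ H, κ θ H = 1) ∧
    (∀ H, avOn (Tk k L) (fun θ => κ θ H) =
      if H ∈ Reg n d F then 1 / ((Reg n d F).card : ℝ) else 0) ∧
    avOn (Tk k L) (fun θ => ∑ H, if F ⊆ H ∧ H ⊆ F ∪ pk L θ then 0 else κ θ H) ≤ ε

/-- The conclusion of `CL` for given `k`, `n`. -/
def CLp (d k : ℕ) (γ ε : ℝ) (n : ℕ) : Prop :=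
  ∀ (F : Gr n) (L : Finset (Fin n)), (∀ v, deg F v ≤ d) → (∀ v ∈ L, deg F v = d) →
    (F.card : ℝ) ≤ (n : ℝ) ^ (1 - γ) → (Reg n d F).Nonempty ∧ ∃ κ, IsKap d k ε F L κ

/-- The chosen completion kernel. -/
noncomputable def kap {n : ℕ} (d k : ℕ) (ε : ℝ) (F : Gr n) (L : Finset (Fin n)) :
    (Fin n → Fin k → Fin n) → Gr n → ℝ :=
  if h : ∃ κ, IsKap d k ε F L κ then h.choose else fun _ H => if H = ∅ then 1 else 0

/-- The conditional law of the regular graph. -/
noncomputable def kh {n : ℕ} (d k a l : ℕ) (ε : ℝ) (K : Gr n) (L : Finset (Fin n)) (S : Gr n)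
    (θ : Fin n → Fin k → Fin n) (H : Gr n) : ℝ :=
  if Cond d a l K L S then kap d k ε (K ∪ S) L θ H else if H = ∅ then 1 else 0

/-- The joint law of the process and the regular graph. -/
noncomputable def jw (d k : ℕ) (ε : ℝ) (n : ℕ) (σ : Ord n) (H : Gr n) : ℝ :=
  av (fun A : Fin (aW (gam d) n) → Fin n × Fin n =>
    av (fun ω : WΩ n k (mW (eta d) n) => av (fun g : Equiv.Perm (Fin n) =>
      if sig A ω g = σ then
        (if GW d (qW (eta d) n) (rW (eta d) n) (lW (eta d) n) ω then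
          kh d k (aW (gam d) n) (lW (eta d) n) ε (KA d A) (relV g (Ls k (qW (eta d) n) ω.1 ω.2.1))
            (relG g (SW d (qW (eta d) n) ω)) (relT g (TW d (qW (eta d) n) ω)) H
        else if H = ∅ then 1 else 0)
      else 0)))

end Pool.Agent.HC
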